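import Mathlib
import Pool.Agent.R405.TP2

/-!
Functions with small heights along a filter.
-/

set_option autoImplicit false
set_option linter.unusedSectionVars false

open Finset Filter Topology

namespace Pool.Agent.N750

open NumberField IsDedekindDomain Height Module
open Pool.Agent.W180.OP (Pl av wt nrm le_nrm nrm_pos wt_nonneg)

variable {K : Type} [Field K] [NumberField K] {α : Type}

/-- the height of a family is at most the sum of the heights of its members -/
theorem logHeight_le_sum {ι : Type} [Fintype ι] [DecidableEq ι] (x : ι → K) :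
    logHeight x ≤ ∑ i, logHeight₁ (x i) := by
  have h1 := logHeight_fun_prod_eq (K := K) (α := ι) (ι := fun _ => Fin 2)
    (x := fun i => ![x i, 1]) (by
      intro i h
      have := congrFun h 1
      simp at this)
  have h2 : x = (fun I : ι → Fin 2 => ∏ i, (![x i, 1] : Fin 2 → K) (I i)) ∘
      (fun i => fun j => if j = i then 0 else 1) := by
    funext i
    simp only [Function.comp]
    rw [Finset.prod_eq_single i]
    · simp
    · intro j _ hj
      rw [if_neg hj]
      rfl
    · intro h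
      exact absurd (Finset.mem_univ _) h
  conv_lhs => rw [h2]
  refine (logHeight_comp_le _ _).trans (le_of_eq ?_)
  rw [h1]
  exact Finset.sum_congr rfl fun i _ => (logHeight₁_eq_logHeight _).symm

/-- a part of the height -/
theorem part_le {n : ℕ} (x : Fin n → K) (i : Fin n) (hi : x i = 1) (W : Finset (Pl K)) :
    ∑ p ∈ W, wt p * Real.log (nrm (av p) x) ≤ logHeight x := by
  have hx : x ≠ 0 := fun h => one_ne_zero (hi.symm.trans (congrFun h i))
  have hg : (fun _ : Fin 1 => (1 : K)) ≠ 0 := fun h => one_ne_zero (congrFun h 0)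
  have hg1 : ∀ p : Pl K, nrm (av p) (fun _ : Fin 1 => (1 : K)) = 1 := by
    intro p
    unfold nrm
    rw [ciSup_const, map_one]
  have h1 := (Pool.Agent.R405.TP.liouU x hx 1 one_ne_zero (fun _ : Fin 1 => (1 : K)) hg 1 le_rfl
    (fun p => (hg1 p).ge) (by
      intro p
      have h2 : av p (1 : K) ≤ nrm (av p) x := hi ▸ le_nrm (av p) x i
      refine h2.trans ?_
      have h3 : 1 ≤ Pool.Agent.R405.TP.kap 1 (fun _ : Fin 1 => (1 : K)) p := by
        rcases p with w | v
        · show 1 ≤ 1 * nrm (av (Sum.inl w)) _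
          rw [hg1, one_mul]
        · show 1 ≤ nrm (av (Sum.inr v)) _
          rw [hg1]
      exact le_mul_of_one_le_left ((av p).nonneg _ |>.trans h2) h3) W).1
  have h2 : logHeight (fun _ : Fin 1 => (1 : K)) = 0 :=
    Height.logHeight_eq_zero_of_subsingleton _
  rw [h2, Real.log_one, mul_zero, add_zero, add_zero] at h1
  simpa using h1

/-- a local absolute value and the height -/
theorem local_le (a : K) (p : Pl K) : wt p * Real.log (max 1 (av p a)) ≤ logHeight₁ a := by
  have h1 := part_le ![a, 1] 1 rfl {p}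
  rw [Finset.sum_singleton, ← logHeight₁_eq_logHeight] at h1
  refine le_trans (mul_le_mul_of_nonneg_left (Real.log_le_log (by positivity) ?_)
    (wt_nonneg p)) h1
  refine max_le ?_ ?_
  · have := le_nrm (av p) ![a, 1] 1
    simpa using this
  · exact le_nrm (av p) ![a, 1] 0

theorem local_abs (a : K) (p : Pl K) : |wt p * Real.log (av p a)| ≤ logHeight₁ a := by
  by_cases ha : a = 0
  · subst ha
    simp only [map_zero, Real.log_zero, mul_zero, abs_zero]
    exact zero_le_logHeight₁ _
  · have h0 : 0 < av p a := (av p).pos_iff.2 ha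
    rw [abs_le]
    constructor
    · have h1 := local_le a⁻¹ p
      rw [logHeight₁_inv, map_inv₀] at h1
      have h2 : -Real.log (av p a) ≤ Real.log (max 1 (av p a)⁻¹) := by
        rw [← Real.log_inv]
        exact Real.log_le_log (inv_pos.2 h0) (le_max_right _ _)
      have h3 := mul_le_mul_of_nonneg_left h2 (wt_nonneg p)
      linarith
    · refine le_trans (mul_le_mul_of_nonneg_left (Real.log_le_log h0 (le_max_right _ _))
        (wt_nonneg p)) (local_le a p)

/-- the height is small against `H` -/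
def Slow (𝓕 : Filter α) (H : α → ℝ) (a : α → K) : Prop :=
  ∀ ε : ℝ, 0 < ε → ∀ᶠ t in 𝓕, logHeight₁ (a t) ≤ ε * H t

variable {𝓕 : Filter α} {H : α → ℝ}

theorem Slow.of_le (hH : Tendsto H 𝓕 atTop) {a : α → K} {C : ℝ} {g : α → ℝ}
    (hg : ∀ ε : ℝ, 0 < ε → ∀ᶠ t in 𝓕, g t ≤ ε * H t) (h : ∀ᶠ t in 𝓕, logHeight₁ (a t) ≤ C + g t) :
    Slow 𝓕 H a := by
  intro ε hε
  filter_upwards [h, hg (ε / 2) (by linarith), hH.eventually_ge_atTop (C / (ε / 2))] with t h1 h2 h3
  rw [div_le_iff₀ (by linarith)] at h3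
  linarith

theorem slow_const (hH : Tendsto H 𝓕 atTop) (a : K) : Slow 𝓕 H (fun _ => a) :=
  Slow.of_le hH (g := fun _ => 0) (C := logHeight₁ a) (by
    intro ε hε
    filter_upwards [hH.eventually_ge_atTop 0] with t ht
    positivity) (Eventually.of_forall fun t => by simp)

theorem Slow.congr {a b : α → K} (ha : Slow 𝓕 H a) (h : a =ᶠ[𝓕] b) : Slow 𝓕 H b := by
  intro ε hε
  filter_upwards [ha ε hε, h] with t h1 h2
  rwa [← h2]

theorem Slow.neg {a : α → K} (ha : Slow 𝓕 H a) : Slow 𝓕 H (fun t => -a t) := by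
  intro ε hε
  filter_upwards [ha ε hε] with t h1
  rwa [logHeight₁_neg]

theorem Slow.inv {a : α → K} (ha : Slow 𝓕 H a) : Slow 𝓕 H (fun t => (a t)⁻¹) := by
  intro ε hε
  filter_upwards [ha ε hε] with t h1
  rwa [logHeight₁_inv]

theorem Slow.mul {a b : α → K} (ha : Slow 𝓕 H a) (hb : Slow 𝓕 H b) :
    Slow 𝓕 H (fun t => a t * b t) := by
  intro ε hε
  filter_upwards [ha (ε / 2) (by linarith), hb (ε / 2) (by linarith)] with t h1 h2
  have := logHeight₁_mul_le (a t) (b t)
  linarith

theorem slow_sum (hH : Tendsto H 𝓕 atTop) {ι : Type} (s : Finset ι) {a : ι → α → K}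
    (ha : ∀ i ∈ s, Slow 𝓕 H (a i)) : Slow 𝓕 H (fun t => ∑ i ∈ s, a i t) := by
  refine Slow.of_le hH (C := totalWeight K * Real.log s.card)
    (g := fun t => ∑ i ∈ s, logHeight₁ (a i t)) ?_ (Eventually.of_forall fun t =>
      logHeight₁_sum_le s _)
  intro ε hε
  have h1 : ∀ᶠ t in 𝓕, ∀ i ∈ s, logHeight₁ (a i t) ≤ ε / (s.card + 1) * H t := by
    rw [Filter.eventually_all_finset]
    intro i hi
    exact ha i hi _ (by positivity)
  filter_upwards [h1, hH.eventually_ge_atTop 0] with t ht h0
  calc ∑ i ∈ s, logHeight₁ (a i t) ≤ ∑ _i ∈ s, ε / (s.card + 1) * H t := Finset.sum_le_sum ht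
    _ = (s.card / (s.card + 1)) * (ε * H t) := by
        rw [Finset.sum_const, nsmul_eq_mul]
        ring
    _ ≤ 1 * (ε * H t) := by
        refine mul_le_mul_of_nonneg_right ?_ (by positivity)
        rw [div_le_one (by positivity)]
        linarith
    _ = ε * H t := one_mul _

theorem Slow.add (hH : Tendsto H 𝓕 atTop) {a b : α → K} (ha : Slow 𝓕 H a) (hb : Slow 𝓕 H b) :
    Slow 𝓕 H (fun t => a t + b t) := by
  refine Slow.of_le hH (C := totalWeight K * Real.log 2)
    (g := fun t => logHeight₁ (a t) + logHeight₁ (b t)) ?_ (Eventually.of_forall fun t => by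
      have := logHeight₁_add_le (a t) (b t)
      linarith)
  intro ε hε
  filter_upwards [ha (ε / 2) (by linarith), hb (ε / 2) (by linarith)] with t h1 h2
  linarith

theorem slow_prod (hH : Tendsto H 𝓕 atTop) {ι : Type} (s : Finset ι) {a : ι → α → K}
    (ha : ∀ i ∈ s, Slow 𝓕 H (a i)) : Slow 𝓕 H (fun t => ∏ i ∈ s, a i t) := by
  refine Slow.of_le hH (C := 0)
    (g := fun t => ∑ i ∈ s, logHeight₁ (a i t)) ?_ (Eventually.of_forall fun t => by
      rw [zero_add]
      exact logHeight₁_prod_le s _)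
  intro ε hε
  have h1 : ∀ᶠ t in 𝓕, ∀ i ∈ s, logHeight₁ (a i t) ≤ ε / (s.card + 1) * H t := by
    rw [Filter.eventually_all_finset]
    intro i hi
    exact ha i hi _ (by positivity)
  filter_upwards [h1, hH.eventually_ge_atTop 0] with t ht h0
  calc ∑ i ∈ s, logHeight₁ (a i t) ≤ ∑ _i ∈ s, ε / (s.card + 1) * H t := Finset.sum_le_sum ht
    _ = (s.card / (s.card + 1)) * (ε * H t) := by
        rw [Finset.sum_const, nsmul_eq_mul]
        ring
    _ ≤ 1 * (ε * H t) := by
        refine mul_le_mul_of_nonneg_right ?_ (by positivity)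
        rw [div_le_one (by positivity)]
        linarith
    _ = ε * H t := one_mul _

theorem Slow.pow (hH : Tendsto H 𝓕 atTop) {a : α → K} (ha : Slow 𝓕 H a) (n : ℕ) :
    Slow 𝓕 H (fun t => a t ^ n) := by
  have h := slow_prod hH (Finset.range n) (a := fun _ => a) (fun _ _ => ha)
  simpa using h

theorem Slow.loc {a : α → K} (ha : Slow 𝓕 H a) (p : Pl K) {ε : ℝ} (hε : 0 < ε) :
    ∀ᶠ t in 𝓕, |wt p * Real.log (av p (a t))| ≤ ε * H t := by
  filter_upwards [ha ε hε] with t h1
  exact (local_abs _ _).trans h1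

/-- the height of a slow family -/
theorem slow_vec (hH : Tendsto H 𝓕 atTop) {ι : Type} [Fintype ι] {a : ι → α → K}
    (ha : ∀ i, Slow 𝓕 H (a i)) {ε : ℝ} (hε : 0 < ε) :
    ∀ᶠ t in 𝓕, logHeight (fun i => a i t) ≤ ε * H t := by
  classical
  have h1 : ∀ᶠ t in 𝓕, ∀ i, logHeight₁ (a i t) ≤ ε / (Fintype.card ι + 1) * H t := by
    rw [Filter.eventually_all]
    intro i
    exact ha i _ (by positivity)
  filter_upwards [h1, hH.eventually_ge_atTop 0] with t ht h0
  refine (logHeight_le_sum _).trans ?_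
  calc ∑ i, logHeight₁ (a i t) ≤ ∑ _i : ι, ε / (Fintype.card ι + 1) * H t :=
        Finset.sum_le_sum fun i _ => ht i
    _ = (Fintype.card ι / (Fintype.card ι + 1)) * (ε * H t) := by
        rw [Finset.sum_const, nsmul_eq_mul, Finset.card_univ]
        ring
    _ ≤ 1 * (ε * H t) := by
        refine mul_le_mul_of_nonneg_right ?_ (by positivity)
        rw [div_le_one (by positivity)]
        linarith
    _ = ε * H t := one_mul _

/-- the local norm of a slow family -/
theorem slow_nrm {n : ℕ} (hn : 0 < n) {a : Fin n → α → K}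
    (ha : ∀ i, Slow 𝓕 H (a i)) (p : Pl K) {ε : ℝ} (hε : 0 < ε) :
    ∀ᶠ t in 𝓕, |wt p * Real.log (nrm (av p) (fun i => a i t))| ≤ ε * H t := by
  have h1 : ∀ᶠ t in 𝓕, ∀ i, |wt p * Real.log (av p (a i t))| ≤ ε * H t := by
    rw [Filter.eventually_all]
    intro i
    exact (ha i).loc p hε
  filter_upwards [h1] with t ht
  obtain ⟨j, hj⟩ := Pool.Agent.W180.OP.exists_nrm (av p) hn (fun i => a i t)
  rw [← hj]
  exact ht j

end Pool.Agent.N750
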