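import Mathlib
import Pool.Agent.N750.Slow

/-!
Local estimates and heights.
-/

set_option autoImplicit false
set_option linter.unusedSectionVars false

open Finset Filter Topology

namespace Pool.Agent.N750

open NumberField IsDedekindDomain Height Module
open Pool.Agent.W180.OP (Pl av wt nrm le_nrm nrm_pos wt_nonneg exists_nrm nrm_nonneg)

variable {K : Type} [Field K] [NumberField K]

/-- a constant at the infinite places -/
def cst (B : ℝ) : Pl K → ℝ
  | Sum.inl _ => B
  | Sum.inr _ => 1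

theorem cst_pos {B : ℝ} (hB : 0 < B) (p : Pl K) : 0 < cst B p := by
  rcases p with _ | _
  · exact hB
  · exact one_pos

theorem one_le_cst {B : ℝ} (hB : 1 ≤ B) (p : Pl K) : 1 ≤ cst B p := by
  rcases p with _ | _
  · exact hB
  · exact le_rfl

theorem cst_mono {B B' : ℝ} (h : B ≤ B') (p : Pl K) : cst B p ≤ cst B' p := by
  rcases p with _ | _
  · exact h
  · exact le_rfl

theorem cst_mul (B B' : ℝ) (p : Pl K) : cst B p * cst B' p = cst (B * B') p := by
  rcases p with _ | _
  · rfl
  · exact one_mul 1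

theorem cst_pow (B : ℝ) (n : ℕ) (p : Pl K) : cst B p ^ n = cst (B ^ n) p := by
  rcases p with _ | _
  · rfl
  · exact one_pow n

theorem fin_add_le (v : HeightOneSpectrum (𝓞 K)) (x y : K) :
    av (Sum.inr v : Pl K) (x + y) ≤ max (av (Sum.inr v : Pl K) x) (av (Sum.inr v : Pl K) y) :=
  FinitePlace.add_le (FinitePlace.mk v) x y

theorem av_sum {ι : Type} (p : Pl K) (s : Finset ι) (a : ι → K) (b : ℝ) (hb : 0 ≤ b)
    (h : ∀ i ∈ s, av p (a i) ≤ b) (B : ℝ) (hB : (s.card : ℝ) ≤ B) :
    av p (∑ i ∈ s, a i) ≤ cst B p * b := by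
  rcases p with w | v
  · calc av (Sum.inl w) (∑ i ∈ s, a i) ≤ ∑ i ∈ s, av (Sum.inl w) (a i) := (av _).sum_le _ _
      _ ≤ ∑ _i ∈ s, b := Finset.sum_le_sum h
      _ = s.card * b := by rw [Finset.sum_const, nsmul_eq_mul]
      _ ≤ B * b := mul_le_mul_of_nonneg_right hB hb
  · have h1 : av (Sum.inr v : Pl K) (∑ i ∈ s, a i) ≤ b := by
      classical
      clear hB
      induction s using Finset.induction_on with
      | empty => rw [Finset.sum_empty, map_zero]; exact hb
      | insert i s hi ih =>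
        rw [Finset.sum_insert hi]
        refine (fin_add_le v _ _).trans (max_le (h i (Finset.mem_insert_self _ _))
          (ih fun j hj => h j (Finset.mem_insert_of_mem hj)))
    show _ ≤ 1 * b
    rwa [one_mul]

theorem av_int (v : HeightOneSpectrum (𝓞 K)) (n : ℤ) : av (Sum.inr v : Pl K) (n : K) ≤ 1 := by
  have h := FinitePlace.norm_le_one (K := K) v (n : 𝓞 K)
  rw [map_intCast] at h
  exact h

/-- comparison of heights -/
theorem ht_le {m n : ℕ} (x : Fin m → K) (y : Fin n → K) (hx : x ≠ 0) (hy : y ≠ 0) (B : ℝ)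
    (hB : 1 ≤ B) (h : ∀ p : Pl K, nrm (av p) x ≤ cst B p * nrm (av p) y) :
    logHeight x ≤ logHeight y + finrank ℚ K * Real.log B := by
  classical
  set T : Finset (HeightOneSpectrum (𝓞 K)) := (Pool.Agent.R405.nrm_finite x hx).toFinset ∪
    (Pool.Agent.R405.nrm_finite y hy).toFinset with hT
  have h1 := Pool.Agent.R405.logHeight_sum x hx T fun v hv => by
    simp only [hT, Finset.mem_union, Set.Finite.mem_toFinset, Set.mem_ofPred_eq, not_or,
      not_not] at hv
    exact hv.1
  have h2 := Pool.Agent.R405.logHeight_sum y hy T fun v hv => by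
    simp only [hT, Finset.mem_union, Set.Finite.mem_toFinset, Set.mem_ofPred_eq, not_or,
      not_not] at hv
    exact hv.2
  have h3 : ∀ w : InfinitePlace K, (w.mult : ℝ) * Real.log (nrm w.1 x) ≤
      (w.mult : ℝ) * Real.log (nrm w.1 y) + w.mult * Real.log B := by
    intro w
    rw [← mul_add]
    refine mul_le_mul_of_nonneg_left ?_ (Nat.cast_nonneg _)
    have h4 := h (Sum.inl w)
    have h5 : Real.log (nrm w.1 x) ≤ Real.log (B * nrm w.1 y) :=
      Real.log_le_log (nrm_pos _ hx) h4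
    rw [Real.log_mul (by linarith) (nrm_pos _ hy).ne'] at h5
    linarith
  have h4 : ∀ v : HeightOneSpectrum (𝓞 K), Real.log (nrm (Pool.Agent.W180.OP.fv v) x) ≤
      Real.log (nrm (Pool.Agent.W180.OP.fv v) y) := by
    intro v
    have h5 := h (Sum.inr v)
    refine Real.log_le_log (nrm_pos _ hx) ?_
    have h6 : cst B (Sum.inr v : Pl K) = 1 := rfl
    rw [h6, one_mul] at h5
    exact h5
  have h5 : (∑ w : InfinitePlace K, (w.mult : ℝ)) = finrank ℚ K := by
    rw [← NumberField.totalWeight_eq_finrank, NumberField.totalWeight_eq_sum_mult]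
    push_cast
    rfl
  rw [h1, h2, ← h5, Finset.sum_mul]
  have h6 := Finset.sum_le_sum fun (w : InfinitePlace K) (_ : w ∈ Finset.univ) => h3 w
  rw [Finset.sum_add_distrib] at h6
  have h7 := Finset.sum_le_sum fun (v : HeightOneSpectrum (𝓞 K)) (_ : v ∈ T) => h4 v
  linarith

/-- the moving Liouville inequality -/
theorem liouE {n : ℕ} (x : Fin n → K) (e : Fin n → K) (hE : ∑ j, x j * e j ≠ 0)
    (S : Finset (Pl K)) :
    ∑ p ∈ S, wt p * (Real.log (nrm (av p) x) - Real.log (av p (∑ j, x j * e j))) ≤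
      logHeight x + (logHeight (Fin.cons 1 e : Fin (n + 1) → K) +
        finrank ℚ K * Real.log (max 1 n)) := by
  have hx : x ≠ 0 := by
    rintro rfl
    apply hE
    simp
  have hg : (Fin.cons 1 e : Fin (n + 1) → K) ≠ 0 := fun h => one_ne_zero (congrFun h 0)
  have hg1 : ∀ p : Pl K, 1 ≤ nrm (av p) (Fin.cons 1 e : Fin (n + 1) → K) := by
    intro p
    have := le_nrm (av p) (Fin.cons 1 e : Fin (n + 1) → K) 0
    rwa [Fin.cons_zero, map_one] at this
  refine (Pool.Agent.R405.TP.liouU x hx _ hE (Fin.cons 1 e : Fin (n + 1) → K) hg (max 1 n)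
    (le_max_left _ _) hg1 (fun p => ?_) S).1
  have h1 : ∀ j ∈ Finset.univ, av p (x j * e j) ≤
      nrm (av p) x * nrm (av p) (Fin.cons 1 e : Fin (n + 1) → K) := by
    intro j _
    rw [map_mul]
    refine mul_le_mul (le_nrm _ _ _) ?_ ((av p).nonneg _) (nrm_nonneg _ _)
    have := le_nrm (av p) (Fin.cons 1 e : Fin (n + 1) → K) j.succ
    rwa [Fin.cons_succ] at this
  have h2 := av_sum p Finset.univ (fun j => x j * e j) _ (mul_nonneg (nrm_nonneg _ _)
    (nrm_nonneg _ _)) h1 (max 1 n) (by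
      rw [Finset.card_univ, Fintype.card_fin]
      exact le_max_right _ _)
  refine h2.trans (le_of_eq ?_)
  rcases p with w | v
  · show max 1 (n : ℝ) * _ = max 1 (n : ℝ) * _ * _
    ring
  · show 1 * (nrm (av (Sum.inr v)) x * nrm (av (Sum.inr v)) (Fin.cons 1 e : Fin (n + 1) → K)) =
      nrm (av (Sum.inr v)) (Fin.cons 1 e : Fin (n + 1) → K) * nrm (av (Sum.inr v)) x
    ring

variable {α : Type} {𝓕 : Filter α} {H : α → ℝ}

/-- the trivial bound for the proximity to a slowly moving hyperplane -/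
theorem triv (hH : Tendsto H 𝓕 atTop) {n : ℕ} (S : Finset (Pl K)) (f e : Fin n → α → K)
    (he : ∀ i, Slow 𝓕 H (e i)) (hE : ∀ᶠ t in 𝓕, ∑ j, f j t * e j t ≠ 0) (ε : ℝ) (hε : 0 < ε) :
    ∀ᶠ t in 𝓕, ∑ v ∈ S, wt v * (Real.log (nrm (av v) (fun j => f j t)) -
      Real.log (av v (∑ j, f j t * e j t))) ≤ logHeight (fun j => f j t) + ε * H t := by
  have h1 := slow_vec (ι := Fin (n + 1)) hH (a := (Fin.cons (fun _ => 1) e : Fin (n + 1) → α → K))
    (by
      intro i
      refine Fin.cases ?_ (fun j => ?_) i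
      · rw [Fin.cons_zero]
        exact slow_const hH 1
      · rw [Fin.cons_succ]
        exact he j) (ε := ε / 2) (by linarith)
  filter_upwards [h1, hE, hH.eventually_ge_atTop ((finrank ℚ K * Real.log (max 1 n)) / (ε / 2))]
    with t h2 h3 h4
  have h5 := liouE (fun j => f j t) (fun j => e j t) h3 S
  have h6 : (Fin.cons 1 (fun j => e j t) : Fin (n + 1) → K) =
      fun i => (Fin.cons (fun _ => 1) e : Fin (n + 1) → α → K) i t := by
    funext i
    refine Fin.cases ?_ (fun j => ?_) i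
    · rw [Fin.cons_zero, Fin.cons_zero]
    · rw [Fin.cons_succ, Fin.cons_succ]
  rw [h6] at h5
  rw [div_le_iff₀ (by linarith)] at h4
  linarith

end Pool.Agent.N750
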