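import Mathlib
import Pool.Agent.N750.Loc
import Pool.Agent.Helper259.HtExt

/-!
The norm formula for the absolute values.
-/

set_option autoImplicit false
set_option linter.unusedSectionVars false

open Finset Filter Topology

namespace Pool.Agent.N750

open NumberField IsDedekindDomain Height Module
open Pool.Agent.W180.OP (Pl av wt nrm le_nrm nrm_pos wt_nonneg exists_nrm nrm_nonneg)

variable {k L : Type} [Field k] [NumberField k] [Field L] [NumberField L] [Algebra k L]

section inf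

open Classical in
/-- the norm formula for infinite places -/
theorem inf_norm (v : InfinitePlace k) (z : L) (hz : z ≠ 0) :
    ∑ w ∈ Finset.univ.filter (fun w : InfinitePlace L => w.comap (algebraMap k L) = v),
      (w.mult : ℝ) * Real.log (w z) = v.mult * Real.log (v (Algebra.norm k z)) := by
  classical
  have hN : Algebra.norm k z ≠ 0 := Algebra.norm_ne_zero_iff.2 hz
  have hp : ∀ (φ : k →+* ℂ), ∏ ψ : L →+* ℂ, (if ψ.comp (algebraMap k L) = φ then ‖ψ z‖ else 1) =
      ‖φ (Algebra.norm k z)‖ := by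
    intro φ
    let _ : Algebra k ℂ := φ.toAlgebra
    have h1 := Algebra.norm_eq_prod_embeddings (K := k) ℂ z
    have h2 : φ (Algebra.norm k z) = algebraMap k ℂ (Algebra.norm k z) := rfl
    rw [h2, h1, norm_prod]
    rw [← Finset.prod_filter]
    symm
    refine Finset.prod_bij (fun (σ : L →ₐ[k] ℂ) _ => (σ : L →+* ℂ)) ?_ ?_ ?_ ?_
    · intro σ _
      rw [Finset.mem_filter]
      refine ⟨Finset.mem_univ _, ?_⟩
      ext r
      exact σ.commutes r
    · intro σ _ τ _ h
      ext x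
      exact congrArg (fun f : L →+* ℂ => f x) h
    · intro ψ hψ
      refine ⟨{ ψ with commutes' := fun r => ?_ }, Finset.mem_univ _, rfl⟩
      have := congrArg (fun f : k →+* ℂ => f r) (Finset.mem_filter.1 hψ).2
      exact this
    · intro σ _
      rfl
  have h1 := Pool.Agent.Helper259.HtExt.prod_infinitePlace_pow_mult L
    (fun w => if w.comap (algebraMap k L) = v then w z else 1)
  have h2 := Pool.Agent.Helper259.HtExt.prod_infinitePlace_pow_mult k
    (fun u => if u = v then v (Algebra.norm k z) else 1)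
  have h3 : ∏ ψ : L →+* ℂ, (if (InfinitePlace.mk ψ).comap (algebraMap k L) = v then
      (InfinitePlace.mk ψ) z else 1) = ∏ φ : k →+* ℂ,
      (if InfinitePlace.mk φ = v then v (Algebra.norm k z) else 1) := by
    have e1 : ∀ φ : k →+* ℂ, (if InfinitePlace.mk φ = v then v (Algebra.norm k z) else 1) =
        ∏ ψ : L →+* ℂ, (if ψ.comp (algebraMap k L) = φ then
          (if InfinitePlace.mk φ = v then ‖ψ z‖ else 1) else 1) := by
      intro φ
      by_cases hφ : InfinitePlace.mk φ = v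
      · simp only [hφ, if_true]
        rw [hp φ, ← hφ]
        rfl
      · simp only [hφ, if_false, ite_self, Finset.prod_const_one]
    rw [Finset.prod_congr rfl fun φ _ => e1 φ, Finset.prod_comm]
    refine Finset.prod_congr rfl fun ψ _ => ?_
    rw [Finset.prod_eq_single (ψ.comp (algebraMap k L))]
    · rw [if_pos rfl, InfinitePlace.comap_mk]
      rfl
    · intro φ _ hφ
      rw [if_neg (Ne.symm hφ)]
    · intro h
      exact absurd (Finset.mem_univ _) h
  rw [← h1, ← h2] at h3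
  have h4 := congrArg Real.log h3
  rw [Real.log_prod, Real.log_prod] at h4
  · rw [Finset.sum_filter]
    have e2 : ∀ w : InfinitePlace L, Real.log ((if w.comap (algebraMap k L) = v then w z else 1) ^
        w.mult) = if w.comap (algebraMap k L) = v then (w.mult : ℝ) * Real.log (w z) else 0 := by
      intro w
      rw [Real.log_pow]
      split_ifs
      · rfl
      · rw [Real.log_one, mul_zero]
    have e3 : ∀ u : InfinitePlace k, Real.log ((if u = v then v (Algebra.norm k z) else 1) ^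
        u.mult) = if u = v then (v.mult : ℝ) * Real.log (v (Algebra.norm k z)) else 0 := by
      intro u
      rw [Real.log_pow]
      split_ifs with h
      · rw [h]
      · rw [Real.log_one, mul_zero]
    simp only [e2, e3] at h4
    rw [h4, Finset.sum_ite_eq' Finset.univ v, if_pos (Finset.mem_univ _)]
  · intro u _
    refine pow_ne_zero _ ?_
    split_ifs
    · exact (InfinitePlace.pos_iff.2 hN).ne'
    · exact one_ne_zero
  · intro w _
    refine pow_ne_zero _ ?_
    split_ifs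
    · exact (InfinitePlace.pos_iff.2 hz).ne'
    · exact one_ne_zero

end inf

section fin

/-- the multiplicity of a prime in an ideal -/
noncomputable def mu (v : HeightOneSpectrum (𝓞 k)) (I : Ideal (𝓞 k)) : ℕ :=
  multiplicity v.asIdeal I

theorem mu_fin (v : HeightOneSpectrum (𝓞 k)) {I : Ideal (𝓞 k)} (hI : I ≠ ⊥) :
    FiniteMultiplicity v.asIdeal I := FiniteMultiplicity.of_prime_left v.prime hI

theorem mu_mul (v : HeightOneSpectrum (𝓞 k)) {I J : Ideal (𝓞 k)} (hI : I ≠ ⊥) (hJ : J ≠ ⊥) :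
    mu v (I * J) = mu v I + mu v J :=
  multiplicity_mul v.prime (mu_fin v (mul_ne_zero hI hJ))

theorem mu_one (v : HeightOneSpectrum (𝓞 k)) : mu v (1 : Ideal (𝓞 k)) = 0 := by
  unfold mu
  exact multiplicity_of_one_right v.prime.not_isUnit

theorem mu_self (v : HeightOneSpectrum (𝓞 k)) : mu v v.asIdeal = 1 := by
  unfold mu
  exact multiplicity_self

theorem mu_ne (v w : HeightOneSpectrum (𝓞 k)) (h : v ≠ w) : mu v w.asIdeal = 0 := by
  unfold mu
  refine multiplicity_eq_zero.2 fun hd => h ?_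
  have h1 : w.asIdeal ≤ v.asIdeal := Ideal.le_of_dvd hd
  exact HeightOneSpectrum.ext ((w.isMaximal.eq_of_le v.isPrime.ne_top h1).symm)

theorem mu_pow (v : HeightOneSpectrum (𝓞 k)) {I : Ideal (𝓞 k)} (hI : I ≠ ⊥) (n : ℕ) :
    mu v (I ^ n) = n * mu v I := by
  induction n with
  | zero => rw [pow_zero, mu_one, zero_mul]
  | succ n ih => rw [pow_succ, mu_mul v (pow_ne_zero _ hI) hI, ih, Nat.succ_mul]

theorem log_fin (v : HeightOneSpectrum (𝓞 k)) (x : 𝓞 k) (hx : x ≠ 0) :
    Real.log (av (Sum.inr v : Pl k) (x : k)) =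
      -(mu v (Ideal.span {x}) * Real.log (Ideal.absNorm v.asIdeal)) := by
  have h1 := FinitePlace.apply_mul_absNorm_pow_eq_one (FinitePlace.mk v) hx
  rw [FinitePlace.maximalIdeal_mk] at h1
  have h3 : av (Sum.inr v : Pl k) (x : k) = ((Ideal.absNorm v.asIdeal : ℝ) ^
      mu v (Ideal.span {x}))⁻¹ := eq_inv_of_mul_eq_one_left h1
  rw [h3, Real.log_inv, Real.log_pow]

theorem log_absNorm_eq {I J : ℕ} (f : ℕ) (h : I = J ^ f) :
    Real.log (I : ℝ) = f * Real.log (J : ℝ) := by
  rw [h]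
  push_cast
  rw [Real.log_pow]

/-- the norm formula for the multiplicities -/
theorem fin_ideal (v : HeightOneSpectrum (𝓞 k)) (A : Finset (HeightOneSpectrum (𝓞 L)))
    (hA : ∀ w, w ∈ A ↔ w.asIdeal.LiesOver v.asIdeal) (I : Ideal (𝓞 L)) (hI : I ≠ ⊥) :
    ∑ w ∈ A, (mu w I : ℝ) * Real.log (Ideal.absNorm w.asIdeal) =
      mu v (Ideal.relNorm (𝓞 k) I) * Real.log (Ideal.absNorm v.asIdeal) := by
  classical
  suffices h : I ≠ ⊥ ∧ ∑ w ∈ A, (mu w I : ℝ) * Real.log (Ideal.absNorm w.asIdeal) =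
      mu v (Ideal.relNorm (𝓞 k) I) * Real.log (Ideal.absNorm v.asIdeal) from h.2
  rw [← Ideal.prod_normalizedFactors_eq_self hI]
  refine Multiset.prod_induction (fun I : Ideal (𝓞 L) => I ≠ ⊥ ∧
    ∑ w ∈ A, (mu w I : ℝ) * Real.log (Ideal.absNorm w.asIdeal) =
      mu v (Ideal.relNorm (𝓞 k) I) * Real.log (Ideal.absNorm v.asIdeal)) _ ?_ ?_ ?_
  · rintro I J ⟨hI0, hI1⟩ ⟨hJ0, hJ1⟩
    refine ⟨mul_ne_zero hI0 hJ0, ?_⟩
    have e1 : Ideal.relNorm (𝓞 k) I ≠ ⊥ := fun h => hI0 (Ideal.relNorm_eq_bot_iff.1 h)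
    have e2 : Ideal.relNorm (𝓞 k) J ≠ ⊥ := fun h => hJ0 (Ideal.relNorm_eq_bot_iff.1 h)
    rw [map_mul, mu_mul v e1 e2]
    push_cast
    rw [add_mul, ← hI1, ← hJ1, ← Finset.sum_add_distrib]
    refine Finset.sum_congr rfl fun w _ => ?_
    rw [mu_mul w hI0 hJ0]
    push_cast
    ring
  · refine ⟨one_ne_zero, ?_⟩
    rw [map_one, mu_one, Nat.cast_zero, zero_mul]
    refine Finset.sum_eq_zero fun w _ => ?_
    rw [mu_one, Nat.cast_zero, zero_mul]
  · intro Q hQ
    have hQ0 : Q ≠ ⊥ := UniqueFactorizationMonoid.ne_zero_of_mem_normalizedFactors hQ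
    refine ⟨hQ0, ?_⟩
    rw [Ideal.mem_normalizedFactors_iff hI] at hQ
    have hQm : Q.IsMaximal := Ring.DimensionLEOne.maximalOfPrime hQ0 hQ.1
    set P := Q.under (𝓞 k) with hP
    have hPm : P.IsMaximal := inferInstance
    have hPo : Q.LiesOver P := inferInstance
    have hP0 : P ≠ ⊥ := by
      intro h
      apply hQ0
      have h1 := Ideal.relNorm_eq_pow_of_isMaximal Q P
      rw [h] at h1
      have h2 : (⊥ : Ideal (𝓞 k)) ^ Q.inertiaDeg (𝓞 k) = ⊥ := by
        rw [← Ideal.zero_eq_bot]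
        exact zero_pow (Ideal.inertiaDeg_pos Q (𝓞 k)).ne'
      rw [h2] at h1
      exact Ideal.relNorm_eq_bot_iff.1 h1
    have hrel := Ideal.relNorm_eq_pow_of_isMaximal Q P
    set w₀ : HeightOneSpectrum (𝓞 L) := ⟨Q, hQ.1, hQ0⟩ with hw₀
    set v₀ : HeightOneSpectrum (𝓞 k) := ⟨P, hPm.isPrime, hP0⟩ with hv₀
    have hQw : Q = w₀.asIdeal := rfl
    have hPv : P = v₀.asIdeal := rfl
    by_cases hv : v = v₀
    · have hmem : w₀ ∈ A := by
        rw [hA, hv]
        exact hPo
      rw [Finset.sum_eq_single w₀]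
      · rw [hrel, mu_pow v hP0, hPv, ← hv, mu_self, hQw, mu_self, Nat.cast_one, one_mul, mul_one]
        refine log_absNorm_eq _ ?_
        have h1 := Ideal.absNorm_relNorm (𝓞 k) (𝓞 L) Q
        rw [hrel, map_pow, hPv, ← hv] at h1
        exact h1.symm
      · intro w _ hw
        rw [hQw, mu_ne w w₀ hw, Nat.cast_zero, zero_mul]
      · intro h
        exact absurd hmem h
    · have h1 : mu v (Ideal.relNorm (𝓞 k) Q) = 0 := by
        rw [hrel, mu_pow v hP0, hPv, mu_ne v v₀ hv, mul_zero]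
      rw [h1, Nat.cast_zero, zero_mul]
      refine Finset.sum_eq_zero fun w hw => ?_
      have h2 : w ≠ w₀ := by
        rintro rfl
        apply hv
        have h3 := (hA w₀).1 hw
        refine HeightOneSpectrum.ext ?_
        have h4 : v.asIdeal = w₀.asIdeal.under (𝓞 k) := h3.over
        rw [h4]
      rw [hQw, mu_ne w w₀ h2, Nat.cast_zero, zero_mul]

/-- the norm formula for finite places -/
theorem fin_norm (v : HeightOneSpectrum (𝓞 k)) (A : Finset (HeightOneSpectrum (𝓞 L)))
    (hA : ∀ w, w ∈ A ↔ w.asIdeal.LiesOver v.asIdeal) (z : L) (hz : z ≠ 0) :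
    ∑ w ∈ A, Real.log (av (Sum.inr w : Pl L) z) =
      Real.log (av (Sum.inr v : Pl k) (Algebra.norm k z)) := by
  have hint : ∀ a : 𝓞 L, a ≠ 0 → ∑ w ∈ A, Real.log (av (Sum.inr w : Pl L) (a : L)) =
      Real.log (av (Sum.inr v : Pl k) (Algebra.norm k (a : L))) := by
    intro a ha
    have hspan : Ideal.span {a} ≠ (⊥ : Ideal (𝓞 L)) := mt Submodule.span_singleton_eq_bot.mp ha
    have h1 := fin_ideal v A hA (Ideal.span {a}) hspan
    rw [Ideal.relNorm_singleton] at h1
    have h2 : ((Algebra.intNorm (𝓞 k) (𝓞 L) a : 𝓞 k) : k) = Algebra.norm k (a : L) :=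
      Algebra.algebraMap_intNorm a
    have h3 : Algebra.intNorm (𝓞 k) (𝓞 L) a ≠ 0 := by
      intro h
      rw [h] at h2
      have := Algebra.norm_eq_zero_iff.1 (h2.symm.trans (map_zero _))
      exact ha (RingOfIntegers.coe_eq_zero_iff.1 this)
    rw [← h2, log_fin v _ h3, ← h1, ← Finset.sum_neg_distrib]
    exact Finset.sum_congr rfl fun w _ => log_fin w a ha
  obtain ⟨a, b, hb, hab⟩ := IsFractionRing.div_surjective (𝓞 L) z
  have hb0 : b ≠ 0 := nonZeroDivisors.ne_zero hb
  have hbL : (b : L) ≠ 0 := fun h => hb0 (RingOfIntegers.coe_eq_zero_iff.1 h)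
  have hzb : (a : L) = z * (b : L) := by
    rw [← hab]
    exact (div_mul_cancel₀ _ hbL).symm
  have haL : (a : L) ≠ 0 := by
    rw [hzb]
    exact mul_ne_zero hz hbL
  have ha0 : a ≠ 0 := by
    rintro rfl
    exact haL (map_zero _)
  have h1 := hint a ha0
  have h2 := hint b hb0
  have hNz : Algebra.norm k z ≠ 0 := Algebra.norm_ne_zero_iff.2 hz
  have hNb : Algebra.norm k (b : L) ≠ 0 := Algebra.norm_ne_zero_iff.2 hbL
  rw [hzb, map_mul, map_mul, Real.log_mul ((av _).pos_iff.2 hNz).ne' ((av _).pos_iff.2 hNb).ne',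
    ← h2] at h1
  have h3 : ∀ w ∈ A, Real.log (av (Sum.inr w : Pl L) (z * (b : L))) =
      Real.log (av (Sum.inr w : Pl L) z) + Real.log (av (Sum.inr w : Pl L) (b : L)) := by
    intro w _
    rw [map_mul, Real.log_mul ((av _).pos_iff.2 hz).ne' ((av _).pos_iff.2 hbL).ne']
  rw [Finset.sum_congr rfl h3, Finset.sum_add_distrib] at h1
  exact add_right_cancel h1

end fin

end Pool.Agent.N750
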