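import Mathlib
import Pool.Agent.N750.Nf

/-!
The places above a place.
-/

set_option autoImplicit false
set_option linter.unusedSectionVars false
set_option linter.deprecated false

open Finset Filter Topology

namespace Pool.Agent.N750

open NumberField IsDedekindDomain Height Module
open Pool.Agent.W180.OP (Pl av wt nrm le_nrm nrm_pos wt_nonneg exists_nrm nrm_nonneg)

section

variable {k : Type} (L : Type) [Field k] [NumberField k] [Field L] [NumberField L] [Algebra k L]

theorem over_fin (v : HeightOneSpectrum (𝓞 k)) :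
    {w : HeightOneSpectrum (𝓞 L) | w.asIdeal.LiesOver v.asIdeal}.Finite := by
  have h2 : (Ideal.primesOver v.asIdeal (𝓞 L)).Finite :=
    IsDedekindDomain.primesOver_finite v.asIdeal (𝓞 L)
  refine Set.Finite.of_finite_image (f := fun w : HeightOneSpectrum (𝓞 L) => w.asIdeal)
    (h2.subset ?_) (fun w _ w' _ h => HeightOneSpectrum.ext h)
  rintro _ ⟨w, hw, rfl⟩
  exact ⟨w.isPrime, hw⟩

open Classical in
/-- the places above a place -/
noncomputable def ab : Pl k → Finset (Pl L)
  | Sum.inl v => (Finset.univ.filter fun w : InfinitePlace L => w.comap (algebraMap k L) = v).map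
      ⟨Sum.inl, Sum.inl_injective⟩
  | Sum.inr v => (over_fin L v).toFinset.map ⟨Sum.inr, Sum.inr_injective⟩

end

variable {k L : Type} [Field k] [NumberField k] [Field L] [NumberField L] [Algebra k L]

/-- **the norm formula** -/
theorem nf (v : Pl k) (z : L) (hz : z ≠ 0) :
    ∑ w ∈ ab L v, wt w * Real.log (av w z) = wt v * Real.log (av v (Algebra.norm k z)) := by
  rcases v with v | v
  · unfold ab
    rw [Finset.sum_map]
    exact inf_norm v z hz
  · unfold ab
    rw [Finset.sum_map]
    have h1 := fin_norm v (over_fin L v).toFinset (fun w => by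
      rw [Set.Finite.mem_toFinset]
      exact Iff.rfl) z hz
    have h2 : wt (Sum.inr v : Pl k) = 1 := rfl
    rw [h2, one_mul, ← h1]
    refine Finset.sum_congr rfl fun w _ => ?_
    show wt (Sum.inr w : Pl L) * Real.log (av (Sum.inr w : Pl L) z) = _
    have h3 : wt (Sum.inr w : Pl L) = 1 := rfl
    rw [h3, one_mul]

/-- the extension formula -/
theorem ef (v : Pl k) (z : k) (hz : z ≠ 0) :
    ∑ w ∈ ab L v, wt w * Real.log (av w (algebraMap k L z)) =
      finrank k L * (wt v * Real.log (av v z)) := by
  have h0 : algebraMap k L z ≠ 0 := (map_ne_zero _).2 hz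
  rw [nf v _ h0, Algebra.norm_algebraMap, map_pow, Real.log_pow]
  ring

/-- monotonicity -/
theorem ab_mono {v : Pl k} {w : Pl L} (hw : w ∈ ab L v) {z z' : k} (h : av v z ≤ av v z') :
    av w (algebraMap k L z) ≤ av w (algebraMap k L z') := by
  classical
  rcases v with v | v
  · unfold ab at hw
    rw [Finset.mem_map] at hw
    obtain ⟨w, hw, rfl⟩ := hw
    rw [Finset.mem_filter] at hw
    have h1 : ∀ y : k, av (Sum.inl w : Pl L) (algebraMap k L y) = av (Sum.inl v : Pl k) y := by
      intro y
      rw [← hw.2]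
      rfl
    show av (Sum.inl w : Pl L) _ ≤ av (Sum.inl w : Pl L) _
    rw [h1, h1]
    exact h
  · unfold ab at hw
    rw [Finset.mem_map] at hw
    obtain ⟨w, hw, rfl⟩ := hw
    rw [Set.Finite.mem_toFinset] at hw
    obtain ⟨c, hc, h1⟩ := Pool.Agent.R405.exists_exp (Pool.Agent.TeamU.over_of_liesOver hw)
    have h2 : ∀ y : k, av (Sum.inr w : Pl L) (algebraMap k L y) = av (Sum.inr v : Pl k) y ^ c := h1
    show av (Sum.inr w : Pl L) _ ≤ av (Sum.inr w : Pl L) _
    rw [h2, h2]
    exact Real.rpow_le_rpow ((av _).nonneg _) h hc.le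

/-- the extension formula for vectors -/
theorem efn (v : Pl k) {n : ℕ} (a : Fin n → k) (ha : a ≠ 0) :
    ∑ w ∈ ab L v, wt w * Real.log (nrm (av w) (fun i => algebraMap k L (a i))) =
      finrank k L * (wt v * Real.log (nrm (av v) a)) := by
  have hn : 0 < n := by
    obtain ⟨i, -⟩ := Function.ne_iff.1 ha
    exact i.pos
  obtain ⟨j, hj⟩ := exists_nrm (av v) hn a
  have hj0 : a j ≠ 0 := by
    intro h
    rw [h, map_zero] at hj
    exact (nrm_pos (av v) ha).ne hj
  rw [← hj, ← ef v (a j) hj0]
  refine Finset.sum_congr rfl fun w hw => ?_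
  have h1 : nrm (av w) (fun i => algebraMap k L (a i)) = av w (algebraMap k L (a j)) := by
    refine le_antisymm ?_ (le_nrm (av w) (fun i => algebraMap k L (a i)) j)
    obtain ⟨i, hi⟩ := exists_nrm (av w) hn (fun i => algebraMap k L (a i))
    rw [← hi]
    refine ab_mono hw ?_
    rw [hj]
    exact le_nrm (av v) a i
  rw [h1]

/-- the number of the places above -/
theorem ab_card (v : Pl k) : (ab L v).card ≤ finrank k L := by
  classical
  rcases v with v | v
  · have h1 := ef (L := L) (Sum.inl v) 2 two_ne_zero
    unfold ab at h1 ⊢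
    rw [Finset.card_map]
    rw [Finset.sum_map] at h1
    have h2 : ∀ w : InfinitePlace L, av (Sum.inl w : Pl L) (algebraMap k L 2) = 2 := by
      intro w
      rw [map_ofNat]
      show w 2 = 2
      rw [← InfinitePlace.norm_embedding_eq w, map_ofNat]
      exact Complex.norm_ofNat 2
    have h3 : av (Sum.inl v : Pl k) 2 = 2 := by
      show v 2 = 2
      rw [← InfinitePlace.norm_embedding_eq v, map_ofNat]
      exact Complex.norm_ofNat 2
    rw [h3] at h1
    have h4 : ∑ w ∈ Finset.univ.filter (fun w : InfinitePlace L => w.comap (algebraMap k L) = v),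
        (w.mult : ℝ) * Real.log 2 = finrank k L * ((v.mult : ℝ) * Real.log 2) := by
      rw [← show finrank k L * (wt (Sum.inl v : Pl k) * Real.log 2) =
        finrank k L * ((v.mult : ℝ) * Real.log 2) from rfl, ← h1]
      refine Finset.sum_congr rfl fun w _ => ?_
      show _ = wt (Sum.inl w : Pl L) * Real.log (av (Sum.inl w : Pl L) (algebraMap k L 2))
      rw [h2]
      rfl
    have hl : 0 < Real.log 2 := Real.log_pos (by norm_num)
    rw [← Finset.sum_mul, ← mul_assoc] at h4
    have h5 := mul_right_cancel₀ hl.ne' h4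
    have h6 : ((Finset.univ.filter (fun w : InfinitePlace L => w.comap (algebraMap k L) = v)).card :
        ℝ) * v.mult ≤ finrank k L * v.mult := by
      rw [← h5, ← nsmul_eq_mul, ← Finset.sum_const]
      refine Finset.sum_le_sum fun w hw => ?_
      have := InfinitePlace.mult_comap_le (algebraMap k L) w
      rw [(Finset.mem_filter.1 hw).2] at this
      exact_mod_cast this
    have hm : (0 : ℝ) < v.mult := by exact_mod_cast v.mult_pos
    exact_mod_cast le_of_mul_le_mul_right h6 hm
  · unfold ab
    rw [Finset.card_map]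
    have hmax : v.asIdeal.IsMaximal := v.isMaximal
    have hns : Module.IsTorsionFree (𝓞 k) (𝓞 L) := inferInstance
    have h1 : (IsDedekindDomain.primesOverFinset v.asIdeal (𝓞 L)).card ≤ finrank k L := by
      rw [← Ideal.sum_ramification_inertia (𝓞 L) k L (p := v.asIdeal) v.ne_bot,
        Finset.card_eq_sum_ones]
      refine Finset.sum_le_sum fun P hP ↦ ?_
      have : P.IsPrime := ((IsDedekindDomain.mem_primesOverFinset_iff v.ne_bot _).mp hP).1
      have : P.LiesOver v.asIdeal := ((IsDedekindDomain.mem_primesOverFinset_iff v.ne_bot _).mp hP).2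
      refine Right.one_le_mul ?_ ?_
      · exact Nat.pos_iff_ne_zero.mpr
          (Ideal.IsDedekindDomain.ramificationIdx'_ne_zero_of_liesOver P v.ne_bot)
      · exact Nat.pos_iff_ne_zero.mpr (Ideal.inertiaDeg'_ne_zero v.asIdeal P)
    refine le_trans ?_ h1
    refine Finset.card_le_card_of_injOn (fun w => w.asIdeal) ?_ (fun w _ w' _ h =>
      HeightOneSpectrum.ext h)
    intro w hw
    have h2 := (Set.Finite.mem_toFinset _).1 hw
    exact (IsDedekindDomain.mem_primesOverFinset_iff v.ne_bot _).2 ⟨w.isPrime, h2⟩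

/-- disjointness -/
theorem ab_unique {v v' : Pl k} {w : Pl L} (h : w ∈ ab L v) (h' : w ∈ ab L v') : v = v' := by
  classical
  rcases v with v | v <;> rcases v' with v' | v' <;> unfold ab at h h' <;>
    rw [Finset.mem_map] at h h' <;> obtain ⟨w, h, rfl⟩ := h <;> obtain ⟨w', h', hw⟩ := h'
  · have := Sum.inl_injective hw
    subst this
    rw [Finset.mem_filter] at h h'
    rw [← h.2, h'.2]
  · cases hw
  · cases hw
  · have := Sum.inr_injective hw
    subst this
    rw [Set.Finite.mem_toFinset] at h h'
    congr 1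
    exact HeightOneSpectrum.ext (h.over.trans h'.over.symm)

end Pool.Agent.N750
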