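import Mathlib

/-!
Growth of the spaces spanned by monomials; completion of independent families.
-/

set_option autoImplicit false
set_option linter.unusedSectionVars false

open Finset Filter Topology

namespace Pool.Agent.N750

section grow

variable {K E : Type} [Field K] [CommRing E] [Algebra K E]

/-- the span of the products of `s` members -/
def Vs (K : Type) {E : Type} [Field K] [CommRing E] [Algebra K E] {m : ℕ} (A : Fin m → E) (s : ℕ) :
    Submodule K E :=
  Submodule.span K (Set.range fun i : Fin s → Fin m => ∏ j, A (i j))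

theorem Vs_fin {m : ℕ} (A : Fin m → E) (s : ℕ) : Module.Finite K (Vs K A s) :=
  Module.Finite.span_of_finite K (Set.finite_range _)

theorem Vs_mul {m : ℕ} (A : Fin m → E) (s : ℕ) (i : Fin m) {x : E} (hx : x ∈ Vs K A s) :
    A i * x ∈ Vs K A (s + 1) := by
  unfold Vs at hx ⊢
  induction hx using Submodule.span_induction with
  | mem x hx =>
    obtain ⟨f, rfl⟩ := hx
    refine Submodule.subset_span ⟨Fin.cons i f, ?_⟩
    simp only
    rw [Fin.prod_univ_succ, Fin.cons_zero]
    simp only [Fin.cons_succ]
  | zero => rw [mul_zero]; exact Submodule.zero_mem _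
  | add x y _ _ h1 h2 => rw [mul_add]; exact Submodule.add_mem _ h1 h2
  | smul c x _ h => rw [mul_smul_comm]; exact Submodule.smul_mem _ c h

theorem Vs_mono {m : ℕ} (A : Fin m → E) (s : ℕ) (i : Fin m) (hi : A i = 1) {x : E}
    (hx : x ∈ Vs K A s) : x ∈ Vs K A (s + 1) := by
  have := Vs_mul A s i hx
  rwa [hi, one_mul] at this

theorem Vs_one {m : ℕ} (A : Fin m → E) (s : ℕ) (i : Fin m) (hi : A i = 1) :
    (1 : E) ∈ Vs K A s := by
  refine Submodule.subset_span ⟨fun _ => i, ?_⟩
  simp [hi]

theorem Vs_card {m : ℕ} (A : Fin m → E) (s : ℕ) :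
    Module.finrank K (Vs K A s) ≤ (s + 1) ^ m := by
  classical
  have h1 : Set.range (fun i : Fin s → Fin m => ∏ j, A (i j)) ⊆
      ((Finset.univ.image fun e : Fin m → Fin (s + 1) => ∏ l, A l ^ (e l).val : Finset E) :
        Set E) := by
    rintro x ⟨i, rfl⟩
    rw [Finset.coe_image]
    refine ⟨fun l => ⟨(Finset.univ.filter fun j => i j = l).card, ?_⟩, by simp, ?_⟩
    · have := Finset.card_le_univ (Finset.univ.filter fun j => i j = l)
      rw [Fintype.card_fin] at this
      omega
    · simp only
      rw [← Finset.prod_fiberwise Finset.univ i (fun j => A (i j))]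
      refine Finset.prod_congr rfl fun l _ => ?_
      rw [Finset.prod_congr rfl (g := fun _ => A l) (fun j hj => by
        rw [(Finset.mem_filter.1 hj).2]), Finset.prod_const]
  have h2 : Vs K A s ≤ Submodule.span K
      ((Finset.univ.image fun e : Fin m → Fin (s + 1) => ∏ l, A l ^ (e l).val : Finset E) :
        Set E) := Submodule.span_mono h1
  have h4 := finrank_span_finset_le_card (R := K)
    (Finset.univ.image fun e : Fin m → Fin (s + 1) => ∏ l, A l ^ (e l).val : Finset E)
  have h5 := Finset.card_image_le (s := (Finset.univ : Finset (Fin m → Fin (s + 1))))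
    (f := fun e : Fin m → Fin (s + 1) => ∏ l, A l ^ (e l).val)
  rw [Finset.card_univ, Fintype.card_fun, Fintype.card_fin, Fintype.card_fin] at h5
  have h6 : Module.finrank K (Vs K A s) ≤ Module.finrank K (Submodule.span K
      ((Finset.univ.image fun e : Fin m → Fin (s + 1) => ∏ l, A l ^ (e l).val : Finset E) :
        Set E)) := by
    have : Module.Finite K (Submodule.span K
      ((Finset.univ.image fun e : Fin m → Fin (s + 1) => ∏ l, A l ^ (e l).val : Finset E) :
        Set E)) := Module.Finite.span_of_finite K (Finset.finite_toSet _)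
    exact Submodule.finrank_mono h2
  exact h6.trans (h4.trans h5)

/-- the growth of the dimensions -/
theorem exists_growth [Nontrivial E] {m : ℕ} (A : Fin m → E) (i : Fin m) (hi : A i = 1) (η : ℝ)
    (hη : 0 < η) :
    ∃ s, 0 < Module.finrank K (Vs K A s) ∧
      (Module.finrank K (Vs K A (s + 1)) : ℝ) ≤ (1 + η) * Module.finrank K (Vs K A s) := by
  have hpos : ∀ s, 0 < Module.finrank K (Vs K A s) := by
    intro s
    have := Vs_fin (K := K) A s
    rw [Module.finrank_pos_iff]
    exact ⟨⟨⟨1, Vs_one A s i hi⟩, 0, fun h => one_ne_zero (congrArg Subtype.val h)⟩⟩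
  by_contra hcon
  push Not at hcon
  have h1 : ∀ s, (1 + η) ^ s ≤ (Module.finrank K (Vs K A s) : ℝ) := by
    intro s
    induction s with
    | zero =>
      rw [pow_zero]
      exact_mod_cast hpos 0
    | succ s ih =>
      have h2 := hcon s (hpos s)
      rw [pow_succ]
      have : (1 + η) ^ s * (1 + η) ≤ (1 + η) * Module.finrank K (Vs K A s) := by
        rw [mul_comm]
        exact mul_le_mul_of_nonneg_left ih (by linarith)
      linarith
  have h2 : ∀ s : ℕ, (1 + η) ^ s ≤ ((s : ℝ) + 1) ^ m := fun s =>
    (h1 s).trans (by exact_mod_cast Vs_card A s)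
  have h3 := tendsto_pow_const_div_const_pow_of_one_lt m (show 1 < 1 + η by linarith)
  have h4 : Tendsto (fun s : ℕ => ((s + 1 : ℕ) : ℝ) ^ m / (1 + η) ^ (s + 1)) atTop (𝓝 0) :=
    h3.comp (tendsto_add_atTop_nat 1)
  have h5 := h4.eventually (gt_mem_nhds (show (0 : ℝ) < 1 / (1 + η) by positivity))
  obtain ⟨s, hs⟩ := h5.exists
  have h6 := h2 s
  rw [div_lt_div_iff₀ (by positivity) (by positivity)] at hs
  push_cast at hs
  rw [one_mul, pow_succ] at hs
  have h7 : (1 + η) ^ s * (1 + η) ≤ ((s : ℝ) + 1) ^ m * (1 + η) :=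
    mul_le_mul_of_nonneg_right h6 (by linarith)
  linarith

end grow

section compl

variable {K : Type} [Field K]

/-- completion of an independent family of rows by unit vectors -/
theorem exists_completion {N : ℕ} {ι : Type} [Fintype ι] (u : ι → Fin N → K)
    (hu : LinearIndependent K u) :
    ∃ (B : Fin N → Fin N → K) (e : ι → Fin N), Function.Injective e ∧ (∀ i, B (e i) = u i) ∧
      (∀ a, a ∉ Set.range e → ∃ j, B a = Pi.single j 1) ∧ (Matrix.of B).det ≠ 0 := by
  classical
  -- the family of `u` and all unit vectors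
  let w : ι ⊕ Fin N → Fin N → K := Sum.elim u fun j => Pi.single j 1
  have hs : LinearIndepOn K w (Set.range (Sum.inl : ι → ι ⊕ Fin N)) := by
    rw [LinearIndepOn]
    have h1 : LinearIndependent K (w ∘ Sum.inl) := hu
    exact (linearIndependent_equiv' (Equiv.ofInjective _ Sum.inl_injective) (by
      funext i
      rfl)).1 h1
  obtain ⟨b, -, hb1, hb2, hb3⟩ := exists_linearIndepOn_extension hs (Set.subset_univ _)
  have hspan : Submodule.span K (w '' b) = ⊤ := by
    rw [eq_top_iff]
    have h1 : (⊤ : Submodule K (Fin N → K)) ≤ Submodule.span K (w '' Set.univ) := by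
      rw [← (Pi.basisFun K (Fin N)).span_eq]
      refine Submodule.span_mono ?_
      rintro x ⟨j, rfl⟩
      exact ⟨Sum.inr j, Set.mem_univ _, by simp [w]⟩
    exact h1.trans (Submodule.span_le.2 hb2)
  have hbf : b.Finite := Set.toFinite b
  have : Fintype b := hbf.fintype
  have hli : LinearIndependent K (fun x : b => w x) := hb3
  have hcard : Fintype.card b = N := by
    have h1 := finrank_span_eq_card hli
    have h2 : Set.range (fun x : b => w x) = w '' b := by
      ext y
      constructor
      · rintro ⟨x, rfl⟩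
        exact ⟨x, x.2, rfl⟩
      · rintro ⟨x, hx, rfl⟩
        exact ⟨⟨x, hx⟩, rfl⟩
    rw [h2, hspan, finrank_top, Module.finrank_fin_fun] at h1
    exact h1.symm
  let E : b ≃ Fin N := Fintype.equivFinOfCardEq hcard
  refine ⟨fun a => w (E.symm a), fun i => E ⟨Sum.inl i, hb1 ⟨i, rfl⟩⟩, ?_, ?_, ?_, ?_⟩
  · intro i j h
    have := E.injective h
    exact Sum.inl_injective (congrArg Subtype.val this)
  · intro i
    simp [w]
  · intro a ha
    rcases hx : (E.symm a).1 with i | j
    · exfalso
      apply ha
      refine ⟨i, ?_⟩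
      exact (E.eq_symm_apply).1 (Subtype.ext hx.symm)
    · exact ⟨j, by simp only [hx, w, Sum.elim_inr]⟩
  · have h1 : LinearIndependent K (fun a => w (E.symm a)) := hli.comp _ E.symm.injective
    have h2 := Matrix.linearIndependent_rows_iff_isUnit.1 (show LinearIndependent K
      (Matrix.of fun a => w (E.symm a)).row from h1)
    exact ((Matrix.isUnit_iff_isUnit_det _).1 h2).ne_zero

end compl

end Pool.Agent.N750
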