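import Mathlib
import Pool.Agent.N750.Slow
import Pool.Agent.N750.Grow

/-!
The field of germs along an ultrafilter and the subfield of the slow germs.
-/

set_option autoImplicit false
set_option linter.unusedSectionVars false

open Finset Filter Topology

namespace Pool.Agent.N750

open NumberField IsDedekindDomain Height Module
open Pool.Agent.W180.OP (Pl av wt nrm le_nrm nrm_pos wt_nonneg)

/-- the field of germs -/
def Gm {α : Type} (𝓕 : Ultrafilter α) (K : Type) : Type := Filter.Germ (𝓕 : Filter α) K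

variable {α : Type} {𝓕 : Ultrafilter α} {K : Type}

noncomputable instance [Field K] : Field (Gm 𝓕 K) :=
  inferInstanceAs (Field (Filter.Germ (𝓕 : Filter α) K))

/-- the germ of a function -/
noncomputable def mk (𝓕 : Ultrafilter α) [Field K] : (α → K) →+* Gm 𝓕 K :=
  Filter.Germ.coeRingHom (𝓕 : Filter α)

theorem mk_eq [Field K] {a b : α → K} : mk 𝓕 a = mk 𝓕 b ↔ ∀ᶠ t in 𝓕, a t = b t :=
  Filter.Germ.coe_eq

theorem mk_surj [Field K] (x : Gm 𝓕 K) : ∃ a, mk 𝓕 a = x := by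
  induction x using Filter.Germ.inductionOn with
  | _ f => exact ⟨f, rfl⟩

theorem mk_eq_zero [Field K] {a : α → K} : mk 𝓕 a = 0 ↔ ∀ᶠ t in 𝓕, a t = 0 := by
  rw [← map_zero (mk 𝓕), mk_eq]
  rfl

theorem mk_ne_zero [Field K] {a : α → K} : mk 𝓕 a ≠ 0 ↔ ∀ᶠ t in 𝓕, a t ≠ 0 := by
  rw [Ne, mk_eq_zero, Ultrafilter.eventually_not]

theorem not_ev_zero [Field K] {a : α → K} (h : ¬ ∀ᶠ t in 𝓕, a t = 0) : ∀ᶠ t in 𝓕, a t ≠ 0 :=
  Ultrafilter.eventually_not.2 h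

noncomputable instance [Field K] : Algebra K (Gm 𝓕 K) :=
  ((mk 𝓕).comp (Pi.constRingHom α K)).toAlgebra

theorem algebraMap_gm [Field K] (c : K) : algebraMap K (Gm 𝓕 K) c = mk 𝓕 (fun _ => c) := rfl

theorem smul_mk [Field K] (c : K) (a : α → K) : c • mk 𝓕 a = mk 𝓕 (fun t => c * a t) := by
  rw [Algebra.smul_def, algebraMap_gm, ← map_mul]
  rfl

theorem mk_inv [Field K] (a : α → K) : (mk 𝓕 a)⁻¹ = mk 𝓕 (fun t => (a t)⁻¹) := rfl

variable [Field K] [NumberField K] {H : α → ℝ}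

/-- the field of the slow germs -/
noncomputable def slowF (𝓕 : Ultrafilter α) (K : Type) [Field K] [NumberField K] (H : α → ℝ)
    (hH : Tendsto H 𝓕 atTop) : Subfield (Gm 𝓕 K) where
  carrier := {x | ∃ a, mk 𝓕 a = x ∧ Slow 𝓕 H a}
  mul_mem' := by
    rintro _ _ ⟨a, rfl, ha⟩ ⟨b, rfl, hb⟩
    exact ⟨fun t => a t * b t, by rw [← map_mul]; rfl, ha.mul hb⟩
  one_mem' := ⟨fun _ => 1, by rw [← map_one (mk 𝓕)]; rfl, slow_const hH 1⟩
  add_mem' := by
    rintro _ _ ⟨a, rfl, ha⟩ ⟨b, rfl, hb⟩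
    exact ⟨fun t => a t + b t, by rw [← map_add]; rfl, ha.add hH hb⟩
  zero_mem' := ⟨fun _ => 0, by rw [← map_zero (mk 𝓕)]; rfl, slow_const hH 0⟩
  neg_mem' := by
    rintro _ ⟨a, rfl, ha⟩
    exact ⟨fun t => -a t, by rw [← map_neg]; rfl, ha.neg⟩
  inv_mem' := by
    rintro _ ⟨a, rfl, ha⟩
    exact ⟨fun t => (a t)⁻¹, (mk_inv a).symm, ha.inv⟩

theorem mem_slowF {hH : Tendsto H 𝓕 atTop} {x : Gm 𝓕 K} :
    x ∈ slowF 𝓕 K H hH ↔ ∃ a, mk 𝓕 a = x ∧ Slow 𝓕 H a := Iff.rfl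

theorem slow_of_mem {hH : Tendsto H 𝓕 atTop} {a : α → K} (h : mk 𝓕 a ∈ slowF 𝓕 K H hH) :
    Slow 𝓕 H a := by
  obtain ⟨b, hb, h⟩ := h
  exact h.congr (mk_eq.1 hb)

/-- elements of the spans have slow representatives -/
theorem rep_slow (hH : Tendsto H 𝓕 atTop) {m : ℕ} (A : Fin m → α → K)
    (hA : ∀ i, Slow 𝓕 H (A i)) (s : ℕ) {x : Gm 𝓕 K} (hx : x ∈ Vs K (fun i => mk 𝓕 (A i)) s) :
    ∃ β : α → K, mk 𝓕 β = x ∧ Slow 𝓕 H β := by
  unfold Vs at hx
  induction hx using Submodule.span_induction with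
  | mem x hx =>
    obtain ⟨f, rfl⟩ := hx
    refine ⟨fun t => ∏ j, A (f j) t, ?_, slow_prod hH _ fun j _ => hA (f j)⟩
    show mk 𝓕 _ = ∏ j, mk 𝓕 (A (f j))
    rw [← map_prod]
    congr 1
    funext t
    rw [Finset.prod_apply]
  | zero => exact ⟨fun _ => 0, by rw [← map_zero (mk 𝓕)]; rfl, slow_const hH 0⟩
  | add x y _ _ h1 h2 =>
    obtain ⟨a, rfl, ha⟩ := h1
    obtain ⟨b, rfl, hb⟩ := h2
    exact ⟨fun t => a t + b t, by rw [← map_add]; rfl, ha.add hH hb⟩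
  | smul c x _ h =>
    obtain ⟨a, rfl, ha⟩ := h
    exact ⟨fun t => c * a t, (smul_mk c a).symm, (slow_const hH c).mul ha⟩

/-- the determinant of a matrix of germs -/
theorem det_mk {n : ℕ} (M : Fin n → Fin n → α → K) :
    (Matrix.of fun a i => mk 𝓕 (M a i)).det = mk 𝓕 (fun t => (Matrix.of fun a i => M a i t).det) := by
  have h2 := RingHom.map_det (mk 𝓕) (Matrix.of fun a i => M a i)
  have h1 : (Matrix.of fun a i => mk 𝓕 (M a i)) =
      (mk 𝓕).mapMatrix (Matrix.of fun a i => M a i) := rfl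
  rw [h1, ← h2]
  congr 1
  funext t
  have h3 := RingHom.map_det (Pi.evalRingHom (fun _ : α => K) t) (Matrix.of fun a i => M a i)
  exact h3

end Pool.Agent.N750
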