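import Mathlib
import Pool.Agent.R405.SchF
import Pool.Agent.R405.Big

/-!
The subspace theorem over a number field along a filter, linear forms over the same field.
-/

set_option autoImplicit false
set_option linter.unusedSectionVars false

open Finset Filter Topology

namespace Pool.Agent.N750

open NumberField IsDedekindDomain Height Module
open Pool.Agent.W180.OP (Pl av wt nrm le_nrm nrm_pos)

variable {K : Type} [Field K] [NumberField K]

theorem schSame {α : Type} (𝓕 : Filter α) {n : ℕ} (hn : 1 ≤ n) (S : Finset (Pl K))
    (B : Pl K → Fin n → Fin n → K) (hdet : ∀ v ∈ S, (Matrix.of (B v)).det ≠ 0)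
    (x : α → Fin n → K) (hN : Tendsto (fun t => logHeight (x t)) 𝓕 atTop)
    (hind : ∀ d : Fin n → K, d ≠ 0 → ∀ᶠ t in 𝓕, ∑ j, d j * x t j ≠ 0) (ε : ℝ) (hε : 0 < ε) :
    ∀ᶠ t in 𝓕, ∑ v ∈ S, wt v * ∑ a, (Real.log (nrm (av v) (x t)) -
      Real.log (av v (∑ j, B v a j * x t j))) ≤ (n + ε) * logHeight (x t) := by
  classical
  obtain ⟨M, hM1, hM2, hi, ⟨φ⟩⟩ := Pool.Agent.R405.exists_big K
  have : NumberField M := ⟨⟩
  let _ : Algebra K M := φ.toAlgebra
  choose f hf using fun v : Pl K => Pool.Agent.R405.exists_good (K := M) v
  have key := Pool.Agent.R405.schF (k := K) (K := M) hi 𝓕 hn S f (fun v _ => hf v)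
    (fun v a j => algebraMap K M (B v a j)) (by
      intro v hv
      have h1 : Matrix.of (fun a j => algebraMap K M (B v a j)) =
          (Matrix.of (B v)).map (algebraMap K M) := by
        ext a j
        rfl
      rw [h1]
      have h2 : ((Matrix.of (B v)).map (algebraMap K M)).det =
          algebraMap K M (Matrix.of (B v)).det := (RingHom.map_det (algebraMap K M) _).symm
      rw [h2]
      exact (map_ne_zero _).2 (hdet v hv)) x hN (by
      intro d hd
      let b := Module.finBasis K M
      obtain ⟨j0, hj0⟩ := Function.ne_iff.1 hd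
      obtain ⟨i, hi⟩ : ∃ i, b.repr (d j0) i ≠ 0 := by
        by_contra hcon
        push Not at hcon
        apply hj0
        have : b.repr (d j0) = 0 := Finsupp.ext hcon
        simpa using this
      have h1 := hind (fun j => b.repr (d j) i) (by
        intro h
        exact hi (congrFun h j0))
      filter_upwards [h1] with t ht h0
      apply ht
      have h2 : ∑ j, d j * algebraMap K M (x t j) = ∑ j, x t j • d j := by
        refine Finset.sum_congr rfl fun j _ => ?_
        rw [Algebra.smul_def, mul_comm]
      rw [h2] at h0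
      have h3 := congrArg (fun z => b.repr z i) h0
      simp only [map_sum, map_smul, map_zero, Finsupp.coe_finsetSum, Finset.sum_apply,
        Finsupp.coe_smul, Pi.smul_apply, smul_eq_mul, Finsupp.coe_zero, Pi.zero_apply] at h3
      rw [← h3]
      exact Finset.sum_congr rfl fun j _ => mul_comm _ _) ε hε
  filter_upwards [key] with t ht
  refine le_trans (le_of_eq ?_) ht
  refine Finset.sum_congr rfl fun v _ => ?_
  congr 1
  refine Finset.sum_congr rfl fun a _ => ?_
  have h1 : ∑ j, algebraMap K M (B v a j) * algebraMap K M (x t j) =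
      algebraMap K M (∑ j, B v a j * x t j) := by
    rw [map_sum]
    exact Finset.sum_congr rfl fun j _ => (map_mul _ _ _).symm
  rw [h1, (hf v).ext]

end Pool.Agent.N750
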