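import Mathlib
import Pool.Agent.N750.Sch
import Pool.Agent.N750.Germ

/-!
The subspace theorem with slowly moving linear forms.
-/

set_option autoImplicit false
set_option linter.unusedSectionVars false

open Finset Filter Topology

namespace Pool.Agent.N750

open NumberField IsDedekindDomain Height Module
open Pool.Agent.W180.OP (Pl av wt nrm le_nrm nrm_pos wt_nonneg)

variable {α : Type} {𝓕 : Ultrafilter α} {K : Type} [Field K] [NumberField K] {H : α → ℝ}

/-- the coefficients of the products -/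
theorem exists_coeff (hH : Tendsto H 𝓕 atTop) {m : ℕ} (A : Fin m → α → K)
    (hA : ∀ i, Slow 𝓕 H (A i)) (i0 : Fin m) (hi0 : A i0 = fun _ => 1) (η : ℝ) (hη : 0 < η) :
    ∃ (b b' : ℕ) (β : Fin b → α → K) (β' : Fin b' → α → K) (c : Fin m → Fin b → Fin b' → K),
      0 < b ∧ (b' : ℝ) ≤ (1 + η) * b ∧ (∀ j, Slow 𝓕 H (β j)) ∧ (∀ j, Slow 𝓕 H (β' j)) ∧
      LinearIndependent K (fun j => mk 𝓕 (β j)) ∧ LinearIndependent K (fun j => mk 𝓕 (β' j)) ∧
      ∀ i j, ∀ᶠ t in 𝓕, A i t * β j t = ∑ j', c i j j' * β' j' t := by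
  classical
  set A' : Fin m → Gm 𝓕 K := fun i => mk 𝓕 (A i) with hA'
  have hi0' : A' i0 = 1 := by
    rw [hA']
    simp only
    rw [hi0]
    exact map_one (mk 𝓕)
  obtain ⟨s, hs0, hs⟩ := exists_growth (K := K) A' i0 hi0' η hη
  have hf1 := Vs_fin (K := K) A' s
  have hf2 := Vs_fin (K := K) A' (s + 1)
  let B := Module.finBasis K (Vs K A' s)
  let B' := Module.finBasis K (Vs K A' (s + 1))
  choose β hβ1 hβ2 using fun j => rep_slow (𝓕 := 𝓕) hH A hA s (B j).2
  choose β' hβ'1 hβ'2 using fun j => rep_slow (𝓕 := 𝓕) hH A hA (s + 1) (B' j).2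
  have hmem : ∀ i j, A' i * (B j : Gm 𝓕 K) ∈ Vs K A' (s + 1) := fun i j =>
    Vs_mul A' s i (B j).2
  refine ⟨_, _, β, β', fun i j j' => B'.repr ⟨_, hmem i j⟩ j', hs0, hs, hβ2, hβ'2, ?_, ?_, ?_⟩
  · have h1 : (fun j => mk 𝓕 (β j)) = fun j => ((B j : Vs K A' s) : Gm 𝓕 K) := by
      funext j
      exact hβ1 j
    rw [h1]
    exact B.linearIndependent.map' (Vs K A' s).subtype (Submodule.ker_subtype _)
  · have h1 : (fun j => mk 𝓕 (β' j)) = fun j => ((B' j : Vs K A' (s + 1)) : Gm 𝓕 K) := by
      funext j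
      exact hβ'1 j
    rw [h1]
    exact B'.linearIndependent.map' (Vs K A' (s + 1)).subtype (Submodule.ker_subtype _)
  · intro i j
    rw [← mk_eq (K := K)]
    have h1 : mk 𝓕 (fun t => A i t * β j t) = A' i * (B j : Gm 𝓕 K) := by
      rw [← hβ1 j, hA', ← map_mul]
      rfl
    have h2 : mk 𝓕 (fun t => ∑ j', B'.repr ⟨_, hmem i j⟩ j' * β' j' t) =
        ∑ j', B'.repr ⟨_, hmem i j⟩ j' • ((B' j' : Vs K A' (s + 1)) : Gm 𝓕 K) := by
      have h3 : (fun t => ∑ j', B'.repr ⟨_, hmem i j⟩ j' * β' j' t) =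
          ∑ j', fun t => B'.repr ⟨_, hmem i j⟩ j' * β' j' t := by
        funext t
        rw [Finset.sum_apply]
      rw [h3, map_sum]
      refine Finset.sum_congr rfl fun j' _ => ?_
      rw [← hβ'1 j', smul_mk]
    rw [h1, h2]
    have h4 := B'.sum_repr ⟨_, hmem i j⟩
    have h5 := congrArg Subtype.val h4
    rw [Submodule.coe_sum] at h5
    simp only [Submodule.coe_smul] at h5
    exact h5.symm

/-- **The subspace theorem with slowly moving linear forms.** -/
theorem moving (hH : Tendsto H 𝓕 atTop) {n : ℕ} (hn : 2 ≤ n) (S : Finset (Pl K))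
    (g : Fin n → α → K) (M : ℝ) (hM : ∀ᶠ t in 𝓕, logHeight (fun i => g i t) ≤ M * H t)
    (hg : ∀ c : Fin n → α → K, (∀ i, Slow 𝓕 H (c i)) →
      (∀ᶠ t in 𝓕, ∑ i, c i t * g i t = 0) → ∀ i, ∀ᶠ t in 𝓕, c i t = 0)
    (L : Pl K → Fin n → Fin n → α → K) (hL : ∀ v a i, Slow 𝓕 H (L v a i))
    (hdet : ∀ v ∈ S, ∀ᶠ t in 𝓕, (Matrix.of fun a i => L v a i t).det ≠ 0) (ε : ℝ) (hε : 0 < ε) :
    ∀ᶠ t in 𝓕, ∑ v ∈ S, wt v * ∑ a, (Real.log (nrm (av v) (fun i => g i t)) -
      Real.log (av v (∑ i, L v a i t * g i t))) ≤ n * logHeight (fun i => g i t) + ε * H t := by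
  classical
  have hn0 : (0 : ℝ) < n := by exact_mod_cast (by omega : 0 < n)
  -- the members do not vanish
  have hg0 : ∀ i, ∀ᶠ t in 𝓕, g i t ≠ 0 := by
    intro i
    apply not_ev_zero
    intro h
    have h1 := hg (fun j => fun _ => if j = i then 1 else 0) (fun j => slow_const hH _) (by
      filter_upwards [h] with t ht
      rw [Finset.sum_eq_single i]
      · rw [ht, mul_zero]
      · intro j _ hj
        rw [if_neg hj, zero_mul]
      · intro h'
        exact absurd (Finset.mem_univ _) h') i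
    obtain ⟨t, ht⟩ := h1.exists
    rw [if_pos rfl] at ht
    exact one_ne_zero ht
  -- the height of `g` is large
  have hlow : ∃ δ : ℝ, 0 < δ ∧ ∀ᶠ t in 𝓕, δ * H t ≤ logHeight (fun i => g i t) := by
    by_contra hcon
    push Not at hcon
    set i0 : Fin n := ⟨0, by omega⟩
    set i1 : Fin n := ⟨1, by omega⟩
    have h01 : i1 ≠ i0 := by
      intro h
      have := congrArg Fin.val h
      simp [i0, i1] at this
    have hsl : Slow 𝓕 H (fun t => g i1 t / g i0 t) := by
      intro δ hδ
      filter_upwards [hcon δ hδ] with t ht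
      rw [logHeight₁_div_eq_logHeight]
      have h2 : ![g i1 t, g i0 t] = (fun i => g i t) ∘ ![i1, i0] := by
        funext j
        fin_cases j <;> rfl
      rw [h2]
      exact (logHeight_comp_le _ _).trans ht.le
    have h1 := hg (fun j => fun t => if j = i0 then g i1 t / g i0 t else
      if j = i1 then -1 else 0) (by
        intro j
        by_cases h0 : j = i0
        · simp only [h0, if_true]
          exact hsl
        · simp only [h0, if_false]
          exact slow_const hH _) (by
        filter_upwards [hg0 i0] with t ht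
        rw [Finset.sum_eq_add i0 i1 h01.symm]
        · rw [if_pos rfl, if_neg h01, if_pos rfl, div_mul_cancel₀ _ ht]
          ring
        · intro j _ hj
          rw [if_neg hj.1, if_neg hj.2, zero_mul]
        · intro h'
          exact absurd (Finset.mem_univ _) h'
        · intro h'
          exact absurd (Finset.mem_univ _) h') i1
    obtain ⟨t, ht⟩ := h1.exists
    rw [if_neg h01, if_pos rfl] at ht
    exact one_ne_zero (neg_eq_zero.1 ht)
  obtain ⟨δ, hδ0, hδ⟩ := hlow
  -- the constants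
  set M' : ℝ := max M 0 with hM'
  have hM0 : 0 ≤ M' := le_max_right _ _
  set η : ℝ := min 1 (ε / (4 * n * (M' + 1))) with hη
  have hη0 : 0 < η := lt_min one_pos (by positivity)
  have hη1 : η ≤ 1 := min_le_left _ _
  have hη2 : η * (n * M') ≤ ε / 4 := by
    have h1 : η ≤ ε / (4 * n * (M' + 1)) := min_le_right _ _
    have h2 : η * (n * M') ≤ ε / (4 * n * (M' + 1)) * (n * M') :=
      mul_le_mul_of_nonneg_right h1 (by positivity)
    refine h2.trans ?_
    rw [div_mul_eq_mul_div, div_le_div_iff₀ (by positivity) (by norm_num)]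
    nlinarith [mul_nonneg hε.le hn0.le]
  set ε₁ : ℝ := min 1 (ε / (4 * (M' + 1))) with hε₁
  have hε₁0 : 0 < ε₁ := lt_min one_pos (by positivity)
  have hε₁1 : ε₁ ≤ 1 := min_le_left _ _
  have hε₁2 : ε₁ * M' ≤ ε / 4 := by
    have h1 : ε₁ ≤ ε / (4 * (M' + 1)) := min_le_right _ _
    have h2 : ε₁ * M' ≤ ε / (4 * (M' + 1)) * M' := mul_le_mul_of_nonneg_right h1 hM0
    refine h2.trans ?_
    rw [div_mul_eq_mul_div, div_le_div_iff₀ (by positivity) (by norm_num)]
    nlinarith
  set κ : ℝ := 2 * n + 1 + 2 * S.card * n with hκ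
  have hκ0 : 0 < κ := by positivity
  set ε₂ : ℝ := ε / (2 * κ) with hε₂
  have hε₂0 : 0 < ε₂ := by positivity
  have hε₂2 : κ * ε₂ = ε / 2 := by
    rw [hε₂]
    field_simp
  -- the finite family
  let ι := Option ({v // v ∈ S} × Fin n × Fin n)
  let e : Fin (Fintype.card ι) ≃ ι := (Fintype.equivFin ι).symm
  let A0 : ι → α → K := fun o => match o with
    | none => fun _ => 1
    | some (v, a, i) => L v.1 a i
  have hA0 : ∀ o, Slow 𝓕 H (A0 o) := by
    intro o
    rcases o with _ | ⟨v, a, i⟩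
    · exact slow_const hH 1
    · exact hL v.1 a i
  obtain ⟨b, b', β, β', c, hb0, hbb', hβ, hβ', hli, hli', hc⟩ := exists_coeff (𝓕 := 𝓕) hH
    (fun i => A0 (e i)) (fun i => hA0 _) (e.symm none) (by
      simp only [Equiv.apply_symm_apply]
      rfl) η hη0
  have hb0' : (0 : ℝ) < b := by exact_mod_cast hb0
  have hb1 : (1 : ℝ) ≤ b := by exact_mod_cast hb0
  have hb'0 : 0 < b' := by
    rcases Nat.eq_zero_or_pos b' with h | h
    · exfalso
      subst h
      have h1 := hc (e.symm none) ⟨0, hb0⟩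
      have h2 := hli.ne_zero (⟨0, hb0⟩ : Fin b)
      apply h2
      rw [mk_eq_zero]
      filter_upwards [h1] with t ht
      simp only [Equiv.apply_symm_apply, Finset.univ_eq_empty, Finset.sum_empty] at ht
      have h3 : A0 none t = 1 := rfl
      rw [h3, one_mul] at ht
      exact ht
    · exact h
  -- nonvanishing
  have hβ0 : ∀ j, ∀ᶠ t in 𝓕, β j t ≠ 0 := fun j => mk_ne_zero.1 (hli.ne_zero j)
  have hβ'0 : ∀ j, ∀ᶠ t in 𝓕, β' j t ≠ 0 := fun j => mk_ne_zero.1 (hli'.ne_zero j)
  -- the points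
  set N : ℕ := b' * n with hN
  let E : Fin N ≃ Fin b' × Fin n := finProdFinEquiv.symm
  let X : α → Fin N → K := fun t p => β' (E p).1 t * g (E p).2 t
  have hN1 : 1 ≤ N := Nat.mul_pos hb'0 (by omega)
  have hXind : ∀ d : Fin N → K, d ≠ 0 → ∀ᶠ t in 𝓕, ∑ p, d p * X t p ≠ 0 := by
    intro d hd
    apply not_ev_zero
    intro h
    apply hd
    have h1 := hg (fun i => fun t => ∑ j', d (E.symm (j', i)) * β' j' t) (fun i =>
      slow_sum hH _ fun j' _ => (slow_const hH _).mul (hβ' j')) (by
        filter_upwards [h] with t ht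
        rw [← ht, ← E.symm.sum_comp, Fintype.sum_prod_type_right]
        refine Finset.sum_congr rfl fun i _ => ?_
        rw [Finset.sum_mul]
        refine Finset.sum_congr rfl fun j' _ => ?_
        show _ = _ * (β' (E (E.symm (j', i))).1 t * g (E (E.symm (j', i))).2 t)
        rw [Equiv.apply_symm_apply]
        ring)
    funext p
    have h2 := h1 (E p).2
    have h3 : ∑ j', d (E.symm (j', (E p).2)) • mk 𝓕 (β' j') = 0 := by
      have h4 : ∑ j', d (E.symm (j', (E p).2)) • mk 𝓕 (β' j') =
          mk 𝓕 (fun t => ∑ j', d (E.symm (j', (E p).2)) * β' j' t) := by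
        have h5 : (fun t => ∑ j', d (E.symm (j', (E p).2)) * β' j' t) =
            ∑ j', fun t => d (E.symm (j', (E p).2)) * β' j' t := by
          funext t
          rw [Finset.sum_apply]
        rw [h5, map_sum]
        exact Finset.sum_congr rfl fun j' _ => smul_mk _ _
      rw [h4, mk_eq_zero]
      exact h2
    have h6 := Fintype.linearIndependent_iff.1 hli' _ h3 (E p).1
    rwa [Prod.mk.eta, Equiv.symm_apply_apply] at h6
  have hX0 : ∀ᶠ t in 𝓕, ∀ p, X t p ≠ 0 := by
    rw [Filter.eventually_all]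
    intro p
    have h1 := hXind (Pi.single p 1) (by
      intro h
      have := congrFun h p
      rw [Pi.single_eq_same] at this
      exact one_ne_zero this)
    filter_upwards [h1] with t ht h0
    apply ht
    rw [Finset.sum_eq_single p]
    · rw [h0, mul_zero]
    · intro q _ hq
      rw [Pi.single_eq_of_ne hq, zero_mul]
    · intro h
      exact absurd (Finset.mem_univ _) h
  -- the height of the points
  have hXh : ∀ᶠ t in 𝓕, logHeight (X t) = logHeight (fun j => β' j t) +
      logHeight (fun i => g i t) := by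
    filter_upwards [hβ'0 ⟨0, hb'0⟩, hg0 ⟨0, by omega⟩] with t h1 h2
    have h3 := logHeight_fun_mul_eq (K := K) (x := fun j => β' j t) (y := fun i => g i t)
      (fun h => h1 (congrFun h _)) (fun h => h2 (congrFun h _))
    rw [← h3]
    exact logHeight_comp_equiv E (fun a : Fin b' × Fin n => β' a.1 t * g a.2 t)
  have hXN : Tendsto (fun t => logHeight (X t)) 𝓕 atTop := by
    refine tendsto_atTop_mono' (𝓕 : Filter α) ?_ (hH.const_mul_atTop hδ0)
    filter_upwards [hXh, hδ] with t h1 h2
    rw [h1]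
    have := logHeight_nonneg (fun j => β' j t)
    linarith
  -- the linear forms
  let cc : Pl K → Fin n → Fin n → Fin b → Fin b' → K := fun v a i =>
    if hv : v ∈ S then c (e.symm (some (⟨v, hv⟩, a, i))) else 0
  have hcc : ∀ v ∈ S, ∀ a i j, ∀ᶠ t in 𝓕, L v a i t * β j t = ∑ j', cc v a i j j' * β' j' t := by
    intro v hv a i j
    have h1 := hc (e.symm (some (⟨v, hv⟩, a, i))) j
    filter_upwards [h1] with t ht
    simp only [Equiv.apply_symm_apply] at ht
    have h2 : A0 (some (⟨v, hv⟩, a, i)) t = L v a i t := rfl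
    rw [h2] at ht
    rw [ht]
    refine Finset.sum_congr rfl fun j' _ => ?_
    simp only [cc, dif_pos hv]
  let u : Pl K → (Fin b × Fin n) → Fin N → K := fun v ja p => cc v ja.2 (E p).2 ja.1 (E p).1
  have huX : ∀ v ∈ S, ∀ᶠ t in 𝓕, ∀ ja : Fin b × Fin n, ∑ p, u v ja p * X t p =
      β ja.1 t * ∑ i, L v ja.2 i t * g i t := by
    intro v hv
    have h1 : ∀ᶠ t in 𝓕, ∀ a i j, L v a i t * β j t = ∑ j', cc v a i j j' * β' j' t := by
      rw [Filter.eventually_all]; intro a
      rw [Filter.eventually_all]; intro i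
      rw [Filter.eventually_all]; intro j
      exact hcc v hv a i j
    filter_upwards [h1] with t ht ja
    rw [← E.symm.sum_comp, Fintype.sum_prod_type_right, Finset.mul_sum]
    refine Finset.sum_congr rfl fun i _ => ?_
    have h2 : β ja.1 t * (L v ja.2 i t * g i t) = (L v ja.2 i t * β ja.1 t) * g i t := by ring
    rw [h2, ht, Finset.sum_mul]
    refine Finset.sum_congr rfl fun j' _ => ?_
    show cc v ja.2 (E (E.symm (j', i))).2 ja.1 (E (E.symm (j', i))).1 *
      (β' (E (E.symm (j', i))).1 t * g (E (E.symm (j', i))).2 t) = _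
    rw [Equiv.apply_symm_apply]
    ring
  have hu : ∀ v ∈ S, LinearIndependent K (u v) := by
    intro v hv
    rw [Fintype.linearIndependent_iff]
    intro d hd
    -- the relations
    have h1 : ∀ i, ∑ a, mk 𝓕 (fun t => ∑ j, d (j, a) * β j t) * mk 𝓕 (L v a i) = 0 := by
      intro i
      have h2 : ∑ a, mk 𝓕 (fun t => ∑ j, d (j, a) * β j t) * mk 𝓕 (L v a i) =
          mk 𝓕 (fun t => ∑ a, (∑ j, d (j, a) * β j t) * L v a i t) := by
        have h5 : (fun t => ∑ a, (∑ j, d (j, a) * β j t) * L v a i t) =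
            ∑ a, (fun t => ∑ j, d (j, a) * β j t) * L v a i := by
          funext t
          rw [Finset.sum_apply]
          rfl
        rw [h5, map_sum]
        exact Finset.sum_congr rfl fun a _ => (map_mul _ _ _).symm
      rw [h2, mk_eq_zero]
      have h3 : ∀ᶠ t in 𝓕, ∀ a j, L v a i t * β j t = ∑ j', cc v a i j j' * β' j' t := by
        rw [Filter.eventually_all]; intro a
        rw [Filter.eventually_all]; intro j
        exact hcc v hv a i j
      filter_upwards [h3] with t ht
      have h4 : ∑ a, (∑ j, d (j, a) * β j t) * L v a i t =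
          ∑ j', (∑ ja : Fin b × Fin n, d ja * cc v ja.2 i ja.1 j') * β' j' t := by
        have e1 : ∀ a, (∑ j, d (j, a) * β j t) * L v a i t =
            ∑ j, d (j, a) * ∑ j', cc v a i j j' * β' j' t := by
          intro a
          rw [Finset.sum_mul]
          refine Finset.sum_congr rfl fun j _ => ?_
          rw [← ht a j]
          ring
        rw [Finset.sum_congr rfl fun a _ => e1 a]
        have e2 : ∀ j', (∑ ja : Fin b × Fin n, d ja * cc v ja.2 i ja.1 j') * β' j' t =
            ∑ a, ∑ j, d (j, a) * cc v a i j j' * β' j' t := by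
          intro j'
          rw [Finset.sum_mul, Fintype.sum_prod_type_right]
        rw [Finset.sum_congr rfl fun j' _ => e2 j']
        symm
        rw [Finset.sum_comm]
        refine Finset.sum_congr rfl fun a _ => ?_
        rw [Finset.sum_comm]
        refine Finset.sum_congr rfl fun j _ => ?_
        rw [Finset.mul_sum]
        exact Finset.sum_congr rfl fun j' _ => by ring
      rw [h4]
      refine Finset.sum_eq_zero fun j' _ => ?_
      have h6 := congrFun hd (E.symm (j', i))
      rw [Finset.sum_apply, Pi.zero_apply] at h6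
      have h7 : ∑ ja : Fin b × Fin n, d ja * cc v ja.2 i ja.1 j' = 0 := by
        rw [← h6]
        refine Finset.sum_congr rfl fun ja _ => ?_
        rw [Pi.smul_apply, smul_eq_mul]
        show _ = d ja * cc v ja.2 (E (E.symm (j', i))).2 ja.1 (E (E.symm (j', i))).1
        rw [Equiv.apply_symm_apply]
      rw [h7, zero_mul]
    -- the matrix
    have h2 : (Matrix.of fun a i => mk 𝓕 (L v a i)).det ≠ 0 := by
      rw [det_mk, mk_ne_zero]
      exact hdet v hv
    have h3 := Matrix.eq_zero_of_vecMul_eq_zero h2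
      (v := fun a => mk 𝓕 (fun t => ∑ j, d (j, a) * β j t)) (by
        funext i
        rw [Matrix.vecMul, dotProduct, Pi.zero_apply, ← h1 i]
        rfl)
    intro ja
    have h4 := congrFun h3 ja.2
    simp only [Pi.zero_apply] at h4
    have h5 : ∑ j, d (j, ja.2) • mk 𝓕 (β j) = 0 := by
      have h6 : ∑ j, d (j, ja.2) • mk 𝓕 (β j) =
          mk 𝓕 (fun t => ∑ j, d (j, ja.2) * β j t) := by
        have h7 : (fun t => ∑ j, d (j, ja.2) * β j t) =
            ∑ j, fun t => d (j, ja.2) * β j t := by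
          funext t
          rw [Finset.sum_apply]
        rw [h7, map_sum]
        exact Finset.sum_congr rfl fun j _ => smul_mk _ _
      rw [h6, h4]
    exact Fintype.linearIndependent_iff.1 hli _ h5 ja.1
  have hBex : ∀ v : Pl K, ∃ (B : Fin N → Fin N → K) (f : Fin b × Fin n → Fin N), v ∈ S →
      (Function.Injective f ∧ (∀ i, B (f i) = u v i) ∧
      (∀ a, a ∉ Set.range f → ∃ j, B a = Pi.single j 1) ∧ (Matrix.of B).det ≠ 0) := by
    intro v
    by_cases hv : v ∈ S
    · obtain ⟨B, f, h⟩ := exists_completion (u v) (hu v hv)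
      exact ⟨B, f, fun _ => h⟩
    · exact ⟨fun _ _ => 0, fun _ => ⟨0, hN1⟩, fun h => absurd h hv⟩
  choose B f hB using hBex
  have key := schSame (𝓕 : Filter α) hN1 S B (fun v hv => (hB v hv).2.2.2) X hXN hXind ε₁ hε₁0
  -- the slow terms
  have hsl1 : ∀ᶠ t in 𝓕, logHeight (fun j => β' j t) ≤ ε₂ * H t := slow_vec hH hβ' hε₂0
  have hsl2 : ∀ᶠ t in 𝓕, ∀ v ∈ S, |wt v * Real.log (nrm (av v) (fun j => β' j t))| ≤ ε₂ * H t := by
    rw [Filter.eventually_all_finset]
    intro v _
    exact slow_nrm hb'0 hβ' v hε₂0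
  have hsl3 : ∀ᶠ t in 𝓕, ∀ v ∈ S, ∀ j, |wt v * Real.log (av v (β j t))| ≤ ε₂ * H t := by
    rw [Filter.eventually_all_finset]
    intro v _
    rw [Filter.eventually_all]
    intro j
    exact (hβ j).loc v hε₂0
  have hLg0 : ∀ᶠ t in 𝓕, ∀ v ∈ S, ∀ a, ∑ i, L v a i t * g i t ≠ 0 := by
    rw [Filter.eventually_all_finset]
    intro v hv
    rw [Filter.eventually_all]
    intro a
    apply not_ev_zero
    intro h
    have h1 := hg (L v a) (hL v a) h
    have h2 : ∀ᶠ t in 𝓕, ∀ i, L v a i t = 0 := by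
      rw [Filter.eventually_all]
      exact h1
    obtain ⟨t, ht1, ht2⟩ := (h2.and (hdet v hv)).exists
    exact ht2 (Matrix.det_eq_zero_of_row_eq_zero a fun i => ht1 i)
  have hβall : ∀ᶠ t in 𝓕, ∀ j, β j t ≠ 0 := by
    rw [Filter.eventually_all]
    exact hβ0
  have huXall : ∀ᶠ t in 𝓕, ∀ v ∈ S, ∀ ja : Fin b × Fin n, ∑ p, u v ja p * X t p =
      β ja.1 t * ∑ i, L v ja.2 i t * g i t := by
    rw [Filter.eventually_all_finset]
    exact huX
  filter_upwards [key, hsl1, hsl2, hsl3, hLg0, hβall, huXall, hX0, hXh, hM,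
    hH.eventually_ge_atTop 0, hβ'0 ⟨0, hb'0⟩, hg0 ⟨0, by omega⟩] with
    t hkey h1 h2 h3 h4 h5 h6 h7 h8 h9 h10 h11 h12
  set h : ℝ := logHeight (fun i => g i t) with hh
  have hh0 : 0 ≤ h := logHeight_nonneg _
  have hhM : h ≤ M' * H t := h9.trans (mul_le_mul_of_nonneg_right (le_max_left _ _) h10)
  have hnX : ∀ v : Pl K, nrm (av v) (X t) =
      nrm (av v) (fun j => β' j t) * nrm (av v) (fun i => g i t) := by
    intro v
    unfold nrm
    rw [← Real.iSup_fun_mul_eq_iSup_mul_iSup_of_nonneg (av v) (fun j => β' j t) (fun i => g i t)]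
    rw [← E.iSup_comp]
  have hX0' : X t ≠ 0 := fun h0 => h7 ⟨0, hN1⟩ (congrFun h0 _)
  have hnβ : ∀ v : Pl K, 0 < nrm (av v) (fun j => β' j t) := fun v =>
    nrm_pos _ (fun h0 => h11 (congrFun h0 _))
  have hng : ∀ v : Pl K, 0 < nrm (av v) (fun i => g i t) := fun v =>
    nrm_pos _ (fun h0 => h12 (congrFun h0 _))
  set T : Pl K → ℝ := fun v => ∑ a, (Real.log (nrm (av v) (fun i => g i t)) -
      Real.log (av v (∑ i, L v a i t * g i t))) with hT
  -- one place
  have hplace : ∀ v ∈ S, (b : ℝ) * (wt v * T v) - 2 * n * b * (ε₂ * H t) ≤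
      wt v * ∑ a, (Real.log (nrm (av v) (X t)) - Real.log (av v (∑ j, B v a j * X t j))) := by
    intro v hv
    obtain ⟨g1, g2, g3, -⟩ := hB v hv
    have hsplit : ∑ ja : Fin b × Fin n, (Real.log (nrm (av v) (X t)) -
        Real.log (av v (∑ p, u v ja p * X t p))) ≤
        ∑ a, (Real.log (nrm (av v) (X t)) - Real.log (av v (∑ j, B v a j * X t j))) := by
      have e1 : ∑ ja : Fin b × Fin n, (Real.log (nrm (av v) (X t)) -
          Real.log (av v (∑ p, u v ja p * X t p))) =
          ∑ a ∈ Finset.univ.image (f v), (Real.log (nrm (av v) (X t)) -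
            Real.log (av v (∑ j, B v a j * X t j))) := by
        rw [Finset.sum_image (fun x _ y _ hxy => g1 hxy)]
        refine Finset.sum_congr rfl fun ja _ => ?_
        rw [g2]
      rw [e1]
      refine Finset.sum_le_sum_of_subset_of_nonneg (Finset.subset_univ _) fun a _ ha => ?_
      obtain ⟨j, hj⟩ := g3 a (fun ⟨i, hi⟩ => ha (Finset.mem_image.2 ⟨i, Finset.mem_univ _, hi⟩))
      have e2 : ∑ j', B v a j' * X t j' = X t j := by
        rw [hj, Finset.sum_eq_single j]
        · rw [Pi.single_eq_same, one_mul]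
        · intro j' _ hj'
          rw [Pi.single_eq_of_ne hj', zero_mul]
        · intro h'
          exact absurd (Finset.mem_univ _) h'
      rw [e2, sub_nonneg]
      exact Real.log_le_log ((av v).pos_iff.2 (h7 j)) (le_nrm _ _ _)
    have hterm : ∀ ja : Fin b × Fin n, Real.log (nrm (av v) (X t)) -
        Real.log (av v (∑ p, u v ja p * X t p)) =
        (Real.log (nrm (av v) (fun i => g i t)) -
          Real.log (av v (∑ i, L v ja.2 i t * g i t))) +
        (Real.log (nrm (av v) (fun j => β' j t)) - Real.log (av v (β ja.1 t))) := by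
      intro ja
      rw [h6 v hv ja, map_mul, Real.log_mul ((av v).pos_iff.2 (h5 _)).ne'
        ((av v).pos_iff.2 (h4 v hv _)).ne', hnX, Real.log_mul (hnβ v).ne' (hng v).ne']
      ring
    have e3 : ∑ ja : Fin b × Fin n, (Real.log (nrm (av v) (X t)) -
        Real.log (av v (∑ p, u v ja p * X t p))) = b * T v +
        n * ∑ j, (Real.log (nrm (av v) (fun j => β' j t)) - Real.log (av v (β j t))) := by
      rw [Finset.sum_congr rfl fun ja _ => hterm ja, Finset.sum_add_distrib]
      congr 1
      · rw [Fintype.sum_prod_type]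
        simp only
        rw [Finset.sum_const, Finset.card_univ, Fintype.card_fin, nsmul_eq_mul]
      · rw [Fintype.sum_prod_type_right]
        simp only
        rw [Finset.sum_const, Finset.card_univ, Fintype.card_fin, nsmul_eq_mul]
    have e4 : -(2 * b * (ε₂ * H t)) ≤ wt v * ∑ j,
        (Real.log (nrm (av v) (fun j => β' j t)) - Real.log (av v (β j t))) := by
      rw [Finset.mul_sum]
      have e5 : ∀ j : Fin b, -(2 * (ε₂ * H t)) ≤ wt v *
          (Real.log (nrm (av v) (fun j => β' j t)) - Real.log (av v (β j t))) := by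
        intro j
        have := abs_le.1 (h2 v hv)
        have := abs_le.1 (h3 v hv j)
        rw [mul_sub]
        linarith
      have e6 := Finset.sum_le_sum fun (j : Fin b) (_ : j ∈ Finset.univ) => e5 j
      rw [Finset.sum_const, Finset.card_univ, Fintype.card_fin, nsmul_eq_mul] at e6
      linarith
    have e7 := mul_le_mul_of_nonneg_left hsplit (wt_nonneg v)
    rw [e3, mul_add] at e7
    have e8 := mul_le_mul_of_nonneg_left e4 hn0.le
    have e9 : wt v * (n * ∑ j, (Real.log (nrm (av v) (fun j => β' j t)) -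
        Real.log (av v (β j t)))) = n * (wt v * ∑ j,
        (Real.log (nrm (av v) (fun j => β' j t)) - Real.log (av v (β j t)))) := by ring
    rw [e9] at e7
    have e10 : wt v * (b * T v) = b * (wt v * T v) := by ring
    rw [e10] at e7
    linarith
  have hsum : (b : ℝ) * ∑ v ∈ S, wt v * T v - S.card * (2 * n * b * (ε₂ * H t)) ≤
      (N + ε₁) * logHeight (X t) := by
    refine le_trans ?_ hkey
    have e1 := Finset.sum_le_sum hplace
    rw [Finset.sum_sub_distrib, ← Finset.mul_sum, Finset.sum_const, nsmul_eq_mul] at e1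
    exact e1
  have hNle : (N : ℝ) ≤ (1 + η) * b * n := by
    rw [hN]
    push_cast
    exact mul_le_mul_of_nonneg_right hbb' hn0.le
  have hx0 : 0 ≤ logHeight (X t) := logHeight_nonneg _
  have hxle : logHeight (X t) ≤ h + ε₂ * H t := by
    rw [h8]
    linarith
  have hεH : 0 ≤ ε₂ * H t := mul_nonneg hε₂0.le h10
  have f1 : ((N : ℝ) + ε₁) * logHeight (X t) ≤ ((1 + η) * b * n + ε₁) * (h + ε₂ * H t) :=
    mul_le_mul (by linarith) hxle hx0 (by positivity)
  -- division by `b`
  have f2 : (b : ℝ) * ∑ v ∈ S, wt v * T v ≤ b * (n * h + ε * H t) := by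
    have g1 : ((1 + η) * b * n + ε₁) * (h + ε₂ * H t) + S.card * (2 * n * b * (ε₂ * H t)) ≤
        b * (n * h + (η * n + ε₁) * h + (2 * n + 1 + 2 * S.card * n) * (ε₂ * H t)) := by
      have k1 : ε₁ * h ≤ b * (ε₁ * h) := le_mul_of_one_le_left (by positivity) hb1
      have k2 : ((1 + η) * b * n + ε₁) * (ε₂ * H t) ≤ b * ((2 * n + 1) * (ε₂ * H t)) := by
        have k3 : (1 + η) * b * n + ε₁ ≤ b * (2 * n + 1) := by
          have : (1 + η) * (b * n) ≤ 2 * (b * n) :=
            mul_le_mul_of_nonneg_right (by linarith) (by positivity)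
          nlinarith
        calc ((1 + η) * b * n + ε₁) * (ε₂ * H t) ≤ (b * (2 * n + 1)) * (ε₂ * H t) :=
              mul_le_mul_of_nonneg_right k3 hεH
          _ = _ := by ring
      have k4 : ((1 + η) * b * n + ε₁) * (h + ε₂ * H t) = b * (n * h) + b * (η * n * h) + ε₁ * h +
        ((1 + η) * b * n + ε₁) * (ε₂ * H t) := by ring
      rw [k4]
      nlinarith
    have g2 : (η * n + ε₁) * h ≤ ε / 2 * H t := by
      have k1 : (η * n + ε₁) * h ≤ (η * n + ε₁) * (M' * H t) :=
        mul_le_mul_of_nonneg_left hhM (by positivity)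
      have k2 : (η * n + ε₁) * (M' * H t) = (η * (n * M') + ε₁ * M') * H t := by ring
      rw [k2] at k1
      refine k1.trans (mul_le_mul_of_nonneg_right (by linarith) h10)
    have g3 : (2 * n + 1 + 2 * S.card * n) * (ε₂ * H t) = ε / 2 * H t := by
      rw [← mul_assoc, ← hκ, hε₂2]
    have g4 : b * (n * h + (η * n + ε₁) * h + (2 * n + 1 + 2 * S.card * n) * (ε₂ * H t)) ≤
        b * (n * h + ε * H t) := by
      refine mul_le_mul_of_nonneg_left ?_ hb0'.le
      rw [g3]
      linarith
    linarith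
  exact le_of_mul_le_mul_left f2 hb0'

end Pool.Agent.N750
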