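import Mathlib

set_option autoImplicit false
set_option linter.unusedSectionVars false

/-!
Weights in the style of Nochka, for a family of vectors.
-/

namespace Pool.Agent.N750

open Finset

section box

variable {C : Type} [DecidableEq C]

/-- A maximal vector in a polymatroid with a box constraint. -/
theorem exists_box (r : Finset C → ℝ) (h0 : r ∅ = 0) (hmono : ∀ A B, A ⊆ B → r A ≤ r B)
    (hsub : ∀ A B, r (A ∪ B) + r (A ∩ B) ≤ r A + r B) (θ : ℝ) (hθ : 0 ≤ θ) (F : Finset C) :
    ∃ ω : C → ℝ, (∀ c, 0 ≤ ω c) ∧ (∀ c, ω c ≤ θ) ∧ (∀ B, B ⊆ F → ∑ c ∈ B, ω c ≤ r B) ∧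
      ∃ T, T ⊆ F ∧ ∑ c ∈ T, ω c = r T ∧ ∀ c ∈ F, c ∉ T → ω c = θ := by
  induction F using Finset.induction_on with
  | empty =>
    refine ⟨fun _ => 0, fun _ => le_rfl, fun _ => hθ, ?_, ∅, subset_rfl, ?_, ?_⟩
    · intro B hB
      rw [subset_empty.1 hB]
      simp [h0]
    · simp [h0]
    · intro c hc
      simp at hc
  | insert e F he ih =>
    obtain ⟨ω, h1, h2, h3, T, hT, hT1, hT2⟩ := ih
    -- the new value
    obtain ⟨B0, hB0, hmin⟩ := Finset.exists_min_image F.powerset
      (fun B => r (insert e B) - ∑ c ∈ B, ω c) ⟨∅, Finset.empty_mem_powerset _⟩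
    rw [Finset.mem_powerset] at hB0
    set m : ℝ := r (insert e B0) - ∑ c ∈ B0, ω c with hm
    have hm0 : 0 ≤ m := by
      have a1 := h3 B0 hB0
      have a2 := hmono B0 (insert e B0) (Finset.subset_insert _ _)
      rw [hm]
      linarith
    set s : ℝ := min θ m with hs
    have hs0 : 0 ≤ s := le_min hθ hm0
    set ω' : C → ℝ := Function.update ω e s with hω'
    have hsame : ∀ B : Finset C, e ∉ B → ∑ c ∈ B, ω' c = ∑ c ∈ B, ω c := by
      intro B hB
      refine Finset.sum_congr rfl fun c hc => ?_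
      rw [hω', Function.update_of_ne]
      rintro rfl
      exact hB hc
    have hes : ω' e = s := by rw [hω', Function.update_self]
    have hall : ∀ B, B ⊆ insert e F → ∑ c ∈ B, ω' c ≤ r B := by
      intro B hB
      by_cases heB : e ∈ B
      · have e1 : B = insert e (B.erase e) := (Finset.insert_erase heB).symm
        have e2 : B.erase e ⊆ F := by
          intro c hc
          rw [Finset.mem_erase] at hc
          exact (Finset.mem_insert.1 (hB hc.2)).resolve_left hc.1
        rw [e1, Finset.sum_insert (Finset.notMem_erase _ _), hsame _ (Finset.notMem_erase _ _), hes]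
        have a1 := hmin (B.erase e) (Finset.mem_powerset.2 e2)
        have a2 : s ≤ m := min_le_right _ _
        linarith
      · rw [hsame B heB]
        refine h3 B fun c hc => ?_
        refine (Finset.mem_insert.1 (hB hc)).resolve_left ?_
        rintro rfl
        exact heB hc
    refine ⟨ω', ?_, ?_, hall, ?_⟩
    · intro c
      by_cases hc : c = e
      · rw [hc, hes]
        exact hs0
      · rw [hω', Function.update_of_ne hc]
        exact h1 c
    · intro c
      by_cases hc : c = e
      · rw [hc, hes]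
        exact min_le_left _ _
      · rw [hω', Function.update_of_ne hc]
        exact h2 c
    · have heT : e ∉ T := fun h => he (hT h)
      by_cases hcase : θ ≤ m
      · have hsθ : s = θ := min_eq_left hcase
        refine ⟨T, hT.trans (Finset.subset_insert _ _), ?_, ?_⟩
        · rw [hsame T heT, hT1]
        · intro c hc hcT
          rcases Finset.mem_insert.1 hc with rfl | hcF
          · rw [hes, hsθ]
          · rw [hω', Function.update_of_ne]
            · exact hT2 c hcF hcT
            · rintro rfl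
              exact he hcF
      · have hsm : s = m := min_eq_right (le_of_lt (not_le.1 hcase))
        have heB0 : e ∉ B0 := fun h => he (hB0 h)
        refine ⟨T ∪ insert e B0, ?_, ?_, ?_⟩
        · intro c hc
          rcases Finset.mem_union.1 hc with h | h
          · exact Finset.mem_insert_of_mem (hT h)
          · rcases Finset.mem_insert.1 h with rfl | h
            · exact Finset.mem_insert_self _ _
            · exact Finset.mem_insert_of_mem (hB0 h)
        · apply le_antisymm
          · apply hall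
            intro c hc
            rcases Finset.mem_union.1 hc with h | h
            · exact Finset.mem_insert_of_mem (hT h)
            · rcases Finset.mem_insert.1 h with rfl | h
              · exact Finset.mem_insert_self _ _
              · exact Finset.mem_insert_of_mem (hB0 h)
          · have a1 := Finset.sum_union_inter (s₁ := T) (s₂ := insert e B0) (f := ω')
            have a2 : T ∩ insert e B0 = T ∩ B0 := by
              ext c
              simp only [Finset.mem_inter, Finset.mem_insert]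
              constructor
              · rintro ⟨h, rfl | h'⟩
                · exact absurd h heT
                · exact ⟨h, h'⟩
              · rintro ⟨h, h'⟩
                exact ⟨h, Or.inr h'⟩
            have a3 : ∑ c ∈ T, ω' c = r T := by rw [hsame T heT, hT1]
            have a4 : ∑ c ∈ insert e B0, ω' c = r (insert e B0) := by
              rw [Finset.sum_insert heB0, hsame B0 heB0, hes, hsm, hm]
              ring
            have a5 : ∑ c ∈ T ∩ insert e B0, ω' c ≤ r (T ∩ insert e B0) := by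
              apply hall
              intro c hc
              rw [Finset.mem_inter] at hc
              exact Finset.mem_insert_of_mem (hT hc.1)
            have a6 := hsub T (insert e B0)
            rw [a3, a4] at a1
            linarith
        · intro c hc hcT
          have hcT1 : c ∉ T := fun h => hcT (Finset.mem_union_left _ h)
          have hcT2 : c ∉ insert e B0 := fun h => hcT (Finset.mem_union_right _ h)
          have hce : c ≠ e := fun h => hcT2 (h ▸ Finset.mem_insert_self _ _)
          have hcF : c ∈ F := (Finset.mem_insert.1 hc).resolve_left hce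
          rw [hω', Function.update_of_ne hce]
          exact hT2 c hcF hcT1

/-- Nochka weights. -/
theorem exists_weights [Fintype C] (r : Finset C → ℕ) (h0 : r ∅ = 0)
    (hmono : ∀ A B, A ⊆ B → r A ≤ r B)
    (hsub : ∀ A B, r (A ∪ B) + r (A ∩ B) ≤ r A + r B) (hcard : ∀ A, r A ≤ A.card)
    (w N : ℕ) (hw : ∀ A, r A ≤ w + 1)
    (hN : ∀ A, r A ≤ w → A.card ≤ N + r A) :
    ∃ (θ : ℝ) (ω : C → ℝ), 0 < θ ∧ (∀ c, 0 ≤ ω c) ∧ (∀ c, ω c ≤ θ) ∧
      (∀ A, r A ≤ w → ∑ c ∈ A, ω c ≤ r A) ∧
      θ * ((Fintype.card C : ℝ) - (2 * N + w + 1)) + (w + 1) ≤ ∑ c, ω c := by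
  classical
  -- the slopes
  have hden : ∀ A, r A ≤ w → (1 : ℝ) ≤ 2 * N + w + 1 - A.card := by
    intro A hA
    have h1 := hN A hA
    have h2 : (A.card : ℝ) ≤ N + w := by
      have : A.card ≤ N + w := by omega
      exact_mod_cast this
    have : (0 : ℝ) ≤ N := Nat.cast_nonneg _
    linarith
  obtain ⟨F0, hF0m, hF0⟩ := Finset.exists_max_image (Finset.univ.filter fun A : Finset C => r A ≤ w)
    (fun A => ((w : ℝ) + 1 - r A) / (2 * N + w + 1 - A.card))
    ⟨∅, Finset.mem_filter.2 ⟨Finset.mem_univ _, by rw [h0]; exact Nat.zero_le _⟩⟩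
  rw [Finset.mem_filter] at hF0m
  have hF0w := hF0m.2
  set θ : ℝ := ((w : ℝ) + 1 - r F0) / (2 * N + w + 1 - F0.card) with hθ
  have hd0 := hden F0 hF0w
  have hrF0 : (r F0 : ℝ) ≤ w := by exact_mod_cast hF0w
  have hθ0 : 0 < θ := div_pos (by linarith) (by linarith)
  have hθeq : (w : ℝ) + 1 - r F0 = θ * (2 * N + w + 1 - F0.card) := by
    rw [hθ, div_mul_cancel₀]
    linarith
  have hmax : ∀ A, r A ≤ w → (w : ℝ) + 1 - r A ≤ θ * (2 * N + w + 1 - A.card) := by
    intro A hA
    have h1 := hF0 A (Finset.mem_filter.2 ⟨Finset.mem_univ _, hA⟩)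
    have h2 := hden A hA
    rwa [div_le_iff₀ (by linarith)] at h1
  obtain ⟨ω, h1, h2, h3, T, hT, hT1, hT2⟩ := exists_box (fun A => (r A : ℝ)) (by simp [h0])
    (fun A B h => by exact_mod_cast hmono A B h) (fun A B => by exact_mod_cast hsub A B) θ hθ0.le F0
  -- the total weight on `F0`
  have htot : (r F0 : ℝ) ≤ ∑ c ∈ F0, ω c := by
    have a1 : ∑ c ∈ F0, ω c = ∑ c ∈ F0 \ T, ω c + ∑ c ∈ T, ω c := (Finset.sum_sdiff hT).symm
    have a2 : ∑ c ∈ F0 \ T, ω c = ((F0.card : ℝ) - T.card) * θ := by
      rw [Finset.sum_congr rfl (fun c hc => hT2 c (Finset.mem_sdiff.1 hc).1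
        (Finset.mem_sdiff.1 hc).2), Finset.sum_const, nsmul_eq_mul, Finset.card_sdiff_of_subset hT,
        Nat.cast_sub (Finset.card_le_card hT)]
    have a3 := hmax T ((hmono T F0 hT).trans hF0w)
    rw [a1, a2, hT1]
    have : (r F0 : ℝ) - r T ≤ θ * (F0.card - T.card) := by
      have e1 : θ * ((F0.card : ℝ) - T.card) = θ * (2 * N + w + 1 - T.card) -
        θ * (2 * N + w + 1 - F0.card) := by ring
      rw [e1, ← hθeq]
      linarith
    linarith
  set ω' : C → ℝ := fun c => if c ∈ F0 then ω c else θ with hω'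
  refine ⟨θ, ω', hθ0, ?_, ?_, ?_, ?_⟩
  · intro c
    rw [hω']
    dsimp only
    split_ifs
    · exact h1 c
    · exact hθ0.le
  · intro c
    rw [hω']
    dsimp only
    split_ifs
    · exact h2 c
    · exact le_rfl
  · intro A hA
    have a1 : ∑ c ∈ A, ω' c = ∑ c ∈ A ∩ F0, ω c + ((A \ F0).card : ℝ) * θ := by
      rw [← Finset.sum_inter_add_sum_sdiff A F0 ω']
      congr 1
      · refine Finset.sum_congr rfl fun c hc => ?_
        rw [hω']
        exact if_pos (Finset.mem_inter.1 hc).2
      · rw [← nsmul_eq_mul, ← Finset.sum_const]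
        refine Finset.sum_congr rfl fun c hc => ?_
        rw [hω']
        exact if_neg (Finset.mem_sdiff.1 hc).2
    have a2 : ∑ c ∈ A ∩ F0, ω c ≤ r (A ∩ F0) := h3 _ Finset.inter_subset_right
    have a3 : (r (A ∪ F0) : ℝ) + r (A ∩ F0) ≤ r A + r F0 := by exact_mod_cast hsub A F0
    have a4 : ((A \ F0).card : ℝ) = (A ∪ F0).card - F0.card := by
      have := Finset.card_sdiff_add_card A F0
      have h5 : ((A \ F0).card : ℝ) + F0.card = (A ∪ F0).card := by exact_mod_cast this
      linarith
    have key : ((A \ F0).card : ℝ) * θ ≤ r A - r (A ∩ F0) := by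
      by_cases hcase : r (A ∪ F0) ≤ w
      · have b1 := hmax _ hcase
        rw [a4]
        have e1 : (((A ∪ F0).card : ℝ) - F0.card) * θ = θ * (2 * N + w + 1 - F0.card) -
          θ * (2 * N + w + 1 - (A ∪ F0).card) := by ring
        rw [e1, ← hθeq]
        linarith
      · have b1 : r (A ∪ F0) = w + 1 := le_antisymm (hw _) (by omega)
        have b2 : (r (A ∪ F0) : ℝ) = w + 1 := by rw [b1]; push_cast; ring
        set g : ℝ := r A - r (A ∩ F0) with hg
        have b3 : (w : ℝ) + 1 - r F0 ≤ g := by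
          rw [hg]
          linarith
        have b4 : ((A \ F0).card : ℝ) ≤ N + g := by
          have c1 := hN A hA
          have c2 := Finset.card_sdiff_add_card_inter A F0
          have c3 : r (A ∩ F0) ≤ (A ∩ F0).card := hcard _
          have c4 : ((A \ F0).card : ℝ) + (A ∩ F0).card = A.card := by exact_mod_cast c2
          have c5 : (A.card : ℝ) ≤ N + r A := by exact_mod_cast c1
          have c6 : (r (A ∩ F0) : ℝ) ≤ (A ∩ F0).card := by exact_mod_cast c3
          rw [hg]
          linarith
        have b5 : (F0.card : ℝ) ≤ N + r F0 := by exact_mod_cast hN F0 hF0w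
        have hN0 : (0 : ℝ) ≤ N := Nat.cast_nonneg _
        -- `θ ≤ (w + 1 - ρ) / (N + (w + 1 - ρ))`
        set u : ℝ := (w : ℝ) + 1 - r F0 with hu
        have hu1 : 1 ≤ u := by rw [hu]; linarith
        have b6 : θ * (N + u) ≤ u := by
          have c1 : θ * (N + u) ≤ θ * (2 * N + w + 1 - F0.card) :=
            mul_le_mul_of_nonneg_left (by linarith) hθ0.le
          linarith
        have b7 : ((A \ F0).card : ℝ) * θ ≤ (N + g) * θ := mul_le_mul_of_nonneg_right b4 hθ0.le
        refine b7.trans ?_
        -- `(N + g) θ ≤ g`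
        have b8 : 0 < N + u := by linarith
        have b9 : ((N + g) * θ) * (N + u) ≤ g * (N + u) := by
          have : ((N + g) * θ) * (N + u) = (N + g) * (θ * (N + u)) := by ring
          rw [this]
          have c1 : (N + g) * (θ * (N + u)) ≤ (N + g) * u :=
            mul_le_mul_of_nonneg_left b6 (by linarith)
          nlinarith [mul_le_mul_of_nonneg_left b3 hN0]
        exact le_of_mul_le_mul_right b9 b8
    rw [a1]
    linarith
  · have a1 : ∑ c, ω' c = ∑ c ∈ F0, ω c + ((Fintype.card C : ℝ) - F0.card) * θ := by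
      rw [← Finset.sum_add_sum_compl F0 ω']
      congr 1
      · refine Finset.sum_congr rfl fun c hc => ?_
        rw [hω']
        exact if_pos hc
      · rw [← Nat.cast_sub (Finset.card_le_univ _), ← Finset.card_compl, ← nsmul_eq_mul,
          ← Finset.sum_const]
        refine Finset.sum_congr rfl fun c hc => ?_
        rw [hω']
        exact if_neg (Finset.mem_compl.1 hc)
    rw [a1]
    have e1 : θ * ((Fintype.card C : ℝ) - (2 * N + w + 1)) =
      ((Fintype.card C : ℝ) - F0.card) * θ - θ * (2 * N + w + 1 - F0.card) := by ring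
    rw [e1, ← hθeq]
    linarith

end box

section vec

variable {F V C : Type} [Field F] [AddCommGroup V] [Module F V] [Module.Finite F V]
  [DecidableEq C]

/-- the rank of a subfamily -/
noncomputable def rk (F : Type) {V C : Type} [Field F] [AddCommGroup V] [Module F V]
    (B : C → V) (A : Finset C) : ℕ :=
  Module.finrank F (Submodule.span F (B '' A))

theorem rk_empty (B : C → V) : rk F B ∅ = 0 := by
  unfold rk
  rw [Finset.coe_empty, Set.image_empty, Submodule.span_empty, finrank_bot]

theorem rk_mono (B : C → V) (A A' : Finset C) (h : A ⊆ A') : rk F B A ≤ rk F B A' := by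
  unfold rk
  exact Submodule.finrank_mono (Submodule.span_mono (Set.image_mono (by exact_mod_cast h)))

theorem rk_sub (B : C → V) (A A' : Finset C) :
    rk F B (A ∪ A') + rk F B (A ∩ A') ≤ rk F B A + rk F B A' := by
  unfold rk
  rw [← Submodule.finrank_sup_add_finrank_inf_eq (Submodule.span F (B '' (A : Set C)))]
  refine add_le_add ?_ ?_
  · refine Submodule.finrank_mono ?_
    rw [Finset.coe_union, Set.image_union, Submodule.span_union]
  · refine Submodule.finrank_mono (le_inf ?_ ?_)
    · exact Submodule.span_mono (Set.image_mono (by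
        rw [Finset.coe_inter]
        exact Set.inter_subset_left))
    · exact Submodule.span_mono (Set.image_mono (by
        rw [Finset.coe_inter]
        exact Set.inter_subset_right))

theorem rk_card (B : C → V) (A : Finset C) : rk F B A ≤ A.card := by
  classical
  unfold rk
  have h1 : B '' A = ((A.image B : Finset V) : Set V) := by rw [Finset.coe_image]
  rw [h1]
  exact (finrank_span_finset_le_card (R := F) (A.image B)).trans Finset.card_image_le

theorem rk_indep (B : C → V) (A : Finset C) (h : LinearIndepOn F B (A : Set C)) :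
    rk F B A = A.card := by
  classical
  unfold rk
  have h1 := finrank_span_eq_card (R := F) (b := fun c : A => B c) h
  rw [Fintype.card_coe] at h1
  rw [← h1]
  have h2 : B '' (A : Set C) = Set.range fun c : A => B c := by
    ext x
    constructor
    · rintro ⟨c, hc, rfl⟩
      exact ⟨⟨c, hc⟩, rfl⟩
    · rintro ⟨c, rfl⟩
      exact ⟨c, c.2, rfl⟩
  rw [h2]

/-- the greedy bound -/
theorem greedy (B : C → V) (ω : C → ℝ) (n : ℕ) :
    ∀ (A : Finset C), A.card = n → ∀ (Λ : C → ℝ), (∀ c, 0 ≤ Λ c) → (∀ c ∈ A, 0 < Λ c) →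
    (∀ A' ⊆ A, ∑ c ∈ A', ω c ≤ rk F B A') →
    ∃ b ⊆ A, LinearIndepOn F B (b : Set C) ∧ ∑ c ∈ A, ω c * Λ c ≤ ∑ c ∈ b, Λ c := by
  induction n using Nat.strong_induction_on with
  | _ n ih =>
    intro A hAn Λ hΛ hA hω
    rcases A.eq_empty_or_nonempty with rfl | hne
    · exact ⟨∅, subset_rfl, by simp, by simp⟩
    obtain ⟨c0, hc0, hmin⟩ := Finset.exists_min_image A Λ hne
    set m := Λ c0 with hm
    have hm0 : 0 < m := hA c0 hc0
    set A' := A.filter fun c => m < Λ c with hA'
    have hA'A : A' ⊆ A := Finset.filter_subset _ _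
    have hlt : A'.card < n := by
      rw [← hAn]
      refine Finset.card_lt_card ⟨hA'A, fun h => ?_⟩
      have := (Finset.mem_filter.1 (h hc0)).2
      exact lt_irrefl _ this
    obtain ⟨b', hb'A, hb', hsum⟩ := ih _ hlt A' rfl (fun c => max (Λ c - m) 0)
      (fun c => le_max_right _ _) (fun c hc => by
        have := (Finset.mem_filter.1 hc).2
        exact lt_max_of_lt_left (by linarith))
      (fun A'' h => hω A'' (h.trans hA'A))
    obtain ⟨t, htA, hb't, hspan, htI⟩ := exists_linearIndepOn_extension hb'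
      (show (b' : Set C) ⊆ (A : Set C) by exact_mod_cast hb'A.trans hA'A)
    have htf : t.Finite := A.finite_toSet.subset htA
    set b := htf.toFinset with hb
    have hbt : (b : Set C) = t := htf.coe_toFinset
    have hbA : b ⊆ A := by
      have : (b : Set C) ⊆ (A : Set C) := hbt ▸ htA
      exact_mod_cast this
    have hb'b : b' ⊆ b := by
      have : (b' : Set C) ⊆ (b : Set C) := hbt ▸ hb't
      exact_mod_cast this
    rw [← hbt] at htI hspan
    have hrk : rk F B A ≤ b.card := by
      rw [← rk_indep B b htI]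
      unfold rk
      exact Submodule.finrank_mono (Submodule.span_le.2 hspan)
    refine ⟨b, hbA, htI, ?_⟩
    have e1 : ∀ c ∈ A, Λ c = max (Λ c - m) 0 + m := by
      intro c hc
      rw [max_eq_left (by linarith [hmin c hc])]
      ring
    have e2 : ∑ c ∈ A, ω c * Λ c = ∑ c ∈ A, ω c * max (Λ c - m) 0 + m * ∑ c ∈ A, ω c := by
      rw [Finset.mul_sum, ← Finset.sum_add_distrib]
      refine Finset.sum_congr rfl fun c hc => ?_
      conv_lhs => rw [e1 c hc]
      ring
    have e3 : ∑ c ∈ A, ω c * max (Λ c - m) 0 = ∑ c ∈ A', ω c * max (Λ c - m) 0 := by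
      symm
      refine Finset.sum_subset hA'A fun c hc hc' => ?_
      have : ¬ m < Λ c := fun h => hc' (Finset.mem_filter.2 ⟨hc, h⟩)
      rw [max_eq_right (by linarith), mul_zero]
    have e4 : ∑ c ∈ b, Λ c = ∑ c ∈ b, max (Λ c - m) 0 + m * b.card := by
      rw [Finset.sum_congr rfl fun c hc => e1 c (hbA hc), Finset.sum_add_distrib, Finset.sum_const,
        nsmul_eq_mul, mul_comm m]
    have e5 : ∑ c ∈ b', max (Λ c - m) 0 ≤ ∑ c ∈ b, max (Λ c - m) 0 :=
      Finset.sum_le_sum_of_subset_of_nonneg hb'b fun c _ _ => le_max_right _ _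
    have e6 : ∑ c ∈ A, ω c ≤ (b.card : ℝ) := (hω A subset_rfl).trans (by exact_mod_cast hrk)
    have e7 := mul_le_mul_of_nonneg_left e6 hm0.le
    rw [e2, e3, e4]
    linarith

/-- The inequality for the sum of all terms. -/
theorem wirs [Fintype C] (B : C → V) (w N : ℕ) (hw : Module.finrank F V ≤ w + 1)
    (hN : ∀ A, rk F B A ≤ w → A.card ≤ N + rk F B A)
    {ι : Type} (S : Finset ι) (wt : ι → ℝ) (hwt : ∀ v ∈ S, 0 ≤ wt v) (Λ : ι → C → ℝ)
    (hΛ : ∀ v ∈ S, ∀ c, 0 ≤ Λ v c)
    (hsupp : ∀ v ∈ S, ∀ A : Finset C, (∀ c ∈ A, 0 < Λ v c) → rk F B A ≤ w)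
    (hT : ∀ c, ∑ v ∈ S, wt v * Λ v c ≤ 1)
    (hS : ∀ b : ι → Finset C, (∀ v ∈ S, LinearIndepOn F B (b v : Set C)) →
      ∑ v ∈ S, wt v * ∑ c ∈ b v, Λ v c ≤ w + 1) :
    ∑ v ∈ S, wt v * ∑ c, Λ v c ≤ 2 * N + w + 1 := by
  classical
  obtain ⟨θ, ω, hθ, h1, h2, h3, h4⟩ := exists_weights (rk F B) (rk_empty B) (rk_mono B) (rk_sub B)
    (rk_card B) w N (fun A => (Submodule.finrank_le _).trans hw) hN
  have hg : ∀ v, ∃ b : Finset C, v ∈ S → (LinearIndepOn F B (b : Set C) ∧
      ∑ c, ω c * Λ v c ≤ ∑ c ∈ b, Λ v c) := by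
    intro v
    by_cases hv : v ∈ S
    · obtain ⟨b, -, hb1, hb2⟩ := greedy (F := F) B ω _ (Finset.univ.filter fun c => 0 < Λ v c)
        rfl (Λ v) (hΛ v hv) (fun c hc => (Finset.mem_filter.1 hc).2) (fun A' hA' =>
          h3 A' (hsupp v hv A' fun c hc => (Finset.mem_filter.1 (hA' hc)).2))
      refine ⟨b, fun _ => ⟨hb1, le_trans (le_of_eq ?_) hb2⟩⟩
      symm
      refine Finset.sum_subset (Finset.subset_univ _) fun c _ hc => ?_
      have : ¬ 0 < Λ v c := fun h => hc (Finset.mem_filter.2 ⟨Finset.mem_univ _, h⟩)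
      rw [le_antisymm (not_lt.1 this) (hΛ v hv c), mul_zero]
    · exact ⟨∅, fun h => absurd h hv⟩
  choose b hb using hg
  have e1 := hS b fun v hv => (hb v hv).1
  have e2 : ∑ v ∈ S, wt v * ∑ c, ω c * Λ v c ≤ w + 1 := by
    refine (Finset.sum_le_sum fun v hv => ?_).trans e1
    exact mul_le_mul_of_nonneg_left (hb v hv).2 (hwt v hv)
  have e3 : θ * ∑ v ∈ S, wt v * ∑ c, Λ v c = ∑ v ∈ S, wt v * ∑ c, ω c * Λ v c +
      ∑ c, (θ - ω c) * ∑ v ∈ S, wt v * Λ v c := by
    have a1 : ∑ c, (θ - ω c) * ∑ v ∈ S, wt v * Λ v c =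
        ∑ v ∈ S, wt v * ∑ c, (θ - ω c) * Λ v c := by
      simp_rw [Finset.mul_sum]
      rw [Finset.sum_comm]
      exact Finset.sum_congr rfl fun v _ => Finset.sum_congr rfl fun c _ => by ring
    rw [a1, ← Finset.sum_add_distrib, Finset.mul_sum]
    refine Finset.sum_congr rfl fun v _ => ?_
    rw [← mul_add, ← Finset.sum_add_distrib, ← mul_assoc, mul_comm θ, mul_assoc, Finset.mul_sum]
    congr 1
    exact Finset.sum_congr rfl fun c _ => by ring
  have e4 : ∑ c, (θ - ω c) * ∑ v ∈ S, wt v * Λ v c ≤ ∑ c, (θ - ω c) := by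
    refine Finset.sum_le_sum fun c _ => ?_
    have := mul_le_mul_of_nonneg_left (hT c) (sub_nonneg.2 (h2 c))
    rwa [mul_one] at this
  have e5 : ∑ c : C, (θ - ω c) = θ * Fintype.card C - ∑ c, ω c := by
    rw [Finset.sum_sub_distrib, Finset.sum_const, nsmul_eq_mul, Finset.card_univ]
    ring
  have e6 : θ * ∑ v ∈ S, wt v * ∑ c, Λ v c ≤ θ * (2 * N + w + 1) := by
    rw [e3]
    have : θ * ((Fintype.card C : ℝ) - (2 * N + w + 1)) = θ * Fintype.card C -
      θ * (2 * N + w + 1) := by ring
    linarith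
  exact le_of_mul_le_mul_left e6 hθ

end vec

end Pool.Agent.N750
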