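import Mathlib
import Pool.Agent.N750.Noch

/-!
Evaluations of binary forms at distinct points; ranks of images.
-/

set_option autoImplicit false
set_option linter.unusedSectionVars false

open Finset Filter Topology

namespace Pool.Agent.N750

section forms

variable {F : Type} [Field F]

/-- the coefficients of a product of linear forms -/
theorem prod_lin (l : List (F × F)) : ∃ g : ℕ → F, ∀ v w : F,
    (l.map fun p => p.1 * v + p.2 * w).prod =
      ∑ j ∈ Finset.range (l.length + 1), g j * (v ^ j * w ^ (l.length - j)) := by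
  induction l with
  | nil => exact ⟨fun _ => 1, fun v w => by simp⟩
  | cons p l ih =>
    obtain ⟨g, hg⟩ := ih
    set m := l.length with hm
    refine ⟨fun j => (if j = 0 then 0 else p.1 * g (j - 1)) + (if j ≤ m then p.2 * g j else 0),
      fun v w => ?_⟩
    rw [List.map_cons, List.prod_cons, hg, List.length_cons, ← hm]
    have e1 : ∑ j ∈ Finset.range (m + 1 + 1), ((if j = 0 then 0 else p.1 * g (j - 1)) +
        (if j ≤ m then p.2 * g j else 0)) * (v ^ j * w ^ (m + 1 - j)) =
        ∑ j ∈ Finset.range (m + 1 + 1), (if j = 0 then 0 else p.1 * g (j - 1)) *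
          (v ^ j * w ^ (m + 1 - j)) +
        ∑ j ∈ Finset.range (m + 1 + 1), (if j ≤ m then p.2 * g j else 0) *
          (v ^ j * w ^ (m + 1 - j)) := by
      rw [← Finset.sum_add_distrib]
      exact Finset.sum_congr rfl fun j _ => add_mul _ _ _
    rw [e1, Finset.sum_range_succ' (fun j => (if j = 0 then 0 else p.1 * g (j - 1)) *
      (v ^ j * w ^ (m + 1 - j))), Finset.sum_range_succ (fun j => (if j ≤ m then p.2 * g j else 0) *
          (v ^ j * w ^ (m + 1 - j)))]
    have e2 : ∀ j ∈ Finset.range (m + 1), (if j + 1 = 0 then 0 else p.1 * g (j + 1 - 1)) *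
        (v ^ (j + 1) * w ^ (m + 1 - (j + 1))) = p.1 * v * (g j * (v ^ j * w ^ (m - j))) := by
      intro j _
      rw [if_neg (Nat.succ_ne_zero j), Nat.add_sub_cancel, Nat.add_sub_add_right, pow_succ]
      ring
    have e3 : ∀ j ∈ Finset.range (m + 1), (if j ≤ m then p.2 * g j else 0) *
        (v ^ j * w ^ (m + 1 - j)) = p.2 * w * (g j * (v ^ j * w ^ (m - j))) := by
      intro j hj
      have hjm : j ≤ m := by
        rw [Finset.mem_range] at hj
        omega
      rw [if_pos hjm, Nat.succ_sub hjm, pow_succ]
      ring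
    rw [Finset.sum_congr rfl e2, Finset.sum_congr rfl e3, if_pos rfl, if_neg (by omega), zero_mul,
      zero_mul, add_zero, add_zero, ← Finset.mul_sum, ← Finset.mul_sum, ← add_mul]

/-- the evaluations at distinct points are independent -/
theorem vand_indep {C : Type} [DecidableEq C] (v w : C → F) (d : ℕ) (A : Finset C)
    (hA : A.card ≤ d + 1) (hne : ∀ c ∈ A, v c ≠ 0 ∨ w c ≠ 0)
    (hpair : ∀ c ∈ A, ∀ c' ∈ A, c ≠ c' → v c * w c' ≠ v c' * w c) :
    LinearIndepOn F (fun c => fun j : Fin (d + 1) => v c ^ j.1 * w c ^ (d - j.1)) (A : Set C) := by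
  rw [linearIndepOn_finset_iff]
  intro r hr c0 hc0
  -- a form that vanishes at the other points
  obtain ⟨a, b, hab⟩ : ∃ a b : F, a * v c0 + b * w c0 ≠ 0 := by
    rcases hne c0 hc0 with h | h
    · exact ⟨1, 0, by simpa using h⟩
    · exact ⟨0, 1, by simpa using h⟩
  set l : List (F × F) := ((A.erase c0).toList.map fun c => (w c, -v c)) ++
    List.replicate (d + 1 - A.card) (a, b) with hl
  have hlen : l.length = d := by
    rw [hl, List.length_append, List.length_map, Finset.length_toList, List.length_replicate,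
      Finset.card_erase_of_mem hc0]
    have := Finset.card_pos.2 ⟨c0, hc0⟩
    omega
  obtain ⟨g, hg⟩ := prod_lin l
  rw [hlen] at hg
  set G : F → F → F := fun x y => (l.map fun p => p.1 * x + p.2 * y).prod with hG
  have hG1 : ∀ c ∈ A, c ≠ c0 → G (v c) (w c) = 0 := by
    intro c hc hcc
    rw [hG]
    refine List.prod_eq_zero ?_
    rw [List.mem_map]
    refine ⟨(w c, -v c), ?_, by ring⟩
    rw [hl, List.mem_append]
    left
    rw [List.mem_map]
    exact ⟨c, by simpa using ⟨hcc, hc⟩, rfl⟩
  have hG2 : G (v c0) (w c0) ≠ 0 := by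
    rw [hG]
    simp only
    rw [Ne, List.prod_eq_zero_iff, List.mem_map]
    rintro ⟨p, hp, hp0⟩
    rw [hl, List.mem_append] at hp
    rcases hp with hp | hp
    · rw [List.mem_map] at hp
      obtain ⟨c, hc, rfl⟩ := hp
      rw [Finset.mem_toList, Finset.mem_erase] at hc
      apply hpair c hc.2 c0 hc0 hc.1
      simp only at hp0
      linear_combination -hp0
    · rw [List.eq_of_mem_replicate hp] at hp0
      exact hab hp0
  have h1 : ∑ c ∈ A, r c * G (v c) (w c) = 0 := by
    have e1 : ∀ c ∈ A, r c * G (v c) (w c) =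
        ∑ j : Fin (d + 1), g j.1 * (r c * (v c ^ j.1 * w c ^ (d - j.1))) := by
      intro c _
      rw [hG]
      simp only
      rw [hg, Finset.sum_range (fun j => g j * (v c ^ j * w c ^ (d - j))), Finset.mul_sum]
      exact Finset.sum_congr rfl fun j _ => by ring
    rw [Finset.sum_congr rfl e1, Finset.sum_comm]
    refine Finset.sum_eq_zero fun j _ => ?_
    rw [← Finset.mul_sum]
    have e2 := congrFun hr j
    rw [Finset.sum_apply, Pi.zero_apply] at e2
    simp only [Pi.smul_apply, smul_eq_mul] at e2
    rw [e2, mul_zero]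
  rw [Finset.sum_eq_single c0] at h1
  · exact (mul_eq_zero.1 h1).resolve_right hG2
  · intro c hc hcc
    rw [hG1 c hc hcc, mul_zero]
  · intro h
    exact absurd hc0 h

end forms

section ranks

variable {F V W C : Type} [DecidableEq C] [Field F] [AddCommGroup V] [Module F V]
  [AddCommGroup W] [Module F W]
  [Module.Finite F V] [Module.Finite F W]

/-- the rank of the image of an independent family -/
theorem rk_ge (Φ : W →ₗ[F] V) (hΦ : Function.Surjective Φ) (e : C → W) (A : Finset C)
    (h : LinearIndepOn F e (A : Set C)) :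
    A.card + Module.finrank F V ≤ rk F (fun c => Φ (e c)) A + Module.finrank F W := by
  set p : Submodule F W := Submodule.span F (e '' A) with hp
  have h1 : Module.finrank F p = A.card := rk_indep e A h
  have h2 := LinearMap.finrank_range_add_finrank_ker (Φ.domRestrict p)
  have h3 : Module.finrank F (LinearMap.range (Φ.domRestrict p)) = rk F (fun c => Φ (e c)) A := by
    unfold rk
    have : LinearMap.range (Φ.domRestrict p) = Submodule.span F ((fun c => Φ (e c)) '' A) := by
      rw [LinearMap.range_domRestrict, hp, Submodule.map_span, Set.image_image]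
    rw [this]
  have h4 : Module.finrank F (LinearMap.ker (Φ.domRestrict p)) ≤
      Module.finrank F (LinearMap.ker Φ) := by
    refine LinearMap.finrank_le_finrank_of_injective
      (f := (p.subtype.restrict (p := LinearMap.ker (Φ.domRestrict p)) (q := LinearMap.ker Φ)
        (fun x hx => hx))) ?_
    intro x y hxy
    have := congrArg Subtype.val hxy
    exact Subtype.ext (Subtype.ext this)
  have h5 := LinearMap.finrank_range_add_finrank_ker Φ
  rw [LinearMap.range_eq_top.2 hΦ, finrank_top] at h5
  omega

end ranks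

/-- limits along an ultrafilter -/
theorem exists_lim {α : Type} (𝓕 : Ultrafilter α) (u : α → ℝ) (a b : ℝ)
    (h : ∀ᶠ t in 𝓕, a ≤ u t ∧ u t ≤ b) : ∃ l, Tendsto u 𝓕 (𝓝 l) := by
  obtain ⟨x, _, hx⟩ := (isCompact_Icc (a := a) (b := b)).ultrafilter_le_nhds (𝓕.map u) (by
    rw [Filter.le_principal_iff]
    exact h)
  exact ⟨x, hx⟩

end Pool.Agent.N750
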