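import Mathlib
import Pool.Agent.N750.Eng
import Pool.Agent.N750.Vand
import Pool.Agent.N750.Loc

/-!
The values of a moving binary form at slowly moving points.
-/

set_option autoImplicit false
set_option linter.unusedSectionVars false

open Finset Filter Topology

namespace Pool.Agent.N750

open NumberField IsDedekindDomain Height Module
open Pool.Agent.W180.OP (Pl av wt nrm le_nrm nrm_pos wt_nonneg exists_nrm nrm_nonneg)

variable {K : Type} [Field K] [NumberField K] {α : Type}

theorem wt_pos (p : Pl K) : 0 < wt p := by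
  rcases p with w | v
  · show (0 : ℝ) < (w.mult : ℝ)
    exact_mod_cast w.mult_pos
  · show (0 : ℝ) < 1
    exact one_pos

section filt

variable {𝓕 : Filter α} {H : α → ℝ}

theorem nrm_comb (hH : Tendsto H 𝓕 atTop) {m n : ℕ} (p : Pl K) (f : Fin m → α → K)
    (g : Fin n → α → K) (s : Fin m → Fin n → α → K) (hs : ∀ j i, Slow 𝓕 H (s j i))
    (hfg : ∀ j, ∀ᶠ t in 𝓕, f j t = ∑ i, s j i t * g i t)
    (hf : ∃ j, ∀ᶠ t in 𝓕, f j t ≠ 0) (ε : ℝ) (hε : 0 < ε) :
    ∀ᶠ t in 𝓕, wt p * Real.log (nrm (av p) (fun j => f j t)) ≤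
      wt p * Real.log (nrm (av p) (fun i => g i t)) + ε * H t := by
  obtain ⟨j0, hj0⟩ := hf
  have hm : 0 < m := j0.pos
  have h1 : ∀ᶠ t in 𝓕, ∀ j i, logHeight₁ (s j i t) ≤ ε / 2 * H t := by
    rw [Filter.eventually_all]
    intro j
    rw [Filter.eventually_all]
    intro i
    exact hs j i _ (by linarith)
  have h2 : ∀ᶠ t in 𝓕, ∀ j, f j t = ∑ i, s j i t * g i t := by
    rw [Filter.eventually_all]
    exact hfg
  filter_upwards [h1, h2, hj0, hH.eventually_ge_atTop ((wt p * Real.log (max 1 n)) / (ε / 2)),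
    hH.eventually_ge_atTop 0] with t h3 h4 h5 h6 h7
  have hw := wt_pos p
  rw [div_le_iff₀ (by linarith)] at h6
  have hg0 : (fun i => g i t) ≠ 0 := by
    intro h
    apply h5
    rw [h4 j0]
    refine Finset.sum_eq_zero fun i _ => ?_
    rw [show g i t = 0 from congrFun h i, mul_zero]
  set b : ℝ := ε / 2 * H t / wt p with hb
  have h8 : ∀ j i, av p (s j i t) ≤ Real.exp b := by
    intro j i
    have e1 := (local_le (s j i t) p).trans (h3 j i)
    have e2 : Real.log (max 1 (av p (s j i t))) ≤ b := by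
      rw [hb, le_div_iff₀ hw]
      linarith
    calc av p (s j i t) ≤ max 1 (av p (s j i t)) := le_max_right _ _
      _ = Real.exp (Real.log (max 1 (av p (s j i t)))) := (Real.exp_log (by positivity)).symm
      _ ≤ _ := Real.exp_le_exp.2 e2
  obtain ⟨j, hj⟩ := exists_nrm (av p) hm (fun j => f j t)
  have hgp := nrm_pos (av p) hg0
  have hfp : 0 < nrm (av p) (fun j => f j t) := nrm_pos _ fun h => h5 (congrFun h j0)
  have h9 : nrm (av p) (fun j => f j t) ≤ max 1 (n : ℝ) * (Real.exp b *
      nrm (av p) (fun i => g i t)) := by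
    rw [← hj, h4 j]
    refine (av_sum p Finset.univ (fun i => s j i t * g i t) (Real.exp b *
      nrm (av p) (fun i => g i t)) (by positivity) (fun i _ => ?_) (max 1 n) (by
      rw [Finset.card_univ, Fintype.card_fin]
      exact le_max_right _ _)).trans ?_
    · rw [map_mul]
      exact mul_le_mul (h8 j i) (le_nrm (av p) (fun i => g i t) i) ((av p).nonneg _)
        (Real.exp_pos _).le
    · refine mul_le_mul_of_nonneg_right ?_ (by positivity)
      rcases p with w | v
      · exact le_rfl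
      · exact le_max_left _ _
  have h10 := Real.log_le_log hfp h9
  rw [Real.log_mul (by positivity) (by positivity), Real.log_mul (by positivity) hgp.ne',
    Real.log_exp] at h10
  have h11 := mul_le_mul_of_nonneg_left h10 hw.le
  have h12 : wt p * b = ε / 2 * H t := by
    rw [hb]
    field_simp
  rw [mul_add, mul_add, h12] at h11
  linarith

end filt

variable {𝓕 : Ultrafilter α} {H : α → ℝ}

/-- slow representatives -/
theorem exists_rep (hH : Tendsto H 𝓕 atTop) (r : slowF 𝓕 K H hH) :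
    ∃ a : α → K, Slow 𝓕 H a ∧ mk 𝓕 a = (r : Gm 𝓕 K) := by
  obtain ⟨a, h1, h2⟩ := r.2
  exact ⟨a, h2, h1⟩

theorem mk_sum_mul {ι : Type} (s : Finset ι) (a b : ι → α → K) :
    mk 𝓕 (fun t => ∑ i ∈ s, a i t * b i t) = ∑ i ∈ s, mk 𝓕 (a i) * mk 𝓕 (b i) := by
  simp_rw [← map_mul]
  rw [← map_sum]
  congr 1
  funext t
  rw [Finset.sum_apply]
  rfl

/-- a basis among the members of a family -/
theorem exists_sub {F V : Type} [Field F] [AddCommGroup V] [Module F V] {m : ℕ} (f : Fin m → V) :
    ∃ (n : ℕ) (idx : Fin n → Fin m), n ≤ m ∧ LinearIndependent F (fun i => f (idx i)) ∧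
      (∀ j, f j ∈ Submodule.span F (Set.range fun i => f (idx i))) ∧
      n = Module.finrank F (Submodule.span F (Set.range f)) := by
  classical
  obtain ⟨b, -, hb1, hb2, hb3⟩ := exists_linearIndepOn_extension (linearIndepOn_empty F f)
    (Set.subset_univ ∅)
  have hbf : b.Finite := Set.toFinite b
  have : Fintype b := hbf.fintype
  let E : Fin (Fintype.card b) ≃ b := (Fintype.equivFin b).symm
  have hli : LinearIndependent F (fun i => f (E i).1) := by
    have h1 : LinearIndependent F (fun x : b => f x) := hb3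
    exact h1.comp _ E.injective
  have hr : (Set.range fun i => f (E i).1) = f '' b := by
    ext y
    constructor
    · rintro ⟨i, rfl⟩
      exact ⟨_, (E i).2, rfl⟩
    · rintro ⟨x, hx, rfl⟩
      exact ⟨E.symm ⟨x, hx⟩, by simp⟩
  have hmem : ∀ j, f j ∈ Submodule.span F (Set.range fun i => f (E i).1) := by
    intro j
    rw [hr]
    exact hb2 ⟨j, Set.mem_univ _, rfl⟩
  refine ⟨Fintype.card b, fun i => (E i).1, ?_, hli, hmem, ?_⟩
  · have := Fintype.card_le_of_injective (fun x : b => x.1) Subtype.val_injective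
    rwa [Fintype.card_fin] at this
  · have h1 := finrank_span_eq_card hli
    rw [Fintype.card_fin] at h1
    have h2 : Submodule.span F (Set.range fun i => f (E i).1) = Submodule.span F (Set.range f) := by
      refine le_antisymm ?_ ?_
      · rw [Submodule.span_le]
        rintro _ ⟨i, rfl⟩
        exact Submodule.subset_span ⟨_, rfl⟩
      · rw [Submodule.span_le]
        rintro _ ⟨j, rfl⟩
        exact hmem j
    rw [← h1, h2]

/-- the values of a binary form -/
noncomputable def bev {K : Type} [Field K] (d : ℕ) (f : Fin (d + 1) → K) (v w : K) : K :=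
  ∑ j, f j * (v ^ j.1 * w ^ (d - j.1))

section main

variable (hH : Tendsto H 𝓕 atTop)

/-- subspace estimate for independent families of values -/
theorem indep_bound {m : ℕ} (S : Finset (Pl K)) {C : Type} [DecidableEq C]
    (f : Fin m → α → K) (M : ℝ)
    (hM : ∀ᶠ t in 𝓕, logHeight (fun i => f i t) ≤ M * H t)
    (E : C → α → K)
    (hEmem : ∀ c, mk 𝓕 (E c) ∈ Submodule.span (slowF 𝓕 K H hH) (Set.range fun j => mk 𝓕 (f j)))
    (h2 : 2 ≤ Module.finrank (slowF 𝓕 K H hH) (Submodule.span (slowF 𝓕 K H hH)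
      (Set.range fun j => mk 𝓕 (f j))))
    (b : Pl K → Finset C)
    (hb : ∀ v ∈ S, LinearIndepOn (slowF 𝓕 K H hH) (fun c => mk 𝓕 (E c)) (b v : Set C))
    (ε : ℝ) (hε : 0 < ε) :
    ∀ᶠ t in 𝓕, ∑ v ∈ S, ∑ c ∈ b v, wt v * (Real.log (nrm (av v) (fun i => f i t)) -
      Real.log (av v (E c t))) ≤ Module.finrank (slowF 𝓕 K H hH)
      (Submodule.span (slowF 𝓕 K H hH) (Set.range fun j => mk 𝓕 (f j))) *
        logHeight (fun i => f i t) + ε * H t := by
  classical
  obtain ⟨n, idx, hnm, hli, hmem, hn⟩ := exists_sub (F := slowF 𝓕 K H hH) (fun j => mk 𝓕 (f j))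
  rw [← hn] at h2 ⊢
  set g : Fin n → α → K := fun i => f (idx i) with hg
  have hn0 : 0 < n := by omega
  -- coordinates
  have hspan : Submodule.span (slowF 𝓕 K H hH) (Set.range fun j => mk 𝓕 (f j)) ≤
      Submodule.span (slowF 𝓕 K H hH) (Set.range fun i => mk 𝓕 (g i)) := by
    rw [Submodule.span_le]
    rintro _ ⟨j, rfl⟩
    exact hmem j
  have hcoord : ∀ x : α → K, mk 𝓕 x ∈ Submodule.span (slowF 𝓕 K H hH)
      (Set.range fun j => mk 𝓕 (f j)) → ∃ l : Fin n → slowF 𝓕 K H hH,
      ∑ i, l i • mk 𝓕 (g i) = mk 𝓕 x := by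
    intro x hx
    exact (Submodule.mem_span_range_iff_exists_fun _).1 (hspan hx)
  choose l hl using fun c => hcoord (E c) (hEmem c)
  -- independence over slow functions
  have hgi : ∀ c : Fin n → α → K, (∀ i, Slow 𝓕 H (c i)) →
      (∀ᶠ t in 𝓕, ∑ i, c i t * g i t = 0) → ∀ i, ∀ᶠ t in 𝓕, c i t = 0 := by
    intro c hc hc0 i
    have e1 := Fintype.linearIndependent_iff.1 hli (fun i => (⟨mk 𝓕 (c i), ⟨c i, rfl, hc i⟩⟩ :
      slowF 𝓕 K H hH)) (by
        have e2 : mk 𝓕 (fun t => ∑ i, c i t * g i t) = 0 := mk_eq_zero.2 hc0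
        rw [mk_sum_mul] at e2
        exact e2) i
    have e3 := congrArg Subtype.val e1
    exact mk_eq_zero.1 e3
  -- the forms
  have hforms : ∀ v : Pl K, ∃ L : Fin n → Fin n → α → K, (∀ a i, Slow 𝓕 H (L a i)) ∧
      (v ∈ S → (∀ᶠ t in 𝓕, (Matrix.of fun a i => L a i t).det ≠ 0) ∧
        ∃ e : C → Fin n, Set.InjOn e (b v) ∧
        (∀ c ∈ b v, ∀ᶠ t in 𝓕, ∑ i, L (e c) i t * g i t = E c t) ∧
        ∀ a, a ∉ e '' (b v) → ∃ j, ∀ᶠ t in 𝓕, ∑ i, L a i t * g i t = g j t) := by
    intro v
    by_cases hv : v ∈ S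
    · have hlv : LinearIndependent (slowF 𝓕 K H hH) (fun c : b v => l c) := by
        have e1 : LinearIndependent (slowF 𝓕 K H hH) (fun c : b v => mk 𝓕 (E c)) := hb v hv
        let Ψ : (Fin n → slowF 𝓕 K H hH) →ₗ[slowF 𝓕 K H hH] Gm 𝓕 K :=
          Fintype.linearCombination (slowF 𝓕 K H hH) (fun i => mk 𝓕 (g i))
        refine LinearIndependent.of_comp Ψ ?_
        convert e1 using 1
        funext c
        show ∑ i, l c i • mk 𝓕 (g i) = _
        exact hl c
      obtain ⟨Bm, e, he1, he2, he3, he4⟩ := exists_completion (fun c : b v => l c) hlv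
      choose L hL1 hL2 using fun a i => exists_rep hH (Bm a i)
      refine ⟨L, hL1, fun _ => ⟨?_, fun c => if h : c ∈ b v then e ⟨c, h⟩ else ⟨0, hn0⟩, ?_, ?_, ?_⟩⟩
      · rw [← mk_ne_zero, ← det_mk]
        intro h0
        apply he4
        have e2 := RingHom.map_det (slowF 𝓕 K H hH).subtype (Matrix.of Bm)
        have e3 : (slowF 𝓕 K H hH).subtype.mapMatrix (Matrix.of Bm) =
            Matrix.of fun a i => mk 𝓕 (L a i) := by
          ext a i
          exact (hL2 a i).symm
        rw [e3, h0] at e2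
        exact (map_eq_zero _).1 e2
      · intro c hc c' hc' h
        have hc1 : c ∈ b v := hc
        have hc1' : c' ∈ b v := hc'
        simp only [hc1, hc1', dif_pos] at h
        have := he1 h
        exact congrArg Subtype.val this
      · intro c hc
        show ∀ᶠ t in 𝓕, ∑ i, L (if h : c ∈ b v then e ⟨c, h⟩ else ⟨0, hn0⟩) i t * g i t = E c t
        rw [dif_pos hc, ← mk_eq, mk_sum_mul, ← hl c]
        refine Finset.sum_congr rfl fun i _ => ?_
        rw [hL2, he2]
        rfl
      · intro a ha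
        obtain ⟨j, hj⟩ := he3 a (by
          rintro ⟨c, hc⟩
          apply ha
          refine ⟨c.1, c.2, ?_⟩
          simp only [c.2, dif_pos]
          exact hc)
        refine ⟨j, ?_⟩
        rw [← mk_eq, mk_sum_mul, Finset.sum_eq_single j]
        · rw [hL2, hj, Pi.single_eq_same]
          show (1 : Gm 𝓕 K) * _ = _
          rw [one_mul]
        · intro i _ hi
          rw [hL2, hj, Pi.single_eq_of_ne hi]
          show (0 : Gm 𝓕 K) * _ = _
          rw [zero_mul]
        · intro h
          exact absurd (Finset.mem_univ _) h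
    · exact ⟨fun _ _ _ => 0, fun _ _ => slow_const hH 0, fun h => absurd h hv⟩
  choose L hL1 hL2 using hforms
  have hcomp : ∀ t, logHeight (fun i => g i t) ≤ logHeight (fun j => f j t) := fun t =>
    logHeight_comp_le idx (fun j => f j t)
  have hgM : ∀ᶠ t in 𝓕, logHeight (fun i => g i t) ≤ M * H t := by
    filter_upwards [hM] with t ht
    exact (hcomp t).trans ht
  have key := moving hH h2 S g M hgM hgi L hL1 (fun v hv => (hL2 v hv).1) (ε / 2) (by linarith)
  -- comparison of the norms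
  have hgne : ∀ i, ∀ᶠ t in 𝓕, g i t ≠ 0 := by
    intro i
    rw [← mk_ne_zero]
    exact hli.ne_zero i
  have hcomb : ∀ j, ∃ s : Fin n → α → K, (∀ i, Slow 𝓕 H (s i)) ∧
      ∀ᶠ t in 𝓕, f j t = ∑ i, s i t * g i t := by
    intro j
    obtain ⟨s, hs⟩ := hcoord (f j) (Submodule.subset_span ⟨j, rfl⟩)
    choose s' hs1 hs2 using fun i => exists_rep hH (s i)
    refine ⟨s', hs1, ?_⟩
    rw [← mk_eq, mk_sum_mul, ← hs]
    exact Finset.sum_congr rfl fun i _ => by rw [hs2]; rfl
  choose s hs1 hs2 using hcomb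
  set κ : ℝ := ∑ v ∈ S, ((b v).card : ℝ) + 1 with hκ
  have hκ1 : 0 ≤ ∑ v ∈ S, ((b v).card : ℝ) := Finset.sum_nonneg fun v _ => Nat.cast_nonneg _
  have hκ0 : 0 < κ := by linarith
  have hcmp : ∀ᶠ t in 𝓕, ∀ v ∈ S, wt v * Real.log (nrm (av v) (fun j => f j t)) ≤
      wt v * Real.log (nrm (av v) (fun i => g i t)) + ε / 2 / κ * H t := by
    rw [Filter.eventually_all_finset]
    intro v _
    exact nrm_comb hH v f g s hs1 hs2 ⟨idx ⟨0, hn0⟩, hgne ⟨0, hn0⟩⟩ _
      (div_pos (half_pos hε) hκ0)
  have hval : ∀ᶠ t in 𝓕, ∀ v ∈ S, ∑ c ∈ b v, (Real.log (nrm (av v) (fun i => g i t)) -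
      Real.log (av v (E c t))) ≤ ∑ a, (Real.log (nrm (av v) (fun i => g i t)) -
      Real.log (av v (∑ i, L v a i t * g i t))) := by
    rw [Filter.eventually_all_finset]
    intro v hv
    obtain ⟨-, e, he1, he2, he3⟩ := hL2 v hv
    have h3 : ∀ᶠ t in 𝓕, ∀ c ∈ b v, ∑ i, L v (e c) i t * g i t = E c t := by
      rw [Filter.eventually_all_finset]
      exact he2
    have h4 : ∀ᶠ t in 𝓕, ∀ a, a ∉ e '' (b v) → ∃ j, ∑ i, L v a i t * g i t = g j t := by
      rw [Filter.eventually_all]
      intro a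
      by_cases ha : a ∈ e '' (b v)
      · exact Eventually.of_forall fun t h => absurd ha h
      · obtain ⟨j, hj⟩ := he3 a ha
        filter_upwards [hj] with t ht _
        exact ⟨j, ht⟩
    have h5 : ∀ᶠ t in 𝓕, ∀ i, g i t ≠ 0 := by
      rw [Filter.eventually_all]
      exact hgne
    filter_upwards [h3, h4, h5] with t t3 t4 t5
    have e1 : ∑ c ∈ b v, (Real.log (nrm (av v) (fun i => g i t)) -
        Real.log (av v (E c t))) = ∑ a ∈ (b v).image e,
        (Real.log (nrm (av v) (fun i => g i t)) -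
          Real.log (av v (∑ i, L v a i t * g i t))) := by
      rw [Finset.sum_image he1]
      exact Finset.sum_congr rfl fun c hc => by rw [t3 c hc]
    rw [e1]
    refine Finset.sum_le_sum_of_subset_of_nonneg (Finset.subset_univ _) fun a _ ha => ?_
    obtain ⟨j, hj⟩ := t4 a (by
      intro h
      apply ha
      rw [Finset.mem_image]
      obtain ⟨c, hc, hca⟩ := h
      exact ⟨c, hc, hca⟩)
    rw [hj, sub_nonneg]
    exact Real.log_le_log ((av v).pos_iff.2 (t5 j)) (le_nrm (av v) (fun i => g i t) j)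
  filter_upwards [key, hcmp, hval, hH.eventually_ge_atTop 0] with t h3 h4 h5 h6
  have h7 : ∀ v ∈ S, ∑ c ∈ b v, wt v * (Real.log (nrm (av v) (fun i => f i t)) -
      Real.log (av v (E c t))) ≤ wt v * ∑ a, (Real.log (nrm (av v) (fun i => g i t)) -
      Real.log (av v (∑ i, L v a i t * g i t))) + (b v).card * (ε / 2 / κ * H t) := by
    intro v hv
    have e1 : ∀ c ∈ b v, wt v * (Real.log (nrm (av v) (fun i => f i t)) -
      Real.log (av v (E c t))) ≤ wt v * (Real.log (nrm (av v) (fun i => g i t)) -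
      Real.log (av v (E c t))) + ε / 2 / κ * H t := by
      intro c _
      rw [mul_sub, mul_sub]
      have := h4 v hv
      linarith
    have e2 := Finset.sum_le_sum e1
    rw [Finset.sum_add_distrib, Finset.sum_const, nsmul_eq_mul] at e2
    have e3 := mul_le_mul_of_nonneg_left (h5 v hv) (wt_nonneg v)
    rw [Finset.mul_sum] at e3
    linarith
  have h8 := Finset.sum_le_sum h7
  rw [Finset.sum_add_distrib, ← Finset.sum_mul] at h8
  have h9 : (∑ v ∈ S, ((b v).card : ℝ)) * (ε / 2 / κ * H t) ≤ ε / 2 * H t := by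
    have e1 : (∑ v ∈ S, ((b v).card : ℝ)) * (ε / 2 / κ * H t) =
        ((∑ v ∈ S, ((b v).card : ℝ)) / κ) * (ε / 2 * H t) := by ring
    rw [e1]
    have e2 : (∑ v ∈ S, ((b v).card : ℝ)) / κ ≤ 1 := by
      rw [div_le_one hκ0, hκ]
      linarith
    calc _ ≤ 1 * (ε / 2 * H t) :=
          mul_le_mul_of_nonneg_right e2 (mul_nonneg (half_pos hε).le h6)
      _ = _ := one_mul _
  have h10 := mul_le_mul_of_nonneg_left (hcomp t) (Nat.cast_nonneg (α := ℝ) n)
  linarith

include hH in
/-- the trivial estimate for one point -/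
theorem wir_one (d : ℕ) (S : Finset (Pl K)) (v w : α → K) (hv : Slow 𝓕 H v) (hw : Slow 𝓕 H w)
    (f : Fin (d + 1) → α → K)
    (hE : ∀ᶠ t in 𝓕, bev d (fun j => f j t) (v t) (w t) ≠ 0)
    (hf : ∀ ε : ℝ, 0 < ε → ∀ᶠ t in 𝓕, logHeight (fun j => f j t) ≤ (1 + ε) * H t)
    (ε : ℝ) (hε : 0 < ε) :
    ∀ᶠ t in 𝓕, ∑ p ∈ S, wt p * (Real.log (nrm (av p) (fun j => f j t)) -
      Real.log (av p (bev d (fun j => f j t) (v t) (w t)))) ≤ (1 + ε) * H t := by
  have h1 := triv hH S f (fun j : Fin (d + 1) => fun t => v t ^ j.1 * w t ^ (d - j.1))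
    (fun j => (hv.pow hH _).mul (hw.pow hH _)) hE (ε / 2) (by linarith)
  filter_upwards [h1, hf (ε / 2) (by linarith)] with t h2 h3
  unfold bev
  linarith

include hH in
theorem wir_low (d : ℕ) (v w : α → K) (hv : Slow 𝓕 H v) (hw : Slow 𝓕 H w)
    (f : Fin (d + 1) → α → K)
    (hE : ∀ᶠ t in 𝓕, bev d (fun j => f j t) (v t) (w t) ≠ 0) (p : Pl K) (ε : ℝ) (hε : 0 < ε) :
    ∀ᶠ t in 𝓕, -(ε * H t) ≤ wt p * (Real.log (nrm (av p) (fun j => f j t)) -
      Real.log (av p (bev d (fun j => f j t) (v t) (w t)))) := by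
  have h1 := nrm_comb hH p (fun _ : Fin 1 => fun t => bev d (fun j => f j t) (v t) (w t)) f
    (fun _ j => fun t => v t ^ j.1 * w t ^ (d - j.1))
    (fun _ j => (hv.pow hH _).mul (hw.pow hH _)) (fun _ => Eventually.of_forall fun t => by
      unfold bev
      exact Finset.sum_congr rfl fun j _ => mul_comm _ _) ⟨0, hE⟩ ε hε
  filter_upwards [h1] with t h2
  have h3 : nrm (av p) (fun _ : Fin 1 => bev d (fun j => f j t) (v t) (w t)) =
      av p (bev d (fun j => f j t) (v t) (w t)) := by
    unfold nrm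
    exact ciSup_const
  rw [h3] at h2
  rw [mul_sub]
  linarith

include hH in
/-- **The values of a moving binary form at slowly moving points.** -/
theorem mov_wirsing (d : ℕ) (S : Finset (Pl K)) {C : Type} [Fintype C] [DecidableEq C]
    (v w : C → α → K) (hv : ∀ c, Slow 𝓕 H (v c)) (hw : ∀ c, Slow 𝓕 H (w c))
    (hne : ∀ c, ∀ᶠ t in 𝓕, v c t ≠ 0 ∨ w c t ≠ 0)
    (hpair : ∀ c c', c ≠ c' → ∀ᶠ t in 𝓕, v c t * w c' t ≠ v c' t * w c t)
    (f : Fin (d + 1) → α → K)
    (hE : ∀ c, ∀ᶠ t in 𝓕, bev d (fun j => f j t) (v c t) (w c t) ≠ 0)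
    (hf : ∀ ε : ℝ, 0 < ε → ∀ᶠ t in 𝓕, logHeight (fun j => f j t) ≤ (1 + ε) * H t)
    (ε : ℝ) (hε : 0 < ε) :
    ∀ᶠ t in 𝓕, ∑ p ∈ S, ∑ c, wt p * (Real.log (nrm (av p) (fun j => f j t)) -
      Real.log (av p (bev d (fun j => f j t) (v c t) (w c t)))) ≤ (2 * d + ε) * H t := by
  classical
  rcases isEmpty_or_nonempty C with hC | ⟨⟨c₀⟩⟩
  · filter_upwards [hH.eventually_ge_atTop 0] with t ht
    simp only [Finset.univ_eq_empty, Finset.sum_empty, Finset.sum_const_zero]
    positivity
  set E : C → α → K := fun c t => bev d (fun j => f j t) (v c t) (w c t) with hEdef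
  set u : Pl K → C → α → ℝ := fun p c t => wt p * (Real.log (nrm (av p) (fun j => f j t)) -
      Real.log (av p (E c t))) / H t with hu
  have hH0 : ∀ᶠ t in 𝓕, 0 < H t := hH.eventually_gt_atTop 0
  have hlow : ∀ p c (η : ℝ), 0 < η → ∀ᶠ t in 𝓕, -η ≤ u p c t := by
    intro p c η hη
    filter_upwards [wir_low hH d (v c) (w c) (hv c) (hw c) f (hE c) p η hη, hH0] with t h1 h2
    rw [hu]
    simp only
    rw [le_div_iff₀ h2]
    linarith
  have hup : ∀ p c (η : ℝ), 0 < η → ∀ᶠ t in 𝓕, u p c t ≤ 1 + η := by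
    intro p c η hη
    filter_upwards [wir_one hH d {p} (v c) (w c) (hv c) (hw c) f (hE c) hf η hη, hH0] with t h1 h2
    rw [Finset.sum_singleton] at h1
    rw [hu]
    simp only
    rw [div_le_iff₀ h2]
    exact h1
  choose Λ hΛ using fun p c => exists_lim 𝓕 (u p c) (-1) 2 (by
    filter_upwards [hlow p c 1 one_pos, hup p c 1 one_pos] with t h1 h2
    exact ⟨h1, by linarith⟩)
  have hΛ0 : ∀ p c, 0 ≤ Λ p c := by
    intro p c
    refine le_of_forall_pos_le_add fun η hη => ?_
    have := ge_of_tendsto (hΛ p c) (hlow p c η hη)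
    linarith
  have hT : ∀ c, ∑ p ∈ S, 1 * Λ p c ≤ 1 := by
    intro c
    refine le_of_forall_pos_le_add fun η hη => ?_
    have h1 : Tendsto (fun t => ∑ p ∈ S, 1 * u p c t) 𝓕 (𝓝 (∑ p ∈ S, 1 * Λ p c)) :=
      tendsto_finsetSum _ fun p _ => (hΛ p c).const_mul 1
    refine le_of_tendsto h1 ?_
    filter_upwards [wir_one hH d S (v c) (w c) (hv c) (hw c) f (hE c) hf η hη, hH0] with t h2 h3
    simp_rw [one_mul, hu]
    rw [← Finset.sum_div, div_le_iff₀ h3]
    exact h2
  -- the space
  set R := slowF 𝓕 K H hH with hR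
  let vR : C → R := fun c => ⟨mk 𝓕 (v c), v c, rfl, hv c⟩
  let wR : C → R := fun c => ⟨mk 𝓕 (w c), w c, rfl, hw c⟩
  let e : C → Fin (d + 1) → R := fun c j => vR c ^ j.1 * wR c ^ (d - j.1)
  let lc : (Fin (d + 1) → R) →ₗ[R] Gm 𝓕 K := Fintype.linearCombination R (fun j => mk 𝓕 (f j))
  let V := LinearMap.range lc
  have hVspan : V = Submodule.span R (Set.range fun j => mk 𝓕 (f j)) :=
    Fintype.range_linearCombination R _
  let Φ : (Fin (d + 1) → R) →ₗ[R] V := lc.rangeRestrict
  have hΦ : Function.Surjective Φ := LinearMap.surjective_rangeRestrict lc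
  let B : C → V := fun c => Φ (e c)
  have hB : ∀ c, ((B c : V) : Gm 𝓕 K) = mk 𝓕 (E c) := by
    intro c
    show ∑ j, e c j • mk 𝓕 (f j) = _
    rw [hEdef]
    unfold bev
    rw [mk_sum_mul]
    refine Finset.sum_congr rfl fun j _ => ?_
    show (mk 𝓕 (v c) ^ j.1 * mk 𝓕 (w c) ^ (d - j.1)) * mk 𝓕 (f j) =
      mk 𝓕 (f j) * mk 𝓕 (fun t => v c t ^ j.1 * w c t ^ (d - j.1))
    rw [← map_pow, ← map_pow, ← map_mul, mul_comm]
    rfl
  have hB0 : ∀ c, B c ≠ 0 := by
    intro c h
    have h1 := congrArg Subtype.val h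
    rw [hB] at h1
    exact mk_ne_zero.2 (hE c) h1
  have hV0 : 0 < Module.finrank R V := by
    have : Nontrivial V := ⟨B c₀, 0, hB0 c₀⟩
    exact Module.finrank_pos
  obtain ⟨r, hr⟩ : ∃ r, Module.finrank R V = r + 1 := ⟨Module.finrank R V - 1, by omega⟩
  have hrd : r ≤ d := by
    have h1 := LinearMap.finrank_range_le lc
    rw [Module.finrank_fin_fun] at h1
    have h2 : Module.finrank R (LinearMap.range lc) = r + 1 := hr
    omega
  have hRp : ∀ c c', c ≠ c' → vR c * wR c' ≠ vR c' * wR c := by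
    intro c c' hcc h
    have h1 := congrArg Subtype.val h
    have h2 : mk 𝓕 (fun t => v c t * w c' t) = mk 𝓕 (fun t => v c' t * w c t) := by
      have e1 : mk 𝓕 (v c) * mk 𝓕 (w c') = mk 𝓕 (v c') * mk 𝓕 (w c) := h1
      rw [← map_mul, ← map_mul] at e1
      exact e1
    rw [mk_eq] at h2
    obtain ⟨t, h3, h4⟩ := ((hpair c c' hcc).and h2).exists
    exact h3 h4
  have hRn : ∀ c, vR c ≠ 0 ∨ wR c ≠ 0 := by
    intro c
    by_contra hcon
    push Not at hcon
    have h1 : mk 𝓕 (v c) = 0 := congrArg Subtype.val hcon.1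
    have h2 : mk 𝓕 (w c) = 0 := congrArg Subtype.val hcon.2
    rw [mk_eq_zero] at h1 h2
    obtain ⟨t, h3, h4, h5⟩ := ((hne c).and (h1.and h2)).exists
    rcases h3 with h3 | h3
    · exact h3 h4
    · exact h3 h5
  have hNd : ∀ A : Finset C, A.card ≤ d + 1 → A.card + (r + 1) ≤ rk R B A + (d + 1) := by
    intro A hA
    have h1 := vand_indep vR wR d A hA (fun c _ => hRn c) (fun c _ c' _ hcc => hRp c c' hcc)
    have h2 := rk_ge Φ hΦ e A h1
    rw [hr, Module.finrank_fin_fun] at h2
    exact h2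
  have hN : ∀ A, rk R B A ≤ r → A.card ≤ (d - r) + rk R B A := by
    intro A hA
    by_cases hAd : A.card ≤ d + 1
    · have := hNd A hAd
      omega
    · exfalso
      push Not at hAd
      obtain ⟨A', hA'1, hA'2⟩ := Finset.exists_subset_card_eq hAd.le
      have h1 := hNd A' hA'2.le
      have h2 := rk_mono (F := R) B A' A hA'1
      omega
  -- the support condition
  have hsupp : ∀ p ∈ S, ∀ A : Finset C, (∀ c ∈ A, 0 < Λ p c) → rk R B A ≤ r := by
    intro p _ A hA
    by_contra hcon
    push Not at hcon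
    have hspanA : Submodule.span R (B '' A) = ⊤ := by
      apply Submodule.eq_top_of_finrank_eq
      have h1 : Module.finrank R (Submodule.span R (B '' A)) ≤ Module.finrank R V :=
        Submodule.finrank_le _
      have h2 : r < Module.finrank R (Submodule.span R (B '' A)) := hcon
      omega
    have hAne : A.Nonempty := by
      rw [Finset.nonempty_iff_ne_empty]
      rintro rfl
      have := rk_empty (F := R) B
      omega
    let g : Fin A.card → α → K := fun i => E (A.equivFin.symm i).1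
    have hfg : ∀ j, ∃ s : Fin A.card → α → K, (∀ i, Slow 𝓕 H (s i)) ∧
        ∀ᶠ t in 𝓕, f j t = ∑ i, s i t * g i t := by
      intro j
      have h1 : mk 𝓕 (f j) ∈ V := by
        rw [hVspan]
        exact Submodule.subset_span ⟨j, rfl⟩
      have h2 : (⟨mk 𝓕 (f j), h1⟩ : V) ∈ Submodule.span R
          (Set.range fun i : Fin A.card => B (A.equivFin.symm i).1) := by
        have h3 : (Set.range fun i : Fin A.card => B (A.equivFin.symm i).1) = B '' A := by
          ext y
          constructor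
          · rintro ⟨i, rfl⟩
            exact ⟨_, (A.equivFin.symm i).2, rfl⟩
          · rintro ⟨x, hx, rfl⟩
            exact ⟨A.equivFin ⟨x, hx⟩, by simp⟩
        rw [h3, hspanA]
        exact Submodule.mem_top
      obtain ⟨s, hs⟩ := (Submodule.mem_span_range_iff_exists_fun _).1 h2
      choose s' hs1 hs2 using fun i => exists_rep hH (s i)
      refine ⟨s', hs1, ?_⟩
      rw [← mk_eq, mk_sum_mul]
      have h4 : ∑ i, ((s i • B (A.equivFin.symm i).1 : V) : Gm 𝓕 K) = mk 𝓕 (f j) := by
        rw [← AddSubmonoidClass.coe_finsetSum, hs]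
      rw [← h4]
      refine Finset.sum_congr rfl fun i _ => ?_
      rw [hs2, ← hB]
      rfl
    choose s hs1 hs2 using hfg
    have hf0 : ∃ j, ∀ᶠ t in 𝓕, f j t ≠ 0 := by
      by_contra hcon2
      have h1 : ∀ j, ∀ᶠ t in 𝓕, f j t = 0 := by
        intro j
        by_contra h2
        exact hcon2 ⟨j, not_ev_zero h2⟩
      have h3 : ∀ᶠ t in 𝓕, ∀ j, f j t = 0 := by
        rw [Filter.eventually_all]
        exact h1
      obtain ⟨t, h4, h5⟩ := (h3.and (hE c₀)).exists
      apply h5
      unfold bev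
      refine Finset.sum_eq_zero fun j _ => ?_
      show f j t * _ = 0
      rw [h4 j, zero_mul]
    obtain ⟨cm, hcm, hmin⟩ := A.exists_min_image (fun c => Λ p c) hAne
    have hpos := hA cm hcm
    have h5 := nrm_comb hH p f g s hs1 hs2 hf0 (Λ p cm / 4) (by linarith)
    have h6 : ∀ᶠ t in 𝓕, ∀ c ∈ A, Λ p cm / 2 < u p c t := by
      rw [Filter.eventually_all_finset]
      intro c hc
      exact (hΛ p c).eventually_const_lt (by have := hmin c hc; linarith)
    obtain ⟨t, h7, h8, h9⟩ := (h5.and (h6.and hH0)).exists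
    obtain ⟨i, hi⟩ := exists_nrm (av p) (Finset.card_pos.2 hAne) (fun i => g i t)
    have h10 := h8 _ (A.equivFin.symm i).2
    rw [hu] at h10
    simp only at h10
    rw [lt_div_iff₀ h9] at h10
    rw [← hi] at h7
    have h11 : 0 < Λ p cm * H t := mul_pos hpos h9
    rw [mul_sub] at h10
    have h12 : wt p * Real.log (av p (g i t)) = wt p * Real.log (av p (E (A.equivFin.symm i).1 t)) :=
      rfl
    linarith
  -- the estimate for independent families
  have hfin : ∑ p ∈ S, ∑ c, Λ p c ≤ 2 * d := by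
    rcases Nat.eq_zero_or_pos r with hr0 | hrpos
    · have h1 : ∀ p ∈ S, ∀ c, Λ p c = 0 := by
        intro p hp c
        by_contra hcon
        have h2 : 0 < Λ p c := lt_of_le_of_ne (hΛ0 p c) (Ne.symm hcon)
        have h3 := hsupp p hp {c} (by
          intro c' hc'
          rw [Finset.mem_singleton] at hc'
          rwa [hc'])
        have h4 := rk_indep (F := R) B {c} (by
          rw [Finset.coe_singleton]
          exact LinearIndepOn.singleton (hB0 c))
        rw [Finset.card_singleton] at h4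
        omega
      rw [Finset.sum_eq_zero fun p hp => Finset.sum_eq_zero fun c _ => h1 p hp c]
      positivity
    · have h1 := wirs (F := R) B r (d - r) hr.le hN S (fun _ => 1) (fun _ _ => zero_le_one) Λ
        (fun p _ c => hΛ0 p c) hsupp hT (by
          intro b hb
          simp_rw [one_mul]
          refine le_of_forall_pos_le_add fun η hη => ?_
          have h1 : Tendsto (fun t => ∑ p ∈ S, ∑ c ∈ b p, u p c t) 𝓕
              (𝓝 (∑ p ∈ S, ∑ c ∈ b p, Λ p c)) :=
            tendsto_finsetSum _ fun p _ => tendsto_finsetSum _ fun c _ => hΛ p c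
          refine le_of_tendsto h1 ?_
          have hfr : Module.finrank R (Submodule.span R (Set.range fun j => mk 𝓕 (f j))) = r + 1 := by
            rw [← hVspan]
            exact hr
          have h2 := indep_bound hH S f 2 (by
              filter_upwards [hf 1 one_pos] with t ht
              linarith) E (by
              intro c
              rw [← hR, ← hVspan, ← hB c]
              exact (B c).2) (by
              rw [← hR, hfr]
              omega) b (by
              intro p hp
              have h3 : LinearIndependent R (fun c : b p => B c) := hb p hp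
              have h4 := h3.map' V.subtype (Submodule.ker_subtype _)
              have h5 : (fun c : b p => mk 𝓕 (E c)) = V.subtype ∘ (fun c : b p => B c) := by
                funext c
                exact (hB c).symm
              show LinearIndependent R (fun c : b p => mk 𝓕 (E c))
              rw [h5]
              exact h4) (η / 2) (by linarith)
          rw [← hR, hfr] at h2
          filter_upwards [h2, hH0, hf (η / 2 / (r + 1)) (by positivity)] with t h3 h4 h5
          have h6 : ∑ p ∈ S, ∑ c ∈ b p, u p c t = (∑ p ∈ S, ∑ c ∈ b p, wt p *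
              (Real.log (nrm (av p) (fun i => f i t)) - Real.log (av p (E c t)))) / H t := by
            rw [hu]
            simp_rw [Finset.sum_div]
          rw [h6, div_le_iff₀ h4]
          refine h3.trans ?_
          have h7 := mul_le_mul_of_nonneg_left h5 (show (0 : ℝ) ≤ ((r + 1 : ℕ) : ℝ) by positivity)
          have h8 : ((r + 1 : ℕ) : ℝ) * ((1 + η / 2 / (r + 1)) * H t) =
              ((r : ℝ) + 1) * H t + η / 2 * H t := by
            push_cast
            field_simp
          rw [h8] at h7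
          linarith)
      simp_rw [one_mul] at h1
      refine h1.trans ?_
      have h2 : (((d - r : ℕ) : ℝ)) = d - r := by
        rw [Nat.cast_sub hrd]
      rw [h2]
      have h3 : (1 : ℝ) ≤ r := by exact_mod_cast hrpos
      linarith
  have h1 : Tendsto (fun t => ∑ p ∈ S, ∑ c, u p c t) 𝓕 (𝓝 (∑ p ∈ S, ∑ c, Λ p c)) :=
    tendsto_finsetSum _ fun p _ => tendsto_finsetSum _ fun c _ => hΛ p c
  have h2 := h1.eventually_lt_const (show ∑ p ∈ S, ∑ c, Λ p c < 2 * d + ε by linarith)
  filter_upwards [h2, hH0] with t h3 h4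
  have h6 : ∑ p ∈ S, ∑ c, u p c t = (∑ p ∈ S, ∑ c, wt p *
      (Real.log (nrm (av p) (fun i => f i t)) - Real.log (av p (E c t)))) / H t := by
    rw [hu]
    simp_rw [Finset.sum_div]
  rw [h6, div_lt_iff₀ h4] at h3
  exact h3.le

end main

end Pool.Agent.N750
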