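import Mathlib
import Pool.Agent.N750.Abv
import Pool.Agent.N750.Wir

/-!
Embeddings in a large field and the norm form.
-/

set_option autoImplicit false
set_option linter.unusedSectionVars false

open Finset Filter Topology

namespace Pool.Agent.N750

open NumberField IsDedekindDomain Height Module
open Pool.Agent.W180.OP (Pl av wt nrm le_nrm nrm_pos wt_nonneg exists_nrm nrm_nonneg)

variable {k L M : Type} [Field k] [NumberField k] [Field L] [NumberField L] [Algebra k L]
  [Field M] [NumberField M] [Algebra k M]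

/-- `Ω` contains all conjugates of the elements of `L` -/
def Full (k L Ω : Type) [Field k] [NumberField k] [Field L] [NumberField L] [Algebra k L]
    [Field Ω] [Algebra k Ω] : Prop :=
  Fintype.card (L →ₐ[k] Ω) = finrank k L ∧
    ∀ z : L, algebraMap k Ω (Algebra.norm k z) = ∏ σ : L →ₐ[k] Ω, σ z

theorem full_closed (k L Ω : Type) [Field k] [NumberField k] [Field L] [NumberField L]
    [Algebra k L] [Field Ω] [Algebra k Ω] [IsAlgClosed Ω] : Full k L Ω :=
  ⟨AlgHom.card k L Ω, fun z => Algebra.norm_eq_prod_embeddings (K := k) Ω z⟩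

theorem full_gal (k L M : Type) [Field k] [NumberField k] [Field L] [NumberField L]
    [Algebra k L] [Field M] [Algebra k M] [Normal k M] (h : Nonempty (L →ₐ[k] M)) :
    Full k L M := by
  classical
  obtain ⟨φ⟩ := h
  have hc : Fintype.card (L →ₐ[k] M) = finrank k L := by
    refine AlgHom.card_of_splits k L M fun x => ?_
    rw [← minpoly.algHom_eq φ φ.injective x]
    exact Normal.splits inferInstance (φ x)
  refine ⟨hc, fun z => ?_⟩
  let ι : M →ₐ[k] AlgebraicClosure M := IsScalarTower.toAlgHom k M (AlgebraicClosure M)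
  have h1 : Function.Injective (fun σ : L →ₐ[k] M => ι.comp σ) := by
    intro σ τ h
    ext x
    apply ι.injective
    exact congrArg (fun f : L →ₐ[k] AlgebraicClosure M => f x) h
  have h2 : Function.Bijective (fun σ : L →ₐ[k] M => ι.comp σ) := by
    rw [Fintype.bijective_iff_injective_and_card]
    exact ⟨h1, by rw [hc, AlgHom.card]⟩
  apply ι.injective
  have h3 := Algebra.norm_eq_prod_embeddings (K := k) (AlgebraicClosure M) z
  show ι (algebraMap k M (Algebra.norm k z)) = ι (∏ σ : L →ₐ[k] M, σ z)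
  rw [ι.commutes, h3, map_prod]
  exact (Fintype.prod_bijective _ h2 _ _ fun σ => rfl).symm

theorem vand_unique {F : Type} [Field F] [CharZero F] (d : ℕ) (e e' : Fin (d + 1) → F)
    (h : ∀ m : Fin (d + 1), ∑ j, e j * (m : F) ^ j.1 = ∑ j, e' j * (m : F) ^ j.1) : e = e' := by
  classical
  have hdet : (Matrix.vandermonde fun m : Fin (d + 1) => (m : F)).det ≠ 0 := by
    rw [Matrix.det_vandermonde_ne_zero_iff]
    intro a b hab
    have : ((a.1 : ℕ) : F) = ((b.1 : ℕ) : F) := hab
    exact Fin.ext (Nat.cast_injective this)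
  have h1 : (Matrix.vandermonde fun m : Fin (d + 1) => (m : F)).mulVec (e - e') = 0 := by
    funext m
    rw [Matrix.mulVec, dotProduct, Pi.zero_apply]
    have h2 := h m
    have h3 : ∑ j, (Matrix.vandermonde fun m : Fin (d + 1) => (m : F)) m j * (e - e') j =
        ∑ j, e j * (m : F) ^ j.1 - ∑ j, e' j * (m : F) ^ j.1 := by
      rw [← Finset.sum_sub_distrib]
      refine Finset.sum_congr rfl fun j _ => ?_
      rw [Matrix.vandermonde_apply, Pi.sub_apply]
      ring
    rw [h3, h2, sub_self]
  have h4 := Matrix.eq_zero_of_mulVec_eq_zero hdet h1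
  exact sub_eq_zero.1 h4

theorem vand_exists {F : Type} [Field F] [CharZero F] (d : ℕ) (N : Fin (d + 1) → F) :
    ∃ e : Fin (d + 1) → F, ∀ m : Fin (d + 1), ∑ j, e j * (m : F) ^ j.1 = N m := by
  classical
  have hdet : (Matrix.vandermonde fun m : Fin (d + 1) => (m : F)).det ≠ 0 := by
    rw [Matrix.det_vandermonde_ne_zero_iff]
    intro a b hab
    have : ((a.1 : ℕ) : F) = ((b.1 : ℕ) : F) := hab
    exact Fin.ext (Nat.cast_injective this)
  refine ⟨(Matrix.vandermonde fun m : Fin (d + 1) => (m : F))⁻¹.mulVec N, fun m => ?_⟩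
  have h1 : (Matrix.vandermonde fun m : Fin (d + 1) => (m : F)).mulVec
      ((Matrix.vandermonde fun m : Fin (d + 1) => (m : F))⁻¹.mulVec N) = N := by
    rw [Matrix.mulVec_mulVec, Matrix.mul_nonsing_inv _ (Ne.isUnit hdet), Matrix.one_mulVec]
  have h2 := congrFun h1 m
  conv_rhs => rw [← h2]
  rw [Matrix.mulVec, dotProduct]
  exact Finset.sum_congr rfl fun j _ => mul_comm _ _

/-- **the norm form** -/
theorem exists_nform (y : L) : ∃ f : Fin (finrank k L + 1) → k,
    ∀ (Ω : Type) [Field Ω] [Algebra k Ω], Full k L Ω → ∀ A B : Ω,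
      ∏ σ : L →ₐ[k] Ω, (A + B * σ y) = bev (finrank k L) (fun j => algebraMap k Ω (f j)) B A := by
  classical
  obtain ⟨f, hf⟩ := vand_exists (finrank k L) (fun m : Fin (finrank k L + 1) =>
    Algebra.norm k (1 + (m : L) * y))
  refine ⟨f, fun Ω _ _ hΩ A B => ?_⟩
  have : CharZero Ω := charZero_of_injective_algebraMap (algebraMap k Ω).injective
  set l : List (Ω × Ω) := (Finset.univ : Finset (L →ₐ[k] Ω)).toList.map fun σ => (σ y, (1 : Ω))
    with hl
  have hlen : l.length = finrank k L := by
    rw [hl, List.length_map, Finset.length_toList, Finset.card_univ, hΩ.1]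
  obtain ⟨g, hg⟩ := prod_lin l
  rw [hlen] at hg
  have hprod : ∀ v w : Ω, ∏ σ : L →ₐ[k] Ω, (w + v * σ y) =
      ∑ j : Fin (finrank k L + 1), g j.1 * (v ^ j.1 * w ^ (finrank k L - j.1)) := by
    intro v w
    rw [← Finset.sum_range (fun j => g j * (v ^ j * w ^ (finrank k L - j))), ← hg v w, hl,
      List.map_map]
    rw [← Finset.prod_map_toList]
    congr 1
    refine List.map_congr_left fun σ _ => ?_
    simp only [Function.comp]
    ring
  have hfg : (fun j : Fin (finrank k L + 1) => g j.1) = fun j => algebraMap k Ω (f j) := by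
    apply vand_unique
    intro m
    have h1 := hprod (m : Ω) 1
    have h2 := hΩ.2 (1 + (m : L) * y)
    have h3 : ∏ σ : L →ₐ[k] Ω, σ (1 + (m : L) * y) = ∏ σ : L →ₐ[k] Ω, (1 + (m : Ω) * σ y) := by
      refine Finset.prod_congr rfl fun σ _ => ?_
      rw [map_add, map_one, map_mul, map_natCast]
    rw [h3, h1, ← hf m, map_sum] at h2
    simp only [one_pow, mul_one] at h2
    rw [← h2]
    refine Finset.sum_congr rfl fun j _ => ?_
    rw [map_mul, map_pow, map_natCast]
  rw [hprod B A]
  unfold bev
  refine Finset.sum_congr rfl fun j _ => ?_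
  show g j.1 * _ = algebraMap k Ω (f j) * _
  rw [← congrFun hfg j]

end Pool.Agent.N750
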