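import Mathlib
import Pool.Agent.N750.Loc

/-!
The values of polynomials at integers and their coefficients.
-/

set_option autoImplicit false
set_option linter.unusedSectionVars false

open Finset Filter Topology

namespace Pool.Agent.N750

open NumberField IsDedekindDomain Height Module
open Pool.Agent.W180.OP (Pl av wt nrm le_nrm nrm_pos wt_nonneg exists_nrm nrm_nonneg)

/-- absolute values of integers -/
theorem av_int_le {K : Type} [Field K] [NumberField K] (p : Pl K) (z : ℤ) (B : ℝ)
    (hz : |(z : ℝ)| ≤ B) : av p (z : K) ≤ cst B p := by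
  rcases p with w | v
  · show w (z : K) ≤ B
    rw [← InfinitePlace.norm_embedding_eq w, map_intCast, Complex.norm_intCast]
    exact hz
  · exact av_int v z

theorem av_dvd {K : Type} [Field K] [NumberField K] (p : Pl K) (z z' : ℤ) (hd : z ∣ z')
    (hz' : z' ≠ 0) : av p (z' : K) ≤ cst |(z' : ℝ)| p * av p (z : K) := by
  rcases p with w | v
  · have h0 : z ≠ 0 := by
      rintro rfl
      exact hz' (zero_dvd_iff.1 hd)
    show w (z' : K) ≤ |(z' : ℝ)| * w (z : K)
    rw [← InfinitePlace.norm_embedding_eq w, map_intCast, Complex.norm_intCast,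
      ← InfinitePlace.norm_embedding_eq w, map_intCast, Complex.norm_intCast]
    refine le_mul_of_one_le_right (abs_nonneg _) ?_
    exact_mod_cast Int.one_le_abs h0
  · obtain ⟨q, rfl⟩ := hd
    show av (Sum.inr v : Pl K) ((z * q : ℤ) : K) ≤ 1 * av (Sum.inr v : Pl K) (z : K)
    push_cast
    rw [map_mul, one_mul]
    exact mul_le_of_le_one_right ((av _).nonneg _) (av_int v q)

/-- **the values of a polynomial at integers and its coefficients** -/
theorem pig (n B : ℕ) (hn : 1 ≤ n) : ∃ (C : ℝ) (Δ : ℕ), 1 ≤ C ∧ 1 ≤ Δ ∧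
    ∀ (K : Type) [Field K] [NumberField K] (p : Pl K) (c : Fin n → K),
      ((Finset.range (B + 1)).filter fun m : ℕ =>
        cst C p * av p (∑ j, c j * (m : K) ^ j.1) < av p (Δ : K) * nrm (av p) c).card < n := by
  classical
  -- the integral Vandermonde matrices
  let V : (Fin n → Fin (B + 1)) → Matrix (Fin n) (Fin n) ℤ := fun m =>
    Matrix.vandermonde fun i => ((m i).1 : ℤ)
  let Δz : ℤ := ∏ m : Fin n → Fin (B + 1), (if (V m).det = 0 then 1 else (V m).det)
  have hΔ0 : Δz ≠ 0 := by
    refine Finset.prod_ne_zero_iff.2 fun m _ => ?_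
    split_ifs with h
    · exact one_ne_zero
    · exact h
  let C0 : ℝ := ∑ m : Fin n → Fin (B + 1), ∑ i, ∑ j, |(((V m).adjugate i j : ℤ) : ℝ)|
  have hC0 : 0 ≤ C0 := Finset.sum_nonneg fun m _ => Finset.sum_nonneg fun i _ =>
    Finset.sum_nonneg fun j _ => abs_nonneg _
  have hC0le : ∀ m i j, |(((V m).adjugate i j : ℤ) : ℝ)| ≤ C0 := by
    intro m i j
    have h1 := Finset.single_le_sum (s := Finset.univ)
      (f := fun j => |(((V m).adjugate i j : ℤ) : ℝ)|) (fun _ _ => abs_nonneg _)
      (Finset.mem_univ j)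
    have h2 := Finset.single_le_sum (s := Finset.univ)
      (f := fun i => ∑ j, |(((V m).adjugate i j : ℤ) : ℝ)|)
      (fun _ _ => Finset.sum_nonneg fun _ _ => abs_nonneg _) (Finset.mem_univ i)
    have h3 := Finset.single_le_sum (s := Finset.univ)
      (f := fun m => ∑ i, ∑ j, |(((V m).adjugate i j : ℤ) : ℝ)|)
      (fun _ _ => Finset.sum_nonneg fun _ _ => Finset.sum_nonneg fun _ _ => abs_nonneg _)
      (Finset.mem_univ m)
    exact h1.trans (h2.trans h3)
  refine ⟨max 1 (|(Δz : ℝ)| * (n * C0)), Δz.natAbs, le_max_left _ _, ?_, ?_⟩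
  · have := Int.natAbs_pos.2 hΔ0
    omega
  intro K _ _ p c
  by_contra hcon
  push Not at hcon
  obtain ⟨A, hA1, hA2⟩ := Finset.exists_subset_card_eq hcon
  -- the chosen integers
  let e : Fin n ≃ A := (Finset.equivFinOfCardEq hA2).symm
  have hlt : ∀ i, (e i).1 < B + 1 := by
    intro i
    have := hA1 (e i).2
    rw [Finset.mem_filter, Finset.mem_range] at this
    exact this.1
  have hbad : ∀ i, cst (max 1 (|(Δz : ℝ)| * (n * C0))) p *
      av p (∑ j, c j * ((e i).1 : K) ^ j.1) < av p (Δz.natAbs : K) * nrm (av p) c := by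
    intro i
    have := hA1 (e i).2
    rw [Finset.mem_filter] at this
    exact this.2
  let m : Fin n → Fin (B + 1) := fun i => ⟨(e i).1, hlt i⟩
  have hminj : Function.Injective fun i => (((m i).1 : ℕ) : ℤ) := by
    intro i i' h
    have h0 : (((m i).1 : ℕ) : ℤ) = (((m i').1 : ℕ) : ℤ) := h
    have h1 : (e i).1 = (e i').1 := Int.natCast_inj.1 h0
    exact e.injective (Subtype.ext h1)
  have hdet : (V m).det ≠ 0 := Matrix.det_vandermonde_ne_zero_iff.2 hminj
  have hdvd : (V m).det ∣ Δz := by
    have h1 : (if (V m).det = 0 then 1 else (V m).det) ∣ Δz := Finset.dvd_prod_of_mem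
      (fun m : Fin n → Fin (B + 1) => if (V m).det = 0 then 1 else (V m).det) (Finset.mem_univ m)
    rwa [if_neg hdet] at h1
  -- Cramer
  have hcr : ∀ j, ((V m).det : K) * c j =
      ∑ i, (((V m).adjugate j i : ℤ) : K) * ∑ l, c l * ((e i).1 : K) ^ l.1 := by
    intro j
    have h1 : ((V m).map (Int.castRingHom K)).adjugate.mulVec
        (((V m).map (Int.castRingHom K)).mulVec c) = ((V m).map (Int.castRingHom K)).det • c := by
      rw [Matrix.mulVec_mulVec, Matrix.adjugate_mul, Matrix.smul_mulVec, Matrix.one_mulVec]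
    have h2 := congrFun h1 j
    have h3 : ((V m).map (Int.castRingHom K)).det = ((V m).det : K) :=
      (RingHom.map_det (Int.castRingHom K) (V m)).symm
    have h4 : ((V m).map (Int.castRingHom K)).adjugate = (V m).adjugate.map (Int.castRingHom K) :=
      (RingHom.map_adjugate (Int.castRingHom K) (V m)).symm
    rw [h3, h4] at h2
    rw [Pi.smul_apply, smul_eq_mul] at h2
    rw [← h2, Matrix.mulVec, dotProduct]
    refine Finset.sum_congr rfl fun i _ => ?_
    congr 1
    rw [Matrix.mulVec, dotProduct]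
    refine Finset.sum_congr rfl fun l _ => ?_
    rw [mul_comm]
    congr 1
    show (Int.castRingHom K) ((((e i).1 : ℕ) : ℤ) ^ l.1) = ((e i).1 : K) ^ l.1
    rw [map_pow]
    simp
  obtain ⟨j, hj⟩ := exists_nrm (av p) (by omega) c
  set W : ℝ := ⨆ i, av p (∑ l, c l * ((e i).1 : K) ^ l.1) with hW
  have hWle : ∀ i, av p (∑ l, c l * ((e i).1 : K) ^ l.1) ≤ W := fun i =>
    le_nrm (av p) (fun i => ∑ l, c l * ((e i).1 : K) ^ l.1) i
  obtain ⟨i0, hi0⟩ := exists_nrm (av p) (show 0 < n by omega)
    (fun i => ∑ l, c l * ((e i).1 : K) ^ l.1)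
  have hi0' : av p (∑ l, c l * ((e i0).1 : K) ^ l.1) = W := hi0
  have hW0 : 0 ≤ W := hi0' ▸ (av p).nonneg _
  have h5 : av p ((V m).det : K) * nrm (av p) c ≤ cst (n * C0) p * W := by
    rw [← hj, ← map_mul, hcr j]
    have h6 := av_sum p Finset.univ (fun i => (((V m).adjugate j i : ℤ) : K) *
      ∑ l, c l * ((e i).1 : K) ^ l.1) (cst C0 p * W) (by
        refine mul_nonneg ?_ hW0
        rcases p with w | v
        · exact hC0
        · exact zero_le_one) (fun i _ => by
        rw [map_mul]
        refine mul_le_mul (av_int_le p _ C0 (hC0le m j i)) (hWle i) ((av p).nonneg _) ?_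
        rcases p with w | v
        · exact hC0
        · exact zero_le_one) n (by rw [Finset.card_univ, Fintype.card_fin])
    refine h6.trans (le_of_eq ?_)
    rw [← mul_assoc, cst_mul]
  have h6 : av p (Δz.natAbs : K) = av p (Δz : K) := by
    rcases Int.natAbs_eq Δz with h | h
    · conv_rhs => rw [h]
      rw [Int.cast_natCast]
    · conv_rhs => rw [h]
      rw [Int.cast_neg, Int.cast_natCast, AbsoluteValue.map_neg]
  have h7 := av_dvd p _ _ hdvd hΔ0
  have h8 := hbad i0
  rw [hi0', h6] at h8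
  have hcn : 0 ≤ nrm (av p) c := nrm_nonneg _ _
  have h9 : av p (Δz : K) * nrm (av p) c ≤ cst (max 1 (|(Δz : ℝ)| * (n * C0))) p * W := by
    calc av p (Δz : K) * nrm (av p) c ≤ cst |(Δz : ℝ)| p * av p ((V m).det : K) * nrm (av p) c :=
          mul_le_mul_of_nonneg_right h7 hcn
      _ = cst |(Δz : ℝ)| p * (av p ((V m).det : K) * nrm (av p) c) := mul_assoc _ _ _
      _ ≤ cst |(Δz : ℝ)| p * (cst (n * C0) p * W) := by
          refine mul_le_mul_of_nonneg_left h5 ?_
          rcases p with w | v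
          · exact abs_nonneg _
          · exact zero_le_one
      _ = cst (|(Δz : ℝ)| * (n * C0)) p * W := by rw [← mul_assoc, cst_mul]
      _ ≤ _ := mul_le_mul_of_nonneg_right (cst_mono (le_max_right _ _) p) hW0
  linarith

end Pool.Agent.N750
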