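import Mathlib
import Pool.Agent.N750.Pig
import Pool.Agent.N750.Emb
import Pool.Agent.R405.Big

/-!
Heights: general comparison, conjugates, the norm form.
-/

set_option autoImplicit false
set_option linter.unusedSectionVars false

open Finset Filter Topology

namespace Pool.Agent.N750

open NumberField IsDedekindDomain Height Module
open Pool.Agent.W180.OP (Pl av wt nrm le_nrm nrm_pos wt_nonneg exists_nrm nrm_nonneg)

/-- a general comparison of heights -/
theorem ht_gen {K : Type} [Field K] [NumberField K] {ι : Type} (s : Finset ι) (n : ι → ℕ)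
    (y : ∀ i, Fin (n i) → K) (c : ι → ℝ) (hy : ∀ i ∈ s, y i ≠ 0) (B : ℝ)
    (h : ∀ p : Pl K, 0 ≤ ∑ i ∈ s, c i * Real.log (nrm (av p) (y i)) + Real.log (cst B p)) :
    0 ≤ ∑ i ∈ s, c i * logHeight (y i) + finrank ℚ K * Real.log B := by
  classical
  have hfin : (⋃ i ∈ s, {v : HeightOneSpectrum (𝓞 K) |
      nrm (Pool.Agent.W180.OP.fv v) (y i) ≠ 1}).Finite :=
    s.finite_toSet.biUnion fun i hi => Pool.Agent.R405.nrm_finite (y i) (hy i hi)
  set T := hfin.toFinset with hT
  have h1 : ∀ i ∈ s, logHeight (y i) = ∑ w : InfinitePlace K, (w.mult : ℝ) *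
      Real.log (nrm w.1 (y i)) + ∑ v ∈ T, Real.log (nrm (Pool.Agent.W180.OP.fv v) (y i)) := by
    intro i hi
    refine Pool.Agent.R405.logHeight_sum (y i) (hy i hi) T fun v hv => ?_
    by_contra hne
    apply hv
    rw [hT, Set.Finite.mem_toFinset]
    exact Set.mem_biUnion (Finset.mem_coe.2 hi) hne
  have h2 : ∑ i ∈ s, c i * logHeight (y i) = ∑ w : InfinitePlace K, (w.mult : ℝ) *
      ∑ i ∈ s, c i * Real.log (nrm w.1 (y i)) +
      ∑ v ∈ T, ∑ i ∈ s, c i * Real.log (nrm (Pool.Agent.W180.OP.fv v) (y i)) := by
    rw [Finset.sum_congr rfl fun i hi => by rw [h1 i hi]]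
    simp_rw [mul_add, Finset.sum_add_distrib, Finset.mul_sum]
    congr 1
    · rw [Finset.sum_comm]
      exact Finset.sum_congr rfl fun w _ => Finset.sum_congr rfl fun i _ => by ring
    · rw [Finset.sum_comm]
  have h3 : (∑ w : InfinitePlace K, (w.mult : ℝ)) = finrank ℚ K := by
    rw [← NumberField.totalWeight_eq_finrank, NumberField.totalWeight_eq_sum_mult]
    push_cast
    rfl
  rw [h2, ← h3, Finset.sum_mul, add_right_comm, ← Finset.sum_add_distrib]
  refine add_nonneg (Finset.sum_nonneg fun w _ => ?_) (Finset.sum_nonneg fun v _ => ?_)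
  · rw [← mul_add]
    exact mul_nonneg (Nat.cast_nonneg _) (h (Sum.inl w))
  · have h4 := h (Sum.inr v)
    have h5 : Real.log (cst B (Sum.inr v : Pl K)) = 0 := Real.log_one
    rw [h5, add_zero] at h4
    exact h4

theorem logHeight_one {K : Type} [Field K] [NumberField K] (x : Fin 1 → K) : logHeight x = 0 :=
  Height.logHeight_eq_zero_of_subsingleton _

variable {k L M : Type} [Field k] [NumberField k] [Field L] [NumberField L] [Algebra k L]
  [Field M] [NumberField M] [Algebra k M]

/-- a large field -/
theorem exists_M (k L : Type) [Field k] [NumberField k] [Field L] [NumberField L] [Algebra k L] :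
    ∃ (M : Type) (_ : Field M) (_ : NumberField M) (_ : Algebra k M) (_ : Algebra L M),
      IsScalarTower k L M ∧ IsGalois k M := by
  obtain ⟨M, hfd, hgal, -, ⟨φ⟩⟩ := Pool.Agent.R405.exists_big L
  have : NumberField M := ⟨⟩
  let _ : Algebra L M := φ.toAlgebra
  let _ : Algebra k M := (φ.comp (algebraMap k L)).toAlgebra
  have htow : IsScalarTower k L M := IsScalarTower.of_algebraMap_eq fun x => rfl
  have hq : IsScalarTower ℚ k M := inferInstance
  exact ⟨M, inferInstance, inferInstance, inferInstance, inferInstance, htow,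
    IsGalois.tower_top_of_isGalois ℚ k M⟩

/-- the height of a conjugate -/
theorem conj_height (σ : L →ₐ[k] M) {ι : Type} [Finite ι] (x : ι → L) :
    (finrank k L : ℝ) * logHeight (fun i => σ (x i)) = finrank k M * logHeight x := by
  let _ : Algebra L M := σ.toRingHom.toAlgebra
  have htow : IsScalarTower k L M := IsScalarTower.of_algebraMap_eq fun x => (σ.commutes x).symm
  have h1 := Pool.Agent.Helper259.HtExt.logHeight_ext (K := L) (L := M) x
  have h2 : (fun i => algebraMap L M (x i)) = fun i => σ (x i) := rfl
  rw [h2] at h1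
  rw [h1, ← mul_assoc]
  congr 1
  exact_mod_cast finrank_mul_finrank k L M

/-- the coefficients of a product of linear forms, with bounds -/
theorem prod_lin' {F : Type} [Field F] [NumberField F] (l : List (F × F)) : ∃ g : ℕ → F,
    (∀ v w : F, (l.map fun q => q.1 * v + q.2 * w).prod =
      ∑ j ∈ Finset.range (l.length + 1), g j * (v ^ j * w ^ (l.length - j))) ∧
    ∀ (p : Pl F) (j : ℕ), av p (g j) ≤ cst (2 ^ l.length) p *
      (l.map fun q => nrm (av p) ![q.1, q.2]).prod := by
  induction l with
  | nil =>
    refine ⟨fun _ => 1, fun v w => by simp, fun p j => ?_⟩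
    rw [map_one, List.length_nil, pow_zero, List.map_nil, List.prod_nil, mul_one]
    exact one_le_cst le_rfl p
  | cons q l ih =>
    obtain ⟨g, hg, hb⟩ := ih
    set m := l.length with hm
    refine ⟨fun j => (if j = 0 then 0 else q.1 * g (j - 1)) + (if j ≤ m then q.2 * g j else 0),
      fun v w => ?_, fun p j => ?_⟩
    · rw [List.map_cons, List.prod_cons, hg, List.length_cons, ← hm]
      have e1 : ∑ j ∈ Finset.range (m + 1 + 1), ((if j = 0 then 0 else q.1 * g (j - 1)) +
          (if j ≤ m then q.2 * g j else 0)) * (v ^ j * w ^ (m + 1 - j)) =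
          ∑ j ∈ Finset.range (m + 1 + 1), (if j = 0 then 0 else q.1 * g (j - 1)) *
            (v ^ j * w ^ (m + 1 - j)) +
          ∑ j ∈ Finset.range (m + 1 + 1), (if j ≤ m then q.2 * g j else 0) *
            (v ^ j * w ^ (m + 1 - j)) := by
        rw [← Finset.sum_add_distrib]
        exact Finset.sum_congr rfl fun j _ => add_mul _ _ _
      rw [e1, Finset.sum_range_succ' (fun j => (if j = 0 then 0 else q.1 * g (j - 1)) *
        (v ^ j * w ^ (m + 1 - j))),
        Finset.sum_range_succ (fun j => (if j ≤ m then q.2 * g j else 0) *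
            (v ^ j * w ^ (m + 1 - j)))]
      have e2 : ∀ j ∈ Finset.range (m + 1), (if j + 1 = 0 then 0 else q.1 * g (j + 1 - 1)) *
          (v ^ (j + 1) * w ^ (m + 1 - (j + 1))) = q.1 * v * (g j * (v ^ j * w ^ (m - j))) := by
        intro j _
        rw [if_neg (Nat.succ_ne_zero j), Nat.add_sub_cancel, Nat.add_sub_add_right, pow_succ]
        ring
      have e3 : ∀ j ∈ Finset.range (m + 1), (if j ≤ m then q.2 * g j else 0) *
          (v ^ j * w ^ (m + 1 - j)) = q.2 * w * (g j * (v ^ j * w ^ (m - j))) := by
        intro j hj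
        have hjm : j ≤ m := by
          rw [Finset.mem_range] at hj
          omega
        rw [if_pos hjm, Nat.succ_sub hjm, pow_succ]
        ring
      rw [Finset.sum_congr rfl e2, Finset.sum_congr rfl e3, if_pos rfl, if_neg (by omega), zero_mul,
        zero_mul, add_zero, add_zero, ← Finset.mul_sum, ← Finset.mul_sum, ← add_mul]
    · rw [List.map_cons, List.prod_cons, List.length_cons]
      set P : ℝ := (l.map fun q => nrm (av p) ![q.1, q.2]).prod with hP
      have hP0 : 0 ≤ P := by
        rw [hP]
        apply List.prod_nonneg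
        intro a ha
        rw [List.mem_map] at ha
        obtain ⟨q', -, rfl⟩ := ha
        exact nrm_nonneg _ _
      set N : ℝ := nrm (av p) ![q.1, q.2] with hN
      have hN0 : 0 ≤ N := nrm_nonneg _ _
      have hq1 : av p q.1 ≤ N := le_nrm (av p) ![q.1, q.2] 0
      have hq2 : av p q.2 ≤ N := le_nrm (av p) ![q.1, q.2] 1
      have hcp : 0 < cst (2 ^ m) p := cst_pos (by positivity) p
      have hb1 : ∀ j, av p (q.1 * g j) ≤ cst (2 ^ m) p * (N * P) := by
        intro j
        rw [map_mul]
        calc av p q.1 * av p (g j) ≤ N * (cst (2 ^ m) p * P) :=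
              mul_le_mul hq1 (hb p j) ((av p).nonneg _) hN0
          _ = _ := by ring
      have hb2 : ∀ j, av p (q.2 * g j) ≤ cst (2 ^ m) p * (N * P) := by
        intro j
        rw [map_mul]
        calc av p q.2 * av p (g j) ≤ N * (cst (2 ^ m) p * P) :=
              mul_le_mul hq2 (hb p j) ((av p).nonneg _) hN0
          _ = _ := by ring
      have hb0 : 0 ≤ cst (2 ^ m) p * (N * P) := by positivity
      have h1 : av p (if j = 0 then 0 else q.1 * g (j - 1)) ≤ cst (2 ^ m) p * (N * P) := by
        split_ifs
        · rw [map_zero]; exact hb0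
        · exact hb1 _
      have h2 : av p (if j ≤ m then q.2 * g j else 0) ≤ cst (2 ^ m) p * (N * P) := by
        split_ifs
        · exact hb2 _
        · rw [map_zero]; exact hb0
      have h3 := av_sum p Finset.univ ![(if j = 0 then 0 else q.1 * g (j - 1)),
        (if j ≤ m then q.2 * g j else 0)] _ hb0 (by
          intro i _
          fin_cases i
          · exact h1
          · exact h2) 2 (by simp)
      rw [Fin.sum_univ_two] at h3
      refine h3.trans (le_of_eq ?_)
      rw [← mul_assoc, cst_mul, pow_succ, mul_comm (2 : ℝ)]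

/-- the height of the norm form -/
theorem nform_height (y : L) (f : Fin (finrank k L + 1) → k)
    (hf : ∀ (Ω : Type) [Field Ω] [Algebra k Ω], Full k L Ω → ∀ A B : Ω,
      ∏ σ : L →ₐ[k] Ω, (A + B * σ y) = bev (finrank k L) (fun j => algebraMap k Ω (f j)) B A) :
    logHeight f ≤ logHeight ![1, y] + finrank ℚ k * (finrank k L * Real.log 2) := by
  classical
  obtain ⟨M, _, _, _, _, _, hgal⟩ := exists_M k L
  have hfull : Full k L M := full_gal k L M ⟨IsScalarTower.toAlgHom k L M⟩
  set l : List (M × M) := (Finset.univ : Finset (L →ₐ[k] M)).toList.map fun σ => (σ y, (1 : M))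
    with hl
  have hlen : l.length = finrank k L := by
    rw [hl, List.length_map, Finset.length_toList, Finset.card_univ, hfull.1]
  obtain ⟨g, hg, hb⟩ := prod_lin' l
  rw [hlen] at hg hb
  have hfg : (fun j : Fin (finrank k L + 1) => g j.1) = fun j => algebraMap k M (f j) := by
    apply vand_unique
    intro m
    have h1 := hf M hfull 1 (m : M)
    have h2 := hg (m : M) 1
    unfold bev at h1
    simp only [one_pow, mul_one] at h1 h2
    rw [← h1]
    rw [← Finset.sum_range (fun j => g j * (m : M) ^ j), ← h2, hl, List.map_map,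
      ← Finset.prod_map_toList]
    congr 1
    refine List.map_congr_left fun σ _ => ?_
    simp only [Function.comp]
    ring
  -- local estimate
  have hf0 : f ≠ 0 := by
    intro h
    have h1 := hf M hfull 1 0
    rw [h] at h1
    unfold bev at h1
    simp at h1
  have hfM0 : (fun j => algebraMap k M (f j)) ≠ 0 := by
    intro h
    apply hf0
    funext j
    exact (map_eq_zero _).1 (congrFun h j)
  have hloc : ∀ p : Pl M, nrm (av p) (fun j => algebraMap k M (f j)) ≤
      cst (2 ^ finrank k L) p * ∏ σ : L →ₐ[k] M, nrm (av p) ![1, σ y] := by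
    intro p
    obtain ⟨j, hj⟩ := exists_nrm (av p) (Nat.succ_pos _) (fun j => algebraMap k M (f j))
    rw [← hj, ← congrFun hfg j]
    refine (hb p j.1).trans (le_of_eq ?_)
    congr 1
    rw [hl, List.map_map, ← Finset.prod_map_toList]
    congr 1
    refine List.map_congr_left fun σ _ => ?_
    simp only [Function.comp]
    unfold nrm
    refine le_antisymm ?_ ?_
    · refine ciSup_le fun i => ?_
      fin_cases i
      · exact le_nrm (av p) ![1, σ y] 1
      · exact le_nrm (av p) ![1, σ y] 0
    · refine ciSup_le fun i => ?_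
      fin_cases i
      · exact le_nrm (av p) ![σ y, 1] 1
      · exact le_nrm (av p) ![σ y, 1] 0
  have h1 := ht_gen (K := M) (ι := Option (L →ₐ[k] M)) Finset.univ
    (fun i => match i with | none => finrank k L + 1 | some _ => 2)
    (fun i => match i with
      | none => fun j => algebraMap k M (f j)
      | some σ => ![1, σ y])
    (fun i => match i with | none => -1 | some _ => 1)
    (by
      rintro (_ | σ) _
      · exact hfM0
      · intro h
        have := congrFun h 0
        simp at this) (2 ^ finrank k L) (by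
      intro p
      rw [Fintype.sum_option]
      have h2 := hloc p
      have h3 := Real.log_le_log (nrm_pos (av p) hfM0) h2
      have h4 : ∀ σ ∈ (Finset.univ : Finset (L →ₐ[k] M)), nrm (av p) ![1, σ y] ≠ 0 := by
        intro σ _
        refine (nrm_pos (av p) ?_).ne'
        intro h
        have := congrFun h 0
        simp at this
      rw [Real.log_mul (cst_pos (by positivity) p).ne' (Finset.prod_ne_zero_iff.2 h4),
        Real.log_prod h4] at h3
      simp only [one_mul, neg_one_mul]
      linarith)
  rw [Fintype.sum_option] at h1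
  simp only [one_mul, neg_one_mul] at h1
  have h5 : logHeight (fun j => algebraMap k M (f j)) = finrank k M * logHeight f :=
    Pool.Agent.Helper259.HtExt.logHeight_ext f
  rw [h5, Real.log_pow] at h1
  have hd : (0 : ℝ) < finrank k L := by exact_mod_cast finrank_pos
  have hM : (0 : ℝ) < finrank k M := by exact_mod_cast finrank_pos
  have h6 : ∀ σ : L →ₐ[k] M, (finrank k L : ℝ) * logHeight ![1, σ y] =
      finrank k M * logHeight ![1, y] := by
    intro σ
    rw [← conj_height σ ![1, y]]
    congr 2
    funext i
    fin_cases i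
    · simp
    · simp
  have h7 : ∑ σ : L →ₐ[k] M, logHeight ![1, σ y] = finrank k M * logHeight ![1, y] := by
    have h8 : ∀ σ ∈ (Finset.univ : Finset (L →ₐ[k] M)), logHeight ![1, σ y] =
        finrank k M * logHeight ![1, y] / finrank k L := by
      intro σ _
      rw [eq_div_iff hd.ne', ← h6 σ, mul_comm]
    rw [Finset.sum_congr rfl h8, Finset.sum_const, Finset.card_univ, hfull.1, nsmul_eq_mul]
    field_simp
  rw [h7] at h1
  have h9 : (finrank ℚ M : ℝ) = finrank ℚ k * finrank k M := by
    exact_mod_cast (finrank_mul_finrank ℚ k M).symm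
  rw [h9] at h1
  have h10 : (finrank k M : ℝ) * logHeight f ≤ finrank k M *
      (logHeight ![1, y] + finrank ℚ k * (finrank k L * Real.log 2)) := by
    have : (finrank k M : ℝ) * (logHeight ![1, y] + finrank ℚ k * (finrank k L * Real.log 2)) =
        finrank k M * logHeight ![1, y] + finrank ℚ k * finrank k M *
          ((finrank k L : ℝ) * Real.log 2) := by ring
    rw [this]
    linarith
  exact le_of_mul_le_mul_left h10 hM

end Pool.Agent.N750
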