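import Mathlib
import Pool.Agent.N750.Hgt

/-!
Local comparison of a point and its norm form.
-/

set_option autoImplicit false
set_option linter.unusedSectionVars false

open Finset Filter Topology

namespace Pool.Agent.N750

open NumberField IsDedekindDomain Height Module
open Pool.Agent.W180.OP (Pl av wt nrm le_nrm nrm_pos wt_nonneg exists_nrm nrm_nonneg)

variable {k L M : Type} [Field k] [NumberField k] [Field L] [NumberField L] [Algebra k L]
  [Field M] [NumberField M] [Algebra k M]

/-- `f` is the norm form of `y` -/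
def IsNF (d : ℕ) (y : L) (f : Fin (d + 1) → k) : Prop :=
  ∀ (Ω : Type) [Field Ω] [Algebra k Ω], Full k L Ω → ∀ A B : Ω,
    ∏ σ : L →ₐ[k] Ω, (A + B * σ y) = bev d (fun j => algebraMap k Ω (f j)) B A

theorem exists_isNF {d : ℕ} (hd : finrank k L = d) (y : L) : ∃ f : Fin (d + 1) → k, IsNF d y f := by
  subst hd
  exact exists_nform y

theorem isNF_height {d : ℕ} (hd : finrank k L = d) (y : L) {f : Fin (d + 1) → k}
    (hf : IsNF d y f) :
    logHeight f ≤ logHeight ![1, y] + finrank ℚ k * (d * Real.log 2) := by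
  subst hd
  exact nform_height y f hf

theorem isNF_ne {d : ℕ} {y : L} {f : Fin (d + 1) → k} (hf : IsNF d y f) : f ≠ 0 := by
  intro h
  have h1 := hf (AlgebraicClosure k) (full_closed k L _) 1 0
  rw [h] at h1
  unfold bev at h1
  simp at h1

theorem isNF_norm {d : ℕ} {y : L} {f : Fin (d + 1) → k} (hf : IsNF d y f) (A B : k) :
    Algebra.norm k (algebraMap k L A + algebraMap k L B * y) = bev d f B A := by
  have h1 := hf (AlgebraicClosure k) (full_closed k L _) (algebraMap k _ A) (algebraMap k _ B)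
  have h2 := (full_closed k L (AlgebraicClosure k)).2 (algebraMap k L A + algebraMap k L B * y)
  have h3 : ∀ σ : L →ₐ[k] AlgebraicClosure k, σ (algebraMap k L A + algebraMap k L B * y) =
      algebraMap k _ A + algebraMap k _ B * σ y := by
    intro σ
    rw [map_add, map_mul, σ.commutes, σ.commutes]
  rw [Finset.prod_congr rfl fun σ _ => h3 σ, h1] at h2
  apply (algebraMap k (AlgebraicClosure k)).injective
  rw [h2]
  unfold bev
  rw [map_sum]
  refine Finset.sum_congr rfl fun j _ => ?_
  rw [map_mul, map_mul, map_pow, map_pow]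

theorem wt_le_two {K : Type} [Field K] [NumberField K] (p : Pl K) : wt p ≤ 2 := by
  rcases p with w | v
  · show (w.mult : ℝ) ≤ 2
    have : w.mult ≤ 2 := by
      unfold InfinitePlace.mult
      split_ifs <;> norm_num
    exact_mod_cast this
  · show (1 : ℝ) ≤ 2
    norm_num

/-- **local comparison of a point and its norm form** -/
theorem loc_cmp (v : Pl k) (d : ℕ) : ∃ C : ℝ, 0 ≤ C ∧ ∀ (L : Type) [Field L] [NumberField L]
    [Algebra k L], finrank k L = d → ∀ (y : L) (f : Fin (d + 1) → k), IsNF d y f →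
    ∑ w ∈ ab L v, wt w * Real.log (nrm (av w) ![1, y]) ≤ wt v * Real.log (nrm (av v) f) + C := by
  classical
  obtain ⟨C1, Δ, hC1, hΔ, hpig⟩ := pig 2 (d + 1) (by norm_num)
  have hl1 : 0 ≤ Real.log C1 := Real.log_nonneg hC1
  have hl2 : 0 ≤ Real.log (((d : ℝ) + 1) * ((d : ℝ) + 1) ^ d) := by
    apply Real.log_nonneg
    have h1 : (1 : ℝ) ≤ (d : ℝ) + 1 := by
      have := Nat.cast_nonneg (α := ℝ) d
      linarith
    calc (1 : ℝ) = 1 * 1 := (one_mul 1).symm
      _ ≤ _ := mul_le_mul h1 (one_le_pow₀ h1) zero_le_one (by positivity)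
  refine ⟨2 * d * Real.log C1 + d * |wt v * Real.log (av v (Δ : k))| +
    wt v * Real.log (((d : ℝ) + 1) * ((d : ℝ) + 1) ^ d), ?_, ?_⟩
  · have := wt_nonneg v
    positivity
  intro L _ _ _ hd y f hf
  -- the choice of the integer
  let bad : Pl L → Finset ℕ := fun w => (Finset.range (d + 1 + 1)).filter fun m : ℕ =>
    cst C1 w * av w (∑ j : Fin 2, (![1, y] : Fin 2 → L) j * (m : L) ^ j.1) <
      av w (Δ : L) * nrm (av w) ![1, y]
  have hbad : ∀ w, (bad w).card ≤ 1 := fun w => Nat.lt_succ_iff.1 (hpig L w ![1, y])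
  let zer : Finset ℕ := (Finset.range (d + 1 + 1)).filter fun m : ℕ => 1 + (m : L) * y = 0
  have hzer : zer.card ≤ 1 := by
    rw [Finset.card_le_one]
    intro a ha b hb
    rw [Finset.mem_filter] at ha hb
    have hy : y ≠ 0 := by
      rintro rfl
      have := ha.2
      simp at this
    have h1 : ((a : L) - (b : L)) * y = 0 := by linear_combination ha.2 - hb.2
    have h2 := (mul_eq_zero.1 h1).resolve_right hy
    exact_mod_cast sub_eq_zero.1 h2
  have hex : ∃ m ∈ Finset.range (d + 1 + 1), m ∉ zer ∪ (ab L v).biUnion bad := by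
    by_contra hcon
    push Not at hcon
    have h1 := Finset.card_le_card (show Finset.range (d + 1 + 1) ⊆ zer ∪ (ab L v).biUnion bad from
      hcon)
    have h2 := Finset.card_union_le zer ((ab L v).biUnion bad)
    have h3 : ((ab L v).biUnion bad).card ≤ (ab L v).card * 1 :=
      Finset.card_biUnion_le_card_mul _ _ _ fun w _ => hbad w
    have h4 := ab_card (L := L) v
    rw [Finset.card_range] at h1
    omega
  obtain ⟨m, hm, hmn⟩ := hex
  rw [Finset.mem_union, not_or] at hmn
  have hz : (1 : L) + (m : L) * y ≠ 0 := by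
    intro h
    exact hmn.1 (Finset.mem_filter.2 ⟨hm, h⟩)
  have hgood : ∀ w ∈ ab L v, av w (Δ : L) * nrm (av w) ![1, y] ≤
      cst C1 w * av w (1 + (m : L) * y) := by
    intro w hw
    by_contra hcon
    push Not at hcon
    refine hmn.2 (Finset.mem_biUnion.2 ⟨w, hw, Finset.mem_filter.2 ⟨hm, ?_⟩⟩)
    have h1 : ∑ j : Fin 2, (![1, y] : Fin 2 → L) j * (m : L) ^ j.1 = 1 + (m : L) * y := by
      rw [Fin.sum_univ_two]
      simp
      ring
    rw [h1]
    exact hcon
  have hΔL : (Δ : L) ≠ 0 := by
    have : Δ ≠ 0 := by omega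
    exact_mod_cast this
  have hΔk : (Δ : k) ≠ 0 := by
    have : Δ ≠ 0 := by omega
    exact_mod_cast this
  have hv1 : (![1, y] : Fin 2 → L) ≠ 0 := by
    intro h
    have := congrFun h 0
    simp at this
  have h1 : ∀ w ∈ ab L v, wt w * Real.log (nrm (av w) ![1, y]) ≤
      wt w * Real.log (av w (1 + (m : L) * y)) + 2 * Real.log C1 -
        wt w * Real.log (av w (algebraMap k L (Δ : k))) := by
    intro w hw
    have h2 := hgood w hw
    have h3 : 0 < av w (Δ : L) := (av w).pos_iff.2 hΔL
    have h4 : 0 < av w (1 + (m : L) * y) := (av w).pos_iff.2 hz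
    have h5 := nrm_pos (av w) hv1
    have h6 := Real.log_le_log (mul_pos h3 h5) h2
    rw [Real.log_mul h3.ne' h5.ne', Real.log_mul (cst_pos (by linarith) w).ne' h4.ne'] at h6
    have h7 := mul_le_mul_of_nonneg_left h6 (wt_nonneg w)
    have h8 : wt w * Real.log (cst C1 w) ≤ 2 * Real.log C1 := by
      have e1 : Real.log (cst C1 w) ≤ Real.log C1 := by
        rcases w with w | w
        · exact le_rfl
        · show Real.log 1 ≤ _
          rw [Real.log_one]
          exact hl1
      exact (mul_le_mul_of_nonneg_left e1 (wt_nonneg w)).trans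
        (mul_le_mul_of_nonneg_right (wt_le_two w) hl1)
    rw [map_natCast]
    linarith
  have h2 := Finset.sum_le_sum h1
  rw [Finset.sum_sub_distrib, Finset.sum_add_distrib, nf v _ hz, ef v _ hΔk, Finset.sum_const,
    nsmul_eq_mul, hd] at h2
  -- the value of the norm
  have h3 : Algebra.norm k ((1 : L) + (m : L) * y) = ∑ j : Fin (d + 1), f j * (m : k) ^ j.1 := by
    have e1 := isNF_norm hf 1 (m : k)
    rw [map_one, map_natCast] at e1
    rw [e1]
    unfold bev
    simp only [one_pow, mul_one]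
  have hN0 : Algebra.norm k ((1 : L) + (m : L) * y) ≠ 0 := Algebra.norm_ne_zero_iff.2 hz
  have hf0 := isNF_ne hf
  have hfp := nrm_pos (av v) hf0
  have hmd : (m : ℝ) ≤ (d : ℝ) + 1 := by
    have := Finset.mem_range.1 hm
    exact_mod_cast (by omega : m ≤ d + 1)
  have hd1 : (1 : ℝ) ≤ (d : ℝ) + 1 := by
    have := Nat.cast_nonneg (α := ℝ) d
    linarith
  have h4 : av v (∑ j : Fin (d + 1), f j * (m : k) ^ j.1) ≤
      cst (((d : ℝ) + 1) * ((d : ℝ) + 1) ^ d) v * nrm (av v) f := by
    have e1 := av_sum v Finset.univ (fun j : Fin (d + 1) => f j * (m : k) ^ j.1)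
      (cst (((d : ℝ) + 1) ^ d) v * nrm (av v) f)
      (mul_nonneg (cst_pos (by positivity) v).le hfp.le) (fun j _ => by
        rw [map_mul, mul_comm]
        refine mul_le_mul ?_ (le_nrm (av v) f j) ((av v).nonneg _) (cst_pos (by positivity) v).le
        have e2 := av_int_le v ((m : ℤ) ^ j.1) (((d : ℝ) + 1) ^ d) (by
          push_cast
          rw [abs_pow, Nat.abs_cast]
          exact (pow_le_pow_left₀ (Nat.cast_nonneg _) hmd _).trans
            (pow_le_pow_right₀ hd1 (Nat.lt_succ_iff.1 j.2)))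
        push_cast at e2
        exact e2) ((d : ℝ) + 1) (by rw [Finset.card_univ, Fintype.card_fin]; push_cast; exact le_rfl)
    rw [← mul_assoc, cst_mul] at e1
    exact e1
  rw [← h3] at h4
  have h5 := Real.log_le_log ((av v).pos_iff.2 hN0) h4
  rw [Real.log_mul (cst_pos (by positivity) v).ne' hfp.ne'] at h5
  have h6 : Real.log (cst (((d : ℝ) + 1) * ((d : ℝ) + 1) ^ d) v) ≤
      Real.log (((d : ℝ) + 1) * ((d : ℝ) + 1) ^ d) := by
    rcases v with v | v
    · exact le_rfl
    · show Real.log 1 ≤ _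
      rw [Real.log_one]
      exact hl2
  have h7 := mul_le_mul_of_nonneg_left (h5.trans (add_le_add_left h6 _)) (wt_nonneg v)
  rw [mul_add] at h7
  have h8 : ((ab L v).card : ℝ) * (2 * Real.log C1) ≤ d * (2 * Real.log C1) := by
    refine mul_le_mul_of_nonneg_right ?_ (by positivity)
    have := ab_card (L := L) v
    rw [hd] at this
    exact_mod_cast this
  have h9 : -((d : ℝ) * (wt v * Real.log (av v (Δ : k)))) ≤ d * |wt v * Real.log (av v (Δ : k))| := by
    rw [← mul_neg]
    exact mul_le_mul_of_nonneg_left (neg_le_abs _) (Nat.cast_nonneg _)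
  linarith

end Pool.Agent.N750
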