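import Mathlib
import Pool.Agent.N750.Grow

/-!
Lines on which many linear forms are proportional.
-/

set_option autoImplicit false
set_option linter.unusedSectionVars false

open Finset

namespace Pool.Agent.N750

open MvPolynomial

variable {k K : Type} [Field k] [Field K] [Algebra k K]

/-- general position -/
def GP {K : Type} [Field K] {n q : ℕ} (H : Fin q → Fin (n + 1) → K) : Prop :=
  ∀ I : Finset (Fin q), I.card ≤ n + 1 → LinearIndependent K (fun i : I => H i)

/-- the linear form as a polynomial -/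
noncomputable def lfp {K : Type} [Field K] {m : ℕ} (a : Fin m → K) : MvPolynomial (Fin m) K :=
  ∑ j, C (a j) * X j

theorem aeval_lfp {Ω : Type} [Field Ω] [Algebra K Ω] {m : ℕ} (a : Fin m → K) (x : Fin m → Ω) :
    aeval x (lfp a) = ∑ j, algebraMap K Ω (a j) * x j := by
  unfold lfp
  rw [map_sum]
  refine Finset.sum_congr rfl fun j _ => ?_
  rw [map_mul, aeval_C, aeval_X]

/-- a point on `n` hyperplanes in general position and outside the others -/
theorem exists_vertex {n q : ℕ} (H : Fin q → Fin (n + 1) → K) (hH : GP H) (T : Finset (Fin q))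
    (hT : T.card = n) (t : Fin n → Fin q) (ht : Function.Injective t) (htT : ∀ s, t s ∈ T) :
    ∃ (ξ x₀ : Fin (n + 1) → K), (∀ i ∈ T, ∑ j, H i j * x₀ j = 0) ∧
      (∀ i, i ∉ T → ∑ j, H i j * x₀ j ≠ 0) ∧
      (Matrix.of (Fin.snoc (fun s => H (t s)) ξ : Fin (n + 1) → Fin (n + 1) → K)).det ≠ 0 := by
  classical
  have htsurj : ∀ i ∈ T, ∃ s, t s = i := by
    have h1 : (Finset.univ.image t) = T := by
      apply Finset.eq_of_subset_of_card_le
      · intro i hi
        obtain ⟨s, -, rfl⟩ := Finset.mem_image.1 hi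
        exact htT s
      · rw [hT, Finset.card_image_of_injective _ ht, Finset.card_univ, Fintype.card_fin]
    intro i hi
    rw [← h1, Finset.mem_image] at hi
    obtain ⟨s, -, hs⟩ := hi
    exact ⟨s, hs⟩
  have hli : LinearIndependent K (fun s => H (t s)) := by
    have h1 := hH T (by omega)
    exact h1.comp (fun s => (⟨t s, htT s⟩ : T)) (fun s s' h => ht (congrArg Subtype.val h))
  -- the additional form
  obtain ⟨ξ, hξ⟩ : ∃ ξ : Fin (n + 1) → K, ξ ∉ Submodule.span K (Set.range fun s => H (t s)) := by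
    by_contra hcon
    push Not at hcon
    have h1 : Submodule.span K (Set.range fun s => H (t s)) = ⊤ :=
      eq_top_iff.2 fun x _ => hcon x
    have h2 := finrank_span_eq_card hli
    rw [h1, finrank_top, Module.finrank_fin_fun, Fintype.card_fin] at h2
    omega
  have hli2 : LinearIndependent K (Fin.snoc (fun s => H (t s)) ξ : Fin (n + 1) → _) :=
    hli.finSnoc hξ
  have hdet : (Matrix.of (Fin.snoc (fun s => H (t s)) ξ : Fin (n + 1) → Fin (n + 1) → K)).det ≠
      0 := by
    have h2 := Matrix.linearIndependent_rows_iff_isUnit.1 (show LinearIndependent K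
      (Matrix.of (Fin.snoc (fun s => H (t s)) ξ : Fin (n + 1) → Fin (n + 1) → K)).row from hli2)
    exact ((Matrix.isUnit_iff_isUnit_det _).1 h2).ne_zero
  set A := Matrix.of (Fin.snoc (fun s => H (t s)) ξ : Fin (n + 1) → Fin (n + 1) → K) with hA
  set x₀ : Fin (n + 1) → K := A⁻¹.mulVec (Pi.single (Fin.last n) 1) with hx₀
  have hAx : A.mulVec x₀ = Pi.single (Fin.last n) 1 := by
    rw [hx₀, Matrix.mulVec_mulVec, Matrix.mul_nonsing_inv _ (Ne.isUnit hdet), Matrix.one_mulVec]
  have hx0 : x₀ ≠ 0 := by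
    intro h
    rw [h, Matrix.mulVec_zero] at hAx
    have := congrFun hAx (Fin.last n)
    simp at this
  have hT0 : ∀ i ∈ T, ∑ j, H i j * x₀ j = 0 := by
    intro i hi
    obtain ⟨s, rfl⟩ := htsurj i hi
    have h1 := congrFun hAx s.castSucc
    rw [Pi.single_eq_of_ne (Fin.castSucc_lt_last s).ne] at h1
    rw [← h1, hA, Matrix.mulVec, dotProduct]
    refine Finset.sum_congr rfl fun j _ => ?_
    rw [Matrix.of_apply, Fin.snoc_castSucc]
  refine ⟨ξ, x₀, hT0, ?_, hdet⟩
  intro i hi h0
  -- all forms of `insert i T` vanish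
  have h1 := hH (insert i T) (by
    rw [Finset.card_insert_of_notMem hi]
    omega)
  have h2 : Fintype.card ↥(insert i T) = n + 1 := by
    rw [Fintype.card_coe, Finset.card_insert_of_notMem hi, hT]
  let e : Fin (n + 1) ≃ ↥(insert i T) := (Fintype.equivFinOfCardEq h2).symm
  have h3 : LinearIndependent K (fun s => H (e s).1) := h1.comp e e.injective
  have h4 := Matrix.linearIndependent_rows_iff_isUnit.1 (show LinearIndependent K
    (Matrix.of fun s => H (e s).1).row from h3)
  have h5 := ((Matrix.isUnit_iff_isUnit_det _).1 h4).ne_zero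
  apply hx0
  refine Matrix.eq_zero_of_mulVec_eq_zero h5 ?_
  funext s
  rw [Matrix.mulVec, dotProduct, Pi.zero_apply]
  have h6 : ∀ l ∈ insert i T, ∑ j, H l j * x₀ j = 0 := by
    intro l hl
    rcases Finset.mem_insert.1 hl with rfl | hl
    · exact h0
    · exact hT0 l hl
  exact h6 _ (e s).2

/-- the rows of the determinant -/
noncomputable def rowp {n q : ℕ} (H : Fin q → Fin (n + 1) → K) (t r : Fin n → Fin q)
    (ξ : Fin (n + 1) → K) : Fin (n + 1) → Fin (n + 1) → MvPolynomial (Fin (n + 1)) K :=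
  Fin.snoc (fun s j => lfp (H (r s)) * C (H (t s) j) - lfp (H (t s)) * C (H (r s) j))
    (fun j => C (ξ j))

theorem det_eval {n q : ℕ} (H : Fin q → Fin (n + 1) → K) (t r : Fin n → Fin q)
    (ξ : Fin (n + 1) → K) {Ω : Type} [Field Ω] [Algebra K Ω] (x : Fin (n + 1) → Ω) :
    aeval x (Matrix.of (rowp H t r ξ)).det =
      (Matrix.of (Fin.snoc (fun s j =>
        (∑ l, algebraMap K Ω (H (r s) l) * x l) * algebraMap K Ω (H (t s) j) -
        (∑ l, algebraMap K Ω (H (t s) l) * x l) * algebraMap K Ω (H (r s) j))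
        (fun j => algebraMap K Ω (ξ j)) : Fin (n + 1) → Fin (n + 1) → Ω)).det := by
  have h1 := AlgHom.map_det (aeval x) (Matrix.of (rowp H t r ξ))
  rw [h1]
  congr 1
  ext s j
  refine Fin.lastCases ?_ (fun s => ?_) s
  · show aeval x (rowp H t r ξ (Fin.last n) j) = _
    unfold rowp
    rw [Fin.snoc_last, Matrix.of_apply, Fin.snoc_last, aeval_C]
  · show aeval x (rowp H t r ξ s.castSucc j) = _
    unfold rowp
    rw [Fin.snoc_castSucc, Matrix.of_apply, Fin.snoc_castSucc, map_sub, map_mul, map_mul,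
      aeval_lfp, aeval_lfp, aeval_C, aeval_C]

theorem det_ne {n q : ℕ} (H : Fin q → Fin (n + 1) → K) (hH : GP H) (t r : Fin n → Fin q)
    (ht : Function.Injective t) (htr : ∀ s s', r s ≠ t s') :
    ∃ ξ : Fin (n + 1) → K, (Matrix.of (rowp H t r ξ)).det ≠ 0 := by
  classical
  obtain ⟨ξ, x₀, h1, h2, h3⟩ := exists_vertex H hH (Finset.univ.image t) (by
    rw [Finset.card_image_of_injective _ ht, Finset.card_univ, Fintype.card_fin]) t ht
    (fun s => Finset.mem_image_of_mem _ (Finset.mem_univ _))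
  refine ⟨ξ, fun h0 => h3 ?_⟩
  have h4 := det_eval H t r ξ (Ω := K) x₀
  rw [h0, map_zero] at h4
  have h5 : (Matrix.of (Fin.snoc (fun s j =>
        (∑ l, algebraMap K K (H (r s) l) * x₀ l) * algebraMap K K (H (t s) j) -
        (∑ l, algebraMap K K (H (t s) l) * x₀ l) * algebraMap K K (H (r s) j))
        (fun j => algebraMap K K (ξ j)) : Fin (n + 1) → Fin (n + 1) → K)) =
      Matrix.of (fun s j => (Fin.snoc (fun s => ∑ l, H (r s) l * x₀ l) 1 : Fin (n + 1) → K) s *
        (Fin.snoc (fun s => H (t s)) ξ : Fin (n + 1) → Fin (n + 1) → K) s j) := by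
    ext s j
    refine Fin.lastCases ?_ (fun s => ?_) s
    · rw [Matrix.of_apply, Matrix.of_apply, Fin.snoc_last, Fin.snoc_last, Fin.snoc_last, one_mul]
      rfl
    · rw [Matrix.of_apply, Matrix.of_apply, Fin.snoc_castSucc, Fin.snoc_castSucc,
        Fin.snoc_castSucc]
      have h6 := h1 (t s) (Finset.mem_image_of_mem _ (Finset.mem_univ _))
      simp only [Algebra.algebraMap_self, RingHom.id_apply]
      rw [h6, zero_mul, sub_zero]
  rw [h5] at h4
  have h6 := Matrix.det_mul_column (Fin.snoc (fun s => ∑ l, H (r s) l * x₀ l) 1 : Fin (n + 1) → K)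
    (Matrix.of (Fin.snoc (fun s => H (t s)) ξ : Fin (n + 1) → Fin (n + 1) → K))
  have h7 : (Matrix.of fun i j => (Fin.snoc (fun s => ∑ l, H (r s) l * x₀ l) 1 :
      Fin (n + 1) → K) i * (Matrix.of (Fin.snoc (fun s => H (t s)) ξ :
        Fin (n + 1) → Fin (n + 1) → K)) i j).det = 0 := h4.symm
  rw [h6] at h7
  rcases mul_eq_zero.1 h7 with h8 | h8
  · exfalso
    rw [Finset.prod_eq_zero_iff] at h8
    obtain ⟨s, -, hs⟩ := h8
    revert hs
    refine Fin.lastCases ?_ (fun s => ?_) s
    · rw [Fin.snoc_last]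
      exact one_ne_zero
    · rw [Fin.snoc_castSucc]
      refine h2 (r s) fun hmem => ?_
      obtain ⟨s', -, hs'⟩ := Finset.mem_image.1 hmem
      exact htr s s' hs'.symm
  · exact h8

/-- **the exceptional hypersurface** -/
theorem mult_poly [Algebra.IsAlgebraic k K] {n q : ℕ} (H : Fin q → Fin (n + 1) → K) (hH : GP H) :
    ∃ G : MvPolynomial (Fin (n + 1)) k, G ≠ 0 ∧ ∀ (L : Type) [Field L] [Algebra k L]
      [Algebra.IsAlgebraic k L] (x : Fin (n + 1) → L), aeval x G ≠ 0 →
      ∀ (i j : Fin (n + 1)) (a b : Fin (n + 1) → k), a i = 1 → a j = 0 → b i = 0 → b j = 1 →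
      (∀ l, x l = algebraMap k L (a l) * x i + algebraMap k L (b l) * x j) →
      ∀ (T : Finset (Fin q)) (r : Fin q → Fin q), (∀ s ∈ T, r s ∉ T) →
      (∀ s ∈ T, (∑ l, H (r s) l * algebraMap k K (a l)) * (∑ l, H s l * algebraMap k K (b l)) =
        (∑ l, H s l * algebraMap k K (a l)) * (∑ l, H (r s) l * algebraMap k K (b l))) →
      T.card < n ∨ n = 0 ∧ T.card = 0 := by
  classical
  -- the polynomial over `K`
  have hex : ∀ tr : (Fin n → Fin q) × (Fin n → Fin q), ∃ G : MvPolynomial (Fin (n + 1)) k, G ≠ 0 ∧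
      (Function.Injective tr.1 → (∀ s s', tr.2 s ≠ tr.1 s') →
        ∃ ξ : Fin (n + 1) → K, (Matrix.of (rowp H tr.1 tr.2 ξ)).det ∣ G.map (algebraMap k K)) := by
    rintro ⟨t, r⟩
    by_cases h : Function.Injective t ∧ ∀ s s', r s ≠ t s'
    · obtain ⟨ξ, hξ⟩ := det_ne H hH t r h.1 h.2
      obtain ⟨G, hG, hdvd⟩ := MvPolynomial.exists_dvd_map_of_isAlgebraic (R := k) hξ
      exact ⟨G, hG, fun _ _ => ⟨ξ, hdvd⟩⟩
    · exact ⟨1, one_ne_zero, fun h1 h2 => absurd ⟨h1, h2⟩ h⟩
  choose G hG0 hG using hex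
  refine ⟨∏ tr, G tr, Finset.prod_ne_zero_iff.2 fun tr _ => hG0 tr, ?_⟩
  intro L _ _ _ x hx i j a b hai haj hbi hbj hline T r hrT hprop
  by_contra hcon
  push Not at hcon
  obtain ⟨hTn, hn0⟩ := hcon
  have hn : 0 < n := by
    by_contra h
    have hn' : n = 0 := by omega
    have h1 := hn0 hn'
    -- for `n = 0` the pivots agree
    subst hn'
    have hij : i = j := Fin.ext (by have := i.2; have := j.2; omega)
    rw [hij] at hai
    rw [hai] at haj
    exact one_ne_zero haj
  -- a subset with `n` elements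
  obtain ⟨T', hT'1, hT'2⟩ := Finset.exists_subset_card_eq hTn
  let e : Fin n ≃ T' := (Finset.equivFinOfCardEq hT'2).symm
  set t : Fin n → Fin q := fun s => (e s).1 with ht
  have htinj : Function.Injective t := fun s s' h => e.injective (Subtype.ext h)
  have htT : ∀ s, t s ∈ T := fun s => hT'1 (e s).2
  obtain ⟨ξ, hdvd⟩ := hG (t, fun s => r (t s)) htinj (fun s s' h => by
    apply hrT (t s) (htT s)
    rw [show r (t s) = t s' from h]
    exact htT s')
  -- a common field
  let Ω := AlgebraicClosure K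
  let φ : L →ₐ[k] Ω := IsAlgClosed.lift
  have h1 : aeval (fun l => φ (x l)) (∏ tr, G tr) ≠ 0 := by
    intro h
    apply hx
    apply φ.injective
    show φ (aeval x (∏ tr, G tr)) = φ 0
    rw [map_zero, ← h]
    exact (MvPolynomial.comp_aeval_apply x φ _)
  apply h1
  rw [map_prod]
  refine Finset.prod_eq_zero (Finset.mem_univ (t, fun s => r (t s))) ?_
  have h2 : aeval (fun l => φ (x l)) (G (t, fun s => r (t s))) =
      aeval (fun l => φ (x l)) ((G (t, fun s => r (t s))).map (algebraMap k K)) :=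
    (MvPolynomial.aeval_map_algebraMap K _ _).symm
  rw [h2]
  obtain ⟨Q, hQ⟩ := hdvd
  rw [hQ, map_mul, det_eval]
  refine mul_eq_zero_of_left ?_ _
  -- the kernel
  set α : Ω := φ (x i) with hα
  set β : Ω := φ (x j) with hβ
  have hφ : ∀ c : k, φ (algebraMap k L c) = algebraMap K Ω (algebraMap k K c) := by
    intro c
    rw [φ.commutes]
    exact IsScalarTower.algebraMap_apply k K Ω c
  set av' : Fin (n + 1) → Ω := fun l => algebraMap K Ω (algebraMap k K (a l)) with hav
  set bv' : Fin (n + 1) → Ω := fun l => algebraMap K Ω (algebraMap k K (b l)) with hbv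
  have hxl : ∀ l, φ (x l) = av' l * α + bv' l * β := by
    intro l
    rw [hline l, map_add, map_mul, map_mul, hφ, hφ]
  set ea : Fin q → Ω := fun s => ∑ l, algebraMap K Ω (H s l) * av' l with hea
  set eb : Fin q → Ω := fun s => ∑ l, algebraMap K Ω (H s l) * bv' l with heb
  have hev : ∀ s, ∑ l, algebraMap K Ω (H s l) * φ (x l) = α * ea s + β * eb s := by
    intro s
    rw [hea, heb]
    simp only
    rw [Finset.mul_sum, Finset.mul_sum, ← Finset.sum_add_distrib]
    refine Finset.sum_congr rfl fun l _ => ?_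
    rw [hxl l]
    ring
  have hpr : ∀ s ∈ T, ea (r s) * eb s = ea s * eb (r s) := by
    intro s hs
    have h3 := congrArg (algebraMap K Ω) (hprop s hs)
    rw [map_mul, map_mul, map_sum, map_sum, map_sum, map_sum] at h3
    simp only [map_mul] at h3
    exact h3
  -- a vector in the kernel
  have hker : ∀ (c : Fin (n + 1) → Ω) (ca cb : Ω), c = (fun l => ca * av' l + cb * bv' l) →
      (∑ l, algebraMap K Ω (ξ l) * c l = 0) → c ≠ 0 →
      (Matrix.of (Fin.snoc (fun s j =>
        (∑ l, algebraMap K Ω (H (r (t s)) l) * φ (x l)) * algebraMap K Ω (H (t s) j) -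
        (∑ l, algebraMap K Ω (H (t s) l) * φ (x l)) * algebraMap K Ω (H (r (t s)) j))
        (fun j => algebraMap K Ω (ξ j)) : Fin (n + 1) → Fin (n + 1) → Ω)).det = 0 := by
    intro c ca cb hc hξc hc0
    by_contra hdet
    apply hc0
    refine Matrix.eq_zero_of_mulVec_eq_zero hdet ?_
    funext s
    rw [Matrix.mulVec, dotProduct, Pi.zero_apply]
    refine Fin.lastCases ?_ (fun s => ?_) s
    · rw [← hξc]
      refine Finset.sum_congr rfl fun l _ => ?_
      rw [Matrix.of_apply, Fin.snoc_last]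
    · have h3 : ∑ l, (Matrix.of (Fin.snoc (fun s j =>
        (∑ l, algebraMap K Ω (H (r (t s)) l) * φ (x l)) * algebraMap K Ω (H (t s) j) -
        (∑ l, algebraMap K Ω (H (t s) l) * φ (x l)) * algebraMap K Ω (H (r (t s)) j))
        (fun j => algebraMap K Ω (ξ j)) : Fin (n + 1) → Fin (n + 1) → Ω)) s.castSucc l * c l =
        (∑ l, algebraMap K Ω (H (r (t s)) l) * φ (x l)) *
          (∑ l, algebraMap K Ω (H (t s) l) * c l) -
        (∑ l, algebraMap K Ω (H (t s) l) * φ (x l)) *
          (∑ l, algebraMap K Ω (H (r (t s)) l) * c l) := by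
        rw [Finset.mul_sum, Finset.mul_sum, ← Finset.sum_sub_distrib]
        refine Finset.sum_congr rfl fun l _ => ?_
        rw [Matrix.of_apply, Fin.snoc_castSucc]
        ring
      have h4 : ∀ u, ∑ l, algebraMap K Ω (H u l) * c l = ca * ea u + cb * eb u := by
        intro u
        rw [hc, hea, heb]
        simp only
        rw [Finset.mul_sum, Finset.mul_sum, ← Finset.sum_add_distrib]
        exact Finset.sum_congr rfl fun l _ => by ring
      rw [h3, hev, hev, h4, h4]
      linear_combination (α * cb - β * ca) * hpr (t s) (htT s)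
  set ξa : Ω := ∑ l, algebraMap K Ω (ξ l) * av' l with hξa
  set ξb : Ω := ∑ l, algebraMap K Ω (ξ l) * bv' l with hξb
  have hsum : ∀ ca cb : Ω, ∑ l, algebraMap K Ω (ξ l) * (ca * av' l + cb * bv' l) =
      ca * ξa + cb * ξb := by
    intro ca cb
    rw [hξa, hξb, Finset.mul_sum, Finset.mul_sum, ← Finset.sum_add_distrib]
    exact Finset.sum_congr rfl fun l _ => by ring
  have hvi : av' i = 1 := by rw [hav]; simp only; rw [hai, map_one, map_one]
  have hvj : av' j = 0 := by rw [hav]; simp only; rw [haj, map_zero, map_zero]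
  have hwi : bv' i = 0 := by rw [hbv]; simp only; rw [hbi, map_zero, map_zero]
  have hwj : bv' j = 1 := by rw [hbv]; simp only; rw [hbj, map_one, map_one]
  by_cases hξ0 : ξa = 0
  · refine hker _ 1 0 rfl (by rw [hsum, hξ0]; ring) ?_
    intro h
    have h3 := congrFun h i
    simp only [Pi.zero_apply] at h3
    rw [hvi, hwi] at h3
    simp at h3
  · refine hker _ ξb (-ξa) rfl (by rw [hsum]; ring) ?_
    intro h
    have h3 := congrFun h j
    simp only [Pi.zero_apply] at h3
    rw [hvj, hwj] at h3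
    simp only [mul_zero, mul_one, zero_add, neg_eq_zero] at h3
    exact hξ0 h3

end Pool.Agent.N750
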