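import Mathlib
import Pool.Agent.N750.Cmp

/-!
The discriminant of a pair of elements.
-/

set_option autoImplicit false
set_option linter.unusedSectionVars false

open Finset Filter Topology

namespace Pool.Agent.N750

open NumberField IsDedekindDomain Height Module
open Pool.Agent.W180.OP (Pl av wt nrm le_nrm nrm_pos wt_nonneg exists_nrm nrm_nonneg)

/-- the product over the pairs -/
theorem prod_pairs {G : Type} [CommMonoid G] (d : ℕ) (a : Fin d → G) :
    ∏ i, ∏ j ∈ Finset.Ioi i, (a i * a j) = ∏ i, a i ^ (d - 1) := by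
  have h1 : ∀ i : Fin d, ∏ j ∈ Finset.Ioi i, (a i * a j) =
      a i ^ (d - 1 - i.1) * ∏ j ∈ Finset.Ioi i, a j := by
    intro i
    rw [Finset.prod_mul_distrib, Finset.prod_const, Fin.card_Ioi]
  have h2 : ∏ i : Fin d, ∏ j ∈ Finset.Ioi i, a j = ∏ j : Fin d, a j ^ j.1 := by
    rw [Finset.prod_comm' (t' := Finset.univ) (s' := fun j => Finset.Iio j)]
    · refine Finset.prod_congr rfl fun j _ => ?_
      rw [Finset.prod_const, Fin.card_Iio]
    · intro i j
      simp
  rw [Finset.prod_congr rfl fun i _ => h1 i, Finset.prod_mul_distrib, h2,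
    ← Finset.prod_mul_distrib]
  refine Finset.prod_congr rfl fun i _ => ?_
  rw [← pow_add]
  congr 1
  have := i.2
  omega

variable {k L M : Type} [Field k] [NumberField k] [Field L] [NumberField L] [Algebra k L]
  [Field M] [NumberField M] [Algebra k M]

/-- the discriminant of a pair -/
noncomputable def Dd (k : Type) {L : Type} [Field k] [NumberField k] [Field L] [NumberField L]
    [Algebra k L] (d : ℕ) (α β : L) : k :=
  Algebra.discr k (fun j : Fin d => β ^ j.1 * α ^ j.rev.1)

theorem Dd_closed (Ω : Type) [Field Ω] [Algebra k Ω] [IsAlgClosed Ω] {d : ℕ}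
    (e : Fin d ≃ (L →ₐ[k] Ω)) (α β : L) :
    algebraMap k Ω (Dd k d α β) =
      (∏ i, ∏ j ∈ Finset.Ioi i, (e j β * e i α - e i β * e j α)) ^ 2 := by
  classical
  unfold Dd
  rw [Algebra.discr_eq_det_embeddingsMatrixReindex_pow_two k Ω _ e]
  congr 1
  rw [← Matrix.det_projVandermonde, ← Matrix.det_transpose]
  congr 1
  ext i j
  rw [Matrix.transpose_apply, Matrix.projVandermonde_apply]
  show e i (β ^ j.1 * α ^ j.rev.1) = _
  rw [map_mul, map_pow, map_pow]

theorem Dd_full [IsGalois k M] (hM : Nonempty (L →ₐ[k] M)) {d : ℕ} (e : Fin d ≃ (L →ₐ[k] M))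
    (α β : L) :
    algebraMap k M (Dd k d α β) =
      (∏ i, ∏ j ∈ Finset.Ioi i, (e j β * e i α - e i β * e j α)) ^ 2 := by
  classical
  let ι : M →ₐ[k] AlgebraicClosure M := IsScalarTower.toAlgHom k M (AlgebraicClosure M)
  have h1 : Function.Injective (fun σ : L →ₐ[k] M => ι.comp σ) := by
    intro σ τ h
    ext x
    apply ι.injective
    exact congrArg (fun f : L →ₐ[k] AlgebraicClosure M => f x) h
  have h2 : Function.Bijective (fun σ : L →ₐ[k] M => ι.comp σ) := by
    rw [Fintype.bijective_iff_injective_and_card]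
    exact ⟨h1, by rw [(full_gal k L M hM).1, AlgHom.card]⟩
  let e' : Fin d ≃ (L →ₐ[k] AlgebraicClosure M) := e.trans (Equiv.ofBijective _ h2)
  have h3 := Dd_closed (AlgebraicClosure M) e' α β
  apply ι.injective
  show ι (algebraMap k M (Dd k d α β)) =
    ι ((∏ i, ∏ j ∈ Finset.Ioi i, (e j β * e i α - e i β * e j α)) ^ 2)
  rw [ι.commutes, h3, map_pow, map_prod]
  congr 1
  refine Finset.prod_congr rfl fun i _ => ?_
  rw [map_prod]
  refine Finset.prod_congr rfl fun j _ => ?_
  rw [map_sub, map_mul, map_mul]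
  rfl

/-- invariance -/
theorem Dd_shift {d : ℕ} (hd : finrank k L = d) (α β c : L) (hc : ∃ c' : k, c = algebraMap k L c') :
    Dd k d (α + c * β) β = Dd k d α β := by
  classical
  obtain ⟨c', rfl⟩ := hc
  let Ω := AlgebraicClosure k
  have e : Fin d ≃ (L →ₐ[k] Ω) := by
    refine Fintype.equivOfCardEq ?_
    rw [Fintype.card_fin, AlgHom.card, hd]
  apply (algebraMap k Ω).injective
  rw [Dd_closed Ω e, Dd_closed Ω e]
  congr 1
  refine Finset.prod_congr rfl fun i _ => Finset.prod_congr rfl fun j _ => ?_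
  rw [map_add, map_add, map_mul, map_mul, AlgHom.commutes, AlgHom.commutes]
  ring

/-- generators -/
theorem gen_of_Dd {d : ℕ} (hd : finrank k L = d) (α β θ : L) (hD : Dd k d α β ≠ 0)
    (hθ : ∃ c : k, c ≠ 0 ∧ θ * α = algebraMap k L c * β) : Algebra.adjoin k {θ} = ⊤ := by
  classical
  obtain ⟨c, hc, hθ⟩ := hθ
  let Ω := AlgebraicClosure k
  let e : Fin d ≃ (L →ₐ[k] Ω) := Fintype.equivOfCardEq (by
    rw [Fintype.card_fin, AlgHom.card, hd])
  have hne : ∀ σ τ : L →ₐ[k] Ω, σ ≠ τ → σ β * τ α - τ β * σ α ≠ 0 := by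
    intro σ τ hστ h0
    apply hD
    apply (algebraMap k Ω).injective
    rw [Dd_closed Ω e, map_zero]
    have h1 : e.symm σ ≠ e.symm τ := fun h => hστ (e.symm.injective h)
    rcases lt_or_gt_of_ne h1 with h | h
    · have h2 : ∏ i, ∏ j ∈ Finset.Ioi i, (e j β * e i α - e i β * e j α) = 0 := by
        refine Finset.prod_eq_zero (Finset.mem_univ (e.symm σ)) ?_
        refine Finset.prod_eq_zero (Finset.mem_Ioi.2 h) ?_
        rw [Equiv.apply_symm_apply, Equiv.apply_symm_apply]
        linear_combination -h0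
      rw [h2]
      exact zero_pow two_ne_zero
    · have h2 : ∏ i, ∏ j ∈ Finset.Ioi i, (e j β * e i α - e i β * e j α) = 0 := by
        refine Finset.prod_eq_zero (Finset.mem_univ (e.symm τ)) ?_
        refine Finset.prod_eq_zero (Finset.mem_Ioi.2 h) ?_
        rw [Equiv.apply_symm_apply, Equiv.apply_symm_apply]
        exact h0
      rw [h2]
      exact zero_pow two_ne_zero
  have hinj : ∀ σ τ : L →ₐ[k] Ω, σ θ = τ θ → σ = τ := by
    intro σ τ h
    by_contra hστ
    apply hne σ τ hστ
    have h1 := congrArg σ hθ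
    have h2 := congrArg τ hθ
    rw [map_mul, map_mul, AlgHom.commutes] at h1 h2
    have hcΩ : algebraMap k Ω c ≠ 0 := (map_ne_zero _).2 hc
    have h3 : algebraMap k Ω c * (σ β * τ α - τ β * σ α) = 0 := by
      rw [h] at h1
      linear_combination -(τ α) * h1 + (σ α) * h2
    exact (mul_eq_zero.1 h3).resolve_left hcΩ
  have φ : L →ₐ[k] Ω := Classical.choice (by
    have : 0 < Fintype.card (L →ₐ[k] Ω) := by
      rw [AlgHom.card]
      exact finrank_pos
    exact Fintype.card_pos_iff.1 this)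
  have h1 := (Field.primitive_element_iff_algHom_eq_of_eval' k Ω
    (fun x => IsAlgClosed.splits _) θ).2 (fun σ τ h => hinj σ τ h)
  have h2 := congrArg IntermediateField.toSubalgebra h1
  rw [IntermediateField.adjoin_simple_toSubalgebra_of_isAlgebraic
    (Algebra.IsAlgebraic.isAlgebraic θ)] at h2
  rw [h2]
  rfl

end Pool.Agent.N750
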