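import Mathlib
import Pool.Agent.N750.Dsc

/-!
The local inequality for the discriminant of a pair.
-/

set_option autoImplicit false
set_option linter.unusedSectionVars false

open Finset Filter Topology

namespace Pool.Agent.N750

open NumberField IsDedekindDomain Height Module
open Pool.Agent.W180.OP (Pl av wt nrm le_nrm nrm_pos wt_nonneg exists_nrm nrm_nonneg)

variable {k L M : Type} [Field k] [NumberField k] [Field L] [NumberField L] [Algebra k L]
  [Field M] [NumberField M] [Algebra k M]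

theorem log_absNorm_pos (v : HeightOneSpectrum (𝓞 k)) : 0 < Real.log (Ideal.absNorm v.asIdeal) :=
  Real.log_pos (by exact_mod_cast NumberField.HeightOneSpectrum.one_lt_absNorm v)

theorem mem_ab_inr (v : HeightOneSpectrum (𝓞 k)) (w : HeightOneSpectrum (𝓞 L)) :
    (Sum.inr w : Pl L) ∈ ab L (Sum.inr v : Pl k) ↔ w.asIdeal.LiesOver v.asIdeal := by
  unfold ab
  rw [Finset.mem_map]
  constructor
  · rintro ⟨w', h, h2⟩
    have := Sum.inr_injective h2
    subst this
    rw [Set.Finite.mem_toFinset] at h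
    exact h
  · intro h
    exact ⟨w, (Set.Finite.mem_toFinset _).2 h, rfl⟩

theorem exists_of_mem_ab {v : HeightOneSpectrum (𝓞 k)} {w : Pl L} (h : w ∈ ab L (Sum.inr v : Pl k)) :
    ∃ w' : HeightOneSpectrum (𝓞 L), w = Sum.inr w' ∧ w'.asIdeal.LiesOver v.asIdeal := by
  unfold ab at h
  rw [Finset.mem_map] at h
  obtain ⟨w', h, h2⟩ := h
  rw [Set.Finite.mem_toFinset] at h
  exact ⟨w', h2.symm, h⟩

/-- denominators prime to a prime -/
theorem exists_den1 (w : HeightOneSpectrum (𝓞 L)) (θ : L) (h : av (Sum.inr w : Pl L) θ ≤ 1) :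
    ∃ b : 𝓞 L, b ∉ w.asIdeal ∧ ∃ t : 𝓞 L, (t : L) = (b : L) * θ := by
  obtain ⟨u, c, hc, hθ⟩ := IsFractionRing.div_surjective (𝓞 L) θ
  have hc0 : c ≠ 0 := nonZeroDivisors.ne_zero hc
  have hcL : (c : L) ≠ 0 := fun h => hc0 (RingOfIntegers.coe_eq_zero_iff.1 h)
  have hθc : (u : L) = θ * (c : L) := by
    rw [← hθ]
    exact (div_mul_cancel₀ _ hcL).symm
  have hcs : Ideal.span {c} ≠ (⊥ : Ideal (𝓞 L)) := mt Submodule.span_singleton_eq_bot.mp hc0
  by_cases hu0 : u = 0
  · refine ⟨1, (Ideal.ne_top_iff_one _).1 w.isPrime.ne_top, 0, ?_⟩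
    rw [hu0] at hθc
    have h1 : θ = 0 := by
      rcases mul_eq_zero.1 (hθc.symm.trans (map_zero _)) with h | h
      · exact h
      · exact absurd h hcL
    rw [h1, mul_zero]
    exact map_zero _
  have hus : Ideal.span {u} ≠ (⊥ : Ideal (𝓞 L)) := mt Submodule.span_singleton_eq_bot.mp hu0
  have huL : (u : L) ≠ 0 := fun h => hu0 (RingOfIntegers.coe_eq_zero_iff.1 h)
  have hmu : mu w (Ideal.span {c}) ≤ mu w (Ideal.span {u}) := by
    have h1 : av (Sum.inr w : Pl L) (u : L) ≤ av (Sum.inr w : Pl L) (c : L) := by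
      rw [hθc, map_mul]
      exact mul_le_of_le_one_left ((av _).nonneg _) h
    have h2 := Real.log_le_log ((av _).pos_iff.2 huL) h1
    rw [log_fin w u hu0, log_fin w c hc0, neg_le_neg_iff] at h2
    exact_mod_cast le_of_mul_le_mul_right h2 (log_absNorm_pos w)
  obtain ⟨𝔠, h1, h2⟩ := (mu_fin w hcs).exists_eq_pow_mul_and_not_dvd
  have h3 : ¬ 𝔠 ≤ w.asIdeal := fun h => h2 (Ideal.dvd_iff_le.2 h)
  obtain ⟨b, hb, hbw⟩ := SetLike.not_le_iff_exists.1 h3
  refine ⟨b, hbw, ?_⟩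
  have h4 : u ∈ w.asIdeal ^ multiplicity w.asIdeal (Ideal.span {c}) := by
    have h5 : w.asIdeal ^ mu w (Ideal.span {u}) ∣ Ideal.span {u} := pow_multiplicity_dvd _ _
    have h6 := Ideal.dvd_iff_le.1 ((pow_dvd_pow w.asIdeal hmu).trans h5)
    exact h6 (Ideal.mem_span_singleton_self u)
  have h5 : u * b ∈ Ideal.span {c} := by
    rw [h1]
    exact Ideal.mul_mem_mul h4 hb
  obtain ⟨t, ht⟩ := Ideal.mem_span_singleton'.1 h5
  refine ⟨t, ?_⟩
  have h6 : (t : L) * (c : L) = (u : L) * (b : L) := by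
    have := congrArg (fun z : 𝓞 L => (z : L)) ht
    simpa using this
  have h7 : (t : L) * (c : L) = ((b : L) * θ) * (c : L) := by
    rw [h6, hθc]
    ring
  exact mul_right_cancel₀ hcL h7

theorem exists_den (v : HeightOneSpectrum (𝓞 k)) (θ : L)
    (h : ∀ w ∈ ab L (Sum.inr v : Pl k), av w θ ≤ 1) :
    ∃ s : 𝓞 k, s ∉ v.asIdeal ∧ ∃ t : 𝓞 L, (t : L) = algebraMap k L (s : k) * θ := by
  let 𝔟 : Ideal (𝓞 L) :=
    { carrier := {b | ∃ t : 𝓞 L, (t : L) = (b : L) * θ}
      add_mem' := by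
        rintro a b ⟨t, ht⟩ ⟨t', ht'⟩
        have e1 : ((t + t' : 𝓞 L) : L) = (t : L) + (t' : L) := map_add _ _ _
        have e2 : ((a + b : 𝓞 L) : L) = (a : L) + (b : L) := map_add _ _ _
        exact ⟨t + t', by rw [e1, e2, ht, ht', add_mul]⟩
      zero_mem' := ⟨0, by
        have e1 : ((0 : 𝓞 L) : L) = 0 := map_zero _
        rw [e1, zero_mul]⟩
      smul_mem' := by
        rintro c a ⟨t, ht⟩
        have e1 : ((c * t : 𝓞 L) : L) = (c : L) * (t : L) := map_mul _ _ _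
        have e2 : ((c * a : 𝓞 L) : L) = (c : L) * (a : L) := map_mul _ _ _
        exact ⟨c * t, by rw [smul_eq_mul, e1, e2, ht, mul_assoc]⟩ }
  by_contra hcon
  push Not at hcon
  have h1 : 𝔟.comap (algebraMap (𝓞 k) (𝓞 L)) ≤ v.asIdeal := by
    intro s hs
    by_contra hsv
    obtain ⟨t, ht⟩ := hs
    exact hcon s hsv t ht
  obtain ⟨Q, hQ1, hQ2, hQ3⟩ := Ideal.exists_ideal_over_prime_of_isIntegral v.asIdeal 𝔟 h1
  have hQ0 : Q ≠ ⊥ := by
    rintro rfl
    apply v.ne_bot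
    rw [← hQ3]
    exact Ideal.comap_bot_of_injective _ (FaithfulSMul.algebraMap_injective _ _)
  let w : HeightOneSpectrum (𝓞 L) := ⟨Q, hQ2, hQ0⟩
  have hw : w.asIdeal.LiesOver v.asIdeal := ⟨hQ3.symm⟩
  obtain ⟨b, hb, t, ht⟩ := exists_den1 w θ (h _ ((mem_ab_inr v w).2 hw))
  exact hb (hQ1 ⟨t, ht⟩)

theorem ab_inr_nonempty (v : HeightOneSpectrum (𝓞 k)) : (ab L (Sum.inr v : Pl k)).Nonempty := by
  obtain ⟨Q, hQ⟩ := Pool.Agent.R405.exists_over (K := L) v
  exact ⟨Sum.inr Q, (mem_ab_inr v Q).2 (Pool.Agent.TeamU.liesOver_of_over hQ)⟩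

/-- elements outside the prime -/
theorem av_not_mem (v : HeightOneSpectrum (𝓞 k)) (s : 𝓞 k) (h : s ∉ v.asIdeal) :
    av (Sum.inr v : Pl k) (s : k) = 1 := by
  have hs0 : s ≠ 0 := by
    rintro rfl
    exact h (zero_mem _)
  have h1 := log_fin v s hs0
  have h2 : mu v (Ideal.span {s}) = 0 := by
    unfold mu
    refine multiplicity_eq_zero.2 fun hd => h ?_
    exact (Ideal.dvd_iff_le.1 hd) (Ideal.mem_span_singleton_self s)
  rw [h2, Nat.cast_zero, zero_mul, neg_zero] at h1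
  have hsk : (s : k) ≠ 0 := fun h => hs0 (RingOfIntegers.coe_eq_zero_iff.1 h)
  have h3 : 0 < av (Sum.inr v : Pl k) (s : k) := (av _).pos_iff.2 hsk
  exact Real.eq_one_of_pos_of_log_eq_zero h3 h1

theorem prod_pairs_sq {G : Type} [CommMonoid G] (d : ℕ) (a : Fin d → G) :
    (∏ i, ∏ j ∈ Finset.Ioi i, (a i * a j)) ^ 2 = (∏ i, a i) ^ (2 * (d - 1)) := by
  rw [prod_pairs, Finset.prod_pow, ← pow_mul, mul_comm]

theorem prod_pairs_const {G : Type} [CommMonoid G] (d : ℕ) (c : G) :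
    (∏ i : Fin d, ∏ _j ∈ Finset.Ioi i, c) ^ 2 = c ^ (d * (d - 1)) := by
  have h1 := prod_pairs d (fun _ => c)
  rw [Finset.prod_const, Finset.card_univ, Fintype.card_fin, ← pow_mul] at h1
  rw [mul_comm d, ← h1, ← Finset.prod_pow]
  refine Finset.prod_congr rfl fun i _ => ?_
  rw [← Finset.prod_pow]
  exact Finset.prod_congr rfl fun j _ => pow_two c

/-- **the local inequality for the discriminant of a pair** -/
theorem disc_local (d : ℕ) (hd2 : 2 ≤ d) : ∃ Δ : ℕ, 1 ≤ Δ ∧ ∀ (k L : Type) [Field k]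
    [NumberField k] [Field L] [NumberField L] [Algebra k L], finrank k L = d →
    ∀ (v : HeightOneSpectrum (𝓞 k)) (α β : L), Dd k d α β ≠ 0 → ∀ N : Pl L → ℝ,
    (∀ w ∈ ab L (Sum.inr v : Pl k), av w α ≤ N w ∧ av w β ≤ N w) →
    Real.log (av (Sum.inr v : Pl k) (Dd k d α β)) +
      (d * (d - 1) : ℕ) * Real.log (av (Sum.inr v : Pl k) (Δ : k)) +
      mu v (Ideal.relNorm (𝓞 k) (differentIdeal (𝓞 k) (𝓞 L))) *
        Real.log (Ideal.absNorm v.asIdeal) ≤
      (2 * (d - 1) : ℕ) * ∑ w ∈ ab L (Sum.inr v : Pl k), wt w * Real.log (N w) := by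
  classical
  obtain ⟨C1, Δ, hC1, hΔ, hpig⟩ := pig 2 d (by norm_num)
  refine ⟨Δ, hΔ, ?_⟩
  intro k L _ _ _ _ _ hd v α β hD N hN
  have hΔL : (Δ : L) ≠ 0 := by
    have : Δ ≠ 0 := by omega
    exact_mod_cast this
  have hΔk : (Δ : k) ≠ 0 := by
    have : Δ ≠ 0 := by omega
    exact_mod_cast this
  -- one of the elements is different from zero
  let Ω := AlgebraicClosure k
  let e : Fin d ≃ (L →ₐ[k] Ω) := Fintype.equivOfCardEq (by
    rw [Fintype.card_fin, AlgHom.card, hd])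
  have hαβ : (![α, β] : Fin 2 → L) ≠ 0 := by
    intro h
    have h1 : α = 0 := congrFun h 0
    have h2 : β = 0 := congrFun h 1
    apply hD
    apply (algebraMap k Ω).injective
    rw [Dd_closed Ω e, map_zero, h1, h2]
    have h3 : ∏ i : Fin d, ∏ j ∈ Finset.Ioi i, (e j (0 : L) * e i (0 : L) - e i (0 : L) * e j (0 : L)) =
        0 := by
      refine Finset.prod_eq_zero (Finset.mem_univ (⟨0, by omega⟩ : Fin d)) ?_
      refine Finset.prod_eq_zero (i := (⟨1, by omega⟩ : Fin d)) (Finset.mem_Ioi.2 ?_) ?_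
      · rw [Fin.lt_def]
        exact Nat.zero_lt_one
      · rw [map_zero, map_zero, mul_zero, sub_zero]
    rw [h3]
    exact zero_pow two_ne_zero
  -- the choice of the integer
  let bad : Pl L → Finset ℕ := fun w => (Finset.range (d + 1)).filter fun m : ℕ =>
    cst C1 w * av w (∑ j : Fin 2, (![α, β] : Fin 2 → L) j * (m : L) ^ j.1) <
      av w (Δ : L) * nrm (av w) ![α, β]
  have hbad : ∀ w, (bad w).card ≤ 1 := fun w => Nat.lt_succ_iff.1 (hpig L w ![α, β])
  have hex : ∃ m ∈ Finset.range (d + 1), m ∉ (ab L (Sum.inr v : Pl k)).biUnion bad := by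
    by_contra hcon
    push Not at hcon
    have h1 := Finset.card_le_card (show Finset.range (d + 1) ⊆
      (ab L (Sum.inr v : Pl k)).biUnion bad from hcon)
    have h3 : ((ab L (Sum.inr v : Pl k)).biUnion bad).card ≤ (ab L (Sum.inr v : Pl k)).card * 1 :=
      Finset.card_biUnion_le_card_mul _ _ _ fun w _ => hbad w
    have h4 := ab_card (L := L) (Sum.inr v : Pl k)
    rw [Finset.card_range] at h1
    omega
  obtain ⟨m, hm, hmn⟩ := hex
  set α' : L := α + (m : L) * β with hα'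
  have hgood : ∀ w ∈ ab L (Sum.inr v : Pl k), av w (Δ : L) * nrm (av w) ![α, β] ≤ av w α' := by
    intro w hw
    by_contra hcon
    push Not at hcon
    refine hmn (Finset.mem_biUnion.2 ⟨w, hw, Finset.mem_filter.2 ⟨hm, ?_⟩⟩)
    have h1 : ∑ j : Fin 2, (![α, β] : Fin 2 → L) j * (m : L) ^ j.1 = α' := by
      rw [Fin.sum_univ_two, hα']
      simp
      ring
    rw [h1]
    obtain ⟨w', rfl, -⟩ := exists_of_mem_ab hw
    show 1 * _ < _
    rw [one_mul]
    exact hcon
  have hα'0 : α' ≠ 0 := by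
    intro h
    obtain ⟨w, hw⟩ := ab_inr_nonempty (L := L) v
    have h1 := hgood w hw
    rw [h, map_zero] at h1
    have h2 := mul_pos ((av w).pos_iff.2 hΔL) (nrm_pos (av w) hαβ)
    linarith
  -- the quotient
  obtain ⟨s, hs, t, ht⟩ := exists_den v ((Δ : L) * β / α') (by
    intro w hw
    rw [map_div₀, map_mul, div_le_one ((av w).pos_iff.2 hα'0)]
    refine le_trans (mul_le_mul_of_nonneg_left (le_nrm (av w) ![α, β] 1) ((av w).nonneg _))
      (hgood w hw))
  have hsv := av_not_mem v s hs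
  have hs0 : (s : k) ≠ 0 := by
    intro h
    rw [h, map_zero] at hsv
    exact zero_ne_one hsv
  set c : k := (s : k) * (Δ : k) with hc
  have hc0 : c ≠ 0 := mul_ne_zero hs0 hΔk
  have htα : (t : L) * α' = algebraMap k L c * β := by
    rw [ht, hc, map_mul, map_natCast]
    field_simp
  have hDα' : Dd k d α' β = Dd k d α β := Dd_shift hd α β (m : L) ⟨(m : k), by rw [map_natCast]⟩
  have hgen : Algebra.adjoin k {(t : L)} = ⊤ :=
    gen_of_Dd hd α' β t (by rw [hDα']; exact hD) ⟨c, hc0, htα⟩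
  -- the power basis
  have htint : IsIntegral k (t : L) := Algebra.IsIntegral.isIntegral _
  let pb : PowerBasis k L := PowerBasis.ofAdjoinEqTop' htint hgen
  have hpg : pb.gen = (t : L) := PowerBasis.ofAdjoinEqTop'_gen htint hgen
  have hpd : pb.dim = d := by
    rw [← hd]
    exact pb.finrank.symm
  clear_value pb
  subst hpd
  have hdisc := Algebra.discr_powerBasis_eq_prod k Ω pb e
  have hnorm := Algebra.discr_powerBasis_eq_norm k pb
  rw [hpg] at hdisc hnorm
  -- the identity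
  have hid : Algebra.norm k α' ^ (2 * (pb.dim - 1)) * Algebra.discr k pb.basis =
      c ^ (pb.dim * (pb.dim - 1)) * Dd k pb.dim α β := by
    apply (algebraMap k Ω).injective
    rw [← hDα', map_mul, map_mul, map_pow, map_pow, Dd_closed Ω e, hdisc,
      (full_closed k L Ω).2 α']
    have h1 : ∏ σ : L →ₐ[k] Ω, σ α' = ∏ i, e i α' :=
      (Equiv.prod_comp e (fun σ : L →ₐ[k] Ω => σ α')).symm
    have h2 : ∏ i : Fin pb.dim, ∏ j ∈ Finset.Ioi i, (e j (t : L) - e i (t : L)) ^ 2 =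
        (∏ i : Fin pb.dim, ∏ j ∈ Finset.Ioi i, (e j (t : L) - e i (t : L))) ^ 2 := by
      rw [← Finset.prod_pow]
      exact Finset.prod_congr rfl fun i _ => Finset.prod_pow _ _ _
    rw [h1, h2, ← prod_pairs_sq, ← prod_pairs_const, ← mul_pow, ← mul_pow]
    congr 1
    rw [← Finset.prod_mul_distrib, ← Finset.prod_mul_distrib]
    refine Finset.prod_congr rfl fun i _ => ?_
    rw [← Finset.prod_mul_distrib, ← Finset.prod_mul_distrib]
    refine Finset.prod_congr rfl fun j _ => ?_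
    have h3 := congrArg (e i) htα
    have h4 := congrArg (e j) htα
    rw [map_mul, map_mul, AlgHom.commutes] at h3 h4
    linear_combination (e i α') * h4 - (e j α') * h3
  have hdisc0 : Algebra.discr k pb.basis ≠ 0 := by
    intro h
    rw [h, mul_zero] at hid
    rcases mul_eq_zero.1 hid.symm with h1 | h1
    · exact pow_ne_zero _ hc0 h1
    · exact hD h1
  -- the different
  set z : 𝓞 L := Polynomial.aeval t (Polynomial.derivative (minpoly (𝓞 k) t)) with hz
  have hzmem : z ∈ differentIdeal (𝓞 k) (𝓞 L) :=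
    aeval_derivative_mem_differentIdeal (𝓞 k) k L t hgen
  have hzL : (z : L) = Polynomial.aeval (t : L) (Polynomial.derivative (minpoly k (t : L))) := by
    have h1 : minpoly k (t : L) = (minpoly (𝓞 k) t).map (algebraMap (𝓞 k) k) :=
      minpoly.isIntegrallyClosed_eq_field_fractions k L (Algebra.IsIntegral.isIntegral _)
    rw [h1, Polynomial.derivative_map, Polynomial.aeval_map_algebraMap, hz]
    exact (Polynomial.aeval_algebraMap_apply L t
      (Polynomial.derivative (minpoly (𝓞 k) t))).symm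
  rw [← hzL] at hnorm
  have hNz : av (Sum.inr v : Pl k) (Algebra.discr k pb.basis) =
      av (Sum.inr v : Pl k) (Algebra.norm k (z : L)) := by
    rw [hnorm, map_mul, map_pow, AbsoluteValue.map_neg, map_one, one_pow, one_mul]
  have hNz0 : Algebra.norm k (z : L) ≠ 0 := by
    intro h
    rw [h, mul_zero] at hnorm
    exact hdisc0 hnorm
  have hint : ((Algebra.intNorm (𝓞 k) (𝓞 L) z : 𝓞 k) : k) = Algebra.norm k (z : L) :=
    Algebra.algebraMap_intNorm z
  have hint0 : Algebra.intNorm (𝓞 k) (𝓞 L) z ≠ 0 := by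
    intro h
    rw [h] at hint
    exact hNz0 (hint.symm.trans (map_zero _))
  have hmem : Algebra.intNorm (𝓞 k) (𝓞 L) z ∈
      Ideal.relNorm (𝓞 k) (differentIdeal (𝓞 k) (𝓞 L)) := Ideal.intNorm_mem_spanNorm (𝓞 k) hzmem
  have hspan : Ideal.span {Algebra.intNorm (𝓞 k) (𝓞 L) z} ≠ (⊥ : Ideal (𝓞 k)) :=
    mt Submodule.span_singleton_eq_bot.mp hint0
  have hmu : mu v (Ideal.relNorm (𝓞 k) (differentIdeal (𝓞 k) (𝓞 L))) ≤
      mu v (Ideal.span {Algebra.intNorm (𝓞 k) (𝓞 L) z}) := by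
    have h1 : Ideal.relNorm (𝓞 k) (differentIdeal (𝓞 k) (𝓞 L)) ∣
        Ideal.span {Algebra.intNorm (𝓞 k) (𝓞 L) z} := by
      rw [Ideal.dvd_iff_le, Ideal.span_singleton_le_iff_mem]
      exact hmem
    have h2 : v.asIdeal ^ mu v (Ideal.relNorm (𝓞 k) (differentIdeal (𝓞 k) (𝓞 L))) ∣
        Ideal.span {Algebra.intNorm (𝓞 k) (𝓞 L) z} := (pow_multiplicity_dvd _ _).trans h1
    exact (mu_fin v hspan).le_multiplicity_of_pow_dvd h2
  have hlogdisc : Real.log (av (Sum.inr v : Pl k) (Algebra.discr k pb.basis)) ≤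
      -(mu v (Ideal.relNorm (𝓞 k) (differentIdeal (𝓞 k) (𝓞 L))) *
        Real.log (Ideal.absNorm v.asIdeal)) := by
    rw [hNz, ← hint, log_fin v _ hint0, neg_le_neg_iff]
    refine mul_le_mul_of_nonneg_right ?_ (log_absNorm_pos v).le
    exact_mod_cast hmu
  -- conclusion
  have hNα' : Algebra.norm k α' ≠ 0 := Algebra.norm_ne_zero_iff.2 hα'0
  have h1 := congrArg (fun x => Real.log (av (Sum.inr v : Pl k) x)) hid
  simp only [map_mul, map_pow] at h1
  rw [Real.log_mul (pow_ne_zero _ ((av _).pos_iff.2 hNα').ne') ((av _).pos_iff.2 hdisc0).ne',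
    Real.log_mul (pow_ne_zero _ ((av _).pos_iff.2 hc0).ne') ((av _).pos_iff.2 hD).ne',
    Real.log_pow, Real.log_pow, hc, map_mul, hsv, one_mul] at h1
  have h2 := nf (Sum.inr v : Pl k) α' hα'0
  have h3 : wt (Sum.inr v : Pl k) = 1 := rfl
  rw [h3, one_mul] at h2
  have h4 : ∑ w ∈ ab L (Sum.inr v : Pl k), wt w * Real.log (av w α') ≤
      ∑ w ∈ ab L (Sum.inr v : Pl k), wt w * Real.log (N w) := by
    refine Finset.sum_le_sum fun w hw => mul_le_mul_of_nonneg_left ?_ (wt_nonneg w)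
    refine Real.log_le_log ((av w).pos_iff.2 hα'0) ?_
    obtain ⟨h5, h6⟩ := hN w hw
    obtain ⟨w', rfl, -⟩ := exists_of_mem_ab hw
    refine (fin_add_le w' α ((m : L) * β)).trans (max_le h5 ?_)
    rw [map_mul]
    have h7 := av_int w' (m : ℤ)
    rw [Int.cast_natCast] at h7
    exact (mul_le_of_le_one_left ((av _).nonneg _) h7).trans h6
  rw [h2] at h4
  have h5 := mul_le_mul_of_nonneg_left h4 (Nat.cast_nonneg (α := ℝ) (2 * (pb.dim - 1)))
  linarith

end Pool.Agent.N750
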