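import Mathlib
import Pool.Agent.N750.LocD

/-!
The inequality for the discriminant of a pair at an infinite place.
-/

set_option autoImplicit false
set_option linter.unusedSectionVars false

open Finset Filter Topology

namespace Pool.Agent.N750

open NumberField IsDedekindDomain Height Module
open Pool.Agent.W180.OP (Pl av wt nrm le_nrm nrm_pos wt_nonneg exists_nrm nrm_nonneg)

/-- linear combinations with integral coefficients -/
def Comb {L : Type} [Field L] (A : ℕ) {N : ℕ} (x : Fin N → L) (α : L) : Prop :=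
  ∃ a : Fin N → ℕ, (∀ i, a i ≤ A) ∧ α = ∑ i, (a i : L) * x i

theorem Comb.le {L : Type} [Field L] [NumberField L] {A N : ℕ} {x : Fin N → L} {α : L}
    (h : Comb A x α) (p : Pl L) : av p α ≤ cst (N * A) p * nrm (av p) x := by
  obtain ⟨a, ha, rfl⟩ := h
  have h1 := av_sum p Finset.univ (fun i => (a i : L) * x i) (cst A p * nrm (av p) x)
    (mul_nonneg (by rcases p with w | v; exact Nat.cast_nonneg _; exact zero_le_one)
      (nrm_nonneg _ _)) (fun i _ => by
      rw [map_mul]
      refine mul_le_mul ?_ (le_nrm (av p) x i) ((av p).nonneg _)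
        (by rcases p with w | v; exact Nat.cast_nonneg _; exact zero_le_one)
      have e2 := av_int_le p (a i : ℤ) A (by
        push_cast
        rw [Nat.abs_cast]
        exact_mod_cast ha i)
      push_cast at e2
      exact e2) N (by rw [Finset.card_univ, Fintype.card_fin])
  rw [← mul_assoc, cst_mul] at h1
  exact h1

/-- **the inequality for the discriminant of a pair at an infinite place** -/
theorem disc_inf (d N A : ℕ) (hN : 1 ≤ N) : ∃ C : ℝ, 0 ≤ C ∧ ∀ (k L : Type) [Field k]
    [NumberField k] [Field L] [NumberField L] [Algebra k L], finrank k L = d →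
    ∀ (v : InfinitePlace k) (x : Fin N → L), x ≠ 0 → ∀ α β : L, Comb A x α → Comb A x β →
    Dd k d α β ≠ 0 →
    wt (Sum.inl v : Pl k) * Real.log (av (Sum.inl v : Pl k) (Dd k d α β)) ≤
      (2 * (d - 1) : ℕ) * ∑ w ∈ ab L (Sum.inl v : Pl k), wt w * Real.log (nrm (av w) x) + C := by
  classical
  obtain ⟨C1, Δ, hC1, hΔ, hpig⟩ := pig N (d * N) hN
  have hl1 : 0 ≤ Real.log C1 := Real.log_nonneg hC1
  set Q1 : ℝ := max 1 (N * ((d * N) ^ N : ℕ)) with hQ1
  have hl2 : 0 ≤ Real.log Q1 := Real.log_nonneg (le_max_left _ _)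
  set Q2 : ℝ := max 1 (2 * (N * A) ^ 2) with hQ2
  have hl3 : 0 ≤ Real.log Q2 := Real.log_nonneg (le_max_left _ _)
  refine ⟨2 * (d * (d - 1) : ℕ) * Real.log Q2 + (2 * (d - 1) : ℕ) *
    (2 * d * Real.log C1 + 2 * d * Real.log Q1), by positivity, ?_⟩
  intro k L _ _ _ _ _ hd v x hx α β hα hβ hD
  let _ : Algebra k ℂ := v.embedding.toAlgebra
  let e : Fin d ≃ (L →ₐ[k] ℂ) := Fintype.equivOfCardEq (by
    rw [Fintype.card_fin, AlgHom.card, hd])
  let P : Fin d → Pl L := fun i => Sum.inl (InfinitePlace.mk (e i : L →+* ℂ))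
  have hP : ∀ i z, av (P i) z = ‖e i z‖ := fun i z => rfl
  -- the choice of the integer
  let bad : Fin d → Finset ℕ := fun i => (Finset.range (d * N + 1)).filter fun m : ℕ =>
    cst C1 (P i) * av (P i) (∑ j : Fin N, x j * (m : L) ^ j.1) <
      av (P i) (Δ : L) * nrm (av (P i)) x
  have hbad : ∀ i, (bad i).card < N := fun i => hpig L (P i) x
  have hex : ∃ m ∈ Finset.range (d * N + 1), m ∉ (Finset.univ : Finset (Fin d)).biUnion bad := by
    by_contra hcon
    push Not at hcon
    have h1 := Finset.card_le_card (show Finset.range (d * N + 1) ⊆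
      (Finset.univ : Finset (Fin d)).biUnion bad from hcon)
    have h3 : ((Finset.univ : Finset (Fin d)).biUnion bad).card ≤
      (Finset.univ : Finset (Fin d)).card * N :=
      Finset.card_biUnion_le_card_mul _ _ _ fun w _ => (hbad w).le
    rw [Finset.card_range] at h1
    rw [Finset.card_univ, Fintype.card_fin] at h3
    omega
  obtain ⟨m, hm, hmn⟩ := hex
  set ξ : L := ∑ j : Fin N, x j * (m : L) ^ j.1 with hξ
  have hgood : ∀ i, nrm (av (P i)) x ≤ C1 * av (P i) ξ := by
    intro i
    have h1 : av (P i) (Δ : L) * nrm (av (P i)) x ≤ cst C1 (P i) * av (P i) ξ := by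
      by_contra hcon
      push Not at hcon
      exact hmn (Finset.mem_biUnion.2 ⟨i, Finset.mem_univ _, Finset.mem_filter.2 ⟨hm, hcon⟩⟩)
    have h2 : av (P i) (Δ : L) = Δ := by
      rw [hP, map_natCast]
      exact Complex.norm_natCast Δ
    have h3 : (1 : ℝ) ≤ Δ := by exact_mod_cast hΔ
    rw [h2] at h1
    exact (le_mul_of_one_le_left (nrm_nonneg _ _) h3).trans h1
  have hnp : ∀ i, 0 < nrm (av (P i)) x := fun i => nrm_pos _ hx
  have hd0 : 0 < d := by
    rw [← hd]
    exact finrank_pos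
  have hξ0 : ξ ≠ 0 := by
    intro h
    have h1 := hgood ⟨0, hd0⟩
    rw [h, map_zero, mul_zero] at h1
    have := hnp ⟨0, hd0⟩
    linarith
  have hmm : (m : ℕ) ≤ d * N := by
    have := Finset.mem_range.1 hm
    omega
  -- the sum over the embeddings
  have hsum : wt (Sum.inl v : Pl k) * ∑ i, Real.log (nrm (av (P i)) x) ≤
      ∑ w ∈ ab L (Sum.inl v : Pl k), wt w * Real.log (nrm (av w) x) +
        (2 * d * Real.log C1 + 2 * d * Real.log Q1) := by
    have h1 : ∑ i, Real.log (nrm (av (P i)) x) ≤ d * Real.log C1 +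
        Real.log (av (Sum.inl v : Pl k) (Algebra.norm k ξ)) := by
      have h2 : ∀ i ∈ (Finset.univ : Finset (Fin d)), Real.log (nrm (av (P i)) x) ≤
          Real.log C1 + Real.log (av (P i) ξ) := by
        intro i _
        rw [← Real.log_mul (by linarith) ((av _).pos_iff.2 hξ0).ne']
        exact Real.log_le_log (hnp i) (hgood i)
      refine (Finset.sum_le_sum h2).trans (le_of_eq ?_)
      rw [Finset.sum_add_distrib, Finset.sum_const, Finset.card_univ, Fintype.card_fin,
        nsmul_eq_mul]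
      congr 1
      have h3 := (full_closed k L ℂ).2 ξ
      have h4 : av (Sum.inl v : Pl k) (Algebra.norm k ξ) =
          ‖algebraMap k ℂ (Algebra.norm k ξ)‖ := (InfinitePlace.norm_embedding_eq v _).symm
      rw [h4, h3, norm_prod, ← Equiv.prod_comp e (fun σ : L →ₐ[k] ℂ => ‖σ ξ‖), Real.log_prod]
      · rfl
      · intro i _
        exact ((av (P i)).pos_iff.2 hξ0).ne'
    have h2 := mul_le_mul_of_nonneg_left h1 (wt_nonneg (Sum.inl v : Pl k))
    rw [mul_add, ← nf (Sum.inl v : Pl k) ξ hξ0] at h2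
    have h3 : ∑ w ∈ ab L (Sum.inl v : Pl k), wt w * Real.log (av w ξ) ≤
        ∑ w ∈ ab L (Sum.inl v : Pl k), (wt w * Real.log (nrm (av w) x) + 2 * Real.log Q1) := by
      refine Finset.sum_le_sum fun w _ => ?_
      have h4 : Comb ((d * N) ^ N) x ξ := by
        refine ⟨fun i => m ^ i.1, fun i => ?_, ?_⟩
        · have hdN : 1 ≤ d * N := Nat.mul_pos hd0 hN
          exact (Nat.pow_le_pow_left hmm _).trans (Nat.pow_le_pow_right hdN i.2.le)
        · rw [hξ]
          refine Finset.sum_congr rfl fun i _ => ?_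
          push_cast
          ring
      have h5 : av w ξ ≤ cst Q1 w * nrm (av w) x := (h4.le w).trans
        (mul_le_mul_of_nonneg_right (cst_mono (le_max_right _ _) w) (nrm_nonneg _ _))
      have h6 := Real.log_le_log ((av w).pos_iff.2 hξ0) h5
      rw [Real.log_mul (cst_pos (by positivity) w).ne' (nrm_pos _ hx).ne'] at h6
      have h7 : Real.log (cst Q1 w) ≤ Real.log Q1 := by
        rcases w with w | w
        · exact le_rfl
        · show Real.log 1 ≤ _
          rw [Real.log_one]
          exact hl2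
      have h8 := mul_le_mul_of_nonneg_left (h6.trans (add_le_add_left h7 _)) (wt_nonneg w)
      rw [mul_add] at h8
      have h9 := mul_le_mul_of_nonneg_right (wt_le_two w) hl2
      linarith
    rw [Finset.sum_add_distrib, Finset.sum_const, nsmul_eq_mul] at h3
    have h4 : ((ab L (Sum.inl v : Pl k)).card : ℝ) * (2 * Real.log Q1) ≤
        d * (2 * Real.log Q1) := by
      refine mul_le_mul_of_nonneg_right ?_ (by positivity)
      have := ab_card (L := L) (Sum.inl v : Pl k)
      rw [hd] at this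
      exact_mod_cast this
    have h5 : wt (Sum.inl v : Pl k) * (d * Real.log C1) ≤ 2 * (d * Real.log C1) :=
      mul_le_mul_of_nonneg_right (wt_le_two _) (by positivity)
    linarith
  -- the discriminant
  have hDc := Dd_closed ℂ e α β
  have hDn : av (Sum.inl v : Pl k) (Dd k d α β) =
      (∏ i, ∏ j ∈ Finset.Ioi i, ‖e j β * e i α - e i β * e j α‖) ^ 2 := by
    have h4 : av (Sum.inl v : Pl k) (Dd k d α β) =
      ‖algebraMap k ℂ (Dd k d α β)‖ := (InfinitePlace.norm_embedding_eq v _).symm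
    rw [h4, hDc, norm_pow, norm_prod]
    congr 1
    exact Finset.prod_congr rfl fun i _ => norm_prod _ _
  have hpair : ∀ i j, ‖e j β * e i α - e i β * e j α‖ ≤
      Q2 * (nrm (av (P i)) x * nrm (av (P j)) x) := by
    intro i j
    have h1 : ∀ (i : Fin d) (z : L), Comb A x z → ‖e i z‖ ≤ (N * A) * nrm (av (P i)) x :=
      fun i z hz => hz.le (P i)
    have hNA : (0 : ℝ) ≤ N * A := by positivity
    calc ‖e j β * e i α - e i β * e j α‖ ≤ ‖e j β * e i α‖ + ‖e i β * e j α‖ := norm_sub_le _ _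
      _ = ‖e j β‖ * ‖e i α‖ + ‖e i β‖ * ‖e j α‖ := by rw [norm_mul, norm_mul]
      _ ≤ ((N * A) * nrm (av (P j)) x) * ((N * A) * nrm (av (P i)) x) +
          ((N * A) * nrm (av (P i)) x) * ((N * A) * nrm (av (P j)) x) := by
          refine add_le_add ?_ ?_
          · exact mul_le_mul (h1 j β hβ) (h1 i α hα) (norm_nonneg _)
              (mul_nonneg hNA (hnp j).le)
          · exact mul_le_mul (h1 i β hβ) (h1 j α hα) (norm_nonneg _)
              (mul_nonneg hNA (hnp i).le)
      _ = (2 * (N * A) ^ 2) * (nrm (av (P i)) x * nrm (av (P j)) x) := by ring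
      _ ≤ _ := mul_le_mul_of_nonneg_right (le_max_right _ _)
          (mul_nonneg (hnp i).le (hnp j).le)
  have hbound : av (Sum.inl v : Pl k) (Dd k d α β) ≤ Q2 ^ (d * (d - 1)) *
      (∏ i, nrm (av (P i)) x) ^ (2 * (d - 1)) := by
    rw [hDn, ← prod_pairs_const d Q2, ← prod_pairs_sq, ← mul_pow]
    refine pow_le_pow_left₀ (Finset.prod_nonneg fun i _ => Finset.prod_nonneg fun j _ =>
      norm_nonneg _) ?_ 2
    rw [← Finset.prod_mul_distrib]
    refine Finset.prod_le_prod (fun i _ => Finset.prod_nonneg fun j _ => norm_nonneg _)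
      fun i _ => ?_
    rw [← Finset.prod_mul_distrib]
    exact Finset.prod_le_prod (fun j _ => norm_nonneg _) fun j _ => hpair i j
  have hQ2p : 0 < Q2 := lt_of_lt_of_le one_pos (le_max_left _ _)
  have hprodp : 0 < ∏ i, nrm (av (P i)) x := Finset.prod_pos fun i _ => hnp i
  have h1 := Real.log_le_log ((av _).pos_iff.2 hD) hbound
  rw [Real.log_mul (pow_ne_zero _ hQ2p.ne') (pow_ne_zero _ hprodp.ne'), Real.log_pow,
    Real.log_pow, Real.log_prod (fun i _ => (hnp i).ne')] at h1
  have h2 := mul_le_mul_of_nonneg_left h1 (wt_nonneg (Sum.inl v : Pl k))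
  have h3 := mul_le_mul_of_nonneg_left hsum (Nat.cast_nonneg (α := ℝ) (2 * (d - 1)))
  have h4 : wt (Sum.inl v : Pl k) * (((d * (d - 1) : ℕ) : ℝ) * Real.log Q2) ≤
      2 * (((d * (d - 1) : ℕ) : ℝ) * Real.log Q2) :=
    mul_le_mul_of_nonneg_right (wt_le_two _) (by positivity)
  have h5 : wt (Sum.inl v : Pl k) * (((d * (d - 1) : ℕ) : ℝ) * Real.log Q2 +
      ((2 * (d - 1) : ℕ) : ℝ) * ∑ i, Real.log (nrm (av (P i)) x)) =
      wt (Sum.inl v : Pl k) * (((d * (d - 1) : ℕ) : ℝ) * Real.log Q2) +
      ((2 * (d - 1) : ℕ) : ℝ) * (wt (Sum.inl v : Pl k) *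
        ∑ i, Real.log (nrm (av (P i)) x)) := by ring
  rw [h5] at h2
  linarith

end Pool.Agent.N750
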