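import Mathlib
import Pool.Agent.N750.InfD

/-!
The global inequality for the discriminants of pairs.
-/

set_option autoImplicit false
set_option linter.unusedSectionVars false

open Finset Filter Topology

namespace Pool.Agent.N750

open NumberField IsDedekindDomain Height Module
open Pool.Agent.W180.OP (Pl av wt nrm le_nrm nrm_pos wt_nonneg exists_nrm nrm_nonneg)

variable {k L : Type} [Field k] [NumberField k] [Field L] [NumberField L] [Algebra k L]

/-- the prime below -/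
noncomputable def below (k : Type) {L : Type} [Field k] [NumberField k] [Field L] [NumberField L]
    [Algebra k L] (w : HeightOneSpectrum (𝓞 L)) : HeightOneSpectrum (𝓞 k) :=
  w.under (𝓞 k)

theorem below_over (w : HeightOneSpectrum (𝓞 L)) :
    w.asIdeal.LiesOver (below k w).asIdeal := ⟨rfl⟩

/-- the height of a point over `L` as a sum over the places of `k` -/
theorem height_split {N : ℕ} (x : Fin N → L) (hx : x ≠ 0) (T : Finset (HeightOneSpectrum (𝓞 k)))
    (hT : ∀ w : HeightOneSpectrum (𝓞 L), nrm (av (Sum.inr w : Pl L)) x ≠ 1 → below k w ∈ T) :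
    logHeight x = ∑ v : InfinitePlace k, ∑ w ∈ ab L (Sum.inl v : Pl k),
        wt w * Real.log (nrm (av w) x) +
      ∑ v ∈ T, ∑ w ∈ ab L (Sum.inr v : Pl k), wt w * Real.log (nrm (av w) x) := by
  classical
  set T' : Finset (HeightOneSpectrum (𝓞 L)) := T.biUnion fun v => (over_fin L v).toFinset with hT'
  have h1 := Pool.Agent.R405.logHeight_sum x hx T' (by
    intro w hw
    by_contra hne
    apply hw
    rw [hT', Finset.mem_biUnion]
    exact ⟨below k w, hT w hne, (Set.Finite.mem_toFinset _).2 (below_over w)⟩)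
  rw [h1]
  congr 1
  · have h2 : ∀ v : InfinitePlace k, ∑ w ∈ ab L (Sum.inl v : Pl k),
        wt w * Real.log (nrm (av w) x) =
        ∑ w ∈ Finset.univ.filter (fun w : InfinitePlace L => w.comap (algebraMap k L) = v),
          (w.mult : ℝ) * Real.log (nrm w.1 x) := by
      intro v
      unfold ab
      rw [Finset.sum_map]
      refine Finset.sum_congr ?_ fun w _ => rfl
      ext w
      simp
    rw [Finset.sum_congr rfl fun v _ => h2 v]
    exact (Finset.sum_fiberwise Finset.univ (fun w : InfinitePlace L => w.comap (algebraMap k L))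
      _).symm
  · rw [hT', Finset.sum_biUnion]
    · refine Finset.sum_congr rfl fun v _ => ?_
      unfold ab
      rw [Finset.sum_map]
      refine Finset.sum_congr rfl fun w _ => ?_
      show _ = 1 * Real.log (nrm (av (Sum.inr w : Pl L)) x)
      rw [one_mul]
      rfl
    · intro v _ v' _ hvv
      rw [Function.onFun, Finset.disjoint_left]
      intro w hw hw'
      rw [Set.Finite.mem_toFinset] at hw hw'
      apply hvv
      exact HeightOneSpectrum.ext (hw.over.trans hw'.over.symm)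

/-- the norm of an ideal as a product over the primes -/
theorem log_absNorm_sum (I : Ideal (𝓞 k)) (hI : I ≠ ⊥) : ∃ T₀ : Finset (HeightOneSpectrum (𝓞 k)),
    ∀ T, T₀ ⊆ T → Real.log (Ideal.absNorm I) =
      ∑ v ∈ T, (mu v I : ℝ) * Real.log (Ideal.absNorm v.asIdeal) := by
  classical
  suffices h : I ≠ ⊥ ∧ ∃ T₀ : Finset (HeightOneSpectrum (𝓞 k)),
    ∀ T, T₀ ⊆ T → Real.log (Ideal.absNorm I) =
      ∑ v ∈ T, (mu v I : ℝ) * Real.log (Ideal.absNorm v.asIdeal) from h.2
  rw [← Ideal.prod_normalizedFactors_eq_self hI]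
  refine Multiset.prod_induction (fun I : Ideal (𝓞 k) => I ≠ ⊥ ∧
    ∃ T₀ : Finset (HeightOneSpectrum (𝓞 k)),
    ∀ T, T₀ ⊆ T → Real.log (Ideal.absNorm I) =
      ∑ v ∈ T, (mu v I : ℝ) * Real.log (Ideal.absNorm v.asIdeal)) _ ?_ ?_ ?_
  · rintro I J ⟨hI0, T₁, hI1⟩ ⟨hJ0, T₂, hJ1⟩
    refine ⟨mul_ne_zero hI0 hJ0, T₁ ∪ T₂, fun T hT => ?_⟩
    have e1 : (Ideal.absNorm I : ℝ) ≠ 0 := by
      exact_mod_cast Ideal.absNorm_eq_zero_iff.not.mpr hI0
    have e2 : (Ideal.absNorm J : ℝ) ≠ 0 := by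
      exact_mod_cast Ideal.absNorm_eq_zero_iff.not.mpr hJ0
    rw [map_mul, Nat.cast_mul, Real.log_mul e1 e2,
      hI1 T (Finset.union_subset_left hT), hJ1 T (Finset.union_subset_right hT),
      ← Finset.sum_add_distrib]
    refine Finset.sum_congr rfl fun v _ => ?_
    rw [mu_mul v hI0 hJ0, Nat.cast_add, add_mul]
  · refine ⟨one_ne_zero, ∅, fun T _ => ?_⟩
    rw [map_one, Nat.cast_one, Real.log_one]
    exact (Finset.sum_eq_zero fun v _ => by rw [mu_one, Nat.cast_zero, zero_mul]).symm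
  · intro Q hQ
    have hQ0 : Q ≠ ⊥ := UniqueFactorizationMonoid.ne_zero_of_mem_normalizedFactors hQ
    rw [Ideal.mem_normalizedFactors_iff hI] at hQ
    set w₀ : HeightOneSpectrum (𝓞 k) := ⟨Q, hQ.1, hQ0⟩ with hw₀
    have hQw : Q = w₀.asIdeal := rfl
    refine ⟨hQ0, {w₀}, fun T hT => ?_⟩
    rw [Finset.sum_eq_single_of_mem w₀ (hT (Finset.mem_singleton_self _))]
    · rw [hQw, mu_self, Nat.cast_one, one_mul]
    · intro w _ hw
      rw [hQw, mu_ne w w₀ hw, Nat.cast_zero, zero_mul]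

theorem sum_mult : (∑ w : InfinitePlace k, (w.mult : ℝ)) = finrank ℚ k := by
  rw [← NumberField.totalWeight_eq_finrank, NumberField.totalWeight_eq_sum_mult]
  push_cast
  rfl

/-- the sum of the logarithms of an integer at finite places -/
theorem sum_log_nat (Δ : ℕ) (hΔ : 1 ≤ Δ) (T : Finset (HeightOneSpectrum (𝓞 k))) :
    -(finrank ℚ k * Real.log Δ) ≤ ∑ v ∈ T, Real.log (av (Sum.inr v : Pl k) (Δ : k)) := by
  classical
  have hΔk : (Δ : k) ≠ 0 := by
    have : Δ ≠ 0 := by omega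
    exact_mod_cast this
  set x : Fin 1 → k := fun _ => (Δ : k) with hx
  have hx0 : x ≠ 0 := fun h => hΔk (congrFun h 0)
  have hn : ∀ p : Pl k, nrm (av p) x = av p (Δ : k) := fun p => by
    unfold nrm
    exact ciSup_const (ι := Fin 1) (a := av p (Δ : k))
  set T' := T ∪ (Pool.Agent.R405.nrm_finite x hx0).toFinset with hT'
  have h1 := Pool.Agent.R405.logHeight_sum x hx0 T' (by
    intro v hv
    by_contra hne
    apply hv
    rw [hT', Finset.mem_union, Set.Finite.mem_toFinset]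
    exact Or.inr hne)
  rw [logHeight_one] at h1
  have h2 : ∀ w : InfinitePlace k, nrm w.1 x = Δ := by
    intro w
    refine (hn (Sum.inl w)).trans ?_
    show w (Δ : k) = Δ
    rw [← InfinitePlace.norm_embedding_eq w, map_natCast]
    exact Complex.norm_natCast Δ
  have h3 : ∑ w : InfinitePlace k, (w.mult : ℝ) * Real.log (nrm w.1 x) =
      finrank ℚ k * Real.log Δ := by
    rw [Finset.sum_congr rfl fun w _ => by rw [h2 w], ← Finset.sum_mul, sum_mult]
  rw [h3] at h1
  have h4 : ∑ v ∈ T', Real.log (nrm (Pool.Agent.W180.OP.fv v) x) ≤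
      ∑ v ∈ T, Real.log (nrm (Pool.Agent.W180.OP.fv v) x) := by
    rw [← Finset.sum_sdiff (show T ⊆ T' from Finset.subset_union_left)]
    have h5 : ∑ v ∈ T' \ T, Real.log (nrm (Pool.Agent.W180.OP.fv v) x) ≤ 0 := by
      refine Finset.sum_nonpos fun v _ => Real.log_nonpos (nrm_nonneg _ _) ?_
      have h6 : nrm (Pool.Agent.W180.OP.fv v) x = av (Sum.inr v : Pl k) (Δ : k) :=
        hn (Sum.inr v)
      rw [h6]
      have h7 := av_int v (Δ : ℤ)
      rwa [Int.cast_natCast] at h7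
    linarith
  have h5 : ∑ v ∈ T, Real.log (nrm (Pool.Agent.W180.OP.fv v) x) =
      ∑ v ∈ T, Real.log (av (Sum.inr v : Pl k) (Δ : k)) :=
    Finset.sum_congr rfl fun v _ => by
      have h6 : nrm (Pool.Agent.W180.OP.fv v) x = av (Sum.inr v : Pl k) (Δ : k) :=
        hn (Sum.inr v)
      rw [h6]
  linarith

/-- **the global inequality for the discriminants of pairs** -/
theorem disc_glob (d N A b : ℕ) (hd2 : 2 ≤ d) (hN : 1 ≤ N) : ∃ C : ℝ, 0 ≤ C ∧
    ∀ (k L : Type) [Field k] [NumberField k] [Field L] [NumberField L] [Algebra k L],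
    finrank k L = d → ∀ (x : Fin N → L), x ≠ 0 → ∀ α β : Fin b → L, (∀ m, Comb A x (α m)) →
    (∀ m, Comb A x (β m)) → (fun m => Dd k d (α m) (β m)) ≠ 0 →
    logHeight (fun m => Dd k d (α m) (β m)) +
      Real.log (Ideal.absNorm (differentIdeal (𝓞 k) (𝓞 L))) ≤
      (2 * (d - 1) : ℕ) * logHeight x + finrank ℚ k * C := by
  classical
  obtain ⟨Δ, hΔ, hloc⟩ := disc_local d hd2
  obtain ⟨C, hC, hinf⟩ := disc_inf d N A hN
  have hlΔ : 0 ≤ Real.log Δ := Real.log_nonneg (by exact_mod_cast hΔ)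
  refine ⟨C + (d * (d - 1) : ℕ) * Real.log Δ, by positivity, ?_⟩
  intro k L _ _ _ _ _ hd x hx α β hα hβ hD
  set 𝔡 := Ideal.relNorm (𝓞 k) (differentIdeal (𝓞 k) (𝓞 L)) with h𝔡
  have hdiff0 : differentIdeal (𝓞 k) (𝓞 L) ≠ ⊥ := differentIdeal_ne_bot
  have h𝔡0 : 𝔡 ≠ ⊥ := fun h => hdiff0 (Ideal.relNorm_eq_bot_iff.1 h)
  obtain ⟨T₀, hT₀⟩ := log_absNorm_sum 𝔡 h𝔡0
  set D : Fin b → k := fun m => Dd k d (α m) (β m) with hDdef
  have hb : 0 < b := by
    obtain ⟨i, -⟩ := Function.ne_iff.1 hD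
    exact i.pos
  set T : Finset (HeightOneSpectrum (𝓞 k)) := (T₀ ∪ (Pool.Agent.R405.nrm_finite D hD).toFinset) ∪
    (Pool.Agent.R405.nrm_finite x hx).toFinset.image (below k) with hT
  have h1 := Pool.Agent.R405.logHeight_sum D hD T (by
    intro v hv
    by_contra hne
    apply hv
    rw [hT, Finset.mem_union, Finset.mem_union, Set.Finite.mem_toFinset]
    exact Or.inl (Or.inr hne))
  have h2 := height_split (k := k) x hx T (by
    intro w hw
    rw [hT, Finset.mem_union]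
    refine Or.inr (Finset.mem_image_of_mem _ ?_)
    rw [Set.Finite.mem_toFinset]
    exact hw)
  have h3 := hT₀ T (by
    rw [hT, Finset.union_assoc]
    exact Finset.subset_union_left)
  rw [h𝔡, Ideal.absNorm_relNorm, ← h𝔡] at h3
  have hmax : ∀ p : Pl k, ∃ m, nrm (av p) D = av p (D m) ∧ D m ≠ 0 := by
    intro p
    obtain ⟨m, hm⟩ := exists_nrm (av p) hb D
    refine ⟨m, hm.symm, fun h => ?_⟩
    rw [h, map_zero] at hm
    exact (nrm_pos (av p) hD).ne hm
  have h4 : ∑ v : InfinitePlace k, (v.mult : ℝ) * Real.log (nrm v.1 D) ≤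
      ∑ v : InfinitePlace k, ((2 * (d - 1) : ℕ) * ∑ w ∈ ab L (Sum.inl v : Pl k),
        wt w * Real.log (nrm (av w) x) + v.mult * C) := by
    refine Finset.sum_le_sum fun v _ => ?_
    obtain ⟨m, hm1, hm2⟩ := hmax (Sum.inl v)
    have h5 := hinf k L hd v x hx (α m) (β m) (hα m) (hβ m) hm2
    have h6 : (v.mult : ℝ) * Real.log (nrm v.1 D) =
        wt (Sum.inl v : Pl k) * Real.log (av (Sum.inl v : Pl k) (D m)) := by
      rw [← hm1]
      rfl
    rw [h6]
    have h7 : C ≤ v.mult * C := le_mul_of_one_le_left hC (by exact_mod_cast v.mult_pos)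
    exact h5.trans (add_le_add_right h7 _)
  have h5 : ∑ v ∈ T, Real.log (nrm (Pool.Agent.W180.OP.fv v) D) +
      (d * (d - 1) : ℕ) * ∑ v ∈ T, Real.log (av (Sum.inr v : Pl k) (Δ : k)) +
      ∑ v ∈ T, (mu v 𝔡 : ℝ) * Real.log (Ideal.absNorm v.asIdeal) ≤
      (2 * (d - 1) : ℕ) * ∑ v ∈ T, ∑ w ∈ ab L (Sum.inr v : Pl k),
        wt w * Real.log (nrm (av w) x) := by
    rw [Finset.mul_sum, Finset.mul_sum, ← Finset.sum_add_distrib, ← Finset.sum_add_distrib]
    refine Finset.sum_le_sum fun v _ => ?_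
    obtain ⟨m, hm1, hm2⟩ := hmax (Sum.inr v)
    have h6 := hloc k L hd v (α m) (β m) hm2 (fun w => nrm (av w) x) (by
      intro w hw
      obtain ⟨w', rfl, -⟩ := exists_of_mem_ab hw
      have e1 := (hα m).le (Sum.inr w' : Pl L)
      have e2 := (hβ m).le (Sum.inr w' : Pl L)
      have e3 : cst ((N : ℝ) * A) (Sum.inr w' : Pl L) = 1 := rfl
      rw [e3, one_mul] at e1 e2
      exact ⟨e1, e2⟩)
    have h7 : Real.log (nrm (Pool.Agent.W180.OP.fv v) D) =
        Real.log (av (Sum.inr v : Pl k) (Dd k d (α m) (β m))) := congrArg Real.log hm1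
    rw [h7]
    exact h6
  have h6 := sum_log_nat Δ hΔ T
  have h7 := mul_le_mul_of_nonneg_left h6 (Nat.cast_nonneg (α := ℝ) (d * (d - 1)))
  rw [Finset.sum_add_distrib, ← Finset.mul_sum, ← Finset.sum_mul, sum_mult] at h4
  rw [h1, h3, h2, mul_add]
  linarith

end Pool.Agent.N750
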