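import Mathlib
import Pool.Agent.N750.DSum

/-!
The exterior products of the conjugates of a point.
-/

set_option autoImplicit false
set_option linter.unusedSectionVars false

open Finset Filter Topology

namespace Pool.Agent.N750

open NumberField IsDedekindDomain Height Module
open Pool.Agent.W180.OP (Pl av wt nrm le_nrm nrm_pos wt_nonneg exists_nrm nrm_nonneg)

/-- the exterior product -/
def wedge {M : Type} [Field M] {N : ℕ} (u v : Fin N → M) : Fin (N * N) → M :=
  fun c => u c.modNat * v c.divNat - v c.modNat * u c.divNat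

theorem wedge_eval {M : Type} [Field M] {N : ℕ} (u v : Fin N → M) (m : ℕ) :
    ∑ c, wedge u v c * (m : M) ^ c.1 =
      (∑ a, ((m ^ a.1 : ℕ) : M) * u a) * (∑ b, ((m ^ (N * b.1) : ℕ) : M) * v b) -
      (∑ a, ((m ^ a.1 : ℕ) : M) * v a) * (∑ b, ((m ^ (N * b.1) : ℕ) : M) * u b) := by
  rw [← finProdFinEquiv.sum_comp, Fintype.sum_prod_type, Finset.sum_mul_sum, Finset.sum_mul_sum,
    ← Finset.sum_sub_distrib, Finset.sum_comm]
  refine Finset.sum_congr rfl fun a _ => ?_
  rw [← Finset.sum_sub_distrib]
  refine Finset.sum_congr rfl fun b _ => ?_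
  have h1 : (finProdFinEquiv (b, a)).modNat = a := by
    have := finProdFinEquiv.symm_apply_apply (b, a)
    exact congrArg Prod.snd this
  have h2 : (finProdFinEquiv (b, a)).divNat = b := by
    have := finProdFinEquiv.symm_apply_apply (b, a)
    exact congrArg Prod.fst this
  have h3 : (finProdFinEquiv (b, a) : ℕ) = a.1 + N * b.1 := rfl
  unfold wedge
  rw [h1, h2, h3, pow_add]
  push_cast
  ring

/-- the first linear form -/
def fa {L : Type} [Field L] {N : ℕ} (x : Fin N → L) (m : ℕ) : L :=
  ∑ a, ((m ^ a.1 : ℕ) : L) * x a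

/-- the second linear form -/
def fb {L : Type} [Field L] {N : ℕ} (x : Fin N → L) (m : ℕ) : L :=
  ∑ a, ((m ^ (N * a.1) : ℕ) : L) * x a

theorem comb_fa {L : Type} [Field L] {N B : ℕ} (hB : 1 ≤ B) (x : Fin N → L) (m : ℕ) (hm : m ≤ B) :
    Comb (B ^ (N * N)) x (fa x m) := by
  refine ⟨fun a => m ^ a.1, fun a => ?_, rfl⟩
  refine (Nat.pow_le_pow_left hm _).trans (Nat.pow_le_pow_right hB ?_)
  have := a.2
  calc a.1 ≤ N * 1 := by omega
    _ ≤ N * N := Nat.mul_le_mul_left N (by omega)

theorem comb_fb {L : Type} [Field L] {N B : ℕ} (hB : 1 ≤ B) (x : Fin N → L) (m : ℕ) (hm : m ≤ B) :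
    Comb (B ^ (N * N)) x (fb x m) := by
  refine ⟨fun a => m ^ (N * a.1), fun a => ?_, rfl⟩
  exact (Nat.pow_le_pow_left hm _).trans (Nat.pow_le_pow_right hB
    (Nat.mul_le_mul_left N a.2.le))

/-- **the heights of the exterior products of the conjugates** -/
theorem wedge_sum (d N B : ℕ) (hN : 1 ≤ N) (hB : d * d * (N * N) ≤ B) :
    ∃ C : ℝ, 0 ≤ C ∧ ∀ (k L M : Type) [Field k] [NumberField k] [Field L] [NumberField L]
      [Algebra k L] [Field M] [NumberField M] [Algebra k M] [IsGalois k M],
      finrank k L = d → Nonempty (L →ₐ[k] M) → ∀ (e : Fin d ≃ (L →ₐ[k] M)) (x : Fin N → L),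
      (∀ i j, i ≠ j → wedge (fun a => e i (x a)) (fun a => e j (x a)) ≠ 0) →
      (fun m : Fin (B + 1) => Dd k d (fa x m.1) (fb x m.1)) ≠ 0 ∧
      2 * ∑ i, ∑ j ∈ Finset.Ioi i, logHeight (wedge (fun a => e i (x a)) (fun a => e j (x a))) ≤
        finrank k M * logHeight (fun m : Fin (B + 1) => Dd k d (fa x m.1) (fb x m.1)) +
          finrank ℚ M * C := by
  classical
  obtain ⟨C1, Δ, hC1, hΔ, hpig⟩ := pig (N * N) B (Nat.mul_pos hN hN)
  have hl1 : 0 ≤ Real.log C1 := Real.log_nonneg hC1
  refine ⟨(d * (d - 1) : ℕ) * Real.log C1, by positivity, ?_⟩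
  intro k L M _ _ _ _ _ _ _ _ _ hdk hM e x hW
  set W : Fin d → Fin d → Fin (N * N) → M := fun i j =>
    wedge (fun a => e i (x a)) (fun a => e j (x a)) with hWdef
  set D : Fin (B + 1) → k := fun m => Dd k d (fa x m.1) (fb x m.1) with hDdef
  have hΔM : (Δ : M) ≠ 0 := by
    have : Δ ≠ 0 := by omega
    exact_mod_cast this
  -- the local estimate
  have hloc : ∀ p : Pl M, ∃ m : Fin (B + 1), D m ≠ 0 ∧
      (av p (Δ : M)) ^ (d * (d - 1)) * (∏ i, ∏ j ∈ Finset.Ioi i, nrm (av p) (W i j)) ^ 2 ≤
        cst (C1 ^ (d * (d - 1))) p * av p (algebraMap k M (D m)) := by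
    intro p
    let bad : Fin d × Fin d → Finset ℕ := fun q => if q.1 = q.2 then ∅ else
      (Finset.range (B + 1)).filter fun m : ℕ =>
        cst C1 p * av p (∑ c, W q.1 q.2 c * (m : M) ^ c.1) < av p (Δ : M) * nrm (av p) (W q.1 q.2)
    have hbad : ∀ q, (bad q).card ≤ N * N - 1 := by
      intro q
      by_cases hq : q.1 = q.2
      · simp only [bad, hq, if_true, Finset.card_empty]
        exact Nat.zero_le _
      · have h1 := hpig M p (W q.1 q.2)
        simp only [bad, hq, if_false]
        omega
    have hex : ∃ m ∈ Finset.range (B + 1), m ∉ (Finset.univ : Finset (Fin d × Fin d)).biUnion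
        bad := by
      by_contra hcon
      push Not at hcon
      have h1 := Finset.card_le_card (show Finset.range (B + 1) ⊆
        (Finset.univ : Finset (Fin d × Fin d)).biUnion bad from hcon)
      have h3 : ((Finset.univ : Finset (Fin d × Fin d)).biUnion bad).card ≤
        (Finset.univ : Finset (Fin d × Fin d)).card * (N * N - 1) :=
        Finset.card_biUnion_le_card_mul _ _ _ fun w _ => hbad w
      rw [Finset.card_range] at h1
      rw [Finset.card_univ, Fintype.card_prod, Fintype.card_fin] at h3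
      have h4 : d * d * (N * N - 1) ≤ d * d * (N * N) := Nat.mul_le_mul_left _ (Nat.sub_le _ _)
      omega
    obtain ⟨m, hm, hmn⟩ := hex
    have hgood : ∀ i j, i ≠ j → av p (Δ : M) * nrm (av p) (W i j) ≤
        cst C1 p * av p (∑ c, W i j c * (m : M) ^ c.1) := by
      intro i j hij
      by_contra hcon
      push Not at hcon
      refine hmn (Finset.mem_biUnion.2 ⟨(i, j), Finset.mem_univ _, ?_⟩)
      simp only [bad, hij, if_false]
      exact Finset.mem_filter.2 ⟨hm, hcon⟩
    have hDM := Dd_full hM e (fa x m) (fb x m)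
    have hPe : ∀ i j : Fin d, e j (fb x m) * e i (fa x m) - e i (fb x m) * e j (fa x m) =
        ∑ c, W i j c * (m : M) ^ c.1 := by
      intro i j
      rw [hWdef]
      simp only
      rw [wedge_eval]
      have h1 : ∀ i : Fin d, e i (fa x m) = ∑ a, ((m ^ a.1 : ℕ) : M) * e i (x a) := by
        intro i
        unfold fa
        rw [map_sum]
        refine Finset.sum_congr rfl fun a _ => ?_
        rw [map_mul, map_natCast]
      have h2 : ∀ i : Fin d, e i (fb x m) = ∑ a, ((m ^ (N * a.1) : ℕ) : M) * e i (x a) := by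
        intro i
        unfold fb
        rw [map_sum]
        refine Finset.sum_congr rfl fun a _ => ?_
        rw [map_mul, map_natCast]
      rw [h1, h1, h2, h2]
      ring
    have hPpos : ∀ i j, i ≠ j → 0 < av p (∑ c, W i j c * (m : M) ^ c.1) := by
      intro i j hij
      have h1 := hgood i j hij
      have h2 : 0 < av p (Δ : M) * nrm (av p) (W i j) :=
        mul_pos ((av p).pos_iff.2 hΔM) (nrm_pos _ (hW i j hij))
      by_contra hcon
      push Not at hcon
      have h3 : cst C1 p * av p (∑ c, W i j c * (m : M) ^ c.1) ≤ 0 :=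
        mul_nonpos_of_nonneg_of_nonpos (cst_pos (by linarith) p).le hcon
      linarith
    have hprodeq : av p (algebraMap k M (Dd k d (fa x m) (fb x m))) =
        (∏ i, ∏ j ∈ Finset.Ioi i, av p (∑ c, W i j c * (m : M) ^ c.1)) ^ 2 := by
      rw [hDM, map_pow, map_prod]
      congr 1
      refine Finset.prod_congr rfl fun i _ => ?_
      rw [map_prod]
      exact Finset.prod_congr rfl fun j _ => by rw [hPe i j]
    have hprodpos : 0 < (∏ i, ∏ j ∈ Finset.Ioi i, av p (∑ c, W i j c * (m : M) ^ c.1)) ^ 2 := by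
      refine pow_pos (Finset.prod_pos fun i _ => Finset.prod_pos fun j hj => ?_) 2
      exact hPpos i j (Finset.mem_Ioi.1 hj).ne
    refine ⟨⟨m, Finset.mem_range.1 hm⟩, ?_, ?_⟩
    · intro h
      have h1 : Dd k d (fa x m) (fb x m) = 0 := h
      rw [h1, map_zero, map_zero] at hprodeq
      exact hprodpos.ne hprodeq
    · show _ ≤ _ * av p (algebraMap k M (Dd k d (fa x m) (fb x m)))
      rw [hprodeq, ← prod_pairs_const d (av p (Δ : M)), ← mul_pow, ← cst_pow,
        ← prod_pairs_const d (cst C1 p), ← mul_pow]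
      refine pow_le_pow_left₀ (mul_nonneg (Finset.prod_nonneg fun i _ => Finset.prod_nonneg
        fun j _ => (av p).nonneg _) (Finset.prod_nonneg fun i _ => Finset.prod_nonneg
        fun j _ => nrm_nonneg _ _)) ?_ 2
      rw [← Finset.prod_mul_distrib, ← Finset.prod_mul_distrib]
      refine Finset.prod_le_prod (fun i _ => mul_nonneg (Finset.prod_nonneg
        fun j _ => (av p).nonneg _) (Finset.prod_nonneg fun j _ => nrm_nonneg _ _))
        fun i _ => ?_
      rw [← Finset.prod_mul_distrib, ← Finset.prod_mul_distrib]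
      refine Finset.prod_le_prod (fun j _ => mul_nonneg ((av p).nonneg _) (nrm_nonneg _ _))
        fun j hj => ?_
      exact hgood i j (Finset.mem_Ioi.1 hj).ne
  have hD0 : D ≠ 0 := by
    obtain ⟨w⟩ : Nonempty (InfinitePlace M) := inferInstance
    obtain ⟨m, hm, -⟩ := hloc (Sum.inl w)
    exact fun h => hm (congrFun h m)
  refine ⟨hD0, ?_⟩
  have hDM0 : (fun m => algebraMap k M (D m)) ≠ 0 := by
    intro h
    apply hD0
    funext m
    exact (map_eq_zero _).1 (congrFun h m)
  -- the comparison of the heights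
  have h1 := ht_gen (K := M) (ι := Option (Option (Fin d × Fin d)))
    (Finset.univ.filter fun q => ∀ i j, q = some (some (i, j)) → i < j)
    (fun q => match q with | none => B + 1 | some none => 1 | some (some _) => N * N)
    (fun q => match q with
      | none => fun m => algebraMap k M (D m)
      | some none => fun _ => (Δ : M)
      | some (some q) => W q.1 q.2)
    (fun q => match q with | none => 1 | some none => -((d * (d - 1) : ℕ) : ℝ) | some (some _) => -2)
    (by
      rintro (_ | _ | ⟨i, j⟩) hq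
      · exact hDM0
      · exact fun h => hΔM (congrFun h 0)
      · have hij : i < j := (Finset.mem_filter.1 hq).2 i j rfl
        exact hW i j hij.ne) (C1 ^ (d * (d - 1))) (by
      intro p
      rw [Finset.sum_filter, Fintype.sum_option, Fintype.sum_option]
      simp only [reduceCtorEq, Option.some.injEq, false_imp_iff, implies_true, if_true]
      obtain ⟨m, hm, h2⟩ := hloc p
      have hDm : algebraMap k M (D m) ≠ 0 := (map_ne_zero _).2 hm
      have hWpos : 0 < ∏ i, ∏ j ∈ Finset.Ioi i, nrm (av p) (W i j) :=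
        Finset.prod_pos fun i _ => Finset.prod_pos fun j hj =>
          nrm_pos _ (hW i j (Finset.mem_Ioi.1 hj).ne)
      have hΔp : 0 < av p (Δ : M) := (av p).pos_iff.2 hΔM
      have h3 := Real.log_le_log (mul_pos (pow_pos hΔp _) (pow_pos hWpos 2)) h2
      rw [Real.log_mul (pow_pos hΔp _).ne' (pow_pos hWpos 2).ne', Real.log_pow, Real.log_pow,
        Real.log_mul (cst_pos (by positivity) p).ne' ((av p).pos_iff.2 hDm).ne',
        Real.log_prod (fun i _ => (Finset.prod_pos fun j hj =>
          nrm_pos (av p) (hW i j (Finset.mem_Ioi.1 hj).ne)).ne')] at h3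
      have h4 : ∀ i : Fin d, Real.log (∏ j ∈ Finset.Ioi i, nrm (av p) (W i j)) =
          ∑ j ∈ Finset.Ioi i, Real.log (nrm (av p) (W i j)) := fun i =>
        Real.log_prod fun j hj => (nrm_pos (av p) (hW i j (Finset.mem_Ioi.1 hj).ne)).ne'
      rw [Finset.sum_congr rfl fun i _ => h4 i] at h3
      have h5 : Real.log (av p (algebraMap k M (D m))) ≤
          Real.log (nrm (av p) (fun m => algebraMap k M (D m))) :=
        Real.log_le_log ((av p).pos_iff.2 hDm) (le_nrm (av p) (fun m => algebraMap k M (D m)) m)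
      have h6 : nrm (av p) (fun _ : Fin 1 => (Δ : M)) = av p (Δ : M) := by
        unfold nrm
        exact ciSup_const (ι := Fin 1) (a := av p (Δ : M))
      have h7 : ∑ q : Fin d × Fin d, (if ∀ i j, q = (i, j) → i < j then
          -2 * Real.log (nrm (av p) (W q.1 q.2)) else 0) =
          -(2 * ∑ i, ∑ j ∈ Finset.Ioi i, Real.log (nrm (av p) (W i j))) := by
        rw [Fintype.sum_prod_type, Finset.mul_sum, ← Finset.sum_neg_distrib]
        refine Finset.sum_congr rfl fun i _ => ?_
        rw [Finset.mul_sum, ← Finset.sum_neg_distrib, ← Finset.sum_filter]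
        refine Finset.sum_congr ?_ fun j _ => by ring
        ext j
        simp only [Finset.mem_filter, Finset.mem_univ, true_and, Finset.mem_Ioi, Prod.mk.injEq]
        constructor
        · intro h
          exact h i j ⟨rfl, rfl⟩
        · rintro h i' j' ⟨rfl, rfl⟩
          exact h
      rw [h7, h6]
      push_cast at h3 ⊢
      linarith)
  rw [Finset.sum_filter, Fintype.sum_option, Fintype.sum_option] at h1
  simp only [reduceCtorEq, Option.some.injEq, false_imp_iff, implies_true, if_true] at h1
  have h7 : ∑ q : Fin d × Fin d, (if ∀ i j, q = (i, j) → i < j then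
      -2 * logHeight (W q.1 q.2) else 0) =
      -(2 * ∑ i, ∑ j ∈ Finset.Ioi i, logHeight (W i j)) := by
    rw [Fintype.sum_prod_type, Finset.mul_sum, ← Finset.sum_neg_distrib]
    refine Finset.sum_congr rfl fun i _ => ?_
    rw [Finset.mul_sum, ← Finset.sum_neg_distrib, ← Finset.sum_filter]
    refine Finset.sum_congr ?_ fun j _ => by ring
    ext j
    simp only [Finset.mem_filter, Finset.mem_univ, true_and, Finset.mem_Ioi, Prod.mk.injEq]
    constructor
    · intro h
      exact h i j ⟨rfl, rfl⟩
    · rintro h i' j' ⟨rfl, rfl⟩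
      exact h
  have h8 : logHeight (fun m => algebraMap k M (D m)) = finrank k M * logHeight D :=
    Pool.Agent.Helper259.HtExt.logHeight_ext D
  rw [h7, h8, logHeight_one, mul_zero, Real.log_pow] at h1
  linarith

end Pool.Agent.N750
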