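import Mathlib
import Pool.Agent.N750.Wed

/-!
Points of almost maximal discriminant lie on lines of small height.
-/

set_option autoImplicit false
set_option linter.unusedSectionVars false

open Finset Filter Topology

namespace Pool.Agent.N750

open NumberField IsDedekindDomain Height Module
open Pool.Agent.W180.OP (Pl av wt nrm le_nrm nrm_pos wt_nonneg exists_nrm nrm_nonneg)

/-- three by three minors -/
def det3 {M : Type} [Field M] {N : ℕ} (u v w : Fin N → M) (a b c : Fin N) : M :=
  u a * (v b * w c - v c * w b) - u b * (v a * w c - v c * w a) + u c * (v a * w b - v b * w a)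

theorem wedge_le {M : Type} [Field M] [NumberField M] {N : ℕ} (u v : Fin N → M) (p : Pl M)
    (a b : Fin N) : av p (u a * v b - v a * u b) ≤ nrm (av p) (wedge u v) := by
  have h := le_nrm (av p) (wedge u v) (finProdFinEquiv (b, a))
  have h1 : (finProdFinEquiv (b, a)).modNat = a := by
    have := finProdFinEquiv.symm_apply_apply (b, a)
    exact congrArg Prod.snd this
  have h2 : (finProdFinEquiv (b, a)).divNat = b := by
    have := finProdFinEquiv.symm_apply_apply (b, a)
    exact congrArg Prod.fst this
  unfold wedge at h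
  rw [h1, h2] at h
  exact h

/-- points in general position with small exterior products have small height -/
theorem noncol {M : Type} [Field M] [NumberField M] {N : ℕ} (u v w : Fin N → M) (a b c : Fin N)
    (h : det3 u v w a b c ≠ 0) :
    logHeight u ≤ logHeight (wedge u v) + logHeight (wedge u w) + finrank ℚ M * Real.log 3 := by
  classical
  set δ := det3 u v w a b c with hδ
  have hu : u ≠ 0 := by
    rintro rfl
    apply h
    rw [hδ]
    unfold det3
    simp
  have huv : wedge u v ≠ 0 := by
    intro h0
    apply h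
    have h1 : ∀ a b, u a * v b - v a * u b = 0 := by
      intro a b
      have h2 := congrFun h0 (finProdFinEquiv (b, a))
      have h3 : (finProdFinEquiv (b, a)).modNat = a :=
        congrArg Prod.snd (finProdFinEquiv.symm_apply_apply (b, a))
      have h4 : (finProdFinEquiv (b, a)).divNat = b :=
        congrArg Prod.fst (finProdFinEquiv.symm_apply_apply (b, a))
      unfold wedge at h2
      rw [h3, h4] at h2
      exact h2
    rw [hδ]
    unfold det3
    linear_combination w a * h1 b c - w b * h1 a c + w c * h1 a b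
  have huw : wedge u w ≠ 0 := by
    intro h0
    apply h
    have h1 : ∀ a b, u a * w b - w a * u b = 0 := by
      intro a b
      have h2 := congrFun h0 (finProdFinEquiv (b, a))
      have h3 : (finProdFinEquiv (b, a)).modNat = a :=
        congrArg Prod.snd (finProdFinEquiv.symm_apply_apply (b, a))
      have h4 : (finProdFinEquiv (b, a)).divNat = b :=
        congrArg Prod.fst (finProdFinEquiv.symm_apply_apply (b, a))
      unfold wedge at h2
      rw [h3, h4] at h2
      exact h2
    rw [hδ]
    unfold det3
    linear_combination -(v a) * h1 b c + v b * h1 a c - v c * h1 a b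
  have hδu : (fun l => δ * u l) ≠ 0 := by
    intro h0
    apply hu
    funext l
    exact (mul_eq_zero.1 (congrFun h0 l)).resolve_left h
  have hN : 0 < N := a.pos
  have h1 := ht_gen (K := M) (ι := Fin 3) Finset.univ
    (fun q => match q with | 0 => N | 1 => N * N | 2 => N * N)
    (fun q => match q with
      | 0 => fun l => δ * u l
      | 1 => wedge u v
      | 2 => wedge u w)
    (fun q => match q with | 0 => -1 | 1 => 1 | 2 => 1)
    (by
      intro q _
      fin_cases q
      · exact hδu
      · exact huv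
      · exact huw) 3 (by
      intro p
      rw [Fin.sum_univ_three]
      obtain ⟨l, hl⟩ := exists_nrm (av p) hN (fun l => δ * u l)
      have h2 : av p (δ * u l) ≤ cst 3 p * (nrm (av p) (wedge u v) * nrm (av p) (wedge u w)) := by
        have h3 : δ * u l = -((u l * v a - v l * u a) * (u b * w c - w b * u c) +
            (u l * v b - v l * u b) * (u c * w a - w c * u a) +
            (u l * v c - v l * u c) * (u a * w b - w a * u b)) := by
          rw [hδ]
          unfold det3
          ring
        rw [h3, AbsoluteValue.map_neg]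
        have h4 := av_sum p Finset.univ ![(u l * v a - v l * u a) * (u b * w c - w b * u c),
            (u l * v b - v l * u b) * (u c * w a - w c * u a),
            (u l * v c - v l * u c) * (u a * w b - w a * u b)]
            (nrm (av p) (wedge u v) * nrm (av p) (wedge u w))
            (mul_nonneg (nrm_nonneg _ _) (nrm_nonneg _ _)) (by
              intro i _
              fin_cases i
              · show av p ((u l * v a - v l * u a) * (u b * w c - w b * u c)) ≤ _
                rw [map_mul]
                exact mul_le_mul (wedge_le u v p l a) (wedge_le u w p b c) ((av p).nonneg _)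
                  (nrm_nonneg _ _)
              · show av p ((u l * v b - v l * u b) * (u c * w a - w c * u a)) ≤ _
                rw [map_mul]
                exact mul_le_mul (wedge_le u v p l b) (wedge_le u w p c a) ((av p).nonneg _)
                  (nrm_nonneg _ _)
              · show av p ((u l * v c - v l * u c) * (u a * w b - w a * u b)) ≤ _
                rw [map_mul]
                exact mul_le_mul (wedge_le u v p l c) (wedge_le u w p a b) ((av p).nonneg _)
                  (nrm_nonneg _ _)) 3 (by simp)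
        rw [Fin.sum_univ_three] at h4
        exact h4
      rw [hl] at h2
      have h3 := Real.log_le_log (nrm_pos (av p) hδu) h2
      rw [Real.log_mul (cst_pos (by norm_num) p).ne'
        (mul_pos (nrm_pos (av p) huv) (nrm_pos (av p) huw)).ne',
        Real.log_mul (nrm_pos (av p) huv).ne' (nrm_pos (av p) huw).ne'] at h3
      simp only [one_mul, neg_one_mul]
      linarith)
  rw [Fin.sum_univ_three] at h1
  simp only [one_mul, neg_one_mul] at h1
  have h2 : logHeight (fun l => δ * u l) = logHeight u :=
    logHeight_smul_eq_logHeight u h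
  rw [h2] at h1
  linarith

theorem wedge_apply_pair {M : Type} [Field M] {N : ℕ} (u v : Fin N → M) (a b : Fin N) :
    wedge u v (finProdFinEquiv (b, a)) = u a * v b - v a * u b := by
  have h1 : (finProdFinEquiv (b, a)).modNat = a :=
    congrArg Prod.snd (finProdFinEquiv.symm_apply_apply (b, a))
  have h2 : (finProdFinEquiv (b, a)).divNat = b :=
    congrArg Prod.fst (finProdFinEquiv.symm_apply_apply (b, a))
  unfold wedge
  rw [h1, h2]

theorem wedge_ne {M : Type} [Field M] {N : ℕ} {u v : Fin N → M} (h : wedge u v ≠ 0) :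
    ∃ a b, u a * v b - v a * u b ≠ 0 := by
  obtain ⟨c, hc⟩ := Function.ne_iff.1 h
  exact ⟨c.modNat, c.divNat, hc⟩

variable {k L M : Type} [Field k] [NumberField k] [Field L] [NumberField L] [Algebra k L]
  [Field M] [NumberField M] [Algebra k M]

/-- `L` is generated by the quotients of the coordinates -/
def Gen (k : Type) {L : Type} [Field k] [Field L] [Algebra k L] {N : ℕ} (x : Fin N → L) : Prop :=
  IntermediateField.adjoin k (Set.range fun p : Fin N × Fin N => x p.1 / x p.2) = ⊤

theorem conj_ne {N : ℕ} (x : Fin N → L) (hx : Gen k x) (σ τ : L →ₐ[k] M) (hστ : σ ≠ τ) :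
    wedge (fun a => σ (x a)) (fun a => τ (x a)) ≠ 0 := by
  intro h
  apply hστ
  have h1 := IntermediateField.adjoin_toSubalgebra_of_isAlgebraic (F := k)
    (S := Set.range fun p : Fin N × Fin N => x p.1 / x p.2)
    (fun z _ => Algebra.IsAlgebraic.isAlgebraic z)
  unfold Gen at hx
  rw [hx, IntermediateField.top_toSubalgebra] at h1
  refine AlgHom.ext_of_adjoin_eq_top h1.symm ?_
  rintro _ ⟨⟨a, b⟩, rfl⟩
  show σ (x a / x b) = τ (x a / x b)
  rw [map_div₀, map_div₀]
  have h2 := congrFun h (finProdFinEquiv (b, a))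
  rw [wedge_apply_pair] at h2
  by_cases hb : x b = 0
  · rw [hb, map_zero, map_zero, div_zero, div_zero]
  · have h3 : σ (x b) ≠ 0 := (map_ne_zero _).2 hb
    have h4 : τ (x b) ≠ 0 := (map_ne_zero _).2 hb
    rw [div_eq_div_iff h3 h4]
    have h5 : σ (x a) * τ (x b) - τ (x a) * σ (x b) = 0 := h2
    linear_combination h5

theorem logHeight₁_ext (a : k) : logHeight₁ (algebraMap k M a) = finrank k M * logHeight₁ a := by
  rw [logHeight₁_eq_logHeight, logHeight₁_eq_logHeight,
    ← Pool.Agent.Helper259.HtExt.logHeight_ext (K := k) (L := M)]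
  congr 1
  funext i
  fin_cases i
  · rfl
  · simp

/-- the line through collinear conjugates -/
theorem col [IsGalois k M] {N : ℕ} (x : Fin N → L) (σ₀ σ₁ : L →ₐ[k] M)
    (h0 : wedge (fun a => σ₀ (x a)) (fun a => σ₁ (x a)) ≠ 0)
    (hcol : ∀ (ρ : L →ₐ[k] M) (a b c : Fin N), det3 (fun a => σ₀ (x a)) (fun a => σ₁ (x a))
      (fun a => ρ (x a)) a b c = 0) :
    ∃ (i j : Fin N) (a b : Fin N → k), a i = 1 ∧ a j = 0 ∧ b i = 0 ∧ b j = 1 ∧
      (∀ l, x l = algebraMap k L (a l) * x i + algebraMap k L (b l) * x j) ∧
      ∀ l, (finrank k M : ℝ) * logHeight₁ (a l) ≤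
        logHeight (wedge (fun a => σ₀ (x a)) (fun a => σ₁ (x a))) ∧
        (finrank k M : ℝ) * logHeight₁ (b l) ≤
        logHeight (wedge (fun a => σ₀ (x a)) (fun a => σ₁ (x a))) := by
  classical
  obtain ⟨i, j, hij⟩ := wedge_ne h0
  set u : Fin N → M := fun a => σ₀ (x a) with hu
  set v : Fin N → M := fun a => σ₁ (x a) with hv
  set π : M := u i * v j - v i * u j with hπ
  let a' : Fin N → M := fun l => (u l * v j - v l * u j) / π
  let b' : Fin N → M := fun l => (u i * v l - v i * u l) / π
  have hrel : ∀ (ρ : L →ₐ[k] M) (l : Fin N), ρ (x l) = a' l * ρ (x i) + b' l * ρ (x j) := by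
    intro ρ l
    have h1 := hcol ρ l i j
    unfold det3 at h1
    have h2 : π * ρ (x l) = π * (a' l * ρ (x i) + b' l * ρ (x j)) := by
      simp only [a', b']
      rw [mul_add]
      have e1 : π * ((u l * v j - v l * u j) / π * ρ (x i)) =
          (u l * v j - v l * u j) * ρ (x i) := by field_simp
      have e2 : π * ((u i * v l - v i * u l) / π * ρ (x j)) =
          (u i * v l - v i * u l) * ρ (x j) := by field_simp
      rw [e1, e2, hπ]
      linear_combination h1
    exact mul_left_cancel₀ hij h2
  -- rationality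
  have hfix : ∀ (g : M ≃ₐ[k] M) (l : Fin N), g (a' l) = a' l ∧ g (b' l) = b' l := by
    intro g l
    have h1 : ∀ ρ : L →ₐ[k] M, ρ (x l) = g (a' l) * ρ (x i) + g (b' l) * ρ (x j) := by
      intro ρ
      have h2 := hrel ((g.symm : M →ₐ[k] M).comp ρ) l
      have h3 := congrArg g h2
      rw [map_add, map_mul, map_mul] at h3
      simpa using h3
    have h2 := h1 σ₀
    have h3 := h1 σ₁
    have h4 := hrel σ₀ l
    have h5 := hrel σ₁ l
    have h6 : (g (a' l) - a' l) * u i + (g (b' l) - b' l) * u j = 0 := by
      simp only [hu]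
      linear_combination h4 - h2
    have h7 : (g (a' l) - a' l) * v i + (g (b' l) - b' l) * v j = 0 := by
      simp only [hv]
      linear_combination h5 - h3
    have h8 : (g (a' l) - a' l) * π = 0 := by
      rw [hπ]
      linear_combination v j * h6 - u j * h7
    have h9 : (g (b' l) - b' l) * π = 0 := by
      rw [hπ]
      linear_combination u i * h7 - v i * h6
    exact ⟨sub_eq_zero.1 ((mul_eq_zero.1 h8).resolve_right hij),
      sub_eq_zero.1 ((mul_eq_zero.1 h9).resolve_right hij)⟩
  have ha : ∀ l, ∃ c : k, algebraMap k M c = a' l := fun l =>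
    (IsGalois.mem_range_algebraMap_iff_fixed (a' l)).2 fun g => (hfix g l).1
  have hb : ∀ l, ∃ c : k, algebraMap k M c = b' l := fun l =>
    (IsGalois.mem_range_algebraMap_iff_fixed (b' l)).2 fun g => (hfix g l).2
  choose a ha using ha
  choose b hb using hb
  have hinj : Function.Injective (algebraMap k M) := (algebraMap k M).injective
  refine ⟨i, j, a, b, ?_, ?_, ?_, ?_, ?_, ?_⟩
  · apply hinj
    rw [ha, map_one]
    exact div_self hij
  · apply hinj
    rw [ha, map_zero]
    show (u j * v j - v j * u j) / π = 0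
    rw [mul_comm, sub_self, zero_div]
  · apply hinj
    rw [hb, map_zero]
    show (u i * v i - v i * u i) / π = 0
    rw [mul_comm, sub_self, zero_div]
  · apply hinj
    rw [hb, map_one]
    exact div_self hij
  · intro l
    apply σ₀.injective
    show σ₀ (x l) = σ₀ (algebraMap k L (a l) * x i + algebraMap k L (b l) * x j)
    rw [map_add, map_mul, map_mul, σ₀.commutes, σ₀.commutes, ha, hb]
    exact hrel σ₀ l
  · intro l
    constructor
    · rw [← logHeight₁_ext, ha]
      show logHeight₁ ((u l * v j - v l * u j) / π) ≤ _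
      rw [logHeight₁_div_eq_logHeight]
      have h1 : ![u l * v j - v l * u j, π] = wedge u v ∘
          ![finProdFinEquiv (j, l), finProdFinEquiv (j, i)] := by
        funext q
        fin_cases q
        · exact (wedge_apply_pair u v l j).symm
        · exact (wedge_apply_pair u v i j).symm
      rw [h1]
      exact logHeight_comp_le _ _
    · rw [← logHeight₁_ext, hb]
      show logHeight₁ ((u i * v l - v i * u l) / π) ≤ _
      rw [logHeight₁_div_eq_logHeight]
      have h1 : ![u i * v l - v i * u l, π] = wedge u v ∘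
          ![finProdFinEquiv (l, i), finProdFinEquiv (j, i)] := by
        funext q
        fin_cases q
        · exact (wedge_apply_pair u v i l).symm
        · exact (wedge_apply_pair u v i j).symm
      rw [h1]
      exact logHeight_comp_le _ _

/-- **points of almost maximal discriminant lie on lines of small height** -/
theorem line_thm (d N : ℕ) (hd2 : 2 ≤ d) (hN : 1 ≤ N) : ∃ C : ℝ, 0 ≤ C ∧
    ∀ (k L : Type) [Field k] [NumberField k] [Field L] [NumberField L] [Algebra k L],
    finrank k L = d → ∀ (x : Fin N → L), Gen k x → ∀ E : ℝ,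
    E = (2 * (d - 1) : ℕ) * logHeight x -
      Real.log (Ideal.absNorm (differentIdeal (𝓞 k) (𝓞 L))) + finrank ℚ k * C →
    0 ≤ E ∧ (logHeight x ≤ d * E ∨
    ∃ (i j : Fin N) (a b : Fin N → k), a i = 1 ∧ a j = 0 ∧ b i = 0 ∧ b j = 1 ∧
      (∀ l, x l = algebraMap k L (a l) * x i + algebraMap k L (b l) * x j) ∧
      ∀ l, logHeight₁ (a l) ≤ E ∧ logHeight₁ (b l) ≤ E) := by
  classical
  obtain ⟨C1, hC1, hw⟩ := wedge_sum d N (d * d * (N * N)) hN le_rfl
  obtain ⟨C2, hC2, hg⟩ := disc_glob d N ((d * d * (N * N)) ^ (N * N)) (d * d * (N * N) + 1) hd2 hN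
  have hl3 : 0 ≤ Real.log 3 := Real.log_nonneg (by norm_num)
  refine ⟨C1 + C2 + Real.log 3, by positivity, ?_⟩
  intro k L _ _ _ _ _ hd x hx E hE
  obtain ⟨M, _, _, _, _, _, hgal⟩ := exists_M k L
  have hne : Nonempty (L →ₐ[k] M) := ⟨IsScalarTower.toAlgHom k L M⟩
  have hfull : Full k L M := full_gal k L M hne
  let e : Fin d ≃ (L →ₐ[k] M) := Fintype.equivOfCardEq (by
    rw [Fintype.card_fin, hfull.1, hd])
  obtain ⟨hD0, hsum⟩ := hw k L M hd hne e x (fun i j hij => conj_ne x hx (e i) (e j)
    fun h => hij (e.injective h))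
  have hB : 1 ≤ d * d * (N * N) := Nat.mul_pos (Nat.mul_pos (by omega) (by omega))
    (Nat.mul_pos hN hN)
  have hx0 : x ≠ 0 := by
    rintro rfl
    have h1 := conj_ne (M := M) (0 : Fin N → L) hx (e ⟨0, by omega⟩) (e ⟨1, by omega⟩) (by
      intro h
      have := congrArg Fin.val (e.injective h)
      simp at this)
    apply h1
    funext c
    unfold wedge
    simp
  have hglob := hg k L hd x hx0 (fun m => fa x m.1) (fun m => fb x m.1)
    (fun m => comb_fa hB x m.1 (Nat.lt_succ_iff.1 m.2))
    (fun m => comb_fb hB x m.1 (Nat.lt_succ_iff.1 m.2)) hD0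
  have hD : 0 ≤ logHeight (fun m : Fin (d * d * (N * N) + 1) => Dd k d (fa x m.1) (fb x m.1)) :=
    logHeight_nonneg _
  have hq : (0 : ℝ) < finrank ℚ k := by exact_mod_cast finrank_pos
  have hM : (0 : ℝ) < finrank k M := by exact_mod_cast finrank_pos
  have hMQ : (finrank ℚ M : ℝ) = finrank k M * finrank ℚ k := by
    rw [mul_comm]
    exact_mod_cast (finrank_mul_finrank ℚ k M).symm
  rw [hMQ] at hsum
  have hE0 : 0 ≤ E := by
    rw [hE]
    have h1 : (finrank ℚ k : ℝ) * (C1 + C2 + Real.log 3) = finrank ℚ k * C2 +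
      finrank ℚ k * (C1 + Real.log 3) := by ring
    have h2 : 0 ≤ (finrank ℚ k : ℝ) * (C1 + Real.log 3) := by positivity
    linarith
  refine ⟨hE0, ?_⟩
  set W : Fin d → Fin d → ℝ := fun i j =>
    logHeight (wedge (fun a => e i (x a)) (fun a => e j (x a))) with hW
  have hWn : ∀ i j, 0 ≤ W i j := fun i j => logHeight_nonneg _
  have hrow : ∀ s : Finset (Fin d), s ⊆ Finset.Ioi (⟨0, by omega⟩ : Fin d) →
      ∑ j ∈ s, W ⟨0, by omega⟩ j ≤ ∑ i, ∑ j ∈ Finset.Ioi i, W i j := by
    intro s hs
    refine le_trans (Finset.sum_le_sum_of_subset_of_nonneg hs fun j _ _ => hWn _ _) ?_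
    exact Finset.single_le_sum (f := fun i => ∑ j ∈ Finset.Ioi i, W i j)
      (fun i _ => Finset.sum_nonneg fun j _ => hWn i j) (Finset.mem_univ _)
  have hW01 : W ⟨0, by omega⟩ ⟨1, by omega⟩ ≤ ∑ i, ∑ j ∈ Finset.Ioi i, W i j := by
    have := hrow {⟨1, by omega⟩} (by
      intro j hj
      rw [Finset.mem_singleton] at hj
      rw [hj, Finset.mem_Ioi, Fin.lt_def]
      exact Nat.zero_lt_one)
    rwa [Finset.sum_singleton] at this
  have hEE : (finrank k M : ℝ) * logHeight (fun m : Fin (d * d * (N * N) + 1) =>
      Dd k d (fa x m.1) (fb x m.1)) + finrank k M * finrank ℚ k * C1 +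
      finrank k M * finrank ℚ k * Real.log 3 ≤ finrank k M * E := by
    rw [hE]
    have h1 := mul_le_mul_of_nonneg_left hglob hM.le
    have h2 : (finrank k M : ℝ) * ((2 * (d - 1) : ℕ) * logHeight x -
      Real.log (Ideal.absNorm (differentIdeal (𝓞 k) (𝓞 L))) +
        finrank ℚ k * (C1 + C2 + Real.log 3)) =
      finrank k M * ((2 * (d - 1) : ℕ) * logHeight x + finrank ℚ k * C2) -
      finrank k M * Real.log (Ideal.absNorm (differentIdeal (𝓞 k) (𝓞 L))) +
      finrank k M * finrank ℚ k * C1 + finrank k M * finrank ℚ k * Real.log 3 := by ring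
    rw [h2]
    rw [mul_add] at h1
    linarith
  have hMl : 0 ≤ (finrank k M : ℝ) * finrank ℚ k * Real.log 3 := by positivity
  by_cases hcol : ∀ (ρ : L →ₐ[k] M) (a b c : Fin N), det3 (fun a => e ⟨0, by omega⟩ (x a))
      (fun a => e ⟨1, by omega⟩ (x a)) (fun a => ρ (x a)) a b c = 0
  · right
    obtain ⟨i, j, a, b, h1, h2, h3, h4, h5, h6⟩ := col x (e ⟨0, by omega⟩) (e ⟨1, by omega⟩)
      (conj_ne x hx _ _ (by
        intro h
        have := congrArg Fin.val (e.injective h)
        simp at this)) hcol
    refine ⟨i, j, a, b, h1, h2, h3, h4, h5, fun l => ?_⟩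
    have h7 : logHeight (wedge (fun a => e ⟨0, by omega⟩ (x a))
        (fun a => e ⟨1, by omega⟩ (x a))) ≤ finrank k M * E := by
      have : logHeight (wedge (fun a => e ⟨0, by omega⟩ (x a))
        (fun a => e ⟨1, by omega⟩ (x a))) = W ⟨0, by omega⟩ ⟨1, by omega⟩ := rfl
      rw [this]
      have h8 := hWn ⟨0, by omega⟩ ⟨1, by omega⟩
      linarith
    exact ⟨le_of_mul_le_mul_left ((h6 l).1.trans h7) hM,
      le_of_mul_le_mul_left ((h6 l).2.trans h7) hM⟩
  · left
    push Not at hcol
    obtain ⟨ρ, a, b, c, hdet⟩ := hcol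
    obtain ⟨r, rfl⟩ := e.surjective ρ
    have h1 := noncol _ _ _ a b c hdet
    have hr0 : (⟨0, by omega⟩ : Fin d) < r := by
      rw [Fin.lt_def]
      by_contra hcon
      have : r = ⟨0, by omega⟩ := Fin.ext (by
        have : ¬ 0 < r.1 := hcon
        show r.1 = 0
        omega)
      apply hdet
      rw [this]
      unfold det3
      ring
    have hr1 : (⟨1, by omega⟩ : Fin d) ≠ r := by
      intro h
      apply hdet
      rw [← h]
      unfold det3
      ring
    have h2 : W ⟨0, by omega⟩ ⟨1, by omega⟩ + W ⟨0, by omega⟩ r ≤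
        ∑ i, ∑ j ∈ Finset.Ioi i, W i j := by
      have := hrow {⟨1, by omega⟩, r} (by
        intro j hj
        rw [Finset.mem_insert, Finset.mem_singleton] at hj
        rcases hj with hj | hj
        · rw [hj, Finset.mem_Ioi, Fin.lt_def]
          exact Nat.zero_lt_one
        · rw [hj, Finset.mem_Ioi]
          exact hr0)
      rwa [Finset.sum_pair hr1] at this
    have h3 : logHeight (fun a => e ⟨0, by omega⟩ (x a)) ≤
        W ⟨0, by omega⟩ ⟨1, by omega⟩ + W ⟨0, by omega⟩ r + finrank ℚ M * Real.log 3 := h1
    rw [hMQ] at h3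
    have h4 := conj_height (k := k) (e ⟨0, by omega⟩) x
    rw [hd] at h4
    have h5 := hWn ⟨0, by omega⟩ ⟨1, by omega⟩
    have h6 := hWn ⟨0, by omega⟩ r
    have h7 : logHeight (fun a => e ⟨0, by omega⟩ (x a)) ≤ finrank k M * E := by linarith
    have h8 := mul_le_mul_of_nonneg_left h7 (Nat.cast_nonneg (α := ℝ) d)
    rw [h4] at h8
    have h9 : (d : ℝ) * (finrank k M * E) = finrank k M * (d * E) := by ring
    rw [h9] at h8
    exact le_of_mul_le_mul_left h8 hM

end Pool.Agent.N750
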