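import Mathlib
import Pool.Agent.N750.Line

/-!
The trivial bound for the proximity of a point to a hypersurface.
-/

set_option autoImplicit false
set_option linter.unusedSectionVars false

open Finset Filter Topology

namespace Pool.Agent.N750

open NumberField IsDedekindDomain Height Module
open Pool.Agent.W180.OP (Pl av wt nrm le_nrm nrm_pos wt_nonneg exists_nrm nrm_nonneg)

/-- partial sums of non-negative local terms -/
theorem ht_part {K : Type} [Field K] [NumberField K] {ι : Type} (s : Finset ι) (n : ι → ℕ)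
    (y : ∀ i, Fin (n i) → K) (c : ι → ℝ) (hy : ∀ i ∈ s, y i ≠ 0) (B : ℝ)
    (h : ∀ p : Pl K, 0 ≤ ∑ i ∈ s, c i * Real.log (nrm (av p) (y i)) + Real.log (cst B p))
    (W : Finset (Pl K)) :
    ∑ p ∈ W, wt p * (∑ i ∈ s, c i * Real.log (nrm (av p) (y i)) + Real.log (cst B p)) ≤
      ∑ i ∈ s, c i * logHeight (y i) + finrank ℚ K * Real.log B := by
  classical
  have hfin : (⋃ i ∈ s, {v : HeightOneSpectrum (𝓞 K) |
      nrm (Pool.Agent.W180.OP.fv v) (y i) ≠ 1}).Finite :=
    s.finite_toSet.biUnion fun i hi => Pool.Agent.R405.nrm_finite (y i) (hy i hi)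
  set T := hfin.toFinset ∪ W.toRight with hT
  have h1 : ∀ i ∈ s, logHeight (y i) = ∑ w : InfinitePlace K, (w.mult : ℝ) *
      Real.log (nrm w.1 (y i)) + ∑ v ∈ T, Real.log (nrm (Pool.Agent.W180.OP.fv v) (y i)) := by
    intro i hi
    refine Pool.Agent.R405.logHeight_sum (y i) (hy i hi) T fun v hv => ?_
    by_contra hne
    apply hv
    rw [hT, Finset.mem_union, Set.Finite.mem_toFinset]
    exact Or.inl (Set.mem_biUnion (Finset.mem_coe.2 hi) hne)
  set 𝒜 : Finset (Pl K) := (Finset.univ : Finset (InfinitePlace K)).disjSum T with h𝒜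
  have hsum : ∀ g : Pl K → ℝ, ∑ p ∈ 𝒜, wt p * g p =
      ∑ w : InfinitePlace K, (w.mult : ℝ) * g (Sum.inl w) + ∑ v ∈ T, g (Sum.inr v) := by
    intro g
    rw [h𝒜, Finset.sum_disjSum]
    congr 1
    exact Finset.sum_congr rfl fun v _ => one_mul _
  have hW : W ⊆ 𝒜 := by
    intro p hp
    rw [h𝒜, Finset.mem_disjSum]
    rcases p with w | v
    · exact Or.inl ⟨w, Finset.mem_univ _, rfl⟩
    · refine Or.inr ⟨v, ?_, rfl⟩
      rw [hT, Finset.mem_union, Finset.mem_toRight]
      exact Or.inr hp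
  refine (Finset.sum_le_sum_of_subset_of_nonneg hW fun p _ _ =>
    mul_nonneg (wt_nonneg p) (h p)).trans (le_of_eq ?_)
  rw [hsum]
  have h3 : (∑ w : InfinitePlace K, (w.mult : ℝ)) = finrank ℚ K := by
    rw [← NumberField.totalWeight_eq_finrank, NumberField.totalWeight_eq_sum_mult]
    push_cast
    rfl
  have h4 : ∀ v : HeightOneSpectrum (𝓞 K), Real.log (cst B (Sum.inr v : Pl K)) = 0 :=
    fun v => Real.log_one
  have hR : ∑ i ∈ s, c i * logHeight (y i) =
      ∑ i ∈ s, c i * ∑ w : InfinitePlace K, (w.mult : ℝ) * Real.log (nrm w.1 (y i)) +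
      ∑ i ∈ s, c i * ∑ v ∈ T, Real.log (nrm (Pool.Agent.W180.OP.fv v) (y i)) := by
    rw [← Finset.sum_add_distrib]
    exact Finset.sum_congr rfl fun i hi => by rw [h1 i hi, mul_add]
  have hL1 : ∑ w : InfinitePlace K, (w.mult : ℝ) * (∑ i ∈ s, c i *
      Real.log (nrm (av (Sum.inl w)) (y i)) + Real.log (cst B (Sum.inl w : Pl K))) =
      ∑ w : InfinitePlace K, (w.mult : ℝ) * ∑ i ∈ s, c i *
      Real.log (nrm (av (Sum.inl w)) (y i)) +
      ∑ w : InfinitePlace K, (w.mult : ℝ) * Real.log (cst B (Sum.inl w : Pl K)) := by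
    rw [← Finset.sum_add_distrib]
    exact Finset.sum_congr rfl fun w _ => mul_add _ _ _
  have hL2 : ∑ v ∈ T, (∑ i ∈ s, c i *
      Real.log (nrm (av (Sum.inr v : Pl K)) (y i)) + Real.log (cst B (Sum.inr v : Pl K))) =
      ∑ v ∈ T, ∑ i ∈ s, c i * Real.log (nrm (av (Sum.inr v : Pl K)) (y i)) := by
    exact Finset.sum_congr rfl fun v _ => by rw [h4, add_zero]
  rw [hR, hL1, hL2, ← h3, Finset.sum_mul]
  have e1 : ∑ w : InfinitePlace K, (w.mult : ℝ) *
      ∑ i ∈ s, c i * Real.log (nrm (av (Sum.inl w)) (y i)) =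
      ∑ i ∈ s, c i * ∑ w : InfinitePlace K, (w.mult : ℝ) * Real.log (nrm w.1 (y i)) := by
    simp_rw [Finset.mul_sum]
    rw [Finset.sum_comm]
    exact Finset.sum_congr rfl fun i _ => Finset.sum_congr rfl fun w _ => by
      show (w.mult : ℝ) * (c i * Real.log (nrm w.1 (y i))) = _
      ring
  have e2 : ∑ v ∈ T, ∑ i ∈ s, c i * Real.log (nrm (av (Sum.inr v : Pl K)) (y i)) =
      ∑ i ∈ s, c i * ∑ v ∈ T, Real.log (nrm (Pool.Agent.W180.OP.fv v) (y i)) := by
    simp_rw [Finset.mul_sum]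
    rw [Finset.sum_comm]
    rfl
  rw [e1, e2]
  have e3 : ∑ w : InfinitePlace K, (w.mult : ℝ) * Real.log (cst B (Sum.inl w : Pl K)) =
      ∑ w : InfinitePlace K, (w.mult : ℝ) * Real.log B := rfl
  rw [e3]
  ring

/-- the size of the values of a homogeneous polynomial -/
theorem av_poly {k : Type} [Field k] [NumberField k] {N : ℕ} (F : MvPolynomial (Fin N) k)
    {q : ℕ} (hF : F.IsHomogeneous q) : ∃ (m : ℕ) (c : Fin (m + 1) → k) (B : ℝ), 1 ≤ B ∧ c 0 = 1 ∧
    ∀ (L : Type) [Field L] [NumberField L] [Algebra k L] (x : Fin N → L) (p : Pl L),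
      av p (MvPolynomial.aeval x F) ≤ cst B p *
        (nrm (av p) (fun i => algebraMap k L (c i)) * nrm (av p) x ^ q) := by
  classical
  let e := F.support.equivFin
  refine ⟨F.support.card, Fin.cons 1 (fun i => F.coeff (e.symm i).1),
    max 1 F.support.card, le_max_left _ _, Fin.cons_zero _ _, ?_⟩
  intro L _ _ _ x p
  set c : Fin (F.support.card + 1) → k := Fin.cons 1 (fun i => F.coeff (e.symm i).1) with hc
  set Q := nrm (av p) (fun i => algebraMap k L (c i)) with hQ
  have hcoef : ∀ m ∈ F.support, av p (algebraMap k L (F.coeff m)) ≤ Q := by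
    intro m hm
    have h1 := le_nrm (av p) (fun i => algebraMap k L (c i)) (e ⟨m, hm⟩).succ
    simp only [hc, Fin.cons_succ, Equiv.symm_apply_apply] at h1
    rw [hQ, hc]
    exact h1
  rw [MvPolynomial.aeval_def, MvPolynomial.eval₂_eq]
  refine av_sum p F.support _ (Q * nrm (av p) x ^ q)
    (mul_nonneg (nrm_nonneg _ _) (pow_nonneg (nrm_nonneg _ _) _)) (fun m hm => ?_)
    (max 1 F.support.card) (le_max_right _ _)
  rw [map_mul, map_prod]
  refine mul_le_mul (hcoef m hm) ?_ (Finset.prod_nonneg fun i _ => (av p).nonneg _)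
    (nrm_nonneg _ _)
  have hdeg : ∑ i ∈ m.support, m i = q := by
    have h2 := hF (MvPolynomial.mem_support_iff.1 hm)
    rw [Finsupp.weight_apply, Finsupp.sum] at h2
    simpa using h2
  rw [← hdeg, ← Finset.prod_pow_eq_pow_sum]
  refine Finset.prod_le_prod (fun i _ => (av p).nonneg _) fun i _ => ?_
  rw [map_pow]
  exact pow_le_pow_left₀ ((av p).nonneg _) (le_nrm (av p) x i) _

/-- **the trivial bound** -/
theorem triv_bound {k : Type} [Field k] [NumberField k] {N : ℕ} (F : MvPolynomial (Fin N) k)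
    {q : ℕ} (hF : F.IsHomogeneous q) : ∃ C : ℝ, 0 ≤ C ∧
    ∀ (L : Type) [Field L] [NumberField L] [Algebra k L] (x : Fin N → L), x ≠ 0 →
      MvPolynomial.aeval x F ≠ 0 → ∀ W : Finset (Pl L),
      ∑ p ∈ W, wt p * (q * Real.log (nrm (av p) x) - Real.log (av p (MvPolynomial.aeval x F))) ≤
        q * logHeight x + finrank k L * C := by
  classical
  obtain ⟨m, c, B, hB, hc0, hbound⟩ := av_poly F hF
  have hlB : 0 ≤ Real.log B := Real.log_nonneg hB
  refine ⟨logHeight c + finrank ℚ k * Real.log B,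
    add_nonneg (logHeight_nonneg _) (mul_nonneg (Nat.cast_nonneg _) hlB), ?_⟩
  intro L _ _ _ x hx hFx W
  set cL : Fin (m + 1) → L := fun i => algebraMap k L (c i) with hcL
  have hcL1 : cL 0 = 1 := by
    rw [hcL]
    simp only
    rw [hc0, map_one]
  have hcL0 : cL ≠ 0 := fun h => one_ne_zero (hcL1.symm.trans (congrFun h 0))
  have hcn : ∀ p : Pl L, 1 ≤ nrm (av p) cL := by
    intro p
    have := le_nrm (av p) cL 0
    rwa [hcL1, map_one] at this
  have hF1 : ∀ p : Pl L, nrm (av p) (fun _ : Fin 1 => MvPolynomial.aeval x F) =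
      av p (MvPolynomial.aeval x F) := fun p => by
    unfold nrm
    exact ciSup_const (ι := Fin 1) (a := av p (MvPolynomial.aeval x F))
  have hcst : ∀ p : Pl L, 0 ≤ Real.log (cst B p) := fun p => Real.log_nonneg (one_le_cst hB p)
  have h1 := ht_part (K := L) (Finset.univ : Finset (Fin 3))
    (fun i => match i with | 0 => N | 1 => 1 | 2 => m + 1)
    (fun i => match i with
      | 0 => x | 1 => fun _ => MvPolynomial.aeval x F | 2 => cL)
    (fun i => match i with | 0 => (q : ℝ) | 1 => -1 | 2 => 1) (by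
      intro i _
      fin_cases i
      · exact hx
      · exact fun h => hFx (congrFun h (0 : Fin 1))
      · exact hcL0) B (by
      intro p
      rw [Fin.sum_univ_three]
      show 0 ≤ (q : ℝ) * Real.log (nrm (av p) x) + -1 * Real.log (nrm (av p) (fun _ : Fin 1 =>
        MvPolynomial.aeval x F)) + 1 * Real.log (nrm (av p) cL) + _
      rw [hF1]
      have h2 := Real.log_le_log ((av p).pos_iff.2 hFx) (hbound L x p)
      rw [Real.log_mul (cst_pos (by linarith) p).ne'
        (mul_pos (nrm_pos _ hcL0) (pow_pos (nrm_pos _ hx) _)).ne',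
        Real.log_mul (nrm_pos _ hcL0).ne' (pow_pos (nrm_pos _ hx) _).ne', Real.log_pow] at h2
      linarith) W
  rw [Fin.sum_univ_three] at h1
  have h2 : ∑ p ∈ W, wt p * (q * Real.log (nrm (av p) x) -
      Real.log (av p (MvPolynomial.aeval x F))) ≤
      ∑ p ∈ W, wt p * ((q * Real.log (nrm (av p) x) - Real.log (av p (MvPolynomial.aeval x F))) +
        (Real.log (nrm (av p) cL) + Real.log (cst B p))) := by
    refine Finset.sum_le_sum fun p _ => mul_le_mul_of_nonneg_left ?_ (wt_nonneg p)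
    have := hcst p
    have := Real.log_nonneg (hcn p)
    linarith
  refine h2.trans ((le_of_eq (Finset.sum_congr rfl fun p _ => ?_)).trans
    (h1.trans (le_of_eq ?_)))
  · rw [Fin.sum_univ_three]
    show _ = wt p * ((q : ℝ) * Real.log (nrm (av p) x) + -1 * Real.log (nrm (av p) (fun _ : Fin 1 =>
      MvPolynomial.aeval x F)) + 1 * Real.log (nrm (av p) cL) + _)
    rw [hF1]
    ring
  show (q : ℝ) * logHeight x + -1 * logHeight (fun _ : Fin 1 => MvPolynomial.aeval x F) +
    1 * logHeight cL + finrank ℚ L * Real.log B = _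
  rw [logHeight_one]
  have h3 : logHeight cL = finrank k L * logHeight c :=
    Pool.Agent.Helper259.HtExt.logHeight_ext c
  have h4 : (finrank ℚ L : ℝ) = finrank ℚ k * finrank k L := by
    exact_mod_cast (finrank_mul_finrank ℚ k L).symm
  rw [h3, h4]
  ring

end Pool.Agent.N750
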