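import Mathlib
import Pool.Agent.N750.Triv
import Pool.Agent.N750.Mult
import Pool.Agent.N750.Cmp

/-!
The data over the base field attached to a point on a line.
-/

set_option autoImplicit false
set_option linter.unusedSectionVars false

open Finset Filter Topology

namespace Pool.Agent.N750

open NumberField IsDedekindDomain Height Module
open Pool.Agent.W180.OP (Pl av wt nrm le_nrm nrm_pos wt_nonneg exists_nrm nrm_nonneg)

variable {k K : Type} [Field k] [NumberField k] [Field K] [NumberField K] [Algebra k K]

/-- the values of a homogeneous polynomial -/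
theorem aeval_hom {L : Type} [Field L] [Algebra k L] {N q : ℕ} {F : MvPolynomial (Fin N) k}
    (hF : F.IsHomogeneous q) (c : L) (x : Fin N → L) :
    MvPolynomial.aeval (fun l => c * x l) F = c ^ q * MvPolynomial.aeval x F := by
  rw [MvPolynomial.aeval_def, MvPolynomial.aeval_def, MvPolynomial.eval₂_eq,
    MvPolynomial.eval₂_eq, Finset.mul_sum]
  refine Finset.sum_congr rfl fun m hm => ?_
  simp only [mul_pow]
  rw [Finset.prod_mul_distrib, Finset.prod_pow_eq_pow_sum]
  have hdeg : ∑ i ∈ m.support, m i = q := by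
    have h2 := hF (MvPolynomial.mem_support_iff.1 hm)
    rw [Finsupp.weight_apply, Finsupp.sum] at h2
    simpa using h2
  rw [hdeg]
  ring

theorem map_bev {A B : Type} [Field A] [Field B] (φ : A →+* B) (d : ℕ) (f : Fin (d + 1) → A)
    (v w : A) : φ (bev d f v w) = bev d (fun j => φ (f j)) (φ v) (φ w) := by
  unfold bev
  rw [map_sum]
  refine Finset.sum_congr rfl fun j _ => ?_
  rw [map_mul, map_mul, map_pow, map_pow]

/-- the norm of the value of a product of linear forms -/
theorem norm_prod {n q d : ℕ} (F : MvPolynomial (Fin n) k) (H : Fin q → Fin n → K)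
    (hF : F.map (algebraMap k K) = ∏ i, ∑ j, MvPolynomial.C (H i j) * MvPolynomial.X j)
    {L : Type} [Field L] [NumberField L] [Algebra k L] (a b : Fin n → k) (y : L)
    {f : Fin (d + 1) → k} (hf : IsNF d y f) :
    algebraMap k K (Algebra.norm k (MvPolynomial.aeval (fun l => algebraMap k L (a l) +
      algebraMap k L (b l) * y) F)) =
      ∏ s, bev d (fun j => algebraMap k K (f j)) (∑ l, H s l * algebraMap k K (b l))
        (∑ l, H s l * algebraMap k K (a l)) := by
  classical
  let Ω := AlgebraicClosure K
  have hfull := full_closed k L Ω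
  apply (algebraMap K Ω).injective
  rw [← IsScalarTower.algebraMap_apply k K Ω, hfull.2, map_prod]
  have h1 : ∀ σ : L →ₐ[k] Ω, σ (MvPolynomial.aeval (fun l => algebraMap k L (a l) +
      algebraMap k L (b l) * y) F) =
      ∏ s, (algebraMap K Ω (∑ l, H s l * algebraMap k K (a l)) +
        algebraMap K Ω (∑ l, H s l * algebraMap k K (b l)) * σ y) := by
    intro σ
    have e1 : σ (MvPolynomial.aeval (fun l => algebraMap k L (a l) +
      algebraMap k L (b l) * y) F) = MvPolynomial.aeval (fun l => σ (algebraMap k L (a l) +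
      algebraMap k L (b l) * y)) F := MvPolynomial.comp_aeval_apply _ σ F
    rw [e1, ← MvPolynomial.aeval_map_algebraMap K, hF, map_prod]
    refine Finset.prod_congr rfl fun s _ => ?_
    rw [map_sum, map_sum, map_sum, Finset.sum_mul, ← Finset.sum_add_distrib]
    refine Finset.sum_congr rfl fun l _ => ?_
    rw [map_mul, MvPolynomial.aeval_C, MvPolynomial.aeval_X, map_add, map_mul, σ.commutes,
      σ.commutes, map_mul, map_mul, IsScalarTower.algebraMap_apply k K Ω,
      IsScalarTower.algebraMap_apply k K Ω]
    ring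
  rw [Finset.prod_congr rfl fun σ _ => h1 σ, Finset.prod_comm]
  refine Finset.prod_congr rfl fun s _ => ?_
  rw [hf Ω hfull, map_bev]
  congr 1

/-- the norm of a point on a line -/
theorem line_nrm {L : Type} [Field L] [NumberField L] [Algebra k L] {N : ℕ} (a b : Fin N → k)
    (y : L) (w : Pl L) :
    nrm (av w) (fun l => algebraMap k L (a l) + algebraMap k L (b l) * y) ≤
      cst 2 w * (nrm (av w) (fun i => algebraMap k L ((Fin.append a b : Fin (N + N) → k) i)) *
        nrm (av w) ![1, y]) := by
  rcases Nat.eq_zero_or_pos N with rfl | hN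
  · have : nrm (av w) (fun l : Fin 0 => algebraMap k L (a l) + algebraMap k L (b l) * y) = 0 := by
      unfold nrm
      exact Real.iSup_of_isEmpty _
    rw [this]
    exact mul_nonneg (cst_pos (by norm_num) w).le (mul_nonneg (nrm_nonneg _ _) (nrm_nonneg _ _))
  obtain ⟨l, hl⟩ := exists_nrm (av w) hN
    (fun l => algebraMap k L (a l) + algebraMap k L (b l) * y)
  rw [← hl]
  have h1 := av_sum w (Finset.univ : Finset (Fin 2)) ![algebraMap k L (a l),
    algebraMap k L (b l) * y] (nrm (av w) (fun i => algebraMap k L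
      ((Fin.append a b : Fin (N + N) → k) i)) * nrm (av w) ![1, y])
    (mul_nonneg (nrm_nonneg _ _) (nrm_nonneg _ _)) (by
      intro i _
      have e1 : av w (1 : L) ≤ nrm (av w) ![1, y] := le_nrm (av w) ![1, y] 0
      have e2 : av w y ≤ nrm (av w) ![1, y] := le_nrm (av w) ![1, y] 1
      have e3 := le_nrm (av w) (fun i => algebraMap k L
        ((Fin.append a b : Fin (N + N) → k) i)) (Fin.castAdd N l)
      have e4 := le_nrm (av w) (fun i => algebraMap k L
        ((Fin.append a b : Fin (N + N) → k) i)) (Fin.natAdd N l)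
      simp only [Fin.append_left] at e3
      simp only [Fin.append_right] at e4
      fin_cases i
      · show av w (algebraMap k L (a l)) ≤ _
        calc av w (algebraMap k L (a l)) = av w (algebraMap k L (a l)) * av w 1 := by
              rw [map_one, mul_one]
          _ ≤ _ := mul_le_mul e3 e1 ((av w).nonneg _) (nrm_nonneg _ _)
      · show av w (algebraMap k L (b l) * y) ≤ _
        rw [map_mul]
        exact mul_le_mul e4 e2 ((av w).nonneg _) (nrm_nonneg _ _)) 2 (by simp)
  rw [Fin.sum_univ_two] at h1
  exact h1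

/-- the norm of a multiple -/
theorem nrm_smul {L : Type} [Field L] [NumberField L] {N : ℕ} (c : L) (x : Fin N → L) (w : Pl L) :
    nrm (av w) (fun l => c * x l) = av w c * nrm (av w) x := by
  unfold nrm
  rw [Real.mul_iSup_of_nonneg ((av w).nonneg _)]
  simp only [map_mul]

/-- the data over the base field -/
def KD (d n q : ℕ) (H : Fin q → Fin (n + 1) → K) (S : Finset (Pl k)) (C E h P : ℝ) : Prop :=
  ∃ (a b : Fin (n + 1) → k) (f : Fin (d + 1) → k) (z : k), z ≠ 0 ∧ f ≠ 0 ∧
    (∀ l, logHeight₁ (a l) ≤ E ∧ logHeight₁ (b l) ≤ E) ∧ logHeight f ≤ h + C ∧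
    algebraMap k K z = ∏ s, bev d (fun j => algebraMap k K (f j))
      (∑ l, H s l * algebraMap k K (b l)) (∑ l, H s l * algebraMap k K (a l)) ∧
    P ≤ ∑ v ∈ S, (q * (wt v * Real.log (nrm (av v) f)) - wt v * Real.log (av v z)) + C + C * E ∧
    ∀ (T : Finset (Fin q)) (r : Fin q → Fin q), (∀ s ∈ T, r s ∉ T) →
      (∀ s ∈ T, (∑ l, H (r s) l * algebraMap k K (a l)) * (∑ l, H s l * algebraMap k K (b l)) =
        (∑ l, H s l * algebraMap k K (a l)) * (∑ l, H (r s) l * algebraMap k K (b l))) →
      T.card < n

/-- **the passage to the base field** -/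
theorem kdata {n q d : ℕ} (hd1 : 1 ≤ d) (F : MvPolynomial (Fin (n + 1)) k)
    (H : Fin q → Fin (n + 1) → K)
    (hF : F.map (algebraMap k K) = ∏ i, ∑ j, MvPolynomial.C (H i j) * MvPolynomial.X j)
    (hFq : F.IsHomogeneous q) (G : MvPolynomial (Fin (n + 1)) k)
    (hG : ∀ (L : Type) [Field L] [Algebra k L]
      [Algebra.IsAlgebraic k L] (x : Fin (n + 1) → L), MvPolynomial.aeval x G ≠ 0 →
      ∀ (i j : Fin (n + 1)) (a b : Fin (n + 1) → k), a i = 1 → a j = 0 → b i = 0 → b j = 1 →
      (∀ l, x l = algebraMap k L (a l) * x i + algebraMap k L (b l) * x j) →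
      ∀ (T : Finset (Fin q)) (r : Fin q → Fin q), (∀ s ∈ T, r s ∉ T) →
      (∀ s ∈ T, (∑ l, H (r s) l * algebraMap k K (a l)) * (∑ l, H s l * algebraMap k K (b l)) =
        (∑ l, H s l * algebraMap k K (a l)) * (∑ l, H (r s) l * algebraMap k K (b l))) →
      T.card < n ∨ n = 0 ∧ T.card = 0) (S : Finset (Pl k)) :
    ∃ C : ℝ, 0 ≤ C ∧ ∀ (L : Type) [Field L] [NumberField L] [Algebra k L], finrank k L = d →
      ∀ (x : Fin (n + 1) → L), MvPolynomial.aeval x F ≠ 0 → MvPolynomial.aeval x G ≠ 0 →
      ∀ (i j : Fin (n + 1)) (a b : Fin (n + 1) → k) (E : ℝ), x i ≠ 0 →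
        a i = 1 → a j = 0 → b i = 0 → b j = 1 →
        (∀ l, x l = algebraMap k L (a l) * x i + algebraMap k L (b l) * x j) →
        (∀ l, logHeight₁ (a l) ≤ E ∧ logHeight₁ (b l) ≤ E) →
        KD d n q H S C E (logHeight x) (∑ v ∈ S, ∑ w ∈ ab L v,
          wt w * (q * Real.log (nrm (av w) x) - Real.log (av w (MvPolynomial.aeval x F)))) := by
  classical
  choose c hc0 hc using fun v : Pl k => loc_cmp v d
  have hl2 : 0 ≤ Real.log 2 := Real.log_nonneg (by norm_num)
  set C : ℝ := finrank ℚ k * (d * Real.log 2) +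
    q * ∑ v ∈ S, (2 * d * Real.log 2 + c v) + q * (d * (2 * (n + 1))) with hC
  have hC1 : 0 ≤ (finrank ℚ k : ℝ) * (d * Real.log 2) := by positivity
  have hC2 : 0 ≤ (q : ℝ) * ∑ v ∈ S, (2 * d * Real.log 2 + c v) := by
    refine mul_nonneg (Nat.cast_nonneg _) (Finset.sum_nonneg fun v _ => ?_)
    have := hc0 v
    positivity
  have hC3 : 0 ≤ (q : ℝ) * (d * (2 * (n + 1))) := by positivity
  refine ⟨C, by linarith, ?_⟩
  intro L _ _ _ hd x hFx hGx i j a b E hxi hai haj hbi hbj hline hE
  have hE0 : 0 ≤ E := (zero_le_logHeight₁ _).trans (hE i).1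
  set y : L := x j / x i with hy
  set z : Fin (n + 1) → L := fun l => algebraMap k L (a l) + algebraMap k L (b l) * y with hz
  have hxz : x = fun l => x i * z l := by
    funext l
    simp only [hz, hy]
    conv_lhs => rw [hline l]
    field_simp
  have hFxz : MvPolynomial.aeval x F = x i ^ q * MvPolynomial.aeval z F := by
    conv_lhs => rw [hxz]
    exact aeval_hom hFq _ _
  have hFz : MvPolynomial.aeval z F ≠ 0 := by
    intro h
    apply hFx
    rw [hFxz, h, mul_zero]
  obtain ⟨f, hf⟩ := exists_isNF hd y
  have hz0 : z ≠ 0 := by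
    intro h
    have := congrFun h i
    simp only [hz, hai, hbi, map_one, map_zero, zero_mul, add_zero, Pi.zero_apply] at this
    exact one_ne_zero this
  have hNz : Algebra.norm k (MvPolynomial.aeval z F) ≠ 0 := Algebra.norm_ne_zero_iff.2 hFz
  have hij : i ≠ j := by
    rintro rfl
    rw [hai] at haj
    exact one_ne_zero haj
  have hn : n ≠ 0 := by
    rintro rfl
    exact hij (Fin.ext (by have := i.2; have := j.2; omega))
  refine ⟨a, b, f, Algebra.norm k (MvPolynomial.aeval z F), hNz, isNF_ne hf, hE, ?_,
    norm_prod F H hF a b y hf, ?_, ?_⟩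
  · have h1 := isNF_height hd y hf
    have h2 : logHeight ![1, y] ≤ logHeight x := by
      have h3 : (![1, y] : Fin 2 → L) = (x i)⁻¹ • (x ∘ ![i, j]) := by
        funext s
        fin_cases s
        · show (1 : L) = (x i)⁻¹ * x i
          rw [inv_mul_cancel₀ hxi]
        · show y = (x i)⁻¹ * x j
          rw [hy]
          field_simp
      rw [h3, logHeight_smul_eq_logHeight _ (inv_ne_zero hxi)]
      exact logHeight_comp_le _ _
    linarith
  · -- the main estimate
    have hcv : (Fin.append a b : Fin ((n + 1) + (n + 1)) → k) (Fin.castAdd (n + 1) i) = 1 := by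
      rw [Fin.append_left, hai]
    have hcv0 : (Fin.append a b : Fin ((n + 1) + (n + 1)) → k) ≠ 0 := fun h =>
      one_ne_zero (hcv.symm.trans (congrFun h _))
    have hpart := part_le (Fin.append a b : Fin ((n + 1) + (n + 1)) → k) _ hcv S
    have hht : logHeight (Fin.append a b : Fin ((n + 1) + (n + 1)) → k) ≤ 2 * (n + 1) * E := by
      refine (logHeight_le_sum _).trans ?_
      rw [Fin.sum_univ_add]
      simp only [Fin.append_left, Fin.append_right]
      have e1 := Finset.sum_le_sum fun l (_ : l ∈ Finset.univ) => (hE l).1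
      have e2 := Finset.sum_le_sum fun l (_ : l ∈ Finset.univ) => (hE l).2
      rw [Finset.sum_const, Finset.card_univ, Fintype.card_fin, nsmul_eq_mul] at e1 e2
      push_cast at e1 e2
      linarith
    have h1y : (![1, y] : Fin 2 → L) ≠ 0 := fun h => one_ne_zero (congrFun h 0)
    have hcL0 : (fun i => algebraMap k L ((Fin.append a b : Fin ((n + 1) + (n + 1)) → k) i)) ≠ 0 := by
      intro h
      have := congrFun h (Fin.castAdd (n + 1) i)
      simp only [hcv, map_one, Pi.zero_apply] at this
      exact one_ne_zero this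
    have hloc : ∀ v ∈ S, ∑ w ∈ ab L v, wt w * (q * Real.log (nrm (av w) x) -
        Real.log (av w (MvPolynomial.aeval x F))) ≤
        (q * (wt v * Real.log (nrm (av v) f)) - wt v * Real.log (av v (Algebra.norm k
          (MvPolynomial.aeval z F)))) + q * (2 * d * Real.log 2 + c v) +
        q * (d * (wt v * Real.log (nrm (av v) (Fin.append a b : Fin ((n + 1) + (n + 1)) → k)))) := by
      intro v _
      have e1 : ∀ w ∈ ab L v, wt w * (q * Real.log (nrm (av w) x) -
          Real.log (av w (MvPolynomial.aeval x F))) ≤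
          q * (2 * Real.log 2 + wt w * Real.log (nrm (av w) (fun i => algebraMap k L
            ((Fin.append a b : Fin ((n + 1) + (n + 1)) → k) i))) +
              wt w * Real.log (nrm (av w) ![1, y])) -
          wt w * Real.log (av w (MvPolynomial.aeval z F)) := by
        intro w _
        have hzp := nrm_pos (av w) hz0
        have hxip : 0 < av w (x i) := (av w).pos_iff.2 hxi
        have hFzp : 0 < av w (MvPolynomial.aeval z F) := (av w).pos_iff.2 hFz
        have g1 : Real.log (nrm (av w) x) = Real.log (av w (x i)) + Real.log (nrm (av w) z) := by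
          conv_lhs => rw [hxz]
          rw [nrm_smul, Real.log_mul hxip.ne' hzp.ne']
        have g2 : Real.log (av w (MvPolynomial.aeval x F)) = q * Real.log (av w (x i)) +
            Real.log (av w (MvPolynomial.aeval z F)) := by
          rw [hFxz, map_mul, map_pow, Real.log_mul (pow_pos hxip _).ne' hFzp.ne', Real.log_pow]
        rw [g1, g2]
        have g3 := Real.log_le_log hzp (line_nrm a b y w)
        rw [Real.log_mul (cst_pos (by norm_num) w).ne' (mul_pos (nrm_pos _ hcL0)
          (nrm_pos _ h1y)).ne', Real.log_mul (nrm_pos _ hcL0).ne' (nrm_pos _ h1y).ne'] at g3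
        have g4 : Real.log (cst 2 w) ≤ Real.log 2 := by
          rcases w with w | w
          · exact le_rfl
          · show Real.log 1 ≤ _
            rw [Real.log_one]
            exact hl2
        have g5 : wt w * Real.log (nrm (av w) z) ≤ 2 * Real.log 2 + wt w * Real.log (nrm (av w)
            (fun i => algebraMap k L ((Fin.append a b : Fin ((n + 1) + (n + 1)) → k) i))) +
              wt w * Real.log (nrm (av w) ![1, y]) := by
          have g6 := mul_le_mul_of_nonneg_left g3 (wt_nonneg w)
          have g7 : wt w * Real.log (cst 2 w) ≤ 2 * Real.log 2 :=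
            (mul_le_mul_of_nonneg_left g4 (wt_nonneg w)).trans
              (mul_le_mul_of_nonneg_right (wt_le_two w) hl2)
          rw [mul_add, mul_add] at g6
          linarith
        have g8 := mul_le_mul_of_nonneg_left g5 (Nat.cast_nonneg (α := ℝ) q)
        linarith
      refine (Finset.sum_le_sum e1).trans ?_
      rw [Finset.sum_sub_distrib, ← Finset.mul_sum, Finset.sum_add_distrib,
        Finset.sum_add_distrib, Finset.sum_const, nsmul_eq_mul, efn v _ hcv0, nf v _ hFz, hd]
      have e2 := hc v L hd y f hf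
      have e3 : ((ab L v).card : ℝ) * (2 * Real.log 2) ≤ d * (2 * Real.log 2) := by
        refine mul_le_mul_of_nonneg_right ?_ (by positivity)
        have := ab_card (L := L) v
        rw [hd] at this
        exact_mod_cast this
      have e4 : (q : ℝ) * (((ab L v).card : ℝ) * (2 * Real.log 2) +
          d * (wt v * Real.log (nrm (av v) (Fin.append a b : Fin ((n + 1) + (n + 1)) → k))) +
          ∑ w ∈ ab L v, wt w * Real.log (nrm (av w) ![1, y])) ≤
          q * (d * (2 * Real.log 2) +
          d * (wt v * Real.log (nrm (av v) (Fin.append a b : Fin ((n + 1) + (n + 1)) → k))) +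
          (wt v * Real.log (nrm (av v) f) + c v)) :=
        mul_le_mul_of_nonneg_left (by linarith) (Nat.cast_nonneg _)
      linarith
    refine (Finset.sum_le_sum hloc).trans ?_
    rw [Finset.sum_add_distrib, Finset.sum_add_distrib, ← Finset.mul_sum, ← Finset.mul_sum,
      ← Finset.mul_sum]
    have h5 : (q : ℝ) * (d * ∑ v ∈ S, wt v * Real.log (nrm (av v)
        (Fin.append a b : Fin ((n + 1) + (n + 1)) → k))) ≤ q * (d * (2 * (n + 1) * E)) :=
      mul_le_mul_of_nonneg_left (mul_le_mul_of_nonneg_left (hpart.trans hht)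
        (Nat.cast_nonneg _)) (Nat.cast_nonneg _)
    have h6 : C * E = (finrank ℚ k * (d * Real.log 2)) * E +
      (q * ∑ v ∈ S, (2 * d * Real.log 2 + c v)) * E + (q * (d * (2 * (n + 1)))) * E := by
      rw [hC]
      ring
    have h7 := mul_nonneg hC1 hE0
    have h8 := mul_nonneg hC2 hE0
    rw [h6]
    linarith
  · intro T r hr hp
    rcases hG L x hGx i j a b hai haj hbi hbj hline T r hr hp with h | h
    · exact h
    · exact absurd h.1 hn

end Pool.Agent.N750
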