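import Mathlib

/-!
Determinants and linear systems.
-/

set_option autoImplicit false
set_option linter.unusedSectionVars false

namespace Pool.Agent.N750

open Polynomial

/-- the order of vanishing of a determinant -/
theorem det_dvd {E : Type} [Field E] {p : ℕ} (A : Matrix (Fin p) (Fin p) E[X]) (y0 : E) (e : ℕ)
    (h : e ≤ Module.finrank E (LinearMap.ker (Matrix.toLin' (A.map (Polynomial.eval y0))))) :
    (X - C y0) ^ e ∣ A.det := by
  classical
  set K0 := LinearMap.ker (Matrix.toLin' (A.map (Polynomial.eval y0))) with hK0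
  obtain ⟨K1, hK1⟩ := K0.exists_isCompl
  let B0 := (Module.finBasis E K0).prod (Module.finBasis E K1)
  let B := B0.map (Submodule.prodEquivOfIsCompl K0 K1 hK1)
  have hcard : Fintype.card (Fin (Module.finrank E K0) ⊕ Fin (Module.finrank E K1)) =
      Fintype.card (Fin p) := by
    rw [← Module.finrank_eq_card_basis B, Module.finrank_fin_fun, Fintype.card_fin]
  let ε : Fin (Module.finrank E K0) ⊕ Fin (Module.finrank E K1) ≃ Fin p :=
    Fintype.equivOfCardEq hcard
  let B' := B.reindex ε
  set U : Matrix (Fin p) (Fin p) E := Matrix.of fun x c => B' c x with hU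
  have hUdet : U.det ≠ 0 := by
    have h1 : U = (Pi.basisFun E (Fin p)).toMatrix B' := by
      ext x c
      rw [Module.Basis.toMatrix_apply]
      simp [hU]
    rw [h1]
    have h2 := (Pi.basisFun E (Fin p)).isUnit_det B'
    rw [Module.Basis.det_apply] at h2
    exact h2.ne_zero
  have hB0 : ∀ i, B (Sum.inl i) ∈ K0 := by
    intro i
    have h1 : B (Sum.inl i) = (Submodule.prodEquivOfIsCompl K0 K1 hK1) (B0 (Sum.inl i)) := rfl
    rw [h1, Submodule.coe_prodEquivOfIsCompl']
    rw [show (B0 (Sum.inl i)).1 = _ from Module.Basis.prod_apply_inl_fst _ _ i,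
      show (B0 (Sum.inl i)).2 = 0 from Module.Basis.prod_apply_inl_snd _ _ i]
    rw [Submodule.coe_zero, add_zero]
    exact Subtype.mem _
  have hker : ∀ (i : Fin (Module.finrank E K0)) (x : Fin p),
      ∑ c, (A x c).eval y0 * B (Sum.inl i) c = 0 := by
    intro i x
    have h1 : Matrix.toLin' (A.map (Polynomial.eval y0)) (B (Sum.inl i)) = 0 :=
      LinearMap.mem_ker.1 (hB0 i)
    rw [Matrix.toLin'_apply] at h1
    exact congrFun h1 x
  -- the product
  have hdvd : ∀ (x c : Fin p), ∃ w : E[X], (A * U.map C) x c =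
      (Sum.elim (fun _ => X - C y0) (fun _ => 1) (ε.symm c) : E[X]) * w := by
    intro x c
    obtain ⟨i | i, hi⟩ : ∃ s, ε.symm c = s := ⟨_, rfl⟩
    · rw [hi, Sum.elim_inl]
      have h2 : ((A * U.map C) x c).IsRoot y0 := by
        rw [Polynomial.IsRoot.def, Matrix.mul_apply, Polynomial.eval_finsetSum]
        have h3 : B' c = B (Sum.inl i) := by
          rw [← hi]
          exact Module.Basis.reindex_apply _ _ _
        rw [← hker i x]
        refine Finset.sum_congr rfl fun l _ => ?_
        rw [Polynomial.eval_mul, Matrix.map_apply, Polynomial.eval_C, hU, Matrix.of_apply, h3]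
      exact Polynomial.dvd_iff_isRoot.2 h2
    · rw [hi, Sum.elim_inr]
      exact ⟨_, (one_mul _).symm⟩
  choose W hW using hdvd
  have h1 : A * U.map C = Matrix.of fun x c =>
      (Sum.elim (fun _ => X - C y0) (fun _ => 1) (ε.symm c) : E[X]) * Matrix.of W x c :=
    Matrix.ext fun x c => hW x c
  have h2 := congrArg Matrix.det h1
  rw [Matrix.det_mul, Matrix.det_mul_row] at h2
  have h3 : ∏ c, (Sum.elim (fun _ => X - C y0) (fun _ => 1) (ε.symm c) : E[X]) =
      (X - C y0) ^ Module.finrank E K0 := by
    rw [Equiv.prod_comp ε.symm (fun s => (Sum.elim (fun _ => X - C y0) (fun _ => 1) s : E[X])),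
      Fintype.prod_sum_type]
    simp
  have h4 : (U.map (C : E →+* E[X])).det = C U.det := by
    have := RingHom.map_det (C : E →+* E[X]) U
    rw [this]
    rfl
  have h5 : (U.map C).det = (U.map (C : E →+* E[X])).det := rfl
  rw [h3, h5, h4] at h2
  have h6 : A.det = A.det * C U.det * C (U.det)⁻¹ := by
    rw [mul_assoc, ← C_mul, mul_inv_cancel₀ hUdet, C_1, mul_one]
  rw [h6, h2, mul_assoc]
  exact (pow_dvd_pow _ h).trans (dvd_mul_right _ _)

/-- descent of solutions of linear systems -/
theorem descend {R R' : Type} [Field R] [Field R'] [Algebra R R'] {Y X : Type} [Fintype X]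
    [DecidableEq X] (φ : Y → X → R) (h : ∃ c : X → R', c ≠ 0 ∧
      ∀ y, ∑ x, algebraMap R R' (φ y x) * c x = 0) :
    ∃ c : X → R, c ≠ 0 ∧ ∀ y, ∑ x, φ y x * c x = 0 := by
  obtain ⟨c', hc', hφ'⟩ := h
  by_contra hcon
  push Not at hcon
  have htop : Submodule.span R (Set.range φ) = ⊤ := by
    by_contra hne
    obtain ⟨f, hf0, hf⟩ := Submodule.exists_le_ker_of_lt_top _ (lt_top_iff_ne_top.2 hne)
    obtain ⟨y, hy⟩ := hcon (fun x => f (Pi.single x 1)) (by
      intro h0
      apply hf0
      refine LinearMap.pi_ext' fun x => ?_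
      refine LinearMap.ext_ring ?_
      exact congrFun h0 x)
    apply hy
    have h1 : f (φ y) = 0 := hf (Submodule.subset_span ⟨y, rfl⟩)
    rw [← h1]
    conv_rhs => rw [LinearMap.pi_apply_eq_sum_univ f (φ y)]
    refine Finset.sum_congr rfl fun x _ => ?_
    rw [smul_eq_mul]
    congr 2
    funext x'
    rw [Pi.single_apply]
    by_cases hx : x = x'
    · rw [if_pos hx, if_pos hx.symm]
    · rw [if_neg hx, if_neg fun h => hx h.symm]
  apply hc'
  have h1 : ∀ u ∈ Submodule.span R (Set.range φ), ∑ x, algebraMap R R' (u x) * c' x = 0 := by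
    intro u hu
    induction hu using Submodule.span_induction with
    | mem u hu =>
      obtain ⟨y, rfl⟩ := hu
      exact hφ' y
    | zero => simp
    | add u v _ _ hu hv =>
      have : ∀ x, algebraMap R R' ((u + v) x) * c' x =
          algebraMap R R' (u x) * c' x + algebraMap R R' (v x) * c' x := fun x => by
        rw [Pi.add_apply, map_add, add_mul]
      rw [Finset.sum_congr rfl fun x _ => this x, Finset.sum_add_distrib, hu, hv, add_zero]
    | smul r u _ hu =>
      have : ∀ x, algebraMap R R' ((r • u) x) * c' x =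
          algebraMap R R' r * (algebraMap R R' (u x) * c' x) := fun x => by
        rw [Pi.smul_apply, smul_eq_mul, map_mul, mul_assoc]
      rw [Finset.sum_congr rfl fun x _ => this x, ← Finset.mul_sum, hu, mul_zero]
  funext x
  have h2 := h1 (Pi.single x 1) (by rw [htop]; exact Submodule.mem_top)
  rw [Finset.sum_eq_single x] at h2
  · simpa using h2
  · intro x' _ hx
    rw [Pi.single_eq_of_ne hx, map_zero, zero_mul]
  · intro h
    exact absurd (Finset.mem_univ _) h

/-- the first row of a determinant -/
theorem det_first {R : Type} [CommRing R] {N : ℕ} (u : Fin (N + 1) → R)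
    (ψ : Fin N → Fin (N + 1) → R) :
    ∑ x, u x * (Matrix.of (Fin.cons (Pi.single x 1) ψ : Fin (N + 1) → Fin (N + 1) → R)).det =
      (Matrix.of (Fin.cons u ψ : Fin (N + 1) → Fin (N + 1) → R)).det := by
  classical
  have h1 : ∀ w : Fin (N + 1) → R, (Matrix.of (Fin.cons w ψ : Fin (N + 1) → Fin (N + 1) → R)).det =
      ∑ x, w x * ((-1) ^ (x : ℕ) *
        (Matrix.of fun i j => ψ i (x.succAbove j)).det) := by
    intro w
    rw [Matrix.det_succ_row_zero]
    refine Finset.sum_congr rfl fun x _ => ?_
    rw [Matrix.of_apply, Fin.cons_zero]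
    have : (Matrix.of (Fin.cons w ψ : Fin (N + 1) → Fin (N + 1) → R)).submatrix Fin.succ
        x.succAbove = Matrix.of fun i j => ψ i (x.succAbove j) := by
      ext i j
      rw [Matrix.submatrix_apply, Matrix.of_apply, Fin.cons_succ, Matrix.of_apply]
    rw [this]
    ring
  rw [h1 u]
  refine Finset.sum_congr rfl fun x _ => ?_
  rw [h1, Finset.sum_eq_single x]
  · rw [Pi.single_eq_same, one_mul]
  · intro x' _ hx
    rw [Pi.single_eq_of_ne hx, zero_mul]
  · intro h
    exact absurd (Finset.mem_univ _) h

/-- **Cramer's rule for homogeneous systems** -/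
theorem cramer {R : Type} [Field R] {Y : Type} {N : ℕ} (φ : Y → Fin (N + 1) → R)
    (h : ∃ c : Fin (N + 1) → R, c ≠ 0 ∧ ∀ y, ∑ x, φ y x * c x = 0) :
    ∃ ψ : Fin N → Fin (N + 1) → R, (∀ i, (∃ y, ψ i = φ y) ∨ ∃ x, ψ i = Pi.single x 1) ∧
      (fun x => (Matrix.of (Fin.cons (Pi.single x 1) ψ : Fin (N + 1) → Fin (N + 1) → R)).det) ≠ 0 ∧
      (∀ i, ψ i ≠ 0) ∧
      ∀ y, ∑ x, φ y x *
        (Matrix.of (Fin.cons (Pi.single x 1) ψ : Fin (N + 1) → Fin (N + 1) → R)).det = 0 := by
  classical
  obtain ⟨c, hc0, hc⟩ := h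
  obtain ⟨b, hb1, hb2, hb3⟩ := exists_linearIndependent R (Set.range φ)
  have hb4 : LinearIndepOn R id b := hb3
  set un : Set (Fin (N + 1) → R) := Set.range fun x => (Pi.single x 1 : Fin (N + 1) → R) with hun
  obtain ⟨b', hb'1, hb'2, hb'3, hb'4⟩ := exists_linearIndepOn_id_extension hb4
    (Set.subset_union_left : b ⊆ b ∪ un)
  -- the span of `b'`
  have htop : Submodule.span R b' = ⊤ := by
    rw [eq_top_iff]
    intro u _
    have h1 : u = ∑ x, u x • (Pi.single x 1 : Fin (N + 1) → R) := by
      funext x
      simp [Finset.sum_apply, Pi.single_apply]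
    rw [h1]
    refine Submodule.sum_mem _ fun x _ => Submodule.smul_mem _ _ ?_
    exact hb'3 (Or.inr ⟨x, rfl⟩)
  have hspanb : Submodule.span R b ≠ ⊤ := by
    intro h
    rw [hb2] at h
    apply hc0
    have h1 : ∀ u ∈ Submodule.span R (Set.range φ), ∑ x, u x * c x = 0 := by
      intro u hu
      induction hu using Submodule.span_induction with
      | mem u hu =>
        obtain ⟨y, rfl⟩ := hu
        exact hc y
      | zero => simp
      | add u v _ _ hu hv =>
        simp only [Pi.add_apply, add_mul, Finset.sum_add_distrib, hu, hv, add_zero]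
      | smul r u _ hu =>
        simp only [Pi.smul_apply, smul_eq_mul, mul_assoc]
        rw [← Finset.mul_sum, hu, mul_zero]
    funext x
    have h2 := h1 (Pi.single x 1) (by rw [h]; exact Submodule.mem_top)
    simpa [Pi.single_apply] using h2
  have hne : ∃ u ∈ b', u ∉ b := by
    by_contra hcon
    push Not at hcon
    apply hspanb
    rw [eq_top_iff, ← htop]
    exact Submodule.span_mono hcon
  obtain ⟨u, hu, hub⟩ := hne
  have hfin : b'.Finite := hb'4.setFinite
  have hcard : hfin.toFinset.card = N + 1 := by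
    have h1 : LinearIndependent R ((↑) : b' → Fin (N + 1) → R) := hb'4
    have : Fintype b' := hfin.fintype
    have h2 := finrank_span_eq_card h1
    rw [Subtype.range_coe, htop, finrank_top, Module.finrank_fin_fun] at h2
    exact (Set.Finite.card_toFinset hfin).trans h2.symm
  have hcard2 : (hfin.toFinset.erase u).card = N := by
    rw [Finset.card_erase_of_mem (hfin.mem_toFinset.2 hu), hcard, Nat.add_sub_cancel]
  let e : Fin N ≃ (hfin.toFinset.erase u : Finset _) := (Finset.equivFinOfCardEq hcard2).symm
  let ψ : Fin N → Fin (N + 1) → R := fun i => (e i).1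
  have hψmem : ∀ i, ψ i ∈ b' := fun i =>
    hfin.mem_toFinset.1 (Finset.mem_of_mem_erase (e i).2)
  have hψu : ∀ i, ψ i ≠ u := fun i => Finset.ne_of_mem_erase (e i).2
  have hli : LinearIndependent R (Fin.cons u ψ : Fin (N + 1) → Fin (N + 1) → R) := by
    have h1 : LinearIndependent R ((↑) : b' → Fin (N + 1) → R) := hb'4
    let j : Fin (N + 1) → b' := Fin.cons ⟨u, hu⟩ (fun i => ⟨ψ i, hψmem i⟩)
    have hj : Function.Injective j := by
      intro x x'
      refine Fin.cases ?_ (fun i => ?_) x <;> refine Fin.cases ?_ (fun i' => ?_) x'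
      · exact fun _ => rfl
      · intro h
        simp only [j, Fin.cons_zero, Fin.cons_succ] at h
        exact absurd (congrArg Subtype.val h).symm (hψu i')
      · intro h
        simp only [j, Fin.cons_zero, Fin.cons_succ] at h
        exact absurd (congrArg Subtype.val h) (hψu i)
      · intro h
        simp only [j, Fin.cons_succ] at h
        have h3 : ψ i = ψ i' := Subtype.mk.inj h
        have h2 : (e i) = e i' := Subtype.ext h3
        rw [e.injective h2]
    have h2 := h1.comp j hj
    have h3 : (((↑) : b' → Fin (N + 1) → R) ∘ j) = Fin.cons u ψ := by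
      funext x
      refine Fin.cases ?_ (fun i => ?_) x
      · rfl
      · rfl
    rwa [h3] at h2
  have hdet : (Matrix.of (Fin.cons u ψ : Fin (N + 1) → Fin (N + 1) → R)).det ≠ 0 := by
    have h2 := Matrix.linearIndependent_rows_iff_isUnit.1 (show LinearIndependent R
      (Matrix.of (Fin.cons u ψ : Fin (N + 1) → Fin (N + 1) → R)).row from hli)
    exact ((Matrix.isUnit_iff_isUnit_det _).1 h2).ne_zero
  refine ⟨ψ, ?_, ?_, ?_, ?_⟩
  · intro i
    rcases hb'1 (hψmem i) with h | h
    · obtain ⟨y, hy⟩ := hb1 h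
      exact Or.inl ⟨y, hy.symm⟩
    · obtain ⟨x, hx⟩ := h
      exact Or.inr ⟨x, hx.symm⟩
  · intro h
    apply hdet
    rw [← det_first]
    refine Finset.sum_eq_zero fun x _ => ?_
    rw [show (Matrix.of (Fin.cons (Pi.single x 1) ψ : Fin (N + 1) → Fin (N + 1) → R)).det = 0
      from congrFun h x, mul_zero]
  · intro i h
    have h1 := hli.ne_zero i.succ
    rw [Fin.cons_succ] at h1
    exact h1 h
  · intro y
    rw [det_first]
    -- the row is in the span of the others
    by_contra hdet'
    have h2 : IsUnit (Matrix.of (Fin.cons (φ y) ψ : Fin (N + 1) → Fin (N + 1) → R)) :=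
      (Matrix.isUnit_iff_isUnit_det _).2 (Ne.isUnit hdet')
    have h3 : LinearIndependent R (Fin.cons (φ y) ψ : Fin (N + 1) → Fin (N + 1) → R) :=
      Matrix.linearIndependent_rows_iff_isUnit.2 h2
    rw [linearIndependent_finCons] at h3
    apply h3.2
    have h4 : φ y ∈ Submodule.span R b := by
      rw [hb2]
      exact Submodule.subset_span ⟨y, rfl⟩
    refine Submodule.span_mono ?_ h4
    intro w hw
    have hwu : w ≠ u := fun h => hub (h ▸ hw)
    have hw' : w ∈ hfin.toFinset.erase u :=
      Finset.mem_erase.2 ⟨hwu, hfin.mem_toFinset.2 (hb'2 hw)⟩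
    refine ⟨e.symm ⟨w, hw'⟩, ?_⟩
    show (e (e.symm ⟨w, hw'⟩)).1 = w
    rw [Equiv.apply_symm_apply]

/-- a multilinear map that vanishes when one argument is in a subspace -/
theorem multi_congr {L V : Type} [Field L] [AddCommGroup V] [Module L V] {p : ℕ}
    (f : MultilinearMap L (fun _ : Fin p => V) L) (N : Submodule L V)
    (hf : ∀ (w : Fin p → V) (i : Fin p), w i ∈ N → f w = 0) (w w' : Fin p → V)
    (h : ∀ i, w i - w' i ∈ N) : f w = f w' := by
  classical
  have h1 : ∀ s : Finset (Fin p), f (s.piecewise w' w) = f w := by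
    intro s
    induction s using Finset.induction_on with
    | empty => rw [Finset.piecewise_empty]
    | insert i s hi ih =>
      rw [← ih, Finset.piecewise_insert]
      have h2 : s.piecewise w' w = Function.update (s.piecewise w' w) i (w i) := by
        rw [Function.eq_update_iff]
        exact ⟨Finset.piecewise_eq_of_notMem _ _ _ hi, fun _ _ => rfl⟩
      conv_rhs => rw [h2]
      rw [← sub_eq_zero, ← MultilinearMap.map_update_sub]
      refine hf _ i ?_
      rw [Function.update_self, ← neg_sub]
      exact N.neg_mem (h i)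
  have h2 := h1 Finset.univ
  rw [Finset.piecewise_univ] at h2
  exact h2.symm

/-- **uniqueness of Plücker coordinates** -/
theorem alt_unique {L : Type} [Field L] [CharZero L] {p M g : ℕ} (A : Fin M → Fin (p + 1) → L)
    (hA : LinearIndependent L (fun c : Fin (p + 1) => fun l => A l c))
    (gr : Fin g → Fin M → L)
    (hT : ∀ v : Fin M → L, (∀ i, ∑ l, gr i l * v l = 0) →
      v ∈ Submodule.span L (Set.range fun c : Fin (p + 1) => fun l => A l c))
    (Γ : (Fin (p + 1) → Fin M) → L)
    (halt : ∀ J (i j : Fin (p + 1)), i ≠ j → Γ (J ∘ Equiv.swap i j) = -Γ J)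
    (hcontr : ∀ i (J : Fin (p + 1) → Fin M), ∑ l, gr i l * Γ (Function.update J 0 l) = 0) :
    ∃ c : L, ∀ J, Γ J = c * (Matrix.of fun a b => A (J a) b).det := by
  classical
  -- the form
  let f0 : MultilinearMap L (fun _ : Fin (p + 1) => (Fin M → L)) L :=
    ∑ J : Fin (p + 1) → Fin M, Γ J •
      (MultilinearMap.mkPiAlgebra L (Fin (p + 1)) L).compLinearMap
        (fun i => LinearMap.proj (J i))
  have hf0 : ∀ w, f0 w = ∑ J : Fin (p + 1) → Fin M, Γ J * ∏ i, w i (J i) := by
    intro w
    simp only [f0, sum_apply, smul_apply,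
      MultilinearMap.compLinearMap_apply, MultilinearMap.mkPiAlgebra_apply, LinearMap.proj_apply,
      smul_eq_mul]
  have hswap : ∀ (w : Fin (p + 1) → Fin M → L) (i j : Fin (p + 1)), i ≠ j →
      f0 (w ∘ Equiv.swap i j) = -f0 w := by
    intro w i j hij
    rw [hf0, hf0, ← Finset.sum_neg_distrib]
    refine Finset.sum_nbij' (fun J => J ∘ Equiv.swap i j) (fun J => J ∘ Equiv.swap i j)
      (fun _ _ => Finset.mem_univ _) (fun _ _ => Finset.mem_univ _) ?_ ?_ ?_
    · intro J _
      funext x
      simp
    · intro J _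
      funext x
      simp
    · intro J _
      rw [halt J i j hij, neg_mul, neg_neg]
      congr 1
      refine Finset.prod_nbij' (fun x => Equiv.swap i j x) (fun x => Equiv.swap i j x)
        (fun _ _ => Finset.mem_univ _) (fun _ _ => Finset.mem_univ _) ?_ ?_ ?_
      · intro x _
        simp
      · intro x _
        simp
      · intro x _
        simp
  have halt0 : ∀ (w : Fin (p + 1) → Fin M → L) (i j : Fin (p + 1)), w i = w j → i ≠ j →
      f0 w = 0 := by
    intro w i j hw hij
    have h1 := hswap w i j hij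
    have h2 : w ∘ Equiv.swap i j = w := by
      funext x
      simp only [Function.comp]
      by_cases hx : x = i
      · rw [hx, Equiv.swap_apply_left, hw]
      · by_cases hx' : x = j
        · rw [hx', Equiv.swap_apply_right, hw]
        · rw [Equiv.swap_apply_of_ne_of_ne hx hx']
    rw [h2] at h1
    exact self_eq_neg.1 h1
  -- vanishing on the conormal space
  have hg0 : ∀ (w : Fin (p + 1) → Fin M → L) (i : Fin g), w 0 = gr i → f0 w = 0 := by
    intro w i hw
    rw [hf0]
    -- group by the values off `0`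
    have h1 : ∑ J : Fin (p + 1) → Fin M, Γ J * ∏ x, w x (J x) =
        ∑ J' : Fin p → Fin M, ∑ l : Fin M, Γ (Fin.cons l J') * (w 0 l * ∏ x, w x.succ (J' x)) := by
      rw [← (Fin.consEquiv (fun _ : Fin (p + 1) => Fin M)).sum_comp, Fintype.sum_prod_type_right]
      refine Finset.sum_congr rfl fun J' _ => Finset.sum_congr rfl fun l _ => ?_
      show Γ (Fin.cons l J') * ∏ x, w x ((Fin.cons l J' : Fin (p + 1) → Fin M) x) = _
      rw [Fin.prod_univ_succ]
      simp only [Fin.cons_zero, Fin.cons_succ]
    rw [h1]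
    refine Finset.sum_eq_zero fun J' _ => ?_
    by_cases hM : Nonempty (Fin M)
    · obtain ⟨l0⟩ := hM
      have h2 := hcontr i (Fin.cons l0 J')
      have h3 : ∀ l, Function.update (Fin.cons l0 J' : Fin (p + 1) → Fin M) 0 l =
          Fin.cons l J' := by
        intro l
        rw [Fin.update_cons_zero]
      simp only [h3] at h2
      have h4 : ∀ l, Γ (Fin.cons l J') * (w 0 l * ∏ x, w x.succ (J' x)) =
          (gr i l * Γ (Fin.cons l J')) * ∏ x, w x.succ (J' x) := by
        intro l
        rw [hw]
        ring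
      rw [Finset.sum_congr rfl fun l _ => h4 l, ← Finset.sum_mul, h2, zero_mul]
    · have : IsEmpty (Fin M) := not_nonempty_iff.1 hM
      simp
  set Nn : Submodule L (Fin M → L) := Submodule.span L (Set.range gr) with hNn
  have hN0 : ∀ (w : Fin (p + 1) → Fin M → L), w 0 ∈ Nn → f0 w = 0 := by
    intro w hw
    have h1 : ∀ u ∈ Nn, f0 (Function.update w 0 u) = 0 := by
      intro u hu
      rw [hNn] at hu
      induction hu using Submodule.span_induction with
      | mem u hu =>
        obtain ⟨i, rfl⟩ := hu
        exact hg0 _ i (Function.update_self _ _ _)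
      | zero => exact f0.map_update_zero w 0
      | add u v _ _ hu hv => rw [f0.map_update_add, hu, hv, add_zero]
      | smul r u _ hu => rw [f0.map_update_smul, hu, smul_zero]
    have h2 := h1 (w 0) hw
    rwa [Function.update_eq_self] at h2
  have hN : ∀ (w : Fin (p + 1) → Fin M → L) (i : Fin (p + 1)), w i ∈ Nn → f0 w = 0 := by
    intro w i hw
    by_cases hi : i = 0
    · subst hi
      exact hN0 w hw
    · have h1 := hswap w 0 i (Ne.symm hi)
      have h2 := hN0 (w ∘ Equiv.swap 0 i) (by
        show w (Equiv.swap 0 i 0) ∈ Nn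
        rw [Equiv.swap_apply_left]
        exact hw)
      rw [h2] at h1
      exact neg_eq_zero.1 h1.symm
  -- the projection to the dual of the tangent space
  let π : (Fin M → L) →ₗ[L] (Fin (p + 1) → L) := LinearMap.pi fun c =>
    ∑ l, (A l c) • LinearMap.proj l
  have hπ : ∀ (w : Fin M → L) c, π w c = ∑ l, A l c * w l := by
    intro w c
    simp only [π, LinearMap.pi_apply, LinearMap.sum_apply, LinearMap.smul_apply,
      LinearMap.proj_apply, smul_eq_mul]
  have hker : LinearMap.ker π ≤ Nn := by
    intro w hw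
    by_contra hwN
    obtain ⟨φ, hφ1, hφ2⟩ := Submodule.exists_le_ker_of_notMem hwN
    -- `φ` is given by a vector of the tangent space
    set v : Fin M → L := fun l => φ (Pi.single l 1) with hv
    have hφv : ∀ u : Fin M → L, φ u = ∑ l, u l * v l := by
      intro u
      rw [LinearMap.pi_apply_eq_sum_univ φ u]
      refine Finset.sum_congr rfl fun l _ => ?_
      rw [smul_eq_mul, hv]
      congr 2
      funext l'
      rw [Pi.single_apply]
      by_cases hl : l = l'
      · rw [if_pos hl, if_pos hl.symm]
      · rw [if_neg hl, if_neg fun h => hl h.symm]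
    have hvT := hT v (fun i => by
      rw [← hφv]
      exact hφ2 (Submodule.subset_span ⟨i, rfl⟩))
    apply hφ1
    rw [hφv]
    obtain ⟨cc, hcc⟩ := (Submodule.mem_span_range_iff_exists_fun _).1 hvT
    have h1 : ∀ l, v l = ∑ c, cc c * A l c := by
      intro l
      rw [← hcc, Finset.sum_apply]
      rfl
    have h2 : ∑ l, w l * v l = ∑ c, cc c * ∑ l, A l c * w l := by
      simp_rw [h1, Finset.mul_sum]
      rw [Finset.sum_comm]
      refine Finset.sum_congr rfl fun c _ => Finset.sum_congr rfl fun l _ => ?_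
      ring
    rw [h2]
    refine Finset.sum_eq_zero fun c _ => ?_
    rw [← hπ, LinearMap.mem_ker.1 hw, Pi.zero_apply, mul_zero]
  have hsurj : Function.Surjective π := by
    rw [← LinearMap.range_eq_top]
    by_contra hne
    obtain ⟨φ, hφ0, hφ⟩ := Submodule.exists_le_ker_of_lt_top _ (lt_top_iff_ne_top.2 hne)
    apply hφ0
    have h1 := Fintype.linearIndependent_iff.1 hA (fun c => φ (Pi.single c 1)) (by
      funext l
      have h2 : φ (π (Pi.single l 1)) = 0 := hφ ⟨_, rfl⟩
      have h3 : π (Pi.single l 1) = fun c => A l c := by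
        funext c
        rw [hπ, Finset.sum_eq_single l]
        · rw [Pi.single_eq_same, mul_one]
        · intro l' _ hl
          rw [Pi.single_eq_of_ne hl, mul_zero]
        · intro h
          exact absurd (Finset.mem_univ _) h
      rw [h3, LinearMap.pi_apply_eq_sum_univ φ] at h2
      rw [Finset.sum_apply, Pi.zero_apply, ← h2]
      refine Finset.sum_congr rfl fun c _ => ?_
      rw [Pi.smul_apply, smul_eq_mul, smul_eq_mul, mul_comm]
      congr 2
      funext c'
      rw [Pi.single_apply]
      by_cases hc : c = c'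
      · rw [if_pos hc, if_pos hc.symm]
      · rw [if_neg hc, if_neg fun h => hc h.symm])
    refine LinearMap.pi_ext' fun c => LinearMap.ext_ring ?_
    exact h1 c
  obtain ⟨σ, hσ⟩ := LinearMap.exists_rightInverse_of_surjective π (LinearMap.range_eq_top.2 hsurj)
  have hσ' : ∀ u, π (σ u) = u := fun u => LinearMap.congr_fun hσ u
  let f1 : (Fin (p + 1) → L) [⋀^Fin (p + 1)]→ₗ[L] L :=
    { f0.compLinearMap (fun _ => σ) with
      map_eq_zero_of_eq' := by
        intro w i j hw hij
        show f0 (fun x => σ (w x)) = 0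
        exact halt0 _ i j (by show σ (w i) = σ (w j); rw [hw]) hij }
  have hf1 : ∀ w : Fin (p + 1) → Fin M → L, f0 w = f1 (fun x => π (w x)) := by
    intro w
    show f0 w = f0 (fun x => σ (π (w x)))
    refine multi_congr f0 Nn hN _ _ fun x => hker ?_
    rw [LinearMap.mem_ker, map_sub, hσ', sub_self]
  refine ⟨f1 (Pi.basisFun L (Fin (p + 1))), fun J => ?_⟩
  have h1 : Γ J = f0 (fun x => Pi.single (J x) 1) := by
    rw [hf0, Finset.sum_eq_single J]
    · simp
    · intro J' _ hJ
      obtain ⟨x, hx⟩ := Function.ne_iff.1 hJ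
      rw [Finset.prod_eq_zero (Finset.mem_univ x), mul_zero]
      rw [Pi.single_eq_of_ne hx]
    · intro h
      exact absurd (Finset.mem_univ _) h
  rw [h1, hf1, AlternatingMap.eq_smul_basis_det (Pi.basisFun L (Fin (p + 1))) f1]
  rw [AlternatingMap.smul_apply, AlternatingMap.smul_apply, Module.Basis.det_self, smul_eq_mul,
    smul_eq_mul, mul_one, Pi.basisFun_det_apply]
  congr 1
  congr 1
  ext x c
  rw [Matrix.of_apply, Matrix.of_apply, hπ, Finset.sum_eq_single (J x)]
  · rw [Pi.single_eq_same, mul_one]
  · intro l' _ hl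
    rw [Pi.single_eq_of_ne hl, mul_zero]
  · intro h
    exact absurd (Finset.mem_univ _) h

end Pool.Agent.N750
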