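import Mathlib

/-!
Extension of derivations in characteristic zero.
-/

set_option autoImplicit false
set_option linter.unusedSectionVars false

namespace Pool.Agent.N750

open MvPolynomial

/-- a domain inside a field of characteristic zero -/
theorem fsmooth (A E : Type) [CommRing A] [IsDomain A] [Field E] [CharZero E] [Algebra A E]
    (hinj : Function.Injective (algebraMap A E)) : Algebra.FormallySmooth A E := by
  let F := FractionRing A
  have : FaithfulSMul A E := (faithfulSMul_iff_algebraMap_injective A E).2 hinj
  let _ : Algebra F E := FractionRing.liftAlgebra A E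
  have : IsScalarTower A F E := FractionRing.isScalarTower_liftAlgebra A E
  have : CharZero F := ⟨fun a b h => by
    have h2 := congrArg (algebraMap F E) h
    rw [map_natCast, map_natCast] at h2
    exact_mod_cast h2⟩
  have h1 : Algebra.FormallySmooth A F := Algebra.FormallySmooth.of_isLocalization (nonZeroDivisors A)
  obtain ⟨s, hs⟩ := exists_isTranscendenceBasis F E
  have h2 : Algebra.FormallySmooth F E := by
    have h3 : Algebra.IsAlgebraic (IntermediateField.adjoin F (Set.range ((↑) : s → E))) E :=
      hs.isAlgebraic_field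
    have h4 : Algebra.IsSeparable (IntermediateField.adjoin F (Set.range ((↑) : s → E))) E :=
      inferInstance
    exact Algebra.FormallySmooth.of_algebraicIndependent_of_isSeparable hs.1
  exact Algebra.FormallySmooth.comp A F E

/-- the first order expansion of a polynomial -/
theorem dual_aeval {k E : Type} [Field k] [Field E] [Algebra k E] {M : ℕ} (ξ v : Fin M → E)
    (P : MvPolynomial (Fin M) k) :
    aeval (fun j => (TrivSqZeroExt.inl (ξ j) + TrivSqZeroExt.inr (v j) : DualNumber E)) P =
      TrivSqZeroExt.inl (aeval ξ P) +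
        TrivSqZeroExt.inr (∑ j, aeval ξ (pderiv j P) * v j) := by
  induction P using MvPolynomial.induction_on with
  | C c =>
    rw [aeval_C, aeval_C]
    simp only [pderiv_C, map_zero, zero_mul, Finset.sum_const_zero, TrivSqZeroExt.inr_zero,
      add_zero]
    rfl
  | add P Q hP hQ =>
    simp only [map_add, hP, hQ, add_mul, Finset.sum_add_distrib, TrivSqZeroExt.inl_add,
      TrivSqZeroExt.inr_add]
    ring
  | mul_X P i hP =>
    rw [map_mul, hP, aeval_X]
    have h1 : ∑ j, aeval ξ (pderiv j (P * X i)) * v j =
        (∑ j, aeval ξ (pderiv j P) * v j) * ξ i + aeval ξ P * v i := by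
      have h2 : ∀ j, aeval ξ (pderiv j (P * X i)) * v j =
          aeval ξ (pderiv j P) * v j * ξ i + (if j = i then aeval ξ P * v i else 0) := by
        intro j
        rw [pderiv_mul, map_add, map_mul, map_mul, aeval_X, pderiv_X]
        by_cases hji : j = i
        · subst hji
          rw [if_pos rfl, Pi.single_eq_same, map_one]
          ring
        · rw [if_neg hji, Pi.single_eq_of_ne (fun h => hji h.symm)]
          rw [map_zero]
          ring
      rw [Finset.sum_congr rfl fun j _ => h2 j, Finset.sum_add_distrib, ← Finset.sum_mul,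
        Finset.sum_ite_eq' Finset.univ i, if_pos (Finset.mem_univ _)]
    rw [h1]
    ext
    · simp
    · simp
      ring

/-- **extension of derivations** -/
theorem exists_derivation {k E : Type} [Field k] [Field E] [CharZero E] [Algebra k E] {M : ℕ}
    (ξ v : Fin M → E) (h : ∀ P : MvPolynomial (Fin M) k, aeval ξ P = 0 →
      ∑ j, aeval ξ (pderiv j P) * v j = 0) :
    ∃ D : Derivation k E E, ∀ j, D (ξ j) = v j := by
  let φ : MvPolynomial (Fin M) k →ₐ[k] E := aeval ξ
  let A := MvPolynomial (Fin M) k ⧸ RingHom.ker φ
  let ι : A →ₐ[k] E := Ideal.kerLiftAlg φ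
  have hι : Function.Injective ι := Ideal.kerLiftAlg_injective φ
  let ψ0 : MvPolynomial (Fin M) k →ₐ[k] DualNumber E :=
    aeval (fun j => (TrivSqZeroExt.inl (ξ j) + TrivSqZeroExt.inr (v j) : DualNumber E))
  let ψ : A →ₐ[k] DualNumber E := Ideal.Quotient.liftₐ (RingHom.ker φ) ψ0 (by
    intro P hP
    show aeval _ P = 0
    have h1 : aeval ξ P = 0 := hP
    rw [dual_aeval, h P h1, h1]
    simp)
  have hψ : ∀ a : A, TrivSqZeroExt.fst (ψ a) = ι a := by
    intro a
    obtain ⟨P, rfl⟩ := Ideal.Quotient.mk_surjective a
    show TrivSqZeroExt.fst (aeval _ P) = aeval ξ P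
    rw [dual_aeval]
    simp
  have hdom : IsDomain A := hι.isDomain ι.toRingHom
  let _ : Algebra A E := ι.toRingHom.toAlgebra
  let _ : Algebra A (DualNumber E) := ψ.toRingHom.toAlgebra
  have hsm : Algebra.FormallySmooth A E := fsmooth A E hι
  let g : DualNumber E →ₐ[A] E :=
    { TrivSqZeroExt.fstHom E E E with
      commutes' := hψ }
  have hg : Function.Surjective g := fun x => ⟨TrivSqZeroExt.inl x, rfl⟩
  have hnil : IsNilpotent (RingHom.ker g) := by
    have h0 : RingHom.ker g * RingHom.ker g = ⊥ := by
      rw [eq_bot_iff, Ideal.mul_le]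
      intro x hx y hy
      have hx' : TrivSqZeroExt.fst x = 0 := hx
      have hy' : TrivSqZeroExt.fst y = 0 := hy
      rw [Ideal.mem_bot]
      ext
      · simp [hx']
      · simp [hx', hy']
    refine ⟨2, ?_⟩
    rw [show (2 : ℕ) = 1 + 1 from rfl, Submodule.pow_succ, Submodule.pow_one]
    exact h0
  let τ : E →ₐ[A] DualNumber E := Algebra.FormallySmooth.liftOfSurjective (AlgHom.id A E) g hg hnil
  have hτ : ∀ x, TrivSqZeroExt.fst (τ x) = x := by
    intro x
    exact Algebra.FormallySmooth.liftOfSurjective_apply (AlgHom.id A E) g hg hnil x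
  have hτA : ∀ a : A, τ (ι a) = ψ a := fun a => τ.commutes a
  refine ⟨{ toFun := fun x => TrivSqZeroExt.snd (τ x)
            map_add' := ?_
            map_smul' := ?_
            map_one_eq_zero' := ?_
            leibniz' := ?_ }, ?_⟩
  · intro x y
    rw [map_add, TrivSqZeroExt.snd_add]
  · intro c x
    have h1 : algebraMap k E c = ι (algebraMap k A c) := (ι.commutes c).symm
    have h2 : τ (algebraMap k E c) = TrivSqZeroExt.inl (algebraMap k E c) := by
      rw [h1, hτA, ψ.commutes, ← h1]
      rfl
    rw [Algebra.smul_def, map_mul, h2, TrivSqZeroExt.snd_mul]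
    simp [Algebra.smul_def]
  · show TrivSqZeroExt.snd (τ 1) = 0
    rw [map_one]
    rfl
  · intro x y
    show TrivSqZeroExt.snd (τ (x * y)) = x • TrivSqZeroExt.snd (τ y) + y • TrivSqZeroExt.snd (τ x)
    rw [map_mul, TrivSqZeroExt.snd_mul, hτ, hτ]
    simp [mul_comm]
  · intro j
    show TrivSqZeroExt.snd (τ (ξ j)) = v j
    have h1 : ξ j = ι (Ideal.Quotient.mk _ (X j)) := by
      show ξ j = aeval ξ (X j)
      rw [aeval_X]
    conv_lhs => rw [h1]
    rw [hτA]
    show TrivSqZeroExt.snd (aeval _ (X j : MvPolynomial (Fin M) k)) = v j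
    rw [aeval_X]
    simp

/-- derivations kill algebraic elements -/
theorem der_alg {k E : Type} [Field k] [Field E] [CharZero E] [Algebra k E]
    (D : Derivation k E E) (c : E) (hc : IsAlgebraic k c) : D c = 0 := by
  have hk : CharZero k := ⟨fun a b h => by
    have h2 := congrArg (algebraMap k E) h
    rw [map_natCast, map_natCast] at h2
    exact_mod_cast h2⟩
  have hint : IsIntegral k c := hc.isIntegral
  have h1 := minpoly.aeval k c
  have h2 : D (Polynomial.aeval c (minpoly k c)) =
      Polynomial.aeval c (Polynomial.derivative (minpoly k c)) * D c := by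
    have := D.leibniz_pow
    rw [← smul_eq_mul]
    exact Derivation.map_aeval D (minpoly k c) c
  rw [h1, map_zero] at h2
  refine (mul_eq_zero.1 h2.symm).resolve_left ?_
  exact (minpoly.irreducible hint).separable.aeval_derivative_ne_zero h1

end Pool.Agent.N750
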