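import Mathlib
import Pool.Agent.N750.Der

/-!
Tangent spaces, smoothness and normal crossings.
-/

set_option autoImplicit false
set_option linter.unusedSectionVars false

namespace Pool.Agent.N750

open MvPolynomial

section defs

variable {k : Type} [Field k] {M g q : ℕ}

/-- the tangent space of the cone over `X` at `z` -/
def TS {Ω : Type} [Field Ω] [Algebra k Ω] (G : Fin g → MvPolynomial (Fin M) k) (z : Fin M → Ω) :
    Submodule Ω (Fin M → Ω) where
  carrier := {v | ∀ i, ∑ j, aeval z (pderiv j (G i)) * v j = 0}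
  add_mem' := by
    intro v w hv hw i
    have h1 : ∀ j, aeval z (pderiv j (G i)) * (v + w) j =
        aeval z (pderiv j (G i)) * v j + aeval z (pderiv j (G i)) * w j := fun j => mul_add _ _ _
    rw [Finset.sum_congr rfl fun j _ => h1 j, Finset.sum_add_distrib, hv i, hw i, add_zero]
  zero_mem' := by
    intro i
    simp
  smul_mem' := by
    intro c v hv i
    have h1 : ∀ j, aeval z (pderiv j (G i)) * (c • v) j =
        c * (aeval z (pderiv j (G i)) * v j) := fun j => by
      rw [Pi.smul_apply, smul_eq_mul]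
      ring
    rw [Finset.sum_congr rfl fun j _ => h1 j, ← Finset.mul_sum, hv i, mul_zero]

/-- smooth of dimension `n` -/
def Sm (n : ℕ) (G : Fin g → MvPolynomial (Fin M) k) : Prop :=
  ∀ (Ω : Type) [Field Ω] [Algebra k Ω] (z : Fin M → Ω), z ≠ 0 → (∀ i, aeval z (G i) = 0) →
    Module.finrank Ω (TS G z) = n + 1

/-- the value of a linear form -/
def lv {K : Type} [Field K] {Ω : Type} [Field Ω] [Algebra K Ω] (h : Fin M → K) (z : Fin M → Ω) :
    Ω := ∑ l, algebraMap K Ω (h l) * z l

/-- normal crossings -/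
def NC {K : Type} [Field K] [Algebra k K] (G : Fin g → MvPolynomial (Fin M) k)
    (H : Fin q → Fin M → K) : Prop :=
  ∀ (Ω : Type) [Field Ω] [Algebra k Ω] [Algebra K Ω] [IsScalarTower k K Ω] (z : Fin M → Ω),
    z ≠ 0 → (∀ i, aeval z (G i) = 0) → ∀ c : Fin q → Ω,
    (∀ s, c s ≠ 0 → lv (H s) z = 0 ∧ ∃ v ∈ TS G z, lv (H s) v ≠ 0) →
    (∀ v ∈ TS G z, ∑ s, c s * lv (H s) v = 0) → c = 0

end defs

section lemmas

variable {k : Type} [Field k] {M g q : ℕ}

theorem mem_TS {Ω : Type} [Field Ω] [Algebra k Ω] {G : Fin g → MvPolynomial (Fin M) k}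
    {z v : Fin M → Ω} : v ∈ TS G z ↔ ∀ i, ∑ j, aeval z (pderiv j (G i)) * v j = 0 := Iff.rfl

theorem lv_add {K Ω : Type} [Field K] [Field Ω] [Algebra K Ω] (h : Fin M → K) (z w : Fin M → Ω) :
    lv h (z + w) = lv h z + lv h w := by
  unfold lv
  rw [← Finset.sum_add_distrib]
  exact Finset.sum_congr rfl fun l _ => mul_add _ _ _

theorem lv_smul {K Ω : Type} [Field K] [Field Ω] [Algebra K Ω] (h : Fin M → K) (c : Ω)
    (z : Fin M → Ω) : lv h (c • z) = c * lv h z := by
  unfold lv
  rw [Finset.mul_sum]
  refine Finset.sum_congr rfl fun l _ => ?_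
  rw [Pi.smul_apply, smul_eq_mul]
  ring

/-- the chain rule -/
theorem der_aeval {E : Type} [CommRing E] [Algebra k E] (D : Derivation k E E) (z : Fin M → E)
    (P : MvPolynomial (Fin M) k) :
    D (aeval z P) = ∑ j, aeval z (pderiv j P) * D (z j) := by
  induction P using MvPolynomial.induction_on with
  | C c =>
    rw [aeval_C, Derivation.map_algebraMap]
    simp
  | add P Q hP hQ =>
    simp only [map_add, hP, hQ, add_mul, Finset.sum_add_distrib]
  | mul_X P i hP =>
    rw [map_mul, aeval_X, Derivation.leibniz, hP, smul_eq_mul, smul_eq_mul]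
    have h2 : ∀ j, aeval z (pderiv j (P * X i)) * D (z j) =
        z i * (aeval z (pderiv j P) * D (z j)) + (if j = i then aeval z P * D (z i) else 0) := by
      intro j
      rw [pderiv_mul, map_add, map_mul, map_mul, aeval_X, pderiv_X]
      by_cases hji : j = i
      · subst hji
        rw [if_pos rfl, Pi.single_eq_same, map_one]
        ring
      · rw [if_neg hji, Pi.single_eq_of_ne (fun h => hji h.symm)]
        rw [map_zero]
        ring
    rw [Finset.sum_congr rfl fun j _ => h2 j, Finset.sum_add_distrib, ← Finset.mul_sum,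
      Finset.sum_ite_eq' Finset.univ i, if_pos (Finset.mem_univ _)]
    ring

/-- Euler's formula -/
theorem euler {Ω : Type} [Field Ω] [Algebra k Ω] {P : MvPolynomial (Fin M) k} {e : ℕ}
    (hP : P.IsHomogeneous e) (z : Fin M → Ω) :
    ∑ j, aeval z (pderiv j P) * z j = e * aeval z P := by
  have h1 := hP.sum_X_mul_pderiv
  have h2 := congrArg (aeval z) h1
  rw [map_sum] at h2
  rw [nsmul_eq_mul, map_mul, map_natCast] at h2
  rw [← h2]
  refine Finset.sum_congr rfl fun j _ => ?_
  rw [map_mul, aeval_X, mul_comm]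

/-- membership in the ideal and tangent vectors -/
theorem ideal_TS {Ω : Type} [Field Ω] [Algebra k Ω] {G : Fin g → MvPolynomial (Fin M) k}
    {z v : Fin M → Ω} (hz : ∀ i, aeval z (G i) = 0) (hv : v ∈ TS G z)
    {P : MvPolynomial (Fin M) k} (hP : P ∈ Ideal.span (Set.range G)) :
    aeval z P = 0 ∧ ∑ j, aeval z (pderiv j P) * v j = 0 := by
  induction hP using Submodule.span_induction with
  | mem P hP =>
    obtain ⟨i, rfl⟩ := hP
    exact ⟨hz i, hv i⟩
  | zero => simp
  | add P Q _ _ hP hQ =>
    refine ⟨by rw [map_add, hP.1, hQ.1, add_zero], ?_⟩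
    simp only [map_add, add_mul, Finset.sum_add_distrib, hP.2, hQ.2, add_zero]
  | smul Q P _ hP =>
    rw [smul_eq_mul]
    refine ⟨by rw [map_mul, hP.1, mul_zero], ?_⟩
    have h1 : ∀ j, aeval z (pderiv j (Q * P)) * v j =
        aeval z Q * (aeval z (pderiv j P) * v j) := by
      intro j
      rw [pderiv_mul, map_add, map_mul, map_mul, hP.1, mul_zero, zero_add, mul_assoc]
    rw [Finset.sum_congr rfl fun j _ => h1 j, ← Finset.mul_sum, hP.2, mul_zero]

/-- the line through two points -/
noncomputable def lp {R : Type} [CommRing R] (a b : Fin M → R) : Fin M → Polynomial R :=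
  fun l => Polynomial.C (a l) + Polynomial.C (b l) * Polynomial.X

theorem lp_aeval {R Ω : Type} [CommRing R] [CommRing Ω] [Algebra k R] [Algebra k Ω] [Algebra R Ω]
    [IsScalarTower k R Ω] (a b : Fin M → R) (z : Ω) (P : MvPolynomial (Fin M) k) :
    Polynomial.aeval z (aeval (lp a b) P) =
      aeval (fun l => algebraMap R Ω (a l) + algebraMap R Ω (b l) * z) P := by
  have h1 := MvPolynomial.comp_aeval_apply (lp a b)
    ((Polynomial.aeval z : Polynomial R →ₐ[R] Ω).restrictScalars k) P
  have h2 : (fun l => ((Polynomial.aeval z : Polynomial R →ₐ[R] Ω).restrictScalars k) (lp a b l)) =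
      fun l => algebraMap R Ω (a l) + algebraMap R Ω (b l) * z := by
    funext l
    show Polynomial.aeval z (lp a b l) = _
    unfold lp
    rw [map_add, map_mul, Polynomial.aeval_C, Polynomial.aeval_C, Polynomial.aeval_X]
  rw [h2] at h1
  exact h1

theorem lp_eval {R : Type} [CommRing R] [Algebra k R] (a b : Fin M → R) (z : R)
    (P : MvPolynomial (Fin M) k) :
    (aeval (lp a b) P).eval z = aeval (fun l => a l + b l * z) P := by
  have h1 := lp_aeval a b z P
  rw [Polynomial.coe_aeval_eq_eval] at h1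
  exact h1

/-- the direction of a line is tangent -/
theorem line_tan {R : Type} [CommRing R] [Algebra k R] (a b : Fin M → R)
    {P : MvPolynomial (Fin M) k} (hP : aeval (lp a b) P = 0) :
    ∑ j, aeval (lp a b) (pderiv j P) * Polynomial.C (b j) = 0 := by
  let D : Derivation k (Polynomial R) (Polynomial R) :=
    (Polynomial.derivative' : Derivation R (Polynomial R) (Polynomial R)).restrictScalars k
  have h1 := der_aeval D (lp a b) P
  rw [hP, map_zero] at h1
  rw [h1]
  refine Finset.sum_congr rfl fun j _ => ?_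
  have h2 : D (lp a b j) = Polynomial.C (b j) := by
    show Polynomial.derivative (lp a b j) = _
    unfold lp
    simp
  rw [h2]

/-- the rank of the linear forms at a point of normal crossings -/
theorem nc_rank {K : Type} [Field K] [Algebra k K] {G : Fin g → MvPolynomial (Fin M) k}
    {H : Fin q → Fin M → K} (hnc : NC G H) {n : ℕ} (hsm : Sm n G) {Ω : Type} [Field Ω]
    [Algebra k Ω] [Algebra K Ω] [IsScalarTower k K Ω] (z : Fin M → Ω) (hz0 : z ≠ 0)
    (hz : ∀ i, aeval z (G i) = 0) (I : Finset (Fin q)) (hI : ∀ s ∈ I, lv (H s) z = 0)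
    (b : Fin M → Ω) (hb : b ∈ TS G z) (hIb : ∀ s ∈ I, lv (H s) b ≠ 0)
    (W : Submodule Ω (Fin M → Ω)) (hW : ∀ v ∈ W, v ∈ TS G z ∧ ∀ s ∈ I, lv (H s) v = 0) :
    Module.finrank Ω W + I.card ≤ n + 1 := by
  classical
  let f : TS G z →ₗ[Ω] (I → Ω) :=
    { toFun := fun v s => lv (H s.1) v.1
      map_add' := fun v w => by
        funext s
        exact lv_add _ _ _
      map_smul' := fun c v => by
        funext s
        exact lv_smul _ _ _ }
  have hsurj : LinearMap.range f = ⊤ := by
    by_contra hne
    obtain ⟨φ, hφ0, hφ⟩ := Submodule.exists_le_ker_of_lt_top _ (lt_top_iff_ne_top.2 hne)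
    apply hφ0
    have h1 := hnc Ω z hz0 hz (fun s => if hs : s ∈ I then φ (Pi.single ⟨s, hs⟩ 1) else 0) (by
      intro s hs
      have hsI : s ∈ I := by
        by_contra h
        rw [dif_neg h] at hs
        exact hs rfl
      exact ⟨hI s hsI, b, hb, hIb s hsI⟩) (by
      intro v hv
      have h2 : φ (f ⟨v, hv⟩) = 0 := hφ ⟨_, rfl⟩
      rw [LinearMap.pi_apply_eq_sum_univ φ] at h2
      rw [← Finset.sum_subset (Finset.subset_univ I) (fun s _ hs => by
        rw [dif_neg hs, zero_mul]), ← Finset.sum_coe_sort, ← h2]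
      refine Finset.sum_congr rfl fun s _ => ?_
      rw [dif_pos s.2, smul_eq_mul, mul_comm]
      congr 2
      funext s'
      rw [Pi.single_apply]
      by_cases h : s = s'
      · rw [if_pos h, if_pos h.symm]
      · rw [if_neg h, if_neg fun h' => h h'.symm])
    refine LinearMap.pi_ext' fun s => LinearMap.ext_ring ?_
    have h3 := congrFun h1 s.1
    rw [dif_pos s.2] at h3
    exact h3
  have h2 := LinearMap.finrank_range_add_finrank_ker f
  rw [hsurj, finrank_top, Module.finrank_pi, Fintype.card_coe, hsm Ω z hz0 hz] at h2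
  have h3 : Module.finrank Ω W ≤ Module.finrank Ω (LinearMap.ker f) := by
    let ι : W →ₗ[Ω] LinearMap.ker f :=
      LinearMap.codRestrict _ (LinearMap.codRestrict (TS G z) W.subtype fun v => (hW v.1 v.2).1)
        (fun v => by
          rw [LinearMap.mem_ker]
          funext s
          exact (hW v.1 v.2).2 s.1 s.2)
    refine LinearMap.finrank_le_finrank_of_injective (f := ι) fun v w h => ?_
    have h4 := congrArg (fun x => x.1.1) h
    exact Subtype.ext h4
  omega

end lemmas

end Pool.Agent.N750
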