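import Mathlib
import Pool.Agent.N750.Tan
import Pool.Agent.N750.Mat

/-!
The Gauss map and the crossings of a divisor along a moving line.
-/

set_option autoImplicit false
set_option linter.unusedSectionVars false

namespace Pool.Agent.N750

open MvPolynomial

/-- extension of a pair to an independent family -/
theorem ext_pair {E V : Type} [Field E] [AddCommGroup V] [Module E V] [Module.Finite E V] {N : ℕ}
    (x0 x1 : V) (h01 : LinearIndependent E ![x0, x1]) (u : Fin N → V) (m : ℕ)
    (hm : m + 2 ≤ Module.finrank E (Submodule.span E ({x0, x1} ∪ Set.range u : Set V))) :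
    ∃ κ : Fin m → Fin N,
      LinearIndependent E (Fin.cons x0 (Fin.cons x1 (fun i => u (κ i))) : Fin (m + 2) → V) := by
  induction m with
  | zero =>
    refine ⟨Fin.elim0, ?_⟩
    convert h01 using 1
    funext i
    fin_cases i
    · rfl
    · rfl
  | succ m ih =>
    obtain ⟨κ, hκ⟩ := ih (by omega)
    set w : Fin (m + 2) → V := Fin.cons x0 (Fin.cons x1 (fun i => u (κ i))) with hw
    have h1 : ∃ c, u c ∉ Submodule.span E (Set.range w) := by
      by_contra hcon
      push Not at hcon
      have h2 : Submodule.span E ({x0, x1} ∪ Set.range u : Set V) ≤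
          Submodule.span E (Set.range w) := by
        rw [Submodule.span_le]
        rintro v ((hv | hv) | ⟨c, rfl⟩)
        · rw [hv]
          exact Submodule.subset_span ⟨0, rfl⟩
        · rw [hv]
          exact Submodule.subset_span ⟨1, rfl⟩
        · exact hcon c
      have h3 := Submodule.finrank_mono h2
      have h4 := finrank_span_eq_card hκ
      rw [Fintype.card_fin] at h4
      omega
    obtain ⟨c, hc⟩ := h1
    refine ⟨Fin.snoc κ c, ?_⟩
    have h2 := hκ.finSnoc hc
    convert h2 using 1
    have h3 : (fun i => u ((Fin.snoc κ c : Fin (m + 1) → Fin N) i)) =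
        (Fin.snoc (fun i => u (κ i)) (u c) : Fin (m + 1) → V) := by
      funext i
      refine Fin.lastCases ?_ (fun i => ?_) i
      · simp
      · simp
    rw [h3, hw, Fin.cons_snoc_eq_snoc_cons, Fin.cons_snoc_eq_snoc_cons]

/-- a nonzero maximal minor -/
theorem exists_minor {E : Type} [Field E] {M p : ℕ} (A : Fin M → Fin p → E)
    (hA : LinearIndependent E (fun c : Fin p => fun l => A l c)) :
    ∃ J : Fin p → Fin M, (Matrix.of fun x c => A (J x) c).det ≠ 0 := by
  classical
  have htop : Submodule.span E (Set.range A) = ⊤ := by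
    by_contra hne
    obtain ⟨f, hf0, hf⟩ := Submodule.exists_le_ker_of_lt_top _ (lt_top_iff_ne_top.2 hne)
    apply hf0
    have h1 := Fintype.linearIndependent_iff.1 hA (fun c => f (Pi.single c 1)) (by
      funext l
      have h2 : f (A l) = 0 := hf (Submodule.subset_span ⟨l, rfl⟩)
      rw [LinearMap.pi_apply_eq_sum_univ f] at h2
      rw [Finset.sum_apply, Pi.zero_apply, ← h2]
      refine Finset.sum_congr rfl fun c _ => ?_
      rw [Pi.smul_apply, smul_eq_mul, smul_eq_mul, mul_comm]
      congr 2
      funext c'
      rw [Pi.single_apply]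
      by_cases hc : c = c'
      · rw [if_pos hc, if_pos hc.symm]
      · rw [if_neg hc, if_neg fun h => hc h.symm])
    exact LinearMap.pi_ext' fun c => LinearMap.ext_ring (h1 c)
  obtain ⟨b, hb1, hb2, hb3⟩ := exists_linearIndependent E (Set.range A)
  have hb4 : LinearIndependent E ((↑) : b → Fin p → E) := hb3
  have hfin : b.Finite := (Set.finite_range A).subset hb1
  have : Fintype b := hfin.fintype
  have hcard : Fintype.card b = p := by
    have h2 := finrank_span_eq_card hb4
    rw [Subtype.range_coe, hb2, htop, finrank_top, Module.finrank_fin_fun] at h2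
    exact h2.symm
  let ε : Fin p ≃ b := (Fintype.equivFinOfCardEq hcard).symm
  choose J hJ using fun x : b => hb1 x.2
  refine ⟨fun x => J (ε x), ?_⟩
  have h1 : LinearIndependent E (fun x => A (J (ε x))) := by
    have h2 := hb4.comp ε ε.injective
    convert h2 using 1
    funext x
    exact hJ (ε x)
  have h2 := Matrix.linearIndependent_rows_iff_isUnit.1 (show LinearIndependent E
    (Matrix.of fun x c => A (J (ε x)) c).row from h1)
  exact ((Matrix.isUnit_iff_isUnit_det _).1 h2).ne_zero

/-- the first row of a determinant -/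
theorem det_row_zero {R : Type} [CommRing R] {N M : ℕ} (B : Fin M → Fin (N + 1) → R)
    (g : Fin M → R) (hg : ∀ c, ∑ l, g l * B l c = 0) (J : Fin (N + 1) → Fin M) :
    ∑ l, g l * (Matrix.of fun x c => B (Function.update J 0 l x) c).det = 0 := by
  have h1 : ∀ l, (Matrix.of fun x c => B (Function.update J 0 l x) c).det =
      ∑ c, B l c * ((-1) ^ (c : ℕ) *
        (Matrix.of fun i j => B (J (Fin.succ i)) (c.succAbove j)).det) := by
    intro l
    rw [Matrix.det_succ_row_zero]
    refine Finset.sum_congr rfl fun c _ => ?_
    rw [Matrix.of_apply, Function.update_self]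
    have : (Matrix.of fun x c => B (Function.update J 0 l x) c).submatrix Fin.succ
        c.succAbove = Matrix.of fun i j => B (J (Fin.succ i)) (c.succAbove j) := by
      ext i j
      rw [Matrix.submatrix_apply, Matrix.of_apply, Matrix.of_apply,
        Function.update_of_ne (Fin.succ_ne_zero i)]
    rw [this]
    ring
  simp_rw [h1, Finset.mul_sum]
  rw [Finset.sum_comm]
  refine Finset.sum_eq_zero fun c _ => ?_
  have h2 : ∀ l, g l * (B l c * ((-1) ^ (c : ℕ) *
      (Matrix.of fun i j => B (J (Fin.succ i)) (c.succAbove j)).det)) =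
      g l * B l c * ((-1) ^ (c : ℕ) *
      (Matrix.of fun i j => B (J (Fin.succ i)) (c.succAbove j)).det) := fun l => by ring
  rw [Finset.sum_congr rfl fun l _ => h2 l, ← Finset.sum_mul, hg c, zero_mul]

/-- the rows of the matrix along the line -/
noncomputable def rowB {E : Type} [Field E] {M n' : ℕ} (a b : Fin M → E)
    (u v : Fin n' → Fin M → E) : Fin M → Fin (n' + 2) → Polynomial E :=
  fun l => Fin.cons (Polynomial.C (a l)) (Fin.cons (Polynomial.C (b l))
    (fun i => Polynomial.C (u i l) + Polynomial.C (v i l) * Polynomial.X))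

theorem rowB_deg {E : Type} [Field E] {M n' : ℕ} (a b : Fin M → E)
    (u v : Fin n' → Fin M → E) (J : Fin (n' + 2) → Fin M) :
    (Matrix.of fun x c => rowB a b u v (J x) c).det.natDegree ≤ n' := by
  rw [Matrix.det_apply]
  refine Polynomial.natDegree_sum_le_of_forall_le _ _ fun σ _ => ?_
  refine (Polynomial.natDegree_smul_le _ _).trans ?_
  refine (Polynomial.natDegree_prod_le _ _).trans ?_
  rw [Fin.sum_univ_succ, Fin.sum_univ_succ]
  have h0 : (Matrix.of (fun x c => rowB a b u v (J x) c) (σ 0) 0).natDegree = 0 := by
    show (Polynomial.C (a (J (σ 0)))).natDegree = 0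
    exact Polynomial.natDegree_C _
  have h1 : (Matrix.of (fun x c => rowB a b u v (J x) c) (σ (Fin.succ 0)) (Fin.succ 0)).natDegree =
      0 := by
    show (Polynomial.C (b (J (σ (Fin.succ 0))))).natDegree = 0
    exact Polynomial.natDegree_C _
  rw [h0, h1, zero_add, zero_add]
  calc ∑ i : Fin n', (Matrix.of (fun x c => rowB a b u v (J x) c) (σ i.succ.succ)
        i.succ.succ).natDegree ≤ ∑ _i : Fin n', 1 := by
        refine Finset.sum_le_sum fun i _ => ?_
        show (Polynomial.C (u i (J (σ i.succ.succ))) +
          Polynomial.C (v i (J (σ i.succ.succ))) * Polynomial.X).natDegree ≤ 1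
        refine (Polynomial.natDegree_add_le _ _).trans (max_le ?_ ?_)
        · rw [Polynomial.natDegree_C]
          exact Nat.zero_le _
        · exact (Polynomial.natDegree_C_mul_le _ _).trans Polynomial.natDegree_X_le
    _ = n' := by simp

/-- **the Gauss map and the crossings along a generic line** -/
theorem core {k K E : Type} [Field k] [Field K] [Field E] [CharZero E] [Algebra k K]
    [Algebra k E] [Algebra K E] [IsScalarTower k K E] [Algebra.IsAlgebraic k K] {M g q n' : ℕ}
    (G : Fin g → MvPolynomial (Fin M) k) (e : Fin g → ℕ) (hG : ∀ i, (G i).IsHomogeneous (e i))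
    (hsm : Sm (n' + 1) G) (H : Fin q → Fin M → K) (hnc : NC G H)
    (a b : Fin M → E) (hab : LinearIndependent E ![a, b]) (y μ : E) (hμ : μ ≠ 0)
    (hgen : ∀ P : MvPolynomial (Fin M) k, aeval (fun l => μ * (a l + b l * y)) P = 0 →
      P ∈ Ideal.span (Set.range G))
    (hX : ∀ i, aeval (lp a b) (G i) = 0) (hHb : ∀ s, lv (H s) b ≠ 0)
    (T : Finset (Fin q)) (r : Fin q → Fin q) (hrT : ∀ s ∈ T, r s ∉ T)
    (hprop : ∀ s ∈ T, lv (H (r s)) a * lv (H s) b = lv (H s) a * lv (H (r s)) b)
    (hdist : ∀ s ∈ T, ∀ s' ∈ T, r s ≠ r s' →
      lv (H (r s)) a * lv (H (r s')) b ≠ lv (H (r s')) a * lv (H (r s)) b) :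
    T.card ≤ n' ∧ ∃ Γ : (Fin (n' + 2) → Fin M) → Polynomial E, (∃ J, Γ J ≠ 0) ∧
      (∀ J, (Γ J).natDegree ≤ n' - T.card) ∧
      (∀ J (i j : Fin (n' + 2)), i ≠ j → Γ (J ∘ Equiv.swap i j) = -Γ J) ∧
      ∀ i (J : Fin (n' + 2) → Fin M),
        ∑ l, aeval (lp a b) (pderiv l (G i)) * Γ (Function.update J 0 l) = 0 := by
  classical
  have ha0 : a ≠ 0 := hab.ne_zero 0
  have hindep : ∀ c d : E, (∀ l, c * a l + d * b l = 0) → c = 0 ∧ d = 0 := by
    intro c d h
    have h1 := LinearIndependent.pair_iff.1 hab c d (funext fun l => h l)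
    exact h1
  -- points of the line
  have hXz : ∀ (z : E) i, aeval (fun l => a l + b l * z) (G i) = 0 := by
    intro z i
    rw [← lp_eval, hX, Polynomial.eval_zero]
  have hbz : ∀ z : E, b ∈ TS G (fun l => a l + b l * z) := by
    intro z i
    have h1 := congrArg (Polynomial.eval z) (line_tan a b (hX i))
    rw [Polynomial.eval_finsetSum, Polynomial.eval_zero] at h1
    rw [← h1]
    refine Finset.sum_congr rfl fun j _ => ?_
    rw [Polynomial.eval_mul, Polynomial.eval_C, lp_eval]
  have hzz : ∀ z : E, (fun l => a l + b l * z) ∈ TS G (fun l => a l + b l * z) := by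
    intro z i
    rw [euler (hG i), hXz, mul_zero]
  have hz0 : ∀ z : E, (fun l => a l + b l * z) ≠ 0 := by
    intro z h
    have := hindep 1 z (fun l => by
      have := congrFun h l
      simp only [Pi.zero_apply] at this
      linear_combination this)
    exact one_ne_zero this.1
  -- the generic point
  set ξ : Fin M → E := fun l => μ * (a l + b l * y) with hξ
  have hξ0 : ξ ≠ 0 := by
    intro h
    apply hz0 y
    funext l
    have := congrFun h l
    simp only [hξ, Pi.zero_apply] at this
    exact (mul_eq_zero.1 this).resolve_left hμ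
  have hξX : ∀ i, aeval ξ (G i) = 0 := by
    intro i
    have h1 : aeval ξ (G i) = μ ^ e i * aeval (fun l => a l + b l * y) (G i) := by
      rw [aeval_def, aeval_def, eval₂_eq, eval₂_eq, Finset.mul_sum]
      refine Finset.sum_congr rfl fun m hm => ?_
      simp only [hξ, mul_pow]
      rw [Finset.prod_mul_distrib, Finset.prod_pow_eq_pow_sum]
      have hdeg : ∑ i ∈ m.support, m i = e i := by
        have h2 := hG i (MvPolynomial.mem_support_iff.1 hm)
        rw [Finsupp.weight_apply, Finsupp.sum] at h2
        simpa using h2
      rw [hdeg]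
      ring
    rw [h1, hXz, mul_zero]
  have hTdim : Module.finrank E (TS G ξ) = n' + 2 := hsm E ξ hξ0 hξX
  let bas := (Module.finBasis E (TS G ξ)).reindex (finCongr hTdim)
  have hder : ∀ c : Fin (n' + 2), ∃ D : Derivation k E E, ∀ j, D (ξ j) = (bas c).1 j := by
    intro c
    refine exists_derivation ξ _ fun P hP => ?_
    exact (ideal_TS hξX (bas c).2 (hgen P hP)).2
  choose D hD using hder
  have hDK : ∀ c (x : K), D c (algebraMap K E x) = 0 := by
    intro c x
    refine der_alg (D c) _ ?_
    exact (Algebra.IsAlgebraic.isAlgebraic (R := k) x).algebraMap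
  -- the columns
  set u : Fin (n' + 2) → Fin M → E := fun c l => D c (a l) with hu
  set v : Fin (n' + 2) → Fin M → E := fun c l => D c (b l) with hv
  have hspan : TS G ξ ≤ Submodule.span E ({a, b} ∪ Set.range fun c => u c + y • v c :
      Set (Fin M → E)) := by
    have h1 : ∀ c, (bas c).1 ∈ Submodule.span E ({a, b} ∪ Set.range fun c => u c + y • v c :
      Set (Fin M → E)) := by
      intro c
      have h2 : (bas c).1 = (D c μ) • a + (D c μ * y + μ * D c y) • b +
          μ • (u c + y • v c) := by
        funext l
        rw [← hD c l]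
        simp only [hξ, Derivation.leibniz, map_add, smul_eq_mul, Pi.add_apply, Pi.smul_apply, hu,
          hv]
        ring
      rw [h2]
      refine Submodule.add_mem _ (Submodule.add_mem _ ?_ ?_) ?_
      · exact Submodule.smul_mem _ _ (Submodule.subset_span (Or.inl (Or.inl rfl)))
      · exact Submodule.smul_mem _ _ (Submodule.subset_span (Or.inl (Or.inr rfl)))
      · exact Submodule.smul_mem _ _ (Submodule.subset_span (Or.inr ⟨c, rfl⟩))
    intro w hw
    have h3 := bas.sum_repr ⟨w, hw⟩
    have h4 := congrArg Subtype.val h3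
    rw [show w = _ from h4.symm, AddSubmonoidClass.coe_finsetSum]
    exact Submodule.sum_mem _ fun c _ => Submodule.smul_mem _ _ (h1 c)
  obtain ⟨κ, hκ⟩ := ext_pair a b hab (fun c => u c + y • v c) n'
    (hTdim.ge.trans (Submodule.finrank_mono hspan))
  set B := rowB a b (fun i => u (κ i)) (fun i => v (κ i)) with hB
  set Om : (Fin (n' + 2) → Fin M) → Polynomial E := fun J =>
    (Matrix.of fun x c => B (J x) c).det with hOm
  have hOm0 : ∃ J, Om J ≠ 0 := by
    obtain ⟨J, hJ⟩ := exists_minor (fun l => (Fin.cons (a l) (Fin.cons (b l)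
      (fun i => u (κ i) l + y * v (κ i) l)) : Fin (n' + 2) → E)) (by
        have h9 : (fun c : Fin (n' + 2) => fun l => (Fin.cons (a l) (Fin.cons (b l)
            (fun i => u (κ i) l + y * v (κ i) l)) : Fin (n' + 2) → E) c) =
            Fin.cons a (Fin.cons b (fun i => u (κ i) + y • v (κ i))) := by
          funext c l
          refine Fin.cases ?_ (fun c => ?_) c
          · rfl
          · refine Fin.cases ?_ (fun c => ?_) c
            · rfl
            · rfl
        rw [h9]
        exact hκ)
    refine ⟨J, fun h0 => hJ ?_⟩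
    have h1 := congrArg (Polynomial.eval y) h0
    rw [Polynomial.eval_zero] at h1
    have h2 := RingHom.map_det (Polynomial.evalRingHom y) (Matrix.of fun x c => B (J x) c)
    rw [show (Polynomial.evalRingHom y) (Matrix.of fun x c => B (J x) c).det =
      Polynomial.eval y (Om J) from rfl, h1] at h2
    rw [h2]
    congr 1
    ext x c
    refine Fin.cases ?_ (fun c => ?_) c
    · show a (J x) = Polynomial.eval y (Polynomial.C (a (J x)))
      rw [Polynomial.eval_C]
    · refine Fin.cases ?_ (fun c => ?_) c
      · show b (J x) = Polynomial.eval y (Polynomial.C (b (J x)))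
        rw [Polynomial.eval_C]
      · show u (κ c) (J x) + y * v (κ c) (J x) = Polynomial.eval y (Polynomial.C (u (κ c) (J x)) +
          Polynomial.C (v (κ c) (J x)) * Polynomial.X)
        rw [Polynomial.eval_add, Polynomial.eval_mul, Polynomial.eval_C, Polynomial.eval_C,
          Polynomial.eval_X, mul_comm y]
  -- the contraction equations of the columns
  have hcol : ∀ (i : Fin g) (c : Fin (n' + 2)),
      ∑ l, aeval (lp a b) (pderiv l (G i)) * B l c = 0 := by
    intro i c
    refine Polynomial.eq_zero_of_infinite_isRoot _ ?_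
    refine Set.Infinite.mono (s := Set.range fun m : ℕ => (m : E)) ?_
      (Set.infinite_range_of_injective Nat.cast_injective)
    rintro _ ⟨m, rfl⟩
    show Polynomial.eval (m : E) _ = 0
    rw [Polynomial.eval_finsetSum]
    have h1 : ∀ l, Polynomial.eval (m : E) (aeval (lp a b) (pderiv l (G i)) * B l c) =
        aeval (fun l => a l + b l * (m : E)) (pderiv l (G i)) * Polynomial.eval (m : E) (B l c) := by
      intro l
      rw [Polynomial.eval_mul, lp_eval]
    rw [Finset.sum_congr rfl fun l _ => h1 l]
    have h2 : (fun l => Polynomial.eval (m : E) (B l c)) ∈ TS G (fun l => a l + b l * (m : E)) := by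
      refine Fin.cases ?_ (fun c => ?_) c
      · have h3 : (fun l => Polynomial.eval (m : E) (B l 0)) =
            (fun l => a l + b l * (m : E)) + (-(m : E)) • b := by
          funext l
          show Polynomial.eval (m : E) (Polynomial.C (a l)) = a l + b l * (m : E) + -(m : E) * b l
          rw [Polynomial.eval_C]
          ring
        rw [h3]
        exact Submodule.add_mem _ (hzz _) (Submodule.smul_mem _ _ (hbz _))
      · refine Fin.cases ?_ (fun c => ?_) c
        · have h3 : (fun l => Polynomial.eval (m : E) (B l (Fin.succ 0))) = b := by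
            funext l
            show Polynomial.eval (m : E) (Polynomial.C (b l)) = b l
            rw [Polynomial.eval_C]
          rw [h3]
          exact hbz _
        · intro i
          have h3 := der_aeval (D (κ c)) (fun l => a l + b l * (m : E)) (G i)
          rw [hXz, map_zero] at h3
          rw [h3]
          refine Finset.sum_congr rfl fun l _ => ?_
          congr 1
          show Polynomial.eval (m : E) (Polynomial.C (u (κ c) l) +
            Polynomial.C (v (κ c) l) * Polynomial.X) = D (κ c) (a l + b l * (m : E))
          rw [Polynomial.eval_add, Polynomial.eval_mul, Polynomial.eval_C, Polynomial.eval_C,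
            Polynomial.eval_X, map_add, Derivation.leibniz, Derivation.map_natCast, smul_zero,
            zero_add, smul_eq_mul, mul_comm]
    exact h2 i
  -- the crossings
  set R0 : Finset (Fin q) := T.image r with hR0
  set yc : Fin q → E := fun c => -(lv (H c) a) / lv (H c) b with hyc
  set ec : Fin q → ℕ := fun c => (T.filter fun s => r s = c).card with hec
  have hcardT : T.card = ∑ c ∈ R0, ec c := by
    rw [hR0, hec]
    exact Finset.card_eq_sum_card_image r T
  have hlv : ∀ s (z : E), lv (H s) (fun l => a l + b l * z) = lv (H s) a + z * lv (H s) b := by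
    intro s z
    have h1 : (fun l => a l + b l * z) = a + z • b := by
      funext l
      show a l + b l * z = a l + z * b l
      ring
    rw [h1, lv_add, lv_smul]
  have hdvd : ∀ J, ∀ c ∈ R0, (Polynomial.X - Polynomial.C (yc c)) ^ ec c ∣ Om J := by
    intro J c hc
    refine det_dvd _ _ _ ?_
    set z := yc c with hz
    obtain ⟨s0, hs0, hs0c⟩ := Finset.mem_image.1 hc
    set I : Finset (Fin q) := insert c (T.filter fun s => r s = c) with hI
    have hcI : c ∉ T.filter fun s => r s = c := by
      intro h
      have h1 := (Finset.mem_filter.1 h).1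
      rw [← hs0c] at h1
      exact hrT s0 hs0 h1
    have hIcard : I.card = ec c + 1 := Finset.card_insert_of_notMem hcI
    have hIz : ∀ s ∈ I, lv (H s) (fun l => a l + b l * z) = 0 := by
      intro s hs
      rw [hlv, hz, hyc]
      have hb1 := hHb c
      have hb2 := hHb s
      rcases Finset.mem_insert.1 hs with rfl | hs
      · field_simp
        ring
      · have h1 := Finset.mem_filter.1 hs
        have h2 := hprop s h1.1
        rw [h1.2] at h2
        field_simp
        linear_combination -h2
    let Λ : (Fin (n' + 2) → E) →ₗ[E] (Fin M → E) := LinearMap.pi fun l =>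
      ∑ c', (Polynomial.eval z (B l c')) • LinearMap.proj c'
    have hΛ : ∀ w l, Λ w l = ∑ c', Polynomial.eval z (B l c') * w c' := by
      intro w l
      simp only [Λ, LinearMap.pi_apply, LinearMap.sum_apply, LinearMap.smul_apply,
        LinearMap.proj_apply, smul_eq_mul]
    -- the tangent space of the stratum
    let W : Submodule E (Fin M → E) :=
      { carrier := {w | w ∈ TS G (fun l => a l + b l * z) ∧ ∀ s ∈ I, lv (H s) w = 0}
        add_mem' := fun {w w'} h h' => ⟨Submodule.add_mem _ h.1 h'.1, fun s hs => by
          rw [lv_add, h.2 s hs, h'.2 s hs, add_zero]⟩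
        zero_mem' := ⟨Submodule.zero_mem _, fun s _ => by
          unfold lv
          simp⟩
        smul_mem' := fun t w h => ⟨Submodule.smul_mem _ _ h.1, fun s hs => by
          rw [lv_smul, h.2 s hs, mul_zero]⟩ }
    have hWdim : Module.finrank E W + I.card ≤ n' + 2 :=
      nc_rank hnc hsm (fun l => a l + b l * z) (hz0 z) (hXz z) I hIz b (hbz z)
        (fun s _ => hHb s) W (fun w hw => hw)
    have hzW : (fun l => a l + b l * z) ∈ W := ⟨hzz z, hIz⟩
    have hDW : ∀ c', (fun l => D c' (a l + b l * z)) ∈ W := by
      intro c'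
      constructor
      · intro i
        have h3 := der_aeval (D c') (fun l => a l + b l * z) (G i)
        rw [hXz, map_zero] at h3
        exact h3.symm
      · intro s hs
        have h3 := congrArg (D c') (hIz s hs)
        unfold lv at h3 ⊢
        rw [map_sum, map_zero] at h3
        rw [← h3]
        refine Finset.sum_congr rfl fun l _ => ?_
        rw [Derivation.leibniz, hDK, smul_zero, add_zero, smul_eq_mul]
    have hrange : LinearMap.range Λ ≤ Submodule.span E {b} ⊔ W := by
      rintro _ ⟨w, rfl⟩
      have h1 : Λ w = ∑ c', w c' • (fun l => Polynomial.eval z (B l c')) := by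
        funext l
        rw [hΛ, Finset.sum_apply]
        exact Finset.sum_congr rfl fun c' _ => mul_comm _ _
      rw [h1]
      refine Submodule.sum_mem _ fun c' _ => Submodule.smul_mem _ _ ?_
      refine Fin.cases ?_ (fun c' => ?_) c'
      · have h3 : (fun l => Polynomial.eval z (B l 0)) =
            (-z) • b + (fun l => a l + b l * z) := by
          funext l
          show Polynomial.eval z (Polynomial.C (a l)) = -z * b l + (a l + b l * z)
          rw [Polynomial.eval_C]
          ring
        rw [h3]
        exact Submodule.add_mem_sup (Submodule.smul_mem _ _ (Submodule.mem_span_singleton_self b))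
          hzW
      · refine Fin.cases ?_ (fun c' => ?_) c'
        · have h3 : (fun l => Polynomial.eval z (B l (Fin.succ 0))) = b := by
            funext l
            show Polynomial.eval z (Polynomial.C (b l)) = b l
            rw [Polynomial.eval_C]
          rw [h3]
          exact Submodule.mem_sup_left (Submodule.mem_span_singleton_self b)
        · have h3 : (fun l => Polynomial.eval z (B l (Fin.succ (Fin.succ c')))) =
              (-(D (κ c') z)) • b + (fun l => D (κ c') (a l + b l * z)) := by
            funext l
            show Polynomial.eval z (Polynomial.C (u (κ c') l) +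
              Polynomial.C (v (κ c') l) * Polynomial.X) =
              -(D (κ c') z) * b l + D (κ c') (a l + b l * z)
            rw [Polynomial.eval_add, Polynomial.eval_mul, Polynomial.eval_C, Polynomial.eval_C,
              Polynomial.eval_X, map_add, Derivation.leibniz, smul_eq_mul, smul_eq_mul]
            ring
          rw [h3]
          exact Submodule.add_mem_sup (Submodule.smul_mem _ _
            (Submodule.mem_span_singleton_self b)) (hDW _)
    have h1 := LinearMap.finrank_range_add_finrank_ker Λ
    rw [Module.finrank_fin_fun] at h1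
    have h2 := Submodule.finrank_mono hrange
    have h3 := Submodule.finrank_add_le_finrank_add_finrank (Submodule.span E {b}) W
    have h4 : Module.finrank E (Submodule.span E {b}) ≤ 1 :=
      (finrank_span_le_card ({b} : Set (Fin M → E))).trans (by simp)
    have h5 : Module.finrank E (LinearMap.ker Λ) ≤ Module.finrank E (LinearMap.ker
        (Matrix.toLin' ((Matrix.of fun x c => B (J x) c).map (Polynomial.eval z)))) := by
      refine Submodule.finrank_mono ?_
      intro w hw
      rw [LinearMap.mem_ker, Matrix.toLin'_apply]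
      funext x
      have h6 := congrFun (LinearMap.mem_ker.1 hw) (J x)
      rw [hΛ] at h6
      exact h6
    omega
  have hne : ∀ c ∈ R0, ∀ c' ∈ R0, c ≠ c' → yc c ≠ yc c' := by
    intro c hc c' hc' hcc h
    obtain ⟨s, hs, rfl⟩ := Finset.mem_image.1 hc
    obtain ⟨s', hs', rfl⟩ := Finset.mem_image.1 hc'
    apply hdist s hs s' hs' hcc
    rw [hyc] at h
    simp only at h
    rw [div_eq_div_iff (hHb _) (hHb _)] at h
    linear_combination -h
  set Pi0 : Polynomial E := ∏ c ∈ R0, (Polynomial.X - Polynomial.C (yc c)) ^ ec c with hPi0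
  have hPidvd : ∀ J, Pi0 ∣ Om J := by
    intro J
    refine Finset.prod_dvd_of_coprime ?_ fun c hc => hdvd J c hc
    intro c hc c' hc' hcc
    refine IsCoprime.pow ?_
    exact Polynomial.isCoprime_X_sub_C_of_isUnit_sub
      (Ne.isUnit (sub_ne_zero.2 (hne c hc c' hc' hcc)))
  have hPimon : Pi0.Monic := Polynomial.monic_prod_of_monic _ _ fun c _ =>
    (Polynomial.monic_X_sub_C _).pow _
  have hPideg : Pi0.natDegree = T.card := by
    rw [hPi0, Polynomial.natDegree_prod_of_monic _ _ fun c _ =>
      (Polynomial.monic_X_sub_C _).pow _, hcardT]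
    refine Finset.sum_congr rfl fun c _ => ?_
    rw [Polynomial.natDegree_pow, Polynomial.natDegree_X_sub_C, mul_one]
  choose Γ hΓ using hPidvd
  have hPi0' : Pi0 ≠ 0 := hPimon.ne_zero
  have hdeg : ∀ J, Γ J ≠ 0 → T.card + (Γ J).natDegree ≤ n' := by
    intro J hJ
    have h1 := rowB_deg a b (fun i => u (κ i)) (fun i => v (κ i)) J
    have h2 : (Om J).natDegree = Pi0.natDegree + (Γ J).natDegree := by
      rw [hΓ J, Polynomial.natDegree_mul hPi0' hJ]
    rw [← hPideg, ← h2]
    exact h1
  obtain ⟨J0, hJ0⟩ := hOm0
  have hΓ0 : Γ J0 ≠ 0 := by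
    intro h
    apply hJ0
    rw [hΓ, h, mul_zero]
  refine ⟨by have := hdeg J0 hΓ0; omega, Γ, ⟨J0, hΓ0⟩, ?_, ?_, ?_⟩
  · intro J
    by_cases h : Γ J = 0
    · rw [h, Polynomial.natDegree_zero]
      exact Nat.zero_le _
    · have := hdeg J h
      omega
  · intro J i j hij
    have h1 : Om (J ∘ Equiv.swap i j) = -Om J := by
      have h2 := Matrix.det_permute (Equiv.swap i j) (Matrix.of fun x c => B (J x) c)
      rw [Equiv.Perm.sign_swap hij] at h2
      have h3 : (Matrix.of fun x c => B (J x) c).submatrix (Equiv.swap i j) id =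
          Matrix.of fun x c => B ((J ∘ Equiv.swap i j) x) c := rfl
      rw [h3] at h2
      show (Matrix.of fun x c => B ((J ∘ Equiv.swap i j) x) c).det = _
      rw [h2]
      simp [hOm]
    rw [hΓ, hΓ] at h1
    refine mul_left_cancel₀ hPi0' ?_
    rw [h1]
    ring
  · intro i J
    have h1 := det_row_zero B (fun l => aeval (lp a b) (pderiv l (G i))) (hcol i) J
    have h2 : ∀ l, (Matrix.of fun x c => B (Function.update J 0 l x) c).det =
        Pi0 * Γ (Function.update J 0 l) := fun l => hΓ _
    simp only [h2] at h1
    have h3 : ∀ l, aeval (lp a b) (pderiv l (G i)) * (Pi0 * Γ (Function.update J 0 l)) =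
        Pi0 * (aeval (lp a b) (pderiv l (G i)) * Γ (Function.update J 0 l)) := fun l => by ring
    rw [Finset.sum_congr rfl fun l _ => h3 l, ← Finset.mul_sum] at h1
    exact (mul_eq_zero.1 h1).resolve_left hPi0'

end Pool.Agent.N750
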