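import Mathlib
import Pool.Agent.N750.Core

/-!
The linear system of the Gauss map along a line.
-/

set_option autoImplicit false
set_option linter.unusedSectionVars false

namespace Pool.Agent.N750

open MvPolynomial

section defs

variable {k R : Type} [Field k] [Field R] [Algebra k R] {M g n' : ℕ}

/-- polynomial solutions of the system -/
def GS (G : Fin g → MvPolynomial (Fin M) k) (a b : Fin M → R) (D : ℕ)
    (Γ : (Fin (n' + 2) → Fin M) → Polynomial R) : Prop :=
  (∃ J, Γ J ≠ 0) ∧ (∀ J, (Γ J).natDegree ≤ D) ∧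
    (∀ J (i j : Fin (n' + 2)), i ≠ j → Γ (J ∘ Equiv.swap i j) = -Γ J) ∧
    ∀ i (J : Fin (n' + 2) → Fin M),
      ∑ l, aeval (lp a b) (pderiv l (G i)) * Γ (Function.update J 0 l) = 0

/-- the number of the evaluation points -/
noncomputable def nev (G : Fin g → MvPolynomial (Fin M) k) (D : ℕ) : ℕ :=
  D + 1 + ∑ i, ∑ l, (pderiv l (G i)).totalDegree

/-- the index set of the equations -/
abbrev YI (M g n' D N : ℕ) : Type :=
  ((Fin (n' + 2) → Fin M) × Fin (n' + 2) × Fin (n' + 2) × Fin (D + 1)) ⊕
    (Fin g × (Fin (n' + 2) → Fin M) × Fin N)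

/-- the index set of the unknowns -/
abbrev XI (M n' D : ℕ) : Type := (Fin (n' + 2) → Fin M) × Fin (D + 1)

/-- the equations -/
noncomputable def rowF (G : Fin g → MvPolynomial (Fin M) k) (a b : Fin M → R) (D N : ℕ) :
    YI M g n' D N → XI M n' D → R
  | Sum.inl (J, i, j, m) => fun x => if i = j then 0 else
      (if (J ∘ Equiv.swap i j, m) = x then 1 else 0) + (if (J, m) = x then 1 else 0)
  | Sum.inr (i, J, z) => fun x =>
      (∑ l, if Function.update J 0 l = x.1 then
        aeval (fun l => a l + b l * (z.1 : R)) (pderiv l (G i)) else 0) * (z.1 : R) ^ x.2.1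

end defs

section lemmas

variable {k R : Type} [Field k] [Field R] [Algebra k R] {M g n' : ℕ}

theorem lp_deg (a b : Fin M → R) (P : MvPolynomial (Fin M) k) :
    (aeval (lp a b) P).natDegree ≤ P.totalDegree := by
  rw [aeval_def, eval₂_eq]
  refine Polynomial.natDegree_sum_le_of_forall_le _ _ fun m hm => ?_
  refine (Polynomial.natDegree_mul_le).trans ?_
  have h1 : (algebraMap k (Polynomial R) (coeff m P)).natDegree = 0 := by
    rw [Polynomial.algebraMap_apply]
    exact Polynomial.natDegree_C _
  rw [h1, zero_add]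
  refine (Polynomial.natDegree_prod_le _ _).trans ?_
  refine le_trans ?_ (le_totalDegree hm)
  refine Finset.sum_le_sum fun i _ => ?_
  refine (Polynomial.natDegree_pow_le).trans ?_
  have h2 : (lp a b i).natDegree ≤ 1 := by
    unfold lp
    refine (Polynomial.natDegree_add_le _ _).trans (max_le ?_ ?_)
    · rw [Polynomial.natDegree_C]
      exact Nat.zero_le _
    · exact (Polynomial.natDegree_C_mul_le _ _).trans Polynomial.natDegree_X_le
  calc m i * (lp a b i).natDegree ≤ m i * 1 := Nat.mul_le_mul_left _ h2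
    _ = m i := mul_one _

/-- the polynomials of a vector of coefficients -/
noncomputable def polyOf {D : ℕ} (c : XI M n' D → R) : (Fin (n' + 2) → Fin M) → Polynomial R :=
  fun J => ∑ m : Fin (D + 1), Polynomial.C (c (J, m)) * Polynomial.X ^ m.1

theorem polyOf_coeff {D : ℕ} (c : XI M n' D → R) (J : Fin (n' + 2) → Fin M) (m : Fin (D + 1)) :
    (polyOf c J).coeff m.1 = c (J, m) := by
  unfold polyOf
  rw [Polynomial.finsetSum_coeff, Finset.sum_eq_single m]
  · rw [Polynomial.coeff_C_mul, Polynomial.coeff_X_pow, if_pos rfl, mul_one]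
  · intro m' _ hm
    rw [Polynomial.coeff_C_mul, Polynomial.coeff_X_pow, if_neg, mul_zero]
    exact fun h => hm (Fin.ext h.symm)
  · intro h
    exact absurd (Finset.mem_univ _) h

theorem polyOf_deg {D : ℕ} (c : XI M n' D → R) (J : Fin (n' + 2) → Fin M) :
    (polyOf c J).natDegree ≤ D := by
  unfold polyOf
  refine Polynomial.natDegree_sum_le_of_forall_le _ _ fun m _ => ?_
  refine (Polynomial.natDegree_C_mul_X_pow_le _ _).trans ?_
  exact Nat.lt_succ_iff.1 m.2

theorem sum_alt {D N : ℕ} (G : Fin g → MvPolynomial (Fin M) k) (a b : Fin M → R)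
    (c : XI M n' D → R) (J : Fin (n' + 2) → Fin M) (i j : Fin (n' + 2)) (m : Fin (D + 1))
    (hij : i ≠ j) :
    ∑ x, rowF (n' := n') G a b D N (Sum.inl (J, i, j, m)) x * c x =
      c (J ∘ Equiv.swap i j, m) + c (J, m) := by
  have h1 : ∀ x, rowF (n' := n') G a b D N (Sum.inl (J, i, j, m)) x * c x =
      (if (J ∘ Equiv.swap i j, m) = x then c x else 0) + (if (J, m) = x then c x else 0) := by
    intro x
    show (if i = j then 0 else
      ((if (J ∘ Equiv.swap i j, m) = x then 1 else 0) + (if (J, m) = x then 1 else 0) : R)) *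
        c x = _
    rw [if_neg hij, add_mul]
    congr 1 <;> split_ifs <;> simp
  rw [Finset.sum_congr rfl fun x _ => h1 x, Finset.sum_add_distrib,
    Finset.sum_ite_eq Finset.univ, Finset.sum_ite_eq Finset.univ,
    if_pos (Finset.mem_univ _), if_pos (Finset.mem_univ _)]

theorem sum_contr {D N : ℕ} (G : Fin g → MvPolynomial (Fin M) k) (a b : Fin M → R)
    (c : XI M n' D → R) (i : Fin g) (J : Fin (n' + 2) → Fin M) (z : Fin N) :
    ∑ x, rowF (n' := n') G a b D N (Sum.inr (i, J, z)) x * c x =
      (∑ l, aeval (lp a b) (pderiv l (G i)) * polyOf c (Function.update J 0 l)).eval (z.1 : R) := by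
  rw [Polynomial.eval_finsetSum, Fintype.sum_prod_type]
  have h1 : ∀ (J' : Fin (n' + 2) → Fin M) (m : Fin (D + 1)),
      rowF (n' := n') G a b D N (Sum.inr (i, J, z)) (J', m) * c (J', m) =
      ∑ l, if Function.update J 0 l = J' then
        aeval (fun l => a l + b l * (z.1 : R)) (pderiv l (G i)) * (c (J', m) * (z.1 : R) ^ m.1)
          else 0 := by
    intro J' m
    show (∑ l, if Function.update J 0 l = J' then
        aeval (fun l => a l + b l * (z.1 : R)) (pderiv l (G i)) else 0) * (z.1 : R) ^ m.1 *
          c (J', m) = _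
    rw [Finset.sum_mul, Finset.sum_mul]
    refine Finset.sum_congr rfl fun l _ => ?_
    split_ifs
    · ring
    · ring
  simp_rw [h1]
  have h2 : ∀ J' : Fin (n' + 2) → Fin M, ∑ m : Fin (D + 1), ∑ l,
      (if Function.update J 0 l = J' then
        aeval (fun l => a l + b l * (z.1 : R)) (pderiv l (G i)) * (c (J', m) * (z.1 : R) ^ m.1)
          else 0) = ∑ l, if Function.update J 0 l = J' then
        aeval (fun l => a l + b l * (z.1 : R)) (pderiv l (G i)) *
          ∑ m : Fin (D + 1), (c (J', m) * (z.1 : R) ^ m.1) else 0 := by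
    intro J'
    rw [Finset.sum_comm]
    refine Finset.sum_congr rfl fun l _ => ?_
    split_ifs
    · rw [Finset.mul_sum]
    · exact Finset.sum_const_zero
  rw [Finset.sum_congr rfl fun J' _ => h2 J', Finset.sum_comm]
  refine Finset.sum_congr rfl fun l _ => ?_
  rw [Finset.sum_ite_eq Finset.univ, if_pos (Finset.mem_univ _), Polynomial.eval_mul, lp_eval]
  congr 1
  unfold polyOf
  rw [Polynomial.eval_finsetSum]
  refine Finset.sum_congr rfl fun m _ => ?_
  rw [Polynomial.eval_mul, Polynomial.eval_C, Polynomial.eval_pow, Polynomial.eval_X]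

/-- solutions of the linear system give polynomial solutions -/
theorem GS_of_sys [CharZero R] {D N : ℕ} (G : Fin g → MvPolynomial (Fin M) k) (hN : nev G D ≤ N)
    (a b : Fin M → R) (c : XI M n' D → R) (hc0 : c ≠ 0)
    (hc : ∀ y, ∑ x, rowF (n' := n') G a b D N y x * c x = 0) : GS G a b D (polyOf c) := by
  classical
  refine ⟨?_, polyOf_deg c, ?_, ?_⟩
  · obtain ⟨⟨J, m⟩, hx⟩ := Function.ne_iff.1 hc0
    refine ⟨J, fun h => hx ?_⟩
    have h1 := polyOf_coeff c J m
    rw [h, Polynomial.coeff_zero] at h1
    exact h1.symm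
  · intro J i j hij
    have h1 : ∀ m, c (J ∘ Equiv.swap i j, m) = -c (J, m) := by
      intro m
      have h2 := hc (Sum.inl (J, i, j, m))
      rw [sum_alt G a b c J i j m hij] at h2
      exact eq_neg_of_add_eq_zero_left h2
    unfold polyOf
    rw [← Finset.sum_neg_distrib]
    refine Finset.sum_congr rfl fun m _ => ?_
    rw [h1, Polynomial.C_neg, neg_mul]
  · intro i J
    set Q : Polynomial R := ∑ l, aeval (lp a b) (pderiv l (G i)) *
      polyOf c (Function.update J 0 l) with hQ
    have hdeg : Q.natDegree < N := by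
      refine lt_of_lt_of_le ?_ hN
      unfold nev
      have h1 : Q.natDegree ≤ D + ∑ i, ∑ l, (pderiv l (G i)).totalDegree := by
        rw [hQ]
        refine Polynomial.natDegree_sum_le_of_forall_le _ _ fun l _ => ?_
        refine (Polynomial.natDegree_mul_le).trans ?_
        have h2 := lp_deg a b (pderiv l (G i))
        have h3 := polyOf_deg c (Function.update J 0 l)
        have h4 : (pderiv l (G i)).totalDegree ≤ ∑ l, (pderiv l (G i)).totalDegree :=
          Finset.single_le_sum (f := fun l => (pderiv l (G i)).totalDegree)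
            (fun _ _ => Nat.zero_le _) (Finset.mem_univ l)
        have h5 : ∑ l, (pderiv l (G i)).totalDegree ≤ ∑ i, ∑ l, (pderiv l (G i)).totalDegree :=
          Finset.single_le_sum (f := fun i => ∑ l, (pderiv l (G i)).totalDegree)
            (fun _ _ => Nat.zero_le _) (Finset.mem_univ i)
        omega
      omega
    by_contra hne
    have h1 : (Finset.univ.image fun z : Fin N => (z.1 : R)) ⊆ Q.roots.toFinset := by
      intro w hw
      obtain ⟨z, -, rfl⟩ := Finset.mem_image.1 hw
      rw [Multiset.mem_toFinset, Polynomial.mem_roots hne, Polynomial.IsRoot.def]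
      rw [← sum_contr (N := N) G a b c i J z]
      exact hc _
    have h2 := Finset.card_le_card h1
    rw [Finset.card_image_of_injective _ (fun z z' h => Fin.ext (Nat.cast_injective h)),
      Finset.card_univ, Fintype.card_fin] at h2
    have h3 := (Multiset.toFinset_card_le Q.roots).trans (Polynomial.card_roots' Q)
    omega

/-- polynomial solutions give solutions of the linear system -/
theorem sys_of_GS {D N : ℕ} (G : Fin g → MvPolynomial (Fin M) k)
    (a b : Fin M → R) (Γ : (Fin (n' + 2) → Fin M) → Polynomial R) (h : GS G a b D Γ) :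
    ∃ c : XI M n' D → R, c ≠ 0 ∧ ∀ y, ∑ x, rowF (n' := n') G a b D N y x * c x = 0 := by
  classical
  obtain ⟨⟨J0, hJ0⟩, hdeg, halt, hcontr⟩ := h
  have hpoly : polyOf (fun x : XI M n' D => (Γ x.1).coeff x.2.1) = Γ := by
    funext J
    unfold polyOf
    simp only
    conv_rhs => rw [Polynomial.as_sum_range' (Γ J) (D + 1) (Nat.lt_succ_iff.2 (hdeg J))]
    rw [Finset.sum_range (fun m => Polynomial.monomial m ((Γ J).coeff m))]
    exact Finset.sum_congr rfl fun m _ => Polynomial.C_mul_X_pow_eq_monomial
  refine ⟨fun x => (Γ x.1).coeff x.2.1, ?_, ?_⟩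
  · intro h0
    apply hJ0
    rw [← hpoly]
    unfold polyOf
    refine Finset.sum_eq_zero fun m _ => ?_
    have h1 : (Γ J0).coeff m.1 = 0 := congrFun h0 (J0, m)
    show Polynomial.C ((Γ J0).coeff m.1) * _ = 0
    rw [h1, Polynomial.C_0, zero_mul]
  · rintro (⟨J, i, j, m⟩ | ⟨i, J, z⟩)
    · by_cases hij : i = j
      · refine Finset.sum_eq_zero fun x _ => ?_
        show (if i = j then 0 else
          ((if (J ∘ Equiv.swap i j, m) = x then 1 else 0) + (if (J, m) = x then 1 else 0) : R)) *
            _ = 0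
        rw [if_pos hij, zero_mul]
      · rw [sum_alt G a b _ J i j m hij]
        simp only
        rw [halt J i j hij, Polynomial.coeff_neg, neg_add_cancel]
    · rw [sum_contr, hpoly, hcontr, Polynomial.eval_zero]

theorem rowF_map {R' : Type} [Field R'] [Algebra k R'] [Algebra R R'] [IsScalarTower k R R']
    {D N : ℕ} (G : Fin g → MvPolynomial (Fin M) k) (a b : Fin M → R) (y : YI M g n' D N)
    (x : XI M n' D) :
    algebraMap R R' (rowF (n' := n') G a b D N y x) =
      rowF (n' := n') G (fun l => algebraMap R R' (a l)) (fun l => algebraMap R R' (b l)) D N y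
        x := by
  rcases y with ⟨J, i, j, m⟩ | ⟨i, J, z⟩
  · show algebraMap R R' (if i = j then 0 else
      (if (J ∘ Equiv.swap i j, m) = x then 1 else 0) + (if (J, m) = x then 1 else 0)) =
      (if i = j then 0 else
      (if (J ∘ Equiv.swap i j, m) = x then 1 else 0) + (if (J, m) = x then 1 else 0))
    split_ifs <;> simp
  · show algebraMap R R' ((∑ l, if Function.update J 0 l = x.1 then
        aeval (fun l => a l + b l * (z.1 : R)) (pderiv l (G i)) else 0) * (z.1 : R) ^ x.2.1) =
      (∑ l, if Function.update J 0 l = x.1 then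
        aeval (fun l => algebraMap R R' (a l) + algebraMap R R' (b l) * (z.1 : R'))
          (pderiv l (G i)) else 0) * (z.1 : R') ^ x.2.1
    rw [map_mul, map_pow, map_natCast, map_sum]
    congr 1
    refine Finset.sum_congr rfl fun l _ => ?_
    split_ifs
    · have h1 := MvPolynomial.comp_aeval_apply (fun l => a l + b l * (z.1 : R))
        (IsScalarTower.toAlgHom k R R') (pderiv l (G i))
      rw [IsScalarTower.coe_toAlgHom'] at h1
      rw [h1]
      simp
    · rw [map_zero]

/-- descent of polynomial solutions -/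
theorem GS_descend {R' : Type} [Field R'] [Algebra k R'] [Algebra R R'] [IsScalarTower k R R']
    [CharZero R] {D : ℕ} (G : Fin g → MvPolynomial (Fin M) k) (a b : Fin M → R)
    (Γ : (Fin (n' + 2) → Fin M) → Polynomial R')
    (h : GS G (fun l => algebraMap R R' (a l)) (fun l => algebraMap R R' (b l)) D Γ) :
    ∃ Γ' : (Fin (n' + 2) → Fin M) → Polynomial R, GS G a b D Γ' := by
  classical
  obtain ⟨c, hc0, hc⟩ := sys_of_GS (N := nev G D) G _ _ Γ h
  obtain ⟨c', hc'0, hc'⟩ := descend (R := R) (R' := R')
    (rowF (n' := n') G a b D (nev G D)) ⟨c, hc0, fun y => by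
      rw [← hc y]
      exact Finset.sum_congr rfl fun x _ => by rw [rowF_map]⟩
  exact ⟨_, GS_of_sys G le_rfl a b c' hc'0 hc'⟩

end lemmas

end Pool.Agent.N750
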