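import Mathlib
import Pool.Agent.N750.Gau
import Pool.Agent.N750.Triv

/-!
Heights of solutions of linear systems.
-/

set_option autoImplicit false
set_option linter.unusedSectionVars false

open Finset Filter Topology

namespace Pool.Agent.N750

open NumberField IsDedekindDomain Height Module
open Pool.Agent.W180.OP (Pl av wt nrm le_nrm nrm_pos wt_nonneg exists_nrm nrm_nonneg)

/-- heights of the coefficients along a line -/
theorem coeff_ht {k : Type} [Field k] [NumberField k] {M : ℕ} (P : MvPolynomial (Fin M) k) :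
    ∃ C : ℝ, 0 ≤ C ∧ ∀ (a b : Fin M → k) (m : ℕ),
      logHeight₁ ((MvPolynomial.aeval (lp a b) P).coeff m) ≤
        C * (1 + ∑ l, (logHeight₁ (a l) + logHeight₁ (b l))) := by
  classical
  have hS : ∀ a b : Fin M → k, 0 ≤ ∑ l, (logHeight₁ (a l) + logHeight₁ (b l)) := fun a b =>
    Finset.sum_nonneg fun l _ => add_nonneg (zero_le_logHeight₁ _) (zero_le_logHeight₁ _)
  induction P using MvPolynomial.induction_on with
  | C c =>
    refine ⟨logHeight₁ c, zero_le_logHeight₁ _, fun a b m => ?_⟩
    rw [MvPolynomial.aeval_C, Polynomial.algebraMap_apply, Polynomial.coeff_C]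
    have h1 : logHeight₁ c ≤ logHeight₁ c * (1 + ∑ l, (logHeight₁ (a l) + logHeight₁ (b l))) :=
      le_mul_of_one_le_right (zero_le_logHeight₁ _) (by have := hS a b; linarith)
    split_ifs
    · exact h1
    · rw [logHeight₁_zero]
      exact (zero_le_logHeight₁ c).trans h1
  | add P Q hP hQ =>
    obtain ⟨C1, hC1, h1⟩ := hP
    obtain ⟨C2, hC2, h2⟩ := hQ
    have hl : 0 ≤ totalWeight k * Real.log 2 :=
      mul_nonneg (Nat.cast_nonneg _) (Real.log_nonneg (by norm_num))
    refine ⟨C1 + C2 + totalWeight k * Real.log 2, by positivity, fun a b m => ?_⟩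
    rw [map_add, Polynomial.coeff_add]
    refine (logHeight₁_add_le _ _).trans ?_
    have h3 := h1 a b m
    have h4 := h2 a b m
    have h5 : totalWeight k * Real.log 2 ≤ totalWeight k * Real.log 2 *
        (1 + ∑ l, (logHeight₁ (a l) + logHeight₁ (b l))) :=
      le_mul_of_one_le_right hl (by have := hS a b; linarith)
    rw [add_mul, add_mul]
    linarith
  | mul_X P i hP =>
    obtain ⟨C1, hC1, h1⟩ := hP
    have hl : 0 ≤ totalWeight k * Real.log 2 :=
      mul_nonneg (Nat.cast_nonneg _) (Real.log_nonneg (by norm_num))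
    refine ⟨2 * C1 + 1 + totalWeight k * Real.log 2, by positivity, fun a b m => ?_⟩
    have hs := hS a b
    have hi : logHeight₁ (a i) + logHeight₁ (b i) ≤
        ∑ l, (logHeight₁ (a l) + logHeight₁ (b l)) :=
      Finset.single_le_sum (f := fun l => logHeight₁ (a l) + logHeight₁ (b l))
        (fun l _ => add_nonneg (zero_le_logHeight₁ _) (zero_le_logHeight₁ _)) (Finset.mem_univ i)
    have ha := zero_le_logHeight₁ (a i)
    have hb := zero_le_logHeight₁ (b i)
    have h5 : totalWeight k * Real.log 2 ≤ totalWeight k * Real.log 2 *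
        (1 + ∑ l, (logHeight₁ (a l) + logHeight₁ (b l))) :=
      le_mul_of_one_le_right hl (by linarith)
    have e1 : (MvPolynomial.aeval (lp a b) (P * MvPolynomial.X i)).coeff m =
        (MvPolynomial.aeval (lp a b) P).coeff m * a i +
          (if m = 0 then 0 else (MvPolynomial.aeval (lp a b) P).coeff (m - 1)) * b i := by
      rw [map_mul, MvPolynomial.aeval_X]
      unfold lp
      rw [mul_add, Polynomial.coeff_add, Polynomial.coeff_mul_C]
      congr 1
      rw [← mul_assoc, mul_comm (MvPolynomial.aeval _ P) (Polynomial.C (b i)), mul_assoc,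
        Polynomial.coeff_C_mul, mul_comm (b i)]
      congr 1
      rcases m with _ | m
      · rw [if_pos rfl, Polynomial.coeff_mul_X_zero]
      · rw [if_neg (Nat.succ_ne_zero m), Polynomial.coeff_mul_X, Nat.succ_sub_one]
    rw [e1]
    refine (logHeight₁_add_le _ _).trans ?_
    have h3 := logHeight₁_mul_le ((MvPolynomial.aeval (lp a b) P).coeff m) (a i)
    have h4 := logHeight₁_mul_le
      (if m = 0 then 0 else (MvPolynomial.aeval (lp a b) P).coeff (m - 1)) (b i)
    have h6 := h1 a b m
    have h7 : logHeight₁ (if m = 0 then 0 else (MvPolynomial.aeval (lp a b) P).coeff (m - 1)) ≤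
        C1 * (1 + ∑ l, (logHeight₁ (a l) + logHeight₁ (b l))) := by
      split_ifs
      · rw [logHeight₁_zero]
        exact mul_nonneg hC1 (by linarith)
      · exact h1 a b _
    rw [add_mul, add_mul, one_mul]
    linarith

/-- heights of values of polynomials -/
theorem value_ht {k : Type} [Field k] [NumberField k] {M : ℕ} (P : MvPolynomial (Fin M) k) :
    ∃ C : ℝ, 0 ≤ C ∧ ∀ a : Fin M → k,
      logHeight₁ (MvPolynomial.aeval a P) ≤ C * (1 + ∑ l, logHeight₁ (a l)) := by
  obtain ⟨C, hC, h⟩ := coeff_ht P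
  refine ⟨C, hC, fun a => ?_⟩
  have h1 := h a 0 0
  have h2 : (MvPolynomial.aeval (lp a 0) P).coeff 0 = MvPolynomial.aeval a P := by
    rw [Polynomial.coeff_zero_eq_eval_zero, lp_eval]
    congr 2
    funext l
    simp
  rw [h2] at h1
  refine h1.trans (le_of_eq ?_)
  congr 2
  refine Finset.sum_congr rfl fun l _ => ?_
  show logHeight₁ (a l) + logHeight₁ (0 : k) = _
  rw [logHeight₁_zero, add_zero]

/-- **heights of solutions of linear systems** -/
theorem cramer_ht {R : Type} [Field R] [NumberField R] {Y : Type} {N : ℕ}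
    (φ : Y → Fin (N + 1) → R) (B : ℝ) (hB : 0 ≤ B) (hφ : ∀ y, φ y ≠ 0 → logHeight (φ y) ≤ B)
    (h : ∃ c : Fin (N + 1) → R, c ≠ 0 ∧ ∀ y, ∑ x, φ y x * c x = 0) :
    ∃ c : Fin (N + 1) → R, c ≠ 0 ∧ (∀ y, ∑ x, φ y x * c x = 0) ∧
      logHeight c ≤ N * B + finrank ℚ R * Real.log ((N + 1).factorial) := by
  classical
  obtain ⟨ψ, hψ1, hψ2, hψ3, hψ4⟩ := cramer φ h
  set c : Fin (N + 1) → R := fun x =>
    (Matrix.of (Fin.cons (Pi.single x 1) ψ : Fin (N + 1) → Fin (N + 1) → R)).det with hc
  refine ⟨c, hψ2, hψ4, ?_⟩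
  have hψB : ∀ i, logHeight (ψ i) ≤ B := by
    intro i
    rcases hψ1 i with ⟨y, hy⟩ | ⟨x, hx⟩
    · rw [hy]
      exact hφ y (hy ▸ hψ3 i)
    · rw [hx]
      refine le_trans (logHeight_le_sum _) ?_
      rw [Finset.sum_eq_zero fun x' _ => ?_]
      · exact hB
      · by_cases hx' : x' = x
        · rw [hx', Pi.single_eq_same, logHeight₁_one]
        · rw [Pi.single_eq_of_ne hx', logHeight₁_zero]
  have hfac : (1 : ℝ) ≤ ((N + 1).factorial : ℝ) := by
    exact_mod_cast Nat.succ_le_of_lt (Nat.factorial_pos _)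
  -- the local estimate
  have hloc : ∀ (p : Pl R) (x : Fin (N + 1)), av p (c x) ≤
      cst ((N + 1).factorial) p * ∏ i, nrm (av p) (ψ i) := by
    intro p x
    rw [hc]
    simp only
    rw [Matrix.det_apply']
    refine av_sum p Finset.univ _ _ (Finset.prod_nonneg fun i _ => nrm_nonneg _ _)
      (fun σ _ => ?_) _ (by
        rw [Finset.card_univ, Fintype.card_perm, Fintype.card_fin])
    rw [map_mul]
    have h1 : av p (((Equiv.Perm.sign σ : ℤ) : R)) = 1 := by
      rcases Int.units_eq_one_or (Equiv.Perm.sign σ) with h | h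
      · rw [h]
        simp
      · rw [h]
        simp
    rw [h1, one_mul, map_prod]
    have h2 : ∏ i, av p (Matrix.of (Fin.cons (Pi.single x 1) ψ :
        Fin (N + 1) → Fin (N + 1) → R) (σ i) i) =
        ∏ j, av p ((Fin.cons (Pi.single x 1) ψ : Fin (N + 1) → Fin (N + 1) → R) j (σ.symm j)) := by
      rw [← Equiv.prod_comp σ (fun j => av p ((Fin.cons (Pi.single x 1) ψ :
        Fin (N + 1) → Fin (N + 1) → R) j (σ.symm j)))]
      refine Finset.prod_congr rfl fun i _ => ?_
      rw [Equiv.symm_apply_apply]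
      rfl
    rw [h2, Fin.prod_univ_succ]
    have h3 : av p ((Fin.cons (Pi.single x 1) ψ : Fin (N + 1) → Fin (N + 1) → R) 0
        (σ.symm 0)) ≤ 1 := by
      rw [Fin.cons_zero]
      by_cases hx : σ.symm 0 = x
      · rw [hx, Pi.single_eq_same, map_one]
      · rw [Pi.single_eq_of_ne hx, map_zero]
        exact zero_le_one
    calc _ ≤ 1 * ∏ i, nrm (av p) (ψ i) := by
          refine mul_le_mul h3 ?_ (Finset.prod_nonneg fun i _ => (av p).nonneg _) zero_le_one
          refine Finset.prod_le_prod (fun i _ => (av p).nonneg _) fun i _ => ?_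
          rw [Fin.cons_succ]
          exact le_nrm _ _ _
      _ = _ := one_mul _
  have h1 := ht_gen (K := R) (Finset.univ : Finset (Option (Fin N))) (fun _ => N + 1)
    (fun o => match o with | none => c | some i => ψ i)
    (fun o => match o with | none => -1 | some _ => 1) (by
      rintro (_ | i) _
      · exact hψ2
      · exact hψ3 i) ((N + 1).factorial) (by
      intro p
      rw [Fintype.sum_option]
      show 0 ≤ -1 * Real.log (nrm (av p) c) + ∑ i, 1 * Real.log (nrm (av p) (ψ i)) +
        Real.log (cst ((N + 1).factorial) p)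
      obtain ⟨x, hx⟩ := exists_nrm (av p) (Nat.succ_pos N) c
      have hcp := nrm_pos (av p) hψ2
      have h2 := hloc p x
      rw [hx] at h2
      have h3 := Real.log_le_log hcp h2
      rw [Real.log_mul (cst_pos (by linarith) p).ne' (Finset.prod_ne_zero_iff.2 fun i _ =>
        (nrm_pos (av p) (hψ3 i)).ne'), Real.log_prod (fun i _ =>
          (nrm_pos (av p) (hψ3 i)).ne')] at h3
      simp only [one_mul]
      linarith)
  rw [Fintype.sum_option] at h1
  have h2 : 0 ≤ -1 * logHeight c + ∑ i, 1 * logHeight (ψ i) +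
    finrank ℚ R * Real.log ((N + 1).factorial) := h1
  have h3 : ∑ i, 1 * logHeight (ψ i) ≤ N * B := by
    calc ∑ i, 1 * logHeight (ψ i) ≤ ∑ _i : Fin N, B := Finset.sum_le_sum fun i _ => by
          rw [one_mul]
          exact hψB i
      _ = N * B := by rw [Finset.sum_const, Finset.card_univ, Fintype.card_fin, nsmul_eq_mul]
  linarith

end Pool.Agent.N750
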