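import Mathlib
import Pool.Agent.N750.HtP
import Pool.Agent.N750.Cmp

/-!
Heights for the Gauss map.
-/

set_option autoImplicit false
set_option linter.unusedSectionVars false

open Finset Filter Topology

namespace Pool.Agent.N750

open NumberField IsDedekindDomain Height Module
open Pool.Agent.W180.OP (Pl av wt nrm le_nrm nrm_pos wt_nonneg exists_nrm nrm_nonneg)

/-- the sum of the heights of the coordinates -/
noncomputable def hs {k : Type} [Field k] [NumberField k] {M : ℕ} (a b : Fin M → k) : ℝ :=
  1 + ∑ l, (logHeight₁ (a l) + logHeight₁ (b l))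

theorem one_le_hs {k : Type} [Field k] [NumberField k] {M : ℕ} (a b : Fin M → k) :
    1 ≤ hs a b := by
  unfold hs
  have : 0 ≤ ∑ l, (logHeight₁ (a l) + logHeight₁ (b l)) :=
    Finset.sum_nonneg fun l _ => add_nonneg (zero_le_logHeight₁ _) (zero_le_logHeight₁ _)
  linarith

/-- heights of the entries of the system -/
theorem entry_ht {k : Type} [Field k] [NumberField k] {M g n' D N : ℕ}
    (G : Fin g → MvPolynomial (Fin M) k) (y : YI M g n' D N) : ∃ C : ℝ, 0 ≤ C ∧
    ∀ (a b : Fin M → k) (x : XI M n' D),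
      logHeight₁ (rowF (n' := n') G a b D N y x) ≤ C * hs a b := by
  classical
  rcases y with ⟨J, i, j, m⟩ | ⟨i, J, z⟩
  · refine ⟨logHeight₁ (2 : k), zero_le_logHeight₁ _, fun a b x => ?_⟩
    have h1 : logHeight₁ (rowF (n' := n') G a b D N (Sum.inl (J, i, j, m)) x) ≤
        logHeight₁ (2 : k) := by
      show logHeight₁ (if i = j then 0 else
        (if (J ∘ Equiv.swap i j, m) = x then 1 else 0) + (if (J, m) = x then 1 else 0)) ≤ _
      split_ifs
      · rw [logHeight₁_zero]; exact zero_le_logHeight₁ _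
      · norm_num
      · rw [add_zero, logHeight₁_one]; exact zero_le_logHeight₁ _
      · rw [zero_add, logHeight₁_one]; exact zero_le_logHeight₁ _
      · rw [add_zero, logHeight₁_zero]; exact zero_le_logHeight₁ _
    exact h1.trans (le_mul_of_one_le_right (zero_le_logHeight₁ _) (one_le_hs a b))
  · choose C hC hCv using fun l => value_ht (MvPolynomial.pderiv l (G i))
    have hl2 : 0 ≤ totalWeight k * Real.log 2 :=
      mul_nonneg (Nat.cast_nonneg _) (Real.log_nonneg (by norm_num))
    have hlM : 0 ≤ totalWeight k * Real.log (Finset.univ : Finset (Fin M)).card :=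
      mul_nonneg (Nat.cast_nonneg _) (Real.log_natCast_nonneg _)
    have hz := zero_le_logHeight₁ ((z.1 : ℕ) : k)
    set C0 : ℝ := 1 + M * (logHeight₁ ((z.1 : ℕ) : k) + totalWeight k * Real.log 2) with hC0
    have hC00 : 0 ≤ C0 := by positivity
    refine ⟨∑ l, C l * C0 + totalWeight k * Real.log (Finset.univ : Finset (Fin M)).card +
      D * logHeight₁ ((z.1 : ℕ) : k), ?_, fun a b x => ?_⟩
    · have : 0 ≤ ∑ l, C l * C0 := Finset.sum_nonneg fun l _ => mul_nonneg (hC l) hC00
      positivity
    have h1s := one_le_hs a b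
    show logHeight₁ ((∑ l, if Function.update J 0 l = x.1 then
        MvPolynomial.aeval (fun l => a l + b l * (z.1 : k)) (MvPolynomial.pderiv l (G i)) else 0) *
          (z.1 : k) ^ x.2.1) ≤ _
    have h1 := logHeight₁_mul_le (∑ l, if Function.update J 0 l = x.1 then
        MvPolynomial.aeval (fun l => a l + b l * (z.1 : k)) (MvPolynomial.pderiv l (G i)) else 0)
          ((z.1 : k) ^ x.2.1)
    have h2 : logHeight₁ ((z.1 : k) ^ x.2.1) ≤ D * logHeight₁ ((z.1 : ℕ) : k) * hs a b := by
      rw [logHeight₁_pow]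
      have hx : (x.2.1 : ℝ) ≤ D := by exact_mod_cast Nat.lt_succ_iff.1 x.2.2
      calc (x.2.1 : ℝ) * logHeight₁ ((z.1 : ℕ) : k) ≤ D * logHeight₁ ((z.1 : ℕ) : k) :=
            mul_le_mul_of_nonneg_right hx hz
        _ ≤ _ := le_mul_of_one_le_right (by positivity) h1s
    have h3 := logHeight₁_sum_le (Finset.univ : Finset (Fin M)) (fun l =>
      if Function.update J 0 l = x.1 then
        MvPolynomial.aeval (fun l => a l + b l * (z.1 : k)) (MvPolynomial.pderiv l (G i)) else 0)
    have h4 : ∀ l, logHeight₁ (if Function.update J 0 l = x.1 then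
        MvPolynomial.aeval (fun l => a l + b l * (z.1 : k)) (MvPolynomial.pderiv l (G i)) else 0) ≤
        C l * C0 * hs a b := by
      intro l
      have e0 : 0 ≤ C l * C0 * hs a b := mul_nonneg (mul_nonneg (hC l) hC00) (by linarith)
      split_ifs
      · refine (hCv l _).trans ?_
        rw [mul_assoc]
        refine mul_le_mul_of_nonneg_left ?_ (hC l)
        have e1 : ∀ l', logHeight₁ (a l' + b l' * (z.1 : k)) ≤ (logHeight₁ (a l') +
            logHeight₁ (b l')) + (logHeight₁ ((z.1 : ℕ) : k) + totalWeight k * Real.log 2) := by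
          intro l'
          have e2 := logHeight₁_add_le (a l') (b l' * (z.1 : k))
          have e3 := logHeight₁_mul_le (b l') (z.1 : k)
          linarith
        have e4 := Finset.sum_le_sum fun l' (_ : l' ∈ Finset.univ) => e1 l'
        rw [Finset.sum_add_distrib, Finset.sum_const, Finset.card_univ, Fintype.card_fin,
          nsmul_eq_mul] at e4
        have e5 : 0 ≤ (M : ℝ) * (logHeight₁ ((z.1 : ℕ) : k) + totalWeight k * Real.log 2) := by
          positivity
        have e6 : 0 ≤ (M : ℝ) * (logHeight₁ ((z.1 : ℕ) : k) + totalWeight k * Real.log 2) *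
            ∑ l, (logHeight₁ (a l) + logHeight₁ (b l)) :=
          mul_nonneg e5 (Finset.sum_nonneg fun l _ =>
            add_nonneg (zero_le_logHeight₁ _) (zero_le_logHeight₁ _))
        rw [hC0]
        unfold hs
        linarith
      · rw [logHeight₁_zero]
        exact e0
    have h5 := Finset.sum_le_sum fun l (_ : l ∈ Finset.univ) => h4 l
    rw [← Finset.sum_mul] at h5
    have h6 : totalWeight k * Real.log (Finset.univ : Finset (Fin M)).card ≤
        totalWeight k * Real.log (Finset.univ : Finset (Fin M)).card * hs a b :=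
      le_mul_of_one_le_right hlM h1s
    rw [add_mul, add_mul]
    linarith

/-- **small solutions** -/
theorem small_sol {k : Type} [Field k] [NumberField k] {M g : ℕ} (n' D : ℕ)
    (G : Fin g → MvPolynomial (Fin M) k) : ∃ C : ℝ, 0 ≤ C ∧ ∀ a b : Fin M → k,
    (∃ Γ : (Fin (n' + 2) → Fin M) → Polynomial k, GS G a b D Γ) →
    ∃ c : XI M n' D → k, GS G a b D (polyOf c) ∧ logHeight c ≤ C * hs a b := by
  classical
  choose C hC hent using fun y => entry_ht (n' := n') (D := D) (N := nev G D) G y
  set N := Fintype.card (XI M n' D) with hN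
  refine ⟨N * (N * ∑ y, C y) + finrank ℚ k * Real.log (N.factorial), ?_, ?_⟩
  · have h1 : 0 ≤ ∑ y, C y := Finset.sum_nonneg fun y _ => hC y
    have h2 : 0 ≤ Real.log (N.factorial : ℝ) := Real.log_natCast_nonneg _
    positivity
  intro a b ⟨Γ, hΓ⟩
  obtain ⟨c0, hc00, hc0⟩ := sys_of_GS (N := nev G D) G a b Γ hΓ
  have hNpos : 0 < N := by
    rw [hN, Fintype.card_pos_iff]
    obtain ⟨x, -⟩ := Function.ne_iff.1 hc00
    exact ⟨x⟩
  obtain ⟨N', hN'⟩ : ∃ N', N = N' + 1 := ⟨N - 1, by omega⟩
  let ε : XI M n' D ≃ Fin (N' + 1) := Fintype.equivFinOfCardEq (by rw [← hN, hN'])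
  have h1s := one_le_hs a b
  have hB : 0 ≤ N * ∑ y, C y * hs a b := by
    refine mul_nonneg (Nat.cast_nonneg _) (Finset.sum_nonneg fun y _ => mul_nonneg (hC y) ?_)
    linarith
  obtain ⟨c, hc1, hc2, hc3⟩ := cramer_ht (R := k) (N := N')
    (fun y x => rowF (n' := n') G a b D (nev G D) y (ε.symm x)) (N * ∑ y, C y * hs a b) hB (by
      intro y _
      refine (logHeight_le_sum _).trans ?_
      calc ∑ x, logHeight₁ (rowF (n' := n') G a b D (nev G D) y (ε.symm x)) ≤
            ∑ _x : Fin (N' + 1), C y * hs a b := Finset.sum_le_sum fun x _ => hent y a b _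
        _ = N * (C y * hs a b) := by
            rw [Finset.sum_const, Finset.card_univ, Fintype.card_fin, nsmul_eq_mul, hN']
        _ ≤ N * ∑ y, C y * hs a b := by
            refine mul_le_mul_of_nonneg_left ?_ (Nat.cast_nonneg _)
            exact Finset.single_le_sum (f := fun y => C y * hs a b)
              (fun y _ => mul_nonneg (hC y) (by linarith)) (Finset.mem_univ y))
    ⟨fun x => c0 (ε.symm x), fun h => hc00 (by
      funext x
      have := congrFun h (ε x)
      simpa using this), fun y => by
      rw [← hc0 y]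
      exact Equiv.sum_comp ε.symm (fun x => rowF (n' := n') G a b D (nev G D) y x * c0 x)⟩
  refine ⟨fun x => c (ε x), GS_of_sys G le_rfl a b _ (fun h => hc1 ?_) (fun y => ?_), ?_⟩
  · funext x
    have := congrFun h (ε.symm x)
    simpa using this
  · rw [← hc2 y, ← Equiv.sum_comp ε.symm]
    refine Finset.sum_congr rfl fun x _ => ?_
    rw [Equiv.apply_symm_apply]
  · refine (logHeight_comp_le (⇑ε) c).trans (hc3.trans ?_)
    rw [← Finset.sum_mul]
    have h2 : 0 ≤ Real.log ((N' + 1).factorial : ℝ) := Real.log_natCast_nonneg _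
    have h3 : (N' : ℝ) ≤ N := by
      rw [hN']
      push_cast
      linarith
    have h4 : 0 ≤ (N : ℝ) * ((∑ y, C y) * hs a b) := by
      refine mul_nonneg (Nat.cast_nonneg _) (mul_nonneg (Finset.sum_nonneg fun y _ => hC y) ?_)
      linarith
    have h5 := mul_le_mul_of_nonneg_right h3 h4
    have h6 : (finrank ℚ k : ℝ) * Real.log ((N' + 1).factorial) ≤
        finrank ℚ k * Real.log ((N' + 1).factorial) * hs a b :=
      le_mul_of_one_le_right (by positivity) h1s
    rw [show N.factorial = (N' + 1).factorial from by rw [hN'], add_mul]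
    linarith

end Pool.Agent.N750
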