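import Mathlib
import Pool.Agent.N750.HtG

/-!
The height of the Gauss map at a point of a line.
-/

set_option autoImplicit false
set_option linter.unusedSectionVars false

open Finset Filter Topology

namespace Pool.Agent.N750

open NumberField IsDedekindDomain Height Module
open Pool.Agent.W180.OP (Pl av wt nrm le_nrm nrm_pos wt_nonneg exists_nrm nrm_nonneg)

/-- the minors of a matrix -/
def mv {L : Type} [Field L] {M p : ℕ} (A : Fin M → Fin p → L) : (Fin p → Fin M) → L :=
  fun J => (Matrix.of fun x c => A (J x) c).det

theorem nrm_one {L : Type} [Field L] [NumberField L] (p : Pl L) (x : L) :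
    nrm (av p) (fun _ : Fin 1 => x) = av p x := by
  unfold nrm
  exact ciSup_const (ι := Fin 1) (a := av p x)

/-- the height of a root -/
theorem root_ht {k L : Type} [Field k] [NumberField k] [Field L] [NumberField L] [Algebra k L]
    (D : ℕ) (P : Polynomial k) (hP : P ≠ 0) (hD : P.natDegree ≤ D) (y : L)
    (hy : Polynomial.aeval y P = 0) :
    logHeight ![1, y] ≤ finrank k L * logHeight (fun m : Fin (D + 1) => P.coeff m.1) +
      finrank ℚ L * Real.log (D + 1) := by
  classical
  set m0 := P.natDegree with hm0
  set l0 := P.leadingCoeff with hl0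
  have hl00 : l0 ≠ 0 := Polynomial.leadingCoeff_ne_zero.2 hP
  set w : Fin (D + 1) → k := fun m => P.coeff m.1 with hw
  have hwm : w ⟨m0, by omega⟩ = l0 := rfl
  set wL : Fin (D + 1) → L := fun m => algebraMap k L (w m) with hwL
  have hl0L : algebraMap k L l0 ≠ 0 := (map_ne_zero _).2 hl00
  have hwL0 : wL ≠ 0 := fun h => hl0L (by
    have := congrFun h ⟨m0, by omega⟩
    exact this)
  have h1y : (![1, y] : Fin 2 → L) ≠ 0 := fun h => one_ne_zero (congrFun h 0)
  have hlead : ∀ p : Pl L, av p (algebraMap k L l0) ≤ nrm (av p) wL := fun p =>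
    le_nrm (av p) wL ⟨m0, by omega⟩
  have hD1 : (1 : ℝ) ≤ (D : ℝ) + 1 := by
    have := Nat.cast_nonneg (α := ℝ) D
    linarith
  have hm1 : m0 ≠ 0 := by
    intro h0
    rw [Polynomial.aeval_eq_sum_range, ← hm0, h0] at hy
    simp only [zero_add, Finset.range_one, Finset.sum_singleton, pow_zero] at hy
    rw [Algebra.smul_def, mul_one] at hy
    have : P.coeff 0 = l0 := by
      rw [hl0, Polynomial.leadingCoeff, ← hm0, h0]
    rw [this] at hy
    exact hl0L hy
  have hloc : ∀ p : Pl L, av p (algebraMap k L l0) * nrm (av p) ![1, y] ≤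
      cst ((D : ℝ) + 1) p * nrm (av p) wL := by
    intro p
    have hc1 := one_le_cst hD1 p
    have hwn := nrm_nonneg (av p) wL
    by_cases hy1 : av p y ≤ 1
    · have h1 : nrm (av p) ![1, y] ≤ 1 := by
        obtain ⟨i, hi⟩ := exists_nrm (av p) (by norm_num : 0 < 2) ![1, y]
        rw [← hi]
        fin_cases i
        · show av p (1 : L) ≤ 1
          rw [map_one]
        · exact hy1
      calc av p (algebraMap k L l0) * nrm (av p) ![1, y] ≤ nrm (av p) wL * 1 :=
            mul_le_mul (hlead p) h1 (nrm_nonneg _ _) hwn
        _ ≤ cst ((D : ℝ) + 1) p * nrm (av p) wL := by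
            rw [mul_one]
            exact le_mul_of_one_le_left hwn hc1
    · push Not at hy1
      have h1 : nrm (av p) ![1, y] = av p y := by
        refine le_antisymm ?_ (le_nrm (av p) ![1, y] 1)
        obtain ⟨i, hi⟩ := exists_nrm (av p) (by norm_num : 0 < 2) ![1, y]
        rw [← hi]
        fin_cases i
        · show av p (1 : L) ≤ av p y
          rw [map_one]
          exact hy1.le
        · exact le_rfl
      rw [h1]
      -- the equation
      have h2 : algebraMap k L l0 * y ^ m0 =
          ∑ m ∈ Finset.range m0, -(algebraMap k L (P.coeff m) * y ^ m) := by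
        rw [Polynomial.aeval_eq_sum_range, ← hm0, Finset.sum_range_succ] at hy
        have h3 : P.coeff m0 • y ^ m0 = algebraMap k L l0 * y ^ m0 := Algebra.smul_def _ _
        rw [h3] at hy
        rw [Finset.sum_neg_distrib]
        have h4 : ∑ m ∈ Finset.range m0, P.coeff m • y ^ m =
            ∑ m ∈ Finset.range m0, algebraMap k L (P.coeff m) * y ^ m :=
          Finset.sum_congr rfl fun m _ => Algebra.smul_def _ _
        rw [h4] at hy
        linear_combination hy
      have h3 := av_sum p (Finset.range m0) (fun m => -(algebraMap k L (P.coeff m) * y ^ m))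
        (nrm (av p) wL * av p y ^ (m0 - 1))
        (mul_nonneg hwn (pow_nonneg ((av p).nonneg _) _)) (by
          intro m hm
          rw [Finset.mem_range] at hm
          rw [(av p).map_neg, map_mul, map_pow]
          refine mul_le_mul (le_nrm (av p) wL ⟨m, by omega⟩) ?_ (pow_nonneg ((av p).nonneg _) _) hwn
          exact pow_le_pow_right₀ hy1.le (by omega)) ((D : ℝ) + 1) (by
          rw [Finset.card_range]
          have : m0 ≤ D := hD
          have : (m0 : ℝ) ≤ D := by exact_mod_cast this
          linarith)
      rw [← h2, map_mul, map_pow] at h3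
      have h4 : 0 < av p y ^ (m0 - 1) := pow_pos (by linarith) _
      have h5 : av p y ^ m0 = av p y * av p y ^ (m0 - 1) := by
        rw [← pow_succ']
        congr 1
        omega
      rw [h5, ← mul_assoc, ← mul_assoc] at h3
      exact le_of_mul_le_mul_right h3 h4
  have h1 := ht_gen (K := L) (Finset.univ : Finset (Fin 3))
    (fun q => match q with | 0 => 1 | 1 => 2 | 2 => D + 1)
    (fun q => match q with
      | 0 => fun _ => algebraMap k L l0
      | 1 => ![1, y]
      | 2 => wL)
    (fun q => match q with | 0 => -1 | 1 => -1 | 2 => 1)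
    (by
      intro q _
      fin_cases q
      · exact fun h => hl0L (congrFun h (0 : Fin 1))
      · exact h1y
      · exact hwL0) ((D : ℝ) + 1) (by
      intro p
      rw [Fin.sum_univ_three]
      show 0 ≤ -1 * Real.log (nrm (av p) (fun _ : Fin 1 => algebraMap k L l0)) +
        -1 * Real.log (nrm (av p) ![1, y]) + 1 * Real.log (nrm (av p) wL) + _
      rw [nrm_one]
      have h2 := hloc p
      have h3 : 0 < av p (algebraMap k L l0) := (av p).pos_iff.2 hl0L
      have h4 := nrm_pos (av p) h1y
      have h5 := Real.log_le_log (mul_pos h3 h4) h2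
      rw [Real.log_mul h3.ne' h4.ne', Real.log_mul (cst_pos (by linarith) p).ne'
        (nrm_pos (av p) hwL0).ne'] at h5
      linarith)
  rw [Fin.sum_univ_three] at h1
  have h2 : 0 ≤ -1 * logHeight (fun _ : Fin 1 => algebraMap k L l0) +
    -1 * logHeight ![1, y] + 1 * logHeight wL + finrank ℚ L * Real.log ((D : ℝ) + 1) := h1
  rw [logHeight_one] at h2
  have h3 : logHeight wL = finrank k L * logHeight w :=
    Pool.Agent.Helper259.HtExt.logHeight_ext w
  rw [h3] at h2
  linarith

/-- tangent spaces of multiples -/
theorem TS_smul {k Ω : Type} [Field k] [Field Ω] [Algebra k Ω] {M g : ℕ}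
    {G : Fin g → MvPolynomial (Fin M) k} {e : Fin g → ℕ} (hG : ∀ i, (G i).IsHomogeneous (e i))
    (c : Ω) (hc : c ≠ 0) (z : Fin M → Ω) : TS G (fun l => c * z l) = TS G z := by
  have h1 : ∀ i l, MvPolynomial.aeval (fun l => c * z l) (MvPolynomial.pderiv l (G i)) =
      c ^ (e i - 1) * MvPolynomial.aeval z (MvPolynomial.pderiv l (G i)) := by
    intro i l
    have h2 : (MvPolynomial.pderiv l (G i)).IsHomogeneous (e i - 1) := (hG i).pderiv
    rw [MvPolynomial.aeval_def, MvPolynomial.aeval_def, MvPolynomial.eval₂_eq,
      MvPolynomial.eval₂_eq, Finset.mul_sum]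
    refine Finset.sum_congr rfl fun m hm => ?_
    simp only [mul_pow]
    rw [Finset.prod_mul_distrib, Finset.prod_pow_eq_pow_sum]
    have hdeg : ∑ i ∈ m.support, m i = e i - 1 := by
      have h3 := h2 (MvPolynomial.mem_support_iff.1 hm)
      rw [Finsupp.weight_apply, Finsupp.sum] at h3
      simpa using h3
    rw [hdeg]
    ring
  ext v
  rw [mem_TS, mem_TS]
  refine forall_congr' fun i => ?_
  have h2 : ∑ j, MvPolynomial.aeval (fun l => c * z l) (MvPolynomial.pderiv j (G i)) * v j =
      c ^ (e i - 1) * ∑ j, MvPolynomial.aeval z (MvPolynomial.pderiv j (G i)) * v j := by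
    rw [Finset.mul_sum]
    refine Finset.sum_congr rfl fun j _ => ?_
    rw [h1]
    ring
  rw [h2]
  constructor
  · intro h
    exact (mul_eq_zero.1 h).resolve_left (pow_ne_zero _ hc)
  · intro h
    rw [h, mul_zero]

/-- a basis of the tangent space -/
def IsTB {k L : Type} [Field k] [Field L] [Algebra k L] {M g p : ℕ}
    (G : Fin g → MvPolynomial (Fin M) k) (x : Fin M → L) (A : Fin M → Fin p → L) : Prop :=
  LinearIndependent L (fun c : Fin p => fun l => A l c) ∧ ∀ c, (fun l => A l c) ∈ TS G x

theorem span_TB {k L : Type} [Field k] [Field L] [Algebra k L] {M g p : ℕ}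
    {G : Fin g → MvPolynomial (Fin M) k} {x : Fin M → L} {A : Fin M → Fin p → L}
    (hA : IsTB G x A) (hdim : finrank L (TS G x) = p) (v : Fin M → L) (hv : v ∈ TS G x) :
    v ∈ Submodule.span L (Set.range fun c : Fin p => fun l => A l c) := by
  have h1 : Submodule.span L (Set.range fun c : Fin p => fun l => A l c) = TS G x := by
    refine Submodule.eq_of_le_of_finrank_eq ?_ ?_
    · rw [Submodule.span_le]
      rintro _ ⟨c, rfl⟩
      exact hA.2 c
    · rw [finrank_span_eq_card hA.1, Fintype.card_fin, hdim]
  rw [h1]
  exact hv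

/-- **the height of the Gauss map at a point of a line** -/
theorem val_ht {k L : Type} [Field k] [NumberField k] [Field L] [NumberField L] [Algebra k L]
    {M g n' D : ℕ} (G : Fin g → MvPolynomial (Fin M) k) (a b : Fin M → k)
    (c : XI M n' D → k) (hc : GS G a b D (polyOf c)) (y : L) (x : Fin M → L)
    (hx : TS G x = TS G (fun l => algebraMap k L (a l) + algebraMap k L (b l) * y))
    (hdim : finrank L (TS G x) = n' + 2) (A : Fin M → Fin (n' + 2) → L) (hA : IsTB G x A) :
    logHeight ![1, y] ≤ finrank k L * logHeight c + finrank ℚ L * Real.log (D + 1) ∨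
    logHeight (mv A) ≤ D * logHeight ![1, y] + finrank k L * logHeight c +
      finrank ℚ L * Real.log (D + 1) := by
  classical
  obtain ⟨⟨J0, hJ0⟩, hdeg, halt, hcontr⟩ := hc
  by_cases hall : ∀ J, Polynomial.aeval y (polyOf c J) = 0
  · left
    have h1 := root_ht D (polyOf c J0) hJ0 (hdeg J0) y (hall J0)
    have h2 : logHeight (fun m : Fin (D + 1) => (polyOf c J0).coeff m.1) ≤ logHeight c := by
      have h3 : (fun m : Fin (D + 1) => (polyOf c J0).coeff m.1) = c ∘ fun m => (J0, m) := by
        funext m
        exact polyOf_coeff c J0 m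
      rw [h3]
      exact logHeight_comp_le _ _
    have h3 := mul_le_mul_of_nonneg_left h2 (Nat.cast_nonneg (α := ℝ) (finrank k L))
    linarith
  · right
    push Not at hall
    obtain ⟨J1, hJ1⟩ := hall
    obtain ⟨t, ht⟩ := alt_unique (L := L) A hA.1
      (fun i l => MvPolynomial.aeval (fun l => algebraMap k L (a l) + algebraMap k L (b l) * y)
        (MvPolynomial.pderiv l (G i))) (fun v hv => span_TB hA hdim v (by
          rw [hx]
          exact hv)) (fun J => Polynomial.aeval y (polyOf c J)) (by
      intro J i j hij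
      rw [halt J i j hij, map_neg]) (by
      intro i J
      have h1 := congrArg (Polynomial.aeval y) (hcontr i J)
      rw [map_sum, map_zero] at h1
      rw [← h1]
      refine Finset.sum_congr rfl fun l _ => ?_
      rw [map_mul, lp_aeval])
    have ht0 : t ≠ 0 := by
      rintro rfl
      apply hJ1
      have := ht J1
      rw [this, zero_mul]
    have h1 : logHeight (mv A) = logHeight (fun J => Polynomial.aeval y (polyOf c J)) := by
      have h2 : (fun J => Polynomial.aeval y (polyOf c J)) = t • mv A := by
        funext J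
        exact ht J
      rw [h2, logHeight_smul_eq_logHeight _ ht0]
    rw [h1]
    set V : (Fin (n' + 2) → Fin M) → L := fun J => Polynomial.aeval y (polyOf c J) with hV
    -- indices
    let e1 := Fintype.equivFin (Fin (n' + 2) → Fin M)
    let e2 := Fintype.equivFin (XI M n' D)
    set V' : Fin (Fintype.card (Fin (n' + 2) → Fin M)) → L := fun i => V (e1.symm i) with hV'
    set c' : Fin (Fintype.card (XI M n' D)) → L := fun i => algebraMap k L (c (e2.symm i)) with hc'
    have hV0 : V' ≠ 0 := fun h => hJ1 (by
      have := congrFun h (e1 J1)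
      simp only [hV', Equiv.symm_apply_apply] at this
      exact this)
    have hc0 : c ≠ 0 := by
      rintro rfl
      apply hJ0
      unfold polyOf
      simp
    have hc'0 : c' ≠ 0 := by
      obtain ⟨xx, hxx⟩ := Function.ne_iff.1 hc0
      intro h
      have := congrFun h (e2 xx)
      simp only [hc', Equiv.symm_apply_apply, Pi.zero_apply, map_eq_zero] at this
      exact hxx this
    have h1y : (![1, y] : Fin 2 → L) ≠ 0 := fun h => one_ne_zero (congrFun h 0)
    have hD1 : (1 : ℝ) ≤ (D : ℝ) + 1 := by
      have := Nat.cast_nonneg (α := ℝ) D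
      linarith
    have hloc : ∀ (p : Pl L) i, av p (V' i) ≤ cst ((D : ℝ) + 1) p *
        (nrm (av p) c' * nrm (av p) ![1, y] ^ D) := by
      intro p i
      have hn1 : 1 ≤ nrm (av p) ![1, y] := by
        have := le_nrm (av p) ![1, y] 0
        have h2 : av p ((![1, y] : Fin 2 → L) 0) = 1 := map_one (av p)
        rwa [h2] at this
      have h2 : V' i = ∑ m : Fin (D + 1), algebraMap k L (c (e1.symm i, m)) * y ^ m.1 := by
        show Polynomial.aeval y (polyOf c (e1.symm i)) = _
        unfold polyOf
        rw [map_sum]
        refine Finset.sum_congr rfl fun m _ => ?_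
        rw [map_mul, map_pow, Polynomial.aeval_C, Polynomial.aeval_X]
      rw [h2]
      refine av_sum p Finset.univ _ _ (mul_nonneg (nrm_nonneg _ _)
        (pow_nonneg (nrm_nonneg _ _) _)) (fun m _ => ?_) _ (by
          rw [Finset.card_univ, Fintype.card_fin]
          push_cast
          exact le_rfl)
      rw [map_mul, map_pow]
      refine mul_le_mul ?_ ?_ (pow_nonneg ((av p).nonneg _) _) (nrm_nonneg _ _)
      · have := le_nrm (av p) c' (e2 (e1.symm i, m))
        simp only [hc', Equiv.symm_apply_apply] at this
        exact this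
      · calc av p y ^ m.1 ≤ nrm (av p) ![1, y] ^ m.1 :=
              pow_le_pow_left₀ ((av p).nonneg _) (le_nrm (av p) ![1, y] 1) _
          _ ≤ nrm (av p) ![1, y] ^ D := pow_le_pow_right₀ hn1 (Nat.lt_succ_iff.1 m.2)
    have hpos : 0 < Fintype.card (Fin (n' + 2) → Fin M) := Fintype.card_pos_iff.2 ⟨J1⟩
    have h2 := ht_gen (K := L) (Finset.univ : Finset (Fin 3))
      (fun q => match q with
        | 0 => Fintype.card (Fin (n' + 2) → Fin M) | 1 => 2 | 2 => Fintype.card (XI M n' D))
      (fun q => match q with
        | 0 => V'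
        | 1 => ![1, y]
        | 2 => c')
      (fun q => match q with | 0 => -1 | 1 => (D : ℝ) | 2 => 1)
      (by
        intro q _
        fin_cases q
        · exact hV0
        · exact h1y
        · exact hc'0) ((D : ℝ) + 1) (by
        intro p
        rw [Fin.sum_univ_three]
        show 0 ≤ -1 * Real.log (nrm (av p) V') +
          (D : ℝ) * Real.log (nrm (av p) ![1, y]) + 1 * Real.log (nrm (av p) c') + _
        obtain ⟨i, hi⟩ := exists_nrm (av p) hpos V'
        have h3 := hloc p i
        rw [hi] at h3
        have h4 := nrm_pos (av p) h1y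
        have h5 := nrm_pos (av p) hc'0
        have h6 := Real.log_le_log (nrm_pos (av p) hV0) h3
        rw [Real.log_mul (cst_pos (by linarith) p).ne' (mul_pos h5 (pow_pos h4 _)).ne',
          Real.log_mul h5.ne' (pow_pos h4 _).ne', Real.log_pow] at h6
        linarith)
    rw [Fin.sum_univ_three] at h2
    have h3 : 0 ≤ -1 * logHeight V' + (D : ℝ) * logHeight ![1, y] + 1 * logHeight c' +
      finrank ℚ L * Real.log ((D : ℝ) + 1) := h2
    have h4 : logHeight V' = logHeight V := logHeight_comp_equiv e1.symm V
    have h5 : logHeight c' = finrank k L * logHeight c := by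
      rw [← Pool.Agent.Helper259.HtExt.logHeight_ext (K := k) (L := L) c]
      exact logHeight_comp_equiv e2.symm (fun x => algebraMap k L (c x))
    rw [h4, h5] at h3
    linarith

end Pool.Agent.N750
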