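import Mathlib
import Pool.Agent.N750.HtV

/-!
Deformations of a linear subspace of a variety.
-/

set_option autoImplicit false
set_option linter.unusedSectionVars false

namespace Pool.Agent.N750

open MvPolynomial

section defs

variable {k K Ω : Type} [Field k] [Field K] [Field Ω] [Algebra k K] [Algebra k Ω] [Algebra K Ω]
  {M N g q : ℕ}

/-- the point with the parameters `Y` -/
def pt {R : Type} [CommRing R] {M N : ℕ} (b : Fin N → Fin M → R) (Y : Fin N → R) : Fin M → R :=
  fun j => ∑ l, Y l * b l j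

/-- the linear space lies on the variety -/
def LX (G : Fin g → MvPolynomial (Fin M) k) (b : Fin N → Fin M → Ω) : Prop :=
  ∀ Y i, aeval (pt b Y) (G i) = 0

/-- first order deformations of the linear space and of the restrictions of the linear forms -/
def DT (G : Fin g → MvPolynomial (Fin M) k) (H : Fin q → Fin M → K)
    (b β : Fin N → Fin M → Ω) : Prop :=
  (∀ Y, pt β Y ∈ TS G (pt b Y)) ∧
    ∀ c : Fin q → Ω, (∀ l, ∑ s, c s * lv (H s) (b l) = 0) →
      ∃ μ : Fin q → Ω, (∀ s, c s = 0 → μ s = 0) ∧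
        ∀ l, ∑ s, c s * lv (H s) (β l) = ∑ s, μ s * lv (H s) (b l)

end defs

section lemmas

variable {k K Ω : Type} [Field k] [Field K] [Field Ω] [Algebra k K] [Algebra k Ω] [Algebra K Ω]
  {M N g q : ℕ}

theorem pt_add (b : Fin N → Fin M → Ω) (Y Z : Fin N → Ω) : pt b (Y + Z) = pt b Y + pt b Z := by
  funext j
  unfold pt
  rw [Pi.add_apply, ← Finset.sum_add_distrib]
  exact Finset.sum_congr rfl fun l _ => by
    rw [Pi.add_apply, add_mul]

theorem pt_smul (b : Fin N → Fin M → Ω) (c : Ω) (Y : Fin N → Ω) : pt b (c • Y) = c • pt b Y := by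
  funext j
  unfold pt
  rw [Pi.smul_apply, smul_eq_mul, Finset.mul_sum]
  exact Finset.sum_congr rfl fun l _ => by
    rw [Pi.smul_apply, smul_eq_mul, mul_assoc]

theorem pt_single (b : Fin N → Fin M → Ω) (l : Fin N) : pt b (Pi.single l 1) = b l := by
  funext j
  unfold pt
  rw [Finset.sum_eq_single l]
  · rw [Pi.single_eq_same, one_mul]
  · intro l' _ hl'
    rw [Pi.single_eq_of_ne hl', zero_mul]
  · intro h
    exact absurd (Finset.mem_univ _) h

/-- the directions of the linear space are tangent -/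
theorem LX_tan [CharZero Ω] {G : Fin g → MvPolynomial (Fin M) k} {b : Fin N → Fin M → Ω}
    (h : LX G b) (Y : Fin N → Ω) (l : Fin N) : b l ∈ TS G (pt b Y) := by
  intro i
  have h1 : aeval (lp (pt b Y) (b l)) (G i) = 0 := by
    refine Polynomial.eq_zero_of_infinite_isRoot _ ?_
    refine Set.Infinite.mono (s := Set.range fun m : ℕ => (m : Ω)) ?_
      (Set.infinite_range_of_injective Nat.cast_injective)
    rintro _ ⟨m, rfl⟩
    show Polynomial.eval (m : Ω) _ = 0
    rw [lp_eval]
    have h2 : (fun j => pt b Y j + b l j * (m : Ω)) = pt b (Y + (m : Ω) • Pi.single l 1) := by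
      rw [pt_add, pt_smul, pt_single]
      funext j
      rw [Pi.add_apply, Pi.smul_apply, smul_eq_mul, mul_comm]
    rw [h2]
    exact h _ i
  have h2 := congrArg (Polynomial.eval 0) (line_tan (pt b Y) (b l) h1)
  rw [Polynomial.eval_finsetSum, Polynomial.eval_zero] at h2
  rw [← h2]
  refine Finset.sum_congr rfl fun j _ => ?_
  rw [Polynomial.eval_mul, Polynomial.eval_C, lp_eval]
  congr 2
  congr 1
  funext j'
  rw [mul_zero, add_zero]

theorem LX_tan' [CharZero Ω] {G : Fin g → MvPolynomial (Fin M) k} {b : Fin N → Fin M → Ω}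
    (h : LX G b) (Y c : Fin N → Ω) : pt b c ∈ TS G (pt b Y) := by
  have h1 : pt b c = ∑ l, c l • b l := by
    funext j
    rw [Finset.sum_apply]
    rfl
  rw [h1]
  exact Submodule.sum_mem _ fun l _ => Submodule.smul_mem _ _ (LX_tan h Y l)

/-- genericity of the scaled point -/
theorem scaled_pt {𝕂 : Type} [Field 𝕂] [Algebra k 𝕂] {G : Fin g → MvPolynomial (Fin M) k}
    (x : Fin M → 𝕂)
    (hgen : ∀ (P : MvPolynomial (Fin M) k) (m : ℕ), P.IsHomogeneous m →
      P ∉ Ideal.span (Set.range G) → aeval x P ≠ 0)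
    (P : MvPolynomial (Fin M) k)
    (hP : aeval (fun j => algebraMap (Polynomial 𝕂) (FractionRing (Polynomial 𝕂)) Polynomial.X *
      algebraMap 𝕂 (FractionRing (Polynomial 𝕂)) (x j)) P = 0) :
    P ∈ Ideal.span (Set.range G) := by
  classical
  have hhom : ∀ m, aeval (fun j => (Polynomial.X : Polynomial 𝕂) * Polynomial.C (x j))
      (homogeneousComponent m P) =
      Polynomial.C (aeval x (homogeneousComponent m P)) * Polynomial.X ^ m := by
    intro m
    have h1 := homogeneousComponent_isHomogeneous m P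
    rw [aeval_def, aeval_def, eval₂_eq, eval₂_eq, map_sum, Finset.sum_mul]
    refine Finset.sum_congr rfl fun s hs => ?_
    simp only [mul_pow]
    rw [Finset.prod_mul_distrib, Finset.prod_pow_eq_pow_sum]
    have hdeg : ∑ i ∈ s.support, s i = m := by
      have h2 := h1 (MvPolynomial.mem_support_iff.1 hs)
      rw [Finsupp.weight_apply, Finsupp.sum] at h2
      simpa using h2
    rw [hdeg, Polynomial.C_mul, map_prod]
    simp only [map_pow]
    rw [Polynomial.algebraMap_apply]
    ring
  have h1 : aeval (fun j => (Polynomial.X : Polynomial 𝕂) * Polynomial.C (x j)) P = 0 := by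
    apply IsFractionRing.injective (Polynomial 𝕂) (FractionRing (Polynomial 𝕂))
    rw [map_zero, ← hP]
    have h2 := MvPolynomial.comp_aeval_apply (fun j => (Polynomial.X : Polynomial 𝕂) *
      Polynomial.C (x j)) (IsScalarTower.toAlgHom k (Polynomial 𝕂)
        (FractionRing (Polynomial 𝕂))) P
    rw [IsScalarTower.coe_toAlgHom'] at h2
    rw [h2]
    congr 2
    funext j
    rw [map_mul]
    congr 1
  have h2 : ∑ m ∈ Finset.range (P.totalDegree + 1),
      Polynomial.C (aeval x (homogeneousComponent m P)) * (Polynomial.X : Polynomial 𝕂) ^ m =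
      0 := by
    rw [← h1]
    conv_rhs => rw [← sum_homogeneousComponent P, map_sum]
    exact Finset.sum_congr rfl fun m _ => (hhom m).symm
  rw [← sum_homogeneousComponent P]
  refine Ideal.sum_mem _ fun m hm => ?_
  by_contra hnot
  refine hgen _ m (homogeneousComponent_isHomogeneous m P) hnot ?_
  have h4 := congrArg (fun p => Polynomial.coeff p m) h2
  simp only [Polynomial.finsetSum_coeff, Polynomial.coeff_C_mul_X_pow,
    Polynomial.coeff_zero] at h4
  rw [Finset.sum_ite_eq (Finset.range (P.totalDegree + 1)) m, if_pos hm] at h4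
  exact h4

/-- **the tangent space at a generic point of a linear space on the variety** -/
theorem dfm_gen {k K 𝕂 : Type} [Field k] [Field K] [Field 𝕂] [CharZero 𝕂] [Algebra k K]
    [Algebra k 𝕂] [Algebra K 𝕂] [IsScalarTower k K 𝕂] [Algebra.IsAlgebraic k K] {M N g q : ℕ}
    (G : Fin g → MvPolynomial (Fin M) k) (e : Fin g → ℕ) (hG : ∀ i, (G i).IsHomogeneous (e i))
    (H : Fin q → Fin M → K) (b : Fin N → Fin M → 𝕂) (y : Fin N → 𝕂) (hb : LX G b)
    (hgen : ∀ (P : MvPolynomial (Fin M) k) (m : ℕ), P.IsHomogeneous m →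
      P ∉ Ideal.span (Set.range G) → aeval (pt b y) P ≠ 0)
    (τ : Fin M → 𝕂) (hτ : τ ∈ TS G (pt b y)) :
    ∃ (c : Fin N → 𝕂) (β : Fin N → Fin M → 𝕂), DT G H b β ∧ τ = pt b c + pt β y := by
  classical
  let E := FractionRing (Polynomial 𝕂)
  set ι : 𝕂 →+* E := algebraMap 𝕂 E with hι
  have hinj : Function.Injective ι := ι.injective
  have hchar : CharZero E := charZero_of_injective_algebraMap hinj
  set μ : E := algebraMap (Polynomial 𝕂) E Polynomial.X with hμ
  have hμ0 : μ ≠ 0 := (map_ne_zero_iff _ (IsFractionRing.injective (Polynomial 𝕂) E)).2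
    Polynomial.X_ne_zero
  obtain ⟨φ, hφ⟩ := LinearMap.exists_leftInverse_of_injective (Algebra.linearMap 𝕂 E)
    (LinearMap.ker_eq_bot.2 hinj)
  have hφ1 : ∀ a : 𝕂, φ (ι a) = a := fun a => LinearMap.congr_fun hφ a
  have hφs : ∀ (a : 𝕂) (w : E), φ (ι a * w) = a * φ w := fun a w => by
    have h1 := φ.map_smul a w
    rw [Algebra.smul_def, smul_eq_mul] at h1
    exact h1
  set x : Fin M → 𝕂 := pt b y with hx
  set ξ : Fin M → E := fun j => μ * ι (x j) with hξ
  have haev : ∀ (z : Fin M → 𝕂) (P : MvPolynomial (Fin M) k),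
      aeval (fun j => ι (z j)) P = ι (aeval z P) := by
    intro z P
    have h1 := MvPolynomial.comp_aeval_apply z (IsScalarTower.toAlgHom k 𝕂 E) P
    exact h1.symm
  have hxX : ∀ i, aeval x (G i) = 0 := fun i => hb y i
  have hξX : ∀ i, aeval ξ (G i) = 0 := by
    intro i
    have h1 : aeval ξ (G i) = μ ^ e i * aeval (fun j => ι (x j)) (G i) := by
      rw [aeval_def, aeval_def, eval₂_eq, eval₂_eq, Finset.mul_sum]
      refine Finset.sum_congr rfl fun m hm => ?_
      simp only [hξ, mul_pow]
      rw [Finset.prod_mul_distrib, Finset.prod_pow_eq_pow_sum]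
      have hdeg : ∑ i ∈ m.support, m i = e i := by
        have h2 := hG i (MvPolynomial.mem_support_iff.1 hm)
        rw [Finsupp.weight_apply, Finsupp.sum] at h2
        simpa using h2
      rw [hdeg]
      ring
    rw [h1, haev, hxX, map_zero, mul_zero]
  have hτξ : (fun j => ι (τ j)) ∈ TS G ξ := by
    have h1 : TS G ξ = TS G (fun j => ι (x j)) := TS_smul hG μ hμ0 _
    rw [h1]
    intro i
    have h2 := congrArg ι (hτ i)
    rw [map_sum, map_zero] at h2
    rw [← h2]
    refine Finset.sum_congr rfl fun j _ => ?_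
    rw [map_mul, haev]
  obtain ⟨D, hD⟩ := exists_derivation (k := k) ξ (fun j => ι (τ j)) (fun P hP =>
    (ideal_TS hξX hτξ (scaled_pt x hgen P hP)).2)
  have hDK : ∀ a : K, D (ι (algebraMap K 𝕂 a)) = 0 := by
    intro a
    refine der_alg D _ ?_
    have h1 : IsAlgebraic k (algebraMap K 𝕂 a) :=
      (Algebra.IsAlgebraic.isAlgebraic (R := k) a).algebraMap
    exact h1.algebraMap
  set β : Fin N → Fin M → 𝕂 := fun l j => φ (μ * D (ι (b l j))) with hβ
  refine ⟨fun l => φ (D (μ * ι (y l))), β, ⟨?_, ?_⟩, ?_⟩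
  · -- tangency
    intro Y i
    have h1 : ∀ j, pt β Y j = φ (μ * ∑ l, ι (Y l) * D (ι (b l j))) := by
      intro j
      unfold pt
      rw [Finset.mul_sum, map_sum]
      refine Finset.sum_congr rfl fun l _ => ?_
      rw [hβ]
      simp only
      rw [← hφs]
      congr 1
      ring
    have h2 : ∑ j, aeval (pt b Y) (pderiv j (G i)) * pt β Y j =
        φ (μ * ∑ j, ι (aeval (pt b Y) (pderiv j (G i))) * ∑ l, ι (Y l) * D (ι (b l j))) := by
      rw [Finset.mul_sum, map_sum]
      refine Finset.sum_congr rfl fun j _ => ?_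
      rw [h1, ← hφs]
      congr 1
      ring
    rw [h2]
    have h3 := der_aeval D (fun j => ι (pt b Y j)) (G i)
    rw [haev, hb Y i, map_zero, map_zero] at h3
    have h4 : ∀ j, D (ι (pt b Y j)) = ∑ l, ι (Y l) * D (ι (b l j)) +
        ∑ l, D (ι (Y l)) * ι (b l j) := by
      intro j
      unfold pt
      rw [map_sum, map_sum, ← Finset.sum_add_distrib]
      refine Finset.sum_congr rfl fun l _ => ?_
      rw [map_mul, Derivation.leibniz, smul_eq_mul, smul_eq_mul]
      ring
    have h5 : ∑ j, ι (aeval (pt b Y) (pderiv j (G i))) * ∑ l, D (ι (Y l)) * ι (b l j) = 0 := by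
      simp_rw [Finset.mul_sum]
      rw [Finset.sum_comm]
      refine Finset.sum_eq_zero fun l _ => ?_
      have h6 := congrArg ι (LX_tan hb Y l i)
      rw [map_sum, map_zero] at h6
      have h7 : ∀ j, ι (aeval (pt b Y) (pderiv j (G i))) * (D (ι (Y l)) * ι (b l j)) =
          D (ι (Y l)) * ι (aeval (pt b Y) (pderiv j (G i)) * b l j) := by
        intro j
        rw [map_mul]
        ring
      rw [Finset.sum_congr rfl fun j _ => h7 j, ← Finset.mul_sum, h6, mul_zero]
    have h8 : ∑ j, ι (aeval (pt b Y) (pderiv j (G i))) * ∑ l, ι (Y l) * D (ι (b l j)) = 0 := by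
      have h9 : ∑ j, aeval (fun j => ι (pt b Y j)) (pderiv j (G i)) * D (ι (pt b Y j)) =
          ∑ j, ι (aeval (pt b Y) (pderiv j (G i))) * ∑ l, ι (Y l) * D (ι (b l j)) +
          ∑ j, ι (aeval (pt b Y) (pderiv j (G i))) * ∑ l, D (ι (Y l)) * ι (b l j) := by
        rw [← Finset.sum_add_distrib]
        refine Finset.sum_congr rfl fun j _ => ?_
        rw [haev, h4, mul_add]
      rw [h9, h5, add_zero] at h3
      exact h3.symm
    rw [h8, mul_zero, map_zero]
  · -- relations
    intro c hc
    refine ⟨fun s => -φ (μ * D (ι (c s))), fun s hs => by simp only; rw [hs, map_zero, map_zero,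
      mul_zero, map_zero, neg_zero], fun l => ?_⟩
    have h1 := congrArg (fun w => D (ι w)) (hc l)
    simp only [map_sum, map_mul, map_zero] at h1
    have h2 : ∀ s, D (ι (c s) * ι (lv (H s) (b l))) = ι (lv (H s) (b l)) * D (ι (c s)) +
        ι (c s) * ∑ j, ι (algebraMap K 𝕂 (H s j)) * D (ι (b l j)) := by
      intro s
      rw [Derivation.leibniz, smul_eq_mul, smul_eq_mul, add_comm]
      congr 2
      unfold lv
      rw [map_sum, map_sum]
      refine Finset.sum_congr rfl fun j _ => ?_
      rw [map_mul, Derivation.leibniz, hDK, smul_zero, add_zero, smul_eq_mul]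
    rw [Finset.sum_congr rfl fun s _ => h2 s, Finset.sum_add_distrib] at h1
    have h3 : ∑ s, c s * lv (H s) (β l) =
        φ (μ * ∑ s, ι (c s) * ∑ j, ι (algebraMap K 𝕂 (H s j)) * D (ι (b l j))) := by
      rw [Finset.mul_sum, map_sum]
      refine Finset.sum_congr rfl fun s _ => ?_
      unfold lv
      rw [Finset.mul_sum, Finset.mul_sum, Finset.mul_sum, map_sum]
      refine Finset.sum_congr rfl fun j _ => ?_
      rw [hβ]
      simp only
      rw [← hφs, ← hφs]
      congr 1
      ring
    have h4 : ∑ s, -φ (μ * D (ι (c s))) * lv (H s) (b l) =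
        φ (μ * -∑ s, ι (lv (H s) (b l)) * D (ι (c s))) := by
      rw [← Finset.sum_neg_distrib, Finset.mul_sum, map_sum]
      refine Finset.sum_congr rfl fun s _ => ?_
      rw [neg_mul, mul_comm, ← hφs, ← map_neg]
      congr 1
      ring
    rw [h3, h4]
    congr 2
    linear_combination h1
  · funext j
    rw [← hφ1 (τ j), ← hD j, hξ]
    simp only
    rw [hx]
    unfold pt
    rw [map_sum, Finset.mul_sum, map_sum, map_sum, Pi.add_apply, ← Finset.sum_add_distrib]
    refine Finset.sum_congr rfl fun l _ => ?_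
    have h1 : μ * ι (y l * b l j) = (μ * ι (y l)) * ι (b l j) := by
      rw [map_mul]
      ring
    rw [h1, Derivation.leibniz, map_add, smul_eq_mul, smul_eq_mul, add_comm, hβ]
    simp only
    congr 1
    · rw [hφs, mul_comm]
    · rw [← hφs]
      congr 1
      ring

end lemmas

end Pool.Agent.N750
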