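import Mathlib
import Pool.Agent.N750.Gau
import Pool.Agent.N750.Germ

/-!
The exceptional set for the Gauss map along lines.
-/

set_option autoImplicit false
set_option linter.unusedSectionVars false

namespace Pool.Agent.N750

open MvPolynomial Filter

theorem lp_map {k R R' : Type} [Field k] [CommRing R] [CommRing R'] [Algebra k R] [Algebra k R']
    (φ : R →ₐ[k] R') {M : ℕ} (a b : Fin M → R) (P : MvPolynomial (Fin M) k) :
    (aeval (lp a b) P).map (φ : R →+* R') = aeval (lp (fun l => φ (a l)) (fun l => φ (b l))) P := by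
  have h1 := MvPolynomial.comp_aeval_apply (lp a b) (Polynomial.mapAlgHom φ) P
  have h2 : (fun l => Polynomial.mapAlgHom φ (lp a b l)) =
      lp (fun l => φ (a l)) (fun l => φ (b l)) := by
    funext l
    show (lp a b l).map (φ : R →+* R') = _
    unfold lp
    rw [Polynomial.map_add, Polynomial.map_mul, Polynomial.map_C, Polynomial.map_C,
      Polynomial.map_X]
    rfl
  rw [h2] at h1
  exact h1

theorem lv_map {K R R' : Type} [Field K] [Field R] [Field R'] [Algebra K R] [Algebra K R']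
    [Algebra R R'] [IsScalarTower K R R'] {M : ℕ} (h : Fin M → K) (z : Fin M → R) :
    algebraMap R R' (lv h z) = lv h (fun l => algebraMap R R' (z l)) := by
  unfold lv
  rw [map_sum]
  refine Finset.sum_congr rfl fun l _ => ?_
  rw [map_mul, ← IsScalarTower.algebraMap_apply K R R']

/-- genericity of the scaled point -/
theorem scaled_gen {k 𝕂 : Type} [Field k] [Field 𝕂] [Algebra k 𝕂] {M g : ℕ}
    (G : Fin g → MvPolynomial (Fin M) k) (a b : Fin M → 𝕂)
    (hgen : ∀ (P : MvPolynomial (Fin M) k) (m : ℕ), P.IsHomogeneous m →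
      P ∉ Ideal.span (Set.range G) → aeval (lp a b) P ≠ 0)
    (P : MvPolynomial (Fin M) k)
    (hP : aeval (fun l => algebraMap (Polynomial (FractionRing (Polynomial 𝕂)))
      (FractionRing (Polynomial (FractionRing (Polynomial 𝕂)))) Polynomial.X *
      (algebraMap 𝕂 _ (a l) + algebraMap 𝕂 _ (b l) *
        algebraMap (FractionRing (Polynomial 𝕂)) _
          (algebraMap (Polynomial 𝕂) (FractionRing (Polynomial 𝕂)) Polynomial.X))) P = 0) :
    P ∈ Ideal.span (Set.range G) := by
  classical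
  set E1 := FractionRing (Polynomial 𝕂) with hE1
  set E := FractionRing (Polynomial E1) with hE
  set y1 : E1 := algebraMap (Polynomial 𝕂) E1 Polynomial.X with hy1
  set ζ : Fin M → E1 := fun l => algebraMap 𝕂 E1 (a l) + algebraMap 𝕂 E1 (b l) * y1 with hζ
  -- the homogeneous components
  have hhom : ∀ m, aeval (fun l => (Polynomial.X : Polynomial E1) * Polynomial.C (ζ l))
      (homogeneousComponent m P) =
      Polynomial.C (aeval ζ (homogeneousComponent m P)) * Polynomial.X ^ m := by
    intro m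
    have h1 := homogeneousComponent_isHomogeneous m P
    rw [aeval_def, aeval_def, eval₂_eq, eval₂_eq, map_sum, Finset.sum_mul]
    refine Finset.sum_congr rfl fun s hs => ?_
    simp only [mul_pow]
    rw [Finset.prod_mul_distrib, Finset.prod_pow_eq_pow_sum]
    have hdeg : ∑ i ∈ s.support, s i = m := by
      have h2 := h1 (MvPolynomial.mem_support_iff.1 hs)
      rw [Finsupp.weight_apply, Finsupp.sum] at h2
      simpa using h2
    rw [hdeg, Polynomial.C_mul, map_prod]
    simp only [map_pow]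
    rw [Polynomial.algebraMap_apply]
    ring
  have h1 : aeval (fun l => (Polynomial.X : Polynomial E1) * Polynomial.C (ζ l)) P = 0 := by
    apply IsFractionRing.injective (Polynomial E1) E
    rw [map_zero, ← hP]
    have h2 := MvPolynomial.comp_aeval_apply (fun l => (Polynomial.X : Polynomial E1) *
      Polynomial.C (ζ l)) (IsScalarTower.toAlgHom k (Polynomial E1) E) P
    rw [IsScalarTower.coe_toAlgHom'] at h2
    rw [h2]
    congr 2
    funext l
    rw [map_mul]
    congr 1
    show algebraMap (Polynomial E1) E (Polynomial.C (ζ l)) = _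
    rw [← Polynomial.algebraMap_eq, ← IsScalarTower.algebraMap_apply E1 (Polynomial E1) E, hζ]
    simp only
    rw [map_add, map_mul, ← IsScalarTower.algebraMap_apply 𝕂 E1 E,
      ← IsScalarTower.algebraMap_apply 𝕂 E1 E]
  have h2 : ∑ m ∈ Finset.range (P.totalDegree + 1),
      Polynomial.C (aeval ζ (homogeneousComponent m P)) * (Polynomial.X : Polynomial E1) ^ m =
      0 := by
    rw [← h1]
    conv_rhs => rw [← sum_homogeneousComponent P, map_sum]
    exact Finset.sum_congr rfl fun m _ => (hhom m).symm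
  have h3 : ∀ m ∈ Finset.range (P.totalDegree + 1), aeval ζ (homogeneousComponent m P) = 0 := by
    intro m hm
    have h4 := congrArg (fun p => Polynomial.coeff p m) h2
    simp only [Polynomial.finsetSum_coeff, Polynomial.coeff_C_mul_X_pow,
      Polynomial.coeff_zero] at h4
    rw [Finset.sum_ite_eq (Finset.range (P.totalDegree + 1)) m, if_pos hm] at h4
    exact h4
  rw [← sum_homogeneousComponent P]
  refine Ideal.sum_mem _ fun m hm => ?_
  by_contra hnot
  refine hgen _ m (homogeneousComponent_isHomogeneous m P) hnot ?_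
  apply IsFractionRing.injective (Polynomial 𝕂) E1
  rw [map_zero, ← h3 m hm]
  have h5 := MvPolynomial.comp_aeval_apply (lp a b)
    (IsScalarTower.toAlgHom k (Polynomial 𝕂) E1) (homogeneousComponent m P)
  rw [IsScalarTower.coe_toAlgHom'] at h5
  rw [h5]
  congr 2
  funext l
  unfold lp
  rw [map_add, map_mul, hζ]
  simp only
  rw [← Polynomial.algebraMap_eq, ← IsScalarTower.algebraMap_apply 𝕂 (Polynomial 𝕂) E1,
    ← IsScalarTower.algebraMap_apply 𝕂 (Polynomial 𝕂) E1]

/-- **the Gauss map and the crossings along a line which is generic over `k`** -/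
theorem core2 {k K 𝕂 : Type} [Field k] [Field K] [Field 𝕂] [CharZero 𝕂] [Algebra k K]
    [Algebra k 𝕂] [Algebra K 𝕂] [IsScalarTower k K 𝕂] [Algebra.IsAlgebraic k K] {M g q n' : ℕ}
    (G : Fin g → MvPolynomial (Fin M) k) (e : Fin g → ℕ) (hG : ∀ i, (G i).IsHomogeneous (e i))
    (hsm : Sm (n' + 1) G) (H : Fin q → Fin M → K) (hnc : NC G H)
    (a b : Fin M → 𝕂) (hab : LinearIndependent 𝕂 ![a, b])
    (hgen : ∀ (P : MvPolynomial (Fin M) k) (m : ℕ), P.IsHomogeneous m →
      P ∉ Ideal.span (Set.range G) → aeval (lp a b) P ≠ 0)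
    (hX : ∀ i, aeval (lp a b) (G i) = 0) (hHb : ∀ s, lv (H s) b ≠ 0)
    (T : Finset (Fin q)) (r : Fin q → Fin q) (hrT : ∀ s ∈ T, r s ∉ T)
    (hprop : ∀ s ∈ T, lv (H (r s)) a * lv (H s) b = lv (H s) a * lv (H (r s)) b)
    (hdist : ∀ s ∈ T, ∀ s' ∈ T, r s ≠ r s' →
      lv (H (r s)) a * lv (H (r s')) b ≠ lv (H (r s')) a * lv (H (r s)) b) :
    T.card ≤ n' ∧ ∃ Γ : (Fin (n' + 2) → Fin M) → Polynomial 𝕂, GS G a b (n' - T.card) Γ := by
  classical
  let E1 := FractionRing (Polynomial 𝕂)
  let E := FractionRing (Polynomial E1)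
  have hinj : Function.Injective (algebraMap 𝕂 E) := (algebraMap 𝕂 E).injective
  have hchar : CharZero E := charZero_of_injective_algebraMap hinj
  have hindep : ∀ c d : 𝕂, (∀ l, c * a l + d * b l = 0) → c = 0 ∧ d = 0 := by
    intro c d h
    exact LinearIndependent.pair_iff.1 hab c d (funext fun l => h l)
  -- a nonzero minor
  have hminor : ∃ l l', a l * b l' - a l' * b l ≠ 0 := by
    by_contra hcon
    push Not at hcon
    have ha0 : a ≠ 0 := hab.ne_zero 0
    obtain ⟨l, hl⟩ := Function.ne_iff.1 ha0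
    have h1 := hindep (b l) (-(a l)) (fun l' => by
      have := hcon l l'
      linear_combination -this)
    exact hl (by simpa using h1.2)
  have hab' : LinearIndependent E ![fun l => algebraMap 𝕂 E (a l), fun l => algebraMap 𝕂 E (b l)] := by
    rw [LinearIndependent.pair_iff]
    intro c d hcd
    obtain ⟨l, l', hll⟩ := hminor
    have h1 := congrFun hcd l
    have h2 := congrFun hcd l'
    simp only [Pi.add_apply, Pi.smul_apply, smul_eq_mul, Pi.zero_apply] at h1 h2
    have h3 : algebraMap 𝕂 E (a l * b l' - a l' * b l) ≠ 0 := (map_ne_zero_iff _ hinj).2 hll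
    rw [map_sub, map_mul, map_mul] at h3
    constructor
    · refine (mul_eq_zero.1 ?_).resolve_right h3
      linear_combination (algebraMap 𝕂 E (b l')) * h1 - (algebraMap 𝕂 E (b l)) * h2
    · refine (mul_eq_zero.1 ?_).resolve_right h3
      linear_combination (algebraMap 𝕂 E (a l)) * h2 - (algebraMap 𝕂 E (a l')) * h1
  have hlv : ∀ s (z : Fin M → 𝕂), algebraMap 𝕂 E (lv (H s) z) =
      lv (H s) (fun l => algebraMap 𝕂 E (z l)) := fun s z => lv_map (H s) z
  have hμ : algebraMap (Polynomial E1) E Polynomial.X ≠ 0 :=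
    (map_ne_zero_iff _ (IsFractionRing.injective (Polynomial E1) E)).2 Polynomial.X_ne_zero
  have h := core (E := E) G e hG hsm H hnc (fun l => algebraMap 𝕂 E (a l))
    (fun l => algebraMap 𝕂 E (b l)) hab'
    (algebraMap E1 E (algebraMap (Polynomial 𝕂) E1 Polynomial.X))
    (algebraMap (Polynomial E1) E Polynomial.X) hμ (scaled_gen G a b hgen) (by
      intro i
      have h1 := lp_map (IsScalarTower.toAlgHom k 𝕂 E) a b (G i)
      rw [hX, Polynomial.map_zero] at h1
      exact h1.symm) (by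
      intro s
      rw [← hlv]
      exact (map_ne_zero_iff _ hinj).2 (hHb s)) T r hrT (by
      intro s hs
      rw [← hlv, ← hlv, ← hlv, ← hlv, ← map_mul, ← map_mul, hprop s hs]) (by
      intro s hs s' hs' hss
      rw [← hlv, ← hlv, ← hlv, ← hlv, ← map_mul, ← map_mul]
      exact fun h => hdist s hs s' hs' hss (hinj h))
  obtain ⟨h1, Γ, h2, h3, h4, h5⟩ := h
  exact ⟨h1, GS_descend G a b Γ ⟨h2, h3, h4, h5⟩⟩

section ultra

variable {α : Type} {𝓕 : Ultrafilter α} {K : Type} [Field K]

/-- transfer of the vanishing of a polynomial -/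
theorem poly_transfer (P : Polynomial (α → K)) (hP : P.map (mk 𝓕) = 0) :
    ∀ᶠ t in (𝓕 : Filter α), P.map (Pi.evalRingHom (fun _ : α => K) t) = 0 := by
  have h1 : ∀ᶠ t in (𝓕 : Filter α), ∀ m ∈ P.support, P.coeff m t = 0 := by
    rw [Filter.eventually_all_finset]
    intro m _
    have h2 := congrArg (fun p => Polynomial.coeff p m) hP
    simp only [Polynomial.coeff_map, Polynomial.coeff_zero] at h2
    exact mk_eq_zero.1 h2
  filter_upwards [h1] with t ht
  ext m
  rw [Polynomial.coeff_map, Polynomial.coeff_zero]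
  by_cases hm : m ∈ P.support
  · exact ht m hm
  · rw [Polynomial.notMem_support_iff.1 hm]
    rfl

/-- an eventual value -/
theorem exists_val {X : Type} [Finite X] (f : α → X) :
    ∃ x, ∀ᶠ t in (𝓕 : Filter α), f t = x := by
  obtain ⟨x, hx⟩ := Ultrafilter.eq_pure_of_finite (𝓕.map f)
  refine ⟨x, ?_⟩
  have h1 : {x} ∈ 𝓕.map f := by
    rw [hx]
    exact rfl
  exact h1

end ultra

/-- **the exceptional set for the Gauss map and the crossings along lines** -/
theorem geo {k K : Type} [Field k] [Field K] [CharZero K] [Algebra k K]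
    [Algebra.IsAlgebraic k K] {M g q n' : ℕ}
    (G : Fin g → MvPolynomial (Fin M) k) (e : Fin g → ℕ) (hG : ∀ i, (G i).IsHomogeneous (e i))
    (hI : (Ideal.span (Set.range G)).IsPrime) (hsm : Sm (n' + 1) G) (H : Fin q → Fin M → K)
    (hnc : NC G H) :
    ∃ (m : ℕ) (Φ : MvPolynomial (Fin M) k), Φ.IsHomogeneous m ∧
      Φ ∉ Ideal.span (Set.range G) ∧ ∀ a b : Fin M → k, (∃ l l', a l * b l' - a l' * b l ≠ 0) →
      (∀ i, aeval (lp a b) (G i) = 0) → aeval (lp a b) Φ ≠ 0 →
      (∀ s, lv (H s) (fun l => algebraMap k K (b l)) ≠ 0) →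
      ∀ (T : Finset (Fin q)) (r : Fin q → Fin q), (∀ s ∈ T, r s ∉ T) →
      (∀ s ∈ T, lv (H (r s)) (fun l => algebraMap k K (a l)) *
        lv (H s) (fun l => algebraMap k K (b l)) =
        lv (H s) (fun l => algebraMap k K (a l)) *
        lv (H (r s)) (fun l => algebraMap k K (b l))) →
      (∀ s ∈ T, ∀ s' ∈ T, r s ≠ r s' → lv (H (r s)) (fun l => algebraMap k K (a l)) *
        lv (H (r s')) (fun l => algebraMap k K (b l)) ≠
        lv (H (r s')) (fun l => algebraMap k K (a l)) *
        lv (H (r s)) (fun l => algebraMap k K (b l))) →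
      T.card ≤ n' ∧ ∃ Γ : (Fin (n' + 2) → Fin M) → Polynomial k, GS G a b (n' - T.card) Γ := by
  classical
  by_contra hcon
  push Not at hcon
  have hchark : CharZero k := ⟨fun a b h => by
    have h2 := congrArg (algebraMap k K) h
    rw [map_natCast, map_natCast] at h2
    exact_mod_cast h2⟩
  let PP : Type := {P : MvPolynomial (Fin M) k // (∃ m, P.IsHomogeneous m) ∧
    P ∉ Ideal.span (Set.range G)}
  let α : Type := Finset PP
  have hprod : ∀ s : α, (∃ m, (∏ P ∈ s, P.1).IsHomogeneous m) ∧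
      (∏ P ∈ s, P.1) ∉ Ideal.span (Set.range G) := by
    intro s
    constructor
    · choose m hm using fun P : PP => P.2.1
      exact ⟨_, MvPolynomial.IsHomogeneous.prod s (fun P => P.1) (fun P => m P) fun P _ => hm P⟩
    · intro h
      rw [hI.prod_mem_iff] at h
      obtain ⟨P, -, hP⟩ := h
      exact P.2.2 hP
  have hviol : ∀ s : α, ∃ (a b : Fin M → k) (T : Finset (Fin q)) (r : Fin q → Fin q),
      (∃ l l', a l * b l' - a l' * b l ≠ 0) ∧ (∀ i, aeval (lp a b) (G i) = 0) ∧
      aeval (lp a b) (∏ P ∈ s, P.1) ≠ 0 ∧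
      (∀ s, lv (H s) (fun l => algebraMap k K (b l)) ≠ 0) ∧ (∀ s ∈ T, r s ∉ T) ∧
      (∀ s ∈ T, lv (H (r s)) (fun l => algebraMap k K (a l)) *
        lv (H s) (fun l => algebraMap k K (b l)) =
        lv (H s) (fun l => algebraMap k K (a l)) *
        lv (H (r s)) (fun l => algebraMap k K (b l))) ∧
      (∀ s ∈ T, ∀ s' ∈ T, r s ≠ r s' → lv (H (r s)) (fun l => algebraMap k K (a l)) *
        lv (H (r s')) (fun l => algebraMap k K (b l)) ≠
        lv (H (r s')) (fun l => algebraMap k K (a l)) *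
        lv (H (r s)) (fun l => algebraMap k K (b l))) ∧
      ¬ (T.card ≤ n' ∧ ∃ Γ : (Fin (n' + 2) → Fin M) → Polynomial k, GS G a b (n' - T.card) Γ) := by
    intro s
    obtain ⟨⟨m, hm⟩, hΦ⟩ := hprod s
    obtain ⟨a, b, h1, h2, h3, h4, T, r, h5, h6, h7, h8⟩ := hcon m _ hm hΦ
    refine ⟨a, b, T, r, h1, h2, h3, h4, h5, h6, h7, ?_⟩
    rintro ⟨h9, Γ, h10⟩
    exact h8 h9 Γ h10
  choose a b T r h1 h2 h3 h4 h5 h6 h7 h8 using hviol
  obtain ⟨𝓕, h𝓕⟩ : ∃ 𝓕 : Ultrafilter α, (𝓕 : Filter α) ≤ atTop :=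
    ⟨Ultrafilter.of atTop, Ultrafilter.of_le atTop⟩
  obtain ⟨⟨T0, r0⟩, hTr⟩ := exists_val (𝓕 := 𝓕) (fun s => (T s, r s))
  obtain ⟨⟨l0, l1⟩, hll⟩ : ∃ x : Fin M × Fin M, ∀ᶠ s in (𝓕 : Filter α),
      a s x.1 * b s x.2 - a s x.2 * b s x.1 ≠ 0 := by
    choose l0 l1 hl using h1
    obtain ⟨x, hx⟩ := exists_val (𝓕 := 𝓕) (fun s => (l0 s, l1 s))
    refine ⟨x, ?_⟩
    filter_upwards [hx] with s hs
    have := hl s
    rw [← hs]
    exact this
  let 𝕂 := Gm 𝓕 K
  let _ : Algebra k 𝕂 := ((algebraMap K 𝕂).comp (algebraMap k K)).toAlgebra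
  have htow : IsScalarTower k K 𝕂 := IsScalarTower.of_algebraMap_eq fun x => rfl
  have hchar : CharZero 𝕂 := charZero_of_injective_algebraMap (algebraMap K 𝕂).injective
  let mkA : (α → K) →ₐ[k] 𝕂 := { mk 𝓕 with commutes' := fun c => rfl }
  let evA : ∀ s : α, (α → K) →ₐ[k] K := fun s =>
    { Pi.evalRingHom (fun _ : α => K) s with commutes' := fun c => rfl }
  set a' : Fin M → α → K := fun l s => algebraMap k K (a s l) with ha'
  set b' : Fin M → α → K := fun l s => algebraMap k K (b s l) with hb'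
  -- polynomials along the family
  have hmkp : ∀ P : MvPolynomial (Fin M) k, (aeval (lp a' b') P).map (mk 𝓕) =
      aeval (lp (fun l => mk 𝓕 (a' l)) (fun l => mk 𝓕 (b' l))) P := fun P =>
    lp_map mkA a' b' P
  have hevp : ∀ (P : MvPolynomial (Fin M) k) (s : α),
      (aeval (lp a' b') P).map (Pi.evalRingHom (fun _ : α => K) s) =
      (aeval (lp (a s) (b s)) P).map (algebraMap k K) := by
    intro P s
    have e1 := lp_map (evA s) a' b' P
    have e2 := lp_map (IsScalarTower.toAlgHom k k K) (a s) (b s) P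
    exact e1.trans e2.symm
  have hinjk : Function.Injective (Polynomial.map (algebraMap k K)) :=
    Polynomial.map_injective _ (algebraMap k K).injective
  have hlvmk : ∀ t (c : Fin M → α → K), lv (H t) (fun l => mk 𝓕 (c l)) =
      mk 𝓕 (fun s => lv (H t) (fun l => c l s)) := by
    intro t c
    unfold lv
    have e1 : (fun s => ∑ l, algebraMap K K (H t l) * c l s) =
        ∑ l, (fun s => algebraMap K K (H t l) * c l s) := by
      funext s
      rw [Finset.sum_apply]
    rw [e1, map_sum]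
    refine Finset.sum_congr rfl fun l _ => ?_
    rw [algebraMap_gm, ← map_mul]
    rfl
  have hab : LinearIndependent 𝕂 ![fun l => mk 𝓕 (a' l), fun l => mk 𝓕 (b' l)] := by
    have hmin : mk 𝓕 (a' l0) * mk 𝓕 (b' l1) - mk 𝓕 (a' l1) * mk 𝓕 (b' l0) ≠ 0 := by
      rw [← map_mul, ← map_mul, ← map_sub]
      refine mk_ne_zero.2 ?_
      filter_upwards [hll] with s hs
      show algebraMap k K (a s l0) * algebraMap k K (b s l1) -
        algebraMap k K (a s l1) * algebraMap k K (b s l0) ≠ 0
      rw [← map_mul, ← map_mul, ← map_sub]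
      exact (map_ne_zero _).2 hs
    rw [LinearIndependent.pair_iff]
    intro c d hcd
    have e1 := congrFun hcd l0
    have e2 := congrFun hcd l1
    simp only [Pi.add_apply, Pi.smul_apply, smul_eq_mul, Pi.zero_apply] at e1 e2
    constructor
    · refine (mul_eq_zero.1 ?_).resolve_right hmin
      linear_combination (mk 𝓕 (b' l1)) * e1 - (mk 𝓕 (b' l0)) * e2
    · refine (mul_eq_zero.1 ?_).resolve_right hmin
      linear_combination (mk 𝓕 (a' l0)) * e2 - (mk 𝓕 (a' l1)) * e1
  obtain ⟨hTn, Γ, hΓ0, hΓd, hΓa, hΓc⟩ := core2 (𝕂 := 𝕂) G e hG hsm H hnc (fun l => mk 𝓕 (a' l))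
    (fun l => mk 𝓕 (b' l)) hab (by
      intro P m hPm hPI hzero
      rw [← hmkp] at hzero
      have e1 := poly_transfer _ hzero
      have e2 : ∀ᶠ s in (𝓕 : Filter α), ({⟨P, ⟨m, hPm⟩, hPI⟩} : Finset PP) ≤ s :=
        h𝓕 (eventually_ge_atTop _)
      obtain ⟨s, hs1, hs2⟩ := (e1.and e2).exists
      rw [hevp] at hs1
      have hs3 : aeval (lp (a s) (b s)) P = 0 := hinjk (hs1.trans (Polynomial.map_zero _).symm)
      apply h3 s
      rw [map_prod]
      exact Finset.prod_eq_zero (hs2 (Finset.mem_singleton_self _)) hs3) (by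
      intro i
      rw [← hmkp]
      have e1 : aeval (lp a' b') (G i) = 0 := by
        ext m s
        have e2 := congrArg (fun p => Polynomial.coeff p m) (hevp (G i) s)
        simp only [Polynomial.coeff_map] at e2
        rw [h2 s i, Polynomial.coeff_zero, map_zero] at e2
        exact e2
      rw [e1, Polynomial.map_zero]) (by
      intro t
      rw [hlvmk]
      exact mk_ne_zero.2 (Eventually.of_forall fun s => h4 s t)) T0 r0 (by
      obtain ⟨s, hs⟩ := hTr.exists
      obtain ⟨rfl, rfl⟩ := Prod.mk.inj hs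
      exact h5 s) (by
      intro t ht
      rw [hlvmk, hlvmk, hlvmk, hlvmk, ← map_mul, ← map_mul]
      refine mk_eq.2 ?_
      filter_upwards [hTr] with s hs
      obtain ⟨e1, e2⟩ := Prod.mk.inj hs
      have e3 := h6 s t (by rw [e1]; exact ht)
      rw [e2] at e3
      exact e3) (by
      intro t ht t' ht' htt
      rw [hlvmk, hlvmk, hlvmk, hlvmk, ← map_mul, ← map_mul]
      intro heq
      obtain ⟨s, hs, hs'⟩ := (hTr.and (mk_eq.1 heq)).exists
      obtain ⟨e1, e2⟩ := Prod.mk.inj hs
      have e3 := h7 s t (by rw [e1]; exact ht) t' (by rw [e1]; exact ht') (by rw [e2]; exact htt)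
      rw [e2] at e3
      exact e3 hs')
  -- lifting the solution
  choose lift hlift using fun x : 𝕂 => mk_surj x
  set Γ' : (Fin (n' + 2) → Fin M) → Polynomial (α → K) := fun J =>
    ∑ m ∈ Finset.range (n' - T0.card + 1), Polynomial.C (lift ((Γ J).coeff m)) *
      Polynomial.X ^ m with hΓ'
  have hΓ'mk : ∀ J, (Γ' J).map (mk 𝓕) = Γ J := by
    intro J
    conv_rhs => rw [Polynomial.as_sum_range' (Γ J) (n' - T0.card + 1)
      (Nat.lt_succ_iff.2 (hΓd J))]
    rw [hΓ']
    simp only
    rw [Polynomial.map_sum]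
    refine Finset.sum_congr rfl fun m _ => ?_
    rw [Polynomial.map_mul, Polynomial.map_pow, Polynomial.map_X, Polynomial.map_C, hlift,
      Polynomial.C_mul_X_pow_eq_monomial]
  have hev0 : ∃ J, ∀ᶠ s in (𝓕 : Filter α),
      (Γ' J).map (Pi.evalRingHom (fun _ : α => K) s) ≠ 0 := by
    obtain ⟨J, hJ⟩ := hΓ0
    refine ⟨J, ?_⟩
    by_contra hne
    rw [Ultrafilter.eventually_not, not_not] at hne
    apply hJ
    rw [← hΓ'mk J]
    ext m
    rw [Polynomial.coeff_map, Polynomial.coeff_zero]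
    refine mk_eq_zero.2 ?_
    filter_upwards [hne] with s hs
    have e1 := congrArg (fun p => Polynomial.coeff p m) hs
    simp only [Polynomial.coeff_map, Polynomial.coeff_zero] at e1
    exact e1
  obtain ⟨J0, hJ0⟩ := hev0
  have halt : ∀ᶠ s in (𝓕 : Filter α), ∀ x : (Fin (n' + 2) → Fin M) × Fin (n' + 2) × Fin (n' + 2),
      x.2.1 ≠ x.2.2 → (Γ' (x.1 ∘ Equiv.swap x.2.1 x.2.2) + Γ' x.1).map
        (Pi.evalRingHom (fun _ : α => K) s) = 0 := by
    rw [Filter.eventually_all]
    rintro ⟨J, i, j⟩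
    by_cases hij : i = j
    · exact Eventually.of_forall fun s h => absurd hij h
    · have e1 := poly_transfer (𝓕 := 𝓕) (Γ' (J ∘ Equiv.swap i j) + Γ' J) (by
        rw [Polynomial.map_add, hΓ'mk, hΓ'mk, hΓa J i j hij, neg_add_cancel])
      filter_upwards [e1] with s hs _
      exact hs
  have hcontr : ∀ᶠ s in (𝓕 : Filter α), ∀ x : Fin g × (Fin (n' + 2) → Fin M),
      (∑ l, aeval (lp a' b') (pderiv l (G x.1)) * Γ' (Function.update x.2 0 l)).map
        (Pi.evalRingHom (fun _ : α => K) s) = 0 := by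
    rw [Filter.eventually_all]
    rintro ⟨i, J⟩
    refine poly_transfer _ ?_
    rw [Polynomial.map_sum, ← hΓc i J]
    refine Finset.sum_congr rfl fun l _ => ?_
    rw [Polynomial.map_mul, hmkp, hΓ'mk]
  obtain ⟨s, hs1, hs2, hs3, hs4⟩ := (hTr.and (hJ0.and (halt.and hcontr))).exists
  obtain ⟨e1, e2⟩ := Prod.mk.inj hs1
  apply h8 s
  rw [e1]
  refine ⟨hTn, GS_descend (R' := K) G (a s) (b s)
    (fun J => (Γ' J).map (Pi.evalRingHom (fun _ : α => K) s)) ⟨⟨J0, hs2⟩, ?_, ?_, ?_⟩⟩
  · intro J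
    refine (Polynomial.natDegree_map_le).trans ?_
    rw [hΓ']
    refine Polynomial.natDegree_sum_le_of_forall_le _ _ fun m hm => ?_
    refine (Polynomial.natDegree_C_mul_X_pow_le _ _).trans ?_
    exact Nat.lt_succ_iff.1 (Finset.mem_range.1 hm)
  · intro J i j hij
    have e3 := hs3 (J, i, j) hij
    rw [Polynomial.map_add] at e3
    exact eq_neg_of_add_eq_zero_left e3
  · intro i J
    have e3 := hs4 (i, J)
    rw [Polynomial.map_sum] at e3
    rw [← e3]
    refine Finset.sum_congr rfl fun l _ => ?_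
    rw [Polynomial.map_mul, hevp]
    congr 1
    exact (lp_map (IsScalarTower.toAlgHom k k K) (a s) (b s) (pderiv l (G i))).symm

end Pool.Agent.N750
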