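import Mathlib
import Pool.Agent.N750.HtV
import Pool.Agent.N750.Asm

/-!
A crude bound for the height of the Gauss map.
-/

set_option autoImplicit false
set_option linter.unusedSectionVars false

open Finset Filter Topology

namespace Pool.Agent.N750

open NumberField IsDedekindDomain Height Module
open Pool.Agent.W180.OP (Pl av wt nrm le_nrm nrm_pos wt_nonneg exists_nrm nrm_nonneg)

theorem cst_prod {L : Type} [Field L] [NumberField L] {m : ℕ} (B : Fin m → ℝ) (p : Pl L) :
    cst (∏ j, B j) p = ∏ j, cst (B j) p := by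
  rcases p with p | p
  · rfl
  · show (1 : ℝ) = ∏ j, 1
    rw [Finset.prod_const_one]

/-- the height of a vector of values of forms -/
theorem form_vec_ht {k : Type} [Field k] [NumberField k] {M m e : ℕ}
    (P : Fin m → MvPolynomial (Fin M) k) (hP : ∀ i, (P i).IsHomogeneous e) :
    ∃ C : ℝ, 0 ≤ C ∧ ∀ (L : Type) [Field L] [NumberField L] [Algebra k L] (x : Fin M → L),
      x ≠ 0 → (fun i => MvPolynomial.aeval x (P i)) ≠ 0 →
      logHeight (fun i => MvPolynomial.aeval x (P i)) ≤ e * logHeight x + finrank k L * C := by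
  classical
  choose mm c B hB hc0 hbound using fun i => av_poly (P i) (hP i)
  have hlB : ∀ i, 0 ≤ Real.log (B i) := fun i => Real.log_nonneg (hB i)
  have hBp : ∀ i, 0 < B i := fun i => by linarith [hB i]
  refine ⟨∑ j, logHeight (c j) + finrank ℚ k * Real.log (∏ j, B j),
    add_nonneg (Finset.sum_nonneg fun j _ => logHeight_nonneg _)
      (mul_nonneg (Nat.cast_nonneg _) ?_), ?_⟩
  · rw [Real.log_prod (fun i _ => (hBp i).ne')]
    exact Finset.sum_nonneg fun j _ => hlB j
  intro L _ _ _ x hx hV
  set cL : ∀ j, Fin (mm j + 1) → L := fun j i => algebraMap k L (c j i) with hcL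
  have hcL1 : ∀ j, cL j 0 = 1 := by
    intro j
    rw [hcL]
    simp only
    rw [hc0, map_one]
  have hcL0 : ∀ j, cL j ≠ 0 := fun j h => one_ne_zero ((hcL1 j).symm.trans (congrFun h 0))
  have hcn : ∀ j (p : Pl L), 1 ≤ nrm (av p) (cL j) := by
    intro j p
    have := le_nrm (av p) (cL j) 0
    rwa [hcL1, map_one] at this
  have hm : 0 < m := by
    obtain ⟨i, -⟩ := Function.ne_iff.1 hV
    exact lt_of_le_of_lt (Nat.zero_le _) i.2
  set V : Fin m → L := fun i => MvPolynomial.aeval x (P i) with hVdef
  have h1 := ht_gen (K := L) (Finset.univ : Finset (Option (Option (Fin m))))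
    (fun o => match o with | none => m | some none => M | some (some j) => mm j + 1)
    (fun o => match o with | none => V | some none => x | some (some j) => cL j)
    (fun o => match o with | none => -1 | some none => (e : ℝ) | some (some _) => 1) (by
      rintro (_ | _ | j) _
      · exact hV
      · exact hx
      · exact hcL0 j) (∏ j, B j) (by
      intro p
      rw [Fintype.sum_option, Fintype.sum_option]
      show 0 ≤ -1 * Real.log (nrm (av p) V) + ((e : ℝ) * Real.log (nrm (av p) x) +
        ∑ j, 1 * Real.log (nrm (av p) (cL j))) + Real.log (cst (∏ j, B j) p)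
      obtain ⟨i, hi⟩ := exists_nrm (av p) hm V
      have h2 := hbound i L x p
      have h3 : av p (V i) ≤ cst (B i) p * (nrm (av p) (cL i) * nrm (av p) x ^ e) := h2
      rw [hi] at h3
      have h4 := Real.log_le_log (nrm_pos (av p) hV) h3
      rw [Real.log_mul (cst_pos (by linarith [hB i]) p).ne' (mul_pos (nrm_pos _ (hcL0 i))
        (pow_pos (nrm_pos _ hx) _)).ne', Real.log_mul (nrm_pos _ (hcL0 i)).ne'
        (pow_pos (nrm_pos _ hx) _).ne', Real.log_pow] at h4
      have h5 : Real.log (nrm (av p) (cL i)) ≤ ∑ j, Real.log (nrm (av p) (cL j)) :=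
        Finset.single_le_sum (f := fun j => Real.log (nrm (av p) (cL j)))
          (fun j _ => Real.log_nonneg (hcn j p)) (Finset.mem_univ i)
      have h6 : Real.log (cst (B i) p) ≤ Real.log (cst (∏ j, B j) p) := by
        rw [cst_prod, Real.log_prod (fun j _ => (cst_pos (hBp j) p).ne')]
        exact Finset.single_le_sum (f := fun j => Real.log (cst (B j) p))
          (fun j _ => Real.log_nonneg (one_le_cst (hB j) p)) (Finset.mem_univ i)
      simp only [one_mul]
      linarith)
  rw [Fintype.sum_option, Fintype.sum_option] at h1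
  have h2 : 0 ≤ -1 * logHeight V + ((e : ℝ) * logHeight x + ∑ j, 1 * logHeight (cL j)) +
    finrank ℚ L * Real.log (∏ j, B j) := h1
  have h3 : ∀ j, logHeight (cL j) = finrank k L * logHeight (c j) := fun j =>
    Pool.Agent.Helper259.HtExt.logHeight_ext (c j)
  have h4 : (finrank ℚ L : ℝ) = finrank ℚ k * finrank k L := by
    exact_mod_cast (finrank_mul_finrank ℚ k L).symm
  simp only [one_mul, h3] at h2
  rw [← Finset.mul_sum, h4] at h2
  linarith

theorem mv_swap {L : Type} [Field L] {M p : ℕ} (A : Fin M → Fin p → L) (J : Fin p → Fin M)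
    (i j : Fin p) (hij : i ≠ j) : mv A (J ∘ Equiv.swap i j) = -mv A J := by
  unfold mv
  have h1 := Matrix.det_permute (Equiv.swap i j) (Matrix.of fun x c => A (J x) c)
  rw [Equiv.Perm.sign_swap hij] at h1
  have h2 : (Matrix.of fun x c => A ((J ∘ Equiv.swap i j) x) c) =
      (Matrix.of fun x c => A (J x) c).submatrix (Equiv.swap i j) id := by
    ext x c
    rfl
  rw [h2, h1]
  simp

/-- **a crude bound for the height of the Gauss map** -/
theorem crude {k : Type} [Field k] [NumberField k] {M g n' : ℕ}
    (G : Fin g → MvPolynomial (Fin M) k) (e : Fin g → ℕ) (hG : ∀ i, (G i).IsHomogeneous (e i))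
    (hsm : Sm (n' + 1) G) :
    ∃ C : ℝ, 0 ≤ C ∧ ∀ (L : Type) [Field L] [NumberField L] [Algebra k L] (x : Fin M → L),
      x ≠ 0 → (∀ i, MvPolynomial.aeval x (G i) = 0) → ∀ A : Fin M → Fin (n' + 2) → L,
      IsTB G x A → logHeight (mv A) ≤ C * logHeight x + finrank k L * C := by
  classical
  rcases Nat.eq_zero_or_pos M with rfl | hM
  · exact ⟨0, le_rfl, fun L _ _ _ x hx => absurd (Subsingleton.elim x 0) hx⟩
  have hcard : 0 < Fintype.card (XI M n' 0) := Fintype.card_pos_iff.2 ⟨(fun _ => ⟨0, hM⟩, 0)⟩
  obtain ⟨N', hN'⟩ : ∃ N', Fintype.card (XI M n' 0) = N' + 1 := ⟨Fintype.card (XI M n' 0) - 1, by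
    omega⟩
  let ε : XI M n' 0 ≃ Fin (N' + 1) := Fintype.equivFinOfCardEq hN'
  have hrow : ∀ y : YI M g n' 0 1, ∃ C : ℝ, 0 ≤ C ∧ ∀ (L : Type) [Field L] [NumberField L]
      [Algebra k L] (x : Fin M → L), x ≠ 0 →
      (fun i => rowF (n' := n') G x 0 0 1 y (ε.symm i)) ≠ 0 →
      logHeight (fun i => rowF (n' := n') G x 0 0 1 y (ε.symm i)) ≤
        C * logHeight x + finrank k L * C := by
    rintro (⟨J, i, j, m⟩ | ⟨i, J, z⟩)
    · refine ⟨(N' + 1) * logHeight₁ (2 : k), mul_nonneg (by positivity) (zero_le_logHeight₁ _),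
        fun L _ _ _ x _ _ => ?_⟩
      have h1 : ∀ i', logHeight₁ (rowF (n' := n') G x 0 0 1 (Sum.inl (J, i, j, m)) (ε.symm i')) ≤
          finrank k L * logHeight₁ (2 : k) := by
        intro i'
        have h2 : 0 ≤ (finrank k L : ℝ) * logHeight₁ (2 : k) :=
          mul_nonneg (Nat.cast_nonneg _) (zero_le_logHeight₁ _)
        show logHeight₁ (if i = j then 0 else
          (if (J ∘ Equiv.swap i j, m) = (ε.symm i') then 1 else 0) +
            (if (J, m) = (ε.symm i') then 1 else 0) : L) ≤ _
        split_ifs
        · rw [logHeight₁_zero]; exact h2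
        · have h3 : (1 + 1 : L) = algebraMap k L 2 := by
            rw [map_ofNat]
            norm_num
          rw [h3, logHeight₁_ext]
        · rw [add_zero, logHeight₁_one]; exact h2
        · rw [zero_add, logHeight₁_one]; exact h2
        · rw [add_zero, logHeight₁_zero]; exact h2
      refine (logHeight_le_sum _).trans ((Finset.sum_le_sum fun i' _ => h1 i').trans ?_)
      rw [Finset.sum_const, Finset.card_univ, Fintype.card_fin, nsmul_eq_mul]
      have h2 : 0 ≤ (N' + 1) * logHeight₁ (2 : k) * logHeight x :=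
        mul_nonneg (mul_nonneg (by positivity) (zero_le_logHeight₁ _)) (logHeight_nonneg _)
      push_cast
      linarith
    · set P : Fin (N' + 1) → MvPolynomial (Fin M) k := fun x' =>
        ∑ l, if Function.update J 0 l = (ε.symm x').1 then MvPolynomial.pderiv l (G i) else 0
        with hPdef
      have hP : ∀ x', (P x').IsHomogeneous (e i - 1) := by
        intro x'
        refine MvPolynomial.IsHomogeneous.sum _ _ _ fun l _ => ?_
        split_ifs
        · exact (hG i).pderiv
        · exact MvPolynomial.isHomogeneous_zero _ _ _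
      obtain ⟨C, hC, h⟩ := form_vec_ht P hP
      refine ⟨C + (e i - 1 : ℕ), by positivity, fun L _ _ _ x hx hne => ?_⟩
      have h1 : (fun x' => rowF (n' := n') G x 0 0 1 (Sum.inr (i, J, z)) (ε.symm x')) =
          fun x' => MvPolynomial.aeval x (P x') := by
        funext x'
        show (∑ l, if Function.update J 0 l = (ε.symm x').1 then
          MvPolynomial.aeval (fun l => x l + (0 : Fin M → L) l * (z.1 : L))
            (MvPolynomial.pderiv l (G i)) else 0) * (z.1 : L) ^ (ε.symm x').2.1 = _
        have hz : (z.1 : ℕ) = 0 := by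
          have := z.2
          omega
        have hx' : ((ε.symm x').2.1 : ℕ) = 0 := by
          have := (ε.symm x').2.2
          omega
        rw [hx', pow_zero, mul_one, hPdef]
        simp only
        rw [map_sum]
        refine Finset.sum_congr rfl fun l _ => ?_
        split_ifs
        · congr 2
          funext l'
          rw [Pi.zero_apply, zero_mul, add_zero]
        · rw [map_zero]
      rw [h1] at hne ⊢
      have h2 := h L x hx hne
      have h3 : 0 ≤ C * logHeight x := mul_nonneg hC (logHeight_nonneg _)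
      have h4 : (0 : ℝ) ≤ (e i - 1 : ℕ) * finrank k L := by positivity
      linarith
  choose C hC hrowC using hrow
  have hS : 0 ≤ ∑ y, C y := Finset.sum_nonneg fun y _ => hC y
  have hlf : 0 ≤ Real.log ((N' + 1).factorial : ℝ) := Real.log_natCast_nonneg _
  refine ⟨N' * ∑ y, C y + finrank ℚ k * Real.log ((N' + 1).factorial), by positivity, ?_⟩
  intro L _ _ _ x hx hXx A hA
  have hht := logHeight_nonneg x
  have hdim : finrank L (TS G x) = n' + 2 := hsm L x hx hXx
  -- the solution given by the minors
  have halt : ∀ J (i j : Fin (n' + 2)), i ≠ j → mv A (J ∘ Equiv.swap i j) = -mv A J :=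
    fun J i j hij => mv_swap A J i j hij
  have hcon : ∀ i (J : Fin (n' + 2) → Fin M),
      ∑ l, MvPolynomial.aeval x (MvPolynomial.pderiv l (G i)) * mv A (Function.update J 0 l) = 0 := by
    intro i J
    exact det_row_zero A (fun l => MvPolynomial.aeval x (MvPolynomial.pderiv l (G i)))
      (fun c => hA.2 c i) J
  have heval : ∀ (c : XI M n' 0 → L) (i : Fin g) (J : Fin (n' + 2) → Fin M) (z : Fin 1),
      ∑ x', rowF (n' := n') G x 0 0 1 (Sum.inr (i, J, z)) x' * c x' =
      ∑ l, MvPolynomial.aeval x (MvPolynomial.pderiv l (G i)) * c (Function.update J 0 l, 0) := by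
    intro c i J z
    have hz : (z.1 : ℕ) = 0 := by
      have := z.2
      omega
    rw [sum_contr, Polynomial.eval_finsetSum, hz, Nat.cast_zero]
    refine Finset.sum_congr rfl fun l _ => ?_
    rw [Polynomial.eval_mul, lp_eval]
    congr 1
    · congr 2
      funext l'
      rw [mul_zero, add_zero]
    · unfold polyOf
      rw [Polynomial.eval_finsetSum, Fin.sum_univ_one]
      simp
  have hmv0 : mv A ≠ 0 := by
    obtain ⟨J, hJ⟩ := exists_minor A hA.1
    exact fun h => hJ (congrFun h J)
  obtain ⟨c, hc1, hc2, hc3⟩ := cramer_ht (R := L) (N := N')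
    (fun y x' => rowF (n' := n') G x 0 0 1 y (ε.symm x'))
    ((∑ y, C y) * (logHeight x + finrank k L))
    (mul_nonneg hS (add_nonneg hht (Nat.cast_nonneg _))) (by
      intro y hy
      refine (hrowC y L x hx hy).trans ?_
      rw [← mul_comm (C y), ← mul_add]
      refine mul_le_mul_of_nonneg_right ?_ (add_nonneg hht (Nat.cast_nonneg _))
      exact Finset.single_le_sum (f := fun y => C y) (fun y _ => hC y) (Finset.mem_univ y))
    ⟨fun x' => mv A (ε.symm x').1, fun h => hmv0 (by
      funext J
      have := congrFun h (ε (J, 0))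
      simpa using this), fun y => by
      have h1 := Equiv.sum_comp ε.symm (fun x' => rowF (n' := n') G x 0 0 1 y x' * mv A x'.1)
      rw [h1]
      rcases y with ⟨J, i, j, m⟩ | ⟨i, J, z⟩
      · by_cases hij : i = j
        · refine Finset.sum_eq_zero fun x' _ => ?_
          show (if i = j then 0 else
            ((if (J ∘ Equiv.swap i j, m) = x' then 1 else 0) +
              (if (J, m) = x' then 1 else 0) : L)) * _ = 0
          rw [if_pos hij, zero_mul]
        · rw [sum_alt G x 0 (fun x' : XI M n' 0 => mv A x'.1) J i j m hij]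
          simp only
          rw [halt J i j hij, neg_add_cancel]
      · rw [heval (fun x' : XI M n' 0 => mv A x'.1)]
        exact hcon i J⟩
  -- uniqueness
  obtain ⟨t, ht⟩ := alt_unique (L := L) A hA.1
    (fun i l => MvPolynomial.aeval x (MvPolynomial.pderiv l (G i)))
    (fun v hv => span_TB hA hdim v hv) (fun J => c (ε (J, 0))) (by
      intro J i j hij
      have h1 := hc2 (Sum.inl (J, i, j, 0))
      have h2 := Equiv.sum_comp ε.symm (fun x' => rowF (n' := n') G x 0 0 1
        (Sum.inl (J, i, j, 0)) x' * c (ε x'))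
      have h3 := sum_alt (N := 1) G x 0 (fun x' : XI M n' 0 => c (ε x')) J i j 0 hij
      simp only [Equiv.apply_symm_apply] at h2
      rw [h2, h3] at h1
      exact eq_neg_of_add_eq_zero_left h1) (by
      intro i J
      have h1 := hc2 (Sum.inr (i, J, 0))
      have h2 := Equiv.sum_comp ε.symm (fun x' => rowF (n' := n') G x 0 0 1
        (Sum.inr (i, J, 0)) x' * c (ε x'))
      simp only [Equiv.apply_symm_apply] at h2
      rw [h2, heval (fun x' : XI M n' 0 => c (ε x'))] at h1
      exact h1)
  have hcJ : ∀ x', c x' = t * mv A (ε.symm x').1 := by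
    intro x'
    have h1 := ht (ε.symm x').1
    have h2 : ε ((ε.symm x').1, 0) = x' := by
      have h3 : ((ε.symm x').1, (0 : Fin 1)) = ε.symm x' := by
        refine Prod.ext rfl ?_
        exact Subsingleton.elim _ _
      rw [h3, Equiv.apply_symm_apply]
    rw [h2] at h1
    exact h1
  have ht0 : t ≠ 0 := by
    rintro rfl
    apply hc1
    funext x'
    rw [hcJ, zero_mul]
    rfl
  have h1 : logHeight (mv A) ≤ logHeight c := by
    have h2 : mv A = t⁻¹ • (c ∘ fun J => ε (J, 0)) := by
      funext J
      show mv A J = t⁻¹ * c (ε (J, 0))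
      rw [hcJ, Equiv.symm_apply_apply, ← mul_assoc, inv_mul_cancel₀ ht0, one_mul]
    rw [h2, logHeight_smul_eq_logHeight _ (inv_ne_zero ht0)]
    exact logHeight_comp_le _ _
  have h4 : (finrank ℚ L : ℝ) = finrank ℚ k * finrank k L := by
    exact_mod_cast (finrank_mul_finrank ℚ k L).symm
  rw [h4] at hc3
  have h5 : 0 ≤ (finrank ℚ k : ℝ) * Real.log ((N' + 1).factorial) * logHeight x := by positivity
  linarith

end Pool.Agent.N750
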