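import Mathlib
import Pool.Agent.N750.Dfm

/-!
The order of vanishing of the Gauss map of deformations along linear strata.
-/

set_option autoImplicit false
set_option linter.unusedSectionVars false

namespace Pool.Agent.N750

open MvPolynomial

/-- normal crossings -/
def NCs {k : Type} [Field k] {M g q : ℕ} {K : Type} [Field K] [Algebra k K]
    (G : Fin g → MvPolynomial (Fin M) k) (H : Fin q → Fin M → K) : Prop :=
  ∀ (Ω : Type) [Field Ω] [Algebra k Ω] [Algebra K Ω] [IsScalarTower k K Ω] (z : Fin M → Ω),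
    z ≠ 0 → (∀ i, aeval z (G i) = 0) → ∀ c : Fin q → Ω,
    (∀ s, c s ≠ 0 → lv (H s) z = 0) →
    (∀ v ∈ TS G z, ∑ s, c s * lv (H s) v = 0) → c = 0

section ext

variable {k K Ω F : Type} [Field k] [Field K] [Field Ω] [CharZero Ω] [Field F] [Algebra k K]
  [Algebra k Ω] [Algebra K Ω] [Algebra k F] [Algebra K F] [Algebra Ω F] [IsScalarTower k K Ω]
  [IsScalarTower k Ω F] [IsScalarTower K Ω F] {M N g q : ℕ}

/-- the universal point of a linear space -/
noncomputable def upt (b : Fin N → Fin M → Ω) : Fin M → MvPolynomial (Fin N) Ω :=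
  fun j => ∑ l, X l * C (b l j)

theorem upt_aeval (b : Fin N → Fin M → Ω) (Z : Fin N → F) (j : Fin M) :
    aeval Z (upt b j) = pt (fun l j => algebraMap Ω F (b l j)) Z j := by
  unfold upt pt
  rw [map_sum]
  refine Finset.sum_congr rfl fun l _ => ?_
  rw [map_mul, aeval_X, aeval_C]

theorem upt_aeval' (b : Fin N → Fin M → Ω) (Z : Fin N → F) (P : MvPolynomial (Fin M) k) :
    aeval Z (aeval (upt b) P) = aeval (pt (fun l j => algebraMap Ω F (b l j)) Z) P := by
  have h1 := MvPolynomial.comp_aeval_apply (upt b)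
    ((aeval Z : MvPolynomial (Fin N) Ω →ₐ[Ω] F).restrictScalars k) P
  have h2 : (fun j => ((aeval Z : MvPolynomial (Fin N) Ω →ₐ[Ω] F).restrictScalars k)
      (upt b j)) = pt (fun l j => algebraMap Ω F (b l j)) Z := by
    funext j
    exact upt_aeval b Z j
  rw [h2] at h1
  exact h1

theorem upt_eval (b : Fin N → Fin M → Ω) (Y : Fin N → Ω) (P : MvPolynomial (Fin M) k) :
    eval Y (aeval (upt b) P) = aeval (pt b Y) P := by
  have h1 := upt_aeval' (F := Ω) b Y P
  exact h1

theorem LX_poly {G : Fin g → MvPolynomial (Fin M) k} {b : Fin N → Fin M → Ω} (h : LX G b)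
    (i : Fin g) : aeval (upt b) (G i) = 0 := by
  refine MvPolynomial.funext fun Y => ?_
  rw [upt_eval, map_zero]
  exact h Y i

/-- linear spaces on the variety over an extension -/
theorem LX_ext {G : Fin g → MvPolynomial (Fin M) k} {b : Fin N → Fin M → Ω} (h : LX G b) :
    LX G (fun l j => algebraMap Ω F (b l j)) := by
  intro Z i
  rw [← upt_aeval', LX_poly h, map_zero]

/-- tangency over an extension -/
theorem DT_ext {G : Fin g → MvPolynomial (Fin M) k} {b β : Fin N → Fin M → Ω}
    (h : ∀ Y, pt β Y ∈ TS G (pt b Y)) (Z : Fin N → F) :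
    pt (fun l j => algebraMap Ω F (β l j)) Z ∈
      TS G (pt (fun l j => algebraMap Ω F (b l j)) Z) := by
  intro i
  have h1 : ∑ j, aeval (upt b) (pderiv j (G i)) * upt β j = 0 := by
    refine MvPolynomial.funext fun Y => ?_
    rw [map_sum, map_zero, ← h Y i]
    refine Finset.sum_congr rfl fun j _ => ?_
    rw [map_mul, upt_eval]
    congr 1
    exact upt_aeval (F := Ω) β Y j
  have h2 := congrArg (aeval Z) h1
  rw [map_sum, map_zero] at h2
  rw [← h2]
  refine Finset.sum_congr rfl fun j _ => ?_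
  rw [map_mul, upt_aeval', upt_aeval]

theorem lv_pt (h : Fin M → K) (b : Fin N → Fin M → F) (Z : Fin N → F) :
    lv h (pt b Z) = ∑ l, Z l * lv h (b l) := by
  unfold lv pt
  simp_rw [Finset.mul_sum]
  rw [Finset.sum_comm]
  exact Finset.sum_congr rfl fun l _ => Finset.sum_congr rfl fun j _ => by ring

theorem lv_ext (h : Fin M → K) (z : Fin M → Ω) :
    lv h (fun j => algebraMap Ω F (z j)) = algebraMap Ω F (lv h z) := by
  unfold lv
  rw [map_sum]
  refine Finset.sum_congr rfl fun j _ => ?_
  rw [map_mul, ← IsScalarTower.algebraMap_apply K Ω F]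

end ext

section vsh

variable {k K Ω : Type} [Field k] [Field K] [Field Ω] [CharZero Ω] [Algebra k K]
  [Algebra k Ω] [Algebra K Ω] [IsScalarTower k K Ω] {M N g q ν n : ℕ}

/-- the polynomial matrix -/
noncomputable def bp (b : Fin N → Fin M → Ω) (γ : Fin ν → Fin N → Fin M → Ω) (j : Fin M) :
    (Fin N ⊕ Fin ν) → MvPolynomial (Fin N) Ω
  | Sum.inl l => C (b l j)
  | Sum.inr c => ∑ i, X i * C (γ c i j)

/-- the minors of the polynomial matrix -/
noncomputable def pj (b : Fin N → Fin M → Ω) (γ : Fin ν → Fin N → Fin M → Ω)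
    (e : Fin (n + 1) ≃ Fin N ⊕ Fin ν) (J : Fin (n + 1) → Fin M) : MvPolynomial (Fin N) Ω :=
  (Matrix.of fun x c => bp b γ (J x) (e c)).det

/-- the degree of the minors -/
theorem pj_hom (b : Fin N → Fin M → Ω) (γ : Fin ν → Fin N → Fin M → Ω)
    (e : Fin (n + 1) ≃ Fin N ⊕ Fin ν) (J : Fin (n + 1) → Fin M) :
    (pj b γ e J).IsHomogeneous ν := by
  classical
  unfold pj
  rw [Matrix.det_apply]
  refine MvPolynomial.IsHomogeneous.sum _ _ _ fun σ _ => ?_
  have h1 : (∏ i, (Matrix.of fun x c => bp b γ (J x) (e c)) (σ i) i).IsHomogeneous ν := by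
    have h2 := MvPolynomial.IsHomogeneous.prod (Finset.univ : Finset (Fin (n + 1)))
      (fun i => (Matrix.of fun x c => bp b γ (J x) (e c)) (σ i) i)
      (fun i => Sum.elim (fun _ => 0) (fun _ => 1) (e i)) (fun i _ => by
        show (bp b γ (J (σ i)) (e i)).IsHomogeneous _
        rcases e i with l | c
        · exact MvPolynomial.isHomogeneous_C _ _
        · refine MvPolynomial.IsHomogeneous.sum _ _ _ fun i' _ => ?_
          rw [mul_comm]
          exact MvPolynomial.isHomogeneous_C_mul_X _ _)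
    have h3 : ∑ i, Sum.elim (fun _ : Fin N => 0) (fun _ : Fin ν => 1) (e i) = ν := by
      rw [Equiv.sum_comp e (Sum.elim (fun _ : Fin N => 0) (fun _ : Fin ν => 1)),
        Fintype.sum_sum_type]
      simp
    rw [h3] at h2
    exact h2
  rcases Int.units_eq_one_or (Equiv.Perm.sign σ) with h | h
  · rw [h, one_smul]
    exact h1
  · rw [h, Units.neg_smul, one_smul]
    exact h1.neg

/-- the values of the minors -/
theorem pj_eval {F : Type} [Field F] [Algebra Ω F] (b : Fin N → Fin M → Ω)
    (γ : Fin ν → Fin N → Fin M → Ω) (e : Fin (n + 1) ≃ Fin N ⊕ Fin ν) (J : Fin (n + 1) → Fin M)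
    (Z : Fin N → F) :
    aeval Z (pj b γ e J) = (Matrix.of fun x c => Sum.elim (fun l => algebraMap Ω F (b l (J x)))
      (fun c => ∑ i, Z i * algebraMap Ω F (γ c i (J x))) (e c)).det := by
  unfold pj
  rw [AlgHom.map_det]
  congr 1
  ext x c
  show aeval Z (bp b γ (J x) (e c)) = _
  rw [Matrix.of_apply]
  rcases e c with l | c
  · show aeval Z (C (b l (J x))) = _
    rw [aeval_C]
    rfl
  · show aeval Z (∑ i, X i * C (γ c i (J x))) = ∑ i, Z i * algebraMap Ω F (γ c i (J x))
    rw [map_sum]
    refine Finset.sum_congr rfl fun i _ => ?_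
    rw [map_mul, aeval_X, aeval_C]

/-- the orders of vanishing from a divisibility -/
theorem ord_of_dvd (P : MvPolynomial (Fin N) Ω) (A' : Finset (Fin N)) (r : ℕ)
    (h : (Polynomial.X : Polynomial (FractionRing (MvPolynomial (Fin N) Ω))) ^ r ∣
      aeval (fun i => if i ∈ A' then
        Polynomial.C (algebraMap (MvPolynomial (Fin N) Ω) _ (X i)) * Polynomial.X else
        Polynomial.C (algebraMap (MvPolynomial (Fin N) Ω) _ (X i))) P)
    (α : Fin N →₀ ℕ) (hα : α ∈ P.support) : r ≤ ∑ i ∈ A', α i := by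
  classical
  set F := FractionRing (MvPolynomial (Fin N) Ω) with hF
  by_contra hlt
  push Not at hlt
  set w : (Fin N →₀ ℕ) → ℕ := fun α => ∑ i ∈ A', α i with hw
  have h1 : aeval (fun i => if i ∈ A' then
        Polynomial.C (algebraMap (MvPolynomial (Fin N) Ω) F (X i)) * Polynomial.X else
        Polynomial.C (algebraMap (MvPolynomial (Fin N) Ω) F (X i))) P =
      ∑ m ∈ P.support, Polynomial.C (algebraMap (MvPolynomial (Fin N) Ω) F
        (monomial m (coeff m P))) * Polynomial.X ^ w m := by
    rw [aeval_def, eval₂_eq]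
    refine Finset.sum_congr rfl fun m _ => ?_
    have h2 : ∏ i ∈ m.support, (if i ∈ A' then
        Polynomial.C (algebraMap (MvPolynomial (Fin N) Ω) F (X i)) * Polynomial.X else
        Polynomial.C (algebraMap (MvPolynomial (Fin N) Ω) F (X i))) ^ m i =
        Polynomial.C (algebraMap (MvPolynomial (Fin N) Ω) F (∏ i, X i ^ m i)) *
          Polynomial.X ^ w m := by
      rw [Finset.prod_subset (Finset.subset_univ m.support) (fun i _ hi => by
        rw [Finsupp.notMem_support_iff.1 hi, pow_zero])]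
      rw [hw, map_prod, map_prod]
      simp only
      rw [← Finset.prod_pow_eq_pow_sum, ← Finset.prod_filter_mul_prod_filter_not Finset.univ
        (fun i => i ∈ A'), ← Finset.prod_filter_mul_prod_filter_not Finset.univ
        (fun i => i ∈ A') (fun i => Polynomial.C (algebraMap (MvPolynomial (Fin N) Ω) F
          (X i ^ m i))), Finset.filter_mem_eq_inter, Finset.univ_inter]
      have e1 : ∏ i ∈ A', (if i ∈ A' then
        Polynomial.C (algebraMap (MvPolynomial (Fin N) Ω) F (X i)) * Polynomial.X else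
        Polynomial.C (algebraMap (MvPolynomial (Fin N) Ω) F (X i))) ^ m i =
          (∏ i ∈ A', Polynomial.C (algebraMap (MvPolynomial (Fin N) Ω) F (X i ^ m i))) *
          ∏ i ∈ A', Polynomial.X ^ m i := by
        rw [← Finset.prod_mul_distrib]
        refine Finset.prod_congr rfl fun i hi => ?_
        rw [if_pos hi, mul_pow, map_pow, map_pow]
      have e2 : ∏ i ∈ Finset.univ.filter (fun i => i ∉ A'), (if i ∈ A' then
        Polynomial.C (algebraMap (MvPolynomial (Fin N) Ω) F (X i)) * Polynomial.X else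
        Polynomial.C (algebraMap (MvPolynomial (Fin N) Ω) F (X i))) ^ m i =
          ∏ i ∈ Finset.univ.filter (fun i => i ∉ A'),
            Polynomial.C (algebraMap (MvPolynomial (Fin N) Ω) F (X i ^ m i)) := by
        refine Finset.prod_congr rfl fun i hi => ?_
        rw [if_neg (Finset.mem_filter.1 hi).2, map_pow, map_pow]
      rw [e1, e2]
      ring
    rw [h2, ← mul_assoc]
    congr 1
    rw [Polynomial.algebraMap_apply, ← Polynomial.C_mul]
    congr 1
    rw [IsScalarTower.algebraMap_apply Ω (MvPolynomial (Fin N) Ω) F, ← map_mul]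
    congr 1
    rw [monomial_eq, Finsupp.prod_fintype _ _ (fun i => pow_zero _)]
    rfl
  have h2 := (Polynomial.X_pow_dvd_iff.1 h) (w α) hlt
  rw [h1, Polynomial.finsetSum_coeff] at h2
  simp only [Polynomial.coeff_C_mul_X_pow] at h2
  rw [← Finset.sum_filter, ← map_sum] at h2
  have h3 : ∑ m ∈ P.support.filter (fun m => w α = w m), monomial m (coeff m P) = 0 := by
    apply IsFractionRing.injective (MvPolynomial (Fin N) Ω) F
    rw [h2, map_zero]
  have h4 := congrArg (coeff α) h3
  rw [coeff_sum, coeff_zero] at h4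
  simp only [coeff_monomial] at h4
  rw [Finset.sum_ite_eq', if_pos (show α ∈ P.support.filter (fun m => w α = w m) from
    Finset.mem_filter.2 ⟨hα, rfl⟩)] at h4
  exact (mem_support_iff.1 hα) h4

/-- the divisibility of the minors along the strata -/
theorem vsh_aux {F : Type} [Field F] [CharZero F] [Algebra k F] [Algebra K F] [Algebra Ω F]
    [IsScalarTower k K F] [IsScalarTower k Ω F] [IsScalarTower K Ω F]
    (G : Fin g → MvPolynomial (Fin M) k) (hsm : Sm n G) (H : Fin q → Fin M → K)
    (hnc : NCs G H) (b : Fin N → Fin M → Ω) (hb : LX G b) (I : Fin N → Fin M)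
    (hbI : ∀ l l', b l (I l') = if l = l' then 1 else 0)
    (β : Fin ν → Fin N → Fin M → Ω) (hβ : ∀ c, DT G H b (β c))
    (d D : Fin N → Fin N → Ω) (hDd : ∀ i i', ∑ l, D i l * d i' l = if i = i' then 1 else 0)
    (A' : Finset (Fin N)) (hA' : A' ≠ Finset.univ) (A : Finset (Fin q))
    (hA : ∀ s ∈ A, ∀ i, i ∉ A' → lv (H s) (pt b (d i)) = 0) (R : Finset (Fin q))
    (rel : Fin q → Fin q → Ω) (hrel1 : ∀ j ∈ R, rel j j = 1)
    (hrelA : ∀ j ∈ R, ∀ s, s ∉ A → rel j s = 0)
    (hrelR : ∀ j ∈ R, ∀ j' ∈ R, j' ≠ j → rel j j' = 0)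
    (hrel : ∀ j ∈ R, ∀ l, ∑ s, rel j s * lv (H s) (b l) = 0)
    (e : Fin (n + 1) ≃ Fin N ⊕ Fin ν) (J : Fin (n + 1) → Fin M)
    (xx : Fin N → F) (hxx0 : ∀ i, xx i ≠ 0) :
    (Polynomial.X : Polynomial F) ^ R.card ∣ aeval (fun i => if i ∈ A' then
      Polynomial.C (xx i) * Polynomial.X else Polynomial.C (xx i))
        (pj b (fun c i => pt (β c) (d i)) e J) := by
  classical
  set ι : Ω →+* F := algebraMap Ω F with hι
  set bF : Fin N → Fin M → F := fun l j => ι (b l j) with hbF
  set z : Fin N → F := fun l => ∑ i, if i ∈ A' then 0 else xx i * ι (d i l) with hz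
  set ζ : Fin M → F := pt bF z with hζ
  have hbFX : LX G bF := LX_ext hb
  have hζX : ∀ i, aeval ζ (G i) = 0 := fun i => hbFX z i
  -- the point does not vanish
  have hζ0 : ζ ≠ 0 := by
    intro h0
    obtain ⟨i0, hi0⟩ : ∃ i0, i0 ∉ A' := by
      by_contra hcon
      push Not at hcon
      exact hA' (Finset.eq_univ_iff_forall.2 hcon)
    have h1 : ∀ l, z l = 0 := by
      intro l
      have h2 := congrFun h0 (I l)
      rw [hζ] at h2
      unfold pt at h2
      rw [Finset.sum_eq_single l] at h2
      · rw [hbF] at h2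
        simp only [hbI, if_true, map_one, mul_one] at h2
        exact h2
      · intro l' _ hl'
        rw [hbF]
        simp only [hbI]
        rw [if_neg hl', map_zero, mul_zero]
      · intro h
        exact absurd (Finset.mem_univ _) h
    have h3 : ∑ l, ι (D i0 l) * z l = xx i0 := by
      rw [hz]
      simp_rw [Finset.mul_sum]
      rw [Finset.sum_comm, Finset.sum_eq_single i0]
      · simp only [hi0, if_false]
        have h4 : ∀ l, ι (D i0 l) * (xx i0 * ι (d i0 l)) = xx i0 * ι (D i0 l * d i0 l) := by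
          intro l
          rw [map_mul]
          ring
        rw [Finset.sum_congr rfl fun l _ => h4 l, ← Finset.mul_sum, ← map_sum, hDd,
          if_pos rfl, map_one, mul_one]
      · intro i _ hi
        by_cases hiA : i ∈ A'
        · simp only [hiA, if_true, mul_zero, Finset.sum_const_zero]
        · simp only [hiA, if_false]
          have h4 : ∀ l, ι (D i0 l) * (xx i * ι (d i l)) = xx i * ι (D i0 l * d i l) := by
            intro l
            rw [map_mul]
            ring
          rw [Finset.sum_congr rfl fun l _ => h4 l, ← Finset.mul_sum, ← map_sum, hDd,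
            if_neg (Ne.symm hi), map_zero, mul_zero]
      · intro h
        exact absurd (Finset.mem_univ _) h
    apply hxx0 i0
    rw [← h3]
    refine Finset.sum_eq_zero fun l _ => ?_
    rw [h1, mul_zero]
  -- the forms which vanish at the point
  have hζA : ∀ s ∈ A, lv (H s) ζ = 0 := by
    intro s hs
    rw [hζ, lv_pt]
    have h1 : ∀ l, z l * lv (H s) (bF l) = ∑ i, if i ∈ A' then 0 else
        xx i * ι (d i l * lv (H s) (b l)) := by
      intro l
      rw [hz]
      simp only
      rw [Finset.sum_mul]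
      refine Finset.sum_congr rfl fun i _ => ?_
      have h2 : lv (H s) (bF l) = ι (lv (H s) (b l)) := lv_ext _ _
      split_ifs
      · rw [zero_mul]
      · rw [h2, map_mul]
        ring
    rw [Finset.sum_congr rfl fun l _ => h1 l, Finset.sum_comm]
    refine Finset.sum_eq_zero fun i _ => ?_
    by_cases hi : i ∈ A'
    · simp only [hi, if_true, Finset.sum_const_zero]
    · simp only [hi, if_false]
      rw [← Finset.mul_sum, ← map_sum, ← lv_pt, hA s hs i hi, map_zero, mul_zero]
  -- the relation forms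
  let f : TS G ζ →ₗ[F] (R → F) :=
    { toFun := fun v j => ∑ s, ι (rel j.1 s) * lv (H s) v.1
      map_add' := fun v w => by
        funext j
        show ∑ s, ι (rel j.1 s) * lv (H s) (v.1 + w.1) =
          ∑ s, ι (rel j.1 s) * lv (H s) v.1 + ∑ s, ι (rel j.1 s) * lv (H s) w.1
        rw [← Finset.sum_add_distrib]
        refine Finset.sum_congr rfl fun s _ => ?_
        rw [lv_add, mul_add]
      map_smul' := fun c v => by
        funext j
        show ∑ s, ι (rel j.1 s) * lv (H s) (c • v.1) = c * ∑ s, ι (rel j.1 s) * lv (H s) v.1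
        rw [Finset.mul_sum]
        refine Finset.sum_congr rfl fun s _ => ?_
        rw [lv_smul]
        ring }
  have hf : ∀ (v : TS G ζ) (j : R), f v j = ∑ s, ι (rel j.1 s) * lv (H s) v.1 := fun v j => rfl
  have hsurj : LinearMap.range f = ⊤ := by
    by_contra hne
    obtain ⟨φ, hφ0, hφ⟩ := Submodule.exists_le_ker_of_lt_top _ (lt_top_iff_ne_top.2 hne)
    apply hφ0
    have hc : ∀ v ∈ TS G ζ, ∑ s, (∑ j : R, φ (Pi.single j 1) * ι (rel j.1 s)) * lv (H s) v = 0 := by
      intro v hv
      have h2 : φ (f ⟨v, hv⟩) = 0 := hφ ⟨_, rfl⟩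
      rw [LinearMap.pi_apply_eq_sum_univ φ] at h2
      rw [← h2]
      simp_rw [Finset.sum_mul]
      rw [Finset.sum_comm]
      refine Finset.sum_congr rfl fun j _ => ?_
      rw [hf, smul_eq_mul, Finset.sum_mul]
      refine Finset.sum_congr rfl fun s _ => ?_
      have h3 : φ (Pi.single j 1) = φ (fun j' => if j = j' then 1 else 0) := by
        congr 1
        funext j'
        rw [Pi.single_apply]
        by_cases h : j = j'
        · rw [if_pos h, if_pos h.symm]
        · rw [if_neg h, if_neg fun h' => h h'.symm]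
      rw [h3]
      ring
    have h1 := hnc F ζ hζ0 hζX (fun s => ∑ j : R, φ (Pi.single j 1) * ι (rel j.1 s)) (by
      intro s hs
      apply hζA
      by_contra hsA
      apply hs
      refine Finset.sum_eq_zero fun j _ => ?_
      rw [hrelA j.1 j.2 s hsA, map_zero, mul_zero]) hc
    refine LinearMap.pi_ext' fun j => LinearMap.ext_ring ?_
    have h3 := congrFun h1 j.1
    rw [Pi.zero_apply] at h3
    rw [Finset.sum_eq_single j (fun j' _ hj' => by
      rw [hrelR j'.1 j'.2 j.1 j.2 (fun h => hj' (Subtype.ext h.symm)), map_zero, mul_zero])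
      (fun h => absurd (Finset.mem_univ _) h), hrel1 j.1 j.2, map_one, mul_one] at h3
    exact h3
  have hkerf := LinearMap.finrank_range_add_finrank_ker f
  rw [hsurj, finrank_top, Module.finrank_pi, Fintype.card_coe, hsm F ζ hζ0 hζX] at hkerf
  -- the columns
  set col : Fin (n + 1) → Fin M → F := fun c => Sum.elim (fun l => bF l)
    (fun c => pt (fun l j => ι (β c l j)) z) (e c) with hcol
  have hcolT0 : ∀ c : Fin N ⊕ Fin ν, ∃ h : Sum.elim (fun l => bF l)
      (fun c => pt (fun l j => ι (β c l j)) z) c ∈ TS G ζ, f ⟨_, h⟩ = 0 := by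
    rintro (l | c')
    · refine ⟨LX_tan hbFX z l, ?_⟩
      funext j
      rw [hf]
      show ∑ s, ι (rel j.1 s) * lv (H s) (bF l) = 0
      have h1 := congrArg ι (hrel j.1 j.2 l)
      rw [map_sum, map_zero] at h1
      rw [← h1]
      refine Finset.sum_congr rfl fun s _ => ?_
      rw [map_mul]
      congr 1
      exact lv_ext _ _
    · refine ⟨DT_ext (hβ c').1 z, ?_⟩
      funext j
      rw [hf]
      show ∑ s, ι (rel j.1 s) * lv (H s) (pt (fun l j => ι (β c' l j)) z) = 0
      obtain ⟨μ, hμ1, hμ2⟩ := (hβ c').2 (rel j.1) (hrel j.1 j.2)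
      have h1 : ∀ s, ι (rel j.1 s) * lv (H s) (pt (fun l j => ι (β c' l j)) z) =
          ∑ l, z l * ι (rel j.1 s * lv (H s) (β c' l)) := by
        intro s
        rw [lv_pt, Finset.mul_sum]
        refine Finset.sum_congr rfl fun l _ => ?_
        have h2 : lv (H s) (fun j => ι (β c' l j)) = ι (lv (H s) (β c' l)) := lv_ext _ _
        rw [h2, map_mul]
        ring
      rw [Finset.sum_congr rfl fun s _ => h1 s, Finset.sum_comm]
      have h3 : ∀ l, ∑ s, z l * ι (rel j.1 s * lv (H s) (β c' l)) =
          ∑ s, ι (μ s) * (z l * lv (H s) (bF l)) := by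
        intro l
        rw [← Finset.mul_sum, ← map_sum, hμ2 l, map_sum, Finset.mul_sum]
        refine Finset.sum_congr rfl fun s _ => ?_
        have h2 : lv (H s) (bF l) = ι (lv (H s) (b l)) := lv_ext _ _
        rw [h2, map_mul]
        ring
      rw [Finset.sum_congr rfl fun l _ => h3 l, Finset.sum_comm]
      refine Finset.sum_eq_zero fun s _ => ?_
      rw [← Finset.mul_sum, ← lv_pt]
      by_cases hs : s ∈ A
      · rw [hζA s hs, mul_zero]
      · rw [hμ1 s (hrelA j.1 j.2 s hs), map_zero, zero_mul]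
  have hcolT : ∀ c, ∃ h : col c ∈ TS G ζ, f ⟨col c, h⟩ = 0 := fun c => hcolT0 (e c)
  let Λ : (Fin (n + 1) → F) →ₗ[F] (Fin M → F) := LinearMap.pi fun l =>
    ∑ c', (col c' l) • LinearMap.proj c'
  have hΛ : ∀ w l, Λ w l = ∑ c', col c' l * w c' := by
    intro w l
    simp only [Λ, LinearMap.pi_apply, LinearMap.sum_apply, LinearMap.smul_apply,
      LinearMap.proj_apply, smul_eq_mul]
  have hrange : LinearMap.range Λ ≤ (LinearMap.ker f).map (TS G ζ).subtype := by
    rintro _ ⟨w, rfl⟩
    have h1 : Λ w = ∑ c', w c' • col c' := by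
      funext l
      rw [hΛ, Finset.sum_apply]
      exact Finset.sum_congr rfl fun c' _ => mul_comm _ _
    rw [h1]
    refine Submodule.sum_mem _ fun c' _ => Submodule.smul_mem _ _ ?_
    obtain ⟨h2, h3⟩ := hcolT c'
    exact ⟨⟨col c', h2⟩, h3, rfl⟩
  have h1 := LinearMap.finrank_range_add_finrank_ker Λ
  rw [Module.finrank_fin_fun] at h1
  have h2 := Submodule.finrank_mono hrange
  have h2' := Submodule.finrank_map_le (TS G ζ).subtype (LinearMap.ker f)
  -- the matrix
  set θ : Fin N → Polynomial F := fun i => if i ∈ A' then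
    Polynomial.C (xx i) * Polynomial.X else Polynomial.C (xx i) with hθ
  set 𝒜 : Matrix (Fin (n + 1)) (Fin (n + 1)) (Polynomial F) :=
    Matrix.of fun x c => Sum.elim (fun l => Polynomial.C (ι (b l (J x))))
      (fun c => ∑ i, θ i * Polynomial.C (ι (pt (β c) (d i) (J x)))) (e c) with h𝒜
  have hdet : aeval θ (pj b (fun c i => pt (β c) (d i)) e J) = 𝒜.det := by
    unfold pj
    rw [AlgHom.map_det]
    refine congrArg Matrix.det (Matrix.ext fun x c => ?_)
    show (aeval θ (bp b (fun c i => pt (β c) (d i)) (J x) (e c))) = 𝒜 x c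
    rw [h𝒜, Matrix.of_apply]
    rcases e c with l | c
    · show aeval θ (C (b l (J x))) = Polynomial.C (ι (b l (J x)))
      rw [aeval_C]
      rfl
    · show aeval θ (∑ i, X i * C (pt (β c) (d i) (J x))) = ∑ i, θ i * Polynomial.C (ι
        (pt (β c) (d i) (J x)))
      rw [map_sum]
      refine Finset.sum_congr rfl fun i _ => ?_
      rw [map_mul, aeval_X, aeval_C]
      rfl
  rw [hdet]
  have hdvd := det_dvd 𝒜 0 R.card (by
    have h5 : Module.finrank F (LinearMap.ker Λ) ≤ Module.finrank F (LinearMap.ker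
        (Matrix.toLin' (𝒜.map (Polynomial.eval 0)))) := by
      refine Submodule.finrank_mono ?_
      intro w hw
      rw [LinearMap.mem_ker, Matrix.toLin'_apply]
      funext x
      have h6 := congrFun (LinearMap.mem_ker.1 hw) (J x)
      rw [hΛ] at h6
      have h8 : ∀ c, Polynomial.eval 0 (𝒜 x c) = col c (J x) := ?_
      · refine Eq.trans ?_ h6
        show ∑ c, Polynomial.eval 0 (𝒜 x c) * w c = _
        exact Finset.sum_congr rfl fun c _ => by rw [h8]
      intro c
      rw [h𝒜, hcol, Matrix.of_apply]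
      simp only
      rcases e c with l | c
      · show Polynomial.eval 0 (Polynomial.C (ι (b l (J x)))) = bF l (J x)
        rw [Polynomial.eval_C]
      · show Polynomial.eval 0 (∑ i, θ i * Polynomial.C (ι (pt (β c) (d i) (J x)))) =
          pt (fun l j => ι (β c l j)) z (J x)
        rw [Polynomial.eval_finsetSum]
        have h7 : ∀ i, Polynomial.eval 0 (θ i * Polynomial.C (ι (pt (β c) (d i) (J x)))) =
            ∑ l, (if i ∈ A' then 0 else xx i * ι (d i l)) * ι (β c l (J x)) := by
          intro i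
          rw [Polynomial.eval_mul, Polynomial.eval_C, hθ]
          simp only
          unfold pt
          split_ifs
          · rw [Polynomial.eval_mul, Polynomial.eval_X, mul_zero, zero_mul]
            simp
          · rw [Polynomial.eval_C, map_sum, Finset.mul_sum]
            refine Finset.sum_congr rfl fun l _ => ?_
            rw [map_mul]
            ring
        rw [Finset.sum_congr rfl fun i _ => h7 i, Finset.sum_comm]
        unfold pt
        refine Finset.sum_congr rfl fun l _ => ?_
        rw [hz]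
        simp only
        rw [Finset.sum_mul]
    omega)
  rw [Polynomial.C_0, sub_zero] at hdvd
  exact hdvd

/-- **the orders of vanishing along the strata** -/
theorem vsh (G : Fin g → MvPolynomial (Fin M) k) (hsm : Sm n G) (H : Fin q → Fin M → K)
    (hnc : NCs G H) (b : Fin N → Fin M → Ω) (hb : LX G b) (I : Fin N → Fin M)
    (hbI : ∀ l l', b l (I l') = if l = l' then 1 else 0)
    (β : Fin ν → Fin N → Fin M → Ω) (hβ : ∀ c, DT G H b (β c))
    (d D : Fin N → Fin N → Ω) (hDd : ∀ i i', ∑ l, D i l * d i' l = if i = i' then 1 else 0)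
    (A' : Finset (Fin N)) (hA' : A' ≠ Finset.univ) (A : Finset (Fin q))
    (hA : ∀ s ∈ A, ∀ i, i ∉ A' → lv (H s) (pt b (d i)) = 0) (R : Finset (Fin q))
    (rel : Fin q → Fin q → Ω) (hrel1 : ∀ j ∈ R, rel j j = 1)
    (hrelA : ∀ j ∈ R, ∀ s, s ∉ A → rel j s = 0)
    (hrelR : ∀ j ∈ R, ∀ j' ∈ R, j' ≠ j → rel j j' = 0)
    (hrel : ∀ j ∈ R, ∀ l, ∑ s, rel j s * lv (H s) (b l) = 0)
    (e : Fin (n + 1) ≃ Fin N ⊕ Fin ν) (J : Fin (n + 1) → Fin M)
    (α : Fin N →₀ ℕ) (hα : α ∈ (pj b (fun c i => pt (β c) (d i)) e J).support) :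
    R.card ≤ ∑ i ∈ A', α i := by
  have hchar : CharZero (FractionRing (MvPolynomial (Fin N) Ω)) :=
    charZero_of_injective_algebraMap
      (algebraMap Ω (FractionRing (MvPolynomial (Fin N) Ω))).injective
  refine ord_of_dvd _ A' R.card ?_ α hα
  exact vsh_aux (F := FractionRing (MvPolynomial (Fin N) Ω)) G hsm H hnc b hb I hbI β hβ d D hDd
    A' hA' A hA R rel hrel1 hrelA hrelR hrel e J
    (fun i => algebraMap (MvPolynomial (Fin N) Ω) (FractionRing (MvPolynomial (Fin N) Ω)) (X i))
    (fun i => (map_ne_zero_iff _ (IsFractionRing.injective (MvPolynomial (Fin N) Ω)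
      (FractionRing (MvPolynomial (Fin N) Ω)))).2 (X_ne_zero i))

end vsh

end Pool.Agent.N750
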