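import Mathlib
import Pool.Agent.N750.Vsh
import Pool.Agent.N750.Grow

/-!
Greedy bases and summation by parts.
-/

set_option autoImplicit false
set_option linter.unusedSectionVars false

namespace Pool.Agent.N750

section abel

/-- summation by parts -/
theorem abel_aux (w : ℕ → ℝ) (hw : ∀ i, w (i + 1) ≤ w i) (x : ℕ → ℝ)
    (hx : ∀ j, 0 ≤ ∑ i ∈ Finset.range j, x i) (j : ℕ) :
    w j * ∑ i ∈ Finset.range j, x i ≤ ∑ i ∈ Finset.range j, x i * w i := by
  induction j with
  | zero => simp
  | succ j ih =>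
    have h1 := hx (j + 1)
    calc w (j + 1) * ∑ i ∈ Finset.range (j + 1), x i ≤
          w j * ∑ i ∈ Finset.range (j + 1), x i := mul_le_mul_of_nonneg_right (hw j) h1
      _ = w j * ∑ i ∈ Finset.range j, x i + x j * w j := by
          rw [Finset.sum_range_succ, mul_add, mul_comm (w j) (x j)]
      _ ≤ _ := by
          rw [Finset.sum_range_succ]
          linarith

/-- **summation by parts** -/
theorem abel_sum {q : ℕ} (w : Fin q → ℝ) (hw : Antitone w) (hw0 : ∀ i, 0 ≤ w i)
    (R : Finset (Fin q)) (a : Fin q → ℕ)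
    (h : ∀ i ∈ R, (R.filter fun j => j ≤ i).card ≤ ∑ j ∈ Finset.univ.filter (fun j => j ≤ i), a j) :
    ∑ i ∈ R, w i ≤ ∑ i, (a i : ℝ) * w i := by
  classical
  -- extension to the natural numbers
  set w' : ℕ → ℝ := fun i => if h : i < q then w ⟨i, h⟩ else 0 with hw'
  set x : ℕ → ℝ := fun i => if h : i < q then (a ⟨i, h⟩ : ℝ) - (if (⟨i, h⟩ : Fin q) ∈ R then 1
    else 0) else 0 with hx
  have h1 : ∀ i, w' (i + 1) ≤ w' i := by
    intro i
    rw [hw']
    simp only
    split_ifs with h1 h2 h2
    · exact hw (by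
        rw [Fin.mk_le_mk]
        omega)
    · omega
    · exact hw0 _
    · exact le_rfl
  -- the partial sums of the multiplicities
  have hcount : ∀ j : ℕ, ((R.filter fun i => i.1 < j).card : ℝ) ≤
      ∑ i ∈ Finset.univ.filter (fun i : Fin q => i.1 < j), (a i : ℝ) := by
    intro j
    rcases (R.filter fun i => i.1 < j).eq_empty_or_nonempty with he | hne
    · rw [he, Finset.card_empty, Nat.cast_zero]
      exact Finset.sum_nonneg fun i _ => Nat.cast_nonneg _
    · set i0 := (R.filter fun i => i.1 < j).max' hne with hi0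
      have hi0m := Finset.max'_mem _ hne
      rw [← hi0, Finset.mem_filter] at hi0m
      have h2 := h i0 hi0m.1
      have h3 : (R.filter fun i => i.1 < j) = R.filter fun i => i ≤ i0 := by
        ext i
        rw [Finset.mem_filter, Finset.mem_filter]
        constructor
        · rintro ⟨h4, h5⟩
          exact ⟨h4, Finset.le_max' _ i (Finset.mem_filter.2 ⟨h4, h5⟩)⟩
        · rintro ⟨h4, h5⟩
          exact ⟨h4, lt_of_le_of_lt h5 hi0m.2⟩
      rw [h3]
      have h6 : ((R.filter fun i => i ≤ i0).card : ℝ) ≤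
          ((∑ i ∈ Finset.univ.filter (fun i => i ≤ i0), a i : ℕ) : ℝ) := by exact_mod_cast h2
      refine h6.trans ?_
      rw [Nat.cast_sum]
      refine Finset.sum_le_sum_of_subset_of_nonneg ?_ fun i _ _ => Nat.cast_nonneg _
      intro i hi
      rw [Finset.mem_filter] at hi ⊢
      exact ⟨hi.1, lt_of_le_of_lt hi.2 hi0m.2⟩
  have hxsum : ∀ j ≤ q, ∀ g : ℕ → ℝ, ∑ i ∈ Finset.range j, x i * g i =
      ∑ i ∈ Finset.univ.filter (fun i : Fin q => i.1 < j), (a i : ℝ) * g i.1 -
        ∑ i ∈ R.filter (fun i => i.1 < j), g i.1 := by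
    intro j hj g
    have e1 : ∑ i ∈ Finset.range j, x i * g i =
        ∑ i ∈ Finset.univ.filter (fun i : Fin q => i.1 < j), x i.1 * g i.1 := by
      refine (Finset.sum_bij (fun (i : Fin q) _ => i.1) ?_ ?_ ?_ ?_).symm
      · intro i hi
        exact Finset.mem_range.2 (Finset.mem_filter.1 hi).2
      · intro i _ i' _ h
        exact Fin.ext h
      · intro i hi
        rw [Finset.mem_range] at hi
        exact ⟨⟨i, by omega⟩, Finset.mem_filter.2 ⟨Finset.mem_univ _, hi⟩, rfl⟩
      · intro i _
        rfl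
    rw [e1]
    have e2 : ∀ i : Fin q, x i.1 * g i.1 = (a i : ℝ) * g i.1 - (if i ∈ R then g i.1 else 0) := by
      intro i
      rw [hx]
      simp only [i.2, dif_pos, Fin.eta]
      split_ifs <;> ring
    rw [Finset.sum_congr rfl fun i _ => e2 i, Finset.sum_sub_distrib]
    congr 1
    rw [← Finset.sum_filter, Finset.filter_filter]
    refine Finset.sum_congr ?_ fun _ _ => rfl
    ext i
    simp only [Finset.mem_filter, Finset.mem_univ, true_and]
    exact and_comm
  have h2 : ∀ j, 0 ≤ ∑ i ∈ Finset.range j, x i := by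
    intro j
    by_cases hj : j ≤ q
    · have e1 := hxsum j hj (fun _ => 1)
      simp only [mul_one] at e1
      rw [e1, Finset.sum_const, nsmul_eq_mul, mul_one]
      have := hcount j
      linarith
    · push Not at hj
      have e1 := hxsum q le_rfl (fun _ => 1)
      simp only [mul_one] at e1
      have e2 : ∑ i ∈ Finset.range j, x i = ∑ i ∈ Finset.range q, x i := by
        symm
        refine Finset.sum_subset (fun i hi => ?_) fun i _ hi => ?_
        · rw [Finset.mem_range] at hi ⊢
          omega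
        · rw [Finset.mem_range] at hi
          rw [hx]
          simp only
          rw [dif_neg hi]
      rw [e2, e1, Finset.sum_const, nsmul_eq_mul, mul_one]
      have := hcount q
      linarith
  have h3 := abel_aux w' h1 x h2 q
  have h4 : w' q = 0 := by
    rw [hw']
    simp
  rw [h4, zero_mul, hxsum q le_rfl] at h3
  have h5 : Finset.univ.filter (fun i : Fin q => i.1 < q) = Finset.univ := by
    ext i
    simp
  have h6 : R.filter (fun i => i.1 < q) = R := by
    ext i
    simp
  rw [h5, h6] at h3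
  have h7 : ∀ i : Fin q, w' i.1 = w i := by
    intro i
    rw [hw']
    simp
  simp only [h7] at h3
  linarith

end abel

section greedy

variable {Ω V : Type} [Field Ω] [AddCommGroup V] [Module Ω V] {q : ℕ}

open Classical in
/-- the greedy basis -/
noncomputable def Bas (Ω : Type) {V : Type} [Field Ω] [AddCommGroup V] [Module Ω V] {q : ℕ}
    (u : Fin q → V) : Finset (Fin q) :=
  Finset.univ.filter fun i => u i ∉ Submodule.span Ω (u '' {j | j < i})

theorem mem_Bas {u : Fin q → V} {i : Fin q} :
    i ∈ Bas Ω u ↔ u i ∉ Submodule.span Ω (u '' {j | j < i}) := by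
  classical
  unfold Bas
  simp only [Finset.mem_filter, Finset.mem_univ, true_and]

theorem span_Bas (u : Fin q → V) (m : ℕ) :
    Submodule.span Ω (u '' {j | j.1 < m}) ≤
      Submodule.span Ω (u '' {j | j ∈ Bas Ω u ∧ j.1 < m}) := by
  induction m with
  | zero =>
    rw [Submodule.span_le]
    rintro _ ⟨j, hj, rfl⟩
    exact absurd hj (Nat.not_lt_zero _)
  | succ m ih =>
    have hmono : Submodule.span Ω (u '' {j | j ∈ Bas Ω u ∧ j.1 < m}) ≤
        Submodule.span Ω (u '' {j | j ∈ Bas Ω u ∧ j.1 < m + 1}) :=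
      Submodule.span_mono (Set.image_mono fun j hj => ⟨hj.1, Nat.lt_succ_of_lt hj.2⟩)
    rw [Submodule.span_le]
    rintro _ ⟨j, hj, rfl⟩
    have hj' : j.1 < m + 1 := hj
    by_cases hB : j ∈ Bas Ω u
    · exact Submodule.subset_span ⟨j, ⟨hB, hj'⟩, rfl⟩
    · rw [mem_Bas, not_not] at hB
      refine hmono (ih (Submodule.span_mono (Set.image_mono fun j' hj'' => ?_) hB))
      have : j' < j := hj''
      show j'.1 < m
      have h2 : j'.1 < j.1 := this
      omega

theorem indep_Bas (u : Fin q → V) : LinearIndependent Ω (fun i : Bas Ω u => u i.1) := by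
  classical
  rw [Fintype.linearIndependent_iff]
  intro c hc
  by_contra hcon
  push Not at hcon
  obtain ⟨i1, hi1⟩ := hcon
  set T : Finset (Bas Ω u) := Finset.univ.filter fun i => c i ≠ 0 with hT
  have hne : T.Nonempty := ⟨i1, Finset.mem_filter.2 ⟨Finset.mem_univ _, hi1⟩⟩
  set i0 := T.max' hne with hi0
  have hi0m : i0 ∈ T := Finset.max'_mem _ _
  have hci0 : c i0 ≠ 0 := (Finset.mem_filter.1 hi0m).2
  refine (mem_Bas.1 i0.2) ?_
  have h1 : u i0.1 = ∑ i ∈ Finset.univ.erase i0, (-(c i / c i0)) • u i.1 := by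
    rw [← Finset.add_sum_erase Finset.univ _ (Finset.mem_univ i0)] at hc
    have h2 : c i0 • u i0.1 = -∑ i ∈ Finset.univ.erase i0, c i • u i.1 :=
      eq_neg_of_add_eq_zero_left hc
    have h3 : u i0.1 = (c i0)⁻¹ • (c i0 • u i0.1) := by
      rw [smul_smul, inv_mul_cancel₀ hci0, one_smul]
    rw [h3, h2, smul_neg, Finset.smul_sum, ← Finset.sum_neg_distrib]
    refine Finset.sum_congr rfl fun i _ => ?_
    rw [smul_smul, neg_smul]
    congr 2
    field_simp
  rw [h1]
  refine Submodule.sum_mem _ fun i hi => ?_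
  by_cases hci : c i = 0
  · rw [hci, zero_div, neg_zero, zero_smul]
    exact Submodule.zero_mem _
  · refine Submodule.smul_mem _ _ (Submodule.subset_span ⟨i.1, ?_, rfl⟩)
    have h4 : i ≤ i0 := Finset.le_max' _ i (Finset.mem_filter.2 ⟨Finset.mem_univ _, hci⟩)
    exact lt_of_le_of_ne h4 (Finset.ne_of_mem_erase hi)

/-- coefficients of the members outside of the greedy basis -/
theorem coef_Bas (u : Fin q → V) (i : Fin q) (hi : i ∉ Bas Ω u) :
    ∃ c : Fin q → Ω, (∀ j, ¬ (j ∈ Bas Ω u ∧ j < i) → c j = 0) ∧ u i = ∑ j, c j • u j := by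
  classical
  rw [mem_Bas, not_not] at hi
  have h1 : u i ∈ Submodule.span Ω (u '' {j | j ∈ Bas Ω u ∧ j.1 < i.1}) := span_Bas u i.1 hi
  rw [Finsupp.mem_span_image_iff_linearCombination] at h1
  obtain ⟨l, hl, hl2⟩ := h1
  refine ⟨fun j => l j, fun j hj => ?_, ?_⟩
  · by_contra h
    exact hj (hl (Finsupp.mem_support_iff.2 h))
  · rw [← hl2, Finsupp.linearCombination_apply]
    exact Finsupp.sum_fintype l (fun i a => a • u i) (fun j => zero_smul _ _)

end greedy

end Pool.Agent.N750
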