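import Mathlib
import Pool.Agent.N750.Germ
import Pool.Agent.N750.Loc
import Pool.Agent.N750.Grd

/-!
Local bounds for sums with slow coefficients.
-/

set_option autoImplicit false
set_option linter.unusedSectionVars false

open Finset Filter Topology

namespace Pool.Agent.N750

open NumberField IsDedekindDomain Height Module
open Pool.Agent.W180.OP (Pl av wt nrm le_nrm nrm_pos wt_nonneg exists_nrm)

variable {α : Type} {𝓕 : Ultrafilter α} {K : Type} [Field K] [NumberField K] {H : α → ℝ}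

/-- sums with slow coefficients -/
theorem sum_bound (hH : Tendsto H 𝓕 atTop) (v : Pl K) {T : Type} (s : Finset T)
    (c m : T → α → K) (hc : ∀ i ∈ s, Slow 𝓕 H (c i)) (f : α → K)
    (hf : ∀ᶠ t in (𝓕 : Filter α), f t = ∑ i ∈ s, c i t * m i t) {ε : ℝ} (hε : 0 < ε) :
    ∀ᶠ t in (𝓕 : Filter α), f t ≠ 0 → ∃ i ∈ s, m i t ≠ 0 ∧
      wt v * Real.log (av v (f t)) ≤ wt v * Real.log (av v (m i t)) + ε * H t := by
  classical
  have h1 : ∀ᶠ t in (𝓕 : Filter α), ∀ i ∈ s, |wt v * Real.log (av v (c i t))| ≤ ε / 2 * H t := by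
    rw [Filter.eventually_all_finset]
    intro i hi
    exact (hc i hi).loc v (by linarith)
  filter_upwards [hf, h1, hH.eventually_ge_atTop
    (wt v * Real.log (s.card + 1) / (ε / 2))] with t h2 h3 h4 h5
  rw [div_le_iff₀ (by linarith)] at h4
  have hs : s.Nonempty := by
    rw [Finset.nonempty_iff_ne_empty]
    rintro rfl
    rw [Finset.sum_empty] at h2
    exact h5 h2
  obtain ⟨i, hi, hmax⟩ := Finset.exists_max_image s (fun i => av v (c i t * m i t)) hs
  have h6 : av v (f t) ≤ (s.card + 1) * av v (c i t * m i t) := by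
    rw [h2]
    calc av v (∑ i ∈ s, c i t * m i t) ≤ ∑ i ∈ s, av v (c i t * m i t) := (av v).sum_le _ _
      _ ≤ ∑ _j ∈ s, av v (c i t * m i t) := Finset.sum_le_sum hmax
      _ = s.card * av v (c i t * m i t) := by rw [Finset.sum_const, nsmul_eq_mul]
      _ ≤ (s.card + 1) * av v (c i t * m i t) :=
        mul_le_mul_of_nonneg_right (by linarith) ((av v).nonneg _)
  have h7 : 0 < av v (f t) := (av v).pos_iff.2 h5
  have h8 : c i t * m i t ≠ 0 := by
    intro h
    rw [h, map_zero, mul_zero] at h6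
    linarith
  have hc0 : c i t ≠ 0 := left_ne_zero_of_mul h8
  have hm0 : m i t ≠ 0 := right_ne_zero_of_mul h8
  refine ⟨i, hi, hm0, ?_⟩
  have h9 := Real.log_le_log h7 h6
  rw [map_mul, Real.log_mul (by positivity) (mul_pos ((av v).pos_iff.2 hc0)
    ((av v).pos_iff.2 hm0)).ne', Real.log_mul ((av v).pos_iff.2 hc0).ne'
    ((av v).pos_iff.2 hm0).ne'] at h9
  have h10 := mul_le_mul_of_nonneg_left h9 (wt_nonneg v)
  have h11 := (abs_le.1 (h3 i hi)).2
  linarith

/-- **the comparison of the order of vanishing with the proximity** -/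
theorem ord_bound {q N ν : ℕ} (B R : Finset (Fin q)) (hBR : Disjoint B R) (e0 : Fin q → Fin N)
    (he0 : ∀ i ∈ B, ∀ j ∈ B, e0 i = e0 j → i = j) (w : Fin q → ℝ) (hw : Antitone w)
    (w' : Fin N → ℝ) (hw'B : ∀ i ∈ B, w' (e0 i) = w i)
    (hw'0 : ∀ a, (∀ i ∈ B, e0 i ≠ a) → 0 ≤ w' a) (E : ℝ) (hE : 0 ≤ E) (hwE : ∀ i, -E ≤ w i)
    (hirr : ∀ i, i ∉ B → i ∉ R → w i ≤ E) (m : Fin N → ℕ) (hm : ∑ a, m a = ν)
    (hmR : ∀ i ∈ R, (R.filter fun j => j ≤ i).card ≤ ∑ j ∈ B.filter (fun j => j ≤ i), m (e0 j)) :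
    ∑ i, w i ≤ ∑ a, w' a + ∑ a, m a * w' a + (ν + q) * E := by
  classical
  -- the sums over the basis
  have hB : ∀ f : Fin N → ℝ, ∑ a ∈ B.image e0, f a = ∑ i ∈ B, f (e0 i) := by
    intro f
    exact Finset.sum_image (fun i hi j hj h => he0 i hi j hj h)
  have hnot : ∀ a, a ∉ B.image e0 → 0 ≤ w' a := by
    intro a ha
    refine hw'0 a fun i hi h => ha ?_
    exact Finset.mem_image.2 ⟨i, hi, h⟩
  have h1 : ∑ i ∈ B, w i ≤ ∑ a, w' a := by
    calc ∑ i ∈ B, w i = ∑ i ∈ B, w' (e0 i) := Finset.sum_congr rfl fun i hi => (hw'B i hi).symm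
      _ = ∑ a ∈ B.image e0, w' a := (hB _).symm
      _ ≤ ∑ a, w' a := Finset.sum_le_sum_of_subset_of_nonneg (Finset.subset_univ _)
        fun a _ ha => hnot a ha
  have h2 : ∑ i ∈ B, (m (e0 i) : ℝ) * w i ≤ ∑ a, m a * w' a := by
    calc ∑ i ∈ B, (m (e0 i) : ℝ) * w i = ∑ i ∈ B, (m (e0 i) : ℝ) * w' (e0 i) :=
          Finset.sum_congr rfl fun i hi => by rw [hw'B i hi]
      _ = ∑ a ∈ B.image e0, (m a : ℝ) * w' a := (hB (fun a => (m a : ℝ) * w' a)).symm
      _ ≤ ∑ a, m a * w' a := Finset.sum_le_sum_of_subset_of_nonneg (Finset.subset_univ _)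
        fun a _ ha => mul_nonneg (Nat.cast_nonneg _) (hnot a ha)
  have h3 : ∑ i ∈ R, w i ≤ ∑ i ∈ B, (m (e0 i) : ℝ) * w i + ν * E := by
    have h4 := abel_sum (fun i => w i + E) (fun i j hij => by
      have := hw hij
      show w j + E ≤ w i + E
      linarith) (fun i => by
      have := hwE i
      show 0 ≤ w i + E
      linarith) R (fun i => if i ∈ B then m (e0 i) else 0) (by
      intro i hi
      refine (hmR i hi).trans (le_of_eq ?_)
      rw [Finset.sum_ite, Finset.sum_const_zero, add_zero]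
      refine Finset.sum_congr ?_ fun _ _ => rfl
      ext j
      rw [Finset.mem_filter, Finset.mem_filter, Finset.mem_filter]
      constructor
      · rintro ⟨h, h'⟩
        exact ⟨⟨Finset.mem_univ _, h'⟩, h⟩
      · rintro ⟨⟨_, h⟩, h'⟩
        exact ⟨h', h⟩)
    have h5 : ∑ i, ((if i ∈ B then m (e0 i) else 0 : ℕ) : ℝ) * (w i + E) =
        ∑ i ∈ B, (m (e0 i) : ℝ) * (w i + E) := by
      rw [← Finset.sum_subset (Finset.subset_univ B)]
      · refine Finset.sum_congr rfl fun i hi => ?_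
        rw [if_pos hi]
      · intro i _ hi
        rw [if_neg hi, Nat.cast_zero, zero_mul]
    rw [h5] at h4
    simp only [mul_add] at h4
    rw [Finset.sum_add_distrib, Finset.sum_add_distrib, ← Finset.sum_mul, Finset.sum_const,
      nsmul_eq_mul] at h4
    have h6 : (∑ i ∈ B, (m (e0 i) : ℝ)) ≤ ν := by
      rw [← hB (fun a => (m a : ℝ)), ← hm]
      push_cast
      exact Finset.sum_le_sum_of_subset_of_nonneg (Finset.subset_univ _)
        fun a _ _ => Nat.cast_nonneg _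
    have h7 := mul_le_mul_of_nonneg_right h6 hE
    have h8 : 0 ≤ (R.card : ℝ) * E := by positivity
    linarith
  have h4 : ∑ i, w i = ∑ i ∈ B, w i + (∑ i ∈ R, w i + ∑ i ∈ (B ∪ R)ᶜ, w i) := by
    rw [← add_assoc, ← Finset.sum_union hBR, Finset.sum_add_sum_compl]
  have h5 : ∑ i ∈ (B ∪ R)ᶜ, w i ≤ q * E := by
    calc ∑ i ∈ (B ∪ R)ᶜ, w i ≤ ∑ _i ∈ (B ∪ R)ᶜ, E := by
          refine Finset.sum_le_sum fun i hi => ?_
          rw [Finset.mem_compl, Finset.mem_union, not_or] at hi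
          exact hirr i hi.1 hi.2
      _ ≤ q * E := by
          rw [Finset.sum_const, nsmul_eq_mul]
          refine mul_le_mul_of_nonneg_right ?_ hE
          have := Finset.card_le_univ (B ∪ R)ᶜ
          rw [Fintype.card_fin] at this
          exact_mod_cast this
  rw [h4]
  linarith

end Pool.Agent.N750
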