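import Mathlib
import Pool.Agent.N750.Dfm
import Pool.Agent.N750.Geo

/-!
The exceptional set for the tangent spaces along linear subspaces.
-/

set_option autoImplicit false
set_option linter.unusedSectionVars false

namespace Pool.Agent.N750

open MvPolynomial Filter

/-- every tangent vector at the point comes from a deformation -/
def Good {k K Ω : Type} [Field k] [Field K] [Field Ω] [Algebra k K] [Algebra k Ω] [Algebra K Ω]
    {M N g q : ℕ} (G : Fin g → MvPolynomial (Fin M) k) (H : Fin q → Fin M → K)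
    (b : Fin N → Fin M → Ω) (y : Fin N → Ω) : Prop :=
  ∀ τ ∈ TS G (pt b y), ∃ (c : Fin N → Ω) (β : Fin N → Fin M → Ω),
    DT G H b β ∧ τ = pt b c + pt β y

section germs

variable {k K : Type} [Field k] [Field K] [Algebra k K] {α : Type} {𝓕 : Ultrafilter α}

/-- values of polynomials at germs -/
theorem aeval_mk {M : ℕ} [Algebra k (Gm 𝓕 K)] [IsScalarTower k K (Gm 𝓕 K)]
    (f : Fin M → α → K) (P : MvPolynomial (Fin M) k) :
    aeval (fun j => mk 𝓕 (f j)) P = mk 𝓕 (fun t => aeval (fun j => f j t) P) := by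
  let mkA : (α → K) →ₐ[k] Gm 𝓕 K := { mk 𝓕 with
    commutes' := fun c => by
      rw [IsScalarTower.algebraMap_apply k K (Gm 𝓕 K), algebraMap_gm]
      rfl }
  let evA : ∀ s : α, (α → K) →ₐ[k] K := fun s =>
    { Pi.evalRingHom (fun _ : α => K) s with commutes' := fun c => rfl }
  have h1 := MvPolynomial.comp_aeval_apply f mkA P
  have h2 : aeval f P = fun t => aeval (fun j => f j t) P := by
    funext t
    exact MvPolynomial.comp_aeval_apply f (evA t) P
  rw [h2] at h1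
  exact h1.symm

theorem sum_mk {ι : Type} (s : Finset ι) (f : ι → α → K) :
    ∑ i ∈ s, mk 𝓕 (f i) = mk 𝓕 (fun t => ∑ i ∈ s, f i t) := by
  rw [← map_sum]
  congr 1
  funext t
  rw [Finset.sum_apply]

theorem pt_mk {M N : ℕ} (b : Fin N → Fin M → α → K) (Y : Fin N → α → K) :
    pt (fun l j => mk 𝓕 (b l j)) (fun l => mk 𝓕 (Y l)) =
      fun j => mk 𝓕 (fun t => pt (fun l j => b l j t) (fun l => Y l t) j) := by
  funext j
  unfold pt
  rw [← sum_mk]
  refine Finset.sum_congr rfl fun l _ => ?_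
  rw [← map_mul]
  rfl

theorem lv_mk {M : ℕ} (h : Fin M → K) (z : Fin M → α → K) :
    lv h (fun j => mk 𝓕 (z j)) = mk 𝓕 (fun t => lv h (fun j => z j t)) := by
  unfold lv
  rw [← sum_mk]
  refine Finset.sum_congr rfl fun l _ => ?_
  rw [algebraMap_gm, ← map_mul]
  rfl

/-- tangency of germs -/
theorem TS_mk {M g : ℕ} [Algebra k (Gm 𝓕 K)] [IsScalarTower k K (Gm 𝓕 K)]
    (G : Fin g → MvPolynomial (Fin M) k) (z v : Fin M → α → K) :
    (fun j => mk 𝓕 (v j)) ∈ TS G (fun j => mk 𝓕 (z j)) ↔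
      ∀ᶠ t in (𝓕 : Filter α), (fun j => v j t) ∈ TS G (fun j => z j t) := by
  have h1 : ∀ i, (∑ j, aeval (fun j => mk 𝓕 (z j)) (pderiv j (G i)) * mk 𝓕 (v j) = 0 ↔
      ∀ᶠ t in (𝓕 : Filter α), ∑ j, aeval (fun j => z j t) (pderiv j (G i)) * v j t = 0) := by
    intro i
    have h2 : ∑ j, aeval (fun j => mk 𝓕 (z j)) (pderiv j (G i)) * mk 𝓕 (v j) =
        mk 𝓕 (fun t => ∑ j, aeval (fun j => z j t) (pderiv j (G i)) * v j t) := by
      rw [← sum_mk]
      refine Finset.sum_congr rfl fun j _ => ?_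
      rw [aeval_mk, ← map_mul]
      rfl
    rw [h2]
    exact mk_eq_zero
  rw [mem_TS]
  simp only [h1]
  rw [← Filter.eventually_all]
  exact Iff.rfl

end germs


/-- linear spaces on the variety, germs -/
theorem LX_mk {k K : Type} [Field k] [Field K] [Algebra k K] {α : Type} {𝓕 : Ultrafilter α}
    {M N g : ℕ} [Algebra k (Gm 𝓕 K)] [IsScalarTower k K (Gm 𝓕 K)]
    (G : Fin g → MvPolynomial (Fin M) k) (b : Fin N → Fin M → α → K)
    (h : ∀ᶠ t in (𝓕 : Filter α), LX G (fun l j => b l j t)) :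
    LX G (fun l j => mk 𝓕 (b l j)) := by
  intro Y i
  choose Y' hY' using fun l => mk_surj (Y l)
  have h1 : Y = fun l => mk 𝓕 (Y' l) := by
    funext l
    exact (hY' l).symm
  rw [h1, pt_mk, aeval_mk]
  refine mk_eq_zero.2 ?_
  filter_upwards [h] with t ht
  exact ht _ i

/-- deformations, from the members to the germs -/
theorem DT_mk {k K : Type} [Field k] [Field K] [Algebra k K] {α : Type} {𝓕 : Ultrafilter α}
    {M N g q : ℕ} [Algebra k (Gm 𝓕 K)] [IsScalarTower k K (Gm 𝓕 K)]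
    (G : Fin g → MvPolynomial (Fin M) k) (H : Fin q → Fin M → K)
    (b β : Fin N → Fin M → α → K)
    (h : ∀ᶠ t in (𝓕 : Filter α), DT G H (fun l j => b l j t) (fun l j => β l j t)) :
    DT G H (fun l j => mk 𝓕 (b l j)) (fun l j => mk 𝓕 (β l j)) := by
  classical
  refine ⟨fun Y => ?_, fun c hc => ?_⟩
  · choose Y' hY' using fun l => mk_surj (Y l)
    have h1 : Y = fun l => mk 𝓕 (Y' l) := by
      funext l
      exact (hY' l).symm
    rw [h1, pt_mk, pt_mk, TS_mk]
    filter_upwards [h] with t ht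
    exact ht.1 _
  · choose c' hc' using fun s => mk_surj (c s)
    have h1 : c = fun s => mk 𝓕 (c' s) := by
      funext s
      exact (hc' s).symm
    have h2 : ∀ l (z : Fin q → α → K) (w : Fin N → Fin M → α → K),
        ∑ s, mk 𝓕 (z s) * lv (H s) ((fun l j => mk 𝓕 (w l j)) l) =
        mk 𝓕 (fun t => ∑ s, z s t * lv (H s) (fun j => w l j t)) := by
      intro l z w
      rw [← sum_mk]
      refine Finset.sum_congr rfl fun s _ => ?_
      rw [lv_mk, ← map_mul]
      rfl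
    rw [h1] at hc ⊢
    have h3 : ∀ᶠ t in (𝓕 : Filter α), ∀ l, ∑ s, c' s t * lv (H s) (fun j => b l j t) = 0 := by
      rw [Filter.eventually_all]
      intro l
      have h4 := hc l
      rw [h2 l c' b] at h4
      exact mk_eq_zero.1 h4
    have h4 : ∀ t : α, ∃ μ : Fin q → K, (∀ᶠ t in (𝓕 : Filter α), True) ∧
        ((DT G H (fun l j => b l j t) (fun l j => β l j t) ∧
          ∀ l, ∑ s, c' s t * lv (H s) (fun j => b l j t) = 0) →
          (∀ s, c' s t = 0 → μ s = 0) ∧ ∀ l, ∑ s, c' s t * lv (H s) (fun j => β l j t) =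
            ∑ s, μ s * lv (H s) (fun j => b l j t)) := by
      intro t
      by_cases h5 : DT G H (fun l j => b l j t) (fun l j => β l j t) ∧
          ∀ l, ∑ s, c' s t * lv (H s) (fun j => b l j t) = 0
      · obtain ⟨μ, hμ⟩ := h5.1.2 (fun s => c' s t) h5.2
        exact ⟨μ, Eventually.of_forall fun _ => trivial, fun _ => hμ⟩
      · exact ⟨0, Eventually.of_forall fun _ => trivial, fun h6 => absurd h6 h5⟩
    choose μ hμ0 hμ using h4
    refine ⟨fun s => mk 𝓕 (fun t => μ t s), fun s hs => ?_, fun l => ?_⟩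
    · refine mk_eq_zero.2 ?_
      filter_upwards [h, h3, mk_eq_zero.1 hs] with t h5 h6 h7
      exact (hμ t ⟨h5, h6⟩).1 s h7
    · rw [h2 l c' β, h2 l (fun s t => μ t s) b]
      refine mk_eq.2 ?_
      filter_upwards [h, h3] with t h5 h6
      exact (hμ t ⟨h5, h6⟩).2 l

/-- **the exceptional set for the tangent spaces along linear subspaces** -/
theorem geo2 {k K : Type} [Field k] [Field K] [CharZero K] [Algebra k K]
    [Algebra.IsAlgebraic k K] {M g q : ℕ} (N : ℕ)
    (G : Fin g → MvPolynomial (Fin M) k) (e : Fin g → ℕ) (hG : ∀ i, (G i).IsHomogeneous (e i))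
    (hI : (Ideal.span (Set.range G)).IsPrime) (H : Fin q → Fin M → K) :
    ∃ (m : ℕ) (Φ : MvPolynomial (Fin M) k), Φ.IsHomogeneous m ∧
      Φ ∉ Ideal.span (Set.range G) ∧ ∀ (b : Fin N → Fin M → K) (y : Fin N → K), LX G b →
      aeval (pt b y) Φ ≠ 0 → Good G H b y := by
  classical
  by_contra hcon
  push Not at hcon
  let PP : Type := {P : MvPolynomial (Fin M) k // (∃ m, P.IsHomogeneous m) ∧
    P ∉ Ideal.span (Set.range G)}
  let α : Type := Finset PP
  have hprod : ∀ s : α, (∃ m, (∏ P ∈ s, P.1).IsHomogeneous m) ∧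
      (∏ P ∈ s, P.1) ∉ Ideal.span (Set.range G) := by
    intro s
    constructor
    · choose m hm using fun P : PP => P.2.1
      exact ⟨_, MvPolynomial.IsHomogeneous.prod s (fun P => P.1) (fun P => m P) fun P _ => hm P⟩
    · intro h
      rw [hI.prod_mem_iff] at h
      obtain ⟨P, -, hP⟩ := h
      exact P.2.2 hP
  have hviol : ∀ s : α, ∃ (b : Fin N → Fin M → K) (y : Fin N → K) (τ : Fin M → K), LX G b ∧
      aeval (pt b y) (∏ P ∈ s, P.1) ≠ 0 ∧ τ ∈ TS G (pt b y) ∧
      ∀ (c : Fin N → K) (β : Fin N → Fin M → K), DT G H b β → τ ≠ pt b c + pt β y := by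
    intro s
    obtain ⟨⟨m, hm⟩, hΦ⟩ := hprod s
    obtain ⟨b, y, h1, h2, h3⟩ := hcon m _ hm hΦ
    unfold Good at h3
    push Not at h3
    obtain ⟨τ, h4, h5⟩ := h3
    exact ⟨b, y, τ, h1, h2, h4, h5⟩
  choose b y τ h1 h2 h3 h4 using hviol
  obtain ⟨𝓕, h𝓕⟩ : ∃ 𝓕 : Ultrafilter α, (𝓕 : Filter α) ≤ atTop :=
    ⟨Ultrafilter.of atTop, Ultrafilter.of_le atTop⟩
  let 𝕂 := Gm 𝓕 K
  let _ : Algebra k 𝕂 := ((algebraMap K 𝕂).comp (algebraMap k K)).toAlgebra
  have htow : IsScalarTower k K 𝕂 := IsScalarTower.of_algebraMap_eq fun x => rfl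
  have hchar : CharZero 𝕂 := charZero_of_injective_algebraMap (algebraMap K 𝕂).injective
  have hpt : pt (fun l j => mk 𝓕 (fun s => b s l j)) (fun l => mk 𝓕 (fun s => y s l)) =
      fun j => mk 𝓕 (fun s => pt (b s) (y s) j) := pt_mk _ _
  obtain ⟨c, β, hβ, hτ⟩ := dfm_gen (𝕂 := 𝕂) G e hG H (fun l j => mk 𝓕 (fun s => b s l j))
    (fun l => mk 𝓕 (fun s => y s l)) (LX_mk G _ (Eventually.of_forall fun s => h1 s)) (by
      intro P m hPm hPI hzero
      rw [hpt, aeval_mk] at hzero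
      have e1 := mk_eq_zero.1 hzero
      have e2 : ∀ᶠ s in (𝓕 : Filter α), ({⟨P, ⟨m, hPm⟩, hPI⟩} : Finset PP) ≤ s :=
        h𝓕 (eventually_ge_atTop _)
      obtain ⟨s, hs1, hs2⟩ := (e1.and e2).exists
      apply h2 s
      rw [map_prod]
      exact Finset.prod_eq_zero (hs2 (Finset.mem_singleton_self _)) hs1)
    (fun j => mk 𝓕 (fun s => τ s j)) (by
      rw [hpt, TS_mk]
      exact Eventually.of_forall fun s => h3 s)
  -- lifting
  choose c' hc' using fun l => mk_surj (c l)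
  choose β' hβ' using fun l j => mk_surj (β l j)
  have hc : c = fun l => mk 𝓕 (c' l) := by
    funext l
    exact (hc' l).symm
  have hβ1 : β = fun l j => mk 𝓕 (β' l j) := by
    funext l j
    exact (hβ' l j).symm
  rw [hβ1] at hβ
  have hτ' : ∀ᶠ s in (𝓕 : Filter α), τ s = pt (b s) (fun l => c' l s) +
      pt (fun l j => β' l j s) (y s) := by
    have e1 : ∀ᶠ s in (𝓕 : Filter α), ∀ j, τ s j = pt (b s) (fun l => c' l s) j +
        pt (fun l j => β' l j s) (y s) j := by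
      rw [Filter.eventually_all]
      intro j
      have e2 := congrFun hτ j
      rw [Pi.add_apply, hc, hβ1, pt_mk, pt_mk, ← map_add] at e2
      exact mk_eq.1 e2
    filter_upwards [e1] with s hs
    funext j
    exact hs j
  -- the deformations fail
  have hbad : ∀ᶠ s in (𝓕 : Filter α), ¬ DT G H (b s) (fun l j => β' l j s) := by
    filter_upwards [hτ'] with s hs hDT
    exact h4 s _ _ hDT hs
  have hbad2 : (∀ᶠ s in (𝓕 : Filter α), ∃ Y, pt (fun l j => β' l j s) Y ∉ TS G (pt (b s) Y)) ∨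
      ∀ᶠ s in (𝓕 : Filter α), ∃ c : Fin q → K, (∀ l, ∑ i, c i * lv (H i) (b s l) = 0) ∧
        ∀ μ : Fin q → K, (∀ i, c i = 0 → μ i = 0) →
          ∃ l, ∑ i, c i * lv (H i) (fun j => β' l j s) ≠ ∑ i, μ i * lv (H i) (b s l) := by
    rw [← Ultrafilter.eventually_or]
    filter_upwards [hbad] with s hs
    by_contra hcon
    push Not at hcon
    exact hs ⟨hcon.1, hcon.2⟩
  rcases hbad2 with hbad2 | hbad2
  · have e1 : ∀ s, ∃ Y, (∃ Y, pt (fun l j => β' l j s) Y ∉ TS G (pt (b s) Y)) →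
        pt (fun l j => β' l j s) Y ∉ TS G (pt (b s) Y) := by
      intro s
      by_cases h : ∃ Y, pt (fun l j => β' l j s) Y ∉ TS G (pt (b s) Y)
      · obtain ⟨Y, hY⟩ := h
        exact ⟨Y, fun _ => hY⟩
      · exact ⟨0, fun h' => absurd h' h⟩
    choose Y hY using e1
    have e2 := hβ.1 (fun l => mk 𝓕 (fun s => Y s l))
    rw [pt_mk, pt_mk, TS_mk] at e2
    obtain ⟨s, hs1, hs2⟩ := (hbad2.and e2).exists
    exact hY s hs1 hs2
  · have e1 : ∀ s, ∃ c : Fin q → K, (∃ c : Fin q → K, (∀ l, ∑ i, c i * lv (H i) (b s l) = 0) ∧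
        ∀ μ : Fin q → K, (∀ i, c i = 0 → μ i = 0) →
          ∃ l, ∑ i, c i * lv (H i) (fun j => β' l j s) ≠ ∑ i, μ i * lv (H i) (b s l)) →
        (∀ l, ∑ i, c i * lv (H i) (b s l) = 0) ∧
        ∀ μ : Fin q → K, (∀ i, c i = 0 → μ i = 0) →
          ∃ l, ∑ i, c i * lv (H i) (fun j => β' l j s) ≠ ∑ i, μ i * lv (H i) (b s l) := by
      intro s
      by_cases h : ∃ c : Fin q → K, (∀ l, ∑ i, c i * lv (H i) (b s l) = 0) ∧
        ∀ μ : Fin q → K, (∀ i, c i = 0 → μ i = 0) →
          ∃ l, ∑ i, c i * lv (H i) (fun j => β' l j s) ≠ ∑ i, μ i * lv (H i) (b s l)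
      · obtain ⟨c, hc⟩ := h
        exact ⟨c, fun _ => hc⟩
      · exact ⟨0, fun h' => absurd h' h⟩
    choose cs hcs using e1
    have h2' : ∀ l (z : Fin q → α → K) (w : Fin N → Fin M → α → K),
        ∑ s, mk 𝓕 (z s) * lv (H s) ((fun l j => mk 𝓕 (w l j)) l) =
        mk 𝓕 (fun t => ∑ s, z s t * lv (H s) (fun j => w l j t)) := by
      intro l z w
      rw [← sum_mk]
      refine Finset.sum_congr rfl fun s _ => ?_
      rw [lv_mk, ← map_mul]
      rfl
    obtain ⟨μ, hμ1, hμ2⟩ := hβ.2 (fun i => mk 𝓕 (fun s => cs s i)) (by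
      intro l
      rw [h2' l (fun i s => cs s i) (fun l j s => b s l j)]
      refine mk_eq_zero.2 ?_
      filter_upwards [hbad2] with s hs
      exact (hcs s hs).1 l)
    choose μ' hμ' using fun i => mk_surj (μ i)
    have hμe : μ = fun i => mk 𝓕 (μ' i) := by
      funext i
      exact (hμ' i).symm
    have e3 : ∀ᶠ s in (𝓕 : Filter α), ∀ i, cs s i = 0 → μ' i s = 0 := by
      rw [Filter.eventually_all]
      intro i
      by_cases h : ∀ᶠ s in (𝓕 : Filter α), cs s i = 0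
      · have e4 := hμ1 i (mk_eq_zero.2 h)
        rw [hμe] at e4
        filter_upwards [mk_eq_zero.1 e4] with s hs _
        exact hs
      · filter_upwards [Ultrafilter.eventually_not.2 h] with s hs hs'
        exact absurd hs' hs
    have e5 : ∀ᶠ s in (𝓕 : Filter α), ∀ l, ∑ i, cs s i * lv (H i) (fun j => β' l j s) =
        ∑ i, μ' i s * lv (H i) (b s l) := by
      rw [Filter.eventually_all]
      intro l
      have e6 := hμ2 l
      rw [hμe] at e6
      rw [h2' l (fun i s => cs s i) β', h2' l μ' (fun l j s => b s l j)] at e6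
      exact mk_eq.1 e6
    obtain ⟨s, hs1, hs2, hs3⟩ := (hbad2.and (e3.and e5)).exists
    obtain ⟨l, hl⟩ := (hcs s hs1).2 (fun i => μ' i s) hs2
    exact hl (hs3 l)

end Pool.Agent.N750
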