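import Mathlib
import Pool.Agent.N750.Vsh
import Pool.Agent.N750.Trf

/-!
Slow bases of the tangent spaces along linear subspaces.
-/

set_option autoImplicit false
set_option linter.unusedSectionVars false

namespace Pool.Agent.N750

open MvPolynomial

variable {k K 𝕊 𝕂 : Type} [Field k] [Field K] [Field 𝕊] [Field 𝕂] [CharZero 𝕊] [CharZero 𝕂]
  [Algebra k K] [Algebra k 𝕊] [Algebra K 𝕊] [Algebra k 𝕂] [Algebra K 𝕂] [Algebra 𝕊 𝕂]
  [IsScalarTower k K 𝕊] [IsScalarTower k 𝕊 𝕂] [IsScalarTower K 𝕊 𝕂] {M N g q n : ℕ}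

/-- points over an extension -/
theorem pt_ext (b : Fin N → Fin M → 𝕊) (Y : Fin N → 𝕊) :
    pt (fun l j => algebraMap 𝕊 𝕂 (b l j)) (fun l => algebraMap 𝕊 𝕂 (Y l)) =
      fun j => algebraMap 𝕊 𝕂 (pt b Y j) := by
  funext j
  unfold pt
  rw [map_sum]
  exact Finset.sum_congr rfl fun l _ => (map_mul _ _ _).symm

theorem aeval_ext (z : Fin M → 𝕊) (P : MvPolynomial (Fin M) k) :
    aeval (fun j => algebraMap 𝕊 𝕂 (z j)) P = algebraMap 𝕊 𝕂 (aeval z P) := by
  have h1 := MvPolynomial.comp_aeval_apply z (IsScalarTower.toAlgHom k 𝕊 𝕂) P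
  exact h1.symm

/-- projections of deformations -/
theorem DT_proj (G : Fin g → MvPolynomial (Fin M) k) (H : Fin q → Fin M → K)
    (b : Fin N → Fin M → 𝕊) (β : Fin N → Fin M → 𝕂)
    (h : DT G H (fun l j => algebraMap 𝕊 𝕂 (b l j)) β) (φ : 𝕂 →ₗ[𝕊] 𝕊) :
    DT G H b (fun l j => φ (β l j)) := by
  have hφ : ∀ (a : 𝕊) (w : 𝕂), φ (algebraMap 𝕊 𝕂 a * w) = a * φ w := by
    intro a w
    have h1 := φ.map_smul a w
    rw [Algebra.smul_def, smul_eq_mul] at h1
    exact h1
  have hlv : ∀ s l, lv (H s) (fun j => φ (β l j)) = φ (lv (H s) (β l)) := by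
    intro s l
    unfold lv
    rw [map_sum]
    refine Finset.sum_congr rfl fun j _ => ?_
    rw [IsScalarTower.algebraMap_apply K 𝕊 𝕂, hφ]
  refine ⟨fun Y i => ?_, fun c hc => ?_⟩
  · have h1 := h.1 (fun l => algebraMap 𝕊 𝕂 (Y l)) i
    rw [pt_ext] at h1
    have h2 : ∑ j, aeval (pt b Y) (pderiv j (G i)) * pt (fun l j => φ (β l j)) Y j =
        φ (∑ j, aeval (fun j => algebraMap 𝕊 𝕂 (pt b Y j)) (pderiv j (G i)) *
          pt β (fun l => algebraMap 𝕊 𝕂 (Y l)) j) := by
      rw [map_sum]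
      refine Finset.sum_congr rfl fun j _ => ?_
      rw [aeval_ext, hφ]
      congr 1
      unfold pt
      rw [map_sum]
      exact Finset.sum_congr rfl fun l _ => (hφ _ _).symm
    rw [h2, h1, map_zero]
  · obtain ⟨μ, hμ1, hμ2⟩ := h.2 (fun s => algebraMap 𝕊 𝕂 (c s)) (by
      intro l
      have h1 : ∑ s, algebraMap 𝕊 𝕂 (c s) * lv (H s) ((fun l j => algebraMap 𝕊 𝕂 (b l j)) l) =
          algebraMap 𝕊 𝕂 (∑ s, c s * lv (H s) (b l)) := by
        rw [map_sum]
        refine Finset.sum_congr rfl fun s _ => ?_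
        rw [map_mul, lv_ext]
      rw [h1, hc l, map_zero])
    refine ⟨fun s => φ (μ s), fun s hs => ?_, fun l => ?_⟩
    · simp only
      rw [hμ1 s (by rw [hs, map_zero]), map_zero]
    · have h1 := congrArg φ (hμ2 l)
      rw [map_sum, map_sum] at h1
      have h2 : ∀ s, φ (algebraMap 𝕊 𝕂 (c s) * lv (H s) (β l)) =
          c s * lv (H s) (fun j => φ (β l j)) := by
        intro s
        rw [hφ, hlv]
      have h3 : ∀ s, φ (μ s * lv (H s) ((fun l j => algebraMap 𝕊 𝕂 (b l j)) l)) =
          φ (μ s) * lv (H s) (b l) := by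
        intro s
        rw [lv_ext, mul_comm, hφ, mul_comm]
      rw [Finset.sum_congr rfl fun s _ => h2 s, Finset.sum_congr rfl fun s _ => h3 s] at h1
      exact h1

/-- **a slow basis of the tangent space** -/
theorem slow_basis (G : Fin g → MvPolynomial (Fin M) k) (hsm : Sm n G) (H : Fin q → Fin M → K)
    (b : Fin N → Fin M → 𝕊) (hb : LX G b) (I : Fin N → Fin M)
    (hbI : ∀ l l', b l (I l') = if l = l' then 1 else 0) (y : Fin N → 𝕂)
    (hy : pt (fun l j => algebraMap 𝕊 𝕂 (b l j)) y ≠ 0)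
    (hgood : Good G H (fun l j => algebraMap 𝕊 𝕂 (b l j)) y) :
    ∃ (ν : ℕ) (β : Fin ν → Fin N → Fin M → 𝕊) (_ : Fin (n + 1) ≃ Fin N ⊕ Fin ν),
      (∀ c, DT G H b (β c)) ∧ LinearIndependent 𝕂 (Sum.elim
        (fun l j => algebraMap 𝕊 𝕂 (b l j))
        (fun c => pt (fun l j => algebraMap 𝕊 𝕂 (β c l j)) y)) := by
  classical
  set ι : 𝕊 →+* 𝕂 := algebraMap 𝕊 𝕂 with hι
  set bK : Fin N → Fin M → 𝕂 := fun l j => ι (b l j) with hbK
  have hbKX : LX G bK := LX_ext hb
  let W : Type := {β : Fin N → Fin M → 𝕊 // DT G H b β}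
  let v : Fin N ⊕ W → (Fin M → 𝕂) := Sum.elim bK (fun β => pt (fun l j => ι (β.1 l j)) y)
  have hbind : LinearIndependent 𝕂 bK := by
    rw [Fintype.linearIndependent_iff]
    intro c hc l
    have h1 := congrFun hc (I l)
    rw [Finset.sum_apply, Finset.sum_eq_single l] at h1
    · rw [Pi.smul_apply, hbK, smul_eq_mul] at h1
      simp only [hbI, if_true, map_one, mul_one] at h1
      exact h1
    · intro l' _ hl'
      rw [Pi.smul_apply, hbK, smul_eq_mul]
      simp only [hbI]
      rw [if_neg hl', map_zero, mul_zero]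
    · intro h
      exact absurd (Finset.mem_univ _) h
  have hs : LinearIndepOn 𝕂 v (Set.range Sum.inl) := by
    rw [LinearIndepOn]
    have h1 : Function.Injective (Sum.inl : Fin N → Fin N ⊕ W) := Sum.inl_injective
    exact (linearIndependent_equiv (Equiv.ofInjective _ h1)).1 hbind
  obtain ⟨U, -, hsU, hspan, hU⟩ := exists_linearIndepOn_extension hs (Set.subset_univ _)
  -- all the vectors are tangent
  have hvT : ∀ i, v i ∈ TS G (pt bK y) := by
    rintro (l | β)
    · exact LX_tan hbKX y l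
    · exact DT_ext β.2.1 y
  -- they span the tangent space
  have hTspan : TS G (pt bK y) ≤ Submodule.span 𝕂 (v '' U) := by
    intro τ hτ
    obtain ⟨c, β, hβ, rfl⟩ := hgood τ hτ
    refine Submodule.add_mem _ ?_ ?_
    · have h1 : pt bK c = ∑ l, c l • bK l := by
        funext j
        rw [Finset.sum_apply]
        rfl
      rw [h1]
      exact Submodule.sum_mem _ fun l _ => Submodule.smul_mem _ _
        (hspan ⟨Sum.inl l, Set.mem_univ _, rfl⟩)
    · let Bs := Module.Basis.ofVectorSpace 𝕊 𝕂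
      set T : Finset _ := Finset.univ.biUnion fun l : Fin N =>
        Finset.univ.biUnion fun j : Fin M => (Bs.repr (β l j)).support with hT
      have h1 : ∀ l j, β l j = ∑ i ∈ T, ι (Bs.coord i (β l j)) * Bs i := by
        intro l j
        have h2 := Bs.linearCombination_repr (β l j)
        rw [Finsupp.linearCombination_apply, Finsupp.sum] at h2
        refine h2.symm.trans ?_
        rw [Finset.sum_subset (s₂ := T)]
        · refine Finset.sum_congr rfl fun i _ => ?_
          rw [Module.Basis.coord_apply, Algebra.smul_def]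
        · intro i hi
          rw [hT, Finset.mem_biUnion]
          exact ⟨l, Finset.mem_univ _, Finset.mem_biUnion.2 ⟨j, Finset.mem_univ _, hi⟩⟩
        · intro i _ hi
          rw [Finsupp.notMem_support_iff.1 hi, zero_smul]
      have h2 : pt β y = ∑ i ∈ T, Bs i • pt (fun l j => ι (Bs.coord i (β l j))) y := by
        funext j
        rw [Finset.sum_apply]
        unfold pt
        simp_rw [Pi.smul_apply, smul_eq_mul, Finset.mul_sum]
        rw [Finset.sum_comm]
        refine Finset.sum_congr rfl fun l _ => ?_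
        conv_lhs => rw [h1 l j]
        rw [Finset.mul_sum]
        exact Finset.sum_congr rfl fun i _ => by ring
      rw [h2]
      refine Submodule.sum_mem _ fun i _ => Submodule.smul_mem _ _ ?_
      exact hspan ⟨Sum.inr ⟨fun l j => Bs.coord i (β l j), DT_proj G H b β hβ (Bs.coord i)⟩,
        Set.mem_univ _, rfl⟩
  have hTeq : Submodule.span 𝕂 (v '' U) = TS G (pt bK y) := by
    refine le_antisymm ?_ hTspan
    rw [Submodule.span_le]
    rintro _ ⟨i, -, rfl⟩
    exact hvT i
  have hdim : Module.finrank 𝕂 (TS G (pt bK y)) = n + 1 := hsm 𝕂 _ hy fun i => hbKX y i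
  have hfin : Finite U := hU.finite
  have hfinW : Finite {β : W // Sum.inr β ∈ U} :=
    Finite.of_injective (fun β => (⟨Sum.inr β.1, β.2⟩ : U)) (by
      intro β β' h
      exact Subtype.ext (Sum.inr_injective (congrArg Subtype.val h)))
  obtain ⟨ν, ⟨ε⟩⟩ := Finite.exists_equiv_fin {β : W // Sum.inr β ∈ U}
  let f : Fin N ⊕ Fin ν → U := Sum.elim (fun l => ⟨Sum.inl l, hsU ⟨l, rfl⟩⟩)
    (fun c => ⟨Sum.inr (ε.symm c).1, (ε.symm c).2⟩)
  have hf : Function.Bijective f := by
    constructor
    · rintro (l | c) (l' | c') h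
      · exact congrArg Sum.inl (Sum.inl_injective (congrArg Subtype.val h))
      · have := congrArg Subtype.val h
        simp [f] at this
      · have := congrArg Subtype.val h
        simp [f] at this
      · have h1 := Sum.inr_injective (congrArg Subtype.val h)
        exact congrArg Sum.inr (ε.symm.injective (Subtype.ext h1))
    · rintro ⟨l | β, h⟩
      · exact ⟨Sum.inl l, rfl⟩
      · refine ⟨Sum.inr (ε ⟨β, h⟩), ?_⟩
        refine Subtype.ext ?_
        show Sum.inr (ε.symm (ε ⟨β, h⟩)).1 = Sum.inr β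
        rw [Equiv.symm_apply_apply]
  have _ : Fintype U := Fintype.ofFinite U
  have hcard : Fintype.card U = n + 1 := by
    have h1 := finrank_span_eq_card hU
    have h2 : Set.range (fun i : U => v i) = v '' U := by
      ext z
      simp
    rw [h2, hTeq, hdim] at h1
    exact h1.symm
  have e : Fin (n + 1) ≃ Fin N ⊕ Fin ν := by
    refine (Fintype.equivOfCardEq ?_).trans (Equiv.ofBijective f hf).symm
    rw [hcard, Fintype.card_fin]
  refine ⟨ν, fun c => (ε.symm c).1.1, e, fun c => (ε.symm c).1.2, ?_⟩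
  have h1 := hU.comp f hf.1
  have h2 : (fun i : U => v i) ∘ f = Sum.elim bK
      (fun c => pt (fun l j => ι ((ε.symm c).1.1 l j)) y) := by
    funext i
    rcases i with l | c <;> rfl
  rw [h2] at h1
  exact h1

end Pool.Agent.N750
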