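import Mathlib
import Pool.Agent.N750.Grd

/-!
The structure of the linear forms on a linear subspace and the Gauss map of deformations.
-/

set_option autoImplicit false
set_option linter.unusedSectionVars false

namespace Pool.Agent.N750

open MvPolynomial

variable {k K Ω : Type} [Field k] [Field K] [Field Ω] [CharZero Ω] [Algebra k K]
  [Algebra k Ω] [Algebra K Ω] [IsScalarTower k K Ω] {M N g q ν n : ℕ}

/-- **the structure of the forms and the orders of vanishing** -/
theorem strat (G : Fin g → MvPolynomial (Fin M) k) (hsm : Sm n G) (H : Fin q → Fin M → K)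
    (hnc : NCs G H) (b : Fin N → Fin M → Ω) (hb : LX G b) (I : Fin N → Fin M)
    (hbI : ∀ l l', b l (I l') = if l = l' then 1 else 0)
    (β : Fin ν → Fin N → Fin M → Ω) (hβ : ∀ c, DT G H b (β c))
    (e : Fin (n + 1) ≃ Fin N ⊕ Fin ν) (hN : 0 < N) :
    ∃ (B R : Finset (Fin q)) (e0 : Fin q → Fin N) (D d : Fin N → Fin N → Ω),
      Disjoint B R ∧ (∀ i ∈ B, ∀ j ∈ B, e0 i = e0 j → i = j) ∧
      (∀ i ∈ B, D (e0 i) = fun l => lv (H i) (b l)) ∧
      (∀ a, (∀ i ∈ B, e0 i ≠ a) → ∃ j, D a = Pi.single j 1) ∧ (Matrix.of D).det ≠ 0 ∧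
      (∀ l l', ∑ i, D i l * d i l' = if l = l' then 1 else 0) ∧
      (∀ J, ∀ α ∈ (pj b (fun c i => pt (β c) (d i)) e J).support, ∀ i ∈ R,
        (R.filter fun j => j ≤ i).card ≤ ∑ j ∈ B.filter (fun j => j ≤ i), α (e0 j)) ∧
      ∀ i, i ∉ B → i ∉ R → ∃ c : Fin N → Fin q → Ω, (∀ l j, i < j → c l j = 0) ∧
        ∀ l, (Pi.single l 1 : Fin N → Ω) = fun l' => ∑ j, c l j * lv (H j) (b l') := by
  classical
  set L : Fin q → Fin N → Ω := fun i l => lv (H i) (b l) with hL
  set B := Bas Ω L with hB
  set R : Finset (Fin q) := Finset.univ.filter fun i => i ∉ B ∧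
    Submodule.span Ω (L '' {j | j ≤ i}) ≠ ⊤ with hR
  obtain ⟨D, e1, he1, hD1, hD2, hD3⟩ := exists_completion (fun i : B => L i.1) (indep_Bas L)
  -- the index map
  set e0 : Fin q → Fin N := fun i => if hi : i ∈ B then e1 ⟨i, hi⟩ else ⟨0, hN⟩ with he0
  have he0B : ∀ i (hi : i ∈ B), e0 i = e1 ⟨i, hi⟩ := by
    intro i hi
    rw [he0]
    simp only
    rw [dif_pos hi]
  have hDB : ∀ i ∈ B, D (e0 i) = L i := by
    intro i hi
    rw [he0B i hi]
    exact hD1 ⟨i, hi⟩
  have hinj : ∀ i ∈ B, ∀ j ∈ B, e0 i = e0 j → i = j := by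
    intro i hi j hj h
    rw [he0B i hi, he0B j hj] at h
    exact congrArg Subtype.val (he1 h)
  -- the dual basis
  have hdet : IsUnit (Matrix.of D).det := hD3.isUnit
  set d : Fin N → Fin N → Ω := fun i l => (Matrix.of D)⁻¹ l i with hd
  have hdual1 : ∀ i i', ∑ l, D i l * d i' l = if i = i' then 1 else 0 := by
    intro i i'
    have h1 := congrFun (congrFun (Matrix.mul_nonsing_inv (Matrix.of D) hdet) i) i'
    rw [Matrix.mul_apply, Matrix.one_apply] at h1
    exact h1
  have hdual2 : ∀ l l', ∑ i, D i l * d i l' = if l = l' then 1 else 0 := by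
    intro l l'
    have h1 := congrFun (congrFun (Matrix.nonsing_inv_mul (Matrix.of D) hdet) l') l
    rw [Matrix.mul_apply, Matrix.one_apply] at h1
    have h2 : ∑ i, D i l * d i l' = ∑ i, (Matrix.of D)⁻¹ l' i * Matrix.of D i l :=
      Finset.sum_congr rfl fun i _ => mul_comm _ _
    rw [h2, h1]
    by_cases h : l = l'
    · rw [if_pos h, if_pos h.symm]
    · rw [if_neg h, if_neg fun h' => h h'.symm]
  -- the coefficients
  have hcoef : ∀ i, ∃ c : Fin q → Ω, i ∉ B → (∀ j, ¬ (j ∈ B ∧ j < i) → c j = 0) ∧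
      L i = ∑ j, c j • L j := by
    intro i
    by_cases hi : i ∈ B
    · exact ⟨0, fun h => absurd hi h⟩
    · obtain ⟨c, hc⟩ := coef_Bas L i hi
      exact ⟨c, fun _ => hc⟩
  choose cf hcf using hcoef
  refine ⟨B, R, e0, D, d, ?_, hinj, hDB, ?_, hD3, hdual2, ?_, ?_⟩
  · rw [Finset.disjoint_left]
    intro i hi hiR
    rw [hR, Finset.mem_filter] at hiR
    exact hiR.2.1 hi
  · intro a ha
    refine hD2 a ?_
    rintro ⟨i, hi⟩
    apply ha i.1 i.2
    rw [he0B i.1 i.2]
    exact hi
  · intro J α hα i hi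
    rw [hR, Finset.mem_filter] at hi
    set A' : Finset (Fin N) := (B.filter fun j => j ≤ i).image e0 with hA'
    have hA'univ : A' ≠ Finset.univ := by
      intro h
      apply hi.2.2
      rw [eq_top_iff]
      have h1 : Submodule.span Ω (Set.range D) = ⊤ := by
        have h2 : LinearIndependent Ω D := by
          have h3 := (Matrix.linearIndependent_rows_iff_isUnit (A := Matrix.of D)).2
            ((Matrix.isUnit_iff_isUnit_det _).2 hdet)
          exact h3
        exact h2.span_eq_top_of_card_eq_finrank' (by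
          rw [Fintype.card_fin, Module.finrank_fin_fun])
      rw [← h1, Submodule.span_le]
      rintro _ ⟨a, rfl⟩
      have h2 : a ∈ A' := by
        rw [h]
        exact Finset.mem_univ _
      obtain ⟨j, hj, rfl⟩ := Finset.mem_image.1 h2
      rw [Finset.mem_filter] at hj
      rw [hDB j hj.1]
      exact Submodule.subset_span ⟨j, hj.2, rfl⟩
    have hpair : ∀ s ≤ i, ∀ i', i' ∉ A' → ∑ l, L s l * d i' l = 0 := by
      have hB1 : ∀ s ∈ B, s ≤ i → ∀ i', i' ∉ A' → ∑ l, L s l * d i' l = 0 := by
        intro s hsB hsi i' hi'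
        rw [← hDB s hsB, hdual1, if_neg]
        intro h
        apply hi'
        rw [hA', Finset.mem_image]
        exact ⟨s, Finset.mem_filter.2 ⟨hsB, hsi⟩, h⟩
      intro s hsi i' hi'
      by_cases hsB : s ∈ B
      · exact hB1 s hsB hsi i' hi'
      · obtain ⟨hc1, hc2⟩ := hcf s hsB
        rw [hc2]
        have h1 : ∀ l, (∑ j, cf s j • L j) l * d i' l = ∑ j, cf s j * (L j l * d i' l) := by
          intro l
          rw [Finset.sum_apply, Finset.sum_mul]
          refine Finset.sum_congr rfl fun j _ => ?_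
          rw [Pi.smul_apply, smul_eq_mul, mul_assoc]
        rw [Finset.sum_congr rfl fun l _ => h1 l, Finset.sum_comm]
        refine Finset.sum_eq_zero fun j _ => ?_
        rw [← Finset.mul_sum]
        by_cases hj : j ∈ B ∧ j < s
        · rw [hB1 j hj.1 (le_trans hj.2.le hsi) i' hi', mul_zero]
        · rw [hc1 j hj, zero_mul]
    have hmain := vsh G hsm H hnc b hb I hbI β hβ d D hdual1 A' hA'univ
      (Finset.univ.filter fun j => j ≤ i) (by
        intro s hs i' hi'
        rw [lv_pt, ← hpair s (Finset.mem_filter.1 hs).2 i' hi']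
        exact Finset.sum_congr rfl fun l _ => mul_comm _ _)
      (R.filter fun j => j ≤ i) (fun j => Pi.single j 1 - cf j) (by
        intro j hj
        rw [Finset.mem_filter, hR, Finset.mem_filter] at hj
        rw [Pi.sub_apply, Pi.single_eq_same, (hcf j hj.1.2.1).1 j (fun h => lt_irrefl _ h.2),
          sub_zero]) (by
        intro j hj s hs
        rw [Finset.mem_filter, hR, Finset.mem_filter] at hj
        have hsi : ¬ s ≤ i := fun h => hs (Finset.mem_filter.2 ⟨Finset.mem_univ _, h⟩)
        have hsj : s ≠ j := by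
          rintro rfl
          exact hsi hj.2
        rw [Pi.sub_apply, Pi.single_eq_of_ne hsj, (hcf j hj.1.2.1).1 s (fun h =>
          hsi (h.2.le.trans hj.2)), sub_zero]) (by
        intro j hj j' hj' hne
        rw [Finset.mem_filter, hR, Finset.mem_filter] at hj hj'
        rw [Pi.sub_apply, Pi.single_eq_of_ne hne, (hcf j hj.1.2.1).1 j' (fun h =>
          hj'.1.2.1 h.1), sub_zero]) (by
        intro j hj l
        rw [Finset.mem_filter, hR, Finset.mem_filter] at hj
        have h1 := congrFun (hcf j hj.1.2.1).2 l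
        rw [Finset.sum_apply] at h1
        have h2 : ∀ s, (Pi.single j 1 - cf j : Fin q → Ω) s * lv (H s) (b l) =
            (if s = j then L s l else 0) - (cf j s • L s) l := by
          intro s
          rw [Pi.sub_apply, Pi.single_apply, sub_mul, Pi.smul_apply, smul_eq_mul]
          congr 1
          split_ifs
          · rw [one_mul]
          · rw [zero_mul]
        rw [Finset.sum_congr rfl fun s _ => h2 s, Finset.sum_sub_distrib, ← h1,
          Finset.sum_ite_eq' Finset.univ j, if_pos (Finset.mem_univ _), sub_self]) e J α hα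
    refine hmain.trans (le_of_eq ?_)
    rw [hA', Finset.sum_image]
    intro j hj j' hj' h
    exact hinj j (Finset.mem_filter.1 hj).1 j' (Finset.mem_filter.1 hj').1 h
  · intro i hiB hiR
    have htop : Submodule.span Ω (L '' {j | j ≤ i}) = ⊤ := by
      by_contra h
      exact hiR (Finset.mem_filter.2 ⟨Finset.mem_univ _, hiB, h⟩)
    have h1 : ∀ l, ∃ c : Fin q → Ω, (∀ j, i < j → c j = 0) ∧
        (Pi.single l 1 : Fin N → Ω) = ∑ j, c j • L j := by
      intro l
      have h2 : (Pi.single l 1 : Fin N → Ω) ∈ Submodule.span Ω (L '' {j | j ≤ i}) := by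
        rw [htop]
        exact Submodule.mem_top
      rw [Finsupp.mem_span_image_iff_linearCombination] at h2
      obtain ⟨w, hw, hw2⟩ := h2
      refine ⟨fun j => w j, fun j hj => ?_, ?_⟩
      · by_contra h
        exact absurd (hw (Finsupp.mem_support_iff.2 h)) (not_le.2 hj)
      · rw [← hw2, Finsupp.linearCombination_apply]
        exact Finsupp.sum_fintype w (fun i a => a • L i) (fun j => zero_smul _ _)
    choose c hc1 hc2 using h1
    refine ⟨c, hc1, fun l => ?_⟩
    rw [hc2 l]
    funext l'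
    rw [Finset.sum_apply]
    rfl

end Pool.Agent.N750
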