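import Mathlib
import Pool.Agent.N750.Slw
import Pool.Agent.N750.Str
import Pool.Agent.N750.Sbd

/-!
The local estimate for slow linear spaces.
-/

set_option autoImplicit false
set_option linter.unusedSectionVars false

open Filter Topology

namespace Pool.Agent.N750

open NumberField IsDedekindDomain Height Module MvPolynomial
open Pool.Agent.W180.OP (Pl av wt nrm le_nrm nrm_pos wt_nonneg exists_nrm)

section perm

variable {k K Ω : Type} [Field k] [Field K] [Field Ω] [Algebra k K]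
  [Algebra k Ω] [Algebra K Ω] {M N g q : ℕ}

theorem NCs_perm {G : Fin g → MvPolynomial (Fin M) k} {H : Fin q → Fin M → K} (h : NCs G H)
    (π : Equiv.Perm (Fin q)) : NCs G (fun i => H (π i)) := by
  intro Ω _ _ _ _ z hz hzG c hc hv
  have h1 := h Ω z hz hzG (fun s => c (π.symm s)) (by
    intro s hs
    have := hc _ hs
    simpa using this) (by
    intro v hvm
    rw [← hv v hvm, ← Equiv.sum_comp π]
    simp)
  funext i
  have := congrFun h1 (π i)
  simpa using this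

theorem DT_perm {G : Fin g → MvPolynomial (Fin M) k} {H : Fin q → Fin M → K}
    {b β : Fin N → Fin M → Ω} (h : DT G H b β) (π : Equiv.Perm (Fin q)) :
    DT G (fun i => H (π i)) b β := by
  refine ⟨h.1, fun c hc => ?_⟩
  obtain ⟨μ, hμ1, hμ2⟩ := h.2 (fun s => c (π.symm s)) (by
    intro l
    rw [← hc l, ← Equiv.sum_comp π]
    simp)
  refine ⟨fun i => μ (π i), fun i hi => hμ1 _ (by simpa using hi), fun l => ?_⟩
  have h1 := hμ2 l
  rw [← Equiv.sum_comp π, ← Equiv.sum_comp π (fun s => μ s * lv (H s) (b l))] at h1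
  simpa using h1

end perm

section germ

variable {K : Type} [Field K] {α : Type} {𝓕 : Ultrafilter α} {𝕊 : Type} [Field 𝕊]
  [Algebra 𝕊 (Gm 𝓕 K)] {M N : ℕ}

/-- representatives of linear combinations -/
theorem rep_lin (rp : 𝕊 → α → K) (hr2 : ∀ s, mk 𝓕 (rp s) = algebraMap 𝕊 (Gm 𝓕 K) s)
    {T : Type} (s : Finset T) (c : T → 𝕊) (z : T → α → K) :
    mk 𝓕 (fun t => ∑ l ∈ s, rp (c l) t * z l t) =
      ∑ l ∈ s, algebraMap 𝕊 (Gm 𝓕 K) (c l) * mk 𝓕 (z l) := by
  rw [← sum_mk]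
  refine Finset.sum_congr rfl fun l _ => ?_
  rw [← hr2, ← map_mul]
  rfl

/-- representatives of the values of polynomials -/
theorem rep_poly (rp : 𝕊 → α → K) (hr2 : ∀ s, mk 𝓕 (rp s) = algebraMap 𝕊 (Gm 𝓕 K) s)
    (P : MvPolynomial (Fin N) 𝕊) (z : Fin N → α → K) :
    mk 𝓕 (fun t => ∑ m ∈ P.support, rp (coeff m P) t * ∏ i, z i t ^ m i) =
      aeval (fun i => mk 𝓕 (z i)) P := by
  rw [rep_lin rp hr2 P.support (fun m => coeff m P) (fun m t => ∏ i, z i t ^ m i), aeval_def,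
    eval₂_eq']
  refine Finset.sum_congr rfl fun m _ => ?_
  congr 1
  have h1 : (fun t => ∏ i, z i t ^ m i) = ∏ i, z i ^ m i := by
    funext t
    rw [Finset.prod_apply]
    rfl
  rw [h1, map_prod]
  exact Finset.prod_congr rfl fun i _ => map_pow _ _ _

end germ

variable {k K : Type} [Field k] [Field K] [NumberField K] [Algebra k K] {α : Type}
  {𝓕 : Ultrafilter α} {H : α → ℝ} {𝕊 : Type} [Field 𝕊] [CharZero 𝕊] [Algebra k 𝕊] [Algebra K 𝕊]
  [IsScalarTower k K 𝕊] [Algebra 𝕊 (Gm 𝓕 K)] [Algebra k (Gm 𝓕 K)]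
  [IsScalarTower k K (Gm 𝓕 K)] [IsScalarTower k 𝕊 (Gm 𝓕 K)] [IsScalarTower K 𝕊 (Gm 𝓕 K)]
  {M N g q ν n : ℕ}

/-- the minors in the coordinates given by a dual basis -/
theorem minor_eq {𝕂 : Type} [Field 𝕂] [Algebra 𝕊 𝕂] (b : Fin N → Fin M → 𝕊)
    (β : Fin ν → Fin N → Fin M → 𝕊) (e : Fin (n + 1) ≃ Fin N ⊕ Fin ν)
    (D d : Fin N → Fin N → 𝕊) (hdual : ∀ l l', ∑ i, D i l * d i l' = if l = l' then 1 else 0)
    (Y : Fin N → 𝕂) (J : Fin (n + 1) → Fin M) :
    aeval (fun i => ∑ l, algebraMap 𝕊 𝕂 (D i l) * Y l)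
      (pj b (fun c i => pt (β c) (d i)) e J) =
      (Matrix.of fun x c => Sum.elim (fun l => algebraMap 𝕊 𝕂 (b l (J x)))
        (fun c => ∑ l, Y l * algebraMap 𝕊 𝕂 (β c l (J x))) (e c)).det := by
  rw [pj_eval]
  congr 1
  ext x c
  rw [Matrix.of_apply, Matrix.of_apply]
  rcases e c with l | c
  · rfl
  · show ∑ i, (∑ l, algebraMap 𝕊 𝕂 (D i l) * Y l) * algebraMap 𝕊 𝕂 (pt (β c) (d i) (J x)) =
      ∑ l, Y l * algebraMap 𝕊 𝕂 (β c l (J x))
    have h1 : ∀ i, (∑ l, algebraMap 𝕊 𝕂 (D i l) * Y l) *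
        algebraMap 𝕊 𝕂 (pt (β c) (d i) (J x)) = ∑ l, ∑ l', Y l * (algebraMap 𝕊 𝕂 (β c l' (J x)) *
          algebraMap 𝕊 𝕂 (D i l * d i l')) := by
      intro i
      unfold pt
      rw [map_sum, Finset.sum_mul]
      refine Finset.sum_congr rfl fun l _ => ?_
      rw [Finset.mul_sum]
      refine Finset.sum_congr rfl fun l' _ => ?_
      rw [map_mul, map_mul]
      ring
    rw [Finset.sum_congr rfl fun i _ => h1 i, Finset.sum_comm]
    refine Finset.sum_congr rfl fun l _ => ?_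
    rw [Finset.sum_comm]
    have h2 : ∀ l', ∑ i, Y l * (algebraMap 𝕊 𝕂 (β c l' (J x)) *
          algebraMap 𝕊 𝕂 (D i l * d i l')) = Y l * algebraMap 𝕊 𝕂 (β c l' (J x)) *
          algebraMap 𝕊 𝕂 (if l = l' then 1 else 0) := by
      intro l'
      rw [← hdual l l', map_sum, Finset.mul_sum]
      exact Finset.sum_congr rfl fun i _ => by ring
    rw [Finset.sum_congr rfl fun l' _ => h2 l', Finset.sum_eq_single l]
    · rw [if_pos rfl, map_one, mul_one]
    · intro l' _ hl'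
      rw [if_neg (Ne.symm hl'), map_zero, mul_zero]
    · intro h
      exact absurd (Finset.mem_univ _) h

/-- **the local estimate** -/
theorem local_v (hH : Tendsto H 𝓕 atTop) (rp : 𝕊 → α → K) (hr1 : ∀ s, Slow 𝓕 H (rp s))
    (hr2 : ∀ s, mk 𝓕 (rp s) = algebraMap 𝕊 (Gm 𝓕 K) s) (G : Fin g → MvPolynomial (Fin M) k)
    (hsm : Sm n G) (Hf : Fin q → Fin M → K) (hnc : NCs G Hf) (b : Fin N → Fin M → 𝕊)
    (hb : LX G b) (I : Fin N → Fin M) (hbI : ∀ l l', b l (I l') = if l = l' then 1 else 0)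
    (β : Fin ν → Fin N → Fin M → 𝕊) (hβ : ∀ c, DT G Hf b (β c))
    (e : Fin (n + 1) ≃ Fin N ⊕ Fin ν) (hN : 0 < N) (y : Fin N → α → K)
    (hind : LinearIndependent 𝕊 (fun l => mk 𝓕 (y l))) (x : Fin M → α → K)
    (hx : ∀ j, mk 𝓕 (x j) = ∑ l, mk 𝓕 (y l) * algebraMap 𝕊 (Gm 𝓕 K) (b l j))
    (hxF : ∀ᶠ t in (𝓕 : Filter α), ∀ s, lv (Hf s) (fun j => x j t) ≠ 0)
    (Bt : Fin M → Fin (n + 1) → α → K)
    (hBt : ∀ j c, mk 𝓕 (Bt j c) = Sum.elim (fun l => algebraMap 𝕊 (Gm 𝓕 K) (b l j))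
      (fun c => ∑ l, mk 𝓕 (y l) * algebraMap 𝕊 (Gm 𝓕 K) (β c l j)) (e c))
    {m : ℕ} (εJ : Fin m ≃ (Fin (n + 1) → Fin M))
    (hBt0 : ∀ᶠ t in (𝓕 : Filter α), (fun i => mv (fun j c => Bt j c t) (εJ i)) ≠ 0)
    (v : Pl K) :
    ∃ D : Fin N → Fin N → α → K, (∀ a l, Slow 𝓕 H (D a l)) ∧
      (∀ᶠ t in (𝓕 : Filter α), (Matrix.of fun a l => D a l t).det ≠ 0) ∧
      ∀ ε : ℝ, 0 < ε → ∀ᶠ t in (𝓕 : Filter α),
        wt v * Real.log (nrm (av v) (fun i => mv (fun j c => Bt j c t) (εJ i))) +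
        wt v * ∑ s, (Real.log (nrm (av v) (fun j => x j t)) -
          Real.log (av v (lv (Hf s) (fun j => x j t)))) ≤
        wt v * (ν * Real.log (nrm (av v) (fun l => y l t))) +
        wt v * ∑ a, (Real.log (nrm (av v) (fun l => y l t)) -
          Real.log (av v (∑ l, D a l t * y l t))) + ε * H t := by
  classical
  set ι : 𝕊 →+* Gm 𝓕 K := algebraMap 𝕊 (Gm 𝓕 K) with hι
  have hι0 : Function.Injective ι := ι.injective
  obtain ⟨π, hπ⟩ := exists_val (𝓕 := 𝓕)
    (fun t => Tuple.sort (fun s => av v (lv (Hf s) (fun j => x j t))))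
  obtain ⟨B, R, e0, D, d, hBR, he0, hDB, hDn, hdet, hdual, hord, hirr⟩ := strat G hsm
    (fun i => Hf (π i)) (NCs_perm hnc π) b hb I hbI β (fun c => DT_perm (hβ c) π) e hN
  -- the coordinates do not vanish
  have hy0 : ∀ l, ∀ᶠ t in (𝓕 : Filter α), y l t ≠ 0 := fun l => mk_ne_zero.1 (hind.ne_zero l)
  -- the new coordinates
  set Z : Fin N → α → K := fun a t => ∑ l, rp (D a l) t * y l t with hZ
  have hZmk : ∀ a, mk 𝓕 (Z a) = ∑ l, ι (D a l) * mk 𝓕 (y l) := fun a =>
    rep_lin rp hr2 Finset.univ (D a) y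
  have hZ0 : ∀ a, ∀ᶠ t in (𝓕 : Filter α), Z a t ≠ 0 := by
    intro a
    refine mk_ne_zero.1 ?_
    rw [hZmk]
    intro h
    have h1 := Fintype.linearIndependent_iff.1 hind (D a) (by
      rw [← h]
      exact Finset.sum_congr rfl fun l _ => Algebra.smul_def _ _)
    apply hdet
    exact Matrix.det_eq_zero_of_row_eq_zero a h1
  -- the linear forms
  have hxpt : (fun j => mk 𝓕 (x j)) = pt (fun l j => ι (b l j)) (fun l => mk 𝓕 (y l)) := by
    funext j
    exact hx j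
  have hlv : ∀ s, mk 𝓕 (fun t => lv (Hf s) (fun j => x j t)) =
      ∑ l, ι (lv (Hf s) (b l)) * mk 𝓕 (y l) := by
    intro s
    rw [← lv_mk, hxpt, lv_pt]
    refine Finset.sum_congr rfl fun l _ => ?_
    rw [lv_ext, mul_comm]
  have hF1 : ∀ i ∈ B, ∀ᶠ t in (𝓕 : Filter α), Z (e0 i) t = lv (Hf (π i)) (fun j => x j t) := by
    intro i hi
    refine mk_eq.1 ?_
    rw [hZmk, hlv, hDB i hi]
  have hF2 : ∀ a, (∀ i ∈ B, e0 i ≠ a) → ∃ j, ∀ᶠ t in (𝓕 : Filter α), Z a t = y j t := by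
    intro a ha
    obtain ⟨j, hj⟩ := hDn a ha
    refine ⟨j, mk_eq.1 ?_⟩
    rw [hZmk, hj, Finset.sum_eq_single j]
    · rw [Pi.single_eq_same, map_one, one_mul]
    · intro j' _ hj'
      rw [Pi.single_eq_of_ne hj', map_zero, zero_mul]
    · intro h
      exact absurd (Finset.mem_univ _) h
  have hF3 : ∀ J, ∀ᶠ t in (𝓕 : Filter α), mv (fun j c => Bt j c t) J =
      ∑ α ∈ (pj b (fun c i => pt (β c) (d i)) e J).support,
        rp (coeff α (pj b (fun c i => pt (β c) (d i)) e J)) t * ∏ a, Z a t ^ α a := by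
    intro J
    refine mk_eq.1 ?_
    rw [rep_poly rp hr2 (pj b (fun c i => pt (β c) (d i)) e J) Z]
    have h1 : (fun t => mv (fun j c => Bt j c t) J) =
        fun t => (Matrix.of fun x c => Bt (J x) c t).det := rfl
    rw [h1, ← det_mk (𝓕 := 𝓕) (fun x c => Bt (J x) c)]
    have h2 : (fun i => mk 𝓕 (Z i)) = fun i => ∑ l, ι (D i l) * mk 𝓕 (y l) := by
      funext i
      exact hZmk i
    rw [h2, minor_eq b β e D d hdual (fun l => mk 𝓕 (y l)) J]
    congr 1
    ext x' c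
    rw [Matrix.of_apply, Matrix.of_apply, hBt]
  have hF4 : ∀ i, i ∉ B → i ∉ R → ∀ l, ∃ c : Fin q → 𝕊, ∀ᶠ t in (𝓕 : Filter α),
      y l t = ∑ j ∈ Finset.univ.filter (fun j => j ≤ i),
        rp (c j) t * lv (Hf (π j)) (fun j => x j t) := by
    intro i hi hi' l
    obtain ⟨c, hc1, hc2⟩ := hirr i hi hi'
    refine ⟨c l, mk_eq.1 ?_⟩
    rw [rep_lin rp hr2 (Finset.univ.filter (fun j => j ≤ i)) (c l)
      (fun j t => lv (Hf (π j)) (fun j => x j t))]
    have h1 : ∑ j ∈ Finset.univ.filter (fun j => j ≤ i), ι (c l j) *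
        mk 𝓕 (fun t => lv (Hf (π j)) (fun j => x j t)) =
        ∑ j, ι (c l j) * mk 𝓕 (fun t => lv (Hf (π j)) (fun j => x j t)) := by
      refine Finset.sum_subset (Finset.subset_univ _) fun j _ hj => ?_
      rw [Finset.mem_filter, not_and] at hj
      rw [hc1 l j (not_le.1 (hj (Finset.mem_univ _))), map_zero, zero_mul]
    rw [h1]
    simp only [hlv, Finset.mul_sum]
    rw [Finset.sum_comm]
    have h2 : ∀ l', ∑ j, ι (c l j) * (ι (lv (Hf (π j)) (b l')) * mk 𝓕 (y l')) =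
        ι ((Pi.single l 1 : Fin N → 𝕊) l') * mk 𝓕 (y l') := by
      intro l'
      rw [hc2 l, map_sum, Finset.sum_mul]
      refine Finset.sum_congr rfl fun j _ => ?_
      rw [map_mul]
      ring
    rw [Finset.sum_congr rfl fun l' _ => h2 l', Finset.sum_eq_single l]
    · rw [Pi.single_eq_same, map_one, one_mul]
    · intro j' _ hj'
      rw [Pi.single_eq_of_ne hj', map_zero, zero_mul]
    · intro h
      exact absurd (Finset.mem_univ _) h
  refine ⟨fun a l => rp (D a l), fun a l => hr1 _, ?_, ?_⟩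
  · refine mk_ne_zero.1 ?_
    rw [← det_mk (𝓕 := 𝓕) (fun a l => rp (D a l))]
    have h1 : (Matrix.of fun a i => mk 𝓕 (rp (D a i))) = (Matrix.of D).map ι := by
      ext a i
      rw [Matrix.of_apply, Matrix.map_apply, Matrix.of_apply, hr2]
    rw [h1, ← RingHom.mapMatrix_apply, ← RingHom.map_det]
    exact (map_ne_zero ι).2 hdet
  intro ε hε
  have hF5 : ∀ s, ∀ᶠ t in (𝓕 : Filter α), lv (Hf s) (fun j => x j t) =
      ∑ l, rp (lv (Hf s) (b l)) t * y l t := by
    intro s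
    refine mk_eq.1 ?_
    rw [hlv, rep_lin rp hr2 Finset.univ (fun l => lv (Hf s) (b l)) y]
  have hF6 : ∀ j, ∀ᶠ t in (𝓕 : Filter α), x j t = ∑ l, rp (b l j) t * y l t := by
    intro j
    refine mk_eq.1 ?_
    rw [hx, rep_lin rp hr2 Finset.univ (fun l => b l j) y]
    exact Finset.sum_congr rfl fun l _ => mul_comm _ _
  set Q : ℝ := ν + 2 * q + 1 with hQ
  have hQ0 : 0 < Q := by positivity
  have hε' : 0 < ε / Q := by positivity
  have e1 : ∀ᶠ t in (𝓕 : Filter α), ∀ i : Fin m, mv (fun j c => Bt j c t) (εJ i) ≠ 0 →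
      ∃ α ∈ (pj b (fun c i => pt (β c) (d i)) e (εJ i)).support, ∏ a, Z a t ^ α a ≠ 0 ∧
        wt v * Real.log (av v (mv (fun j c => Bt j c t) (εJ i))) ≤
          wt v * Real.log (av v (∏ a, Z a t ^ α a)) + ε / Q * H t := by
    rw [Filter.eventually_all]
    intro i
    exact sum_bound hH v _ (fun α => rp (coeff α (pj b (fun c i => pt (β c) (d i)) e (εJ i))))
      (fun α t => ∏ a, Z a t ^ α a) (fun α _ => hr1 _) _ (hF3 (εJ i)) hε'
  have e2 : ∀ᶠ t in (𝓕 : Filter α), ∀ s, lv (Hf s) (fun j => x j t) ≠ 0 →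
      ∃ l ∈ (Finset.univ : Finset (Fin N)), y l t ≠ 0 ∧
        wt v * Real.log (av v (lv (Hf s) (fun j => x j t))) ≤
          wt v * Real.log (av v (y l t)) + ε / Q * H t := by
    rw [Filter.eventually_all]
    intro s
    exact sum_bound hH v _ (fun l => rp (lv (Hf s) (b l))) y (fun l _ => hr1 _) _ (hF5 s) hε'
  have e3 : ∀ᶠ t in (𝓕 : Filter α), ∀ j, x j t ≠ 0 →
      ∃ l ∈ (Finset.univ : Finset (Fin N)), y l t ≠ 0 ∧
        wt v * Real.log (av v (x j t)) ≤ wt v * Real.log (av v (y l t)) + ε / Q * H t := by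
    rw [Filter.eventually_all]
    intro j
    exact sum_bound hH v _ (fun l => rp (b l j)) y (fun l _ => hr1 _) _ (hF6 j) hε'
  have e4 : ∀ᶠ t in (𝓕 : Filter α), ∀ i, i ∉ B → i ∉ R → ∀ l, y l t ≠ 0 →
      ∃ j ∈ (Finset.univ.filter fun j => j ≤ i), lv (Hf (π j)) (fun j => x j t) ≠ 0 ∧
        wt v * Real.log (av v (y l t)) ≤
          wt v * Real.log (av v (lv (Hf (π j)) (fun j => x j t))) + ε / Q * H t := by
    rw [Filter.eventually_all]
    intro i
    by_cases hi : i ∈ B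
    · exact Eventually.of_forall fun t h => absurd hi h
    by_cases hi' : i ∈ R
    · exact Eventually.of_forall fun t _ h => absurd hi' h
    have h1 : ∀ᶠ t in (𝓕 : Filter α), ∀ l, y l t ≠ 0 →
      ∃ j ∈ (Finset.univ.filter fun j => j ≤ i), lv (Hf (π j)) (fun j => x j t) ≠ 0 ∧
        wt v * Real.log (av v (y l t)) ≤
          wt v * Real.log (av v (lv (Hf (π j)) (fun j => x j t))) + ε / Q * H t := by
      rw [Filter.eventually_all]
      intro l
      obtain ⟨c, hc⟩ := hF4 i hi hi' l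
      exact sum_bound hH v _ (fun j => rp (c j)) (fun j t => lv (Hf (π j)) (fun j => x j t))
        (fun j _ => hr1 _) _ hc hε'
    filter_upwards [h1] with t ht _ _
    exact ht
  have e5 : ∀ᶠ t in (𝓕 : Filter α), ∀ l, y l t ≠ 0 := by
    rw [Filter.eventually_all]
    exact hy0
  have e6 : ∀ᶠ t in (𝓕 : Filter α), ∀ a, Z a t ≠ 0 := by
    rw [Filter.eventually_all]
    exact hZ0
  have e7 : ∀ᶠ t in (𝓕 : Filter α), ∀ i ∈ B, Z (e0 i) t = lv (Hf (π i)) (fun j => x j t) := by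
    rw [Filter.eventually_all_finset]
    exact hF1
  have e8 : ∀ᶠ t in (𝓕 : Filter α), ∀ a, (∀ i ∈ B, e0 i ≠ a) → ∃ j, Z a t = y j t := by
    rw [Filter.eventually_all]
    intro a
    by_cases ha : ∀ i ∈ B, e0 i ≠ a
    · obtain ⟨j, hj⟩ := hF2 a ha
      filter_upwards [hj] with t ht _
      exact ⟨j, ht⟩
    · exact Eventually.of_forall fun t h => absurd h ha
  filter_upwards [e1, e2, e3, e4, e5, e6, e7, e8, hBt0, hxF, hπ, hH.eventually_ge_atTop 0]
    with t g1 g2 g3 g4 g5 g6 g7 g8 g9 g10 g11 g12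
  set E : ℝ := ε / Q * H t with hE
  have hE0 : 0 ≤ E := by positivity
  set LY : ℝ := Real.log (nrm (av v) (fun l => y l t)) with hLY
  have hm0 : 0 < m := by
    obtain ⟨i, -⟩ := Function.ne_iff.1 g9
    exact lt_of_le_of_lt (Nat.zero_le _) i.2
  obtain ⟨i0, hi0⟩ := exists_nrm (av v) hm0 (fun i => mv (fun j c => Bt j c t) (εJ i))
  have hne : mv (fun j c => Bt j c t) (εJ i0) ≠ 0 := by
    intro h
    have h1 := nrm_pos (av v) g9
    rw [← hi0, h, map_zero] at h1
    exact lt_irrefl _ h1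
  obtain ⟨m', hm', hprod, hle⟩ := g1 i0 hne
  have hylog : ∀ l, Real.log (av v (y l t)) ≤ LY := fun l =>
    Real.log_le_log ((av v).pos_iff.2 (g5 l)) (le_nrm (av v) (fun l => y l t) l)
  have hwt := wt_nonneg v
  have hsum : ∑ a, m' a = ν := by
    have h1 := pj_hom b (fun c i => pt (β c) (d i)) e (εJ i0) (mem_support_iff.1 hm')
    rw [Finsupp.weight_apply, Finsupp.sum_fintype _ _ (fun i => by simp)] at h1
    simpa using h1
  have hord1 := ord_bound (ν := ν) B R hBR e0 he0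
    (fun i => wt v * (LY - Real.log (av v (lv (Hf (π i)) (fun j => x j t))))) (by
      intro i i' hii
      show wt v * (LY - _) ≤ wt v * (LY - _)
      refine mul_le_mul_of_nonneg_left ?_ hwt
      have h1 := Tuple.monotone_sort (fun s => av v (lv (Hf s) (fun j => x j t)))
      rw [g11] at h1
      have h2 : Real.log (av v (lv (Hf (π i)) (fun j => x j t))) ≤
          Real.log (av v (lv (Hf (π i')) (fun j => x j t))) :=
        Real.log_le_log ((av v).pos_iff.2 (g10 (π i))) (h1 hii)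
      linarith)
    (fun a => wt v * (LY - Real.log (av v (Z a t)))) (by
      intro i hi
      show wt v * (LY - Real.log (av v (Z (e0 i) t))) = _
      rw [g7 i hi]) (by
      intro a ha
      obtain ⟨j, hj⟩ := g8 a ha
      show 0 ≤ wt v * (LY - Real.log (av v (Z a t)))
      rw [hj]
      refine mul_nonneg hwt ?_
      have := hylog j
      linarith) E hE0 (by
      intro i
      obtain ⟨l, -, -, hl⟩ := g2 (π i) (g10 (π i))
      have h1 := mul_le_mul_of_nonneg_left (hylog l) hwt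
      show -E ≤ wt v * (LY - _)
      rw [mul_sub]
      linarith) (by
      intro i hi hi'
      obtain ⟨l, hl⟩ := exists_nrm (av v) hN (fun l => y l t)
      obtain ⟨j, hj, -, hj2⟩ := g4 i hi hi' l (g5 l)
      have h1 := Tuple.monotone_sort (fun s => av v (lv (Hf s) (fun j => x j t)))
      rw [g11] at h1
      have h2 := Real.log_le_log ((av v).pos_iff.2 (g10 (π j)))
        (h1 (Finset.mem_filter.1 hj).2)
      have h3 := mul_le_mul_of_nonneg_left h2 hwt
      show wt v * (LY - _) ≤ E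
      rw [mul_sub, hLY, ← hl]
      have h4 : wt v * Real.log (av v (lv (Hf (π j)) (fun j => x j t))) ≤
        wt v * Real.log (av v (lv (Hf (π i)) (fun j => x j t))) := h3
      linarith) (fun a => m' a) hsum (hord (εJ i0) m' hm')
  have hprod2 : Real.log (av v (∏ a, Z a t ^ m' a)) = ∑ a, m' a * Real.log (av v (Z a t)) := by
    rw [map_prod, Real.log_prod (fun a _ => ((av v).pos_iff.2 (pow_ne_zero _ (g6 a))).ne')]
    refine Finset.sum_congr rfl fun a _ => ?_
    rw [map_pow, Real.log_pow]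
  have h5 : ∑ a, (m' a : ℝ) * (wt v * (LY - Real.log (av v (Z a t)))) =
      wt v * (ν * LY) - wt v * ∑ a, m' a * Real.log (av v (Z a t)) := by
    have h6 : ∀ a, (m' a : ℝ) * (wt v * (LY - Real.log (av v (Z a t)))) =
        wt v * LY * (m' a : ℝ) - wt v * (m' a * Real.log (av v (Z a t))) := fun a => by ring
    rw [Finset.sum_congr rfl fun a _ => h6 a, Finset.sum_sub_distrib, ← Finset.mul_sum,
      ← Finset.mul_sum, ← Nat.cast_sum, hsum]
    ring
  -- the norm of the point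
  have h6 : wt v * ∑ s, (Real.log (nrm (av v) (fun j => x j t)) -
      Real.log (av v (lv (Hf s) (fun j => x j t)))) ≤
      ∑ i, wt v * (LY - Real.log (av v (lv (Hf (π i)) (fun j => x j t)))) + q * E := by
    rw [← Equiv.sum_comp π, Finset.mul_sum]
    have h7 : (q : ℝ) * E = ∑ _i : Fin q, E := by
      rw [Finset.sum_const, Finset.card_univ, Fintype.card_fin, nsmul_eq_mul]
    rw [h7, ← Finset.sum_add_distrib]
    refine Finset.sum_le_sum fun i _ => ?_
    have hx0 : (fun j => x j t) ≠ 0 := by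
      intro h
      apply g10 (π i)
      rw [h]
      unfold lv
      simp
    have hM : 0 < M := by
      obtain ⟨j, -⟩ := Function.ne_iff.1 hx0
      exact lt_of_le_of_lt (Nat.zero_le _) j.2
    obtain ⟨j, hj⟩ := exists_nrm (av v) hM (fun j => x j t)
    have hxj : x j t ≠ 0 := by
      intro h
      have h1 := nrm_pos (av v) hx0
      rw [← hj, h, map_zero] at h1
      exact lt_irrefl _ h1
    obtain ⟨l, -, -, hl⟩ := g3 j hxj
    have h8 := mul_le_mul_of_nonneg_left (hylog l) hwt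
    rw [← hj, mul_sub, mul_sub]
    linarith
  rw [← hi0]
  have h7 : ε * H t = (ν + q + q + 1) * E := by
    rw [hE, hQ]
    field_simp
    ring
  rw [h7]
  rw [hprod2] at hle
  rw [h5] at hord1
  have h8 : wt v * ∑ a, (LY - Real.log (av v (∑ l, rp (D a l) t * y l t))) =
      ∑ a, wt v * (LY - Real.log (av v (Z a t))) := by
    rw [Finset.mul_sum]
  rw [h8]
  linarith

end Pool.Agent.N750
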