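import Mathlib
import Pool.Agent.N750.Lcv
import Pool.Agent.N750.Eng
import Pool.Agent.N750.HtC
import Pool.Agent.N750.Triv

/-!
The global estimate for slow linear spaces.
-/

set_option autoImplicit false
set_option linter.unusedSectionVars false

open Filter Topology

namespace Pool.Agent.N750

open NumberField IsDedekindDomain Height Module MvPolynomial
open Pool.Agent.W180.OP (Pl av wt nrm le_nrm nrm_pos wt_nonneg exists_nrm)

/-- independence from a minor -/
theorem indep_of_minor {E : Type} [Field E] {M p : ℕ} (A : Fin M → Fin p → E)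
    (J : Fin p → Fin M) (hJ : (Matrix.of fun x c => A (J x) c).det ≠ 0) :
    LinearIndependent E (fun c : Fin p => fun l => A l c) := by
  rw [Fintype.linearIndependent_iff]
  intro c hc
  have h1 : (Matrix.of fun x c => A (J x) c).mulVec c = 0 := by
    funext x
    have h2 := congrFun hc (J x)
    rw [Finset.sum_apply] at h2
    refine Eq.trans ?_ h2
    show ∑ i, A (J x) i * c i = _
    exact Finset.sum_congr rfl fun i _ => mul_comm _ _
  have h2 := Matrix.eq_zero_of_mulVec_eq_zero hJ h1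
  intro i
  exact congrFun h2 i

/-- two bases of the tangent space -/
theorem ht_TB {k K : Type} [Field k] [Field K] [NumberField K] [Algebra k K] {M g n : ℕ}
    {G : Fin g → MvPolynomial (Fin M) k} {x : Fin M → K} {A B : Fin M → Fin (n + 1) → K}
    (hdim : finrank K (TS G x) = n + 1) (hA : IsTB G x A) (hB : IsTB G x B) :
    logHeight (mv A) ≤ logHeight (mv B) := by
  obtain ⟨c, hc⟩ := alt_unique (L := K) B hB.1
    (fun i l => aeval x (pderiv l (G i))) (fun v hv => span_TB hB hdim v hv) (mv A)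
    (fun J i j hij => mv_swap A J i j hij) (fun i J => det_row_zero A
      (fun l => aeval x (pderiv l (G i))) (fun c => hA.2 c i) J)
  have hA0 : mv A ≠ 0 := by
    obtain ⟨J, hJ⟩ := exists_minor A hA.1
    exact fun h => hJ (congrFun h J)
  have hc0 : c ≠ 0 := by
    rintro rfl
    apply hA0
    funext J
    rw [hc, zero_mul]
    rfl
  have h1 : mv A = c • mv B := by
    funext J
    exact hc J
  rw [h1, logHeight_smul_eq_logHeight _ hc0]

variable {k K : Type} [Field k] [Field K] [NumberField K] [Algebra k K] {α : Type}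
  {𝓕 : Ultrafilter α} {H : α → ℝ} {𝕊 : Type} [Field 𝕊] [CharZero 𝕊] [Algebra k 𝕊] [Algebra K 𝕊]
  [IsScalarTower k K 𝕊] [Algebra 𝕊 (Gm 𝓕 K)] [Algebra k (Gm 𝓕 K)]
  [IsScalarTower k K (Gm 𝓕 K)] [IsScalarTower k 𝕊 (Gm 𝓕 K)] [IsScalarTower K 𝕊 (Gm 𝓕 K)]
  {M N g q ν n : ℕ}

/-- **the height of the minors** -/
theorem glob (hH : Tendsto H 𝓕 atTop) (rp : 𝕊 → α → K) (hr1 : ∀ s, Slow 𝓕 H (rp s))
    (hr2 : ∀ s, mk 𝓕 (rp s) = algebraMap 𝕊 (Gm 𝓕 K) s) (b : Fin N → Fin M → 𝕊)
    (β : Fin ν → Fin N → Fin M → 𝕊) (e : Fin (n + 1) ≃ Fin N ⊕ Fin ν) (y : Fin N → α → K)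
    (hy0 : ∀ᶠ t in (𝓕 : Filter α), (fun l => y l t) ≠ 0)
    (Bt : Fin M → Fin (n + 1) → α → K)
    (hBt : ∀ j c, mk 𝓕 (Bt j c) = Sum.elim (fun l => algebraMap 𝕊 (Gm 𝓕 K) (b l j))
      (fun c => ∑ l, mk 𝓕 (y l) * algebraMap 𝕊 (Gm 𝓕 K) (β c l j)) (e c))
    {m : ℕ} (εJ : Fin m ≃ (Fin (n + 1) → Fin M))
    (hBt0 : ∀ᶠ t in (𝓕 : Filter α), (fun i => mv (fun j c => Bt j c t) (εJ i)) ≠ 0)
    (S : Finset (Pl K)) (ε : ℝ) (hε : 0 < ε) :
    ∀ᶠ t in (𝓕 : Filter α), ∑ v ∈ S, wt v * (ν * Real.log (nrm (av v) (fun l => y l t)) -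
      Real.log (nrm (av v) (fun i => mv (fun j c => Bt j c t) (εJ i)))) +
      logHeight (fun i => mv (fun j c => Bt j c t) (εJ i)) ≤
      ν * logHeight (fun l => y l t) + ε * H t := by
  classical
  set ι : 𝕊 →+* Gm 𝓕 K := algebraMap 𝕊 (Gm 𝓕 K) with hι
  -- the expansions
  have hF3 : ∀ J, ∀ᶠ t in (𝓕 : Filter α), mv (fun j c => Bt j c t) J =
      ∑ α ∈ (pj b β e J).support, rp (coeff α (pj b β e J)) t * ∏ a, y a t ^ α a := by
    intro J
    refine mk_eq.1 ?_
    rw [rep_poly rp hr2 (pj b β e J) y]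
    have h1 : (fun t => mv (fun j c => Bt j c t) J) =
        fun t => (Matrix.of fun x c => Bt (J x) c t).det := rfl
    rw [h1, ← det_mk (𝓕 := 𝓕) (fun x c => Bt (J x) c), pj_eval]
    congr 1
    ext x' c
    rw [Matrix.of_apply, Matrix.of_apply, hBt]
  -- the coefficients
  let T : Type := Σ J : Fin (n + 1) → Fin M, {α // α ∈ (pj b β e J).support}
  let εT : T ≃ Fin (Fintype.card T) := Fintype.equivFin T
  set cf : Fin (Fintype.card T + 1) → α → K := Fin.cons (fun _ => 1)
    (fun i => rp (coeff (εT.symm i).2.1 (pj b β e (εT.symm i).1))) with hcf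
  have hcfs : ∀ i, Slow 𝓕 H (cf i) := by
    intro i
    refine Fin.cases ?_ (fun i => ?_) i
    · exact slow_const hH 1
    · exact hr1 _
  set B0 : ℝ := 1 + ∑ J, ((pj b β e J).support.card : ℝ) with hB0
  have hB0J : ∀ J, ((pj b β e J).support.card : ℝ) ≤ B0 := by
    intro J
    have h1 := Finset.single_le_sum (f := fun J => ((pj b β e J).support.card : ℝ))
      (fun J _ => Nat.cast_nonneg _) (Finset.mem_univ J)
    rw [hB0]
    linarith
  have hB01 : 1 ≤ B0 := by
    have h1 : 0 ≤ ∑ J, ((pj b β e J).support.card : ℝ) :=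
      Finset.sum_nonneg fun J _ => Nat.cast_nonneg _
    linarith
  have e1 : ∀ᶠ t in (𝓕 : Filter α), ∀ J, mv (fun j c => Bt j c t) J =
      ∑ α ∈ (pj b β e J).support, rp (coeff α (pj b β e J)) t * ∏ a, y a t ^ α a := by
    rw [Filter.eventually_all]
    exact hF3
  filter_upwards [e1, hBt0, hy0, slow_vec hH hcfs (show 0 < ε / 2 by linarith),
    hH.eventually_ge_atTop (finrank ℚ K * Real.log B0 / (ε / 2))] with t g1 g2 g3 g4 g5
  rw [div_le_iff₀ (by linarith)] at g5
  set V : Fin m → K := fun i => mv (fun j c => Bt j c t) (εJ i) with hV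
  set Y : Fin N → K := fun l => y l t with hY
  set C : Fin (Fintype.card T + 1) → K := fun i => cf i t with hC
  have hC1 : C 0 = 1 := rfl
  have hC0 : C ≠ 0 := fun h => one_ne_zero (hC1.symm.trans (congrFun h 0))
  have hCn : ∀ p : Pl K, 1 ≤ nrm (av p) C := by
    intro p
    have := le_nrm (av p) C 0
    rwa [hC1, map_one] at this
  have hm0 : 0 < m := by
    obtain ⟨i, -⟩ := Function.ne_iff.1 g2
    exact lt_of_le_of_lt (Nat.zero_le _) i.2
  have hloc : ∀ p : Pl K, Real.log (nrm (av p) V) ≤ ν * Real.log (nrm (av p) Y) +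
      Real.log (nrm (av p) C) + Real.log (cst B0 p) := by
    intro p
    have hYp := nrm_pos (av p) g3
    have hCp := nrm_pos (av p) hC0
    obtain ⟨i, hi⟩ := exists_nrm (av p) hm0 V
    have h1 : av p (V i) ≤ cst B0 p * (nrm (av p) C * nrm (av p) Y ^ ν) := by
      rw [hV]
      simp only
      rw [g1 (εJ i)]
      refine av_sum p _ _ _ (by positivity) (fun α hα => ?_) B0 (hB0J _)
      rw [map_mul]
      refine mul_le_mul ?_ ?_ ((av p).nonneg _) hCp.le
      · have h2 := le_nrm (av p) C (Fin.succ (εT ⟨εJ i, ⟨α, hα⟩⟩))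
        have h3 : C (Fin.succ (εT ⟨εJ i, ⟨α, hα⟩⟩)) = rp (coeff α (pj b β e (εJ i))) t := by
          rw [hC]
          simp only
          rw [hcf, Fin.cons_succ, Equiv.symm_apply_apply]
        rwa [h3] at h2
      · have h4 := pj_hom b β e (εJ i) (mem_support_iff.1 hα)
        rw [Finsupp.weight_apply, Finsupp.sum_fintype _ _ (fun i => by simp)] at h4
        have h5 : ∑ a, α a = ν := by simpa using h4
        rw [map_prod, ← h5, ← Finset.prod_pow_eq_pow_sum]
        refine Finset.prod_le_prod (fun a _ => (av p).nonneg _) fun a _ => ?_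
        rw [map_pow]
        exact pow_le_pow_left₀ ((av p).nonneg _) (le_nrm (av p) Y a) _
    rw [hi] at h1
    have h2 := Real.log_le_log (nrm_pos (av p) g2) h1
    rw [Real.log_mul (cst_pos (by linarith) p).ne' (mul_pos hCp (pow_pos hYp _)).ne',
      Real.log_mul hCp.ne' (pow_pos hYp _).ne', Real.log_pow] at h2
    linarith
  have h1 := ht_part (K := K) (Finset.univ : Finset (Option (Option Unit)))
    (fun o => match o with | none => m | some none => N | some (some _) => Fintype.card T + 1)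
    (fun o => match o with | none => V | some none => Y | some (some _) => C)
    (fun o => match o with | none => -1 | some none => (ν : ℝ) | some (some _) => 1) (by
      rintro (_ | _ | _) _
      · exact g2
      · exact g3
      · exact hC0) B0 (by
      intro p
      rw [Fintype.sum_option, Fintype.sum_option, Finset.univ_unique, Finset.sum_singleton]
      have h2 := hloc p
      show 0 ≤ -1 * Real.log (nrm (av p) V) + ((ν : ℝ) * Real.log (nrm (av p) Y) +
        1 * Real.log (nrm (av p) C)) + Real.log (cst B0 p)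
      linarith) S
  simp only [Fintype.sum_option, Finset.univ_unique, Finset.sum_singleton] at h1
  have h2 : ∑ p ∈ S, wt p * (-1 * Real.log (nrm (av p) V) +
      ((ν : ℝ) * Real.log (nrm (av p) Y) + 1 * Real.log (nrm (av p) C)) +
      Real.log (cst B0 p)) ≤ -1 * logHeight V + (ν * logHeight Y + 1 * logHeight C) +
        finrank ℚ K * Real.log B0 := h1
  have h3 : ∑ v ∈ S, wt v * (ν * Real.log (nrm (av v) Y) - Real.log (nrm (av v) V)) ≤
      ∑ p ∈ S, wt p * (-1 * Real.log (nrm (av p) V) +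
      ((ν : ℝ) * Real.log (nrm (av p) Y) + 1 * Real.log (nrm (av p) C)) +
      Real.log (cst B0 p)) := by
    refine Finset.sum_le_sum fun p _ => mul_le_mul_of_nonneg_left ?_ (wt_nonneg p)
    have h4 := Real.log_nonneg (hCn p)
    have h5 := Real.log_nonneg (one_le_cst hB01 p)
    linarith
  linarith

end Pool.Agent.N750
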