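import Mathlib
import Pool.Agent.N750.Slw

/-!
The smallest slow linear space which contains the point.
-/

set_option autoImplicit false
set_option linter.unusedSectionVars false

namespace Pool.Agent.N750

open MvPolynomial

variable {k 𝕊 𝕂 : Type} [Field k] [Field 𝕊] [Field 𝕂] [Algebra k 𝕊] [Algebra k 𝕂]
  [Algebra 𝕊 𝕂] [IsScalarTower k 𝕊 𝕂] {M N g : ℕ}

/-- representations of a point -/
def Rp (𝕊 : Type) {𝕂 : Type} [Field 𝕊] [Field 𝕂] [Algebra k 𝕊] [Algebra 𝕊 𝕂]
    (G : Fin g → MvPolynomial (Fin M) k) (x : Fin M → 𝕂) (N : ℕ) : Prop :=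
  ∃ (b : Fin N → Fin M → 𝕊) (y : Fin N → 𝕂), LX G b ∧
    x = pt (fun l j => algebraMap 𝕊 𝕂 (b l j)) y

theorem red1 (G : Fin g → MvPolynomial (Fin M) k) (b : Fin (N + 1) → Fin M → 𝕊)
    (y : Fin (N + 1) → 𝕂) (hb : LX G b) (c : Fin (N + 1) → 𝕊) (hc : c ≠ 0)
    (hcy : ∑ l, c l • y l = 0) :
    Rp 𝕊 G (pt (fun l j => algebraMap 𝕊 𝕂 (b l j)) y) N := by
  obtain ⟨i, hi⟩ := Function.ne_iff.1 hc
  rw [Pi.zero_apply] at hi
  refine ⟨fun l j => b (i.succAbove l) j - c (i.succAbove l) / c i * b i j,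
    fun l => y (i.succAbove l), ?_, ?_⟩
  · intro Y s
    have h1 := hb (i.insertNth (-∑ l, Y l * (c (i.succAbove l) / c i)) Y) s
    rw [← h1]
    congr 2
    funext j
    unfold pt
    rw [Fin.sum_univ_succAbove _ i, Fin.insertNth_apply_same]
    simp only [Fin.insertNth_apply_succAbove]
    rw [neg_mul, Finset.sum_mul, ← Finset.sum_neg_distrib, ← Finset.sum_add_distrib]
    exact Finset.sum_congr rfl fun l _ => by ring
  · funext j
    unfold pt
    rw [Fin.sum_univ_succAbove _ i]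
    rw [Fin.sum_univ_succAbove _ i] at hcy
    have hi' : algebraMap 𝕊 𝕂 (c i) ≠ 0 := (map_ne_zero _).2 hi
    have h1 : y i = -∑ l, y (i.succAbove l) * (algebraMap 𝕊 𝕂 (c (i.succAbove l)) /
        algebraMap 𝕊 𝕂 (c i)) := by
      have h2 : algebraMap 𝕊 𝕂 (c i) * y i = -∑ l, algebraMap 𝕊 𝕂 (c (i.succAbove l)) *
          y (i.succAbove l) := by
        rw [eq_neg_iff_add_eq_zero, ← hcy, Algebra.smul_def]
        congr 1
        exact Finset.sum_congr rfl fun l _ => (Algebra.smul_def _ _).symm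
      apply mul_left_cancel₀ hi'
      rw [h2, mul_neg, Finset.mul_sum]
      congr 1
      refine Finset.sum_congr rfl fun l _ => ?_
      field_simp
    rw [h1, neg_mul, Finset.sum_mul, ← Finset.sum_neg_distrib, ← Finset.sum_add_distrib]
    refine Finset.sum_congr rfl fun l _ => ?_
    beta_reduce
    rw [map_sub, map_mul, map_div₀]
    ring

theorem red2 (G : Fin g → MvPolynomial (Fin M) k) (b : Fin (N + 1) → Fin M → 𝕊)
    (y : Fin (N + 1) → 𝕂) (hb : LX G b) (c : Fin (N + 1) → 𝕊) (hc : c ≠ 0)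
    (hcb : ∑ l, c l • b l = 0) :
    Rp 𝕊 G (pt (fun l j => algebraMap 𝕊 𝕂 (b l j)) y) N := by
  obtain ⟨i, hi⟩ := Function.ne_iff.1 hc
  rw [Pi.zero_apply] at hi
  refine ⟨fun l j => b (i.succAbove l) j,
    fun l => y (i.succAbove l) - algebraMap 𝕊 𝕂 (c (i.succAbove l) / c i) * y i, ?_, ?_⟩
  · intro Y s
    have h1 := hb (i.insertNth 0 Y) s
    rw [← h1]
    congr 2
    funext j
    unfold pt
    rw [Fin.sum_univ_succAbove _ i, Fin.insertNth_apply_same]
    simp only [Fin.insertNth_apply_succAbove]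
    rw [zero_mul, zero_add]
  · funext j
    unfold pt
    rw [Fin.sum_univ_succAbove _ i]
    have hi' : algebraMap 𝕊 𝕂 (c i) ≠ 0 := (map_ne_zero _).2 hi
    have h1 : algebraMap 𝕊 𝕂 (b i j) = -∑ l, algebraMap 𝕊 𝕂 (c (i.succAbove l) / c i) *
        algebraMap 𝕊 𝕂 (b (i.succAbove l) j) := by
      have h2 := congrArg (algebraMap 𝕊 𝕂) (congrFun hcb j)
      rw [Finset.sum_apply, Fin.sum_univ_succAbove _ i, Pi.zero_apply, map_zero, map_add,
        map_sum] at h2
      simp only [Pi.smul_apply, smul_eq_mul, map_mul] at h2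
      apply mul_left_cancel₀ hi'
      rw [mul_neg, Finset.mul_sum]
      have h3 : ∀ l, algebraMap 𝕊 𝕂 (c i) * (algebraMap 𝕊 𝕂 (c (i.succAbove l) / c i) *
          algebraMap 𝕊 𝕂 (b (i.succAbove l) j)) = algebraMap 𝕊 𝕂 (c (i.succAbove l)) *
          algebraMap 𝕊 𝕂 (b (i.succAbove l) j) := by
        intro l
        rw [map_div₀]
        field_simp
      rw [Finset.sum_congr rfl fun l _ => h3 l]
      exact eq_neg_of_add_eq_zero_left h2
    beta_reduce
    rw [h1, mul_neg, Finset.mul_sum, ← Finset.sum_neg_distrib, ← Finset.sum_add_distrib]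
    refine Finset.sum_congr rfl fun l _ => ?_
    ring

/-- **the smallest slow linear space** -/
theorem min_repr (G : Fin g → MvPolynomial (Fin M) k) (x : Fin M → 𝕂) (hx : x ≠ 0)
    {N0 : ℕ} (h0 : Rp 𝕊 G x N0) :
    ∃ (N : ℕ) (b : Fin N → Fin M → 𝕊) (y : Fin N → 𝕂) (I : Fin N → Fin M), 0 < N ∧ N ≤ M ∧
      LX G b ∧ x = pt (fun l j => algebraMap 𝕊 𝕂 (b l j)) y ∧
      (∀ l l', b l (I l') = if l = l' then 1 else 0) ∧ LinearIndependent 𝕊 y := by
  classical
  obtain ⟨N, hRN, hmin⟩ : ∃ N, Rp 𝕊 G x N ∧ ∀ N', N' < N → ¬ Rp 𝕊 G x N' := by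
    have hex : ∃ N, Rp 𝕊 G x N := ⟨N0, h0⟩
    exact ⟨Nat.find hex, Nat.find_spec hex, fun N' hN' => Nat.find_min hex hN'⟩
  obtain ⟨b, y, hb, hxy⟩ := hRN
  have hN0 : 0 < N := by
    rcases Nat.eq_zero_or_pos N with h | h
    · subst h
      exfalso
      apply hx
      rw [hxy]
      funext j
      unfold pt
      rw [Finset.univ_eq_empty, Finset.sum_empty]
      rfl
    · exact h
  obtain ⟨N', rfl⟩ : ∃ N', N = N' + 1 := ⟨N - 1, by omega⟩
  -- independence of the columns
  have hbind : LinearIndependent 𝕊 b := by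
    rw [Fintype.linearIndependent_iff]
    by_contra hcon
    push Not at hcon
    obtain ⟨c, hc1, i, hi⟩ := hcon
    refine hmin N' (Nat.lt_succ_self _) ?_
    rw [hxy]
    exact red2 G b y hb c (fun h => hi (congrFun h i)) hc1
  obtain ⟨I, hI⟩ := exists_minor (fun j l => b l j) hbind
  set P : Matrix (Fin (N' + 1)) (Fin (N' + 1)) 𝕊 := Matrix.of fun x c => b c (I x) with hP
  have hPu : IsUnit P.det := hI.isUnit
  have hP1 : ∀ l l', ∑ m, b m (I l') * P⁻¹ m l = if l = l' then 1 else 0 := by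
    intro l l'
    have h1 := congrFun (congrFun (Matrix.mul_nonsing_inv P hPu) l') l
    rw [Matrix.mul_apply, Matrix.one_apply] at h1
    rw [show (if l = l' then (1 : 𝕊) else 0) = if l' = l then 1 else 0 by
      by_cases h : l = l'
      · rw [if_pos h, if_pos h.symm]
      · rw [if_neg h, if_neg fun h' => h h'.symm]]
    exact h1
  have hP2 : ∀ m m', ∑ l, P⁻¹ m l * b m' (I l) = if m = m' then 1 else 0 := by
    intro m m'
    have h1 := congrFun (congrFun (Matrix.nonsing_inv_mul P hPu) m) m'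
    rw [Matrix.mul_apply, Matrix.one_apply] at h1
    exact h1
  have hxI : ∀ l, x (I l) = ∑ m, y m * algebraMap 𝕊 𝕂 (b m (I l)) := by
    intro l
    rw [hxy]
    rfl
  have hb' : LX G (fun l j => ∑ m, b m j * P⁻¹ m l) := by
    intro Y s
    rw [← hb (fun m => ∑ l, Y l * P⁻¹ m l) s]
    congr 2
    funext j
    unfold pt
    simp_rw [Finset.mul_sum, Finset.sum_mul]
    rw [Finset.sum_comm]
    exact Finset.sum_congr rfl fun m _ => Finset.sum_congr rfl fun l _ => by ring
  have hxy' : x = pt (fun l j => algebraMap 𝕊 𝕂 (∑ m, b m j * P⁻¹ m l)) (fun l => x (I l)) := by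
    conv_lhs => rw [hxy]
    funext j
    unfold pt
    simp only [hxI, map_sum, map_mul]
    simp_rw [Finset.mul_sum]
    rw [Finset.sum_comm]
    refine Finset.sum_congr rfl fun m _ => ?_
    simp_rw [Finset.sum_mul]
    rw [Finset.sum_comm]
    have h1 : ∀ m', ∑ l, y m' * algebraMap 𝕊 𝕂 (b m' (I l)) * (algebraMap 𝕊 𝕂 (b m j) *
        algebraMap 𝕊 𝕂 (P⁻¹ m l)) = y m' * algebraMap 𝕊 𝕂 (b m j) *
          algebraMap 𝕊 𝕂 (∑ l, P⁻¹ m l * b m' (I l)) := by
      intro m'
      rw [map_sum, Finset.mul_sum]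
      refine Finset.sum_congr rfl fun l _ => ?_
      rw [map_mul]
      ring
    rw [Finset.sum_congr rfl fun m' _ => h1 m']
    simp only [hP2]
    rw [Finset.sum_eq_single m]
    · rw [if_pos rfl, map_one, mul_one]
    · intro m' _ hm'
      rw [if_neg (Ne.symm hm'), map_zero, mul_zero]
    · intro h
      exact absurd (Finset.mem_univ _) h
  refine ⟨N' + 1, fun l j => ∑ m, b m j * P⁻¹ m l, fun l => x (I l), I, hN0, ?_, hb', hxy',
    fun l l' => hP1 l l', ?_⟩
  · have hinj : Function.Injective I := by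
      intro l l' hll
      by_contra hne
      have h1 := hP1 l l'
      rw [← hll, hP1, if_pos rfl, if_neg hne] at h1
      exact one_ne_zero h1
    have := Fintype.card_le_of_injective I hinj
    rwa [Fintype.card_fin, Fintype.card_fin] at this
  · rw [Fintype.linearIndependent_iff]
    by_contra hcon
    push Not at hcon
    obtain ⟨c, hc1, i, hi⟩ := hcon
    refine hmin N' (Nat.lt_succ_self _) ?_
    rw [hxy']
    exact red1 G _ _ hb' c (fun h => hi (congrFun h i)) hc1

end Pool.Agent.N750
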