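import Mathlib
import Pool.Agent.N750.Glb
import Pool.Agent.N750.Red

/-!
The estimate along a sequence of slow linear spaces.
-/

set_option autoImplicit false
set_option linter.unusedSectionVars false

open Filter Topology

namespace Pool.Agent.N750

open NumberField IsDedekindDomain Height Module MvPolynomial
open Pool.Agent.W180.OP (Pl av wt nrm le_nrm nrm_pos wt_nonneg exists_nrm)

variable {k K : Type} [Field k] [Field K] [NumberField K] [Algebra k K] {α : Type}
  {𝓕 : Ultrafilter α} {H : α → ℝ} {𝕊 : Type} [Field 𝕊] [CharZero 𝕊] [Algebra k 𝕊] [Algebra K 𝕊]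
  [IsScalarTower k K 𝕊] [Algebra 𝕊 (Gm 𝓕 K)] [Algebra k (Gm 𝓕 K)]
  [IsScalarTower k K (Gm 𝓕 K)] [IsScalarTower k 𝕊 (Gm 𝓕 K)] [IsScalarTower K 𝕊 (Gm 𝓕 K)]
  {M N g q ν n : ℕ}

/-- **the estimate along a sequence** -/
theorem slow_seq [CharZero (Gm 𝓕 K)] (hH : Tendsto H 𝓕 atTop) (rp : 𝕊 → α → K)
    (hr1 : ∀ s, Slow 𝓕 H (rp s)) (hr2 : ∀ s, mk 𝓕 (rp s) = algebraMap 𝕊 (Gm 𝓕 K) s)
    (hr3 : ∀ a, Slow 𝓕 H a → ∃ s : 𝕊, algebraMap 𝕊 (Gm 𝓕 K) s = mk 𝓕 a)
    (G : Fin g → MvPolynomial (Fin M) k) (hsm : Sm n G) (Hf : Fin q → Fin M → K)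
    (hnc : NCs G Hf) (b : Fin N → Fin M → 𝕊) (hb : LX G b) (I : Fin N → Fin M)
    (hbI : ∀ l l', b l (I l') = if l = l' then 1 else 0) (hN : 0 < N) (y : Fin N → α → K)
    (hind : LinearIndependent 𝕊 (fun l => mk 𝓕 (y l))) (x : Fin M → α → K)
    (hx : ∀ j, mk 𝓕 (x j) = ∑ l, mk 𝓕 (y l) * algebraMap 𝕊 (Gm 𝓕 K) (b l j))
    (hxH : ∀ᶠ t in (𝓕 : Filter α), logHeight (fun j => x j t) = H t)
    (hxF : ∀ᶠ t in (𝓕 : Filter α), ∀ s, lv (Hf s) (fun j => x j t) ≠ 0)
    (hgood : Good G Hf (fun l j => algebraMap 𝕊 (Gm 𝓕 K) (b l j)) (fun l => mk 𝓕 (y l)))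
    (A : α → Fin M → Fin (n + 1) → K)
    (hA : ∀ᶠ t in (𝓕 : Filter α), IsTB G (fun j => x j t) (A t)) (S : Finset (Pl K))
    (ε : ℝ) (hε : 0 < ε) :
    ∀ᶠ t in (𝓕 : Filter α), ∑ v ∈ S, wt v * ∑ s, (Real.log (nrm (av v) (fun j => x j t)) -
      Real.log (av v (lv (Hf s) (fun j => x j t)))) + logHeight (mv (A t)) ≤
      (n + 1 + ε) * H t := by
  classical
  set ι : 𝕊 →+* Gm 𝓕 K := algebraMap 𝕊 (Gm 𝓕 K) with hι
  have hxpt : (fun j => mk 𝓕 (x j)) = pt (fun l j => ι (b l j)) (fun l => mk 𝓕 (y l)) := by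
    funext j
    exact hx j
  -- the coordinates
  have hyI : ∀ l, mk 𝓕 (x (I l)) = mk 𝓕 (y l) := by
    intro l
    rw [hx, Finset.sum_eq_single l]
    · rw [hbI, if_pos rfl, map_one, mul_one]
    · intro l' _ hl'
      rw [hbI, if_neg hl', map_zero, mul_zero]
    · intro h
      exact absurd (Finset.mem_univ _) h
  have hyI' : ∀ᶠ t in (𝓕 : Filter α), ∀ l, x (I l) t = y l t := by
    rw [Filter.eventually_all]
    exact fun l => mk_eq.1 (hyI l)
  have hy0 : ∀ᶠ t in (𝓕 : Filter α), ∀ l, y l t ≠ 0 := by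
    rw [Filter.eventually_all]
    exact fun l => mk_ne_zero.1 (hind.ne_zero l)
  have hyv0 : ∀ᶠ t in (𝓕 : Filter α), (fun l => y l t) ≠ 0 := by
    filter_upwards [hy0] with t ht h
    exact ht ⟨0, hN⟩ (congrFun h _)
  have hyH : ∀ᶠ t in (𝓕 : Filter α), logHeight (fun l => y l t) ≤ H t := by
    filter_upwards [hyI', hxH] with t h1 h2
    have h3 : (fun l => y l t) = (fun j => x j t) ∘ I := by
      funext l
      exact (h1 l).symm
    rw [h3, ← h2]
    exact logHeight_comp_le _ _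
  -- the point does not vanish
  have hxv0 : (fun j => mk 𝓕 (x j)) ≠ 0 := by
    intro h
    have h1 := congrFun h (I ⟨0, hN⟩)
    rw [hyI] at h1
    exact hind.ne_zero _ h1
  obtain ⟨ν, β, e, hβ, hβind⟩ := slow_basis G hsm Hf b hb I hbI (fun l => mk 𝓕 (y l))
    (by rw [← hxpt]; exact hxv0) hgood
  -- the basis
  set Bt : Fin M → Fin (n + 1) → α → K := fun j c t => Sum.elim (fun l => rp (b l j) t)
    (fun c => ∑ l, y l t * rp (β c l j) t) (e c) with hBtdef
  have hBt : ∀ j c, mk 𝓕 (Bt j c) = Sum.elim (fun l => ι (b l j))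
      (fun c => ∑ l, mk 𝓕 (y l) * ι (β c l j)) (e c) := by
    intro j c
    rw [hBtdef]
    simp only
    rcases e c with l | c
    · exact hr2 _
    · show mk 𝓕 (fun t => ∑ l, y l t * rp (β c l j) t) = ∑ l, mk 𝓕 (y l) * ι (β c l j)
      rw [← sum_mk]
      refine Finset.sum_congr rfl fun l _ => ?_
      rw [← hr2, ← map_mul]
      rfl
  have hBtcol : ∀ c, (fun j => mk 𝓕 (Bt j c)) = Sum.elim (fun l j => ι (b l j))
      (fun c => pt (fun l j => ι (β c l j)) (fun l => mk 𝓕 (y l))) (e c) := by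
    intro c
    funext j
    rw [hBt]
    rcases e c with l | c <;> rfl
  have hBtind : LinearIndependent (Gm 𝓕 K) (fun c : Fin (n + 1) => fun j => mk 𝓕 (Bt j c)) := by
    have h1 := hβind.comp e e.injective
    have h2 : (Sum.elim (fun l j => ι (b l j))
        (fun c => pt (fun l j => ι (β c l j)) (fun l => mk 𝓕 (y l)))) ∘ e =
        fun c : Fin (n + 1) => fun j => mk 𝓕 (Bt j c) := by
      funext c
      rw [hBtcol]
      rfl
    rw [h2] at h1
    exact h1
  obtain ⟨J0, hJ0⟩ := exists_minor (fun j c => mk 𝓕 (Bt j c)) hBtind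
  have hJ0' : ∀ᶠ t in (𝓕 : Filter α), mv (fun j c => Bt j c t) J0 ≠ 0 := by
    rw [det_mk (fun x c => Bt (J0 x) c)] at hJ0
    exact mk_ne_zero.1 hJ0
  have hbX : LX G (fun l j => ι (b l j)) := LX_ext hb
  have hBtT : ∀ c, ∀ᶠ t in (𝓕 : Filter α), (fun j => Bt j c t) ∈ TS G (fun j => x j t) := by
    intro c
    rw [← TS_mk, hxpt, hBtcol]
    rcases e c with l | c
    · exact LX_tan hbX _ l
    · exact DT_ext (hβ c).1 _
  have hTB : ∀ᶠ t in (𝓕 : Filter α), IsTB G (fun j => x j t) (fun j c => Bt j c t) := by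
    have h1 : ∀ᶠ t in (𝓕 : Filter α), ∀ c, (fun j => Bt j c t) ∈ TS G (fun j => x j t) := by
      rw [Filter.eventually_all]
      exact hBtT
    filter_upwards [h1, hJ0'] with t h2 h3
    exact ⟨indep_of_minor _ J0 h3, h2⟩
  have hxX : ∀ᶠ t in (𝓕 : Filter α), ∀ i, aeval (fun j => x j t) (G i) = 0 := by
    rw [Filter.eventually_all]
    intro i
    refine mk_eq_zero.1 ?_
    rw [← aeval_mk, hxpt]
    exact hbX _ i
  have hxt0 : ∀ᶠ t in (𝓕 : Filter α), (fun j => x j t) ≠ 0 := by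
    filter_upwards [hyI', hy0] with t h1 h2 h3
    exact h2 ⟨0, hN⟩ ((h1 _).symm.trans (congrFun h3 _))
  obtain ⟨m, ⟨εJ'⟩⟩ := Finite.exists_equiv_fin (Fin (n + 1) → Fin M)
  set εJ : Fin m ≃ (Fin (n + 1) → Fin M) := εJ'.symm with hεJ
  have hBt0 : ∀ᶠ t in (𝓕 : Filter α), (fun i => mv (fun j c => Bt j c t) (εJ i)) ≠ 0 := by
    filter_upwards [hJ0'] with t h1 h2
    apply h1
    have := congrFun h2 (εJ.symm J0)
    rw [Equiv.apply_symm_apply] at this
    exact this
  have hAB : ∀ᶠ t in (𝓕 : Filter α), logHeight (mv (A t)) ≤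
      logHeight (fun i => mv (fun j c => Bt j c t) (εJ i)) := by
    filter_upwards [hA, hTB, hxX, hxt0] with t h1 h2 h3 h4
    refine (ht_TB (hsm K _ h4 h3) h1 h2).trans ?_
    have h5 : mv (fun j c => Bt j c t) = (fun i => mv (fun j c => Bt j c t) (εJ i)) ∘ εJ.symm := by
      funext J
      show _ = mv (fun j c => Bt j c t) (εJ (εJ.symm J))
      rw [Equiv.apply_symm_apply]
    refine le_trans (le_of_eq (congrArg logHeight h5)) ?_
    exact logHeight_comp_le εJ.symm (fun i => mv (fun j c => Bt j c t) (εJ i))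
  have hF6 : ∀ᶠ t in (𝓕 : Filter α), ∀ j, x j t = ∑ l, rp (b l j) t * y l t := by
    rw [Filter.eventually_all]
    intro j
    refine mk_eq.1 ?_
    rw [hx, rep_lin rp hr2 Finset.univ (fun l => b l j) y]
    exact Finset.sum_congr rfl fun l _ => mul_comm _ _
  by_cases hN1 : N = 1
  · subst hN1
    filter_upwards [hF6, hy0, hxH, hH.eventually_ge_atTop 1,
      slow_vec hH (a := fun j => rp (b 0 j)) (fun j => hr1 _) (show (0 : ℝ) < 1 / 2 by norm_num)]
      with t h1 h2 h3 h4 h5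
    exfalso
    have h6 : (fun j => x j t) = y 0 t • (fun j => rp (b 0 j) t) := by
      funext j
      rw [h1, Fin.sum_univ_one, Pi.smul_apply, smul_eq_mul, mul_comm]
    rw [h6, logHeight_smul_eq_logHeight _ (h2 0)] at h3
    rw [h3] at h5
    linarith
  have hN2 : 2 ≤ N := by omega
  choose D hD1 hD2 hD3 using fun v => local_v hH rp hr1 hr2 G hsm Hf hnc b hb I hbI β hβ e hN y
    hind x hx hxF Bt hBt εJ hBt0 v
  set Q : ℝ := S.card + 2 with hQ
  have hQ0 : 0 < Q := by positivity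
  have hε' : 0 < ε / Q := by positivity
  have hmov := moving hH hN2 S y 1 (by
    filter_upwards [hyH] with t ht
    rw [one_mul]
    exact ht) (by
    intro c hc hcy i
    choose s hs using fun i => hr3 (c i) (hc i)
    have h1 := Fintype.linearIndependent_iff.1 hind s (by
      have h2 : ∑ i, s i • mk 𝓕 (y i) = ∑ i, mk 𝓕 (c i) * mk 𝓕 (y i) := by
        refine Finset.sum_congr rfl fun i _ => ?_
        rw [Algebra.smul_def, ← hs]
      have h3 : mk 𝓕 (fun t => ∑ i, c i t * y i t) = ∑ i, mk 𝓕 (c i) * mk 𝓕 (y i) := by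
        rw [← sum_mk]
        refine Finset.sum_congr rfl fun l _ => ?_
        rw [← map_mul]
        rfl
      rw [h2, ← h3]
      exact mk_eq_zero.2 hcy) i
    refine mk_eq_zero.1 ?_
    rw [← hs, h1, map_zero]) D (fun v a l => hD1 v a l) (fun v _ => hD2 v) (ε / Q) hε'
  have hglob := glob hH rp hr1 hr2 b β e y hyv0 Bt hBt εJ hBt0 S (ε / Q) hε'
  have hloc : ∀ᶠ t in (𝓕 : Filter α), ∀ v ∈ S,
        wt v * Real.log (nrm (av v) (fun i => mv (fun j c => Bt j c t) (εJ i))) +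
        wt v * ∑ s, (Real.log (nrm (av v) (fun j => x j t)) -
          Real.log (av v (lv (Hf s) (fun j => x j t)))) ≤
        wt v * (ν * Real.log (nrm (av v) (fun l => y l t))) +
        wt v * ∑ a, (Real.log (nrm (av v) (fun l => y l t)) -
          Real.log (av v (∑ l, D v a l t * y l t))) + ε / Q * H t := by
    rw [Filter.eventually_all_finset]
    intro v _
    exact hD3 v (ε / Q) hε'
  have hcard : N + ν = n + 1 := by
    have := Fintype.card_congr e
    rw [Fintype.card_fin, Fintype.card_sum, Fintype.card_fin, Fintype.card_fin] at this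
    exact this.symm
  have hcard' : (N : ℝ) + ν = n + 1 := by exact_mod_cast hcard
  filter_upwards [hmov, hglob, hloc, hAB, hyH] with t h1 h2 h3 h4 h5
  have h6 := Finset.sum_le_sum h3
  simp only [Finset.sum_add_distrib, Finset.sum_const, nsmul_eq_mul] at h6
  simp only [mul_sub, Finset.sum_sub_distrib] at h2
  have h7 : ε * H t = (S.card + 1 + 1) * (ε / Q * H t) := by
    have : (S.card : ℝ) + 1 + 1 = Q := by rw [hQ]; ring
    rw [this]
    field_simp
  have h8 : ((N : ℝ) + ν) * logHeight (fun l => y l t) ≤ (n + 1) * H t := by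
    rw [hcard']
    exact mul_le_mul_of_nonneg_left h5 (by positivity)
  have h9 : (n + 1 + ε) * H t = (n + 1) * H t + ε * H t := by ring
  rw [h9, h7]
  linarith

end Pool.Agent.N750
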