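import Mathlib
import Pool.Agent.N750.Sqs

/-!
Passage between the members of a family and the germs; the field of slow germs.
-/

set_option autoImplicit false
set_option linter.unusedSectionVars false

open Filter Topology

namespace Pool.Agent.N750

open NumberField IsDedekindDomain Height Module MvPolynomial
open Pool.Agent.W180.OP (Pl av wt nrm le_nrm nrm_pos wt_nonneg exists_nrm)

section

variable {k K : Type} [Field k] [Field K] [Algebra k K] {α : Type} {𝓕 : Ultrafilter α}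
  {M N g q : ℕ} [Algebra k (Gm 𝓕 K)] [IsScalarTower k K (Gm 𝓕 K)]

/-- linear spaces on the variety, from germs to members -/
theorem LX_mk' (G : Fin g → MvPolynomial (Fin M) k) (b : Fin N → Fin M → α → K)
    (h : LX G (fun l j => mk 𝓕 (b l j))) :
    ∀ᶠ t in (𝓕 : Filter α), LX G (fun l j => b l j t) := by
  classical
  by_contra hcon
  have h1 : ∀ᶠ t in (𝓕 : Filter α), ¬ LX G (fun l j => b l j t) :=
    Ultrafilter.eventually_not.2 hcon
  have h2 : ∀ t, ∃ Y : Fin N → K, ¬ LX G (fun l j => b l j t) →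
      ∃ i, aeval (pt (fun l j => b l j t) Y) (G i) ≠ 0 := by
    intro t
    by_cases h3 : LX G (fun l j => b l j t)
    · exact ⟨0, fun h4 => absurd h3 h4⟩
    · have h4 := h3
      unfold LX at h4
      push Not at h4
      obtain ⟨Y, i, hi⟩ := h4
      exact ⟨Y, fun _ => ⟨i, hi⟩⟩
  choose Y hY using h2
  have h3 := h (fun l => mk 𝓕 (fun t => Y t l))
  have h4 : ∀ᶠ t in (𝓕 : Filter α), ∀ i, aeval (pt (fun l j => b l j t) (Y t)) (G i) = 0 := by
    rw [Filter.eventually_all]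
    intro i
    have h5 := h3 i
    rw [pt_mk, aeval_mk] at h5
    exact mk_eq_zero.1 h5
  obtain ⟨t, h5, h6⟩ := (h1.and h4).exists
  obtain ⟨i, hi⟩ := hY t h5
  exact hi (h6 i)

/-- good points, from members to germs -/
theorem Good_mk (G : Fin g → MvPolynomial (Fin M) k) (H : Fin q → Fin M → K)
    (b : Fin N → Fin M → α → K) (y : Fin N → α → K)
    (h : ∀ᶠ t in (𝓕 : Filter α), Good G H (fun l j => b l j t) (fun l => y l t)) :
    Good G H (fun l j => mk 𝓕 (b l j)) (fun l => mk 𝓕 (y l)) := by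
  classical
  intro τ hτ
  choose τ' hτ' using fun j => mk_surj (τ j)
  obtain rfl : τ = fun j => mk 𝓕 (τ' j) := by
    funext j
    exact (hτ' j).symm
  rw [pt_mk, TS_mk] at hτ
  have h1 : ∀ t, ∃ (c : Fin N → K) (β : Fin N → Fin M → K),
      (Good G H (fun l j => b l j t) (fun l => y l t) ∧
        (fun j => τ' j t) ∈ TS G (pt (fun l j => b l j t) (fun l => y l t))) →
      DT G H (fun l j => b l j t) β ∧
        (fun j => τ' j t) = pt (fun l j => b l j t) c + pt β (fun l => y l t) := by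
    intro t
    by_cases h2 : Good G H (fun l j => b l j t) (fun l => y l t) ∧
        (fun j => τ' j t) ∈ TS G (pt (fun l j => b l j t) (fun l => y l t))
    · obtain ⟨c, β, h3⟩ := h2.1 _ h2.2
      exact ⟨c, β, fun _ => h3⟩
    · exact ⟨0, 0, fun h3 => absurd h3 h2⟩
  choose c β hcβ using h1
  refine ⟨fun l => mk 𝓕 (fun t => c t l), fun l j => mk 𝓕 (fun t => β t l j),
    DT_mk G H b (fun l j t => β t l j) ?_, ?_⟩
  · filter_upwards [h, hτ] with t h2 h3
    exact (hcβ t ⟨h2, h3⟩).1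
  · rw [pt_mk, pt_mk]
    funext j
    rw [Pi.add_apply, ← map_add]
    refine mk_eq.2 ?_
    filter_upwards [h, hτ] with t h2 h3
    exact congrFun (hcβ t ⟨h2, h3⟩).2 j

end

section slow

variable {k K : Type} [Field k] [Field K] [NumberField K] [Algebra k K] {α : Type}
  {𝓕 : Ultrafilter α} {H : α → ℝ} {hH : Tendsto H 𝓕 atTop}

noncomputable instance algS : Algebra K (slowF 𝓕 K H hH) :=
  ((algebraMap K (Gm 𝓕 K)).codRestrict (slowF 𝓕 K H hH)
    (fun c => (mem_slowF.2 ⟨fun _ => c, rfl, slow_const hH c⟩ :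
      algebraMap K (Gm 𝓕 K) c ∈ slowF 𝓕 K H hH))).toAlgebra

instance towS : IsScalarTower K (slowF 𝓕 K H hH) (Gm 𝓕 K) :=
  IsScalarTower.of_algebraMap_eq fun _ => rfl

/-- the slow representatives -/
theorem exists_rp : ∃ rp : slowF 𝓕 K H hH → α → K, (∀ s, Slow 𝓕 H (rp s)) ∧
    ∀ s, mk 𝓕 (rp s) = algebraMap (slowF 𝓕 K H hH) (Gm 𝓕 K) s := by
  choose rp h1 h2 using fun s : slowF 𝓕 K H hH => s.2
  exact ⟨rp, h2, h1⟩

theorem slow_mem (a : α → K) (ha : Slow 𝓕 H a) :
    ∃ s : slowF 𝓕 K H hH, algebraMap (slowF 𝓕 K H hH) (Gm 𝓕 K) s = mk 𝓕 a :=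
  ⟨⟨mk 𝓕 a, a, rfl, ha⟩, rfl⟩

end slow

end Pool.Agent.N750
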