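import Mathlib
import Pool.Agent.N750.HtC
import Pool.Agent.N750.Geo

/-!
The data over the base field attached to a point of a variety on a line.
-/

set_option autoImplicit false
set_option linter.unusedSectionVars false

open Finset Filter Topology

namespace Pool.Agent.N750

open NumberField IsDedekindDomain Height Module
open Pool.Agent.W180.OP (Pl av wt nrm le_nrm nrm_pos wt_nonneg exists_nrm nrm_nonneg)

variable {k K : Type} [Field k] [NumberField k] [Field K] [NumberField K] [Algebra k K]

/-- the passage to the base field, general form -/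
theorem kdata2 {M q d : ℕ} (F : MvPolynomial (Fin M) k)
    (H : Fin q → Fin M → K)
    (hF : F.map (algebraMap k K) = ∏ i, ∑ j, MvPolynomial.C (H i j) * MvPolynomial.X j)
    (hFq : F.IsHomogeneous q) (S : Finset (Pl k)) (C0 : ℝ) (hC0 : 0 ≤ C0) :
    ∃ C : ℝ, 0 ≤ C ∧ ∀ (L : Type) [Field L] [NumberField L] [Algebra k L], finrank k L = d →
      ∀ (x : Fin M → L), x ≠ 0 → MvPolynomial.aeval x F ≠ 0 →
      ∀ (l0 : Fin M) (a b : Fin M → k) (E : ℝ) (z1 y : L), z1 ≠ 0 → a l0 = 1 →
        (x = fun l => z1 * (algebraMap k L (a l) + algebraMap k L (b l) * y)) →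
        (∀ l, logHeight₁ (a l) ≤ E ∧ logHeight₁ (b l) ≤ E) →
        logHeight ![1, y] ≤ logHeight x + C0 →
        ∃ (f : Fin (d + 1) → k) (z : k), z ≠ 0 ∧ f ≠ 0 ∧ logHeight f ≤ logHeight x + C ∧
          algebraMap k K z = ∏ s, bev d (fun j => algebraMap k K (f j))
            (∑ l, H s l * algebraMap k K (b l)) (∑ l, H s l * algebraMap k K (a l)) ∧
          (∑ v ∈ S, ∑ w ∈ ab L v, wt w * (q * Real.log (nrm (av w) x) -
            Real.log (av w (MvPolynomial.aeval x F)))) ≤
          ∑ v ∈ S, (q * (wt v * Real.log (nrm (av v) f)) - wt v * Real.log (av v z)) +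
            C + C * E := by
  classical
  choose c hc0 hc using fun v : Pl k => loc_cmp v d
  have hl2 : 0 ≤ Real.log 2 := Real.log_nonneg (by norm_num)
  set C : ℝ := finrank ℚ k * (d * Real.log 2) + C0 +
    q * ∑ v ∈ S, (2 * d * Real.log 2 + c v) + q * (d * (2 * M)) with hC
  have hC1 : 0 ≤ (finrank ℚ k : ℝ) * (d * Real.log 2) := by positivity
  have hC2 : 0 ≤ (q : ℝ) * ∑ v ∈ S, (2 * d * Real.log 2 + c v) := by
    refine mul_nonneg (Nat.cast_nonneg _) (Finset.sum_nonneg fun v _ => ?_)
    have := hc0 v
    positivity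
  have hC3 : 0 ≤ (q : ℝ) * (d * (2 * M)) := by positivity
  refine ⟨C, by linarith, ?_⟩
  intro L _ _ _ hd x hx0 hFx l0 a b E z1 y hz1 hal0 hxz' hE hy
  have hE0 : 0 ≤ E := (zero_le_logHeight₁ _).trans (hE l0).1
  set z : Fin M → L := fun l => algebraMap k L (a l) + algebraMap k L (b l) * y with hz
  have hxz : x = fun l => z1 * z l := hxz'
  have hFxz : MvPolynomial.aeval x F = z1 ^ q * MvPolynomial.aeval z F := by
    conv_lhs => rw [hxz]
    exact aeval_hom hFq _ _
  have hFz : MvPolynomial.aeval z F ≠ 0 := by
    intro h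
    apply hFx
    rw [hFxz, h, mul_zero]
  obtain ⟨f, hf⟩ := exists_isNF hd y
  have hz0 : z ≠ 0 := by
    intro h
    apply hx0
    rw [hxz]
    funext l
    rw [h]
    simp
  have hNz : Algebra.norm k (MvPolynomial.aeval z F) ≠ 0 := Algebra.norm_ne_zero_iff.2 hFz
  refine ⟨f, Algebra.norm k (MvPolynomial.aeval z F), hNz, isNF_ne hf, ?_,
    norm_prod F H hF a b y hf, ?_⟩
  · have h1 := isNF_height hd y hf
    linarith
  · -- the main estimate
    have hcv : (Fin.append a b : Fin (M + M) → k) (Fin.castAdd M l0) = 1 := by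
      rw [Fin.append_left, hal0]
    have hcv0 : (Fin.append a b : Fin (M + M) → k) ≠ 0 := fun h =>
      one_ne_zero (hcv.symm.trans (congrFun h _))
    have hpart := part_le (Fin.append a b : Fin (M + M) → k) _ hcv S
    have hht : logHeight (Fin.append a b : Fin (M + M) → k) ≤ 2 * M * E := by
      refine (logHeight_le_sum _).trans ?_
      rw [Fin.sum_univ_add]
      simp only [Fin.append_left, Fin.append_right]
      have e1 := Finset.sum_le_sum fun l (_ : l ∈ Finset.univ) => (hE l).1
      have e2 := Finset.sum_le_sum fun l (_ : l ∈ Finset.univ) => (hE l).2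
      rw [Finset.sum_const, Finset.card_univ, Fintype.card_fin, nsmul_eq_mul] at e1 e2
      linarith
    have h1y : (![1, y] : Fin 2 → L) ≠ 0 := fun h => one_ne_zero (congrFun h 0)
    have hcL0 : (fun i => algebraMap k L ((Fin.append a b : Fin (M + M) → k) i)) ≠ 0 := by
      intro h
      have := congrFun h (Fin.castAdd M l0)
      simp only [hcv, map_one, Pi.zero_apply] at this
      exact one_ne_zero this
    have hloc : ∀ v ∈ S, ∑ w ∈ ab L v, wt w * (q * Real.log (nrm (av w) x) -
        Real.log (av w (MvPolynomial.aeval x F))) ≤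
        (q * (wt v * Real.log (nrm (av v) f)) - wt v * Real.log (av v (Algebra.norm k
          (MvPolynomial.aeval z F)))) + q * (2 * d * Real.log 2 + c v) +
        q * (d * (wt v * Real.log (nrm (av v) (Fin.append a b : Fin (M + M) → k)))) := by
      intro v _
      have e1 : ∀ w ∈ ab L v, wt w * (q * Real.log (nrm (av w) x) -
          Real.log (av w (MvPolynomial.aeval x F))) ≤
          q * (2 * Real.log 2 + wt w * Real.log (nrm (av w) (fun i => algebraMap k L
            ((Fin.append a b : Fin (M + M) → k) i))) +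
              wt w * Real.log (nrm (av w) ![1, y])) -
          wt w * Real.log (av w (MvPolynomial.aeval z F)) := by
        intro w _
        have hzp := nrm_pos (av w) hz0
        have hxip : 0 < av w z1 := (av w).pos_iff.2 hz1
        have hFzp : 0 < av w (MvPolynomial.aeval z F) := (av w).pos_iff.2 hFz
        have g1 : Real.log (nrm (av w) x) = Real.log (av w z1) + Real.log (nrm (av w) z) := by
          conv_lhs => rw [hxz]
          rw [nrm_smul, Real.log_mul hxip.ne' hzp.ne']
        have g2 : Real.log (av w (MvPolynomial.aeval x F)) = q * Real.log (av w z1) +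
            Real.log (av w (MvPolynomial.aeval z F)) := by
          rw [hFxz, map_mul, map_pow, Real.log_mul (pow_pos hxip _).ne' hFzp.ne', Real.log_pow]
        rw [g1, g2]
        have g3 := Real.log_le_log hzp (line_nrm a b y w)
        rw [Real.log_mul (cst_pos (by norm_num) w).ne' (mul_pos (nrm_pos _ hcL0)
          (nrm_pos _ h1y)).ne', Real.log_mul (nrm_pos _ hcL0).ne' (nrm_pos _ h1y).ne'] at g3
        have g4 : Real.log (cst 2 w) ≤ Real.log 2 := by
          rcases w with w | w
          · exact le_rfl
          · show Real.log 1 ≤ _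
            rw [Real.log_one]
            exact hl2
        have g5 : wt w * Real.log (nrm (av w) z) ≤ 2 * Real.log 2 + wt w * Real.log (nrm (av w)
            (fun i => algebraMap k L ((Fin.append a b : Fin (M + M) → k) i))) +
              wt w * Real.log (nrm (av w) ![1, y]) := by
          have g6 := mul_le_mul_of_nonneg_left g3 (wt_nonneg w)
          have g7 : wt w * Real.log (cst 2 w) ≤ 2 * Real.log 2 :=
            (mul_le_mul_of_nonneg_left g4 (wt_nonneg w)).trans
              (mul_le_mul_of_nonneg_right (wt_le_two w) hl2)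
          rw [mul_add, mul_add] at g6
          linarith
        have g8 := mul_le_mul_of_nonneg_left g5 (Nat.cast_nonneg (α := ℝ) q)
        linarith
      refine (Finset.sum_le_sum e1).trans ?_
      rw [Finset.sum_sub_distrib, ← Finset.mul_sum, Finset.sum_add_distrib,
        Finset.sum_add_distrib, Finset.sum_const, nsmul_eq_mul, efn v _ hcv0, nf v _ hFz, hd]
      have e2 := hc v L hd y f hf
      have e3 : ((ab L v).card : ℝ) * (2 * Real.log 2) ≤ d * (2 * Real.log 2) := by
        refine mul_le_mul_of_nonneg_right ?_ (by positivity)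
        have := ab_card (L := L) v
        rw [hd] at this
        exact_mod_cast this
      have e4 : (q : ℝ) * (((ab L v).card : ℝ) * (2 * Real.log 2) +
          d * (wt v * Real.log (nrm (av v) (Fin.append a b : Fin (M + M) → k))) +
          ∑ w ∈ ab L v, wt w * Real.log (nrm (av w) ![1, y])) ≤
          q * (d * (2 * Real.log 2) +
          d * (wt v * Real.log (nrm (av v) (Fin.append a b : Fin (M + M) → k))) +
          (wt v * Real.log (nrm (av v) f) + c v)) :=
        mul_le_mul_of_nonneg_left (by linarith) (Nat.cast_nonneg _)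
      linarith
    refine (Finset.sum_le_sum hloc).trans ?_
    rw [Finset.sum_add_distrib, Finset.sum_add_distrib, ← Finset.mul_sum, ← Finset.mul_sum,
      ← Finset.mul_sum]
    have h5 : (q : ℝ) * (d * ∑ v ∈ S, wt v * Real.log (nrm (av v)
        (Fin.append a b : Fin (M + M) → k))) ≤ q * (d * (2 * M * E)) :=
      mul_le_mul_of_nonneg_left (mul_le_mul_of_nonneg_left (hpart.trans hht)
        (Nat.cast_nonneg _)) (Nat.cast_nonneg _)
    have h6 : C * E = (finrank ℚ k * (d * Real.log 2) + C0) * E +
      (q * ∑ v ∈ S, (2 * d * Real.log 2 + c v)) * E + (q * (d * (2 * M))) * E := by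
      rw [hC]
      ring
    have h7 := mul_nonneg (add_nonneg hC1 hC0) hE0
    have h8 := mul_nonneg hC2 hE0
    rw [h6]
    linarith

/-- the height of a point on a line -/
theorem pt_ht {L : Type} [Field L] [NumberField L] [Algebra k L] {M : ℕ} (a b : Fin M → k)
    (y : L) (hz : (fun l => algebraMap k L (a l) + algebraMap k L (b l) * y) ≠ 0) :
    logHeight (fun l => algebraMap k L (a l) + algebraMap k L (b l) * y) ≤
      logHeight ![1, y] + finrank k L * logHeight (Fin.append a b : Fin (M + M) → k) +
        finrank ℚ L * Real.log 2 := by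
  classical
  set z : Fin M → L := fun l => algebraMap k L (a l) + algebraMap k L (b l) * y with hzdef
  have h1y : (![1, y] : Fin 2 → L) ≠ 0 := fun h => one_ne_zero (congrFun h 0)
  have hcL0 : (fun i => algebraMap k L ((Fin.append a b : Fin (M + M) → k) i)) ≠ 0 := by
    intro h
    apply hz
    funext l
    have h1 := congrFun h (Fin.castAdd M l)
    have h2 := congrFun h (Fin.natAdd M l)
    simp only [Fin.append_left, Pi.zero_apply] at h1
    simp only [Fin.append_right, Pi.zero_apply] at h2
    rw [hzdef]
    simp only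
    rw [h1, h2, zero_mul, add_zero]
    rfl
  have h1 := ht_gen (K := L) (Finset.univ : Finset (Fin 3))
    (fun q => match q with | 0 => M | 1 => 2 | 2 => M + M)
    (fun q => match q with
      | 0 => z
      | 1 => ![1, y]
      | 2 => fun i => algebraMap k L ((Fin.append a b : Fin (M + M) → k) i))
    (fun q => match q with | 0 => -1 | 1 => 1 | 2 => 1)
    (by
      intro q _
      fin_cases q
      · exact hz
      · exact h1y
      · exact hcL0) 2 (by
      intro p
      rw [Fin.sum_univ_three]
      show 0 ≤ -1 * Real.log (nrm (av p) z) + 1 * Real.log (nrm (av p) ![1, y]) +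
        1 * Real.log (nrm (av p) (fun i => algebraMap k L
          ((Fin.append a b : Fin (M + M) → k) i))) + _
      have g3 := Real.log_le_log (nrm_pos (av p) hz) (line_nrm a b y p)
      rw [Real.log_mul (cst_pos (by norm_num) p).ne' (mul_pos (nrm_pos _ hcL0)
        (nrm_pos _ h1y)).ne', Real.log_mul (nrm_pos _ hcL0).ne' (nrm_pos _ h1y).ne'] at g3
      linarith)
  rw [Fin.sum_univ_three] at h1
  have h2 : 0 ≤ -1 * logHeight z + 1 * logHeight ![1, y] +
    1 * logHeight (fun i => algebraMap k L ((Fin.append a b : Fin (M + M) → k) i)) +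
    finrank ℚ L * Real.log 2 := h1
  have h3 : logHeight (fun i => algebraMap k L ((Fin.append a b : Fin (M + M) → k) i)) =
      finrank k L * logHeight (Fin.append a b : Fin (M + M) → k) :=
    Pool.Agent.Helper259.HtExt.logHeight_ext (Fin.append a b : Fin (M + M) → k)
  rw [h3] at h2
  linarith

/-- the height of the parameter -/
theorem par_ht {L : Type} [Field L] [NumberField L] {N : ℕ} (x : Fin N → L) (i j : Fin N)
    (c Q : ℕ) (hc : c ≤ Q) (hz : x i - (c : L) * x j ≠ 0) :
    logHeight ![1, x j / (x i - (c : L) * x j)] ≤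
      logHeight x + finrank ℚ L * Real.log ((Q : ℝ) + 1) := by
  classical
  set z1 : L := x i - (c : L) * x j with hz1
  have hx0 : x ≠ 0 := by
    intro h
    apply hz
    rw [hz1, h]
    simp
  have h1 : (![1, x j / z1] : Fin 2 → L) = z1⁻¹ • ![z1, x j] := by
    funext s
    fin_cases s
    · show (1 : L) = z1⁻¹ * z1
      rw [inv_mul_cancel₀ hz]
    · show x j / z1 = z1⁻¹ * x j
      field_simp
  rw [h1, logHeight_smul_eq_logHeight _ (inv_ne_zero hz)]
  have hV0 : (![z1, x j] : Fin 2 → L) ≠ 0 := fun h => hz (congrFun h 0)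
  have hQ : (1 : ℝ) ≤ (Q : ℝ) + 1 := by
    have := Nat.cast_nonneg (α := ℝ) Q
    linarith
  have hloc : ∀ p : Pl L, nrm (av p) ![z1, x j] ≤ cst ((Q : ℝ) + 1) p * nrm (av p) x := by
    intro p
    have hxn := nrm_nonneg (av p) x
    obtain ⟨i', hi'⟩ := exists_nrm (av p) (by norm_num : 0 < 2) ![z1, x j]
    rw [← hi']
    fin_cases i'
    · show av p z1 ≤ _
      have h2 := av_sum p (Finset.univ : Finset (Fin (c + 1)))
        (Fin.cons (x i) (fun _ : Fin c => -x j)) (nrm (av p) x) hxn (by
          intro m _
          refine Fin.cases ?_ (fun m => ?_) m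
          · rw [Fin.cons_zero]
            exact le_nrm _ _ _
          · rw [Fin.cons_succ, (av p).map_neg]
            exact le_nrm _ _ _) ((Q : ℝ) + 1) (by
          rw [Finset.card_univ, Fintype.card_fin]
          push_cast
          have : (c : ℝ) ≤ Q := by exact_mod_cast hc
          linarith)
      have h3 : ∑ m : Fin (c + 1), (Fin.cons (x i) (fun _ : Fin c => -x j) : Fin (c + 1) → L) m =
          z1 := by
        rw [Fin.sum_univ_succ, Fin.cons_zero]
        simp only [Fin.cons_succ]
        rw [Finset.sum_const, Finset.card_univ, Fintype.card_fin, nsmul_eq_mul, hz1]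
        ring
      rw [h3] at h2
      exact h2
    · show av p (x j) ≤ _
      exact (le_nrm _ _ _).trans (le_mul_of_one_le_left hxn (one_le_cst hQ p))
  have h2 := ht_gen (K := L) (Finset.univ : Finset (Fin 2))
    (fun q => match q with | 0 => 2 | 1 => N)
    (fun q => match q with
      | 0 => ![z1, x j]
      | 1 => x)
    (fun q => match q with | 0 => -1 | 1 => 1)
    (by
      intro q _
      fin_cases q
      · exact hV0
      · exact hx0) ((Q : ℝ) + 1) (by
      intro p
      rw [Fin.sum_univ_two]
      show 0 ≤ -1 * Real.log (nrm (av p) ![z1, x j]) + 1 * Real.log (nrm (av p) x) + _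
      have g3 := Real.log_le_log (nrm_pos (av p) hV0) (hloc p)
      rw [Real.log_mul (cst_pos (by linarith) p).ne' (nrm_pos _ hx0).ne'] at g3
      linarith)
  rw [Fin.sum_univ_two] at h2
  have h3 : 0 ≤ -1 * logHeight ![z1, x j] + 1 * logHeight x +
    finrank ℚ L * Real.log ((Q : ℝ) + 1) := h2
  linarith

/-- a good parameter -/
theorem exists_par {R R' : Type} [Field R] [Field R'] [CharZero R] [CharZero R'] {q : ℕ}
    (A B : Fin q → R) (hAB : ∀ s, A s ≠ 0 ∨ B s ≠ 0) (u v : R') (huv : u ≠ 0 ∨ v ≠ 0) :
    ∃ c : ℕ, c ≤ q + 1 ∧ (∀ s, B s + (c : R) * A s ≠ 0) ∧ u - (c : R') * v ≠ 0 := by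
  classical
  by_contra hcon
  push Not at hcon
  set Bad : Option (Fin q) → Finset ℕ := fun o => match o with
    | none => (Finset.range (q + 2)).filter fun c : ℕ => u - (c : R') * v = 0
    | some s => (Finset.range (q + 2)).filter fun c : ℕ => B s + (c : R) * A s = 0 with hBad
  have h1 : Finset.range (q + 2) ⊆ Finset.univ.biUnion Bad := by
    intro c hc
    rw [Finset.mem_biUnion]
    by_cases hs : ∀ s, B s + (c : R) * A s ≠ 0
    · refine ⟨none, Finset.mem_univ _, ?_⟩
      show c ∈ (Finset.range (q + 2)).filter fun c : ℕ => u - (c : R') * v = 0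
      rw [Finset.mem_filter]
      exact ⟨hc, hcon c (by have := Finset.mem_range.1 hc; omega) hs⟩
    · push Not at hs
      obtain ⟨s, hs⟩ := hs
      refine ⟨some s, Finset.mem_univ _, ?_⟩
      show c ∈ (Finset.range (q + 2)).filter fun c : ℕ => B s + (c : R) * A s = 0
      rw [Finset.mem_filter]
      exact ⟨hc, hs⟩
  have h2 : ∀ o, (Bad o).card ≤ 1 := by
    rintro (_ | s)
    · rw [Finset.card_le_one]
      intro c hc c' hc'
      have e1 : u - (c : R') * v = 0 := (Finset.mem_filter.1 hc).2
      have e2 : u - (c' : R') * v = 0 := (Finset.mem_filter.1 hc').2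
      have e3 : ((c : R') - c') * v = 0 := by linear_combination e2 - e1
      rcases mul_eq_zero.1 e3 with e4 | e4
      · exact Nat.cast_injective (R := R') (sub_eq_zero.1 e4)
      · exfalso
        rw [e4, mul_zero, sub_zero] at e1
        rcases huv with h | h
        · exact h e1
        · exact h e4
    · rw [Finset.card_le_one]
      intro c hc c' hc'
      have e1 : B s + (c : R) * A s = 0 := (Finset.mem_filter.1 hc).2
      have e2 : B s + (c' : R) * A s = 0 := (Finset.mem_filter.1 hc').2
      have e3 : ((c : R) - c') * A s = 0 := by linear_combination e1 - e2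
      rcases mul_eq_zero.1 e3 with e4 | e4
      · exact Nat.cast_injective (R := R) (sub_eq_zero.1 e4)
      · exfalso
        rw [e4, mul_zero, add_zero] at e1
        rcases hAB s with h | h
        · exact h e4
        · exact h e1
  have h3 := Finset.card_le_card h1
  rw [Finset.card_range] at h3
  have h4 : (Finset.univ.biUnion Bad).card ≤ ∑ o : Option (Fin q), 1 :=
    Finset.card_biUnion_le.trans (Finset.sum_le_sum fun o _ => h2 o)
  rw [Finset.sum_const, Finset.card_univ, Fintype.card_option, Fintype.card_fin, smul_eq_mul,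
    mul_one] at h4
  omega

/-- the forms do not vanish on the line -/
theorem forms_ne {M q : ℕ} (F : MvPolynomial (Fin M) k) (H : Fin q → Fin M → K)
    (hF : F.map (algebraMap k K) = ∏ i, ∑ j, MvPolynomial.C (H i j) * MvPolynomial.X j)
    {L : Type} [Field L] [NumberField L] [Algebra k L] (x : Fin M → L)
    (hx : MvPolynomial.aeval x F ≠ 0) (i j : Fin M) (a b : Fin M → k)
    (hl : ∀ l, x l = algebraMap k L (a l) * x i + algebraMap k L (b l) * x j) (s : Fin q) :
    lv (H s) (fun l => algebraMap k K (a l)) ≠ 0 ∨
      lv (H s) (fun l => algebraMap k K (b l)) ≠ 0 := by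
  classical
  let Ω := AlgebraicClosure K
  have : Algebra.IsAlgebraic k L := Algebra.IsAlgebraic.of_finite k L
  let σ : L →ₐ[k] Ω := IsAlgClosed.lift
  by_contra hcon
  push Not at hcon
  apply hx
  refine (map_eq_zero_iff σ σ.injective).1 ?_
  have e1 : σ (MvPolynomial.aeval x F) = MvPolynomial.aeval (fun l => σ (x l)) F :=
    MvPolynomial.comp_aeval_apply _ σ F
  rw [e1, ← MvPolynomial.aeval_map_algebraMap K, hF, map_prod]
  refine Finset.prod_eq_zero (Finset.mem_univ s) ?_
  rw [map_sum]
  have e2 : ∀ l, MvPolynomial.aeval (fun l => σ (x l)) (MvPolynomial.C (H s l) *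
      MvPolynomial.X l : MvPolynomial (Fin M) K) =
      algebraMap K Ω (H s l * algebraMap k K (a l)) * σ (x i) +
        algebraMap K Ω (H s l * algebraMap k K (b l)) * σ (x j) := by
    intro l
    rw [map_mul, MvPolynomial.aeval_C, MvPolynomial.aeval_X, hl l, map_add, map_mul, map_mul,
      σ.commutes, σ.commutes, map_mul, map_mul, IsScalarTower.algebraMap_apply k K Ω,
      IsScalarTower.algebraMap_apply k K Ω]
    ring
  rw [Finset.sum_congr rfl fun l _ => e2 l, Finset.sum_add_distrib, ← Finset.sum_mul,
    ← Finset.sum_mul, ← map_sum, ← map_sum]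
  have e3 : ∑ l, H s l * algebraMap k K (a l) = 0 := hcon.1
  have e4 : ∑ l, H s l * algebraMap k K (b l) = 0 := hcon.2
  rw [e3, e4, map_zero, zero_mul, zero_mul, add_zero]

end Pool.Agent.N750
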