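import Mathlib
import Pool.Agent.N750.KX

/-!
The data over the base field attached to a point of a variety on a line, continued.
-/

set_option autoImplicit false
set_option linter.unusedSectionVars false

open Finset Filter Topology

namespace Pool.Agent.N750

open NumberField IsDedekindDomain Height Module
open Pool.Agent.W180.OP (Pl av wt nrm le_nrm nrm_pos wt_nonneg exists_nrm nrm_nonneg)

variable {k K : Type} [Field k] [NumberField k] [Field K] [NumberField K] [Algebra k K]

/-- the data over the base field -/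
def KX (d M q n' : ℕ) (H : Fin q → Fin M → K) (S : Finset (Pl k)) (C E h P Gs : ℝ) : Prop :=
  ∃ (a b : Fin M → k) (f : Fin (d + 1) → k) (z : k), z ≠ 0 ∧ f ≠ 0 ∧
    (∀ l, logHeight₁ (a l) ≤ E ∧ logHeight₁ (b l) ≤ E) ∧ logHeight f ≤ h + C ∧
    algebraMap k K z = ∏ s, bev d (fun j => algebraMap k K (f j))
      (∑ l, H s l * algebraMap k K (b l)) (∑ l, H s l * algebraMap k K (a l)) ∧
    P ≤ ∑ v ∈ S, (q * (wt v * Real.log (nrm (av v) f)) - wt v * Real.log (av v z)) + C + C * E ∧
    ∀ (T : Finset (Fin q)) (r : Fin q → Fin q), (∀ s ∈ T, r s ∉ T) →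
      (∀ s ∈ T, (∑ l, H (r s) l * algebraMap k K (a l)) * (∑ l, H s l * algebraMap k K (b l)) =
        (∑ l, H s l * algebraMap k K (a l)) * (∑ l, H (r s) l * algebraMap k K (b l))) →
      (∀ s ∈ T, ∀ s' ∈ T, r s ≠ r s' →
        (∑ l, H (r s) l * algebraMap k K (a l)) * (∑ l, H (r s') l * algebraMap k K (b l)) ≠
        (∑ l, H (r s') l * algebraMap k K (a l)) * (∑ l, H (r s) l * algebraMap k K (b l))) →
      T.card ≤ n' ∧ Gs ≤ ((n' - T.card : ℕ) : ℝ) * h + C + C * E

/-- **the passage to the base field for points of a variety on a line** -/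
theorem kx_main {M q g n' m : ℕ} (F : MvPolynomial (Fin M) k) (H : Fin q → Fin M → K)
    (hF : F.map (algebraMap k K) = ∏ i, ∑ j, MvPolynomial.C (H i j) * MvPolynomial.X j)
    (hFq : F.IsHomogeneous q)
    (G : Fin g → MvPolynomial (Fin M) k) (e : Fin g → ℕ) (hG : ∀ i, (G i).IsHomogeneous (e i))
    (hsm : Sm (n' + 1) G) (Φ : MvPolynomial (Fin M) k) (hΦm : Φ.IsHomogeneous m)
    (hgeo : ∀ a b : Fin M → k, (∃ l l', a l * b l' - a l' * b l ≠ 0) →
      (∀ i, MvPolynomial.aeval (lp a b) (G i) = 0) → MvPolynomial.aeval (lp a b) Φ ≠ 0 →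
      (∀ s, lv (H s) (fun l => algebraMap k K (b l)) ≠ 0) →
      ∀ (T : Finset (Fin q)) (r : Fin q → Fin q), (∀ s ∈ T, r s ∉ T) →
      (∀ s ∈ T, lv (H (r s)) (fun l => algebraMap k K (a l)) *
        lv (H s) (fun l => algebraMap k K (b l)) =
        lv (H s) (fun l => algebraMap k K (a l)) *
        lv (H (r s)) (fun l => algebraMap k K (b l))) →
      (∀ s ∈ T, ∀ s' ∈ T, r s ≠ r s' → lv (H (r s)) (fun l => algebraMap k K (a l)) *
        lv (H (r s')) (fun l => algebraMap k K (b l)) ≠
        lv (H (r s')) (fun l => algebraMap k K (a l)) *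
        lv (H (r s)) (fun l => algebraMap k K (b l))) →
      T.card ≤ n' ∧ ∃ Γ : (Fin (n' + 2) → Fin M) → Polynomial k, GS G a b (n' - T.card) Γ)
    (d : ℕ) (S : Finset (Pl k)) :
    ∃ C C1 : ℝ, 0 ≤ C ∧ 1 ≤ C1 ∧ ∀ (L : Type) [Field L] [NumberField L] [Algebra k L],
      finrank k L = d → ∀ (x : Fin M → L), x ≠ 0 → (∀ i, MvPolynomial.aeval x (G i) = 0) →
      MvPolynomial.aeval x F ≠ 0 → MvPolynomial.aeval x Φ ≠ 0 →
      ∀ (i j : Fin M) (a b : Fin M → k) (E : ℝ),
        a i = 1 → a j = 0 → b i = 0 → b j = 1 →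
        (∀ l, x l = algebraMap k L (a l) * x i + algebraMap k L (b l) * x j) →
        (∀ l, logHeight₁ (a l) ≤ E ∧ logHeight₁ (b l) ≤ E) →
        ∀ A : Fin M → Fin (n' + 2) → L, IsTB G x A →
        logHeight x ≤ C * (1 + C1 * (1 + E)) ∨
        KX d M q n' H S C (C1 * (1 + E)) (logHeight x) (∑ v ∈ S, ∑ w ∈ ab L v,
          wt w * (q * Real.log (nrm (av w) x) - Real.log (av w (MvPolynomial.aeval x F))))
          (logHeight (mv A)) := by
  classical
  have hlq : 0 ≤ Real.log (((q + 1 : ℕ) : ℝ) + 1) := Real.log_nonneg (by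
    have := Nat.cast_nonneg (α := ℝ) (q + 1)
    linarith)
  have hl2 : 0 ≤ Real.log 2 := Real.log_nonneg (by norm_num)
  set C0 : ℝ := finrank ℚ k * d * Real.log (((q + 1 : ℕ) : ℝ) + 1) with hC0def
  have hC0 : 0 ≤ C0 := by positivity
  obtain ⟨Ck, hCk, hkd⟩ := kdata2 (d := d) F H hF hFq S C0 hC0
  set Cl : ℝ := ∑ c ∈ Finset.range (q + 2), logHeight₁ ((c : ℕ) : k) with hCl
  have hCl0 : 0 ≤ Cl := Finset.sum_nonneg fun c _ => zero_le_logHeight₁ _
  set w2 : ℝ := totalWeight k * Real.log 2 with hw2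
  have hw20 : 0 ≤ w2 := mul_nonneg (Nat.cast_nonneg _) hl2
  choose Cs hCs hss using fun D : ℕ => small_sol n' D G
  choose Cg hCg hcg using fun i : Fin g => coeff_ht (G i)
  set Qg : Fin g → ℝ := fun i => d * (((G i).totalDegree + 1) * Cg i) +
    finrank ℚ k * d * Real.log (((G i).totalDegree : ℝ) + 1) with hQg
  set Qs : ℕ → ℝ := fun D => d * Cs D + finrank ℚ k * d * Real.log ((D : ℝ) + 1) with hQs
  have hlog1 : ∀ D : ℕ, 0 ≤ Real.log ((D : ℝ) + 1) := fun D => Real.log_nonneg (by
    have := Nat.cast_nonneg (α := ℝ) D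
    linarith)
  have hQg0 : ∀ i, 0 ≤ Qg i := fun i => by
    have h1 := hlog1 (G i).totalDegree
    have h2 := hCg i
    rw [hQg]
    positivity
  have hQs0 : ∀ D, 0 ≤ Qs D := fun D => by
    have h1 := hlog1 D
    have h2 := hCs D
    rw [hQs]
    positivity
  set Q : ℝ := ∑ i, Qg i + ∑ D ∈ Finset.range (n' + 1), Qs D with hQ
  have hQ1 : 0 ≤ ∑ i, Qg i := Finset.sum_nonneg fun i _ => hQg0 i
  have hQ2 : 0 ≤ ∑ D ∈ Finset.range (n' + 1), Qs D := Finset.sum_nonneg fun D _ => hQs0 D
  have hQ0 : 0 ≤ Q := add_nonneg hQ1 hQ2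
  set C : ℝ := Ck + Q * (1 + 2 * M) + 2 * M * d + finrank ℚ k * d * Real.log 2 + n' * C0 with hC
  have hC00 : 0 ≤ C := by positivity
  refine ⟨C, 2 + Cl + w2, hC00, by linarith, ?_⟩
  intro L _ _ _ hd x hx0 hXx hFx hΦx i j a b E hai haj hbi hbj hline hE A hA
  have hE0 : 0 ≤ E := (zero_le_logHeight₁ _).trans (hE i).1
  set X : ℝ := (2 + Cl + w2) * (1 + E) with hX
  have hXE : E ≤ X := by
    have h1 : 0 ≤ (1 + Cl + w2) * (1 + E) := by positivity
    rw [hX]
    linarith
  have hX0 : 0 ≤ X := hE0.trans hXE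
  have hht := logHeight_nonneg x
  have hfin : (finrank ℚ L : ℝ) = finrank ℚ k * d := by
    rw [← hd]
    exact_mod_cast (finrank_mul_finrank ℚ k L).symm
  -- the parameter
  have hxij : x i ≠ 0 ∨ x j ≠ 0 := by
    by_contra h
    push Not at h
    apply hx0
    funext l
    rw [hline l, h.1, h.2]
    simp
  obtain ⟨c, hcq, hcH, hz1⟩ := exists_par (R := K) (R' := L)
    (fun s => lv (H s) (fun l => algebraMap k K (a l)))
    (fun s => lv (H s) (fun l => algebraMap k K (b l)))
    (fun s => forms_ne F H hF x hFx i j a b hline s) (x i) (x j) hxij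
  set b' : Fin M → k := fun l => b l + (c : k) * a l with hb'
  set z1 : L := x i - (c : L) * x j with hz1def
  set y : L := x j / z1 with hy
  have hb'lv : ∀ s, lv (H s) (fun l => algebraMap k K (b' l)) ≠ 0 := by
    intro s
    have h1 : lv (H s) (fun l => algebraMap k K (b' l)) =
        lv (H s) (fun l => algebraMap k K (b l)) +
          (c : K) * lv (H s) (fun l => algebraMap k K (a l)) := by
      unfold lv
      rw [Finset.mul_sum, ← Finset.sum_add_distrib]
      refine Finset.sum_congr rfl fun l _ => ?_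
      rw [hb']
      simp only
      rw [map_add, map_mul, map_natCast]
      ring
    rw [h1]
    exact hcH s
  have hxz : x = fun l => z1 * (algebraMap k L (a l) + algebraMap k L (b' l) * y) := by
    funext l
    rw [hb', hy]
    simp only
    rw [map_add, map_mul, map_natCast]
    have h1 : z1 * (algebraMap k L (a l) + (algebraMap k L (b l) + (c : L) * algebraMap k L (a l)) *
        (x j / z1)) = algebraMap k L (a l) * (z1 + c * x j) + algebraMap k L (b l) * x j := by
      field_simp
      ring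
    rw [h1, hz1def]
    conv_lhs => rw [hline l]
    ring
  have hab : ∀ l, logHeight₁ (a l) ≤ X ∧ logHeight₁ (b' l) ≤ X := by
    intro l
    refine ⟨(hE l).1.trans hXE, ?_⟩
    have h1 := logHeight₁_add_le (b l) ((c : k) * a l)
    have h2 := logHeight₁_mul_le (c : k) (a l)
    have h3 : logHeight₁ ((c : ℕ) : k) ≤ Cl :=
      Finset.single_le_sum (f := fun c : ℕ => logHeight₁ ((c : ℕ) : k))
        (fun c _ => zero_le_logHeight₁ _) (Finset.mem_range.2 (by omega))
    have h4 := hE l
    have h5 : 0 ≤ (Cl + w2) * E := by positivity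
    have h6 : X = 2 + Cl + w2 + 2 * E + (Cl + w2) * E := by
      rw [hX]
      ring
    rw [h6]
    have h7 : logHeight₁ (b' l) ≤ w2 + logHeight₁ (b l) + logHeight₁ ((c : k) * a l) := h1
    linarith [h4.1, h4.2]
  have hy1 : logHeight ![1, y] ≤ logHeight x + C0 := by
    have h1 := par_ht x i j c (q + 1) hcq hz1
    rw [hfin] at h1
    exact h1
  obtain ⟨f, z, hz0, hf0, hfh, hprod, hP⟩ := hkd L hd x hx0 hFx i a b' X z1 y hz1 hai hxz hab hy1
  have hhs : hs a b' ≤ 1 + 2 * M * X := by
    unfold hs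
    have e1 : ∑ l, (logHeight₁ (a l) + logHeight₁ (b' l)) ≤ ∑ _l : Fin M, (X + X) :=
      Finset.sum_le_sum fun l _ => add_le_add (hab l).1 (hab l).2
    rw [Finset.sum_const, Finset.card_univ, Fintype.card_fin, nsmul_eq_mul] at e1
    linarith
  have hhs1 := one_le_hs a b'
  have hindep : ∃ l l', a l * b' l' - a l' * b' l ≠ 0 := by
    refine ⟨i, j, ?_⟩
    rw [hb']
    simp only
    rw [hai, haj, hbi, hbj]
    simp
  -- points of small height
  have hsmall : logHeight ![1, y] ≤ Q * hs a b' → logHeight x ≤ C * (1 + X) := by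
    intro h1
    have hz : (fun l => algebraMap k L (a l) + algebraMap k L (b' l) * y) ≠ 0 := by
      intro h
      apply hx0
      rw [hxz]
      funext l
      have := congrFun h l
      simp only [Pi.zero_apply] at this
      rw [this, mul_zero]
      rfl
    have h2 := pt_ht a b' y hz
    have h3 : logHeight x = logHeight (fun l => algebraMap k L (a l) + algebraMap k L (b' l) * y) := by
      conv_lhs => rw [hxz]
      exact logHeight_smul_eq_logHeight _ hz1
    have h4 : logHeight (Fin.append a b' : Fin (M + M) → k) ≤ 2 * M * X := by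
      refine (logHeight_le_sum _).trans ?_
      rw [Fin.sum_univ_add]
      simp only [Fin.append_left, Fin.append_right]
      have e1 := Finset.sum_le_sum fun l (_ : l ∈ Finset.univ) => (hab l).1
      have e2 := Finset.sum_le_sum fun l (_ : l ∈ Finset.univ) => (hab l).2
      rw [Finset.sum_const, Finset.card_univ, Fintype.card_fin, nsmul_eq_mul] at e1 e2
      linarith
    rw [h3]
    rw [hd, hfin] at h2
    have h5 : Q * hs a b' ≤ Q * (1 + 2 * M * X) := mul_le_mul_of_nonneg_left hhs hQ0
    have h6 : (d : ℝ) * logHeight (Fin.append a b' : Fin (M + M) → k) ≤ d * (2 * M * X) :=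
      mul_le_mul_of_nonneg_left h4 (Nat.cast_nonneg _)
    have h7 : C * (1 + X) = Q * (1 + 2 * M * X) + d * (2 * M * X) +
        finrank ℚ k * d * Real.log 2 + (Ck * (1 + X) + Q * (2 * M) + Q * X + 2 * M * d +
          finrank ℚ k * d * Real.log 2 * X + n' * C0 * (1 + X)) := by
      rw [hC]
      ring
    have h8 : 0 ≤ Ck * (1 + X) + Q * (2 * M) + Q * X + 2 * M * d +
          finrank ℚ k * d * Real.log 2 * X + n' * C0 * (1 + X) := by positivity
    linarith
  by_cases hlX : ∀ i, MvPolynomial.aeval (lp a b') (G i) = 0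
  · by_cases hbig : logHeight ![1, y] ≤ Q * hs a b'
    · exact Or.inl (hsmall hbig)
    right
    have hΦl : MvPolynomial.aeval (lp a b') Φ ≠ 0 := by
      intro h
      apply hΦx
      have h1 : MvPolynomial.aeval x Φ = z1 ^ m * MvPolynomial.aeval
          (fun l => algebraMap k L (a l) + algebraMap k L (b' l) * y) Φ := by
        conv_lhs => rw [hxz]
        exact aeval_hom hΦm _ _
      rw [h1, ← lp_aeval, h, map_zero, mul_zero]
    refine ⟨a, b', f, z, hz0, hf0, hab, ?_, hprod, ?_, ?_⟩
    · have h1 : 0 ≤ Q * (1 + 2 * M) + 2 * M * d + finrank ℚ k * d * Real.log 2 + n' * C0 := by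
        positivity
      linarith
    · have h1 : Ck ≤ C := by
        have : 0 ≤ Q * (1 + 2 * M) + 2 * M * d + finrank ℚ k * d * Real.log 2 + n' * C0 := by
          positivity
        linarith
      have h2 : Ck * X ≤ C * X := mul_le_mul_of_nonneg_right h1 hX0
      linarith
    · intro T r hrT hprop hdist
      obtain ⟨hT, Γ, hΓ⟩ := hgeo a b' hindep hlX hΦl hb'lv T r hrT hprop hdist
      refine ⟨hT, ?_⟩
      obtain ⟨cc, hcc1, hcc2⟩ := hss (n' - T.card) a b' ⟨Γ, hΓ⟩
      have hTS : TS G x = TS G (fun l => algebraMap k L (a l) + algebraMap k L (b' l) * y) := by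
        conv_lhs => rw [hxz]
        exact TS_smul hG z1 hz1 _
      have hval := val_ht G a b' cc hcc1 y x hTS (hsm L x hx0 hXx) A hA
      have hD : Qs (n' - T.card) ≤ Q := by
        have h1 : Qs (n' - T.card) ≤ ∑ D ∈ Finset.range (n' + 1), Qs D :=
          Finset.single_le_sum (f := Qs) (fun D _ => hQs0 D) (Finset.mem_range.2 (by omega))
        linarith
      have h1 : (finrank k L : ℝ) * logHeight cc + finrank ℚ L *
          Real.log (((n' - T.card : ℕ) : ℝ) + 1) ≤ Q * hs a b' := by
        rw [hd, hfin]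
        have e1 : (d : ℝ) * logHeight cc ≤ d * (Cs (n' - T.card) * hs a b') :=
          mul_le_mul_of_nonneg_left hcc2 (Nat.cast_nonneg _)
        have e2 : (finrank ℚ k : ℝ) * d * Real.log (((n' - T.card : ℕ) : ℝ) + 1) ≤
            finrank ℚ k * d * Real.log (((n' - T.card : ℕ) : ℝ) + 1) * hs a b' :=
          le_mul_of_one_le_right (mul_nonneg (by positivity) (hlog1 _)) hhs1
        have e3 : Qs (n' - T.card) * hs a b' ≤ Q * hs a b' :=
          mul_le_mul_of_nonneg_right hD (by linarith)
        have e4 : Qs (n' - T.card) * hs a b' = d * (Cs (n' - T.card) * hs a b') +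
            finrank ℚ k * d * Real.log (((n' - T.card : ℕ) : ℝ) + 1) * hs a b' := by
          rw [hQs]
          ring
        linarith
      rcases hval with hval | hval
      · exact absurd (hval.trans h1) hbig
      · have h2 : ((n' - T.card : ℕ) : ℝ) * logHeight ![1, y] ≤
            ((n' - T.card : ℕ) : ℝ) * logHeight x + n' * C0 := by
          have e1 := mul_le_mul_of_nonneg_left hy1 (Nat.cast_nonneg (α := ℝ) (n' - T.card))
          have e2 : ((n' - T.card : ℕ) : ℝ) * C0 ≤ n' * C0 := by
            refine mul_le_mul_of_nonneg_right ?_ hC0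
            exact_mod_cast Nat.sub_le _ _
          linarith
        have h3 : Q * hs a b' ≤ Q * (1 + 2 * M * X) := mul_le_mul_of_nonneg_left hhs hQ0
        have h4 : C + C * X = Q * (1 + 2 * M * X) + n' * C0 + (Ck * (1 + X) + Q * (2 * M) + Q * X +
            (2 * M * d + finrank ℚ k * d * Real.log 2) * (1 + X) + n' * C0 * X) := by
          rw [hC]
          ring
        have h5 : 0 ≤ Ck * (1 + X) + Q * (2 * M) + Q * X +
            (2 * M * d + finrank ℚ k * d * Real.log 2) * (1 + X) + n' * C0 * X := by positivity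
        linarith
  · left
    apply hsmall
    push Not at hlX
    obtain ⟨i0, hi0⟩ := hlX
    have hroot : Polynomial.aeval y (MvPolynomial.aeval (lp a b') (G i0)) = 0 := by
      rw [lp_aeval]
      have h1 : MvPolynomial.aeval x (G i0) = z1 ^ e i0 * MvPolynomial.aeval
          (fun l => algebraMap k L (a l) + algebraMap k L (b' l) * y) (G i0) := by
        conv_lhs => rw [hxz]
        exact aeval_hom (hG i0) _ _
      rw [hXx i0] at h1
      exact (mul_eq_zero.1 h1.symm).resolve_left (pow_ne_zero _ hz1)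
    have h1 := root_ht (G i0).totalDegree (MvPolynomial.aeval (lp a b') (G i0)) hi0
      (lp_deg a b' (G i0)) y hroot
    have h2 : logHeight (fun m : Fin ((G i0).totalDegree + 1) =>
        (MvPolynomial.aeval (lp a b') (G i0)).coeff m.1) ≤
        ((G i0).totalDegree + 1) * Cg i0 * hs a b' := by
      refine (logHeight_le_sum _).trans ?_
      refine (Finset.sum_le_sum fun m _ => hcg i0 a b' m.1).trans (le_of_eq ?_)
      rw [Finset.sum_const, Finset.card_univ, Fintype.card_fin, nsmul_eq_mul]
      push_cast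
      unfold hs
      ring
    rw [hd, hfin] at h1
    have e1 := mul_le_mul_of_nonneg_left h2 (Nat.cast_nonneg (α := ℝ) d)
    have e2 : (finrank ℚ k : ℝ) * d * Real.log (((G i0).totalDegree : ℝ) + 1) ≤
        finrank ℚ k * d * Real.log (((G i0).totalDegree : ℝ) + 1) * hs a b' :=
      le_mul_of_one_le_right (mul_nonneg (by positivity) (hlog1 _)) hhs1
    have e3 : Qg i0 ≤ Q := by
      have h3 : Qg i0 ≤ ∑ i, Qg i :=
        Finset.single_le_sum (f := Qg) (fun i _ => hQg0 i) (Finset.mem_univ i0)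
      linarith
    have e4 := mul_le_mul_of_nonneg_right e3 (show 0 ≤ hs a b' by linarith)
    have e5 : Qg i0 * hs a b' = d * (((G i0).totalDegree + 1) * Cg i0 * hs a b') +
        finrank ℚ k * d * Real.log (((G i0).totalDegree : ℝ) + 1) * hs a b' := by
      rw [hQg]
      ring
    linarith

end Pool.Agent.N750
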