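import Mathlib
import Pool.Agent.N750.Asm
import Pool.Agent.N750.Wir

/-!
Sequences of points on lines of small height.
-/

set_option autoImplicit false
set_option linter.unusedSectionVars false

open Finset Filter Topology

namespace Pool.Agent.N750

open NumberField IsDedekindDomain Height Module
open Pool.Agent.W180.OP (Pl av wt nrm le_nrm nrm_pos wt_nonneg exists_nrm nrm_nonneg)

variable {k K : Type} [Field k] [NumberField k] [Field K] [NumberField K] [Algebra k K]

open Classical in
/-- the local terms of a point on a line -/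
theorem loc_terms {n q d : ℕ} (H : Fin q → Fin (n + 1) → K) (a b : Fin (n + 1) → k)
    (f : Fin (d + 1) → k) (z : k) (hz : z ≠ 0) (hf : f ≠ 0)
    (hprod : algebraMap k K z = ∏ s, bev d (fun j => algebraMap k K (f j))
      (∑ l, H s l * algebraMap k K (b l)) (∑ l, H s l * algebraMap k K (a l)))
    (S : Finset (Pl k)) :
    (finrank k K : ℝ) * ∑ v ∈ S, (q * (wt v * Real.log (nrm (av v) f)) -
      wt v * Real.log (av v z)) =
    ∑ u ∈ S.biUnion (ab K), ∑ s, wt u * (Real.log (nrm (av u) (fun j => algebraMap k K (f j))) -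
      Real.log (av u (bev d (fun j => algebraMap k K (f j))
      (∑ l, H s l * algebraMap k K (b l)) (∑ l, H s l * algebraMap k K (a l))))) := by
  classical
  have hzK : algebraMap k K z ≠ 0 := (map_ne_zero _).2 hz
  rw [hprod, Finset.prod_ne_zero_iff] at hzK
  rw [Finset.sum_biUnion (by
    intro v _ v' _ hvv
    rw [Function.onFun, Finset.disjoint_left]
    intro u hu hu'
    exact hvv (ab_unique hu hu')), Finset.mul_sum]
  refine Finset.sum_congr rfl fun v _ => ?_
  have h1 : ∀ u : Pl K, ∑ s, wt u * (Real.log (nrm (av u) (fun j => algebraMap k K (f j))) -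
      Real.log (av u (bev d (fun j => algebraMap k K (f j))
      (∑ l, H s l * algebraMap k K (b l)) (∑ l, H s l * algebraMap k K (a l))))) =
      q * (wt u * Real.log (nrm (av u) (fun j => algebraMap k K (f j)))) -
        wt u * Real.log (av u (algebraMap k K z)) := by
    intro u
    rw [hprod, map_prod, Real.log_prod (fun s hs => by
      rw [Ne, map_eq_zero]
      exact hzK s hs), ← Finset.mul_sum, Finset.sum_sub_distrib, Finset.sum_const,
      Finset.card_univ, Fintype.card_fin, nsmul_eq_mul]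
    ring
  rw [Finset.sum_congr rfl fun u _ => h1 u, Finset.sum_sub_distrib, ← Finset.mul_sum,
    efn v f hf, ef v z hz]
  ring

/-- **sequences of points on lines of small height** -/
theorem seq_bound {d n q : ℕ} (hd1 : 1 ≤ d) (H : Fin q → Fin (n + 1) → K) (S : Finset (Pl k))
    (C : ℝ) (E h P : ℕ → ℝ) (𝓕 : Ultrafilter ℕ) (hh : Tendsto h 𝓕 atTop)
    (hE : ∀ ε : ℝ, 0 < ε → ∀ᶠ t in 𝓕, E t ≤ ε * h t)
    (hKD : ∀ᶠ t in 𝓕, KD d n q H S C (E t) (h t) (P t)) (ε : ℝ) (hε : 0 < ε) :
    ∀ᶠ t in 𝓕, P t ≤ (n + 2 * d - 1 + ε) * h t := by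
  classical
  have hK : (0 : ℝ) < finrank k K := by exact_mod_cast finrank_pos
  set Hn : ℕ → ℝ := fun t => finrank k K * h t with hHn
  have hH : Tendsto Hn 𝓕 atTop := hh.const_mul_atTop hK
  have hKD' : ∀ t, KD d n q H S C (E t) (h t) (P t) →
    ∃ (a b : Fin (n + 1) → k) (f : Fin (d + 1) → k) (z : k), z ≠ 0 ∧ f ≠ 0 ∧
    (∀ l, logHeight₁ (a l) ≤ E t ∧ logHeight₁ (b l) ≤ E t) ∧ logHeight f ≤ h t + C ∧
    algebraMap k K z = ∏ s, bev d (fun j => algebraMap k K (f j))
      (∑ l, H s l * algebraMap k K (b l)) (∑ l, H s l * algebraMap k K (a l)) ∧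
    P t ≤ ∑ v ∈ S, (q * (wt v * Real.log (nrm (av v) f)) - wt v * Real.log (av v z)) + C +
      C * E t ∧
    ∀ (T : Finset (Fin q)) (r : Fin q → Fin q), (∀ s ∈ T, r s ∉ T) →
      (∀ s ∈ T, (∑ l, H (r s) l * algebraMap k K (a l)) * (∑ l, H s l * algebraMap k K (b l)) =
        (∑ l, H s l * algebraMap k K (a l)) * (∑ l, H (r s) l * algebraMap k K (b l))) →
      T.card < n := fun t ht => ht
  choose! a b f z hz hf hab hfh hprod hP hT using hKD'
  set v : Fin q → ℕ → K := fun s t => ∑ l, H s l * algebraMap k K (b t l) with hv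
  set w : Fin q → ℕ → K := fun s t => ∑ l, H s l * algebraMap k K (a t l) with hw
  set fK : Fin (d + 1) → ℕ → K := fun j t => algebraMap k K (f t j) with hfK
  -- slowness
  have hslow : ∀ c : ℕ → k, (∀ᶠ t in 𝓕, logHeight₁ (c t) ≤ E t) →
      Slow 𝓕 Hn (fun t => algebraMap k K (c t)) := by
    intro c hc η hη
    filter_upwards [hc, hE η hη] with t h1 h2
    rw [logHeight₁_ext, hHn]
    simp only
    have := mul_le_mul_of_nonneg_left (h1.trans h2) hK.le
    linarith
  have hva : ∀ s, Slow 𝓕 Hn (v s) := by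
    intro s
    refine slow_sum hH _ fun l _ => (slow_const hH (H s l)).mul (hslow (fun t => b t l) ?_)
    filter_upwards [hKD] with t ht
    exact (hab t ht l).2
  have hwa : ∀ s, Slow 𝓕 Hn (w s) := by
    intro s
    refine slow_sum hH _ fun l _ => (slow_const hH (H s l)).mul (hslow (fun t => a t l) ?_)
    filter_upwards [hKD] with t ht
    exact (hab t ht l).1
  -- nonvanishing
  have hbev : ∀ s, ∀ᶠ t in 𝓕, bev d (fun j => fK j t) (v s t) (w s t) ≠ 0 := by
    intro s
    filter_upwards [hKD] with t ht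
    have h1 : algebraMap k K (z t) ≠ 0 := (map_ne_zero _).2 (hz t ht)
    rw [hprod t ht, Finset.prod_ne_zero_iff] at h1
    exact h1 s (Finset.mem_univ _)
  have hne : ∀ s, ∀ᶠ t in 𝓕, v s t ≠ 0 ∨ w s t ≠ 0 := by
    intro s
    filter_upwards [hbev s] with t ht
    by_contra hcon
    push Not at hcon
    apply ht
    unfold bev
    refine Finset.sum_eq_zero fun j _ => ?_
    rw [hcon.1, hcon.2]
    have hj := j.2
    rcases Nat.eq_zero_or_pos j.1 with h0 | h0
    · rw [h0, Nat.sub_zero, zero_pow (by omega : d ≠ 0), mul_zero, mul_zero]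
    · rw [zero_pow (by omega : j.1 ≠ 0), zero_mul, mul_zero]
  have hfh' : ∀ η : ℝ, 0 < η → ∀ᶠ t in 𝓕, logHeight (fun j => fK j t) ≤ (1 + η) * Hn t := by
    intro η hη
    filter_upwards [hKD, hh.eventually_ge_atTop (C / η)] with t ht h1
    have h2 : logHeight (fun j => fK j t) = finrank k K * logHeight (f t) :=
      Pool.Agent.Helper259.HtExt.logHeight_ext (f t)
    rw [h2]
    rw [div_le_iff₀ hη] at h1
    have h3 := mul_le_mul_of_nonneg_left (hfh t ht) hK.le
    rw [hHn]
    simp only
    have h4 := mul_le_mul_of_nonneg_left h1 hK.le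
    linarith
  -- proportionality
  let rel : Setoid (Fin q) :=
    { r := fun s s' => ∀ᶠ t in 𝓕, v s t * w s' t = v s' t * w s t
      iseqv := ⟨fun s => Eventually.of_forall fun t => rfl, fun {s s'} h => by
          filter_upwards [h] with t ht
          exact ht.symm, fun {s s' s''} h1 h2 => by
          filter_upwards [h1, h2, hne s'] with t h3 h4 h5
          rcases h5 with h5 | h5
          · apply mul_left_cancel₀ h5
            linear_combination v s t * h4 + v s'' t * h3
          · apply mul_left_cancel₀ h5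
            linear_combination w s'' t * h3 + w s t * h4⟩ }
  let r : Fin q → Fin q := fun s => (Quotient.mk rel s).out
  have hr : ∀ s, Quotient.mk rel (r s) = Quotient.mk rel s := fun s => Quotient.out_eq _
  have hrr : ∀ s, r (r s) = r s := fun s => by
    show (Quotient.mk rel (r s)).out = _
    rw [hr]
  have hrel : ∀ s, ∀ᶠ t in 𝓕, w (r s) t * v s t = w s t * v (r s) t := by
    intro s
    have h1 : rel.r (r s) s := Quotient.exact (hr s)
    filter_upwards [h1] with t ht
    rw [mul_comm (w (r s) t), mul_comm (w s t)]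
    exact ht.symm
  set T : Finset (Fin q) := Finset.univ.filter fun s => r s ≠ s with hTdef
  have hrT : ∀ s ∈ T, r s ∉ T := by
    intro s _ hmem
    rw [hTdef, Finset.mem_filter] at hmem
    exact hmem.2 (hrr s)
  have hTn : T.card < n := by
    have h1 : ∀ᶠ t in 𝓕, ∀ s, w (r s) t * v s t = w s t * v (r s) t := by
      rw [Filter.eventually_all]
      exact hrel
    obtain ⟨t, h2, h3⟩ := (hKD.and h1).exists
    exact hT t h2 T r hrT fun s _ => h3 s
  set SK : Finset (Pl K) := S.biUnion (ab K) with hSK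
  set ε₁ : ℝ := ε / (4 * (n + 1)) with hε₁
  have hn1 : (0 : ℝ) < (n : ℝ) + 1 := by positivity
  have hε₁0 : 0 < ε₁ := by positivity
  have hmain := mov_wirsing hH d SK (C := Quotient rel) (fun c => v c.out) (fun c => w c.out)
    (fun c => hva _) (fun c => hwa _) (fun c => hne _) (fun c c' hcc => by
      have h1 : ¬ ∀ᶠ t in 𝓕, v c.out t * w c'.out t = v c'.out t * w c.out t := by
        intro h2
        apply hcc
        rw [← Quotient.out_eq c, ← Quotient.out_eq c']
        exact Quotient.sound h2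
      exact Ultrafilter.eventually_not.2 h1) fK (fun c => hbev _) hfh' ε₁ hε₁0
  have hone : ∀ᶠ t in 𝓕, ∀ s ∈ T, ∑ p ∈ SK, wt p * (Real.log (nrm (av p) (fun j => fK j t)) -
      Real.log (av p (bev d (fun j => fK j t) (v s t) (w s t)))) ≤ (1 + ε₁) * Hn t := by
    rw [Filter.eventually_all_finset]
    intro s _
    exact wir_one hH d SK (v s) (w s) (hva s) (hwa s) fK (hbev s) hfh' ε₁ hε₁0
  filter_upwards [hKD, hmain, hone, hh.eventually_ge_atTop 0, hE (ε / (4 * (|C| + 1)))
    (by positivity), hh.eventually_ge_atTop (C / (ε / 4))] with t ht h1 h2 h3 h4 h5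
  have h6 := loc_terms H (a t) (b t) (f t) (z t) (hz t ht) (hf t ht) (hprod t ht) S
  have hHn0 : 0 ≤ Hn t := mul_nonneg hK.le h3
  -- splitting the sum
  set g : Pl K → Fin q → ℝ := fun u s => wt u * (Real.log (nrm (av u) (fun j => fK j t)) -
      Real.log (av u (bev d (fun j => fK j t) (v s t) (w s t)))) with hg
  have h7 : ∀ u, ∑ s, g u s = ∑ c : Quotient rel, g u c.out + ∑ s ∈ T, g u s := by
    intro u
    rw [← Finset.sum_filter_add_sum_filter_not Finset.univ (fun s => r s = s)]
    congr 1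
    refine Finset.sum_nbij' (fun s => Quotient.mk rel s) (fun c => c.out) ?_ ?_ ?_ ?_ ?_
    · intro s _
      exact Finset.mem_univ _
    · intro c _
      rw [Finset.mem_filter]
      refine ⟨Finset.mem_univ _, ?_⟩
      show (Quotient.mk rel c.out).out = c.out
      rw [Quotient.out_eq]
    · intro s hs
      exact (Finset.mem_filter.1 hs).2
    · intro c _
      exact Quotient.out_eq c
    · intro s hs
      rw [show (Quotient.mk rel s).out = s from (Finset.mem_filter.1 hs).2]
  have h8 : ∑ u ∈ SK, ∑ s, g u s ≤ (2 * d + ε₁) * Hn t + T.card * ((1 + ε₁) * Hn t) := by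
    rw [Finset.sum_congr rfl fun u _ => h7 u, Finset.sum_add_distrib]
    refine add_le_add h1 ?_
    rw [Finset.sum_comm, ← nsmul_eq_mul, ← Finset.sum_const]
    exact Finset.sum_le_sum h2
  have h9 : (T.card : ℝ) ≤ n - 1 := by
    have : T.card + 1 ≤ n := hTn
    have : ((T.card : ℝ) + 1) ≤ n := by exact_mod_cast this
    linarith
  have h10 : (T.card : ℝ) * ((1 + ε₁) * Hn t) ≤ (n - 1) * ((1 + ε₁) * Hn t) :=
    mul_le_mul_of_nonneg_right h9 (by positivity)
  have h11 : ε₁ * (n + 1) = ε / 4 := by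
    rw [hε₁]
    field_simp
  have h12 : (2 * d + ε₁) * Hn t + (n - 1) * ((1 + ε₁) * Hn t) ≤
      (n + 2 * d - 1 + ε / 4) * Hn t := by
    have e1 : (2 * d + ε₁) * Hn t + (n - 1) * ((1 + ε₁) * Hn t) =
      (n + 2 * d - 1 + ε₁ * (n + 1) - ε₁) * Hn t := by ring
    rw [e1, h11]
    refine mul_le_mul_of_nonneg_right ?_ hHn0
    linarith
  have h13 : (finrank k K : ℝ) * ∑ v ∈ S, (q * (wt v * Real.log (nrm (av v) (f t))) -
      wt v * Real.log (av v (z t))) ≤ (n + 2 * d - 1 + ε / 4) * Hn t := by
    rw [h6]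
    exact (h8.trans (by linarith)).trans h12
  have h14 : (n + 2 * d - 1 + ε / 4) * Hn t = finrank k K * ((n + 2 * d - 1 + ε / 4) * h t) := by
    rw [hHn]
    ring
  rw [h14] at h13
  have h15 := le_of_mul_le_mul_left h13 hK
  have h16 := hP t ht
  rw [div_le_iff₀ (by linarith)] at h5
  have h17 : C * E t ≤ ε / 4 * h t := by
    have hE0 : 0 ≤ E t := (zero_le_logHeight₁ _).trans (hab t ht 0).1
    calc C * E t ≤ |C| * E t := mul_le_mul_of_nonneg_right (le_abs_self _) hE0
      _ ≤ (|C| + 1) * E t := mul_le_mul_of_nonneg_right (by linarith) hE0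
      _ ≤ (|C| + 1) * (ε / (4 * (|C| + 1)) * h t) :=
          mul_le_mul_of_nonneg_left h4 (by positivity)
      _ = ε / 4 * h t := by
          have : (|C| + 1) ≠ 0 := by positivity
          field_simp
  have h18 : (n + 2 * d - 1 + ε) * h t = (n + 2 * d - 1 + ε / 4) * h t + ε / 4 * h t +
    ε / 4 * h t + ε / 4 * h t := by ring
  have h19 : 0 ≤ ε / 4 * h t := by positivity
  linarith

end Pool.Agent.N750
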