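import Mathlib
import Pool.Agent.N750.Seq

/-!
Points of degree `d` with almost maximal discriminant.
-/

set_option autoImplicit false
set_option linter.unusedSectionVars false

open Finset Filter Topology

namespace Pool.Agent.N750

open NumberField IsDedekindDomain Height Module
open Pool.Agent.W180.OP (Pl av wt nrm le_nrm nrm_pos wt_nonneg exists_nrm nrm_nonneg)

variable {k K : Type} [Field k] [NumberField k] [Field K] [NumberField K] [Algebra k K]

/-- the pivot of a generating point does not vanish -/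
theorem pivot_ne {L : Type} [Field L] [NumberField L] [Algebra k L] {N : ℕ} (x : Fin N → L)
    (hd : 2 ≤ finrank k L) (hx : Gen k x) (i j : Fin N) (a b : Fin N → k)
    (hline : ∀ l, x l = algebraMap k L (a l) * x i + algebraMap k L (b l) * x j) : x i ≠ 0 := by
  intro h0
  have h1 : IntermediateField.adjoin k (Set.range fun p : Fin N × Fin N => x p.1 / x p.2) ≤ ⊥ := by
    rw [IntermediateField.adjoin_le_iff]
    rintro _ ⟨⟨l, m⟩, rfl⟩
    show x l / x m ∈ (⊥ : IntermediateField k L)
    rw [hline l, hline m, h0, mul_zero, mul_zero, zero_add, zero_add]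
    by_cases hj : x j = 0
    · rw [hj, mul_zero, zero_div]
      exact zero_mem _
    · rw [mul_div_mul_right _ _ hj, ← map_div₀]
      exact IntermediateField.algebraMap_mem _ _
  unfold Gen at hx
  rw [hx, top_le_iff] at h1
  have h2 := IntermediateField.bot_eq_top_iff_finrank_eq_one.1 h1
  omega

open Classical in
/-- **points of degree `d` with almost maximal discriminant** -/
theorem main_d {n q : ℕ} (F : MvPolynomial (Fin (n + 1)) k) (H : Fin q → Fin (n + 1) → K)
    (hF : F.map (algebraMap k K) = ∏ i, ∑ j, MvPolynomial.C (H i j) * MvPolynomial.X j)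
    (hFq : F.IsHomogeneous q) (hH : GP H) :
    ∃ G : MvPolynomial (Fin (n + 1)) k, G ≠ 0 ∧ ∀ (d : ℕ), 2 ≤ d → ∀ (S : Finset (Pl k)) (ε : ℝ),
      0 < ε → ∃ δ C : ℝ, 0 < δ ∧ ∀ (L : Type) [Field L] [NumberField L] [Algebra k L],
      finrank k L = d → ∀ x : Fin (n + 1) → L, Gen k x → MvPolynomial.aeval x F ≠ 0 →
      MvPolynomial.aeval x G ≠ 0 → (2 * (d - 1) - δ) * logHeight x ≤
        Real.log (Ideal.absNorm (differentIdeal (𝓞 k) (𝓞 L))) →
      ∑ v ∈ S, ∑ w ∈ ab L v, wt w * (q * Real.log (nrm (av w) x) -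
        Real.log (av w (MvPolynomial.aeval x F))) ≤ (n + 2 * d - 1 + ε) * logHeight x + C := by
  obtain ⟨G, hG0, hG⟩ := mult_poly (k := k) H hH
  refine ⟨G, hG0, fun d hd2 S ε hε => ?_⟩
  obtain ⟨C1, hC1, hkd⟩ := kdata (d := d) (by omega) F H hF hFq G hG S
  obtain ⟨C2, hC2, hline⟩ := line_thm d (n + 1) hd2 (by omega)
  obtain ⟨C3, hC3, htriv⟩ := triv_bound F hFq
  by_contra hcon
  push Not at hcon
  have hseq : ∀ t : ℕ, ∃ h E P : ℝ, 0 ≤ h ∧ 0 ≤ E ∧ (n + 2 * d - 1 + ε) * h + t < P ∧
      P ≤ q * h + d * C3 ∧ (h ≤ d * E ∨ KD d n q H S C1 E h P) ∧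
      E ≤ 1 / ((t : ℝ) + 1) * h + finrank ℚ k * C2 := by
    intro t
    obtain ⟨L, _, _, _, hdL, x, hx, hFx, hGx, hδ, hP⟩ := hcon (1 / ((t : ℝ) + 1)) t (by positivity)
    obtain ⟨hE0, hE⟩ := hline k L hdL x hx _ rfl
    refine ⟨logHeight x, _, _, logHeight_nonneg _, hE0, hP, ?_, ?_, ?_⟩
    · have hx0 : x ≠ 0 := by
        rintro rfl
        have h1 : Gen k (0 : Fin (n + 1) → L) := hx
        refine pivot_ne (0 : Fin (n + 1) → L) (by omega) h1 0 0 0 0 (fun l => by simp) rfl
      have h1 := htriv L x hx0 hFx (S.biUnion (ab L))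
      rw [Finset.sum_biUnion (by
        intro v _ v' _ hvv
        rw [Function.onFun, Finset.disjoint_left]
        intro u hu hu'
        exact hvv (ab_unique hu hu')), hdL] at h1
      exact h1
    · rcases hE with hE | ⟨i, j, a, b, hai, haj, hbi, hbj, hl, hab⟩
      · exact Or.inl hE
      · right
        have hxi := pivot_ne x (by omega) hx i j a b hl
        exact hkd L hdL x hFx hGx i j a b _ hxi hai haj hbi hbj hl hab
    · have h2 : ((2 * (d - 1) : ℕ) : ℝ) = 2 * (d - 1) := by
        rw [Nat.cast_mul, Nat.cast_sub (by omega)]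
        norm_num
      rw [h2]
      linarith
  choose h E P hh0 hE0 hP1 hP2 hKD hE1 using hseq
  have hq : (0 : ℝ) < (q : ℝ) + 1 := by positivity
  have hbase : (0 : ℝ) ≤ n + 2 * d - 1 + ε := by
    have h1 : (2 : ℝ) ≤ d := by exact_mod_cast hd2
    have h2 := Nat.cast_nonneg (α := ℝ) n
    linarith
  have hlow : ∀ t : ℕ, ((t : ℝ) - d * C3) / (q + 1) ≤ h t := by
    intro t
    rw [div_le_iff₀ hq]
    have h1 := mul_nonneg hbase (hh0 t)
    have := hP1 t
    have := hP2 t
    have := hh0 t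
    nlinarith
  have hh : Tendsto h atTop atTop := by
    refine tendsto_atTop_mono hlow ?_
    refine Tendsto.atTop_div_const hq ?_
    exact tendsto_atTop_add_const_right _ _ tendsto_natCast_atTop_atTop
  have hle : ((hyperfilter ℕ : Ultrafilter ℕ) : Filter ℕ) ≤ atTop := Nat.hyperfilter_le_atTop
  have hh' : Tendsto h (hyperfilter ℕ : Ultrafilter ℕ) atTop := hh.mono_left hle
  have hEs : ∀ η : ℝ, 0 < η → ∀ᶠ t in atTop, E t ≤ η * h t := by
    intro η hη
    obtain ⟨T, hT⟩ := exists_nat_gt (2 / η)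
    filter_upwards [eventually_ge_atTop T, hh.eventually_ge_atTop
      (finrank ℚ k * C2 / (η / 2))] with t ht h2
    refine (hE1 t).trans ?_
    have h3 : 1 / ((t : ℝ) + 1) ≤ η / 2 := by
      rw [div_le_iff₀ (by positivity)]
      have h4 : (T : ℝ) ≤ t := by exact_mod_cast ht
      rw [div_lt_iff₀ hη] at hT
      nlinarith
    have h5 := mul_le_mul_of_nonneg_right h3 (hh0 t)
    rw [div_le_iff₀ (by positivity)] at h2
    linarith
  have hKD' : ∀ᶠ t in atTop, KD d n q H S C1 (E t) (h t) (P t) := by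
    have hd0 : (0 : ℝ) < d := by
      have : 0 < d := by omega
      exact_mod_cast this
    filter_upwards [hEs (1 / (2 * d)) (by positivity), hh.eventually_gt_atTop 0] with t h1 h2
    refine (hKD t).resolve_left fun h3 => ?_
    have h4 := mul_le_mul_of_nonneg_left h1 hd0.le
    have h5 : (d : ℝ) * (1 / (2 * d) * h t) = h t / 2 := by field_simp
    linarith
  have hfin := seq_bound (by omega) H S C1 E h P (hyperfilter ℕ) hh'
    (fun η hη => hle (hEs η hη)) (hle hKD') ε hε
  obtain ⟨t, ht⟩ := hfin.exists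
  have h1 := hP1 t
  have h2 := Nat.cast_nonneg (α := ℝ) t
  linarith

end Pool.Agent.N750
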