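import Mathlib
import Pool.Agent.N750.Gmk

/-!
Points of a variety on linear subspaces of small height.
-/

set_option autoImplicit false
set_option linter.unusedSectionVars false

open Filter Topology

namespace Pool.Agent.N750

open NumberField IsDedekindDomain Height Module MvPolynomial
open Pool.Agent.W180.OP (Pl av wt nrm le_nrm nrm_pos wt_nonneg exists_nrm)

/-- **points of a variety on linear subspaces of small height** -/
theorem main_S {k K : Type} [Field k] [NumberField k] [Field K] [NumberField K] [Algebra k K]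
    {M q g n' : ℕ} (G : Fin g → MvPolynomial (Fin M) k) (e : Fin g → ℕ)
    (hG : ∀ i, (G i).IsHomogeneous (e i)) (hI : (Ideal.span (Set.range G)).IsPrime)
    (hsm : Sm (n' + 1) G) (Hf : Fin q → Fin M → K) (hnc : NCs G Hf) :
    ∃ (m : ℕ) (Φ : MvPolynomial (Fin M) k), Φ.IsHomogeneous m ∧ Φ ∉ Ideal.span (Set.range G) ∧
      ∀ (S : Finset (Pl K)) (C0 ε : ℝ), 0 < ε → ∃ δ C : ℝ, 0 < δ ∧
      ∀ (b : Fin M → Fin M → K) (y : Fin M → K), LX G b → pt b y ≠ 0 →
        (∀ s, lv (Hf s) (pt b y) ≠ 0) → aeval (pt b y) Φ ≠ 0 →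
        (∀ l j, logHeight₁ (b l j) ≤ δ * logHeight (pt b y) + C0) →
      ∀ A : Fin M → Fin (n' + 2) → K, IsTB G (pt b y) A →
      ∑ v ∈ S, wt v * ∑ s, (Real.log (nrm (av v) (pt b y)) -
        Real.log (av v (lv (Hf s) (pt b y)))) + logHeight (mv A) ≤
          (n' + 2 + ε) * logHeight (pt b y) + C := by
  classical
  choose mN ΦN hΦhom hΦI hΦgood using fun N => geo2 (K := K) N G e hG hI Hf
  refine ⟨∑ N ∈ Finset.range (M + 1), mN N, ∏ N ∈ Finset.range (M + 1), ΦN N,
    MvPolynomial.IsHomogeneous.prod _ _ _ fun N _ => hΦhom N, ?_, fun S C0 ε hε => ?_⟩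
  · intro h
    rw [hI.prod_mem_iff] at h
    obtain ⟨N, -, hN⟩ := h
    exact hΦI N hN
  -- the trivial bound
  set F : MvPolynomial (Fin M) K := ∏ s, ∑ j, C (Hf s j) * X j with hF
  have hFq : F.IsHomogeneous q := by
    have h1 := MvPolynomial.IsHomogeneous.prod (Finset.univ : Finset (Fin q))
      (fun s => ∑ j, C (Hf s j) * X j) (fun _ => 1) fun s _ =>
        MvPolynomial.IsHomogeneous.sum _ _ _ fun j _ =>
          MvPolynomial.isHomogeneous_C_mul_X _ _
    rw [Finset.sum_const, Finset.card_univ, Fintype.card_fin, smul_eq_mul, mul_one] at h1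
    exact h1
  have hFx : ∀ x : Fin M → K, aeval x F = ∏ s, lv (Hf s) x := by
    intro x
    rw [hF, map_prod]
    refine Finset.prod_congr rfl fun s _ => ?_
    rw [map_sum]
    unfold lv
    refine Finset.sum_congr rfl fun j _ => ?_
    rw [map_mul, aeval_C, aeval_X]
  obtain ⟨C3, hC3, htriv⟩ := triv_bound F hFq
  obtain ⟨C4, hC4, hcrude⟩ := crude G e hG hsm
  by_contra hcon
  push Not at hcon
  have hseq : ∀ t : ℕ, ∃ (b : Fin M → Fin M → K) (y : Fin M → K) (A : Fin M → Fin (n' + 2) → K),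
      LX G b ∧ pt b y ≠ 0 ∧ (∀ s, lv (Hf s) (pt b y) ≠ 0) ∧
      (∀ N, N ≤ M → aeval (pt b y) (ΦN N) ≠ 0) ∧
      (∀ l j, logHeight₁ (b l j) ≤ 1 / ((t : ℝ) + 1) * logHeight (pt b y) + C0) ∧
      IsTB G (pt b y) A ∧ (n' + 2 + ε) * logHeight (pt b y) + t <
      ∑ v ∈ S, wt v * ∑ s, (Real.log (nrm (av v) (pt b y)) -
        Real.log (av v (lv (Hf s) (pt b y)))) + logHeight (mv A) := by
    intro t
    obtain ⟨b, y, h1, h2, h3, h4, h5, A, h6, h7⟩ := hcon (1 / ((t : ℝ) + 1)) t (by positivity)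
    refine ⟨b, y, A, h1, h2, h3, ?_, h5, h6, h7⟩
    intro N hN h8
    apply h4
    rw [map_prod]
    exact Finset.prod_eq_zero (Finset.mem_range.2 (Nat.lt_succ_of_le hN)) h8
  choose b y A hbX hx0 hxF hxΦ hbh hA hbig using hseq
  set x : ℕ → Fin M → K := fun t => pt (b t) (y t) with hx
  set h : ℕ → ℝ := fun t => logHeight (x t) with hh
  have hh0 : ∀ t, 0 ≤ h t := fun t => logHeight_nonneg _
  have hxX : ∀ t i, aeval (x t) (G i) = 0 := fun t i => hbX t (y t) i
  -- the heights grow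
  have hup : ∀ t, ∑ v ∈ S, wt v * ∑ s, (Real.log (nrm (av v) (x t)) -
        Real.log (av v (lv (Hf s) (x t)))) + logHeight (mv (A t)) ≤
        (q + C4) * h t + (C3 + finrank k K * C4) := by
    intro t
    have h1 := htriv K (x t) (hx0 t) (by
      rw [hFx]
      exact Finset.prod_ne_zero_iff.2 fun s _ => hxF t s) S
    have h2 := hcrude K (x t) (hx0 t) (hxX t) (A t) (hA t)
    have h3 : ∑ v ∈ S, wt v * ∑ s, (Real.log (nrm (av v) (x t)) -
        Real.log (av v (lv (Hf s) (x t)))) = ∑ v ∈ S, wt v * (q * Real.log (nrm (av v) (x t)) -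
        Real.log (av v (aeval (x t) F))) := by
      refine Finset.sum_congr rfl fun v _ => ?_
      rw [Finset.sum_sub_distrib, Finset.sum_const, Finset.card_univ, Fintype.card_fin,
        nsmul_eq_mul, hFx, map_prod, Real.log_prod (fun s _ => ((av v).pos_iff.2 (hxF t s)).ne')]
    rw [h3]
    rw [Module.finrank_self, Nat.cast_one, one_mul] at h1
    have h4 : (q + C4) * h t = q * h t + C4 * h t := by ring
    rw [h4]
    have h5 : logHeight (x t) = h t := rfl
    rw [h5] at h1 h2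
    linarith
  have hq : (0 : ℝ) < (q : ℝ) + C4 + 1 := by positivity
  have hbase : (0 : ℝ) ≤ n' + 2 + ε := by positivity
  have hlow : ∀ t : ℕ, ((t : ℝ) - (C3 + finrank k K * C4)) / (q + C4 + 1) ≤ h t := by
    intro t
    rw [div_le_iff₀ hq]
    have h1 := mul_nonneg hbase (hh0 t)
    have h2 : (n' + 2 + ε) * h t + t < _ := hbig t
    have h3 := hup t
    have h4 := hh0 t
    have h5 : h t * (q + C4 + 1) = (q + C4) * h t + h t := by ring
    rw [h5]
    linarith
  have htop : Tendsto h atTop atTop := by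
    refine tendsto_atTop_mono hlow ?_
    refine Tendsto.atTop_div_const hq ?_
    exact tendsto_atTop_add_const_right _ _ tendsto_natCast_atTop_atTop
  have hle : ((hyperfilter ℕ : Ultrafilter ℕ) : Filter ℕ) ≤ atTop := Nat.hyperfilter_le_atTop
  have hH : Tendsto h (hyperfilter ℕ : Ultrafilter ℕ) atTop := htop.mono_left hle
  set 𝓕 : Ultrafilter ℕ := hyperfilter ℕ with h𝓕
  -- the linear spaces are slow
  have hbslow : ∀ l j, Slow 𝓕 h (fun t => b t l j) := by
    intro l j η hη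
    obtain ⟨T, hT⟩ := exists_nat_gt (2 / η)
    have h1 : ∀ᶠ t in atTop, logHeight₁ (b t l j) ≤ η * h t := by
      filter_upwards [eventually_ge_atTop T, htop.eventually_ge_atTop (C0 / (η / 2))] with t ht h2
      refine (hbh t l j).trans ?_
      have h3 : 1 / ((t : ℝ) + 1) ≤ η / 2 := by
        rw [div_le_iff₀ (by positivity)]
        have h4 : (T : ℝ) ≤ t := by exact_mod_cast ht
        rw [div_lt_iff₀ hη] at hT
        nlinarith
      have h5 := mul_le_mul_of_nonneg_right h3 (hh0 t)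
      rw [div_le_iff₀ (by positivity)] at h2
      have h6 : logHeight (pt (b t) (y t)) = h t := rfl
      rw [h6]
      linarith
    exact hle h1
  -- the fields
  let 𝕂 := Gm 𝓕 K
  let 𝕊 := slowF 𝓕 K h hH
  let _ : Algebra k 𝕂 := ((algebraMap K 𝕂).comp (algebraMap k K)).toAlgebra
  let _ : Algebra k 𝕊 := ((algebraMap K 𝕊).comp (algebraMap k K)).toAlgebra
  have t1 : IsScalarTower k K 𝕂 := IsScalarTower.of_algebraMap_eq fun x => rfl
  have t2 : IsScalarTower k K 𝕊 := IsScalarTower.of_algebraMap_eq fun x => rfl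
  have t3 : IsScalarTower k 𝕊 𝕂 := IsScalarTower.of_algebraMap_eq fun x => rfl
  have c1 : CharZero 𝕂 := charZero_of_injective_algebraMap (algebraMap K 𝕂).injective
  have c2 : CharZero 𝕊 := charZero_of_injective_algebraMap (algebraMap K 𝕊).injective
  obtain ⟨rp, hr1, hr2⟩ := exists_rp (𝓕 := 𝓕) (K := K) (H := h) (hH := hH)
  have hr3 : ∀ a, Slow 𝓕 h a → ∃ s : 𝕊, algebraMap 𝕊 𝕂 s = mk 𝓕 a := fun a ha => slow_mem a ha
  choose b0 hb0 using fun l j => hr3 _ (hbslow l j)
  have hxgerm : (fun j => mk 𝓕 (fun t => x t j)) =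
      pt (fun l j => algebraMap 𝕊 𝕂 (b0 l j)) (fun l => mk 𝓕 (fun t => y t l)) := by
    have h1 : (fun l j => algebraMap 𝕊 𝕂 (b0 l j)) = fun l j => mk 𝓕 (fun t => b t l j) := by
      funext l j
      exact hb0 l j
    rw [h1, pt_mk (fun l j t => b t l j) (fun l t => y t l)]
  have hRp : Rp 𝕊 G (fun j => mk 𝓕 (fun t => x t j)) M := by
    refine ⟨b0, fun l => mk 𝓕 (fun t => y t l), ?_, hxgerm⟩
    intro Y i
    have h1 := LX_mk (𝓕 := 𝓕) G (fun l j t => b t l j) (Eventually.of_forall fun t => hbX t)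
      (fun l => algebraMap 𝕊 𝕂 (Y l)) i
    have h2 : (fun l j => mk 𝓕 (fun t => b t l j)) = fun l j => algebraMap 𝕊 𝕂 (b0 l j) := by
      funext l j
      exact (hb0 l j).symm
    rw [h2, pt_ext, aeval_ext] at h1
    exact (map_eq_zero (algebraMap 𝕊 𝕂)).1 h1
  have hx0g : (fun j => mk 𝓕 (fun t => x t j)) ≠ 0 := by
    intro h0
    have h1 : ∀ᶠ t in (𝓕 : Filter ℕ), ∀ j, x t j = 0 := by
      rw [Filter.eventually_all]
      intro j
      exact mk_eq_zero.1 (congrFun h0 j)
    obtain ⟨t, ht⟩ := h1.exists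
    exact hx0 t (funext ht)
  obtain ⟨N, b', y', I, hN, hNM, hb'X, hxb', hb'I, hind⟩ := min_repr G _ hx0g hRp
  choose z hz using fun l => mk_surj (y' l)
  have hy'z : y' = fun l => mk 𝓕 (z l) := by
    funext l
    exact (hz l).symm
  subst hy'z
  have hxeq : ∀ j, mk 𝓕 (fun t => x t j) =
      ∑ l, mk 𝓕 (z l) * algebraMap 𝕊 𝕂 (b' l j) := fun j => congrFun hxb' j
  have hb'g : (fun l j => algebraMap 𝕊 𝕂 (b' l j)) = fun l j => mk 𝓕 (rp (b' l j)) := by
    funext l j
    exact (hr2 _).symm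
  have hbXm : ∀ᶠ t in (𝓕 : Filter ℕ), LX G (fun l j => rp (b' l j) t) := by
    refine LX_mk' G (fun l j => rp (b' l j)) ?_
    rw [← hb'g]
    exact LX_ext hb'X
  have hxm : ∀ᶠ t in (𝓕 : Filter ℕ), x t = pt (fun l j => rp (b' l j) t) (fun l => z l t) := by
    have h1 : ∀ᶠ t in (𝓕 : Filter ℕ), ∀ j, x t j =
        pt (fun l j => rp (b' l j) t) (fun l => z l t) j := by
      rw [Filter.eventually_all]
      intro j
      refine mk_eq.1 ?_
      have h2 := congrFun hxb' j
      rw [hb'g, pt_mk] at h2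
      exact h2
    filter_upwards [h1] with t ht
    exact funext ht
  have hgood : Good G Hf (fun l j => algebraMap 𝕊 𝕂 (b' l j)) (fun l => mk 𝓕 (z l)) := by
    rw [hb'g]
    refine Good_mk G Hf (fun l j => rp (b' l j)) z ?_
    filter_upwards [hbXm, hxm] with t h1 h2
    refine hΦgood N _ _ h1 ?_
    rw [← h2]
    exact hxΦ t N hNM
  have hfin := slow_seq (𝕊 := 𝕊) hH rp hr1 hr2 hr3 G hsm Hf hnc b' hb'X I hb'I hN z hind
    (fun j t => x t j) hxeq (Eventually.of_forall fun t => rfl)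
    (Eventually.of_forall fun t => hxF t) hgood A (Eventually.of_forall fun t => hA t) S ε hε
  obtain ⟨t, ht⟩ := hfin.exists
  have h1 := hbig t
  have h2 := Nat.cast_nonneg (α := ℝ) t
  have h3 : ∑ v ∈ S, wt v * ∑ s, (Real.log (nrm (av v) (x t)) -
      Real.log (av v (lv (Hf s) (x t)))) + logHeight (mv (A t)) ≤
      (((n' + 1 : ℕ) : ℝ) + 1 + ε) * h t := ht
  have h4 : (n' + 2 + ε) * h t + t < ∑ v ∈ S, wt v * ∑ s, (Real.log (nrm (av v) (x t)) -
      Real.log (av v (lv (Hf s) (x t)))) + logHeight (mv (A t)) := h1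
  push_cast at h3
  have h5 : ((n' : ℝ) + 1 + 1 + ε) * h t = (n' + 2 + ε) * h t := by ring
  rw [h5] at h3
  linarith

end Pool.Agent.N750
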