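import Mathlib
import Pool.Agent.N750.Main

/-!
Points of bounded degree with almost maximal discriminant.
-/

set_option autoImplicit false
set_option linter.unusedSectionVars false

open Finset Filter Topology

namespace Pool.Agent.N750

open NumberField IsDedekindDomain Height Module
open Pool.Agent.W180.OP (Pl av wt nrm le_nrm nrm_pos wt_nonneg exists_nrm nrm_nonneg)

variable {k : Type} [Field k] [NumberField k]

theorem above_fin (S : Finset (HeightOneSpectrum (𝓞 k))) (L : Type) [Field L] [NumberField L]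
    [Algebra k L] : {w : HeightOneSpectrum (𝓞 L) | ∃ v ∈ S, w.asIdeal.LiesOver v.asIdeal}.Finite := by
  have h1 : {w : HeightOneSpectrum (𝓞 L) | ∃ v ∈ S, w.asIdeal.LiesOver v.asIdeal} ⊆
      ⋃ v ∈ S, {w | w.asIdeal.LiesOver v.asIdeal} := by
    rintro w ⟨v, hv, hw⟩
    simp only [Set.mem_iUnion]
    exact ⟨v, hv, hw⟩
  exact (S.finite_toSet.biUnion fun v _ => over_fin L v).subset h1

/-- the sum over the places above -/
theorem sum_places (S : Finset (HeightOneSpectrum (𝓞 k))) {L : Type} [Field L] [NumberField L]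
    [Algebra k L] (g : Pl L → ℝ) :
    ∑ v ∈ (Finset.univ : Finset (InfinitePlace k)).disjSum S, ∑ w ∈ ab L v, g w =
      ∑ w : InfinitePlace L, g (Sum.inl w) +
        ∑ᶠ w ∈ {w : HeightOneSpectrum (𝓞 L) | ∃ v ∈ S, w.asIdeal.LiesOver v.asIdeal},
          g (Sum.inr w) := by
  classical
  rw [Finset.sum_disjSum, finsum_mem_eq_finite_toFinset_sum _ (above_fin S L)]
  congr 1
  · have h1 : ∀ v : InfinitePlace k, ∑ w ∈ ab L (Sum.inl v : Pl k), g w =
        ∑ w ∈ Finset.univ.filter (fun w : InfinitePlace L => w.comap (algebraMap k L) = v),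
          g (Sum.inl w) := by
      intro v
      unfold ab
      rw [Finset.sum_map]
      rfl
    rw [Finset.sum_congr rfl fun v _ => h1 v]
    exact Finset.sum_fiberwise _ _ _
  · have h1 : ∀ v : HeightOneSpectrum (𝓞 k), ∑ w ∈ ab L (Sum.inr v : Pl k), g w =
        ∑ w ∈ (over_fin L v).toFinset, g (Sum.inr w) := by
      intro v
      unfold ab
      rw [Finset.sum_map]
      rfl
    rw [Finset.sum_congr rfl fun v _ => h1 v, ← Finset.sum_biUnion]
    · refine Finset.sum_congr ?_ fun _ _ => rfl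
      ext w
      rw [Finset.mem_biUnion, Set.Finite.mem_toFinset]
      constructor
      · rintro ⟨v, hv, hw⟩
        have h := (Set.Finite.mem_toFinset _).1 hw
        exact ⟨v, hv, h⟩
      · rintro ⟨v, hv, hw⟩
        exact ⟨v, hv, (Set.Finite.mem_toFinset (over_fin L v)).2 hw⟩
    · intro v _ v' _ hvv
      rw [Function.onFun, Finset.disjoint_left]
      intro w hw hw'
      apply hvv
      have h2 := (Set.Finite.mem_toFinset _).1 hw
      have h3 := (Set.Finite.mem_toFinset _).1 hw'
      exact HeightOneSpectrum.ext (h2.over.trans h3.over.symm)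

theorem log_diff {L : Type} [Field L] [NumberField L] [Algebra k L] :
    Real.log (Ideal.absNorm (differentIdeal (𝓞 k) (𝓞 L))) =
      Real.log |(discr L : ℝ)| - finrank k L * Real.log |(discr k : ℝ)| := by
  have h1 := NumberField.natAbs_discr_eq_absNorm_differentIdeal_mul_natAbs_discr_pow k (𝓞 k) L (𝓞 L)
  have h2 : |(discr L : ℝ)| = Ideal.absNorm (differentIdeal (𝓞 k) (𝓞 L)) *
      |(discr k : ℝ)| ^ finrank k L := by
    rw [← Int.cast_abs, Int.abs_eq_natAbs, ← Int.cast_abs, Int.abs_eq_natAbs]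
    exact_mod_cast h1
  have h3 : |(discr L : ℝ)| ≠ 0 := abs_ne_zero.2 (Int.cast_ne_zero.2 (discr_ne_zero L))
  rw [h2] at h3
  have h4 := mul_ne_zero_iff.1 h3
  rw [h2, Real.log_mul h4.1 h4.2, Real.log_pow]
  ring

/-- a multiple of a point outside a hypersurface -/
theorem exists_scale {n m : ℕ} (G : MvPolynomial (Fin n) k) {L : Type} [Field L] [NumberField L]
    [Algebra k L] (x : Fin n → L)
    (hx : MvPolynomial.aeval x (MvPolynomial.homogeneousComponent m G) ≠ 0) :
    ∃ c : L, c ≠ 0 ∧ MvPolynomial.aeval (fun l => c * x l) G ≠ 0 := by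
  classical
  by_contra hcon
  push Not at hcon
  set P : Polynomial L := ∑ i ∈ Finset.range (G.totalDegree + 1),
    Polynomial.C (MvPolynomial.aeval x (MvPolynomial.homogeneousComponent i G)) *
      Polynomial.X ^ i with hP
  have h1 : ∀ c : L, c ≠ 0 → P.eval c = 0 := by
    intro c hc
    rw [← hcon c hc, hP, Polynomial.eval_finsetSum]
    conv_rhs => rw [← MvPolynomial.sum_homogeneousComponent G, map_sum]
    refine Finset.sum_congr rfl fun i _ => ?_
    rw [Polynomial.eval_mul, Polynomial.eval_C, Polynomial.eval_pow, Polynomial.eval_X,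
      aeval_hom (MvPolynomial.homogeneousComponent_isHomogeneous i G), mul_comm]
  have h2 : P = 0 := by
    refine Polynomial.eq_zero_of_infinite_isRoot P ?_
    refine Set.Infinite.mono (s := {c : L | c ≠ 0}) (fun c hc => h1 c hc) ?_
    exact Set.infinite_of_injective_forall_mem (f := fun n : ℕ => ((n + 1 : ℕ) : L))
      (fun a b hab => by
        have := Nat.cast_injective (R := L) hab
        omega) (fun n => by
        show ((n + 1 : ℕ) : L) ≠ 0
        exact Nat.cast_ne_zero.2 (Nat.succ_ne_zero n))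
  have hm : m < G.totalDegree + 1 := by
    by_contra h
    apply hx
    rw [MvPolynomial.homogeneousComponent_eq_zero _ _ (by omega), map_zero]
  have h3 := congrArg (fun p => Polynomial.coeff p m) h2
  simp only [hP, Polynomial.finsetSum_coeff, Polynomial.coeff_C_mul_X_pow,
    Polynomial.coeff_zero] at h3
  rw [Finset.sum_ite_eq (Finset.range (G.totalDegree + 1)) m, if_pos (Finset.mem_range.2 hm)] at h3
  exact hx h3

theorem exists_component {n : ℕ} (G : MvPolynomial (Fin n) k) (hG : G ≠ 0) :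
    ∃ m, MvPolynomial.homogeneousComponent m G ≠ 0 := by
  by_contra hcon
  push Not at hcon
  apply hG
  rw [← MvPolynomial.sum_homogeneousComponent G]
  exact Finset.sum_eq_zero fun i _ => hcon i

/-- **points of bounded degree with almost maximal discriminant** -/
theorem main_r {K : Type} [Field K] [NumberField K] [Algebra k K] {n q : ℕ}
    (F : MvPolynomial (Fin (n + 1)) k) (H : Fin q → Fin (n + 1) → K)
    (hF : F.map (algebraMap k K) = ∏ i, ∑ j, MvPolynomial.C (H i j) * MvPolynomial.X j)
    (hH : GP H) :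
    ∃ (m : ℕ) (G : MvPolynomial (Fin (n + 1)) k), G ≠ 0 ∧ G.IsHomogeneous m ∧
      ∀ (S : Finset (HeightOneSpectrum (𝓞 k))) (r : ℕ) (ε : ℝ),
      0 < ε → ∃ δ C : ℝ, 0 < δ ∧ ∀ (L : Type) [Field L] [NumberField L] [Algebra k L]
      (x : Fin (n + 1) → L), 2 ≤ finrank k L → finrank k L ≤ r → Gen k x →
      MvPolynomial.aeval x F ≠ 0 → MvPolynomial.aeval x G ≠ 0 →
      (2 * (finrank k L - 1) - δ) * logHeight x ≤
        Real.log |(discr L : ℝ)| - finrank k L * Real.log |(discr k : ℝ)| →
      ∑ w : InfinitePlace L, (w.mult : ℝ) * (q * Real.log (nrm w.1 x) -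
          Real.log (w (MvPolynomial.aeval x F))) +
        ∑ᶠ w ∈ {w : HeightOneSpectrum (𝓞 L) | ∃ v ∈ S, w.asIdeal.LiesOver v.asIdeal},
          (q * Real.log (nrm (FinitePlace.mk w).1 x) -
            Real.log (FinitePlace.mk w (MvPolynomial.aeval x F))) ≤
        (n + 2 * finrank k L - 1 + ε) * logHeight x + C := by
  classical
  have hFq : F.IsHomogeneous q := by
    refine MvPolynomial.IsHomogeneous.of_map (f := algebraMap k K) (algebraMap k K).injective ?_
    rw [hF]
    have h1 := MvPolynomial.IsHomogeneous.prod (Finset.univ : Finset (Fin q))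
      (fun i => ∑ j, MvPolynomial.C (H i j) * MvPolynomial.X j) (fun _ => 1) (fun i _ => by
        refine MvPolynomial.IsHomogeneous.sum _ _ _ fun j _ => ?_
        exact MvPolynomial.isHomogeneous_C_mul_X _ _)
    simpa using h1
  obtain ⟨G, hG0, hG⟩ := main_d F H hF hFq hH
  obtain ⟨m, hm⟩ := exists_component G hG0
  refine ⟨m, MvPolynomial.homogeneousComponent m G, hm,
    MvPolynomial.homogeneousComponent_isHomogeneous m G, fun S r ε hε => ?_⟩
  choose δ C hδ hmain using fun d : Finset.Icc 2 r => hG d.1 (Finset.mem_Icc.1 d.2).1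
    ((Finset.univ : Finset (InfinitePlace k)).disjSum S) ε hε
  -- a common `δ`
  obtain ⟨δ₀, hδ₀, hδle⟩ : ∃ δ₀ : ℝ, 0 < δ₀ ∧ ∀ d, δ₀ ≤ δ d := by
    rcases isEmpty_or_nonempty (Finset.Icc 2 r) with he | he
    · exact ⟨1, one_pos, fun d => isEmptyElim d⟩
    · obtain ⟨d, hd⟩ := Finite.exists_min δ
      exact ⟨δ d, hδ d, hd⟩
  refine ⟨δ₀, ∑ d, |C d|, hδ₀, ?_⟩
  intro L _ _ _ x hd2 hdr hx hFx hGx hdisc
  obtain ⟨c, hc0, hc⟩ := exists_scale G x hGx
  set d : Finset.Icc 2 r := ⟨finrank k L, Finset.mem_Icc.2 ⟨hd2, hdr⟩⟩ with hd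
  have hgen : Gen k (fun l => c * x l) := by
    unfold Gen at hx ⊢
    rw [← hx]
    congr 1
    refine congrArg Set.range ?_
    funext p
    exact mul_div_mul_left _ _ hc0
  have hht : logHeight (fun l => c * x l) = logHeight x := logHeight_smul_eq_logHeight x hc0
  have hx0 : x ≠ 0 := by
    intro h0
    refine pivot_ne x hd2 hx 0 0 0 0 (fun l => by rw [h0]; simp) (by rw [h0]; rfl)
  have h1 := hmain d L rfl (fun l => c * x l) hgen (by
    rw [aeval_hom hFq]
    exact mul_ne_zero (pow_ne_zero _ hc0) hFx) hc (by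
    rw [hht, log_diff]
    refine le_trans (mul_le_mul_of_nonneg_right ?_ (logHeight_nonneg _)) hdisc
    have := hδle d
    show 2 * ((finrank k L : ℝ) - 1) - δ d ≤ _
    linarith)
  rw [sum_places, hht] at h1
  have h2 : ∀ f : AbsoluteValue L ℝ, (q : ℝ) * Real.log (nrm f (fun l => c * x l)) -
      Real.log (f (MvPolynomial.aeval (fun l => c * x l) F)) =
      q * Real.log (nrm f x) - Real.log (f (MvPolynomial.aeval x F)) := by
    intro f
    have hcp : 0 < f c := f.pos_iff.2 hc0
    have e1 : nrm f (fun l => c * x l) = f c * nrm f x := by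
      unfold nrm
      rw [Real.mul_iSup_of_nonneg (f.nonneg _)]
      simp only [map_mul]
    rw [e1, aeval_hom hFq, map_mul, map_pow, Real.log_mul hcp.ne' (nrm_pos f hx0).ne',
      Real.log_mul (pow_pos hcp _).ne' (f.pos_iff.2 hFx).ne', Real.log_pow]
    ring
  simp only [h2] at h1
  have h3 : C d ≤ ∑ d, |C d| := (le_abs_self _).trans
    (Finset.single_le_sum (f := fun d => |C d|) (fun _ _ => abs_nonneg _) (Finset.mem_univ d))
  have h4 : ∀ w : HeightOneSpectrum (𝓞 L), wt (Sum.inr w : Pl L) = 1 := fun _ => rfl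
  simp only [h4, one_mul] at h1
  refine le_trans h1 ?_
  show (n + 2 * (finrank k L : ℝ) - 1 + ε) * logHeight x + C d ≤ _
  linarith

end Pool.Agent.N750
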