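import Mathlib
import Pool.Agent.N750.SeqX
import Pool.Agent.N750.Res

/-!
Points of a variety on lines of small height.
-/

set_option autoImplicit false
set_option linter.unusedSectionVars false

open Finset Filter Topology

namespace Pool.Agent.N750

open NumberField IsDedekindDomain Height Module
open Pool.Agent.W180.OP (Pl av wt nrm le_nrm nrm_pos wt_nonneg exists_nrm nrm_nonneg)

variable {k K : Type} [Field k] [NumberField k] [Field K] [NumberField K] [Algebra k K]

open Classical in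
/-- **points of a variety on lines of small height** -/
theorem main_X {M q g n' : ℕ} (F : MvPolynomial (Fin M) k) (H : Fin q → Fin M → K)
    (hF : F.map (algebraMap k K) = ∏ i, ∑ j, MvPolynomial.C (H i j) * MvPolynomial.X j)
    (hFq : F.IsHomogeneous q)
    (G : Fin g → MvPolynomial (Fin M) k) (e : Fin g → ℕ) (hG : ∀ i, (G i).IsHomogeneous (e i))
    (hI : (Ideal.span (Set.range G)).IsPrime) (hsm : Sm (n' + 1) G) (hnc : NC G H) :
    ∃ (m : ℕ) (Φ : MvPolynomial (Fin M) k), Φ.IsHomogeneous m ∧ Φ ∉ Ideal.span (Set.range G) ∧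
      ∀ (d : ℕ), 1 ≤ d → ∀ (S : Finset (Pl k)) (C0 ε : ℝ),
      0 < ε → ∃ δ C : ℝ, 0 < δ ∧ ∀ (L : Type) [Field L] [NumberField L] [Algebra k L],
      finrank k L = d → ∀ x : Fin M → L, x ≠ 0 → (∀ i, MvPolynomial.aeval x (G i) = 0) →
      MvPolynomial.aeval x F ≠ 0 → MvPolynomial.aeval x Φ ≠ 0 →
      ∀ (i j : Fin M) (a b : Fin M → k) (E : ℝ),
        a i = 1 → a j = 0 → b i = 0 → b j = 1 →
        (∀ l, x l = algebraMap k L (a l) * x i + algebraMap k L (b l) * x j) →
        (∀ l, logHeight₁ (a l) ≤ E ∧ logHeight₁ (b l) ≤ E) →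
        E ≤ δ * logHeight x + C0 →
      ∀ A : Fin M → Fin (n' + 2) → L, IsTB G x A →
      ∑ v ∈ S, ∑ w ∈ ab L v, wt w * (q * Real.log (nrm (av w) x) -
        Real.log (av w (MvPolynomial.aeval x F))) + logHeight (mv A) ≤
          (n' + 2 * d + ε) * logHeight x + C := by
  obtain ⟨m, Φ, hΦm, hΦI, hgeo⟩ := geo G e hG hI hsm H hnc
  refine ⟨m, Φ, hΦm, hΦI, fun d hd1 S C0 ε hε => ?_⟩
  obtain ⟨C1, C2, hC1, hC2, hkx⟩ := kx_main F H hF hFq G e hG hsm Φ hΦm hgeo d S
  obtain ⟨C3, hC3, htriv⟩ := triv_bound F hFq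
  obtain ⟨C4, hC4, hcrude⟩ := crude G e hG hsm
  by_contra hcon
  push Not at hcon
  have hseq : ∀ t : ℕ, ∃ h E P Gs : ℝ, 0 ≤ h ∧ 0 ≤ E ∧ (n' + 2 * d + ε) * h + t < P + Gs ∧
      P + Gs ≤ (q + C4) * h + (d * C3 + d * C4) ∧
      (h ≤ C1 * (1 + C2 * (1 + E)) ∨ KX d M q n' H S C1 (C2 * (1 + E)) h P Gs) ∧
      E ≤ 1 / ((t : ℝ) + 1) * h + C0 := by
    intro t
    obtain ⟨L, _, _, _, hdL, x, hx0, hXx, hFx, hΦx, i, j, a, b, E, hai, haj, hbi, hbj, hl, hab,
      hEx, A, hA, hP⟩ := hcon (1 / ((t : ℝ) + 1)) t (by positivity)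
    have hE0 : 0 ≤ E := (zero_le_logHeight₁ _).trans (hab i).1
    refine ⟨logHeight x, E, _, _, logHeight_nonneg _, hE0, hP, ?_,
      hkx L hdL x hx0 hXx hFx hΦx i j a b E hai haj hbi hbj hl hab A hA, hEx⟩
    have h1 := htriv L x hx0 hFx (S.biUnion (ab L))
    rw [Finset.sum_biUnion (by
      intro v _ v' _ hvv
      rw [Function.onFun, Finset.disjoint_left]
      intro u hu hu'
      exact hvv (ab_unique hu hu')), hdL] at h1
    have h2 := hcrude L x hx0 hXx A hA
    rw [hdL] at h2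
    linarith
  choose h E P Gs hh0 hE0 hP1 hP2 hKD hE1 using hseq
  have hq : (0 : ℝ) < (q : ℝ) + C4 + 1 := by positivity
  have hbase : (0 : ℝ) ≤ n' + 2 * d + ε := by positivity
  have hlow : ∀ t : ℕ, ((t : ℝ) - (d * C3 + d * C4)) / (q + C4 + 1) ≤ h t := by
    intro t
    rw [div_le_iff₀ hq]
    have h1 := mul_nonneg hbase (hh0 t)
    have := hP1 t
    have := hP2 t
    have := hh0 t
    nlinarith
  have hh : Tendsto h atTop atTop := by
    refine tendsto_atTop_mono hlow ?_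
    refine Tendsto.atTop_div_const hq ?_
    exact tendsto_atTop_add_const_right _ _ tendsto_natCast_atTop_atTop
  have hle : ((hyperfilter ℕ : Ultrafilter ℕ) : Filter ℕ) ≤ atTop := Nat.hyperfilter_le_atTop
  have hh' : Tendsto h (hyperfilter ℕ : Ultrafilter ℕ) atTop := hh.mono_left hle
  have hEs : ∀ η : ℝ, 0 < η → ∀ᶠ t in atTop, E t ≤ η * h t := by
    intro η hη
    obtain ⟨T, hT⟩ := exists_nat_gt (2 / η)
    filter_upwards [eventually_ge_atTop T, hh.eventually_ge_atTop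
      (C0 / (η / 2))] with t ht h2
    refine (hE1 t).trans ?_
    have h3 : 1 / ((t : ℝ) + 1) ≤ η / 2 := by
      rw [div_le_iff₀ (by positivity)]
      have h4 : (T : ℝ) ≤ t := by exact_mod_cast ht
      rw [div_lt_iff₀ hη] at hT
      nlinarith
    have h5 := mul_le_mul_of_nonneg_right h3 (hh0 t)
    rw [div_le_iff₀ (by positivity)] at h2
    linarith
  have hEs' : ∀ η : ℝ, 0 < η → ∀ᶠ t in atTop, C2 * (1 + E t) ≤ η * h t := by
    intro η hη
    have hC20 : 0 < C2 := by linarith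
    filter_upwards [hEs (η / (2 * C2)) (by positivity), hh.eventually_ge_atTop
      (C2 / (η / 2))] with t h1 h2
    rw [div_le_iff₀ (by positivity)] at h2
    have h3 := mul_le_mul_of_nonneg_left h1 hC20.le
    have h4 : C2 * (η / (2 * C2) * h t) = η / 2 * h t := by field_simp
    linarith
  have hKD' : ∀ᶠ t in atTop, KX d M q n' H S C1 (C2 * (1 + E t)) (h t) (P t) (Gs t) := by
    filter_upwards [hEs' (1 / (2 * (C1 + 1))) (by positivity),
      hh.eventually_gt_atTop (2 * C1)] with t h1 h2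
    refine (hKD t).resolve_left fun h3 => ?_
    have h4 := mul_le_mul_of_nonneg_left h1 hC1
    have h5 : C1 * (1 / (2 * (C1 + 1)) * h t) ≤ h t / 2 := by
      have e1 : C1 * (1 / (2 * (C1 + 1)) * h t) = C1 / (C1 + 1) * (h t / 2) := by
        have : C1 + 1 ≠ 0 := by positivity
        field_simp
      rw [e1]
      refine mul_le_of_le_one_left (by have := hh0 t; linarith) ?_
      rw [div_le_one (by positivity)]
      linarith
    linarith
  have hfin := seq_boundX hd1 H S C1 (fun t => C2 * (1 + E t)) h P Gs (hyperfilter ℕ) hh'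
    (fun t => mul_nonneg (by linarith) (by have := hE0 t; linarith))
    (fun η hη => hle (hEs' η hη)) (hle hKD') ε hε
  obtain ⟨t, ht⟩ := hfin.exists
  have h1 := hP1 t
  have h2 := Nat.cast_nonneg (α := ℝ) t
  linarith

open Classical in
/-- **points of degree `d` with almost maximal discriminant** -/
theorem main_Xd {M q g n' : ℕ} (F : MvPolynomial (Fin M) k) (H : Fin q → Fin M → K)
    (hF : F.map (algebraMap k K) = ∏ i, ∑ j, MvPolynomial.C (H i j) * MvPolynomial.X j)
    (hFq : F.IsHomogeneous q)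
    (G : Fin g → MvPolynomial (Fin M) k) (e : Fin g → ℕ) (hG : ∀ i, (G i).IsHomogeneous (e i))
    (hI : (Ideal.span (Set.range G)).IsPrime) (hsm : Sm (n' + 1) G) (hnc : NC G H) :
    ∃ (m : ℕ) (Φ : MvPolynomial (Fin M) k), Φ.IsHomogeneous m ∧ Φ ∉ Ideal.span (Set.range G) ∧
      (∀ (d : ℕ), 2 ≤ d → ∀ (S : Finset (Pl k)) (ε : ℝ),
      0 < ε → ∃ δ C : ℝ, 0 < δ ∧ ∀ (L : Type) [Field L] [NumberField L] [Algebra k L],
      finrank k L = d → ∀ x : Fin M → L, Gen k x → x ≠ 0 →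
      (∀ i, MvPolynomial.aeval x (G i) = 0) →
      MvPolynomial.aeval x F ≠ 0 → MvPolynomial.aeval x Φ ≠ 0 →
      (2 * (d - 1) - δ) * logHeight x ≤
        Real.log (Ideal.absNorm (differentIdeal (𝓞 k) (𝓞 L))) →
      ∀ A : Fin M → Fin (n' + 2) → L, IsTB G x A →
      ∑ v ∈ S, ∑ w ∈ ab L v, wt w * (q * Real.log (nrm (av w) x) -
        Real.log (av w (MvPolynomial.aeval x F))) + logHeight (mv A) ≤
          (n' + 2 * d + ε) * logHeight x + C) ∧
      ∀ (d : ℕ), 1 ≤ d → ∀ (S : Finset (Pl k)) (C0 ε : ℝ),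
      0 < ε → ∃ δ C : ℝ, 0 < δ ∧ ∀ (L : Type) [Field L] [NumberField L] [Algebra k L],
      finrank k L = d → ∀ x : Fin M → L, x ≠ 0 → (∀ i, MvPolynomial.aeval x (G i) = 0) →
      MvPolynomial.aeval x F ≠ 0 → MvPolynomial.aeval x Φ ≠ 0 →
      ∀ (i j : Fin M) (a b : Fin M → k) (E : ℝ),
        a i = 1 → a j = 0 → b i = 0 → b j = 1 →
        (∀ l, x l = algebraMap k L (a l) * x i + algebraMap k L (b l) * x j) →
        (∀ l, logHeight₁ (a l) ≤ E ∧ logHeight₁ (b l) ≤ E) →
        E ≤ δ * logHeight x + C0 →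
      ∀ A : Fin M → Fin (n' + 2) → L, IsTB G x A →
      ∑ v ∈ S, ∑ w ∈ ab L v, wt w * (q * Real.log (nrm (av w) x) -
        Real.log (av w (MvPolynomial.aeval x F))) + logHeight (mv A) ≤
          (n' + 2 * d + ε) * logHeight x + C := by
  obtain ⟨m, Φ, hΦm, hΦI, hmain⟩ := main_X F H hF hFq G e hG hI hsm hnc
  refine ⟨m, Φ, hΦm, hΦI, fun d hd2 S ε hε => ?_, hmain⟩
  rcases Nat.eq_zero_or_pos M with hM | hM
  · refine ⟨1, 0, one_pos, fun L _ _ _ _ x _ hx0 => absurd ?_ hx0⟩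
    subst hM
    exact Subsingleton.elim _ _
  obtain ⟨C2, hC2, hline⟩ := line_thm d M hd2 hM
  obtain ⟨δ, C, hδ, hall⟩ := hmain d (by omega) S (finrank ℚ k * C2) ε hε
  obtain ⟨C3, hC3, htriv⟩ := triv_bound F hFq
  obtain ⟨C4, hC4, hcrude⟩ := crude G e hG hsm
  have hd0 : (0 : ℝ) < d := by
    have : 0 < d := by omega
    exact_mod_cast this
  set C5 : ℝ := (q + C4) * (2 * d * (finrank ℚ k * C2)) + (d * C3 + d * C4) with hC5
  refine ⟨min δ (1 / (2 * d)), max C C5, lt_min hδ (by positivity), ?_⟩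
  intro L _ _ _ hdL x hx hx0 hXx hFx hΦx hdisc A hA
  obtain ⟨hE0, hE⟩ := hline k L hdL x hx _ rfl
  set E : ℝ := ((2 * (d - 1) : ℕ) : ℝ) * logHeight x -
    Real.log (Ideal.absNorm (differentIdeal (𝓞 k) (𝓞 L))) + finrank ℚ k * C2 with hEdef
  have h2 : ((2 * (d - 1) : ℕ) : ℝ) = 2 * (d - 1) := by
    rw [Nat.cast_mul, Nat.cast_sub (by omega)]
    norm_num
  have hEx : E ≤ min δ (1 / (2 * d)) * logHeight x + finrank ℚ k * C2 := by
    rw [hEdef, h2]
    linarith
  have hht := logHeight_nonneg x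
  have hbase : (0 : ℝ) ≤ n' + 2 * d + ε := by positivity
  rcases hE with hE | ⟨i, j, a, b, hai, haj, hbi, hbj, hl, hab⟩
  · have h3 : logHeight x ≤ 2 * d * (finrank ℚ k * C2) := by
      have e1 : min δ (1 / (2 * d)) * logHeight x ≤ 1 / (2 * d) * logHeight x :=
        mul_le_mul_of_nonneg_right (min_le_right _ _) hht
      have e2 := mul_le_mul_of_nonneg_left (hEx.trans (add_le_add_left e1 _)) hd0.le
      have e3 : (d : ℝ) * (1 / (2 * d) * logHeight x + finrank ℚ k * C2) =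
          logHeight x / 2 + d * (finrank ℚ k * C2) := by
        field_simp
      rw [e3] at e2
      linarith
    have h4 := htriv L x hx0 hFx (S.biUnion (ab L))
    rw [Finset.sum_biUnion (by
      intro v _ v' _ hvv
      rw [Function.onFun, Finset.disjoint_left]
      intro u hu hu'
      exact hvv (ab_unique hu hu')), hdL] at h4
    have h5 := hcrude L x hx0 hXx A hA
    rw [hdL] at h5
    have h6 : (q + C4) * logHeight x ≤ (q + C4) * (2 * d * (finrank ℚ k * C2)) :=
      mul_le_mul_of_nonneg_left h3 (by positivity)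
    have h7 := mul_nonneg hbase hht
    have h8 := le_max_right C C5
    linarith
  · have h3 := hall L hdL x hx0 hXx hFx hΦx i j a b E hai haj hbi hbj hl hab (hEx.trans
      (add_le_add_left (mul_le_mul_of_nonneg_right (min_le_left _ _) hht) _)) A hA
    have h4 := le_max_left C C5
    linarith

end Pool.Agent.N750
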