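import Mathlib
import Pool.Agent.N750.MainS

/-!
Linear subspaces of small height, Pluecker coordinates.
-/

set_option autoImplicit false
set_option linter.unusedSectionVars false

open Filter Topology

namespace Pool.Agent.N750

open NumberField IsDedekindDomain Height Module MvPolynomial
open Pool.Agent.W180.OP (Pl av wt nrm le_nrm nrm_pos wt_nonneg exists_nrm)

/-- a normalized basis of a linear subspace -/
theorem pivotsN {K : Type} [Field K] [NumberField K] {M N : ℕ} (u : Fin N → Fin M → K)
    (hu : LinearIndependent K u) :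
    ∃ b : Fin N → Fin M → K, (∀ l, b l ∈ Submodule.span K (Set.range u)) ∧
      (∀ l, u l ∈ Submodule.span K (Set.range b)) ∧ N ≤ M ∧
      ∀ l j, logHeight₁ (b l j) ≤
        logHeight (fun J : Fin N → Fin M => (Matrix.of fun i c => u i (J c)).det) := by
  classical
  obtain ⟨I, hI⟩ := exists_minor (fun j l => u l j) hu
  set P : Matrix (Fin N) (Fin N) K := Matrix.of fun i c => u i (I c) with hP
  have hdet : P.det ≠ 0 := by
    rw [← Matrix.det_transpose]
    exact hI
  have hPu : IsUnit P.det := hdet.isUnit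
  set b : Fin N → Fin M → K := fun l j => ∑ m, P⁻¹ l m * u m j with hb
  have hbj : ∀ j, (fun l => b l j) = P⁻¹.mulVec (fun m => u m j) := fun j => rfl
  have hbu : ∀ l, b l = ∑ m, P⁻¹ l m • u m := by
    intro l
    funext j
    rw [Finset.sum_apply]
    rfl
  have hub : ∀ i, u i = ∑ l, P i l • b l := by
    intro i
    funext j
    have h1 : P.mulVec (fun l => b l j) = fun m => u m j := by
      rw [hbj, Matrix.mulVec_mulVec, Matrix.mul_nonsing_inv P hPu, Matrix.one_mulVec]
    rw [Finset.sum_apply]
    exact (congrFun h1 i).symm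
  have hbdet : ∀ l j, b l j = (Matrix.of fun i c => u i ((Function.update I l j) c)).det /
      (Matrix.of fun i c => u i (I c)).det := by
    intro l j
    have h1 : P⁻¹.mulVec (fun m => u m j) = P.det⁻¹ • P.cramer (fun m => u m j) := by
      rw [Matrix.inv_def, Ring.inverse_eq_inv', Matrix.smul_mulVec,
        Matrix.cramer_eq_adjugate_mulVec]
    have h2 := congrFun (hbj j) l
    rw [h1, Pi.smul_apply, smul_eq_mul, Matrix.cramer_apply] at h2
    have h3 : P.updateCol l (fun m => u m j) =
        Matrix.of fun i c => u i ((Function.update I l j) c) := by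
      ext i c
      rw [Matrix.updateCol_apply, Matrix.of_apply, Function.update_apply]
      by_cases hc : c = l
      · rw [if_pos hc, if_pos hc]
      · rw [if_neg hc, if_neg hc]
        rfl
    rw [h3] at h2
    rw [div_eq_inv_mul]
    exact h2
  refine ⟨b, fun l => ?_, fun i => ?_, ?_, fun l j => ?_⟩
  · rw [hbu]
    exact Submodule.sum_mem _ fun m _ => Submodule.smul_mem _ _
      (Submodule.subset_span ⟨m, rfl⟩)
  · rw [hub]
    exact Submodule.sum_mem _ fun m _ => Submodule.smul_mem _ _
      (Submodule.subset_span ⟨m, rfl⟩)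
  · have h1 := hu.fintype_card_le_finrank
    rwa [Fintype.card_fin, Module.finrank_fin_fun] at h1
  · rw [hbdet, logHeight₁_div_eq_logHeight]
    have h1 : (![(Matrix.of fun i c => u i ((Function.update I l j) c)).det,
        (Matrix.of fun i c => u i (I c)).det] : Fin 2 → K) =
        (fun J : Fin N → Fin M => (Matrix.of fun i c => u i (J c)).det) ∘
          ![Function.update I l j, I] := by
      funext s
      fin_cases s <;> rfl
    rw [h1]
    exact logHeight_comp_le _ _

/-- **rational points on linear subspaces of small height** -/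
theorem main_Sr {k K : Type} [Field k] [NumberField k] [Field K] [NumberField K] [Algebra k K]
    {M q g n' : ℕ} (G : Fin g → MvPolynomial (Fin M) k) (e : Fin g → ℕ)
    (hG : ∀ i, (G i).IsHomogeneous (e i)) (hI : (Ideal.span (Set.range G)).IsPrime)
    (hsm : Sm (n' + 1) G) (Hf : Fin q → Fin M → K) (hnc : NCs G Hf) :
    ∃ (m : ℕ) (Φ : MvPolynomial (Fin M) k), Φ.IsHomogeneous m ∧ Φ ∉ Ideal.span (Set.range G) ∧
      ∀ (S : Finset (HeightOneSpectrum (𝓞 K))) (C0 ε : ℝ), 0 < ε → ∃ δ C : ℝ, 0 < δ ∧
      ∀ (x : Fin M → K), x ≠ 0 → (∀ s, lv (Hf s) x ≠ 0) → aeval x Φ ≠ 0 →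
      ∀ (N : ℕ) (u : Fin N → Fin M → K), LinearIndependent K u →
        x ∈ Submodule.span K (Set.range u) →
        (∀ z ∈ Submodule.span K (Set.range u), ∀ i, aeval z (G i) = 0) →
        logHeight (fun J : Fin N → Fin M => (Matrix.of fun i c => u i (J c)).det) ≤
          δ * logHeight x + C0 →
      ∀ A : Fin M → Fin (n' + 2) → K, IsTB G x A →
      ∑ w : InfinitePlace K, (w.mult : ℝ) * ∑ s, (Real.log (nrm w.1 x) -
        Real.log (w.1 (lv (Hf s) x))) + ∑ w ∈ S, ∑ s, (Real.log (nrm (FinitePlace.mk w).1 x) -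
        Real.log ((FinitePlace.mk w).1 (lv (Hf s) x))) + logHeight (mv A) ≤
          (n' + 2 + ε) * logHeight x + C := by
  classical
  obtain ⟨m, Φ, hΦm, hΦI, hmain⟩ := main_S G e hG hI hsm Hf hnc
  refine ⟨m, Φ, hΦm, hΦI, fun S C0 ε hε => ?_⟩
  obtain ⟨δ, C, hδ, h⟩ := hmain ((Finset.univ : Finset (InfinitePlace K)).disjSum S) |C0| ε hε
  refine ⟨δ, C, hδ, ?_⟩
  intro x hx0 hxF hxΦ N u hu hxu huX hht A hA
  obtain ⟨b, hb1, hb2, hNM, hb3⟩ := pivotsN u hu
  have hxb : x ∈ Submodule.span K (Set.range b) := by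
    have h1 : Submodule.span K (Set.range u) ≤ Submodule.span K (Set.range b) := by
      rw [Submodule.span_le]
      rintro _ ⟨l, rfl⟩
      exact hb2 l
    exact h1 hxu
  obtain ⟨c, hc⟩ := (Submodule.mem_span_range_iff_exists_fun K).1 hxb
  -- padding
  set b' : Fin M → Fin M → K := fun l => if hl : l.1 < N then b ⟨l.1, hl⟩ else 0 with hb'
  set c' : Fin M → K := fun l => if hl : l.1 < N then c ⟨l.1, hl⟩ else 0 with hc'
  have hpad : ∀ Y : Fin M → K, pt b' Y = ∑ l : Fin N, Y (Fin.castLE hNM l) • b l := by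
    intro Y
    funext j
    rw [Finset.sum_apply]
    unfold pt
    have h1 : ∀ l : Fin M, l ∉ Finset.univ.map (Fin.castLEEmb hNM) → Y l * b' l j = 0 := by
      intro l hl
      have h2 : ¬ l.1 < N := by
        intro h3
        apply hl
        rw [Finset.mem_map]
        exact ⟨⟨l.1, h3⟩, Finset.mem_univ _, rfl⟩
      rw [hb']
      simp only
      rw [dif_neg h2]
      simp
    rw [← Finset.sum_subset (Finset.subset_univ (Finset.univ.map (Fin.castLEEmb hNM)))
      (fun l _ hl => h1 l hl), Finset.sum_map]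
    refine Finset.sum_congr rfl fun l _ => ?_
    have h2 : b' (Fin.castLE hNM l) = b l := by
      rw [hb']
      simp only
      rw [dif_pos (show (Fin.castLE hNM l).1 < N from l.2)]
      rfl
    show Y (Fin.castLE hNM l) * b' (Fin.castLE hNM l) j = _
    rw [h2]
    rfl
  have hxpt : x = pt b' c' := by
    rw [hpad, ← hc]
    refine Finset.sum_congr rfl fun l _ => ?_
    congr 1
    rw [hc']
    simp only
    rw [dif_pos (show (Fin.castLE hNM l).1 < N from l.2)]
    rfl
  have hb'X : LX G b' := by
    intro Y i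
    rw [hpad]
    refine huX _ ?_ i
    exact Submodule.sum_mem _ fun l _ => Submodule.smul_mem _ _ (hb1 l)
  have hδx : 0 ≤ δ * logHeight x + |C0| :=
    add_nonneg (mul_nonneg hδ.le (logHeight_nonneg _)) (abs_nonneg _)
  have hb'h : ∀ l j, logHeight₁ (b' l j) ≤ δ * logHeight x + |C0| := by
    intro l j
    rw [hb']
    simp only
    split_ifs with hl
    · refine (hb3 _ _).trans (hht.trans ?_)
      have := le_abs_self C0
      linarith
    · rw [Pi.zero_apply, logHeight₁_zero]
      exact hδx
  have h1 := h b' c' hb'X (by rw [← hxpt]; exact hx0) (by rw [← hxpt]; exact hxF)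
    (by rw [← hxpt]; exact hxΦ) (by rw [← hxpt]; exact hb'h) A (by rw [← hxpt]; exact hA)
  rw [← hxpt, Finset.sum_disjSum] at h1
  have h4 : ∀ w : HeightOneSpectrum (𝓞 K), wt (Sum.inr w : Pl K) = 1 := fun _ => rfl
  simp only [h4, one_mul] at h1
  exact h1

end Pool.Agent.N750
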