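import Mathlib
import Pool.Agent.N750.MainX

/-!
Points of bounded degree of a variety with almost maximal discriminant, and rational points on lines
of small height.
-/

set_option autoImplicit false
set_option linter.unusedSectionVars false

open Finset Filter Topology

namespace Pool.Agent.N750

open NumberField IsDedekindDomain Height Module
open Pool.Agent.W180.OP (Pl av wt nrm le_nrm nrm_pos wt_nonneg exists_nrm nrm_nonneg)

variable {k : Type} [Field k] [NumberField k]

theorem hom_F {K : Type} [Field K] [Algebra k K] {M q : ℕ}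
    (F : MvPolynomial (Fin M) k) (H : Fin q → Fin M → K)
    (hF : F.map (algebraMap k K) = ∏ i, ∑ j, MvPolynomial.C (H i j) * MvPolynomial.X j) :
    F.IsHomogeneous q := by
  refine MvPolynomial.IsHomogeneous.of_map (f := algebraMap k K) (algebraMap k K).injective ?_
  rw [hF]
  have h1 := MvPolynomial.IsHomogeneous.prod (Finset.univ : Finset (Fin q))
    (fun i => ∑ j, MvPolynomial.C (H i j) * MvPolynomial.X j) (fun _ => 1) (fun i _ => by
      refine MvPolynomial.IsHomogeneous.sum _ _ _ fun j _ => ?_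
      exact MvPolynomial.isHomogeneous_C_mul_X _ _)
  simpa using h1

/-- the places above a place, in the same field -/
theorem ab_self (v : Pl k) : ab k v = {v} := by
  classical
  ext w
  rw [Finset.mem_singleton]
  rcases v with v | v
  · unfold ab
    rw [Finset.mem_map]
    constructor
    · rintro ⟨w', hw', rfl⟩
      rw [Finset.mem_filter] at hw'
      have h1 := hw'.2
      rw [Algebra.algebraMap_self, InfinitePlace.comap_id] at h1
      rw [h1]
      rfl
    · rintro rfl
      refine ⟨v, ?_, rfl⟩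
      rw [Finset.mem_filter]
      refine ⟨Finset.mem_univ _, ?_⟩
      rw [Algebra.algebraMap_self, InfinitePlace.comap_id]
  · have key : ∀ w : HeightOneSpectrum (𝓞 k), w.asIdeal.LiesOver v.asIdeal ↔ w = v := by
      intro w
      have h0 : w.asIdeal.under (𝓞 k) = w.asIdeal := by
        ext x
        rw [Ideal.under_def, Ideal.mem_comap]
        have : algebraMap (𝓞 k) (𝓞 k) x = x := by
          ext
          rfl
        rw [this]
      constructor
      · intro h
        have h1 := h.over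
        rw [h0] at h1
        exact (HeightOneSpectrum.ext h1).symm
      · rintro rfl
        exact ⟨h0.symm⟩
    unfold ab
    rw [Finset.mem_map]
    constructor
    · rintro ⟨w', hw', rfl⟩
      rw [Set.Finite.mem_toFinset] at hw'
      rw [(key w').1 hw']
      rfl
    · rintro rfl
      refine ⟨v, ?_, rfl⟩
      rw [Set.Finite.mem_toFinset]
      exact (key v).2 rfl

/-- the pivots of a line -/
theorem pivots {M : ℕ} (u v x : Fin M → k) (α β : k) (hx : ∀ l, x l = α * u l + β * v l)
    (hw : ∃ p q, u p * v q - u q * v p ≠ 0) :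
    ∃ (i j : Fin M) (a b : Fin M → k), a i = 1 ∧ a j = 0 ∧ b i = 0 ∧ b j = 1 ∧
      (∀ l, x l = a l * x i + b l * x j) ∧
      ∀ l, logHeight₁ (a l) ≤ logHeight (fun p : Fin M × Fin M => u p.1 * v p.2 - u p.2 * v p.1) ∧
        logHeight₁ (b l) ≤ logHeight (fun p : Fin M × Fin M => u p.1 * v p.2 - u p.2 * v p.1) := by
  classical
  obtain ⟨i, j, hij⟩ := hw
  set π : k := u i * v j - u j * v i with hπ
  set W : Fin M × Fin M → k := fun p => u p.1 * v p.2 - u p.2 * v p.1 with hW
  have hht : ∀ p p' : Fin M × Fin M, W p' ≠ 0 → logHeight₁ (W p / W p') ≤ logHeight W := by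
    intro p p' hp'
    rw [logHeight₁_div_eq_logHeight]
    have h1 : (![W p, W p'] : Fin 2 → k) = W ∘ ![p, p'] := by
      funext s
      fin_cases s <;> rfl
    rw [h1]
    exact logHeight_comp_le _ _
  refine ⟨i, j, fun l => W (l, j) / W (i, j), fun l => W (i, l) / W (i, j), ?_, ?_, ?_, ?_, ?_,
    fun l => ⟨hht _ _ hij, hht _ _ hij⟩⟩
  · exact div_self hij
  · show W (j, j) / W (i, j) = 0
    rw [hW]
    simp
  · show W (i, i) / W (i, j) = 0
    rw [hW]
    simp
  · exact div_self hij
  · intro l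
    show x l = W (l, j) / W (i, j) * x i + W (i, l) / W (i, j) * x j
    have hW0 : W (i, j) ≠ 0 := hij
    field_simp
    rw [hx l, hx i, hx j, hW]
    ring

/-- **points of bounded degree with almost maximal discriminant, and rational points on lines** -/
theorem main_Xr {K : Type} [Field K] [NumberField K] [Algebra k K] {M q g n' : ℕ}
    (F : MvPolynomial (Fin M) k) (H : Fin q → Fin M → K)
    (hF : F.map (algebraMap k K) = ∏ i, ∑ j, MvPolynomial.C (H i j) * MvPolynomial.X j)
    (G : Fin g → MvPolynomial (Fin M) k) (e : Fin g → ℕ) (hG : ∀ i, (G i).IsHomogeneous (e i))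
    (hI : (Ideal.span (Set.range G)).IsPrime) (hsm : Sm (n' + 1) G) (hnc : NC G H) :
    ∃ (m : ℕ) (Φ : MvPolynomial (Fin M) k), Φ.IsHomogeneous m ∧ Φ ∉ Ideal.span (Set.range G) ∧
      (∀ (S : Finset (HeightOneSpectrum (𝓞 k))) (r : ℕ) (ε : ℝ),
      0 < ε → ∃ δ C : ℝ, 0 < δ ∧ ∀ (L : Type) [Field L] [NumberField L] [Algebra k L]
      (x : Fin M → L), 2 ≤ finrank k L → finrank k L ≤ r → Gen k x →
      x ≠ 0 → (∀ i, MvPolynomial.aeval x (G i) = 0) →
      MvPolynomial.aeval x F ≠ 0 → MvPolynomial.aeval x Φ ≠ 0 →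
      (2 * (finrank k L - 1) - δ) * logHeight x ≤
        Real.log |(discr L : ℝ)| - finrank k L * Real.log |(discr k : ℝ)| →
      ∀ A : Fin M → Fin (n' + 2) → L, IsTB G x A →
      ∑ w : InfinitePlace L, (w.mult : ℝ) * (q * Real.log (nrm w.1 x) -
          Real.log (w (MvPolynomial.aeval x F))) +
        ∑ᶠ w ∈ {w : HeightOneSpectrum (𝓞 L) | ∃ v ∈ S, w.asIdeal.LiesOver v.asIdeal},
          (q * Real.log (nrm (FinitePlace.mk w).1 x) -
            Real.log (FinitePlace.mk w (MvPolynomial.aeval x F))) + logHeight (mv A) ≤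
        (n' + 2 * finrank k L + ε) * logHeight x + C) ∧
      (∀ (S : Finset (HeightOneSpectrum (𝓞 k))) (C0 ε : ℝ),
      0 < ε → ∃ δ C : ℝ, 0 < δ ∧ ∀ (x : Fin M → k),
      x ≠ 0 → (∀ i, MvPolynomial.eval x (G i) = 0) →
      MvPolynomial.eval x F ≠ 0 → MvPolynomial.eval x Φ ≠ 0 →
      ∀ (u v : Fin M → k) (α β : k), (∀ l, x l = α * u l + β * v l) →
      (∃ p q, u p * v q - u q * v p ≠ 0) →
      logHeight (fun p : Fin M × Fin M => u p.1 * v p.2 - u p.2 * v p.1) ≤
        δ * logHeight x + C0 →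
      ∀ A : Fin M → Fin (n' + 2) → k, IsTB G x A →
      ∑ w : InfinitePlace k, (w.mult : ℝ) * (q * Real.log (nrm w.1 x) -
          Real.log (w (MvPolynomial.eval x F))) +
        ∑ w ∈ S, (q * Real.log (nrm (FinitePlace.mk w).1 x) -
            Real.log (FinitePlace.mk w (MvPolynomial.eval x F))) + logHeight (mv A) ≤
        (n' + 2 + ε) * logHeight x + C) := by
  classical
  have hFq := hom_F F H hF
  obtain ⟨m, Φ, hΦm, hΦI, hG1, hG2⟩ := main_Xd F H hF hFq G e hG hI hsm hnc
  refine ⟨m, Φ, hΦm, hΦI, fun S r ε hε => ?_, fun S C0 ε hε => ?_⟩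
  · choose δ C hδ hmain using fun d : Finset.Icc 2 r => hG1 d.1 (Finset.mem_Icc.1 d.2).1
      ((Finset.univ : Finset (InfinitePlace k)).disjSum S) ε hε
    -- a common `δ`
    obtain ⟨δ₀, hδ₀, hδle⟩ : ∃ δ₀ : ℝ, 0 < δ₀ ∧ ∀ d, δ₀ ≤ δ d := by
      rcases isEmpty_or_nonempty (Finset.Icc 2 r) with he | he
      · exact ⟨1, one_pos, fun d => isEmptyElim d⟩
      · obtain ⟨d, hd⟩ := Finite.exists_min δ
        exact ⟨δ d, hδ d, hd⟩
    refine ⟨δ₀, ∑ d, |C d|, hδ₀, ?_⟩
    intro L _ _ _ x hd2 hdr hx hx0 hXx hFx hΦx hdisc A hA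
    set d : Finset.Icc 2 r := ⟨finrank k L, Finset.mem_Icc.2 ⟨hd2, hdr⟩⟩ with hd
    have h1 := hmain d L rfl x hx hx0 hXx hFx hΦx (by
      rw [log_diff]
      refine le_trans (mul_le_mul_of_nonneg_right ?_ (logHeight_nonneg _)) hdisc
      have := hδle d
      show 2 * ((finrank k L : ℝ) - 1) - δ d ≤ _
      linarith) A hA
    rw [sum_places] at h1
    have h3 : C d ≤ ∑ d, |C d| := (le_abs_self _).trans
      (Finset.single_le_sum (f := fun d => |C d|) (fun _ _ => abs_nonneg _) (Finset.mem_univ d))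
    have h4 : ∀ w : HeightOneSpectrum (𝓞 L), wt (Sum.inr w : Pl L) = 1 := fun _ => rfl
    simp only [h4, one_mul] at h1
    refine le_trans h1 ?_
    show (n' + 2 * (finrank k L : ℝ) + ε) * logHeight x + C d ≤ _
    linarith
  · obtain ⟨δ, C, hδ, hmain⟩ := hG2 1 le_rfl ((Finset.univ : Finset (InfinitePlace k)).disjSum S)
      C0 ε hε
    refine ⟨δ, C, hδ, ?_⟩
    intro x hx0 hXx hFx hΦx u v α β hxl hw hht A hA
    obtain ⟨i, j, a, b, hai, haj, hbi, hbj, hl, hab⟩ := pivots u v x α β hxl hw
    have hev : ∀ P : MvPolynomial (Fin M) k, MvPolynomial.aeval x P = MvPolynomial.eval x P :=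
      fun P => by
        rw [MvPolynomial.aeval_def, MvPolynomial.eval, MvPolynomial.coe_eval₂Hom]
        rfl
    have h1 := hmain k (finrank_self k) x hx0 (fun i => by rw [hev]; exact hXx i)
      (by rw [hev]; exact hFx) (by rw [hev]; exact hΦx) i j a b _ hai haj hbi hbj hl hab hht A hA
    simp only [ab_self, Finset.sum_singleton] at h1
    rw [Finset.sum_disjSum, hev] at h1
    have h4 : ∀ w : HeightOneSpectrum (𝓞 k), wt (Sum.inr w : Pl k) = 1 := fun _ => rfl
    simp only [h4, one_mul] at h1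
    refine le_trans h1 (le_of_eq ?_)
    push_cast
    ring

end Pool.Agent.N750
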